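import Pool.Agent.Strip051.LC.E1.Ch.Lb2

/-! # Rests near the full period: certificates of the line -/

set_option maxRecDepth 100000

namespace Pool.Agent.Strip051.LC.E1.Ch

open Pool.Agent.Strip051.PB
open Pool.Agent.Strip051.LC.E0.Ch (onCell Tree)


def xl_i_f_t0 : T :=
  (.l 0)

theorem xl_i_f_h0 : chk3 (onCell 912680550 161061274 0 0 0 26843546 (tnn fffl)) xl_i_f_t0 1 1 1 = true := by decide +kernel

theorem xl_i_f : Tree 912680550 161061274 0 0 0 26843546 (tnn fffl) :=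
  ⟨_, xl_i_f_h0⟩

def xl_d_f_t0 : T :=
  (.a (.l 0) (.a (.l 0) (.a (.l 0) (.c (.l 0) (.l 0)))))

theorem xl_d_f_h0 : chk3 (onCell 644245094 268435457 0 0 0 26843546 (tnn ldf)) xl_d_f_t0 1 1 1 = true := by decide +kernel

theorem xl_d_f : Tree 644245094 268435457 0 0 0 26843546 (tnn ldf) :=
  ⟨_, xl_d_f_h0⟩

def xl_w_f_t0 : T :=
  (.l 0)

theorem xl_w_f_h0 : chk3 (onCell 1073741824 13421773 0 0 0 26843546 (tnn lwf)) xl_w_f_t0 1 1 1 = true := by decide +kernel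

theorem xl_w_f : Tree 1073741824 13421773 0 0 0 26843546 (tnn lwf) :=
  ⟨_, xl_w_f_h0⟩

def xl_o_f_t0 : T :=
  (.l 0)

theorem xl_o_f_h0 : chk3 (onCell 1073741824 107374183 0 0 0 26843546 (tnn lof)) xl_o_f_t0 1 1 1 = true := by decide +kernel

theorem xl_o_f : Tree 1073741824 107374183 0 0 0 26843546 (tnn lof) :=
  ⟨_, xl_o_f_h0⟩

theorem lbc_f : LbC fffl lwf lof ldf := LbC.of xl_i_f xl_d_f xl_w_f xl_o_f

def xl_i_n_t0 : T :=
  (.l 0)

theorem xl_i_n_h0 : chk3 (onCell 912680550 161061274 0 0 0 26843546 (tnn ffnl)) xl_i_n_t0 1 1 1 = true := by decide +kernel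

theorem xl_i_n : Tree 912680550 161061274 0 0 0 26843546 (tnn ffnl) :=
  ⟨_, xl_i_n_h0⟩

def xl_d_n_t0 : T :=
  (.a (.a (.l 0) (.l 0)) (.a (.a (.l 0) (.a (.l 0) (.l 0))) (.a (.c (.a (.l 0) (.l 0)) (.a (.l 0)
      (.l 0))) (.c (.c (.l 0) (.l 0)) (.c (.l 0) (.a (.l 0) (.l 0)))))))

theorem xl_d_n_h0 : chk3 (onCell 644245094 268435457 0 0 0 26843546 (tnn ldn)) xl_d_n_t0 1 1 1 = true := by decide +kernel

theorem xl_d_n : Tree 644245094 268435457 0 0 0 26843546 (tnn ldn) :=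
  ⟨_, xl_d_n_h0⟩

def xl_w_n_t0 : T :=
  (.l 0)

theorem xl_w_n_h0 : chk3 (onCell 1073741824 13421773 0 0 0 26843546 (tnn lwn)) xl_w_n_t0 1 1 1 = true := by decide +kernel

theorem xl_w_n : Tree 1073741824 13421773 0 0 0 26843546 (tnn lwn) :=
  ⟨_, xl_w_n_h0⟩

def xl_o_n_t0 : T :=
  (.l 0)

theorem xl_o_n_h0 : chk3 (onCell 1073741824 107374183 0 0 0 26843546 (tnn lon)) xl_o_n_t0 1 1 1 = true := by decide +kernel

theorem xl_o_n : Tree 1073741824 107374183 0 0 0 26843546 (tnn lon) :=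
  ⟨_, xl_o_n_h0⟩

theorem lbc_n : LbC ffnl lwn lon ldn := LbC.of xl_i_n xl_d_n xl_w_n xl_o_n

end Pool.Agent.Strip051.LC.E1.Ch
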