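import Pool.Agent.Strip051.LC.E1.Ch.Te

/-! # Rests near the full period: certificates P1 -/

set_option maxRecDepth 100000

namespace Pool.Agent.Strip051.LC.E1.Ch

open Pool.Agent.Strip051.PB
open Pool.Agent.Strip051.LC.E0.Ch (onCell Tree)

def x1_t1a_W_f_t0 : T :=
  (.a (.a (.a (.l 5003) (.l 5067)) (.a (.b (.a (.a (.l 4995) (.l 4995)) (.a (.l 4995) (.l 4995)))
      (.a (.a (.l 4995) (.l 4995)) (.a (.l 4995) (.l 4995)))) (.b (.a (.a (.l 4995) (.l 4995))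
      (.l 4995)) (.a (.l 4995) (.l 4995))))) (.a (.b (.a (.a (.l 4995) (.l 5059)) (.a (.l 5059)
      (.l 5059))) (.a (.a (.l 4995) (.l 4995)) (.l 4995))) (.b (.a (.l 5059) (.l 5059)) (.a (.l
      4995) (.l 4995)))))

theorem x1_t1a_W_f_h0 : chk3 (onCell 0 2684354560 0 1073741824 0 26843546 T1_t1a_W_f) x1_t1a_W_f_t0 1 1 1 = true := by decide +kernel

theorem x1_t1a_W_f : Tree 0 2684354560 0 1073741824 0 26843546 T1_t1a_W_f :=
  ⟨_, x1_t1a_W_f_h0⟩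

def x2_t1a_W_f_t0 : T :=
  (.c (.a (.b (.l 4035) (.l 4035)) (.b (.l 4035) (.l 3971))) (.a (.a (.b (.l 1987) (.l 1987)) (.b
      (.l 1987) (.l 1987))) (.b (.l 1987) (.l 1923))))

theorem x2_t1a_W_f_h0 : chk3 (onCell 0 1073741824 0 429496730 0 67108864 T2_t1a_W_f) x2_t1a_W_f_t0 1 1 1 = true := by decide +kernel

theorem x2_t1a_W_f : Tree 0 1073741824 0 429496730 0 67108864 T2_t1a_W_f :=
  ⟨_, x2_t1a_W_f_h0⟩

def x1_t1a_W_n_t0 : T :=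
  (.a (.a (.a (.l 5003) (.b (.l 5067) (.a (.l 5003) (.a (.a (.l 4995) (.l 4995)) (.a (.l 4995)
      (.l 4995)))))) (.b (.a (.b (.a (.a (.l 4995) (.l 4995)) (.l 4995)) (.a (.a (.l 4995) (.l
      4995)) (.l 4995))) (.b (.a (.l 4995) (.l 4995)) (.a (.l 4995) (.l 4995)))) (.a (.b (.a (.a
      (.l 4995) (.l 4995)) (.a (.l 4995) (.l 4995))) (.a (.a (.l 4995) (.l 4995)) (.l 4995))) (.a
      (.a (.l 4995) (.l 4995)) (.b (.l 4995) (.l 4995)))))) (.b (.a (.a (.b (.l 5059) (.a (.l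
      4995) (.l 4995))) (.a (.l 5059) (.l 5059))) (.b (.a (.l 5059) (.l 5059)) (.a (.l 4995) (.l
      4995)))) (.a (.a (.a (.b (.l 4995) (.l 4995)) (.l 4995)) (.b (.l 4995) (.l 4995))) (.a (.b
      (.l 4995) (.l 4995)) (.b (.l 4995) (.l 4995))))))

theorem x1_t1a_W_n_h0 : chk3 (onCell 0 2684354560 0 1073741824 0 26843546 T1_t1a_W_n) x1_t1a_W_n_t0 1 1 1 = true := by decide +kernel

theorem x1_t1a_W_n : Tree 0 2684354560 0 1073741824 0 26843546 T1_t1a_W_n :=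
  ⟨_, x1_t1a_W_n_h0⟩

def x2_t1a_W_n_t0 : T :=
  (.b (.a (.c (.l 4035) (.a (.l 1987) (.l 1987))) (.c (.l 4035) (.a (.l 1987) (.l 1987)))) (.c
      (.a (.l 4035) (.l 3971)) (.a (.a (.b (.l 1987) (.l 1987)) (.l 1987)) (.l 1923))))

theorem x2_t1a_W_n_h0 : chk3 (onCell 0 1073741824 0 429496730 0 67108864 T2_t1a_W_n) x2_t1a_W_n_t0 1 1 1 = true := by decide +kernel

theorem x2_t1a_W_n : Tree 0 1073741824 0 429496730 0 67108864 T2_t1a_W_n :=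
  ⟨_, x2_t1a_W_n_h0⟩

def x1_t1a_c1_d_f_t0 : T :=
  (.a (.c (.b (.a (.l 10119) (.l 10183)) (.a (.l 10119) (.l 10183))) (.b (.a (.l 4999) (.c (.b
      (.a (.l 6787) (.l 6787)) (.l 6791)) (.b (.a (.l 4999) (.l 4995)) (.a (.l 4999) (.l
      4999))))) (.a (.l 4999) (.c (.b (.l 6791) (.l 6791)) (.b (.l 4999) (.l 4999)))))) (.c (.b
      (.a (.b (.l 10179) (.l 10179)) (.b (.l 10179) (.l 10179))) (.a (.l 10183) (.l 10183))) (.b
      (.a (.b (.a (.l 4995) (.l 4995)) (.a (.l 4995) (.l 4995))) (.b (.a (.l 4995) (.l 4995)) (.a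
      (.l 4995) (.l 4995)))) (.a (.c (.l 6855) (.b (.l 4999) (.l 4999))) (.c (.l 6855) (.l
      5063))))))

theorem x1_t1a_c1_d_f_h0 : chk3 (onCell 0 2684354560 0 1073741824 0 26843546 T1_t1a_c1_d_f) x1_t1a_c1_d_f_t0 2 2 1 = true := by decide +kernel

def x1_t1a_c1_d_f_t1 : T :=
  (.a (.l 4999) (.c (.b (.a (.l 10183) (.l 10183)) (.l 15)) (.b (.a (.c (.b (.l 6791) (.l 15))
      (.c (.c (.c (.b (.l 6535) (.l 15)) (.b (.l 6279) (.l 15))) (.b (.l 5767) (.l 15))) (.c (.b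
      (.l 5383) (.l 15)) (.b (.l 4999) (.l 15))))) (.c (.b (.l 6791) (.l 15)) (.c (.c (.c (.b (.l
      6535) (.l 15)) (.b (.l 6279) (.l 15))) (.b (.l 5767) (.l 15))) (.c (.b (.l 5383) (.l 15))
      (.b (.l 4999) (.l 15)))))) (.l 15))))

theorem x1_t1a_c1_d_f_h1 : chk3 (onCell 0 2684354560 0 1073741824 0 26843546 T1_t1a_c1_d_f) x1_t1a_c1_d_f_t1 2 3 1 = true := by decide +kernel

def x1_t1a_c1_d_f_t2 : T :=
  (.c (.b (.a (.b (.l 10179) (.l 10179)) (.b (.l 10179) (.l 10179))) (.a (.l 10183) (.c (.b (.l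
      20419) (.l 20423)) (.b (.l 10179) (.l 10183))))) (.b (.a (.b (.a (.l 5059) (.l 5059)) (.b
      (.l 5059) (.l 5059))) (.c (.b (.l 6851) (.l 6851)) (.b (.a (.l 5059) (.l 5059)) (.l
      5059)))) (.a (.c (.l 6855) (.l 5063)) (.c (.b (.l 6851) (.l 6855)) (.b (.b (.l 5059) (.l
      5059)) (.l 5063))))))

theorem x1_t1a_c1_d_f_h2 : chk3 (onCell 0 2684354560 0 1073741824 0 26843546 T1_t1a_c1_d_f) x1_t1a_c1_d_f_t2 6 2 1 = true := by decide +kernel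

def x1_t1a_c1_d_f_t3 : T :=
  (.c (.b (.b (.l 10179) (.a (.l 10179) (.l 10179))) (.a (.c (.b (.l 20419) (.l 20423)) (.b (.l
      10179) (.l 10183))) (.c (.b (.l 20419) (.l 20423)) (.b (.l 10179) (.l 10183))))) (.b (.a
      (.c (.b (.l 6851) (.l 6851)) (.b (.b (.a (.l 5059) (.l 5059)) (.l 5059)) (.b (.l 5059) (.l
      5059)))) (.c (.b (.l 6851) (.l 6851)) (.b (.b (.a (.b (.l 5059) (.l 5059)) (.b (.c (.l
      5795) (.l 5027)) (.c (.l 5795) (.l 5027)))) (.a (.l 5059) (.b (.l 5027) (.l 5027)))) (.b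
      (.a (.l 5059) (.l 5059)) (.l 5059))))) (.a (.c (.b (.l 6851) (.l 6855)) (.b (.b (.l 5059)
      (.l 5059)) (.l 5063))) (.c (.b (.l 6851) (.l 6855)) (.b (.b (.l 5059) (.l 5059)) (.l
      5063))))))

theorem x1_t1a_c1_d_f_h3 : chk3 (onCell 0 2684354560 0 1073741824 0 26843546 T1_t1a_c1_d_f) x1_t1a_c1_d_f_t3 7 2 1 = true := by decide +kernel

def x1_t1a_c1_d_f_t4 : T :=
  (.a (.c (.b (.a (.l 10183) (.l 10183)) (.l 15)) (.b (.a (.b (.l 5063) (.l 15)) (.b (.l 5063)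
      (.l 15))) (.l 15))) (.c (.b (.a (.l 10183) (.l 10183)) (.l 15)) (.b (.a (.c (.l 6855) (.c
      (.b (.l 5831) (.l 15)) (.b (.l 5063) (.l 15)))) (.c (.l 6855) (.b (.l 5063) (.l 15)))) (.l
      15))))

theorem x1_t1a_c1_d_f_h4 : chk3 (onCell 0 2684354560 0 1073741824 0 26843546 T1_t1a_c1_d_f) x1_t1a_c1_d_f_t4 3 3 1 = true := by decide +kernel

theorem x1_t1a_c1_d_f : Tree 0 2684354560 0 1073741824 0 26843546 T1_t1a_c1_d_f :=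
  ⟨_, (chk3_a (chk3_b x1_t1a_c1_d_f_h0 x1_t1a_c1_d_f_h1) (chk3_b (chk3_a x1_t1a_c1_d_f_h2
      x1_t1a_c1_d_f_h3) x1_t1a_c1_d_f_h4))⟩

def x2_t1a_c1_d_f_t0 : T :=
  (.a (.a (.c (.b (.a (.l 8131) (.b (.l 8131) (.l 8131))) (.a (.l 8131) (.l 8131))) (.b (.a (.b
      (.l 4035) (.l 4035)) (.b (.l 4035) (.l 4035))) (.a (.b (.l 4035) (.l 4035)) (.a (.l 4035)
      (.l 4035))))) (.c (.b (.a (.l 8135) (.l 8135)) (.l 8135)) (.b (.a (.l 4039) (.l 4039)) (.a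
      (.l 4039) (.l 4039))))) (.c (.a (.b (.b (.a (.l 8103) (.l 15)) (.l 8135)) (.l 8135)) (.l
      15)) (.a (.b (.b (.a (.l 4007) (.l 15)) (.a (.l 4039) (.l 15))) (.a (.l 4039) (.l 15))) (.l
      15))))

theorem x2_t1a_c1_d_f_h0 : chk3 (onCell 0 1073741824 0 429496730 0 67108864 T2_t1a_c1_d_f) x2_t1a_c1_d_f_t0 1 1 2 = true := by decide +kernel

def x2_t1a_c1_d_f_t1 : T :=
  (.c (.b (.a (.c (.b (.l 3267) (.l 3267)) (.b (.l 2755) (.l 2755))) (.a (.b (.l 2755) (.l 2755))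
      (.c (.b (.l 3235) (.l 3235)) (.b (.l 2755) (.l 2755))))) (.a (.a (.c (.l 3267) (.l 2755))
      (.b (.l 2755) (.l 2755))) (.a (.b (.l 2755) (.l 2755)) (.b (.l 2755) (.l 2755))))) (.b (.a
      (.a (.c (.b (.l 2339) (.l 2339)) (.b (.l 1987) (.l 1955))) (.c (.b (.l 2371) (.l 2339)) (.b
      (.l 1987) (.l 1955)))) (.a (.c (.b (.l 2371) (.l 2371)) (.b (.l 1987) (.l 1987))) (.c (.b
      (.l 2371) (.l 2371)) (.b (.l 1987) (.l 1987))))) (.a (.a (.b (.c (.l 2339) (.l 1955)) (.c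
      (.l 2339) (.l 1955))) (.b (.c (.l 2339) (.l 1955)) (.c (.l 2339) (.l 1955)))) (.a (.b (.c
      (.l 2339) (.l 1955)) (.c (.l 2339) (.l 1955))) (.b (.c (.l 2339) (.l 1987)) (.c (.l 2339)
      (.l 1955)))))))

theorem x2_t1a_c1_d_f_h1 : chk3 (onCell 0 1073741824 0 429496730 0 67108864 T2_t1a_c1_d_f) x2_t1a_c1_d_f_t1 4 1 3 = true := by decide +kernel

def x2_t1a_c1_d_f_t2 : T :=
  (.c (.b (.a (.a (.c (.b (.l 3267) (.l 3267)) (.b (.l 2755) (.l 2755))) (.b (.l 2727) (.l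
      2755))) (.c (.l 3239) (.b (.l 2727) (.l 2727)))) (.a (.a (.b (.l 2755) (.l 2755)) (.c (.l
      3271) (.l 2759))) (.c (.l 3271) (.b (.l 2759) (.l 2759))))) (.b (.a (.a (.c (.b (.l 2371)
      (.l 2371)) (.b (.l 1987) (.l 1987))) (.c (.b (.l 2371) (.l 2371)) (.b (.l 1991) (.l
      1991)))) (.c (.b (.l 2375) (.l 2375)) (.b (.l 1991) (.l 1991)))) (.a (.a (.c (.b (.l 2371)
      (.l 2371)) (.b (.l 1987) (.l 1987))) (.c (.b (.l 2371) (.l 2371)) (.b (.l 1987) (.l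
      1987)))) (.c (.b (.l 2375) (.l 2375)) (.b (.l 1991) (.l 1991))))))

theorem x2_t1a_c1_d_f_h2 : chk3 (onCell 0 1073741824 0 429496730 0 67108864 T2_t1a_c1_d_f) x2_t1a_c1_d_f_t2 5 1 3 = true := by decide +kernel

def x2_t1a_c1_d_f_t3 : T :=
  (.c (.a (.b (.b (.a (.l 2759) (.l 15)) (.a (.l 2759) (.l 15))) (.a (.b (.l 2759) (.l 2759)) (.l
      15))) (.l 15)) (.a (.b (.c (.b (.a (.l 2343) (.l 15)) (.a (.l 2343) (.l 15))) (.a (.b (.l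
      1959) (.l 1991)) (.l 15))) (.a (.c (.b (.l 2375) (.l 2375)) (.b (.l 1991) (.l 1991))) (.l
      15))) (.l 15)))

theorem x2_t1a_c1_d_f_h3 : chk3 (onCell 0 1073741824 0 429496730 0 67108864 T2_t1a_c1_d_f) x2_t1a_c1_d_f_t3 3 1 3 = true := by decide +kernel

theorem x2_t1a_c1_d_f : Tree 0 1073741824 0 429496730 0 67108864 T2_t1a_c1_d_f :=
  ⟨_, (chk3_c x2_t1a_c1_d_f_h0 (chk3_a (chk3_a x2_t1a_c1_d_f_h1 x2_t1a_c1_d_f_h2)
      x2_t1a_c1_d_f_h3))⟩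

def x1_t1a_c1_d_n_t0 : T :=
  (.a (.b (.a (.l 4999) (.b (.c (.l 10183) (.a (.l 4999) (.b (.a (.l 4995) (.l 4995)) (.l
      4999)))) (.c (.a (.l 10119) (.l 10119)) (.a (.l 4999) (.l 4999))))) (.l 4999)) (.b (.a (.b
      (.c (.b (.l 10179) (.a (.l 10179) (.l 10115))) (.b (.a (.l 4995) (.l 4995)) (.a (.b (.l
      4995) (.l 4995)) (.l 4995)))) (.c (.l 10183) (.a (.b (.l 4999) (.l 4999)) (.b (.l 4999) (.l
      4999))))) (.b (.c (.b (.a (.l 10115) (.l 10179)) (.a (.l 10115) (.l 10115))) (.a (.b (.l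
      5059) (.l 4995)) (.b (.b (.l 5059) (.l 5059)) (.b (.l 4995) (.l 4995))))) (.c (.l 10183)
      (.a (.b (.l 5063) (.l 4999)) (.b (.b (.l 4995) (.l 4995)) (.l 4999)))))) (.a (.b (.c (.a
      (.l 10119) (.l 10183)) (.a (.l 4999) (.b (.l 4999) (.l 15)))) (.l 15)) (.b (.c (.a (.l
      10183) (.l 10183)) (.a (.b (.l 4999) (.l 15)) (.b (.l 4999) (.l 15)))) (.l 15)))))

theorem x1_t1a_c1_d_n_h0 : chk3 (onCell 0 2684354560 0 1073741824 0 26843546 T1_t1a_c1_d_n) x1_t1a_c1_d_n_t0 2 1 1 = true := by decide +kernel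

def x1_t1a_c1_d_n_t1 : T :=
  (.a (.c (.b (.l 10179) (.b (.l 10179) (.l 10179))) (.a (.b (.b (.l 5059) (.l 5059)) (.b (.l
      5059) (.l 5059))) (.b (.b (.a (.l 5059) (.l 5059)) (.l 5059)) (.b (.l 5059) (.l 5059)))))
      (.c (.b (.l 10179) (.l 10179)) (.a (.b (.b (.a (.l 5059) (.b (.a (.l 5059) (.l 5059)) (.l
      5059))) (.a (.l 5059) (.l 5059))) (.b (.l 5059) (.l 5059))) (.b (.b (.a (.b (.a (.c (.l
      6851) (.l 5059)) (.c (.l 6851) (.l 5059))) (.a (.l 5059) (.l 5059))) (.b (.a (.c (.l 6851)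
      (.l 5059)) (.c (.l 6851) (.l 5059))) (.a (.c (.l 6851) (.l 5059)) (.c (.l 6851) (.l
      5059))))) (.a (.b (.l 5059) (.l 5059)) (.b (.c (.l 6851) (.l 5059)) (.c (.l 6851) (.l
      5059))))) (.b (.a (.l 5059) (.b (.l 5059) (.l 5059))) (.l 5059))))))

theorem x1_t1a_c1_d_n_h1 : chk3 (onCell 0 2684354560 0 1073741824 0 26843546 T1_t1a_c1_d_n) x1_t1a_c1_d_n_t1 6 4 1 = true := by decide +kernel

def x1_t1a_c1_d_n_t2 : T :=
  (.a (.c (.l 10183) (.b (.b (.a (.l 4995) (.l 5059)) (.a (.l 4995) (.l 4995))) (.l 5063))) (.c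
      (.b (.b (.l 10179) (.a (.l 10179) (.l 10179))) (.l 10183)) (.b (.a (.b (.l 5059) (.b (.l
      5059) (.l 5059))) (.b (.l 5059) (.l 5059))) (.a (.c (.l 6855) (.b (.l 5059) (.l 5063))) (.c
      (.l 6855) (.b (.l 5063) (.l 5063)))))))

theorem x1_t1a_c1_d_n_h2 : chk3 (onCell 0 2684354560 0 1073741824 0 26843546 T1_t1a_c1_d_n) x1_t1a_c1_d_n_t2 6 5 1 = true := by decide +kernel

def x1_t1a_c1_d_n_t3 : T :=
  (.a (.b (.c (.b (.l 10183) (.l 15)) (.a (.b (.l 5063) (.l 15)) (.b (.l 5063) (.l 15)))) (.l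
      15)) (.b (.c (.b (.l 10183) (.l 15)) (.a (.b (.l 5063) (.l 15)) (.b (.b (.l 5063) (.l 15))
      (.l 15)))) (.l 15)))

theorem x1_t1a_c1_d_n_h3 : chk3 (onCell 0 2684354560 0 1073741824 0 26843546 T1_t1a_c1_d_n) x1_t1a_c1_d_n_t3 6 3 1 = true := by decide +kernel

def x1_t1a_c1_d_n_t4 : T :=
  (.b (.l 10179) (.l 10179))

theorem x1_t1a_c1_d_n_h4 : chk3 (onCell 0 2684354560 0 1073741824 0 26843546 T1_t1a_c1_d_n) x1_t1a_c1_d_n_t4 14 4 2 = true := by decide +kernel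

def x1_t1a_c1_d_n_t5 : T :=
  (.a (.b (.a (.b (.a (.c (.l 6851) (.l 5059)) (.c (.l 6851) (.l 5059))) (.a (.c (.l 6851) (.l
      5059)) (.c (.l 6851) (.l 5059)))) (.b (.a (.c (.l 6851) (.l 5059)) (.c (.l 6851) (.l
      5059))) (.c (.l 6851) (.l 5059)))) (.a (.b (.c (.l 6851) (.l 5059)) (.c (.l 6819) (.l
      5059))) (.b (.c (.l 6851) (.l 5059)) (.c (.l 6819) (.l 5059))))) (.b (.a (.b (.a (.c (.l
      6851) (.l 5059)) (.c (.l 6851) (.l 5059))) (.c (.l 6851) (.l 5059))) (.b (.a (.c (.l 6851)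
      (.l 5059)) (.b (.c (.l 6851) (.l 5059)) (.c (.l 6851) (.l 5059)))) (.c (.l 6851) (.l
      5059)))) (.a (.b (.c (.l 6851) (.l 5059)) (.c (.l 6851) (.l 5059))) (.b (.c (.l 6851) (.l
      5059)) (.c (.l 6851) (.l 5059))))))

theorem x1_t1a_c1_d_n_h5 : chk3 (onCell 0 2684354560 0 1073741824 0 26843546 T1_t1a_c1_d_n) x1_t1a_c1_d_n_t5 14 8 3 = true := by decide +kernel

def x1_t1a_c1_d_n_t6 : T :=
  (.a (.b (.a (.b (.c (.l 6819) (.l 5059)) (.l 5059)) (.b (.c (.l 6819) (.l 5059)) (.c (.l 6819)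
      (.l 5059)))) (.a (.l 5059) (.b (.c (.l 6819) (.l 5059)) (.l 5059)))) (.b (.a (.b (.c (.l
      6819) (.l 5059)) (.c (.l 6819) (.l 5059))) (.b (.c (.l 6851) (.l 5059)) (.c (.l 6819) (.l
      5059)))) (.b (.a (.c (.l 6819) (.l 5059)) (.c (.l 6819) (.l 5059))) (.a (.c (.l 6819) (.l
      5059)) (.c (.l 6819) (.l 5059))))))

theorem x1_t1a_c1_d_n_h6 : chk3 (onCell 0 2684354560 0 1073741824 0 26843546 T1_t1a_c1_d_n) x1_t1a_c1_d_n_t6 14 9 3 = true := by decide +kernel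

def x1_t1a_c1_d_n_t7 : T :=
  (.b (.l 10179) (.l 10179))

theorem x1_t1a_c1_d_n_h7 : chk3 (onCell 0 2684354560 0 1073741824 0 26843546 T1_t1a_c1_d_n) x1_t1a_c1_d_n_t7 15 4 2 = true := by decide +kernel

def x1_t1a_c1_d_n_t8 : T :=
  (.b (.b (.a (.b (.c (.l 6851) (.a (.l 5059) (.l 5059))) (.c (.l 6851) (.a (.l 5059) (.l
      5059)))) (.b (.c (.l 6851) (.a (.a (.l 5059) (.l 5059)) (.b (.a (.l 5059) (.l 5059)) (.a
      (.l 5059) (.l 5059))))) (.c (.l 6851) (.a (.a (.l 5059) (.l 5059)) (.c (.l 5827) (.l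
      5059)))))) (.a (.c (.l 6851) (.b (.a (.l 5059) (.l 5059)) (.a (.l 5059) (.l 5059)))) (.b
      (.c (.l 6851) (.a (.l 5059) (.a (.l 5059) (.l 5059)))) (.c (.l 6851) (.a (.l 5059) (.a (.l
      5059) (.l 5059))))))) (.b (.a (.c (.l 6851) (.a (.l 5059) (.l 5059))) (.c (.l 6851) (.b (.a
      (.l 5059) (.l 5059)) (.a (.l 5059) (.l 5059))))) (.a (.c (.l 6851) (.l 5059)) (.c (.l 6851)
      (.b (.a (.l 5059) (.l 5059)) (.c (.l 5827) (.l 5059)))))))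

theorem x1_t1a_c1_d_n_h8 : chk3 (onCell 0 2684354560 0 1073741824 0 26843546 T1_t1a_c1_d_n) x1_t1a_c1_d_n_t8 15 8 3 = true := by decide +kernel

def x1_t1a_c1_d_n_t9 : T :=
  (.a (.b (.b (.c (.l 6851) (.l 5059)) (.c (.l 6851) (.l 5059))) (.b (.c (.l 6851) (.l 5059)) (.c
      (.l 6819) (.l 5059)))) (.b (.b (.c (.l 6851) (.c (.l 5827) (.l 5059))) (.c (.l 6851) (.l
      5059))) (.b (.c (.l 6851) (.l 5059)) (.c (.l 6851) (.l 5059)))))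

theorem x1_t1a_c1_d_n_h9 : chk3 (onCell 0 2684354560 0 1073741824 0 26843546 T1_t1a_c1_d_n) x1_t1a_c1_d_n_t9 15 9 3 = true := by decide +kernel

def x1_t1a_c1_d_n_t10 : T :=
  (.c (.b (.b (.l 10179) (.l 10179)) (.l 10183)) (.b (.a (.b (.b (.l 5059) (.l 5059)) (.l 5059))
      (.c (.l 6851) (.b (.l 5059) (.l 5059)))) (.a (.c (.b (.l 6851) (.l 6855)) (.b (.b (.l 5059)
      (.l 5059)) (.l 5063))) (.c (.b (.l 6851) (.l 6855)) (.b (.b (.l 5027) (.l 5059)) (.a (.l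
      5063) (.c (.l 71) (.a (.b (.l 5027) (.l 67)) (.b (.l 5027) (.l 67))))))))))

theorem x1_t1a_c1_d_n_h10 : chk3 (onCell 0 2684354560 0 1073741824 0 26843546 T1_t1a_c1_d_n) x1_t1a_c1_d_n_t10 14 5 1 = true := by decide +kernel

def x1_t1a_c1_d_n_t11 : T :=
  (.c (.b (.b (.l 10179) (.l 10179)) (.a (.c (.l 20423) (.b (.l 10179) (.l 10183))) (.c (.l
      20423) (.l 10183)))) (.b (.a (.c (.l 6851) (.b (.a (.l 5059) (.l 5059)) (.a (.l 5059) (.l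
      5059)))) (.c (.l 6851) (.b (.b (.l 5059) (.l 5059)) (.b (.l 5059) (.l 5059))))) (.a (.c (.b
      (.l 6851) (.a (.c (.a (.b (.l 8099) (.l 67)) (.l 8135)) (.a (.b (.l 6819) (.l 35)) (.l
      6855))) (.l 6855))) (.b (.a (.l 5059) (.l 5059)) (.a (.c (.a (.b (.l 5795) (.l 35)) (.l
      5831)) (.a (.b (.l 5027) (.l 35)) (.b (.l 5027) (.l 67)))) (.c (.l 5831) (.b (.l 5059) (.a
      (.l 67) (.l 67))))))) (.c (.b (.l 6851) (.a (.l 6855) (.c (.a (.l 8135) (.b (.l 8067) (.l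
      3))) (.a (.l 6855) (.b (.l 6787) (.l 3)))))) (.b (.b (.l 5059) (.l 5059)) (.a (.c (.l 5831)
      (.b (.l 5059) (.a (.l 67) (.l 67)))) (.c (.a (.l 5831) (.b (.l 5763) (.l 3))) (.b (.l 4995)
      (.l 67)))))))))

theorem x1_t1a_c1_d_n_h11 : chk3 (onCell 0 2684354560 0 1073741824 0 26843546 T1_t1a_c1_d_n) x1_t1a_c1_d_n_t11 15 5 1 = true := by decide +kernel

def x1_t1a_c1_d_n_t12 : T :=
  (.b (.c (.a (.b (.l 10183) (.l 15)) (.b (.b (.l 10183) (.l 15)) (.l 15))) (.a (.b (.b (.c (.l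
      6855) (.c (.l 5831) (.c (.l 7) (.b (.l 4999) (.l 15))))) (.l 15)) (.l 15)) (.b (.c (.b (.l
      6855) (.l 15)) (.a (.c (.c (.b (.l 6343) (.l 15)) (.b (.l 5831) (.l 15))) (.b (.c (.l 5447)
      (.b (.l 5063) (.l 15))) (.l 15))) (.c (.c (.b (.l 6343) (.l 15)) (.b (.l 71) (.l 15))) (.c
      (.b (.c (.b (.l 5703) (.l 15)) (.b (.c (.l 5575) (.a (.l 5447) (.l 71))) (.l 15))) (.l 15))
      (.b (.c (.b (.c (.a (.l 5319) (.b (.l 67) (.l 71))) (.a (.l 5319) (.b (.l 67) (.b (.l 71)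
      (.l 15))))) (.l 15)) (.b (.c (.a (.l 5191) (.b (.l 67) (.b (.a (.l 5127) (.c (.l 71) (.l
      71))) (.l 15)))) (.a (.l 5063) (.b (.l 67) (.b (.a (.l 4999) (.c (.a (.l 5127) (.b (.l 67)
      (.l 5127))) (.l 5063))) (.l 15))))) (.l 15))) (.l 15)))))) (.l 15)))) (.l 15))

theorem x1_t1a_c1_d_n_h12 : chk3 (onCell 0 2684354560 0 1073741824 0 26843546 T1_t1a_c1_d_n) x1_t1a_c1_d_n_t12 14 3 1 = true := by decide +kernel

def x1_t1a_c1_d_n_t13 : T :=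
  (.a (.b (.l 10183) (.l 15)) (.b (.c (.l 20423) (.b (.a (.l 10183) (.l 10183)) (.l 15))) (.l
      15)))

theorem x1_t1a_c1_d_n_h13 : chk3 (onCell 0 2684354560 0 1073741824 0 26843546 T1_t1a_c1_d_n) x1_t1a_c1_d_n_t13 15 6 2 = true := by decide +kernel

def x1_t1a_c1_d_n_t14 : T :=
  (.b (.a (.l 6855) (.c (.l 8135) (.a (.c (.c (.l 7751) (.l 7495)) (.c (.c (.c (.b (.l 7367) (.l
      15)) (.b (.l 7239) (.l 15))) (.c (.b (.l 7239) (.l 15)) (.b (.l 7111) (.l 15)))) (.c (.c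
      (.b (.l 7111) (.l 15)) (.b (.l 6983) (.l 15))) (.c (.b (.l 6855) (.l 15)) (.b (.l 6855) (.l
      15)))))) (.l 6855)))) (.l 15))

theorem x1_t1a_c1_d_n_h14 : chk3 (onCell 0 2684354560 0 1073741824 0 26843546 T1_t1a_c1_d_n) x1_t1a_c1_d_n_t14 30 12 6 = true := by decide +kernel

def x1_t1a_c1_d_n_t15 : T :=
  (.c (.b (.l 6343) (.l 15)) (.b (.l 71) (.l 15)))

theorem x1_t1a_c1_d_n_h15 : chk3 (onCell 0 2684354560 0 1073741824 0 26843546 T1_t1a_c1_d_n) x1_t1a_c1_d_n_t15 60 12 14 = true := by decide +kernel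

def x1_t1a_c1_d_n_t16 : T :=
  (.b (.c (.c (.l 71) (.b (.l 5703) (.l 15))) (.c (.b (.l 5575) (.l 15)) (.b (.a (.l 71) (.l 71))
      (.l 15)))) (.l 15))

theorem x1_t1a_c1_d_n_h16 : chk3 (onCell 0 2684354560 0 1073741824 0 26843546 T1_t1a_c1_d_n) x1_t1a_c1_d_n_t16 60 12 30 = true := by decide +kernel

def x1_t1a_c1_d_n_t17 : T :=
  (.c (.b (.a (.c (.l 5447) (.l 71)) (.b (.l 67) (.l 5319))) (.l 15)) (.b (.a (.c (.b (.l 67) (.l
      71)) (.b (.l 67) (.l 71))) (.b (.l 67) (.l 5319))) (.l 15)))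

theorem x1_t1a_c1_d_n_h17 : chk3 (onCell 0 2684354560 0 1073741824 0 26843546 T1_t1a_c1_d_n) x1_t1a_c1_d_n_t17 60 24 62 = true := by decide +kernel

def x1_t1a_c1_d_n_t18 : T :=
  (.c (.b (.a (.c (.b (.l 67) (.a (.b (.l 71) (.l 15)) (.l 71))) (.b (.l 67) (.a (.b (.l 71) (.l
      15)) (.c (.l 71) (.a (.b (.l 71) (.l 15)) (.b (.l 5191) (.l 15))))))) (.b (.l 67) (.l
      5191))) (.l 15)) (.b (.a (.b (.l 67) (.c (.a (.b (.c (.l 71) (.a (.l 71) (.l 71))) (.l 15))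
      (.c (.a (.b (.l 71) (.l 15)) (.b (.l 5191) (.l 15))) (.a (.b (.b (.l 67) (.l 5191)) (.l
      15)) (.b (.l 5191) (.l 15))))) (.a (.b (.c (.a (.b (.l 67) (.b (.l 71) (.l 15))) (.b (.l
      67) (.l 71))) (.a (.b (.l 67) (.b (.l 99) (.l 15))) (.b (.l 67) (.c (.a (.l 71) (.l 71))
      (.a (.b (.l 99) (.l 15)) (.a (.b (.l 99) (.l 15)) (.b (.l 99) (.l 15)))))))) (.l 15)) (.c
      (.a (.b (.b (.l 67) (.l 5191)) (.l 15)) (.b (.l 5191) (.l 15))) (.a (.b (.b (.l 67) (.l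
      5063)) (.l 15)) (.b (.l 5063) (.l 15))))))) (.b (.l 67) (.l 5063))) (.l 15)))

theorem x1_t1a_c1_d_n_h18 : chk3 (onCell 0 2684354560 0 1073741824 0 26843546 T1_t1a_c1_d_n) x1_t1a_c1_d_n_t18 60 24 63 = true := by decide +kernel

def x1_t1a_c1_d_n_t19 : T :=
  (.l 15)

theorem x1_t1a_c1_d_n_h19 : chk3 (onCell 0 2684354560 0 1073741824 0 26843546 T1_t1a_c1_d_n) x1_t1a_c1_d_n_t19 60 25 31 = true := by decide +kernel

def x1_t1a_c1_d_n_t20 : T :=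
  (.c (.c (.c (.b (.c (.c (.a (.b (.l 6727) (.l 15)) (.l 6727)) (.a (.b (.l 6727) (.l 15)) (.l
      6727))) (.a (.c (.b (.l 6599) (.l 15)) (.b (.l 6599) (.l 15))) (.l 6599))) (.l 15)) (.b (.c
      (.a (.c (.b (.l 6471) (.l 15)) (.b (.l 6471) (.l 15))) (.l 6471)) (.a (.c (.b (.l 6343) (.l
      15)) (.l 6343)) (.l 6343))) (.l 15))) (.c (.b (.c (.a (.l 6215) (.l 6215)) (.a (.l 6087)
      (.l 71))) (.l 15)) (.b (.c (.a (.l 5959) (.b (.l 5895) (.l 15))) (.a (.l 5831) (.b (.l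
      5767) (.l 15)))) (.l 15)))) (.c (.b (.c (.c (.a (.l 5703) (.b (.l 5639) (.l 15))) (.a (.l
      5703) (.b (.l 5639) (.l 15)))) (.c (.a (.b (.l 5575) (.l 15)) (.b (.l 5511) (.l 15))) (.a
      (.b (.l 5447) (.l 15)) (.b (.l 5383) (.l 15))))) (.l 15)) (.b (.c (.c (.a (.b (.l 5319) (.l
      15)) (.b (.l 5255) (.l 15))) (.b (.l 5319) (.l 15))) (.c (.b (.l 5191) (.l 15)) (.b (.l
      5063) (.l 15)))) (.l 15))))

theorem x1_t1a_c1_d_n_h20 : chk3 (onCell 0 2684354560 0 1073741824 0 26843546 T1_t1a_c1_d_n) x1_t1a_c1_d_n_t20 61 12 7 = true := by decide +kernel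

def x1_t1a_c1_d_n_t21 : T :=
  (.l 15)

theorem x1_t1a_c1_d_n_h21 : chk3 (onCell 0 2684354560 0 1073741824 0 26843546 T1_t1a_c1_d_n) x1_t1a_c1_d_n_t21 30 13 3 = true := by decide +kernel

def x1_t1a_c1_d_n_t22 : T :=
  (.b (.a (.c (.l 8135) (.c (.c (.l 7751) (.c (.b (.l 7623) (.l 15)) (.b (.l 7495) (.l 15)))) (.c
      (.c (.b (.l 7239) (.l 15)) (.b (.l 7111) (.l 15))) (.c (.b (.l 6983) (.l 15)) (.b (.l 6855)
      (.l 15)))))) (.b (.l 6855) (.l 15))) (.l 15))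

theorem x1_t1a_c1_d_n_h22 : chk3 (onCell 0 2684354560 0 1073741824 0 26843546 T1_t1a_c1_d_n) x1_t1a_c1_d_n_t22 31 12 6 = true := by decide +kernel

def x1_t1a_c1_d_n_t23 : T :=
  (.b (.c (.c (.c (.c (.b (.l 6727) (.l 15)) (.b (.l 6599) (.l 15))) (.c (.b (.l 6471) (.l 15))
      (.b (.l 6343) (.l 15)))) (.c (.b (.l 6087) (.l 15)) (.b (.l 5831) (.l 15)))) (.c (.c (.b
      (.l 5703) (.l 15)) (.b (.l 5447) (.l 15))) (.c (.b (.l 5319) (.l 15)) (.b (.l 5063) (.l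
      15))))) (.l 15))

theorem x1_t1a_c1_d_n_h23 : chk3 (onCell 0 2684354560 0 1073741824 0 26843546 T1_t1a_c1_d_n) x1_t1a_c1_d_n_t23 62 12 7 = true := by decide +kernel

def x1_t1a_c1_d_n_t24 : T :=
  (.b (.c (.c (.c (.c (.b (.l 6727) (.l 15)) (.b (.l 6599) (.l 15))) (.b (.l 6343) (.l 15))) (.c
      (.b (.l 6087) (.l 15)) (.b (.l 5831) (.l 15)))) (.c (.c (.b (.l 5703) (.l 15)) (.b (.l 71)
      (.l 15))) (.c (.b (.c (.a (.l 71) (.l 71)) (.a (.b (.l 67) (.l 5319)) (.c (.l 71) (.a (.l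
      71) (.l 71))))) (.l 15)) (.b (.c (.a (.b (.l 67) (.l 5191)) (.c (.a (.b (.l 3) (.l 71)) (.b
      (.l 3) (.l 71))) (.a (.b (.l 3) (.b (.l 5191) (.l 15))) (.b (.l 3) (.b (.l 71) (.l 15))))))
      (.a (.l 5063) (.c (.a (.b (.l 3) (.b (.l 5191) (.l 15))) (.b (.l 3) (.b (.c (.a (.l 99) (.l
      99)) (.a (.l 99) (.l 99))) (.l 15)))) (.a (.b (.l 3) (.b (.l 5063) (.l 15))) (.b (.l 3) (.b
      (.l 99) (.a (.l 15) (.b (.c (.l 15) (.a (.l 15) (.b (.c (.l 15) (.a (.l 15) (.b (.l 99) (.l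
      15)))) (.l 15)))) (.l 15))))))))) (.l 15))))) (.l 15))

theorem x1_t1a_c1_d_n_h24 : chk3 (onCell 0 2684354560 0 1073741824 0 26843546 T1_t1a_c1_d_n) x1_t1a_c1_d_n_t24 63 12 7 = true := by decide +kernel

def x1_t1a_c1_d_n_t25 : T :=
  (.l 15)

theorem x1_t1a_c1_d_n_h25 : chk3 (onCell 0 2684354560 0 1073741824 0 26843546 T1_t1a_c1_d_n) x1_t1a_c1_d_n_t25 31 13 3 = true := by decide +kernel

def x1_t1a_c1_d_n_t26 : T :=
  (.l 15)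

theorem x1_t1a_c1_d_n_h26 : chk3 (onCell 0 2684354560 0 1073741824 0 26843546 T1_t1a_c1_d_n) x1_t1a_c1_d_n_t26 15 7 1 = true := by decide +kernel

theorem x1_t1a_c1_d_n : Tree 0 2684354560 0 1073741824 0 26843546 T1_t1a_c1_d_n :=
  ⟨_, (chk3_a x1_t1a_c1_d_n_h0 (chk3_a (chk3_b (chk3_b x1_t1a_c1_d_n_h1 x1_t1a_c1_d_n_h2)
      x1_t1a_c1_d_n_h3) (chk3_b (chk3_b (chk3_a (chk3_c x1_t1a_c1_d_n_h4 (chk3_b x1_t1a_c1_d_n_h5
      x1_t1a_c1_d_n_h6)) (chk3_c x1_t1a_c1_d_n_h7 (chk3_b x1_t1a_c1_d_n_h8 x1_t1a_c1_d_n_h9)))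
      (chk3_a x1_t1a_c1_d_n_h10 x1_t1a_c1_d_n_h11)) (chk3_a x1_t1a_c1_d_n_h12 (chk3_b (chk3_c
      x1_t1a_c1_d_n_h13 (chk3_a (chk3_b (chk3_c x1_t1a_c1_d_n_h14 (chk3_a (chk3_c
      x1_t1a_c1_d_n_h15 (chk3_c x1_t1a_c1_d_n_h16 (chk3_b (chk3_c x1_t1a_c1_d_n_h17
      x1_t1a_c1_d_n_h18) x1_t1a_c1_d_n_h19))) x1_t1a_c1_d_n_h20)) x1_t1a_c1_d_n_h21) (chk3_b
      (chk3_c x1_t1a_c1_d_n_h22 (chk3_a x1_t1a_c1_d_n_h23 x1_t1a_c1_d_n_h24))
      x1_t1a_c1_d_n_h25))) x1_t1a_c1_d_n_h26)))))⟩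

end Pool.Agent.Strip051.LC.E1.Ch
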