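import Pool.Agent.Strip051.LC.E1.Ch.Te

/-! # Rests near the full period: certificates P10 -/

set_option maxRecDepth 100000

namespace Pool.Agent.Strip051.LC.E1.Ch

open Pool.Agent.Strip051.PB
open Pool.Agent.Strip051.LC.E0.Ch (onCell Tree)

def x2_t3a_c1_f_t0 : T :=
  (.b (.a (.l 15) (.l 4039)) (.a (.l 15) (.c (.b (.l 8071) (.l 8135)) (.b (.a (.c (.l 5383) (.l
      3975)) (.c (.l 5383) (.a (.l 3975) (.l 3971)))) (.a (.c (.l 5383) (.a (.l 15) (.l 3975)))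
      (.c (.l 5447) (.a (.l 3975) (.l 3971))))))))

theorem x2_t3a_c1_f_h0 : chk3 (onCell 0 1073741824 0 429496730 0 67108864 T2_t3a_c1_f) x2_t3a_c1_f_t0 2 2 2 = true := by decide +kernel

def x2_t3a_c1_f_t1 : T :=
  (.b (.a (.l 15) (.c (.b (.l 7) (.l 2695)) (.b (.l 7) (.l 7)))) (.a (.l 15) (.c (.b (.c (.a (.l
      3207) (.a (.l 3207) (.l 3203))) (.a (.l 2695) (.a (.l 2695) (.l 3)))) (.a (.c (.a (.l 15)
      (.b (.l 3207) (.l 3207))) (.a (.l 15) (.b (.l 2695) (.l 2695)))) (.c (.a (.c (.l 3) (.l 3))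
      (.l 3203)) (.a (.b (.l 3) (.l 3)) (.l 2691))))) (.b (.a (.l 1927) (.c (.a (.l 2311) (.l 3))
      (.a (.l 1927) (.l 3)))) (.a (.c (.a (.l 15) (.b (.l 2311) (.c (.l 2439) (.l 2311)))) (.a
      (.l 15) (.b (.l 1927) (.c (.a (.l 2183) (.l 2183)) (.a (.l 1927) (.l 1927)))))) (.c (.a (.b
      (.l 3) (.l 3)) (.l 3)) (.a (.c (.b (.l 3) (.l 3)) (.b (.l 3) (.l 3))) (.l 3))))))))

theorem x2_t3a_c1_f_h1 : chk3 (onCell 0 1073741824 0 429496730 0 67108864 T2_t3a_c1_f) x2_t3a_c1_f_t1 2 2 3 = true := by decide +kernel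

def x2_t3a_c1_f_t2 : T :=
  (.a (.l 15) (.b (.c (.c (.l 16327) (.l 8135)) (.a (.b (.c (.l 5447) (.a (.l 15) (.l 4039))) (.c
      (.l 5447) (.l 4039))) (.b (.c (.l 5447) (.a (.l 4035) (.l 3971))) (.c (.l 5447) (.a (.l
      4035) (.l 3971)))))) (.c (.c (.l 16327) (.l 8135)) (.a (.b (.c (.l 5447) (.a (.l 15) (.l
      4039))) (.l 4039)) (.b (.c (.l 5443) (.a (.l 4035) (.l 3971))) (.c (.l 5443) (.a (.l 4035)
      (.l 3971))))))))

theorem x2_t3a_c1_f_h2 : chk3 (onCell 0 1073741824 0 429496730 0 67108864 T2_t3a_c1_f) x2_t3a_c1_f_t2 2 3 2 = true := by decide +kernel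

def x2_t3a_c1_f_t3 : T :=
  (.l 15)

theorem x2_t3a_c1_f_h3 : chk3 (onCell 0 1073741824 0 429496730 0 67108864 T2_t3a_c1_f) x2_t3a_c1_f_t3 4 6 3 = true := by decide +kernel

def x2_t3a_c1_f_t4 : T :=
  (.a (.b (.c (.a (.l 15) (.b (.l 3207) (.l 3271))) (.a (.l 15) (.b (.l 2695) (.l 2759)))) (.c
      (.a (.l 15) (.b (.l 3271) (.c (.l 3655) (.l 71)))) (.a (.l 15) (.b (.l 2759) (.a (.c (.c
      (.l 71) (.b (.l 3015) (.l 2951))) (.c (.b (.l 2887) (.l 2823)) (.b (.l 2759) (.l 2695))))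
      (.c (.c (.b (.l 3) (.l 67)) (.b (.l 3) (.l 67))) (.c (.b (.l 3) (.l 67)) (.b (.l 3) (.l
      67))))))))) (.b (.c (.a (.b (.l 3) (.l 3271)) (.l 3203)) (.a (.b (.l 3) (.c (.l 67) (.l
      67))) (.b (.l 2691) (.l 2691)))) (.c (.a (.b (.l 3203) (.l 3203)) (.l 3203)) (.a (.b (.c
      (.l 3) (.l 3)) (.a (.l 3) (.l 2691))) (.b (.l 2691) (.l 2691))))))

theorem x2_t3a_c1_f_h4 : chk3 (onCell 0 1073741824 0 429496730 0 67108864 T2_t3a_c1_f) x2_t3a_c1_f_t4 5 6 6 = true := by decide +kernel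

def x2_t3a_c1_f_t5 : T :=
  (.b (.c (.a (.l 15) (.b (.l 2311) (.a (.l 2311) (.c (.l 3) (.l 3))))) (.a (.l 15) (.b (.l 1927)
      (.c (.a (.l 2183) (.l 3)) (.a (.l 1927) (.l 3)))))) (.c (.a (.l 15) (.c (.b (.l 2503) (.a
      (.c (.b (.l 2631) (.l 2567)) (.b (.l 2503) (.l 2439))) (.c (.b (.l 3) (.l 67)) (.b (.l 3)
      (.l 67))))) (.b (.l 2375) (.a (.b (.l 2375) (.l 2311)) (.c (.b (.l 3) (.l 67)) (.b (.l 3)
      (.l 67))))))) (.a (.l 15) (.b (.c (.a (.l 2247) (.b (.l 67) (.l 2247))) (.a (.l 71) (.b (.l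
      67) (.l 71)))) (.c (.a (.b (.l 2247) (.l 2247)) (.c (.b (.l 3) (.l 67)) (.b (.l 3) (.l
      67)))) (.a (.b (.l 71) (.l 1991)) (.b (.l 3) (.l 67))))))))

theorem x2_t3a_c1_f_h5 : chk3 (onCell 0 1073741824 0 429496730 0 67108864 T2_t3a_c1_f) x2_t3a_c1_f_t5 10 6 7 = true := by decide +kernel

def x2_t3a_c1_f_t6 : T :=
  (.b (.c (.a (.b (.l 3) (.c (.l 67) (.l 67))) (.b (.l 2307) (.l 2307))) (.a (.b (.l 3) (.c (.l
      67) (.l 67))) (.b (.l 1923) (.l 1923)))) (.c (.a (.b (.c (.a (.l 3) (.l 2435)) (.a (.l 3)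
      (.l 2307))) (.c (.l 3) (.l 3))) (.b (.l 2307) (.l 2307))) (.a (.b (.c (.a (.l 3) (.l 2179))
      (.a (.l 3) (.l 1923))) (.c (.l 3) (.l 3))) (.b (.c (.l 2179) (.l 1923)) (.l 1923)))))

theorem x2_t3a_c1_f_h6 : chk3 (onCell 0 1073741824 0 429496730 0 67108864 T2_t3a_c1_f) x2_t3a_c1_f_t6 11 6 7 = true := by decide +kernel

def x2_t3a_c1_f_t7 : T :=
  (.a (.l 15) (.c (.a (.b (.a (.l 15) (.c (.b (.c (.l 3591) (.c (.l 3335) (.a (.l 3207) (.l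
      67)))) (.l 3207)) (.c (.b (.a (.l 2951) (.l 67)) (.l 2951)) (.b (.a (.l 2695) (.l 67)) (.l
      2695))))) (.c (.l 3271) (.l 2759))) (.b (.c (.a (.l 3267) (.l 3203)) (.a (.c (.l 3011) (.l
      67)) (.l 2691))) (.c (.a (.l 3267) (.l 3203)) (.a (.c (.l 3011) (.l 2755)) (.l 2755)))))
      (.a (.b (.c (.a (.l 15) (.c (.b (.a (.l 2439) (.l 67)) (.l 2439)) (.b (.a (.l 2375) (.l
      67)) (.l 2311)))) (.a (.l 15) (.b (.c (.a (.l 2247) (.l 67)) (.a (.l 1991) (.l 67))) (.l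
      1991)))) (.c (.l 71) (.l 71))) (.b (.c (.a (.c (.l 67) (.l 67)) (.l 2307)) (.a (.b (.l 67)
      (.l 3)) (.l 1923))) (.c (.a (.c (.l 2499) (.l 67)) (.l 2371)) (.a (.b (.l 3) (.l 3)) (.l
      1987)))))))

theorem x2_t3a_c1_f_h7 : chk3 (onCell 0 1073741824 0 429496730 0 67108864 T2_t3a_c1_f) x2_t3a_c1_f_t7 2 7 3 = true := by decide +kernel

def x2_t3a_c1_f_t8 : T :=
  (.a (.c (.b (.c (.a (.l 8131) (.l 8131)) (.a (.l 3975) (.l 4035))) (.c (.a (.l 8131) (.l 8131))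
      (.a (.b (.l 3971) (.l 4035)) (.l 4035)))) (.b (.c (.b (.l 71) (.a (.l 7) (.l 3))) (.b (.a
      (.l 71) (.l 67)) (.a (.l 71) (.l 67)))) (.c (.a (.b (.c (.l 3203) (.l 3)) (.c (.l 3203) (.l
      2691))) (.b (.l 3) (.l 2691))) (.b (.a (.c (.l 3) (.l 3)) (.c (.l 3) (.l 3))) (.a (.c (.l
      3) (.b (.l 3) (.l 1923))) (.c (.l 2307) (.l 3))))))) (.c (.b (.c (.l 8131) (.b (.l 3) (.l
      3971))) (.c (.l 8067) (.l 3971))) (.a (.b (.c (.l 67) (.b (.l 67) (.l 67))) (.c (.b (.l 3)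
      (.l 3)) (.b (.c (.l 3) (.l 3)) (.c (.l 3) (.l 3))))) (.a (.b (.c (.l 67) (.l 67)) (.c (.l
      3) (.b (.l 3) (.c (.l 3) (.l 3))))) (.b (.c (.l 67) (.l 67)) (.c (.l 67) (.b (.l 3) (.c (.l
      3) (.l 3)))))))))

theorem x2_t3a_c1_f_h8 : chk3 (onCell 0 1073741824 0 429496730 0 67108864 T2_t3a_c1_f) x2_t3a_c1_f_t8 3 2 1 = true := by decide +kernel

def x2_t3a_c1_f_t9 : T :=
  (.b (.c (.a (.l 8131) (.l 8067)) (.a (.b (.l 3971) (.l 3971)) (.b (.l 3971) (.l 3971)))) (.c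
      (.a (.l 8131) (.l 8067)) (.a (.b (.l 3971) (.l 4035)) (.l 4035))))

theorem x2_t3a_c1_f_h9 : chk3 (onCell 0 1073741824 0 429496730 0 67108864 T2_t3a_c1_f) x2_t3a_c1_f_t9 6 3 2 = true := by decide +kernel

def x2_t3a_c1_f_t10 : T :=
  (.a (.b (.c (.b (.c (.l 3203) (.a (.l 2691) (.l 2691))) (.c (.l 3203) (.a (.l 2691) (.l
      2691)))) (.b (.c (.b (.l 2307) (.l 2307)) (.b (.l 1923) (.a (.l 1923) (.l 1923)))) (.c (.a
      (.b (.l 2307) (.l 2307)) (.l 2307)) (.a (.b (.c (.l 2179) (.l 1923)) (.l 1923)) (.b (.l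
      1923) (.l 1923)))))) (.c (.b (.c (.l 3203) (.l 2691)) (.c (.l 3203) (.l 2691))) (.b (.c (.b
      (.l 2307) (.l 2307)) (.a (.b (.l 1923) (.l 1923)) (.l 3))) (.c (.l 2307) (.b (.l 1923) (.l
      1987)))))) (.b (.c (.b (.c (.l 3203) (.l 2691)) (.c (.l 3203) (.a (.l 2691) (.l 2691))))
      (.b (.c (.l 2307) (.a (.l 1923) (.l 1923))) (.c (.a (.l 2307) (.l 2307)) (.a (.l 3) (.l
      1923))))) (.c (.b (.c (.l 3203) (.l 2691)) (.c (.l 3203) (.l 2691))) (.b (.c (.a (.l 2307)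
      (.l 2307)) (.a (.l 1923) (.l 1923))) (.c (.a (.l 2307) (.l 2307)) (.a (.l 1923) (.l
      1987)))))))

theorem x2_t3a_c1_f_h10 : chk3 (onCell 0 1073741824 0 429496730 0 67108864 T2_t3a_c1_f) x2_t3a_c1_f_t10 6 3 3 = true := by decide +kernel

def x2_t3a_c1_f_t11 : T :=
  (.c (.b (.c (.l 8067) (.a (.l 3971) (.l 3971))) (.a (.c (.l 8067) (.l 3971)) (.c (.l 8067) (.l
      3971)))) (.a (.a (.b (.c (.b (.l 2691) (.l 2691)) (.b (.c (.l 2307) (.l 1923)) (.c (.l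
      2307) (.l 1923)))) (.c (.b (.l 2691) (.l 2691)) (.b (.c (.l 2307) (.l 1923)) (.c (.l 2307)
      (.l 1987))))) (.b (.c (.b (.l 2691) (.l 2691)) (.b (.c (.l 2307) (.l 3)) (.c (.l 2307) (.l
      1923)))) (.c (.b (.l 2691) (.l 2755)) (.b (.c (.l 2307) (.l 1923)) (.c (.l 2371) (.l
      1987)))))) (.a (.b (.c (.b (.l 2691) (.l 2691)) (.b (.c (.l 2307) (.l 3)) (.c (.l 2307) (.l
      1923)))) (.c (.b (.l 2691) (.c (.l 3203) (.l 2691))) (.b (.c (.l 2307) (.l 1923)) (.c (.l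
      2371) (.l 1987))))) (.b (.c (.b (.l 2691) (.l 2691)) (.b (.c (.l 3) (.l 3)) (.c (.l 2307)
      (.l 3)))) (.c (.b (.c (.l 3203) (.l 2691)) (.c (.l 3203) (.l 2691))) (.b (.c (.l 2307) (.l
      1923)) (.c (.l 2371) (.l 1987))))))))

theorem x2_t3a_c1_f_h11 : chk3 (onCell 0 1073741824 0 429496730 0 67108864 T2_t3a_c1_f) x2_t3a_c1_f_t11 7 3 1 = true := by decide +kernel

theorem x2_t3a_c1_f : Tree 0 1073741824 0 429496730 0 67108864 T2_t3a_c1_f :=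
  ⟨_, (chk3_a (chk3_b (chk3_c x2_t3a_c1_f_h0 x2_t3a_c1_f_h1) (chk3_c x2_t3a_c1_f_h2 (chk3_b
      (chk3_a x2_t3a_c1_f_h3 (chk3_c x2_t3a_c1_f_h4 (chk3_a x2_t3a_c1_f_h5 x2_t3a_c1_f_h6)))
      x2_t3a_c1_f_h7))) (chk3_b x2_t3a_c1_f_h8 (chk3_a (chk3_c x2_t3a_c1_f_h9 x2_t3a_c1_f_h10)
      x2_t3a_c1_f_h11)))⟩

def x1_t3a_c1_n_t0 : T :=
  (.a (.c (.l 10183) (.c (.l 6855) (.c (.l 5831) (.l 5063)))) (.a (.c (.c (.l 20423) (.l 10183))
      (.b (.c (.l 6855) (.b (.l 15) (.l 15))) (.c (.l 6855) (.l 5063)))) (.c (.b (.l 15) (.c (.c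
      (.l 40903) (.c (.l 27335) (.l 20423))) (.c (.b (.l 13639) (.b (.a (.l 13639) (.b (.l 13639)
      (.l 13635))) (.a (.b (.l 13635) (.l 13635)) (.b (.l 13635) (.l 13635))))) (.b (.l 10183)
      (.b (.a (.l 10183) (.b (.l 10183) (.l 10179))) (.a (.b (.l 10179) (.l 10179)) (.b (.l
      10179) (.l 10179)))))))) (.b (.l 15) (.b (.c (.l 6855) (.c (.l 5831) (.c (.l 5447) (.l
      71)))) (.b (.a (.l 5063) (.c (.b (.l 6855) (.b (.l 6851) (.l 6851))) (.b (.l 5063) (.b (.l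
      5059) (.l 5059))))) (.a (.c (.b (.l 6851) (.l 6851)) (.b (.l 5059) (.l 5059))) (.c (.b (.a
      (.l 6851) (.l 6851)) (.l 6851)) (.b (.a (.l 5059) (.l 5059)) (.l 5059))))))))))

theorem x1_t3a_c1_n_h0 : chk3 (onCell 0 2684354560 0 1073741824 0 26843546 T1_t3a_c1_n) x1_t3a_c1_n_t0 1 2 1 = true := by decide +kernel

def x1_t3a_c1_n_t1 : T :=
  (.a (.a (.l 4999) (.b (.l 4999) (.l 5063))) (.b (.b (.c (.l 10183) (.l 5063)) (.c (.l 10183)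
      (.l 5063))) (.c (.a (.b (.l 10183) (.c (.a (.l 20355) (.l 20355)) (.a (.l 10115) (.l
      10115)))) (.b (.c (.a (.l 20419) (.l 20419)) (.a (.l 10179) (.l 10179))) (.c (.a (.l 20419)
      (.l 20419)) (.a (.l 10179) (.l 10179))))) (.a (.b (.l 5063) (.a (.a (.l 4995) (.l 4995))
      (.a (.l 4995) (.l 4995)))) (.b (.a (.b (.l 4995) (.l 5059)) (.l 5059)) (.a (.l 5059) (.l
      5059)))))))

theorem x1_t3a_c1_n_h1 : chk3 (onCell 0 2684354560 0 1073741824 0 26843546 T1_t3a_c1_n) x1_t3a_c1_n_t1 2 3 1 = true := by decide +kernel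

def x1_t3a_c1_n_t2 : T :=
  (.a (.c (.a (.l 10183) (.b (.l 10183) (.c (.l 20419) (.l 10179)))) (.a (.l 5063) (.b (.c (.l
      6855) (.a (.l 5059) (.l 5059))) (.b (.l 5059) (.l 5059))))) (.b (.c (.a (.c (.b (.l 20419)
      (.l 20419)) (.b (.l 10179) (.l 10179))) (.c (.l 20419) (.l 10179))) (.a (.c (.b (.l 6851)
      (.l 6851)) (.b (.l 5059) (.l 5059))) (.c (.b (.l 6851) (.l 6851)) (.b (.l 5059) (.l
      5059))))) (.a (.c (.b (.l 10179) (.l 10179)) (.b (.a (.l 5059) (.l 5059)) (.a (.l 5059) (.l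
      4995)))) (.c (.b (.l 10179) (.l 10115)) (.c (.l 6787) (.b (.l 5059) (.l 5059)))))))

theorem x1_t3a_c1_n_h2 : chk3 (onCell 0 2684354560 0 1073741824 0 26843546 T1_t3a_c1_n) x1_t3a_c1_n_t2 3 12 1 = true := by decide +kernel

def x1_t3a_c1_n_t3 : T :=
  (.a (.c (.a (.c (.b (.l 20419) (.l 20419)) (.b (.l 10179) (.l 10179))) (.c (.b (.l 20419) (.l
      20419)) (.b (.l 10179) (.l 10179)))) (.a (.b (.a (.l 5059) (.l 5059)) (.a (.l 5059) (.l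
      5059))) (.b (.b (.l 5059) (.l 5059)) (.c (.l 6851) (.l 5059))))) (.b (.a (.c (.l 10179) (.c
      (.l 6851) (.b (.l 5059) (.l 5059)))) (.c (.l 10115) (.c (.l 6787) (.c (.l 5763) (.b (.l
      5059) (.l 5059)))))) (.a (.c (.l 10115) (.c (.l 6787) (.c (.l 5763) (.l 5059)))) (.c (.l
      10115) (.c (.l 6787) (.c (.l 5827) (.l 5059)))))))

theorem x1_t3a_c1_n_h3 : chk3 (onCell 0 2684354560 0 1073741824 0 26843546 T1_t3a_c1_n) x1_t3a_c1_n_t3 3 13 1 = true := by decide +kernel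

def x1_t3a_c1_n_t4 : T :=
  (.a (.c (.a (.c (.a (.l 20419) (.l 20419)) (.a (.l 10179) (.l 10179))) (.c (.b (.l 20419) (.l
      20355)) (.b (.l 10179) (.l 10115)))) (.a (.b (.a (.l 5059) (.l 5059)) (.c (.l 6851) (.l
      5059))) (.b (.c (.l 6851) (.b (.l 5059) (.l 5059))) (.c (.l 6787) (.a (.l 5059) (.l
      5059)))))) (.a (.c (.b (.l 10115) (.l 10115)) (.b (.c (.l 6787) (.c (.l 5827) (.l 5059)))
      (.c (.l 6787) (.c (.l 5827) (.l 5059))))) (.b (.c (.l 10115) (.c (.l 6851) (.c (.l 5827)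
      (.l 5059)))) (.c (.l 10115) (.c (.l 6851) (.c (.l 5827) (.l 5059)))))))

theorem x1_t3a_c1_n_h4 : chk3 (onCell 0 2684354560 0 1073741824 0 26843546 T1_t3a_c1_n) x1_t3a_c1_n_t4 3 14 1 = true := by decide +kernel

def x1_t3a_c1_n_t5 : T :=
  (.a (.c (.a (.c (.a (.l 20419) (.l 20355)) (.b (.l 10179) (.l 10179))) (.b (.l 10115) (.l
      10115))) (.a (.c (.b (.l 6851) (.l 6851)) (.b (.l 5059) (.l 5059))) (.c (.b (.l 6787) (.l
      6787)) (.b (.a (.l 5059) (.l 5059)) (.a (.l 5059) (.l 5059)))))) (.c (.a (.b (.l 10115) (.l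
      10115)) (.b (.l 10115) (.l 10115))) (.a (.c (.b (.l 6851) (.l 6851)) (.b (.a (.l 5059) (.l
      5059)) (.a (.l 5059) (.c (.l 5827) (.l 5059))))) (.c (.b (.l 6851) (.a (.l 6851) (.l
      6851))) (.b (.c (.l 5827) (.l 5059)) (.a (.c (.l 5827) (.l 5059)) (.c (.l 5827) (.l
      5059))))))))

theorem x1_t3a_c1_n_h5 : chk3 (onCell 0 2684354560 0 1073741824 0 26843546 T1_t3a_c1_n) x1_t3a_c1_n_t5 3 15 1 = true := by decide +kernel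

theorem x1_t3a_c1_n : Tree 0 2684354560 0 1073741824 0 26843546 T1_t3a_c1_n :=
  ⟨_, (chk3_b x1_t3a_c1_n_h0 (chk3_a x1_t3a_c1_n_h1 (chk3_b (chk3_b x1_t3a_c1_n_h2
      x1_t3a_c1_n_h3) (chk3_b x1_t3a_c1_n_h4 x1_t3a_c1_n_h5))))⟩

def x1_t3b_c3_f_t0 : T :=
  (.a (.b (.c (.a (.l 20391) (.c (.b (.l 40871) (.l 40903)) (.b (.l 20391) (.l 20423)))) (.a (.l
      10151) (.c (.b (.l 13607) (.l 13639)) (.b (.l 10151) (.l 10183))))) (.a (.a (.l 10151) (.l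
      10183)) (.b (.l 10183) (.a (.b (.l 10179) (.l 10179)) (.l 10179))))) (.c (.b (.a (.c (.b
      (.a (.l 15) (.l 15)) (.l 40903)) (.b (.a (.l 15) (.l 15)) (.l 20423))) (.c (.b (.l 15) (.l
      40903)) (.b (.l 15) (.l 20423)))) (.b (.b (.a (.l 20423) (.l 20419)) (.a (.l 20419) (.l
      20419))) (.a (.b (.l 20419) (.l 20419)) (.l 20419)))) (.b (.a (.c (.b (.a (.l 15) (.l 15))
      (.l 13639)) (.b (.a (.l 15) (.l 15)) (.l 10183))) (.c (.b (.l 15) (.l 13639)) (.b (.l 15)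
      (.l 10183)))) (.b (.b (.a (.l 10183) (.b (.l 10179) (.l 10179))) (.a (.l 10179) (.l
      10179))) (.a (.b (.l 10179) (.l 10179)) (.b (.l 10179) (.l 10179)))))))

theorem x1_t3b_c3_f_h0 : chk3 (onCell 0 2684354560 0 1073741824 0 26843546 T1_t3b_c3_f) x1_t3b_c3_f_t0 1 1 2 = true := by decide +kernel

def x1_t3b_c3_f_t1 : T :=
  (.b (.c (.a (.l 6823) (.c (.b (.l 8103) (.c (.l 9159) (.c (.l 8647) (.c (.l 8391) (.c (.l 71)
      (.b (.l 8135) (.l 8135))))))) (.b (.l 6823) (.b (.l 6855) (.l 6855))))) (.a (.l 5031) (.c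
      (.b (.l 5799) (.c (.c (.c (.b (.l 6727) (.l 6727)) (.b (.l 6599) (.l 6599))) (.c (.b (.l
      6471) (.l 6471)) (.b (.l 6343) (.l 6343)))) (.a (.l 5831) (.l 5831)))) (.b (.l 5031) (.a
      (.l 5063) (.l 5063)))))) (.a (.a (.l 5031) (.b (.l 5063) (.l 5063))) (.b (.l 5063) (.a (.b
      (.l 5059) (.l 5059)) (.b (.l 5059) (.l 5059))))))

theorem x1_t3b_c3_f_h1 : chk3 (onCell 0 2684354560 0 1073741824 0 26843546 T1_t3b_c3_f) x1_t3b_c3_f_t1 2 1 3 = true := by decide +kernel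

def x1_t3b_c3_f_t2 : T :=
  (.c (.b (.a (.c (.b (.a (.l 15) (.l 15)) (.l 8135)) (.b (.a (.l 15) (.l 15)) (.l 6855))) (.c
      (.b (.l 15) (.l 8135)) (.b (.l 15) (.l 6855)))) (.a (.b (.b (.l 6855) (.a (.l 6819) (.l
      6851))) (.b (.l 6851) (.l 6851))) (.b (.b (.b (.l 6851) (.l 6851)) (.l 6851)) (.b (.l 6851)
      (.l 6851))))) (.b (.a (.c (.b (.a (.l 15) (.l 15)) (.l 5831)) (.b (.a (.l 15) (.l 15)) (.l
      5063))) (.c (.b (.l 15) (.l 5831)) (.b (.l 15) (.l 5063)))) (.a (.b (.b (.l 5063) (.a (.l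
      5027) (.l 5059))) (.b (.a (.l 5059) (.l 5059)) (.a (.l 5059) (.l 5059)))) (.b (.b (.b (.l
      5059) (.l 5059)) (.b (.l 5059) (.l 5059))) (.b (.b (.l 5059) (.a (.l 5059) (.l 5059))) (.a
      (.l 5059) (.b (.l 5059) (.l 5059))))))))

theorem x1_t3b_c3_f_h2 : chk3 (onCell 0 2684354560 0 1073741824 0 26843546 T1_t3b_c3_f) x1_t3b_c3_f_t2 3 1 3 = true := by decide +kernel

theorem x1_t3b_c3_f : Tree 0 2684354560 0 1073741824 0 26843546 T1_t3b_c3_f :=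
  ⟨_, (chk3_c x1_t3b_c3_f_h0 (chk3_a x1_t3b_c3_f_h1 x1_t3b_c3_f_h2))⟩

def x2_t3b_c3_f_t0 : T :=
  (.a (.c (.a (.l 15) (.b (.l 8135) (.l 8135))) (.a (.l 15) (.b (.b (.l 4039) (.l 4039)) (.l
      4039)))) (.a (.c (.a (.l 8135) (.l 8135)) (.a (.a (.b (.l 4035) (.l 4035)) (.b (.l 4035)
      (.l 4035))) (.a (.b (.l 4035) (.l 4035)) (.b (.l 4035) (.l 4035))))) (.a (.b (.l 4035) (.l
      4035)) (.b (.l 4035) (.l 4035)))))

theorem x2_t3b_c3_f_h0 : chk3 (onCell 0 1073741824 0 429496730 0 67108864 T2_t3b_c3_f) x2_t3b_c3_f_t0 1 1 2 = true := by decide +kernel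

def x2_t3b_c3_f_t1 : T :=
  (.a (.c (.a (.l 15) (.b (.a (.b (.l 2759) (.l 2759)) (.c (.l 3271) (.a (.l 2759) (.l 2759))))
      (.a (.l 2759) (.l 2759)))) (.a (.l 15) (.b (.a (.b (.l 1991) (.l 1991)) (.c (.b (.l 2311)
      (.l 2375)) (.b (.l 1927) (.l 1991)))) (.c (.c (.l 2503) (.l 2375)) (.c (.a (.l 2247) (.l
      2247)) (.a (.l 1991) (.l 1991))))))) (.a (.c (.b (.a (.a (.a (.l 2755) (.l 2755)) (.l
      2755)) (.l 2755)) (.a (.l 2755) (.l 2755))) (.b (.a (.a (.b (.l 1987) (.l 1987)) (.b (.l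
      1987) (.l 1987))) (.a (.b (.l 1987) (.l 1987)) (.l 1987))) (.a (.a (.l 1987) (.l 1987)) (.a
      (.l 1987) (.l 1987))))) (.c (.a (.b (.l 2755) (.l 2755)) (.b (.l 2755) (.l 2755))) (.a (.b
      (.a (.l 1987) (.l 1987)) (.a (.l 1987) (.l 1987))) (.b (.a (.b (.l 1987) (.l 1987)) (.b (.l
      1987) (.l 1987))) (.b (.l 1987) (.l 1987)))))))

theorem x2_t3b_c3_f_h1 : chk3 (onCell 0 1073741824 0 429496730 0 67108864 T2_t3b_c3_f) x2_t3b_c3_f_t1 1 1 3 = true := by decide +kernel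

theorem x2_t3b_c3_f : Tree 0 1073741824 0 429496730 0 67108864 T2_t3b_c3_f :=
  ⟨_, (chk3_c x2_t3b_c3_f_h0 x2_t3b_c3_f_h1)⟩

def x1_t3b_c3_n_t0 : T :=
  (.b (.a (.l 5031) (.c (.b (.l 10183) (.a (.l 10183) (.l 10183))) (.b (.l 5063) (.a (.l 5063)
      (.l 5063))))) (.a (.a (.l 5031) (.c (.b (.l 10183) (.l 10183)) (.b (.l 5063) (.l 5063))))
      (.b (.c (.l 10183) (.a (.l 5063) (.l 5063))) (.a (.c (.c (.b (.l 20419) (.l 20419)) (.b (.l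
      10179) (.l 10179))) (.c (.b (.l 6851) (.l 6851)) (.b (.l 5063) (.l 5059)))) (.b (.a (.l
      5059) (.l 5059)) (.a (.l 5059) (.l 5059)))))))

theorem x1_t3b_c3_n_h0 : chk3 (onCell 0 2684354560 0 1073741824 0 26843546 T1_t3b_c3_n) x1_t3b_c3_n_t0 2 1 1 = true := by decide +kernel

def x1_t3b_c3_n_t1 : T :=
  (.a (.c (.b (.a (.l 15) (.l 15)) (.l 10183)) (.b (.a (.l 15) (.l 15)) (.b (.l 5063) (.l
      5063)))) (.c (.b (.l 15) (.a (.l 10183) (.b (.l 10183) (.l 10183)))) (.b (.l 15) (.b (.l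
      5063) (.a (.b (.l 5063) (.l 5059)) (.b (.b (.l 5059) (.l 5059)) (.b (.l 5059) (.l
      5059))))))))

theorem x1_t3b_c3_n_h1 : chk3 (onCell 0 2684354560 0 1073741824 0 26843546 T1_t3b_c3_n) x1_t3b_c3_n_t1 3 2 1 = true := by decide +kernel

def x1_t3b_c3_n_t2 : T :=
  (.b (.c (.b (.l 10183) (.a (.l 10179) (.l 10179))) (.b (.a (.l 5063) (.b (.l 5027) (.l 5059)))
      (.a (.b (.l 5059) (.l 5059)) (.b (.l 5059) (.l 5059))))) (.a (.c (.b (.l 10179) (.l 10179))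
      (.b (.b (.l 5059) (.l 5059)) (.a (.l 5059) (.l 5059)))) (.c (.b (.l 10179) (.l 10179)) (.b
      (.b (.l 5059) (.l 5059)) (.b (.a (.l 5059) (.l 5059)) (.a (.l 5059) (.l 5059)))))))

theorem x1_t3b_c3_n_h2 : chk3 (onCell 0 2684354560 0 1073741824 0 26843546 T1_t3b_c3_n) x1_t3b_c3_n_t2 6 3 1 = true := by decide +kernel

def x1_t3b_c3_n_t3 : T :=
  (.b (.c (.a (.b (.l 10179) (.l 10179)) (.l 10179)) (.a (.b (.l 5059) (.l 5059)) (.b (.l 5059)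
      (.l 5059)))) (.c (.b (.l 10179) (.l 10179)) (.a (.b (.l 5059) (.l 5059)) (.b (.a (.l 5059)
      (.l 5059)) (.b (.l 5059) (.a (.l 5059) (.l 5059)))))))

theorem x1_t3b_c3_n_h3 : chk3 (onCell 0 2684354560 0 1073741824 0 26843546 T1_t3b_c3_n) x1_t3b_c3_n_t3 7 6 1 = true := by decide +kernel

def x1_t3b_c3_n_t4 : T :=
  (.b (.l 10179) (.l 10179))

theorem x1_t3b_c3_n_h4 : chk3 (onCell 0 2684354560 0 1073741824 0 26843546 T1_t3b_c3_n) x1_t3b_c3_n_t4 7 7 2 = true := by decide +kernel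

def x1_t3b_c3_n_t5 : T :=
  (.a (.b (.a (.l 5059) (.l 5059)) (.a (.l 5059) (.b (.l 5059) (.l 5059)))) (.b (.b (.a (.l 5059)
      (.l 5059)) (.a (.l 5059) (.c (.l 6851) (.l 5059)))) (.a (.b (.a (.l 5059) (.l 5059)) (.a
      (.l 5059) (.c (.l 6851) (.l 5059)))) (.b (.c (.l 6851) (.l 5059)) (.c (.l 6851) (.l
      5059))))))

theorem x1_t3b_c3_n_h5 : chk3 (onCell 0 2684354560 0 1073741824 0 26843546 T1_t3b_c3_n) x1_t3b_c3_n_t5 7 14 3 = true := by decide +kernel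

def x1_t3b_c3_n_t6 : T :=
  (.a (.b (.a (.b (.l 5059) (.l 5059)) (.b (.a (.l 5059) (.l 5059)) (.a (.l 5059) (.c (.l 6851)
      (.l 5059))))) (.a (.b (.l 5059) (.a (.l 5059) (.c (.l 6851) (.l 5059)))) (.b (.a (.c (.l
      6851) (.l 5059)) (.c (.l 6851) (.l 5059))) (.a (.c (.l 6851) (.l 5059)) (.c (.l 6851) (.l
      5059)))))) (.b (.a (.b (.a (.c (.l 6851) (.l 5059)) (.c (.l 6851) (.l 5059))) (.a (.c (.l
      6851) (.l 5059)) (.c (.l 6851) (.l 5059)))) (.b (.c (.l 6851) (.l 5059)) (.a (.c (.l 6851)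
      (.l 5059)) (.c (.l 6851) (.l 5059))))) (.a (.b (.a (.c (.l 6851) (.l 5059)) (.c (.l 6851)
      (.l 5059))) (.a (.c (.l 6851) (.l 5059)) (.c (.l 6851) (.l 5059)))) (.b (.a (.c (.l 6851)
      (.l 5059)) (.c (.l 6851) (.l 5059))) (.a (.c (.l 6851) (.l 5059)) (.c (.l 6851) (.l
      5059)))))))

theorem x1_t3b_c3_n_h6 : chk3 (onCell 0 2684354560 0 1073741824 0 26843546 T1_t3b_c3_n) x1_t3b_c3_n_t6 7 15 3 = true := by decide +kernel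

theorem x1_t3b_c3_n : Tree 0 2684354560 0 1073741824 0 26843546 T1_t3b_c3_n :=
  ⟨_, (chk3_a x1_t3b_c3_n_h0 (chk3_b x1_t3b_c3_n_h1 (chk3_a x1_t3b_c3_n_h2 (chk3_b x1_t3b_c3_n_h3
      (chk3_c x1_t3b_c3_n_h4 (chk3_b x1_t3b_c3_n_h5 x1_t3b_c3_n_h6))))))⟩

end Pool.Agent.Strip051.LC.E1.Ch
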