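import Pool.Agent.Strip051.LC.E1.Ch.Te

/-! # Rests near the full period: certificates P12 -/

set_option maxRecDepth 100000

namespace Pool.Agent.Strip051.LC.E1.Ch

open Pool.Agent.Strip051.PB
open Pool.Agent.Strip051.LC.E0.Ch (onCell Tree)

def x1_u1_p_n_t0 : T :=
  (.a (.b (.l 79) (.a (.l 4996) (.a (.l 4996) (.l 5060)))) (.a (.a (.b (.l 15) (.a (.l 163856)
      (.b (.l 15) (.l 5028)))) (.b (.l 15) (.b (.l 15) (.b (.l 15) (.c (.l 10148) (.l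
      213232)))))) (.b (.l 15) (.b (.l 15) (.c (.a (.b (.l 15) (.a (.b (.l 15) (.l 254160)) (.l
      10148))) (.l 10150)) (.a (.b (.l 15) (.a (.l 15) (.l 15))) (.b (.l 15) (.l 213360))))))))

theorem x1_u1_p_n_h0 : chk3 (onCell 0 2684354560 0 1073741824 0 26843546 T1_u1_p_n) x1_u1_p_n_t0 2 2 1 = true := by decide +kernel

def x1_u1_p_n_t1 : T :=
  (.b (.a (.l 4996) (.b (.a (.l 4996) (.l 5060)) (.a (.l 4996) (.l 5060)))) (.a (.l 4996) (.b (.a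
      (.l 4996) (.b (.c (.a (.l 10176) (.l 10176)) (.a (.l 5056) (.l 5056))) (.c (.a (.l 10176)
      (.l 10176)) (.a (.l 5056) (.l 5056))))) (.a (.l 4996) (.c (.b (.a (.l 10176) (.l 10176))
      (.a (.l 10176) (.l 10176))) (.b (.a (.l 5056) (.l 5056)) (.a (.l 5056) (.l 5056))))))))

theorem x1_u1_p_n_h1 : chk3 (onCell 0 2684354560 0 1073741824 0 26843546 T1_u1_p_n) x1_u1_p_n_t1 4 3 1 = true := by decide +kernel

def x1_u1_p_n_t2 : T :=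
  (.b (.a (.a (.l 5028) (.b (.l 213072) (.l 204880))) (.b (.c (.a (.a (.b (.c (.l 246032) (.l
      237840)) (.c (.l 20384) (.l 10144))) (.b (.l 10148) (.l 10148))) (.l 10150)) (.a (.a (.b
      (.l 245968) (.c (.l 6816) (.l 229616))) (.b (.l 237808) (.l 5028))) (.l 188688))) (.a (.c
      (.b (.a (.l 10144) (.l 10144)) (.a (.l 10144) (.l 10144))) (.a (.b (.l 5024) (.l 5024)) (.l
      180528))) (.c (.l 10150) (.l 180496))))) (.a (.a (.b (.c (.b (.l 10176) (.l 10176)) (.b (.l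
      5056) (.l 5056))) (.c (.b (.l 10176) (.l 10176)) (.b (.l 5056) (.l 5056)))) (.b (.c (.l
      188560) (.l 172176)) (.c (.l 180368) (.l 172176)))) (.a (.c (.b (.a (.l 10144) (.l 10144))
      (.a (.l 10144) (.l 10144))) (.b (.a (.l 5024) (.l 5024)) (.a (.l 5024) (.l 5024)))) (.b (.c
      (.a (.l 10144) (.l 10144)) (.a (.l 5024) (.l 5024))) (.c (.a (.l 10144) (.l 10144)) (.a (.l
      5024) (.l 5024)))))))

theorem x1_u1_p_n_h2 : chk3 (onCell 0 2684354560 0 1073741824 0 26843546 T1_u1_p_n) x1_u1_p_n_t2 5 6 1 = true := by decide +kernel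

def x1_u1_p_n_t3 : T :=
  (.b (.a (.c (.b (.a (.l 10144) (.l 10144)) (.a (.l 10144) (.l 10144))) (.b (.a (.l 5024) (.l
      5024)) (.a (.l 5024) (.l 5024)))) (.c (.b (.a (.l 10144) (.l 10144)) (.b (.l 10144) (.a (.l
      10144) (.l 10144)))) (.b (.a (.l 5024) (.l 5024)) (.b (.l 5024) (.a (.l 5024) (.l
      5024)))))) (.a (.a (.b (.l 5024) (.l 12)) (.l 12)) (.b (.c (.b (.a (.l 10144) (.l 10144))
      (.l 12)) (.b (.a (.l 5024) (.l 5024)) (.l 12))) (.c (.l 12) (.l 12)))))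

theorem x1_u1_p_n_h3 : chk3 (onCell 0 2684354560 0 1073741824 0 26843546 T1_u1_p_n) x1_u1_p_n_t3 10 7 1 = true := by decide +kernel

def x1_u1_p_n_t4 : T :=
  (.a (.b (.b (.c (.a (.l 10144) (.l 10144)) (.a (.l 5024) (.l 5024))) (.c (.b (.l 10144) (.a (.l
      10144) (.l 10144))) (.b (.a (.l 5024) (.l 5024)) (.a (.l 5024) (.l 5024))))) (.b (.c (.b
      (.a (.l 10144) (.l 10144)) (.a (.l 10144) (.l 10144))) (.b (.a (.l 5024) (.l 5024)) (.a (.l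
      5024) (.l 5024)))) (.c (.l 14) (.l 14)))) (.b (.a (.b (.l 5026) (.l 5026)) (.b (.l 5026)
      (.l 5026))) (.a (.b (.c (.l 10146) (.l 5026)) (.c (.a (.l 10146) (.l 10146)) (.a (.l 5026)
      (.l 5026)))) (.b (.c (.l 10146) (.l 5026)) (.c (.l 10146) (.l 5026))))))

theorem x1_u1_p_n_h4 : chk3 (onCell 0 2684354560 0 1073741824 0 26843546 T1_u1_p_n) x1_u1_p_n_t4 11 7 1 = true := by decide +kernel

def x1_u1_p_n_t5 : T :=
  (.a (.b (.l 15) (.c (.a (.b (.l 15) (.a (.l 10150) (.l 10150))) (.a (.b (.l 15) (.l 10182)) (.b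
      (.l 15) (.l 10182)))) (.a (.b (.l 15) (.a (.b (.l 15) (.l 5030)) (.l 5030))) (.a (.b (.l
      15) (.a (.l 15) (.l 15))) (.b (.l 15) (.a (.l 15) (.l 15))))))) (.b (.l 15) (.a (.c (.a (.b
      (.l 15) (.a (.c (.l 20422) (.l 15)) (.c (.l 20422) (.l 15)))) (.b (.l 15) (.c (.l 20422)
      (.a (.l 15) (.l 15))))) (.a (.b (.l 15) (.a (.l 15) (.l 15))) (.b (.l 15) (.c (.l 15) (.l
      15))))) (.b (.l 15) (.c (.a (.a (.b (.l 15) (.c (.l 20422) (.l 15))) (.l 10182)) (.a (.l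
      10182) (.c (.l 20422) (.l 15)))) (.a (.l 15) (.l 15)))))))

theorem x1_u1_p_n_h5 : chk3 (onCell 0 2684354560 0 1073741824 0 26843546 T1_u1_p_n) x1_u1_p_n_t5 3 2 1 = true := by decide +kernel

def x1_u1_p_n_t6 : T :=
  (.b (.a (.b (.a (.l 5030) (.c (.l 10150) (.b (.c (.l 6822) (.a (.l 5030) (.l 5030))) (.l
      5030)))) (.a (.c (.l 10182) (.b (.l 5030) (.l 5026))) (.l 5062))) (.b (.a (.c (.l 10182)
      (.l 5062)) (.l 5062)) (.a (.b (.c (.l 10178) (.l 5058)) (.l 5058)) (.b (.c (.l 10178) (.l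
      5058)) (.a (.l 5058) (.b (.l 5058) (.l 5058))))))) (.a (.a (.b (.c (.l 10146) (.a (.l 5026)
      (.l 5026))) (.a (.l 5026) (.l 5026))) (.b (.c (.l 10178) (.l 5026)) (.a (.l 5058) (.l
      5058)))) (.b (.a (.b (.a (.l 5058) (.l 5058)) (.a (.l 5058) (.l 5058))) (.b (.a (.l 5058)
      (.l 5058)) (.a (.l 5058) (.l 5058)))) (.a (.a (.b (.l 5058) (.l 5058)) (.b (.l 5058) (.l
      5058))) (.a (.l 5058) (.l 5058))))))

theorem x1_u1_p_n_h6 : chk3 (onCell 0 2684354560 0 1073741824 0 26843546 T1_u1_p_n) x1_u1_p_n_t6 6 6 1 = true := by decide +kernel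

def x1_u1_p_n_t7 : T :=
  (.c (.a (.a (.b (.a (.l 10146) (.l 10178)) (.a (.l 10178) (.l 10146))) (.b (.a (.l 10178) (.l
      10178)) (.l 10146))) (.b (.a (.l 10178) (.l 10146)) (.l 10146))) (.a (.a (.b (.a (.l 5026)
      (.b (.l 5026) (.l 5026))) (.a (.b (.l 5026) (.l 5026)) (.l 5026))) (.b (.b (.l 5058) (.l
      5058)) (.a (.l 5026) (.l 5026)))) (.b (.a (.b (.l 5058) (.l 5026)) (.b (.l 5026) (.l
      5026))) (.a (.a (.l 5026) (.l 5058)) (.a (.l 5058) (.b (.l 5058) (.l 5058)))))))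

theorem x1_u1_p_n_h7 : chk3 (onCell 0 2684354560 0 1073741824 0 26843546 T1_u1_p_n) x1_u1_p_n_t7 6 7 1 = true := by decide +kernel

def x1_u1_p_n_t8 : T :=
  (.b (.b (.a (.a (.l 10182) (.l 10182)) (.b (.a (.l 10182) (.a (.l 10182) (.l 10182))) (.a (.b
      (.b (.l 10178) (.l 10178)) (.l 10178)) (.a (.l 10182) (.l 10178))))) (.a (.b (.a (.l 10178)
      (.l 10178)) (.a (.l 10178) (.l 10146))) (.b (.a (.l 10178) (.l 10178)) (.l 10178)))) (.a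
      (.b (.l 10178) (.l 10146)) (.b (.l 10178) (.l 10146))))

theorem x1_u1_p_n_h8 : chk3 (onCell 0 2684354560 0 1073741824 0 26843546 T1_u1_p_n) x1_u1_p_n_t8 7 6 2 = true := by decide +kernel

def x1_u1_p_n_t9 : T :=
  (.b (.b (.a (.c (.l 6822) (.l 5030)) (.a (.c (.l 6822) (.a (.l 5030) (.b (.l 5062) (.l 5030))))
      (.c (.a (.b (.l 6854) (.l 6850)) (.b (.l 6854) (.l 6818))) (.a (.b (.c (.a (.l 5830) (.b
      (.l 5830) (.l 5798))) (.a (.l 5062) (.b (.l 15) (.l 5030)))) (.l 5030)) (.b (.c (.a (.b (.l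
      5830) (.l 5798)) (.b (.l 5830) (.l 5798))) (.a (.b (.l 15) (.l 5030)) (.b (.l 15) (.c (.a
      (.l 5414) (.b (.l 5446) (.l 5442))) (.a (.b (.l 5062) (.l 5058)) (.b (.c (.a (.l 5318) (.b
      (.l 5318) (.l 5347))) (.a (.l 5062) (.b (.l 15) (.l 5091)))) (.l 5058))))))) (.l 5030))))))
      (.b (.a (.a (.l 5058) (.l 5058)) (.b (.l 5058) (.l 5026))) (.a (.l 5058) (.l 5026)))) (.b
      (.a (.b (.l 5026) (.l 5026)) (.l 5026)) (.a (.l 5026) (.l 5026))))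

theorem x1_u1_p_n_h9 : chk3 (onCell 0 2684354560 0 1073741824 0 26843546 T1_u1_p_n) x1_u1_p_n_t9 14 6 3 = true := by decide +kernel

def x1_u1_p_n_t10 : T :=
  (.a (.c (.l 8134) (.l 6854)) (.a (.c (.l 8134) (.l 6854)) (.c (.l 8134) (.l 6854))))

theorem x1_u1_p_n_h10 : chk3 (onCell 0 2684354560 0 1073741824 0 26843546 T1_u1_p_n) x1_u1_p_n_t10 60 24 6 = true := by decide +kernel

def x1_u1_p_n_t11 : T :=
  (.c (.a (.b (.l 5830) (.l 5830)) (.a (.b (.l 5830) (.l 5830)) (.b (.l 5830) (.l 5798)))) (.a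
      (.b (.l 15) (.c (.b (.l 70) (.l 5410)) (.b (.c (.a (.a (.b (.l 5318) (.l 5347)) (.b (.l
      5318) (.l 5347))) (.a (.b (.l 5318) (.l 5347)) (.a (.b (.l 5318) (.l 5347)) (.b (.l 5318)
      (.l 5347))))) (.a (.b (.l 15) (.l 99)) (.a (.b (.l 15) (.l 99)) (.a (.b (.l 15) (.l 99))
      (.b (.l 15) (.l 99)))))) (.l 5058)))) (.a (.b (.l 15) (.c (.a (.b (.l 5446) (.l 5410)) (.b
      (.l 5446) (.l 5410))) (.a (.b (.c (.a (.b (.l 5318) (.l 5347)) (.b (.l 5318) (.l 5347)))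
      (.a (.b (.l 15) (.l 99)) (.b (.l 15) (.l 99)))) (.l 5026)) (.b (.c (.a (.b (.l 5318) (.l
      5347)) (.b (.l 5318) (.l 5347))) (.a (.b (.l 15) (.l 99)) (.b (.l 15) (.l 99)))) (.l
      5058))))) (.b (.l 15) (.c (.l 5414) (.a (.b (.c (.a (.b (.l 5318) (.l 5347)) (.l 5286)) (.l
      5062)) (.l 5058)) (.l 5030)))))))

theorem x1_u1_p_n_h11 : chk3 (onCell 0 2684354560 0 1073741824 0 26843546 T1_u1_p_n) x1_u1_p_n_t11 120 48 7 = true := by decide +kernel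

def x1_u1_p_n_t12 : T :=
  (.b (.l 5026) (.l 5026))

theorem x1_u1_p_n_h12 : chk3 (onCell 0 2684354560 0 1073741824 0 26843546 T1_u1_p_n) x1_u1_p_n_t12 120 49 7 = true := by decide +kernel

def x1_u1_p_n_t13 : T :=
  (.a (.b (.c (.a (.b (.l 5830) (.l 5798)) (.b (.l 5830) (.l 5798))) (.a (.b (.l 15) (.l 5030))
      (.b (.l 15) (.l 5030)))) (.l 5062)) (.b (.c (.a (.b (.l 15) (.l 5798)) (.c (.l 6342) (.l
      5830))) (.a (.b (.l 15) (.l 5030)) (.b (.l 15) (.l 5030)))) (.l 5030)))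

theorem x1_u1_p_n_h13 : chk3 (onCell 0 2684354560 0 1073741824 0 26843546 T1_u1_p_n) x1_u1_p_n_t13 121 24 7 = true := by decide +kernel

def x1_u1_p_n_t14 : T :=
  (.c (.a (.c (.l 8134) (.a (.l 6854) (.l 6854))) (.l 6854)) (.a (.c (.a (.b (.a (.c (.l 6342)
      (.l 5830)) (.c (.l 6310) (.l 5830))) (.l 5826)) (.b (.l 5798) (.l 5826))) (.a (.b (.l 5062)
      (.l 5057)) (.b (.l 5062) (.l 5057)))) (.a (.b (.l 5030) (.b (.l 5057) (.l 5026))) (.b (.l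
      5030) (.b (.l 5057) (.l 5058))))))

theorem x1_u1_p_n_h14 : chk3 (onCell 0 2684354560 0 1073741824 0 26843546 T1_u1_p_n) x1_u1_p_n_t14 61 24 3 = true := by decide +kernel

def x1_u1_p_n_t15 : T :=
  (.a (.c (.l 6854) (.a (.b (.l 5030) (.b (.l 5058) (.l 5058))) (.b (.l 5062) (.b (.l 5057) (.l
      5058))))) (.c (.b (.l 6854) (.l 6854)) (.b (.l 5062) (.b (.l 5057) (.l 5058)))))

theorem x1_u1_p_n_h15 : chk3 (onCell 0 2684354560 0 1073741824 0 26843546 T1_u1_p_n) x1_u1_p_n_t15 62 24 3 = true := by decide +kernel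

def x1_u1_p_n_t16 : T :=
  (.c (.b (.l 6854) (.l 6850)) (.b (.c (.a (.c (.l 6342) (.l 5798)) (.c (.l 6342) (.l 5830))) (.a
      (.l 5030) (.b (.l 15) (.c (.l 5446) (.a (.l 5030) (.b (.l 5030) (.l 5091))))))) (.b (.l
      5057) (.l 5058))))

theorem x1_u1_p_n_h16 : chk3 (onCell 0 2684354560 0 1073741824 0 26843546 T1_u1_p_n) x1_u1_p_n_t16 126 24 3 = true := by decide +kernel

def x1_u1_p_n_t17 : T :=
  (.b (.l 6854) (.l 6850))

theorem x1_u1_p_n_h17 : chk3 (onCell 0 2684354560 0 1073741824 0 26843546 T1_u1_p_n) x1_u1_p_n_t17 127 24 6 = true := by decide +kernel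

def x1_u1_p_n_t18 : T :=
  (.b (.a (.c (.l 6342) (.l 5830)) (.c (.l 6342) (.l 5830))) (.l 5826))

theorem x1_u1_p_n_h18 : chk3 (onCell 0 2684354560 0 1073741824 0 26843546 T1_u1_p_n) x1_u1_p_n_t18 127 24 14 = true := by decide +kernel

def x1_u1_p_n_t19 : T :=
  (.c (.b (.l 15) (.a (.c (.l 5702) (.b (.l 5414) (.l 5441))) (.c (.l 5702) (.b (.l 5414) (.l
      5441))))) (.b (.l 15) (.a (.b (.l 5030) (.l 5091)) (.b (.l 5030) (.l 5091)))))

theorem x1_u1_p_n_h19 : chk3 (onCell 0 2684354560 0 1073741824 0 26843546 T1_u1_p_n) x1_u1_p_n_t19 254 48 15 = true := by decide +kernel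

def x1_u1_p_n_t20 : T :=
  (.b (.l 15) (.a (.c (.l 5702) (.b (.a (.l 5414) (.c (.l 5574) (.l 5414))) (.l 5441))) (.c (.l
      5702) (.b (.a (.c (.l 5574) (.b (.l 15) (.l 5446))) (.c (.l 5574) (.b (.l 15) (.a (.l 5446)
      (.l 5446))))) (.l 5442)))))

theorem x1_u1_p_n_h20 : chk3 (onCell 0 2684354560 0 1073741824 0 26843546 T1_u1_p_n) x1_u1_p_n_t20 255 48 30 = true := by decide +kernel

def x1_u1_p_n_t21 : T :=
  (.l 15)

theorem x1_u1_p_n_h21 : chk3 (onCell 0 2684354560 0 1073741824 0 26843546 T1_u1_p_n) x1_u1_p_n_t21 255 96 31 = true := by decide +kernel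

def x1_u1_p_n_t22 : T :=
  (.c (.b (.l 5286) (.l 5347)) (.b (.l 5030) (.l 5091)))

theorem x1_u1_p_n_h22 : chk3 (onCell 0 2684354560 0 1073741824 0 26843546 T1_u1_p_n) x1_u1_p_n_t22 510 97 31 = true := by decide +kernel

def x1_u1_p_n_t23 : T :=
  (.b (.a (.c (.b (.l 15) (.a (.l 5286) (.c (.b (.l 15) (.l 5475)) (.b (.l 15) (.l 5347))))) (.b
      (.l 15) (.a (.l 5286) (.c (.b (.l 15) (.l 5347)) (.l 5286))))) (.c (.b (.l 15) (.a (.c (.b
      (.l 15) (.l 5475)) (.b (.l 15) (.l 5347))) (.c (.b (.l 15) (.l 5475)) (.b (.l 15) (.l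
      5347))))) (.b (.l 15) (.a (.c (.b (.l 15) (.l 5347)) (.b (.l 15) (.l 5347))) (.c (.b (.l
      15) (.l 5347)) (.b (.l 15) (.l 5347))))))) (.l 5313))

theorem x1_u1_p_n_h23 : chk3 (onCell 0 2684354560 0 1073741824 0 26843546 T1_u1_p_n) x1_u1_p_n_t23 511 97 62 = true := by decide +kernel

def x1_u1_p_n_t24 : T :=
  (.b (.a (.l 5030) (.c (.b (.l 15) (.a (.c (.b (.l 15) (.l 99)) (.b (.l 15) (.a (.l 99) (.c (.l
      99) (.l 5158))))) (.c (.b (.l 15) (.l 99)) (.b (.l 15) (.a (.c (.l 99) (.b (.l 15) (.l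
      5219))) (.c (.b (.l 15) (.l 5219)) (.b (.l 15) (.l 5219)))))))) (.b (.l 15) (.a (.l 5030)
      (.c (.b (.l 15) (.a (.c (.b (.l 15) (.l 5219)) (.b (.l 15) (.l 5219))) (.c (.b (.l 15) (.l
      5219)) (.b (.l 15) (.l 5219))))) (.b (.l 15) (.a (.l 5030) (.c (.b (.l 15) (.l 5219)) (.b
      (.l 15) (.l 5091)))))))))) (.l 5091))

theorem x1_u1_p_n_h24 : chk3 (onCell 0 2684354560 0 1073741824 0 26843546 T1_u1_p_n) x1_u1_p_n_t24 511 97 63 = true := by decide +kernel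

def x1_u1_p_n_t25 : T :=
  (.l 5058)

theorem x1_u1_p_n_h25 : chk3 (onCell 0 2684354560 0 1073741824 0 26843546 T1_u1_p_n) x1_u1_p_n_t25 127 49 15 = true := by decide +kernel

def x1_u1_p_n_t26 : T :=
  (.a (.b (.b (.a (.l 5026) (.l 5026)) (.l 5026)) (.l 5026)) (.c (.l 6850) (.b (.l 5058) (.l
      5058))))

theorem x1_u1_p_n_h26 : chk3 (onCell 0 2684354560 0 1073741824 0 26843546 T1_u1_p_n) x1_u1_p_n_t26 15 25 3 = true := by decide +kernel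

def x1_u1_p_n_t27 : T :=
  (.c (.b (.l 6850) (.l 6818)) (.b (.b (.l 5058) (.l 5058)) (.l 5058)))

theorem x1_u1_p_n_h27 : chk3 (onCell 0 2684354560 0 1073741824 0 26843546 T1_u1_p_n) x1_u1_p_n_t27 15 13 3 = true := by decide +kernel

def x1_u1_p_n_t28 : T :=
  (.b (.c (.l 10146) (.a (.b (.l 5026) (.l 5058)) (.b (.l 5058) (.a (.l 5058) (.l 5058))))) (.c
      (.l 10146) (.a (.b (.a (.l 5058) (.l 5058)) (.a (.l 5058) (.c (.l 6818) (.l 5026)))) (.b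
      (.a (.c (.l 6818) (.l 5026)) (.b (.l 5058) (.c (.l 6818) (.l 5026)))) (.a (.b (.c (.l 6818)
      (.l 5026)) (.c (.l 6818) (.l 5026))) (.b (.c (.l 6818) (.l 5026)) (.a (.c (.l 6818) (.l
      5026)) (.c (.l 6818) (.l 5026)))))))))

theorem x1_u1_p_n_h28 : chk3 (onCell 0 2684354560 0 1073741824 0 26843546 T1_u1_p_n) x1_u1_p_n_t28 14 7 1 = true := by decide +kernel

def x1_u1_p_n_t29 : T :=
  (.b (.c (.l 10178) (.b (.a (.b (.l 5058) (.l 5058)) (.b (.c (.l 6818) (.l 5058)) (.c (.l 6818)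
      (.l 5058)))) (.a (.b (.a (.l 5058) (.l 5058)) (.a (.l 5058) (.c (.l 6818) (.l 5026)))) (.b
      (.c (.l 6818) (.l 5058)) (.a (.c (.l 6818) (.l 5026)) (.c (.l 6818) (.l 5058))))))) (.c (.l
      10146) (.a (.b (.a (.b (.c (.l 6818) (.l 5026)) (.c (.l 6818) (.l 5026))) (.b (.c (.l 6818)
      (.l 5026)) (.c (.l 6818) (.l 5026)))) (.a (.b (.c (.l 6818) (.l 5026)) (.a (.c (.l 6818)
      (.l 5026)) (.c (.l 6818) (.l 5026)))) (.b (.c (.l 6818) (.l 5058)) (.a (.c (.l 6818) (.l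
      5058)) (.c (.l 6818) (.l 5058)))))) (.b (.b (.a (.c (.l 6818) (.l 5058)) (.c (.l 6818) (.l
      5058))) (.a (.c (.l 6818) (.l 5058)) (.c (.l 6818) (.l 5058)))) (.a (.b (.c (.l 6818) (.l
      5058)) (.a (.c (.l 6818) (.l 5058)) (.c (.l 6818) (.l 5058)))) (.b (.c (.l 6818) (.l 5058))
      (.a (.c (.l 6818) (.l 5058)) (.c (.l 6818) (.l 5058)))))))))

theorem x1_u1_p_n_h29 : chk3 (onCell 0 2684354560 0 1073741824 0 26843546 T1_u1_p_n) x1_u1_p_n_t29 15 7 1 = true := by decide +kernel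

theorem x1_u1_p_n : Tree 0 2684354560 0 1073741824 0 26843546 T1_u1_p_n :=
  ⟨_, (chk3_a (chk3_b x1_u1_p_n_h0 (chk3_a x1_u1_p_n_h1 (chk3_b x1_u1_p_n_h2 (chk3_a x1_u1_p_n_h3
      x1_u1_p_n_h4)))) (chk3_b x1_u1_p_n_h5 (chk3_a (chk3_b x1_u1_p_n_h6 x1_u1_p_n_h7) (chk3_b
      (chk3_c x1_u1_p_n_h8 (chk3_a x1_u1_p_n_h9 (chk3_b (chk3_b (chk3_a (chk3_a (chk3_c
      x1_u1_p_n_h10 (chk3_a (chk3_b x1_u1_p_n_h11 x1_u1_p_n_h12) x1_u1_p_n_h13)) x1_u1_p_n_h14)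
      (chk3_a x1_u1_p_n_h15 (chk3_a x1_u1_p_n_h16 (chk3_c x1_u1_p_n_h17 (chk3_c x1_u1_p_n_h18
      (chk3_b (chk3_a x1_u1_p_n_h19 (chk3_c x1_u1_p_n_h20 (chk3_b x1_u1_p_n_h21 (chk3_a
      x1_u1_p_n_h22 (chk3_c x1_u1_p_n_h23 x1_u1_p_n_h24))))) x1_u1_p_n_h25)))))) x1_u1_p_n_h26)
      x1_u1_p_n_h27))) (chk3_a x1_u1_p_n_h28 x1_u1_p_n_h29)))))⟩

def x2_u1_p_n_t0 : T :=
  (.a (.l 15) (.c (.a (.l 15) (.b (.l 4038) (.b (.l 4038) (.b (.l 4038) (.b (.l 4038) (.c (.l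
      8134) (.l 15))))))) (.l 15)))

theorem x2_u1_p_n_h0 : chk3 (onCell 0 1073741824 0 429496730 0 67108864 T2_u1_p_n) x2_u1_p_n_t0 2 1 1 = true := by decide +kernel

def x2_u1_p_n_t1 : T :=
  (.a (.b (.l 4038) (.c (.a (.l 8134) (.a (.l 8134) (.b (.l 8130) (.l 8130)))) (.a (.b (.l 4006)
      (.l 4038)) (.a (.b (.l 4034) (.a (.l 4034) (.l 4034))) (.b (.l 4034) (.l 4034)))))) (.b (.a
      (.l 4038) (.b (.l 4034) (.l 4034))) (.c (.a (.b (.l 8130) (.l 8130)) (.l 8130)) (.a (.b (.l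
      4034) (.l 4034)) (.b (.l 4034) (.l 4034))))))

theorem x2_u1_p_n_h1 : chk3 (onCell 0 1073741824 0 429496730 0 67108864 T2_u1_p_n) x2_u1_p_n_t1 6 1 2 = true := by decide +kernel

def x2_u1_p_n_t2 : T :=
  (.b (.c (.l 2726) (.l 1990)) (.b (.c (.l 2726) (.l 1990)) (.c (.l 2726) (.l 1990))))

theorem x2_u1_p_n_h2 : chk3 (onCell 0 1073741824 0 429496730 0 67108864 T2_u1_p_n) x2_u1_p_n_t2 12 2 3 = true := by decide +kernel

def x2_u1_p_n_t3 : T :=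
  (.b (.l 2726) (.b (.b (.l 2758) (.a (.l 2726) (.l 2754))) (.b (.a (.l 2758) (.l 2754)) (.a (.c
      (.l 3270) (.l 2758)) (.l 2754)))))

theorem x2_u1_p_n_h3 : chk3 (onCell 0 1073741824 0 429496730 0 67108864 T2_u1_p_n) x2_u1_p_n_t3 12 3 6 = true := by decide +kernel

def x2_u1_p_n_t4 : T :=
  (.l 1958)

theorem x2_u1_p_n_h4 : chk3 (onCell 0 1073741824 0 429496730 0 67108864 T2_u1_p_n) x2_u1_p_n_t4 24 6 7 = true := by decide +kernel

def x2_u1_p_n_t5 : T :=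
  (.l 1958)

theorem x2_u1_p_n_h5 : chk3 (onCell 0 1073741824 0 429496730 0 67108864 T2_u1_p_n) x2_u1_p_n_t5 24 14 7 = true := by decide +kernel

def x2_u1_p_n_t6 : T :=
  (.b (.l 2374) (.c (.l 2502) (.a (.l 2374) (.a (.l 2370) (.l 2370)))))

theorem x2_u1_p_n_h6 : chk3 (onCell 0 1073741824 0 429496730 0 67108864 T2_u1_p_n) x2_u1_p_n_t6 24 15 14 = true := by decide +kernel

def x2_u1_p_n_t7 : T :=
  (.b (.l 2246) (.a (.b (.l 2214) (.a (.l 15) (.c (.l 2246) (.a (.c (.l 2246) (.a (.l 15) (.c (.l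
      2246) (.l 2246)))) (.c (.l 2246) (.a (.c (.l 2246) (.l 2246)) (.l 2242))))))) (.b (.l 2242)
      (.l 2242))))

theorem x2_u1_p_n_h7 : chk3 (onCell 0 1073741824 0 429496730 0 67108864 T2_u1_p_n) x2_u1_p_n_t7 24 15 30 = true := by decide +kernel

def x2_u1_p_n_t8 : T :=
  (.l 1990)

theorem x2_u1_p_n_h8 : chk3 (onCell 0 1073741824 0 429496730 0 67108864 T2_u1_p_n) x2_u1_p_n_t8 24 30 31 = true := by decide +kernel

def x2_u1_p_n_t9 : T :=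
  (.a (.b (.l 2086) (.a (.l 15) (.a (.c (.a (.l 15) (.c (.b (.l 2086) (.a (.l 15) (.l 99))) (.b
      (.l 2086) (.a (.l 15) (.l 99))))) (.a (.l 15) (.c (.b (.l 2086) (.a (.l 15) (.l 99))) (.b
      (.l 2086) (.a (.l 15) (.l 99)))))) (.c (.a (.c (.b (.l 2082) (.l 65)) (.b (.l 2082) (.l
      65))) (.l 2114)) (.a (.c (.b (.l 2082) (.l 99)) (.l 99)) (.l 2114)))))) (.b (.l 2114) (.l
      2114)))

theorem x2_u1_p_n_h9 : chk3 (onCell 0 1073741824 0 429496730 0 67108864 T2_u1_p_n) x2_u1_p_n_t9 24 31 62 = true := by decide +kernel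

def x2_u1_p_n_t10 : T :=
  (.a (.b (.l 1958) (.c (.a (.l 15) (.a (.a (.l 15) (.c (.b (.l 2086) (.a (.l 15) (.c (.l 99) (.b
      (.l 99) (.a (.l 15) (.l 99)))))) (.b (.l 2086) (.a (.l 15) (.c (.b (.l 99) (.a (.l 15) (.l
      99))) (.b (.l 99) (.a (.l 15) (.l 99)))))))) (.a (.l 99) (.l 2114)))) (.a (.l 15) (.b (.l
      1990) (.a (.a (.l 15) (.c (.a (.l 15) (.c (.b (.l 99) (.a (.l 15) (.l 99))) (.b (.l 2086)
      (.a (.l 15) (.l 99))))) (.a (.l 15) (.c (.b (.l 2086) (.a (.l 15) (.l 99))) (.b (.l 1958)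
      (.a (.l 15) (.l 99))))))) (.b (.l 99) (.l 99))))))) (.b (.l 1990) (.l 1986)))

theorem x2_u1_p_n_h10 : chk3 (onCell 0 1073741824 0 429496730 0 67108864 T2_u1_p_n) x2_u1_p_n_t10 24 31 63 = true := by decide +kernel

def x2_u1_p_n_t11 : T :=
  (.b (.l 1990) (.c (.a (.a (.a (.l 2370) (.l 2370)) (.l 2370)) (.l 2370)) (.a (.a (.b (.l 1954)
      (.l 1986)) (.c (.l 2242) (.l 1986))) (.a (.l 1986) (.l 1986)))))

theorem x2_u1_p_n_h11 : chk3 (onCell 0 1073741824 0 429496730 0 67108864 T2_u1_p_n) x2_u1_p_n_t11 25 3 7 = true := by decide +kernel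

def x2_u1_p_n_t12 : T :=
  (.b (.c (.l 2758) (.a (.b (.l 1990) (.l 1986)) (.b (.l 1986) (.l 1986)))) (.c (.a (.b (.l 2754)
      (.l 2754)) (.b (.l 2754) (.l 2754))) (.a (.b (.a (.l 1986) (.l 1986)) (.a (.c (.l 2370) (.l
      1986)) (.l 1986))) (.b (.a (.l 1986) (.l 1986)) (.l 1986)))))

theorem x2_u1_p_n_h12 : chk3 (onCell 0 1073741824 0 429496730 0 67108864 T2_u1_p_n) x2_u1_p_n_t12 13 1 3 = true := by decide +kernel

def x2_u1_p_n_t13 : T :=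
  (.c (.a (.b (.b (.l 4034) (.l 4034)) (.b (.l 4034) (.l 4034))) (.b (.b (.l 4034) (.l 4034)) (.b
      (.l 4034) (.l 4034)))) (.a (.b (.a (.b (.c (.l 2754) (.l 1986)) (.a (.c (.l 2754) (.l
      1986)) (.c (.l 2754) (.l 1986)))) (.b (.c (.l 2754) (.l 1986)) (.b (.c (.l 2754) (.l 1986))
      (.l 1986)))) (.b (.a (.c (.l 2754) (.l 1986)) (.c (.l 2754) (.l 1986))) (.a (.c (.l 2722)
      (.l 1986)) (.c (.l 2754) (.l 1986))))) (.b (.b (.a (.c (.l 2754) (.l 1986)) (.b (.l 1986)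
      (.l 1986))) (.a (.b (.l 1986) (.l 1986)) (.b (.l 1986) (.l 1986)))) (.b (.a (.b (.c (.l
      2722) (.l 1986)) (.c (.l 2722) (.l 1986))) (.b (.c (.l 2754) (.l 1986)) (.c (.l 2754) (.l
      1986)))) (.a (.c (.l 2754) (.l 1986)) (.b (.c (.l 2754) (.l 1986)) (.c (.l 2722) (.l
      1986))))))))

theorem x2_u1_p_n_h13 : chk3 (onCell 0 1073741824 0 429496730 0 67108864 T2_u1_p_n) x2_u1_p_n_t13 7 1 1 = true := by decide +kernel

theorem x2_u1_p_n : Tree 0 1073741824 0 429496730 0 67108864 T2_u1_p_n :=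
  ⟨_, (chk3_a x2_u1_p_n_h0 (chk3_a (chk3_c x2_u1_p_n_h1 (chk3_a (chk3_b x2_u1_p_n_h2 (chk3_c
      x2_u1_p_n_h3 (chk3_a (chk3_b x2_u1_p_n_h4 (chk3_b x2_u1_p_n_h5 (chk3_c x2_u1_p_n_h6 (chk3_c
      x2_u1_p_n_h7 (chk3_b x2_u1_p_n_h8 (chk3_c x2_u1_p_n_h9 x2_u1_p_n_h10)))))) x2_u1_p_n_h11)))
      x2_u1_p_n_h12)) x2_u1_p_n_h13))⟩

def x1_u5_n_f_t0 : T :=
  (.a (.a (.l 15) (.b (.b (.a (.l 15) (.b (.b (.c (.a (.b (.a (.l 15) (.l 10112)) (.l 15)) (.l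
      10112)) (.a (.b (.a (.l 15) (.l 4992)) (.l 15)) (.b (.l 4992) (.l 4992)))) (.a (.l 15) (.l
      4992))) (.a (.l 15) (.l 5056)))) (.l 15)) (.l 15))) (.b (.b (.a (.b (.b (.a (.c (.b (.l
      10112) (.l 10112)) (.b (.a (.l 4992) (.l 4992)) (.l 4992))) (.b (.c (.l 10112) (.l 4992))
      (.l 4992))) (.a (.l 4992) (.l 4992))) (.a (.l 5056) (.l 5056))) (.a (.b (.b (.a (.l 4992)
      (.l 4992)) (.l 4992)) (.l 5056)) (.a (.b (.l 4992) (.l 5056)) (.b (.l 4992) (.l 5056)))))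
      (.a (.a (.b (.l 5056) (.l 15)) (.b (.l 5056) (.l 5024))) (.a (.c (.a (.l 10176) (.l 10176))
      (.a (.l 5056) (.l 5056))) (.a (.a (.c (.l 10176) (.l 5056)) (.c (.l 10176) (.l 5056))) (.a
      (.l 5058) (.l 5058)))))) (.b (.a (.l 15) (.b (.a (.b (.l 5024) (.l 15)) (.b (.l 5056) (.l
      5056))) (.l 15))) (.l 15))))

theorem x1_u5_n_f_h0 : chk3 (onCell 0 2684354560 0 1073741824 0 26843546 T1_u5_n_f) x1_u5_n_f_t0 2 1 1 = true := by decide +kernel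

def x1_u5_n_f_t1 : T :=
  (.b (.c (.a (.a (.a (.a (.a (.b (.l 10178) (.l 10178)) (.b (.l 10114) (.l 10178))) (.b (.l
      10178) (.l 10178))) (.a (.b (.l 10178) (.l 10178)) (.b (.l 10178) (.l 10178)))) (.a (.a (.b
      (.l 10178) (.l 10178)) (.b (.l 10178) (.l 10178))) (.b (.l 10178) (.l 10178)))) (.a (.a (.b
      (.l 10178) (.l 10178)) (.b (.l 10178) (.l 10178))) (.b (.l 10178) (.l 10178)))) (.b (.a (.a
      (.a (.l 5058) (.l 5058)) (.l 5058)) (.a (.l 5058) (.l 5058))) (.a (.a (.a (.l 5058) (.l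
      5058)) (.a (.l 5058) (.l 5058))) (.a (.l 5058) (.l 5058))))) (.c (.b (.a (.a (.a (.l 10178)
      (.l 10178)) (.l 10178)) (.a (.l 10178) (.l 10178))) (.l 15)) (.b (.a (.a (.b (.l 5058) (.l
      15)) (.b (.l 5058) (.l 5058))) (.a (.b (.l 5058) (.l 5058)) (.b (.l 5058) (.l 5058)))) (.l
      15))))

theorem x1_u5_n_f_h1 : chk3 (onCell 0 2684354560 0 1073741824 0 26843546 T1_u5_n_f) x1_u5_n_f_t1 6 1 1 = true := by decide +kernel

def x1_u5_n_f_t2 : T :=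
  (.c (.b (.a (.l 10178) (.l 10178)) (.a (.l 10178) (.l 10178))) (.b (.a (.a (.a (.l 5058) (.a
      (.l 5058) (.l 5058))) (.a (.a (.c (.l 6786) (.l 5058)) (.c (.l 6850) (.l 5058))) (.c (.l
      6850) (.l 5058)))) (.a (.a (.c (.l 6850) (.l 5058)) (.c (.l 6850) (.l 5058))) (.c (.l 6850)
      (.l 5058)))) (.a (.a (.b (.l 5058) (.l 5058)) (.b (.l 5058) (.a (.l 5058) (.l 5058)))) (.a
      (.b (.b (.a (.l 5058) (.l 5058)) (.a (.l 5058) (.l 4994))) (.a (.l 5058) (.b (.c (.l 6786)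
      (.l 4994)) (.c (.l 6786) (.l 4994))))) (.b (.b (.a (.c (.l 6786) (.l 4994)) (.c (.l 6786)
      (.l 4994))) (.a (.c (.l 6786) (.l 4994)) (.c (.l 6786) (.l 4994)))) (.a (.c (.l 6786) (.l
      4994)) (.c (.l 6786) (.l 4994))))))))

theorem x1_u5_n_f_h2 : chk3 (onCell 0 2684354560 0 1073741824 0 26843546 T1_u5_n_f) x1_u5_n_f_t2 7 2 1 = true := by decide +kernel

def x1_u5_n_f_t3 : T :=
  (.c (.a (.b (.l 10178) (.l 10178)) (.b (.l 10178) (.l 10178))) (.c (.a (.b (.l 6850) (.l 6850))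
      (.b (.l 6850) (.l 6850))) (.b (.a (.a (.l 5058) (.l 5058)) (.a (.l 5058) (.l 5058))) (.a
      (.a (.l 15) (.l 5058)) (.b (.l 5058) (.l 15))))))

theorem x1_u5_n_f_h3 : chk3 (onCell 0 2684354560 0 1073741824 0 26843546 T1_u5_n_f) x1_u5_n_f_t3 7 3 1 = true := by decide +kernel

theorem x1_u5_n_f : Tree 0 2684354560 0 1073741824 0 26843546 T1_u5_n_f :=
  ⟨_, (chk3_a x1_u5_n_f_h0 (chk3_a x1_u5_n_f_h1 (chk3_b x1_u5_n_f_h2 x1_u5_n_f_h3)))⟩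

end Pool.Agent.Strip051.LC.E1.Ch
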