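import Pool.Agent.Strip051.LC.E1.Ch.Te

/-! # Rests near the full period: certificates P13 -/

set_option maxRecDepth 100000

namespace Pool.Agent.Strip051.LC.E1.Ch

open Pool.Agent.Strip051.PB
open Pool.Agent.Strip051.LC.E0.Ch (onCell Tree)

def x2_u5_n_f_t0 : T :=
  (.c (.a (.c (.b (.l 8130) (.l 8130)) (.b (.l 4034) (.b (.l 4034) (.a (.l 4034) (.l 4034)))))
      (.c (.b (.l 8130) (.l 8130)) (.b (.l 4034) (.b (.l 4034) (.l 4034))))) (.a (.c (.a (.b (.l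
      2754) (.b (.l 2754) (.l 2754))) (.b (.l 2754) (.l 2754))) (.a (.b (.b (.l 1986) (.l 1986))
      (.b (.l 1986) (.b (.l 1986) (.l 1986)))) (.b (.l 1986) (.b (.l 1986) (.l 1986))))) (.c (.b
      (.b (.l 2754) (.l 2754)) (.b (.l 2754) (.a (.l 2754) (.l 2754)))) (.a (.b (.l 1986) (.b (.l
      1986) (.l 1986))) (.b (.b (.l 1986) (.l 1986)) (.b (.l 1986) (.a (.l 1986) (.l 15))))))))

theorem x2_u5_n_f_h0 : chk3 (onCell 0 1073741824 0 429496730 0 67108864 T2_u5_n_f) x2_u5_n_f_t0 1 1 1 = true := by decide +kernel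

theorem x2_u5_n_f : Tree 0 1073741824 0 429496730 0 67108864 T2_u5_n_f :=
  ⟨_, x2_u5_n_f_h0⟩

def x1_u5_n_n_t0 : T :=
  (.l 15)

theorem x1_u5_n_n_h0 : chk3 (onCell 0 2684354560 0 1073741824 0 26843546 T1_u5_n_n) x1_u5_n_n_t0 8 2 1 = true := by decide +kernel

def x1_u5_n_n_t1 : T :=
  (.c (.b (.a (.l 15) (.c (.b (.c (.a (.b (.c (.l 81792) (.l 40832)) (.l 15)) (.l 40832)) (.a (.b
      (.c (.a (.l 15) (.l 27264)) (.a (.l 15) (.l 20352))) (.l 15)) (.l 20352))) (.a (.l 15) (.l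
      20416))) (.b (.c (.a (.b (.c (.a (.l 15) (.l 16256)) (.a (.l 15) (.l 13568))) (.l 15)) (.l
      13568)) (.b (.a (.c (.a (.l 15) (.l 11648)) (.a (.l 15) (.l 10112))) (.l 10112)) (.a (.l
      15) (.l 10112)))) (.a (.l 15) (.l 10176))))) (.l 15)) (.b (.a (.l 15) (.c (.b (.c (.b (.a
      (.c (.a (.l 15) (.l 9088)) (.a (.l 15) (.l 8064))) (.l 8064)) (.a (.l 15) (.l 8064))) (.b
      (.a (.c (.a (.l 15) (.l 7424)) (.a (.l 15) (.l 6784))) (.l 6784)) (.a (.l 15) (.l 6784))))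
      (.c (.a (.l 15) (.l 8128)) (.a (.l 15) (.l 6848)))) (.b (.c (.b (.a (.l 15) (.l 5760)) (.a
      (.l 15) (.l 5760))) (.b (.a (.l 15) (.l 4992)) (.a (.l 15) (.l 4992)))) (.c (.a (.l 15) (.l
      15)) (.l 15))))) (.l 15)))

theorem x1_u5_n_n_h1 : chk3 (onCell 0 2684354560 0 1073741824 0 26843546 T1_u5_n_n) x1_u5_n_n_t1 9 2 1 = true := by decide +kernel

def x1_u5_n_n_t2 : T :=
  (.l 15)

theorem x1_u5_n_n_h2 : chk3 (onCell 0 2684354560 0 1073741824 0 26843546 T1_u5_n_n) x1_u5_n_n_t2 4 3 1 = true := by decide +kernel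

def x1_u5_n_n_t3 : T :=
  (.c (.b (.c (.b (.a (.b (.l 20352) (.l 20352)) (.l 20416)) (.a (.l 20416) (.l 20416))) (.b (.a
      (.b (.l 10112) (.l 10112)) (.b (.l 10112) (.l 10176))) (.a (.l 10176) (.l 10176)))) (.c (.a
      (.b (.l 20416) (.l 15)) (.l 20416)) (.a (.b (.l 10176) (.l 15)) (.l 10176)))) (.b (.c (.b
      (.a (.b (.l 6784) (.l 6784)) (.b (.l 6784) (.l 6848))) (.a (.l 6848) (.l 6848))) (.b (.a
      (.b (.l 4992) (.l 4992)) (.b (.l 4992) (.l 5056))) (.a (.l 5056) (.l 5056)))) (.c (.a (.b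
      (.l 6848) (.l 15)) (.b (.l 6848) (.l 6816))) (.a (.b (.l 5056) (.l 15)) (.b (.l 5056) (.l
      5024))))))

theorem x1_u5_n_n_h3 : chk3 (onCell 0 2684354560 0 1073741824 0 26843546 T1_u5_n_n) x1_u5_n_n_t3 10 2 1 = true := by decide +kernel

def x1_u5_n_n_t4 : T :=
  (.c (.a (.b (.b (.l 10112) (.l 10176)) (.c (.b (.l 20416) (.l 20416)) (.b (.l 10176) (.l
      10176)))) (.a (.b (.l 10178) (.c (.l 20418) (.l 10178))) (.b (.l 10178) (.l 10178)))) (.a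
      (.b (.b (.c (.l 6784) (.l 4992)) (.l 5056)) (.c (.b (.l 6848) (.l 6848)) (.b (.l 5056) (.l
      5056)))) (.b (.a (.c (.l 6850) (.l 5058)) (.l 5058)) (.a (.c (.l 6850) (.b (.l 5056) (.l
      5056))) (.b (.l 5056) (.l 5056))))))

theorem x1_u5_n_n_h4 : chk3 (onCell 0 2684354560 0 1073741824 0 26843546 T1_u5_n_n) x1_u5_n_n_t4 11 2 1 = true := by decide +kernel

def x1_u5_n_n_t5 : T :=
  (.c (.b (.a (.l 15) (.a (.b (.c (.l 20416) (.l 10176)) (.l 15)) (.b (.a (.l 10176) (.l 10176))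
      (.l 15)))) (.l 15)) (.b (.a (.l 15) (.b (.a (.c (.b (.l 6816) (.l 15)) (.b (.l 5024) (.l
      15))) (.c (.l 6850) (.l 5058))) (.l 15))) (.l 15)))

theorem x1_u5_n_n_h5 : chk3 (onCell 0 2684354560 0 1073741824 0 26843546 T1_u5_n_n) x1_u5_n_n_t5 5 3 1 = true := by decide +kernel

def x1_u5_n_n_t6 : T :=
  (.c (.a (.a (.a (.b (.l 10178) (.l 10178)) (.b (.l 10178) (.l 10178))) (.a (.b (.l 10178) (.l
      10178)) (.b (.l 10178) (.l 10178)))) (.a (.b (.l 10178) (.l 10178)) (.b (.l 10178) (.l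
      10178)))) (.c (.a (.a (.a (.b (.l 6850) (.l 6850)) (.b (.l 6850) (.l 6850))) (.b (.l 6850)
      (.l 6850))) (.a (.b (.l 6850) (.l 6850)) (.b (.l 6850) (.l 6850)))) (.b (.a (.a (.a (.l
      5058) (.l 5058)) (.l 5058)) (.a (.l 5058) (.l 5058))) (.a (.a (.a (.b (.l 5058) (.l 5026))
      (.l 5058)) (.a (.l 5058) (.l 5058))) (.a (.b (.l 5058) (.l 5058)) (.l 5058))))))

theorem x1_u5_n_n_h6 : chk3 (onCell 0 2684354560 0 1073741824 0 26843546 T1_u5_n_n) x1_u5_n_n_t6 6 2 1 = true := by decide +kernel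

def x1_u5_n_n_t7 : T :=
  (.c (.a (.a (.b (.l 10178) (.l 10178)) (.b (.l 10178) (.l 10178))) (.a (.b (.l 10178) (.l
      10178)) (.b (.l 10178) (.l 10178)))) (.b (.a (.a (.a (.c (.l 6850) (.l 5058)) (.c (.l 6850)
      (.l 5058))) (.c (.l 6850) (.l 5058))) (.a (.c (.l 6850) (.l 5058)) (.c (.l 6850) (.c (.l
      5826) (.l 5058))))) (.c (.a (.a (.l 6850) (.l 6850)) (.l 6850)) (.a (.a (.l 5058) (.l
      5058)) (.a (.l 5058) (.l 5058))))))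

theorem x1_u5_n_n_h7 : chk3 (onCell 0 2684354560 0 1073741824 0 26843546 T1_u5_n_n) x1_u5_n_n_t7 7 2 1 = true := by decide +kernel

def x1_u5_n_n_t8 : T :=
  (.c (.b (.a (.a (.a (.l 10178) (.l 10178)) (.l 10178)) (.a (.l 10178) (.l 10178))) (.l 15)) (.b
      (.a (.a (.b (.l 5058) (.l 15)) (.b (.l 5058) (.l 5058))) (.a (.b (.l 5058) (.l 5058)) (.b
      (.l 5058) (.l 5058)))) (.l 15)))

theorem x1_u5_n_n_h8 : chk3 (onCell 0 2684354560 0 1073741824 0 26843546 T1_u5_n_n) x1_u5_n_n_t8 6 3 1 = true := by decide +kernel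

def x1_u5_n_n_t9 : T :=
  (.c (.b (.a (.l 10178) (.l 10178)) (.a (.l 10178) (.l 10178))) (.b (.a (.a (.b (.l 5058) (.l
      5058)) (.b (.a (.l 5058) (.l 5058)) (.a (.l 5058) (.c (.l 6850) (.l 5058))))) (.a (.b (.a
      (.c (.l 6850) (.l 5058)) (.c (.l 6850) (.l 5058))) (.a (.b (.c (.l 6850) (.l 5058)) (.c (.l
      6850) (.l 5058))) (.b (.c (.l 6850) (.l 5058)) (.c (.l 6850) (.l 5058))))) (.b (.a (.c (.l
      6850) (.l 5058)) (.c (.l 6850) (.l 5058))) (.a (.b (.c (.l 6850) (.l 5058)) (.c (.l 6850)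
      (.l 5058))) (.b (.c (.l 6850) (.l 5058)) (.c (.l 6850) (.l 5058))))))) (.a (.a (.l 15) (.b
      (.a (.l 15) (.b (.c (.l 6818) (.l 5058)) (.l 15))) (.l 15))) (.b (.a (.a (.b (.c (.l 6818)
      (.l 5058)) (.l 15)) (.b (.c (.l 6850) (.l 5058)) (.l 15))) (.a (.b (.c (.l 6850) (.l 5058))
      (.l 15)) (.b (.c (.l 6850) (.l 5058)) (.l 15)))) (.l 15)))))

theorem x1_u5_n_n_h9 : chk3 (onCell 0 2684354560 0 1073741824 0 26843546 T1_u5_n_n) x1_u5_n_n_t9 7 3 1 = true := by decide +kernel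

theorem x1_u5_n_n : Tree 0 2684354560 0 1073741824 0 26843546 T1_u5_n_n :=
  ⟨_, (chk3_a (chk3_a (chk3_b (chk3_a x1_u5_n_n_h0 x1_u5_n_n_h1) x1_u5_n_n_h2) (chk3_b (chk3_a
      x1_u5_n_n_h3 x1_u5_n_n_h4) x1_u5_n_n_h5)) (chk3_b (chk3_a x1_u5_n_n_h6 x1_u5_n_n_h7)
      (chk3_a x1_u5_n_n_h8 x1_u5_n_n_h9)))⟩

def x2_u5_n_n_t0 : T :=
  (.c (.a (.c (.b (.l 8130) (.l 8130)) (.b (.l 4034) (.b (.l 4034) (.b (.l 4034) (.l 4034)))))
      (.c (.b (.l 8130) (.b (.l 8130) (.l 8130))) (.b (.b (.l 4034) (.l 4034)) (.b (.l 4034) (.a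
      (.l 4034) (.l 4002)))))) (.a (.c (.a (.b (.l 2754) (.b (.l 2754) (.l 2754))) (.b (.l 2754)
      (.l 2754))) (.a (.b (.b (.l 1986) (.l 1986)) (.b (.c (.l 2370) (.l 1986)) (.c (.l 2370) (.l
      1986)))) (.b (.l 1986) (.b (.l 1986) (.l 1986))))) (.c (.a (.b (.l 2754) (.b (.l 2754) (.l
      2754))) (.b (.l 2754) (.b (.l 2754) (.l 2754)))) (.a (.b (.l 1986) (.b (.l 1986) (.b (.l
      1986) (.l 1986)))) (.b (.b (.l 1986) (.l 1986)) (.b (.l 1986) (.a (.l 1986) (.l 15))))))))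

theorem x2_u5_n_n_h0 : chk3 (onCell 0 1073741824 0 429496730 0 67108864 T2_u5_n_n) x2_u5_n_n_t0 1 1 1 = true := by decide +kernel

theorem x2_u5_n_n : Tree 0 1073741824 0 429496730 0 67108864 T2_u5_n_n :=
  ⟨_, x2_u5_n_n_h0⟩

def x1_uq_n_f_t0 : T :=
  (.a (.a (.b (.a (.l 5000) (.l 5064)) (.l 5065)) (.b (.b (.b (.a (.l 5000) (.a (.c (.l 10112)
      (.l 4992)) (.b (.c (.a (.l 10112) (.l 47)) (.a (.l 4992) (.l 47))) (.l 4992)))) (.a (.l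
      4992) (.c (.l 10176) (.l 5056)))) (.a (.l 5064) (.b (.l 5056) (.l 5056)))) (.a (.l 5064)
      (.b (.l 5064) (.l 5064))))) (.b (.b (.a (.b (.l 47) (.a (.b (.l 47) (.l 4992)) (.l 47)))
      (.l 47)) (.a (.a (.b (.l 5056) (.l 5056)) (.l 47)) (.l 47))) (.a (.a (.b (.a (.l 5056) (.l
      5056)) (.a (.l 5024) (.l 5024))) (.b (.l 5056) (.a (.l 5024) (.l 5024)))) (.a (.b (.l 47)
      (.a (.l 5024) (.l 5024))) (.a (.b (.l 47) (.c (.l 10144) (.l 5024))) (.l 47))))))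

theorem x1_uq_n_f_h0 : chk3 (onCell 0 2684354560 0 1073741824 0 26843546 T1_uq_n_f) x1_uq_n_f_t0 2 2 1 = true := by decide +kernel

def x1_uq_n_f_t1 : T :=
  (.a (.b (.a (.l 5064) (.l 5064)) (.a (.l 5064) (.l 5064))) (.b (.a (.l 5064) (.b (.a (.l 5024)
      (.l 5024)) (.b (.l 5024) (.l 5024)))) (.b (.a (.l 5064) (.b (.l 5056) (.c (.l 10176) (.l
      5056)))) (.a (.l 5064) (.b (.c (.l 10176) (.a (.l 5056) (.l 5056))) (.a (.l 5056) (.l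
      5056)))))))

theorem x1_uq_n_f_h1 : chk3 (onCell 0 2684354560 0 1073741824 0 26843546 T1_uq_n_f) x1_uq_n_f_t1 4 3 1 = true := by decide +kernel

def x1_uq_n_f_t2 : T :=
  (.b (.a (.a (.a (.l 5024) (.l 5024)) (.b (.l 5024) (.a (.l 5024) (.l 5024)))) (.a (.b (.l 5024)
      (.l 5024)) (.b (.a (.l 5024) (.l 5056)) (.l 5058)))) (.a (.a (.b (.a (.l 5024) (.l 5024))
      (.a (.l 5024) (.l 5024))) (.b (.l 5024) (.l 5024))) (.a (.b (.l 5056) (.l 5056)) (.a (.l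
      5058) (.l 5058)))))

theorem x1_uq_n_f_h2 : chk3 (onCell 0 2684354560 0 1073741824 0 26843546 T1_uq_n_f) x1_uq_n_f_t2 5 6 1 = true := by decide +kernel

def x1_uq_n_f_t3 : T :=
  (.a (.b (.a (.b (.c (.l 10144) (.a (.l 5024) (.l 5024))) (.c (.l 10144) (.l 5024))) (.b (.l
      5024) (.c (.l 10144) (.l 5024)))) (.a (.b (.c (.l 10144) (.l 5024)) (.c (.a (.l 10144) (.l
      12)) (.a (.l 5024) (.l 12)))) (.b (.c (.a (.l 10144) (.l 10144)) (.a (.l 5024) (.l 5024)))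
      (.l 12)))) (.b (.a (.b (.c (.l 10144) (.l 5056)) (.a (.l 5024) (.l 5024))) (.a (.b (.l
      5056) (.l 5058)) (.b (.l 5058) (.l 5058)))) (.a (.b (.c (.l 10144) (.a (.l 5024) (.l
      5024))) (.c (.a (.a (.l 12) (.l 14)) (.l 14)) (.a (.a (.l 12) (.l 14)) (.l 14)))) (.a (.b
      (.l 5026) (.b (.l 5026) (.c (.l 10146) (.l 5026)))) (.b (.l 5026) (.l 5026))))))

theorem x1_uq_n_f_h3 : chk3 (onCell 0 2684354560 0 1073741824 0 26843546 T1_uq_n_f) x1_uq_n_f_t3 5 7 1 = true := by decide +kernel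

def x1_uq_n_f_t4 : T :=
  (.a (.b (.l 47) (.c (.a (.l 47) (.l 47)) (.b (.l 47) (.l 47)))) (.l 47))

theorem x1_uq_n_f_h4 : chk3 (onCell 0 2684354560 0 1073741824 0 26843546 T1_uq_n_f) x1_uq_n_f_t4 3 2 1 = true := by decide +kernel

def x1_uq_n_f_t5 : T :=
  (.c (.b (.a (.a (.a (.l 10178) (.l 10178)) (.a (.l 10178) (.l 10178))) (.a (.l 10178) (.l
      10178))) (.a (.a (.a (.l 10178) (.l 10178)) (.l 10178)) (.a (.l 10178) (.l 10178)))) (.a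
      (.b (.a (.b (.l 5058) (.l 5058)) (.b (.l 5058) (.l 5058))) (.a (.b (.l 5058) (.a (.l 5026)
      (.l 5026))) (.b (.l 5058) (.l 5058)))) (.b (.a (.b (.l 47) (.l 5058)) (.a (.l 5058) (.l
      5058))) (.a (.b (.l 5058) (.l 5058)) (.b (.l 5058) (.l 5058))))))

theorem x1_uq_n_f_h5 : chk3 (onCell 0 2684354560 0 1073741824 0 26843546 T1_uq_n_f) x1_uq_n_f_t5 6 3 1 = true := by decide +kernel

def x1_uq_n_f_t6 : T :=
  (.b (.a (.b (.l 47) (.a (.c (.l 10178) (.l 5058)) (.c (.l 10178) (.a (.l 5058) (.c (.l 6850)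
      (.l 5058)))))) (.b (.l 47) (.a (.c (.l 10178) (.a (.c (.l 6850) (.l 5058)) (.l 47))) (.c
      (.l 47) (.l 47))))) (.a (.b (.a (.c (.l 10178) (.l 5058)) (.c (.l 10178) (.a (.l 5058) (.b
      (.l 5058) (.c (.l 6818) (.l 5026)))))) (.a (.c (.l 10146) (.a (.l 5058) (.l 5058))) (.c (.l
      10146) (.a (.b (.l 5058) (.c (.l 6818) (.l 5026))) (.b (.c (.l 6818) (.l 5026)) (.c (.l
      6818) (.l 5026))))))) (.b (.a (.c (.l 10178) (.a (.c (.l 6850) (.l 5058)) (.c (.l 6850) (.l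
      5058)))) (.c (.l 10146) (.c (.l 6850) (.l 5058)))) (.a (.c (.l 10146) (.c (.l 6818) (.l
      5026))) (.c (.l 10146) (.c (.l 6818) (.l 5026)))))))

theorem x1_uq_n_f_h6 : chk3 (onCell 0 2684354560 0 1073741824 0 26843546 T1_uq_n_f) x1_uq_n_f_t6 7 3 1 = true := by decide +kernel

theorem x1_uq_n_f : Tree 0 2684354560 0 1073741824 0 26843546 T1_uq_n_f :=
  ⟨_, (chk3_a (chk3_b x1_uq_n_f_h0 (chk3_a x1_uq_n_f_h1 (chk3_b x1_uq_n_f_h2 x1_uq_n_f_h3)))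
      (chk3_b x1_uq_n_f_h4 (chk3_a x1_uq_n_f_h5 x1_uq_n_f_h6)))⟩

def x2_uq_n_f_t0 : T :=
  (.a (.l 47) (.c (.c (.a (.l 47) (.b (.l 8130) (.l 8130))) (.a (.l 47) (.b (.l 4034) (.l
      4034)))) (.c (.a (.l 47) (.b (.l 2754) (.b (.l 2754) (.l 2754)))) (.a (.l 47) (.b (.b (.l
      1986) (.l 1986)) (.b (.l 1986) (.b (.l 1986) (.l 1986))))))))

theorem x2_uq_n_f_h0 : chk3 (onCell 0 1073741824 0 429496730 0 67108864 T2_uq_n_f) x2_uq_n_f_t0 1 1 1 = true := by decide +kernel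

theorem x2_uq_n_f : Tree 0 1073741824 0 429496730 0 67108864 T2_uq_n_f :=
  ⟨_, x2_uq_n_f_h0⟩

def x1_uq_n_n_t0 : T :=
  (.a (.a (.l 5064) (.c (.a (.l 10184) (.l 10184)) (.a (.l 5064) (.l 5064)))) (.b (.b (.c (.b (.a
      (.l 10112) (.b (.a (.l 10112) (.l 10112)) (.l 10112))) (.a (.l 10112) (.l 10176))) (.b (.a
      (.l 4992) (.b (.a (.l 4992) (.l 4992)) (.l 4992))) (.a (.l 4992) (.l 5056)))) (.a (.l 5064)
      (.c (.l 10176) (.b (.l 5056) (.l 5056))))) (.a (.l 5064) (.c (.a (.l 10176) (.l 10176)) (.a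
      (.l 5056) (.l 5056))))))

theorem x1_uq_n_n_h0 : chk3 (onCell 0 2684354560 0 1073741824 0 26843546 T1_uq_n_n) x1_uq_n_n_t0 4 2 1 = true := by decide +kernel

def x1_uq_n_n_t1 : T :=
  (.b (.b (.b (.b (.l 47) (.c (.l 47) (.l 47))) (.a (.c (.b (.l 47) (.c (.a (.l 47) (.l 47)) (.a
      (.l 10112) (.l 47)))) (.b (.l 47) (.c (.a (.l 6784) (.l 47)) (.a (.l 4992) (.l 47))))) (.l
      47))) (.a (.b (.c (.a (.l 10176) (.l 47)) (.a (.l 5056) (.l 47))) (.a (.l 5056) (.l 47)))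
      (.l 47))) (.a (.a (.c (.a (.l 10176) (.b (.l 10176) (.l 10144))) (.a (.b (.l 5056) (.l
      5024)) (.b (.l 5056) (.l 5024)))) (.c (.a (.l 10176) (.l 10176)) (.a (.b (.l 5056) (.l
      5024)) (.a (.l 5056) (.l 5056))))) (.a (.c (.a (.l 10176) (.a (.l 10176) (.c (.l 20416) (.l
      10176)))) (.a (.a (.l 5056) (.l 5056)) (.a (.c (.l 6848) (.l 5056)) (.b (.l 47) (.l
      5024))))) (.a (.b (.l 47) (.b (.l 47) (.l 5056))) (.l 47)))))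

theorem x1_uq_n_n_h1 : chk3 (onCell 0 2684354560 0 1073741824 0 26843546 T1_uq_n_n) x1_uq_n_n_t1 5 2 1 = true := by decide +kernel

def x1_uq_n_n_t2 : T :=
  (.a (.a (.b (.l 5064) (.l 5000)) (.b (.l 5064) (.l 5064))) (.b (.a (.l 5064) (.b (.c (.a (.l
      10144) (.l 10144)) (.a (.l 5024) (.l 5024))) (.c (.c (.l 20416) (.l 10176)) (.c (.l 6848)
      (.a (.l 5024) (.l 5024)))))) (.a (.b (.l 5064) (.l 5064)) (.b (.c (.b (.l 10176) (.l
      10176)) (.b (.l 5056) (.c (.l 6848) (.l 5056)))) (.c (.b (.a (.l 10176) (.l 10176)) (.a (.l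
      10176) (.l 10176))) (.b (.a (.l 5056) (.l 5056)) (.a (.l 5056) (.l 5056))))))))

theorem x1_uq_n_n_h2 : chk3 (onCell 0 2684354560 0 1073741824 0 26843546 T1_uq_n_n) x1_uq_n_n_t2 4 3 1 = true := by decide +kernel

def x1_uq_n_n_t3 : T :=
  (.b (.c (.a (.l 10144) (.b (.l 10144) (.l 10144))) (.a (.a (.l 5024) (.l 5024)) (.b (.l 5024)
      (.a (.l 5024) (.l 5024))))) (.c (.b (.c (.a (.l 20384) (.l 20384)) (.a (.l 10144) (.l
      10144))) (.c (.b (.a (.l 20384) (.l 20384)) (.a (.l 20416) (.l 20384))) (.b (.a (.l 10144)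
      (.l 10144)) (.a (.l 10176) (.l 10144))))) (.b (.c (.a (.l 6816) (.l 6816)) (.a (.l 5024)
      (.l 5024))) (.c (.b (.a (.l 6816) (.l 6816)) (.a (.l 6848) (.l 6816))) (.b (.a (.l 5024)
      (.l 5024)) (.a (.l 5024) (.l 5024)))))))

theorem x1_uq_n_n_h3 : chk3 (onCell 0 2684354560 0 1073741824 0 26843546 T1_uq_n_n) x1_uq_n_n_t3 10 6 1 = true := by decide +kernel

def x1_uq_n_n_t4 : T :=
  (.b (.c (.b (.c (.b (.a (.l 20416) (.l 20384)) (.a (.l 20384) (.l 20384))) (.a (.l 10176) (.l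
      10144))) (.c (.a (.l 20416) (.l 20384)) (.a (.l 10176) (.l 10144)))) (.b (.c (.a (.l 6848)
      (.l 6816)) (.a (.l 5056) (.l 5024))) (.a (.l 5056) (.l 5024)))) (.c (.a (.b (.c (.l 20416)
      (.l 10176)) (.a (.l 10144) (.l 12))) (.b (.b (.l 10144) (.l 10144)) (.l 12))) (.a (.b (.c
      (.l 6848) (.l 5056)) (.a (.l 5024) (.l 12))) (.b (.b (.l 5024) (.l 5024)) (.l 12)))))

theorem x1_uq_n_n_h4 : chk3 (onCell 0 2684354560 0 1073741824 0 26843546 T1_uq_n_n) x1_uq_n_n_t4 10 7 1 = true := by decide +kernel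

def x1_uq_n_n_t5 : T :=
  (.b (.a (.b (.b (.c (.l 10176) (.l 5056)) (.l 5056)) (.c (.b (.l 10176) (.l 10176)) (.b (.l
      5056) (.l 5056)))) (.b (.a (.l 5058) (.l 5058)) (.a (.b (.l 5056) (.l 5056)) (.l 5058))))
      (.a (.b (.c (.b (.l 10176) (.l 10176)) (.b (.l 5056) (.b (.l 5056) (.l 5024)))) (.b (.c (.b
      (.l 10144) (.l 10144)) (.b (.l 5024) (.l 5024))) (.c (.a (.a (.l 12) (.l 14)) (.l 14)) (.a
      (.a (.l 12) (.l 14)) (.l 14))))) (.a (.b (.c (.l 10178) (.a (.l 5058) (.l 5058))) (.b (.a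
      (.l 5058) (.l 5058)) (.a (.c (.l 10146) (.l 5026)) (.l 5026)))) (.b (.a (.l 5058) (.l
      5058)) (.a (.b (.l 5026) (.l 5026)) (.l 5026))))))

theorem x1_uq_n_n_h5 : chk3 (onCell 0 2684354560 0 1073741824 0 26843546 T1_uq_n_n) x1_uq_n_n_t5 11 3 1 = true := by decide +kernel

def x1_uq_n_n_t6 : T :=
  (.b (.c (.b (.l 47) (.a (.l 47) (.l 47))) (.b (.l 47) (.b (.l 47) (.l 47)))) (.c (.b (.a (.a
      (.a (.l 10178) (.l 10178)) (.a (.l 10178) (.l 10178))) (.a (.l 10178) (.l 10178))) (.a (.a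
      (.a (.a (.l 10178) (.l 10146)) (.l 10146)) (.l 10178)) (.a (.l 10178) (.l 10178)))) (.c (.a
      (.a (.a (.b (.b (.l 6850) (.l 6818)) (.b (.l 6850) (.l 6818))) (.b (.l 6850) (.l 6818)))
      (.b (.a (.l 6850) (.l 6850)) (.l 6850))) (.a (.b (.a (.l 6850) (.l 6850)) (.l 6850)) (.b
      (.l 6850) (.l 6818)))) (.a (.b (.a (.a (.b (.l 5058) (.l 5058)) (.b (.l 5058) (.l 5058)))
      (.a (.b (.l 5058) (.l 5058)) (.b (.l 5058) (.l 5058)))) (.a (.a (.b (.l 5058) (.l 5026))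
      (.l 5026)) (.a (.l 5026) (.l 5026)))) (.b (.a (.a (.l 5058) (.l 5058)) (.a (.l 5058) (.l
      5058))) (.a (.l 5058) (.l 5058)))))))

theorem x1_uq_n_n_h6 : chk3 (onCell 0 2684354560 0 1073741824 0 26843546 T1_uq_n_n) x1_uq_n_n_t6 6 1 1 = true := by decide +kernel

def x1_uq_n_n_t7 : T :=
  (.b (.l 47) (.c (.b (.a (.l 10178) (.l 10178)) (.a (.l 10178) (.l 10178))) (.c (.c (.b (.a (.l
      8130) (.l 8130)) (.a (.l 8130) (.l 8130))) (.a (.a (.b (.l 6850) (.l 6818)) (.b (.l 6850)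
      (.l 6850))) (.b (.l 6850) (.l 6850)))) (.a (.a (.b (.a (.l 5058) (.l 5058)) (.l 5058)) (.b
      (.l 5058) (.l 5058))) (.b (.a (.l 5058) (.l 5058)) (.b (.l 5058) (.l 5058)))))))

theorem x1_uq_n_n_h7 : chk3 (onCell 0 2684354560 0 1073741824 0 26843546 T1_uq_n_n) x1_uq_n_n_t7 7 1 1 = true := by decide +kernel

theorem x1_uq_n_n : Tree 0 2684354560 0 1073741824 0 26843546 T1_uq_n_n :=
  ⟨_, (chk3_a (chk3_b (chk3_a x1_uq_n_n_h0 x1_uq_n_n_h1) (chk3_a x1_uq_n_n_h2 (chk3_a (chk3_b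
      x1_uq_n_n_h3 x1_uq_n_n_h4) x1_uq_n_n_h5))) (chk3_a x1_uq_n_n_h6 x1_uq_n_n_h7))⟩

def x2_uq_n_n_t0 : T :=
  (.a (.l 47) (.c (.c (.a (.l 47) (.b (.l 8130) (.l 8130))) (.a (.l 47) (.b (.l 4034) (.l
      4034)))) (.c (.a (.l 47) (.b (.l 2754) (.b (.l 2754) (.l 2754)))) (.a (.l 47) (.b (.b (.l
      1986) (.l 1986)) (.b (.l 1986) (.a (.l 1986) (.l 1986))))))))

theorem x2_uq_n_n_h0 : chk3 (onCell 0 1073741824 0 429496730 0 67108864 T2_uq_n_n) x2_uq_n_n_t0 1 1 1 = true := by decide +kernel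

theorem x2_uq_n_n : Tree 0 1073741824 0 429496730 0 67108864 T2_uq_n_n :=
  ⟨_, x2_uq_n_n_h0⟩

end Pool.Agent.Strip051.LC.E1.Ch
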