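import Pool.Agent.Strip051.LC.E1.Ch.Te

/-! # Rests near the full period: certificates P2 -/

set_option maxRecDepth 100000

namespace Pool.Agent.Strip051.LC.E1.Ch

open Pool.Agent.Strip051.PB
open Pool.Agent.Strip051.LC.E0.Ch (onCell Tree)

def x2_t1a_c1_d_n_t0 : T :=
  (.a (.c (.a (.b (.l 4035) (.l 4035)) (.a (.b (.l 4035) (.l 4035)) (.b (.l 4035) (.l 4035))))
      (.a (.b (.a (.c (.l 2755) (.b (.l 1987) (.l 1987))) (.c (.l 2755) (.b (.l 1987) (.l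
      1987)))) (.a (.c (.l 2755) (.b (.a (.l 1987) (.l 1987)) (.a (.l 67) (.l 1987)))) (.c (.l
      2755) (.b (.a (.l 1987) (.l 1987)) (.a (.l 1987) (.l 1987)))))) (.b (.a (.c (.l 2755) (.b
      (.l 1987) (.l 1987))) (.c (.l 2755) (.b (.l 1987) (.l 1987)))) (.c (.a (.l 2755) (.l 2755))
      (.a (.b (.l 1987) (.a (.l 1987) (.l 1987))) (.b (.l 1987) (.l 1987))))))) (.c (.a (.a (.b
      (.l 4035) (.l 4035)) (.b (.l 4035) (.l 4035))) (.b (.l 4039) (.l 4039))) (.a (.b (.c (.a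
      (.l 2755) (.l 2755)) (.a (.b (.l 1987) (.l 1987)) (.l 1991))) (.c (.a (.l 2755) (.l 2755))
      (.a (.b (.l 1987) (.l 1987)) (.b (.l 1987) (.l 1987))))) (.b (.c (.l 2759) (.a (.l 1991)
      (.l 1991))) (.c (.l 2759) (.a (.b (.l 1987) (.l 1991)) (.l 1991)))))))

theorem x2_t1a_c1_d_n_h0 : chk3 (onCell 0 1073741824 0 429496730 0 67108864 T2_t1a_c1_d_n) x2_t1a_c1_d_n_t0 2 2 1 = true := by decide +kernel

def x2_t1a_c1_d_n_t1 : T :=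
  (.c (.b (.a (.l 4035) (.a (.l 4035) (.l 4035))) (.a (.l 4035) (.l 4035))) (.a (.b (.a (.c (.l
      2755) (.b (.a (.c (.l 2371) (.l 1987)) (.c (.l 2371) (.l 1987))) (.a (.c (.l 2371) (.l
      1987)) (.c (.l 2371) (.l 1987))))) (.c (.l 2755) (.b (.a (.c (.l 2371) (.l 1987)) (.l
      1987)) (.a (.c (.l 2371) (.l 1987)) (.l 1987))))) (.a (.c (.l 2755) (.b (.a (.c (.l 2371)
      (.l 1987)) (.c (.l 2371) (.l 1987))) (.a (.c (.l 2371) (.l 1987)) (.c (.l 2371) (.l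
      1987))))) (.c (.l 2755) (.b (.a (.c (.l 2371) (.l 1987)) (.l 67)) (.a (.c (.l 2371) (.l
      1987)) (.c (.l 2371) (.l 1987))))))) (.b (.a (.c (.l 2755) (.b (.a (.l 1987) (.l 1987)) (.a
      (.l 1987) (.l 1987)))) (.c (.l 2755) (.b (.l 1987) (.l 1987)))) (.a (.c (.l 2755) (.a (.b
      (.l 1987) (.l 1987)) (.b (.l 1987) (.l 1987)))) (.c (.l 2755) (.a (.b (.l 1987) (.l 1987))
      (.l 1987)))))))

theorem x2_t1a_c1_d_n_h1 : chk3 (onCell 0 1073741824 0 429496730 0 67108864 T2_t1a_c1_d_n) x2_t1a_c1_d_n_t1 4 3 1 = true := by decide +kernel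

def x2_t1a_c1_d_n_t2 : T :=
  (.a (.b (.a (.l 4035) (.a (.l 4035) (.l 4035))) (.a (.l 4035) (.l 4035))) (.b (.c (.l 8135) (.l
      4039)) (.c (.l 8135) (.a (.l 4035) (.b (.l 4039) (.l 4039))))))

theorem x2_t1a_c1_d_n_h2 : chk3 (onCell 0 1073741824 0 429496730 0 67108864 T2_t1a_c1_d_n) x2_t1a_c1_d_n_t2 5 3 2 = true := by decide +kernel

def x2_t1a_c1_d_n_t3 : T :=
  (.a (.b (.c (.a (.l 2755) (.a (.l 2755) (.l 2755))) (.a (.b (.l 1987) (.a (.l 1987) (.l 1987)))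
      (.b (.l 1987) (.a (.l 1987) (.l 1987))))) (.c (.a (.l 2755) (.l 2755)) (.a (.a (.l 1987)
      (.l 1987)) (.b (.a (.l 1987) (.l 1987)) (.a (.l 1987) (.l 1987)))))) (.b (.c (.a (.a (.l
      2755) (.l 2755)) (.l 2759)) (.a (.b (.l 1991) (.a (.l 1987) (.l 1987))) (.b (.l 1991) (.l
      1991)))) (.c (.a (.a (.l 2755) (.b (.l 2755) (.l 2755))) (.b (.l 2759) (.a (.l 2755) (.l
      2759)))) (.a (.b (.c (.l 2371) (.a (.l 1987) (.l 1987))) (.a (.l 1987) (.c (.l 2307) (.l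
      1987)))) (.b (.c (.l 2375) (.b (.l 67) (.a (.l 1987) (.l 67)))) (.c (.b (.l 2375) (.a (.l
      2307) (.l 67))) (.a (.b (.l 1987) (.l 1987)) (.c (.b (.l 67) (.l 67)) (.b (.l 67) (.l
      67))))))))))

theorem x2_t1a_c1_d_n_h3 : chk3 (onCell 0 1073741824 0 429496730 0 67108864 T2_t1a_c1_d_n) x2_t1a_c1_d_n_t3 5 3 3 = true := by decide +kernel

def x2_t1a_c1_d_n_t4 : T :=
  (.a (.c (.b (.a (.l 4039) (.l 15)) (.a (.l 4039) (.l 15))) (.b (.a (.b (.l 1991) (.c (.l 2759)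
      (.l 1991))) (.l 15)) (.a (.b (.a (.l 1991) (.l 15)) (.c (.l 2759) (.l 1991))) (.l 15))))
      (.l 15))

theorem x2_t1a_c1_d_n_h4 : chk3 (onCell 0 1073741824 0 429496730 0 67108864 T2_t1a_c1_d_n) x2_t1a_c1_d_n_t4 3 2 1 = true := by decide +kernel

def x2_t1a_c1_d_n_t5 : T :=
  (.b (.a (.l 4039) (.l 15)) (.a (.b (.l 4039) (.c (.l 8135) (.b (.l 4039) (.a (.l 4039) (.l
      15))))) (.l 15)))

theorem x2_t1a_c1_d_n_h5 : chk3 (onCell 0 1073741824 0 429496730 0 67108864 T2_t1a_c1_d_n) x2_t1a_c1_d_n_t5 6 3 2 = true := by decide +kernel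

def x2_t1a_c1_d_n_t6 : T :=
  (.a (.c (.l 2759) (.c (.l 2375) (.c (.l 2247) (.l 71)))) (.l 15))

theorem x2_t1a_c1_d_n_h6 : chk3 (onCell 0 1073741824 0 429496730 0 67108864 T2_t1a_c1_d_n) x2_t1a_c1_d_n_t6 6 6 3 = true := by decide +kernel

def x2_t1a_c1_d_n_t7 : T :=
  (.b (.b (.l 2759) (.a (.l 2695) (.l 15))) (.b (.a (.l 2759) (.l 15)) (.a (.l 2759) (.l 15))))

theorem x2_t1a_c1_d_n_h7 : chk3 (onCell 0 1073741824 0 429496730 0 67108864 T2_t1a_c1_d_n) x2_t1a_c1_d_n_t7 12 7 6 = true := by decide +kernel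

def x2_t1a_c1_d_n_t8 : T :=
  (.b (.c (.c (.c (.b (.l 2631) (.l 2631)) (.l 2503)) (.l 2375)) (.c (.l 2247) (.a (.l 1927) (.l
      15)))) (.a (.c (.c (.l 2503) (.c (.l 71) (.l 71))) (.c (.c (.b (.l 2247) (.l 71)) (.b (.l
      2247) (.a (.l 71) (.l 15)))) (.c (.b (.l 2119) (.a (.b (.l 2119) (.c (.l 71) (.a (.l 67)
      (.c (.l 71) (.b (.l 2119) (.l 71)))))) (.l 15))) (.b (.l 1991) (.a (.b (.l 1991) (.c (.a
      (.l 67) (.c (.b (.l 2119) (.c (.l 71) (.l 71))) (.b (.l 2119) (.c (.a (.l 71) (.l 15)) (.a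
      (.b (.l 99) (.l 99)) (.l 15)))))) (.a (.l 67) (.c (.b (.l 2119) (.c (.a (.b (.l 99) (.l
      99)) (.l 15)) (.a (.b (.l 99) (.l 99)) (.l 15)))) (.b (.l 1991) (.a (.b (.l 99) (.l 99))
      (.c (.l 15) (.a (.b (.l 1991) (.c (.l 15) (.a (.b (.l 1991) (.c (.l 15) (.a (.l 99) (.l
      15)))) (.l 15)))) (.l 15))))))))) (.l 15)))))) (.l 15)))

theorem x2_t1a_c1_d_n_h8 : chk3 (onCell 0 1073741824 0 429496730 0 67108864 T2_t1a_c1_d_n) x2_t1a_c1_d_n_t8 12 7 7 = true := by decide +kernel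

def x2_t1a_c1_d_n_t9 : T :=
  (.l 15)

theorem x2_t1a_c1_d_n_h9 : chk3 (onCell 0 1073741824 0 429496730 0 67108864 T2_t1a_c1_d_n) x2_t1a_c1_d_n_t9 13 7 3 = true := by decide +kernel

def x2_t1a_c1_d_n_t10 : T :=
  (.l 15)

theorem x2_t1a_c1_d_n_h10 : chk3 (onCell 0 1073741824 0 429496730 0 67108864 T2_t1a_c1_d_n) x2_t1a_c1_d_n_t10 7 3 1 = true := by decide +kernel

theorem x2_t1a_c1_d_n : Tree 0 1073741824 0 429496730 0 67108864 T2_t1a_c1_d_n :=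
  ⟨_, (chk3_a (chk3_b x2_t1a_c1_d_n_h0 (chk3_a x2_t1a_c1_d_n_h1 (chk3_c x2_t1a_c1_d_n_h2
      x2_t1a_c1_d_n_h3))) (chk3_b x2_t1a_c1_d_n_h4 (chk3_a (chk3_c x2_t1a_c1_d_n_h5 (chk3_b
      x2_t1a_c1_d_n_h6 (chk3_a (chk3_c x2_t1a_c1_d_n_h7 x2_t1a_c1_d_n_h8) x2_t1a_c1_d_n_h9)))
      x2_t1a_c1_d_n_h10)))⟩

def x1_t1a_c1_u_f_t0 : T :=
  (.a (.b (.c (.l 10187) (.a (.l 5003) (.l 5067))) (.c (.l 10123) (.a (.b (.l 5003) (.l 5003))
      (.b (.l 5003) (.c (.l 6795) (.l 5003)))))) (.b (.c (.b (.a (.a (.l 10115) (.l 10115)) (.l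
      10115)) (.a (.c (.a (.l 20355) (.l 20355)) (.a (.l 10115) (.l 10115))) (.a (.l 10115) (.l
      10115)))) (.b (.a (.c (.a (.l 6787) (.l 6787)) (.a (.l 4995) (.l 4995))) (.a (.l 4995) (.l
      4995))) (.a (.a (.c (.l 6787) (.l 4995)) (.c (.l 6787) (.l 4995))) (.c (.l 6787) (.a (.l
      4995) (.l 4995)))))) (.c (.a (.b (.c (.a (.l 20355) (.l 20355)) (.a (.l 10115) (.l 10115)))
      (.c (.a (.l 20355) (.l 20355)) (.a (.l 10115) (.l 10115)))) (.b (.c (.l 20355) (.l 10115))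
      (.c (.l 20355) (.c (.l 13571) (.l 10115))))) (.a (.b (.c (.a (.l 6787) (.l 6787)) (.a (.l
      4995) (.l 4995))) (.c (.a (.l 6787) (.l 6787)) (.a (.l 4995) (.l 4995)))) (.b (.c (.a (.l
      6787) (.l 6787)) (.a (.l 4995) (.l 4995))) (.c (.a (.l 6787) (.l 6787)) (.a (.l 4995) (.l
      4995))))))))

theorem x1_t1a_c1_u_f_h0 : chk3 (onCell 0 2684354560 0 1073741824 0 26843546 T1_t1a_c1_u_f) x1_t1a_c1_u_f_t0 2 1 1 = true := by decide +kernel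

def x1_t1a_c1_u_f_t1 : T :=
  (.b (.a (.c (.b (.a (.l 10179) (.l 10179)) (.a (.l 10115) (.l 10115))) (.b (.a (.l 5059) (.l
      5059)) (.a (.c (.l 6787) (.l 4995)) (.c (.l 6787) (.l 4995))))) (.c (.b (.l 10179) (.a (.l
      10115) (.l 10179))) (.b (.a (.l 5059) (.l 5059)) (.a (.l 5059) (.l 5059))))) (.a (.c (.b
      (.a (.c (.l 20355) (.l 10115)) (.c (.l 20355) (.l 10115))) (.a (.c (.l 20355) (.l 10115))
      (.c (.l 20355) (.l 10115)))) (.b (.a (.c (.l 6787) (.l 4995)) (.c (.l 6787) (.l 4995))) (.a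
      (.c (.l 6787) (.c (.l 5763) (.l 4995))) (.c (.l 6787) (.c (.l 5763) (.l 4995)))))) (.c (.b
      (.c (.l 20355) (.a (.l 10115) (.l 10115))) (.a (.c (.l 20355) (.l 10115)) (.c (.l 20355)
      (.l 10115)))) (.b (.a (.c (.l 6787) (.l 4995)) (.c (.l 6787) (.l 4995))) (.a (.c (.l 6787)
      (.c (.l 5763) (.a (.l 4995) (.l 4995)))) (.c (.l 6787) (.a (.c (.l 5763) (.l 4995)) (.c (.l
      5763) (.l 4995)))))))))

theorem x1_t1a_c1_u_f_h1 : chk3 (onCell 0 2684354560 0 1073741824 0 26843546 T1_t1a_c1_u_f) x1_t1a_c1_u_f_t1 3 1 1 = true := by decide +kernel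

theorem x1_t1a_c1_u_f : Tree 0 2684354560 0 1073741824 0 26843546 T1_t1a_c1_u_f :=
  ⟨_, (chk3_a x1_t1a_c1_u_f_h0 x1_t1a_c1_u_f_h1)⟩

def x2_t1a_c1_u_f_t0 : T :=
  (.c (.a (.c (.a (.l 8131) (.l 8131)) (.b (.a (.l 4035) (.l 4035)) (.l 4035))) (.b (.l 4035) (.c
      (.l 8067) (.l 3971)))) (.a (.c (.b (.a (.l 2755) (.l 2755)) (.c (.l 3267) (.l 2755))) (.a
      (.b (.a (.l 1987) (.l 1987)) (.l 1987)) (.b (.l 1987) (.l 1987)))) (.c (.b (.l 2755) (.a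
      (.l 2691) (.l 2691))) (.a (.b (.l 1987) (.l 1987)) (.b (.c (.l 2307) (.l 1923)) (.a (.l
      1923) (.b (.l 1923) (.c (.l 2307) (.l 1923)))))))))

theorem x2_t1a_c1_u_f_h0 : chk3 (onCell 0 1073741824 0 429496730 0 67108864 T2_t1a_c1_u_f) x2_t1a_c1_u_f_t0 1 1 1 = true := by decide +kernel

theorem x2_t1a_c1_u_f : Tree 0 1073741824 0 429496730 0 67108864 T2_t1a_c1_u_f :=
  ⟨_, x2_t1a_c1_u_f_h0⟩

def x1_t1a_c1_u_n_t0 : T :=
  (.a (.b (.c (.l 10123) (.l 5003)) (.c (.l 10123) (.a (.l 5003) (.l 5003)))) (.b (.c (.l 10187)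
      (.b (.l 5067) (.a (.l 5003) (.l 5003)))) (.c (.l 10187) (.b (.a (.l 5003) (.a (.l 5003) (.l
      5003))) (.a (.l 5003) (.c (.l 6795) (.l 5003)))))))

theorem x1_t1a_c1_u_n_h0 : chk3 (onCell 0 2684354560 0 1073741824 0 26843546 T1_t1a_c1_u_n) x1_t1a_c1_u_n_t0 4 1 1 = true := by decide +kernel

def x1_t1a_c1_u_n_t1 : T :=
  (.b (.a (.c (.b (.a (.l 10115) (.l 10115)) (.a (.c (.l 20355) (.l 10115)) (.l 10115))) (.b (.a
      (.a (.l 4995) (.l 4995)) (.a (.l 4995) (.l 4995))) (.a (.a (.l 4995) (.l 4995)) (.a (.l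
      4995) (.l 4995))))) (.c (.b (.a (.l 10115) (.l 10115)) (.a (.l 10115) (.l 10115))) (.b (.a
      (.a (.l 4995) (.l 4995)) (.l 4995)) (.a (.c (.l 6787) (.l 4995)) (.c (.l 6787) (.l
      4995)))))) (.a (.c (.b (.a (.c (.l 20355) (.l 10115)) (.c (.l 20355) (.l 10115))) (.a (.c
      (.l 20355) (.l 10115)) (.c (.l 20355) (.l 10115)))) (.b (.a (.a (.c (.l 6787) (.l 4995))
      (.l 4995)) (.c (.l 6787) (.l 4995))) (.a (.c (.c (.l 8067) (.l 6787)) (.a (.l 4995) (.l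
      4995))) (.c (.l 6787) (.l 4995))))) (.c (.b (.c (.l 20355) (.a (.l 10115) (.l 10115))) (.c
      (.a (.l 20355) (.l 20355)) (.a (.l 10115) (.l 10115)))) (.b (.a (.c (.l 6787) (.l 4995))
      (.c (.l 6787) (.l 4995))) (.a (.c (.l 6787) (.l 4995)) (.c (.l 6787) (.l 4995)))))))

theorem x1_t1a_c1_u_n_h1 : chk3 (onCell 0 2684354560 0 1073741824 0 26843546 T1_t1a_c1_u_n) x1_t1a_c1_u_n_t1 5 1 1 = true := by decide +kernel

def x1_t1a_c1_u_n_t2 : T :=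
  (.a (.c (.a (.b (.l 10179) (.a (.l 10115) (.l 10115))) (.b (.l 10179) (.l 10115))) (.a (.b (.a
      (.l 4995) (.l 5059)) (.a (.l 4995) (.l 4995))) (.b (.a (.l 5059) (.l 5059)) (.a (.l 4995)
      (.l 4995))))) (.b (.c (.a (.l 10179) (.l 10179)) (.a (.l 5059) (.b (.l 5059) (.l 5059))))
      (.c (.a (.l 10179) (.l 10179)) (.a (.a (.l 5059) (.l 5059)) (.a (.l 5059) (.l 5059))))))

theorem x1_t1a_c1_u_n_h2 : chk3 (onCell 0 2684354560 0 1073741824 0 26843546 T1_t1a_c1_u_n) x1_t1a_c1_u_n_t2 3 2 1 = true := by decide +kernel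

def x1_t1a_c1_u_n_t3 : T :=
  (.a (.a (.b (.c (.c (.l 20355) (.l 10115)) (.a (.c (.l 6787) (.l 4995)) (.c (.l 6787) (.l
      4995)))) (.c (.c (.l 20355) (.a (.l 10115) (.l 10115))) (.c (.a (.l 6787) (.l 6787)) (.a
      (.l 4995) (.l 4995))))) (.b (.c (.c (.l 20355) (.l 10115)) (.c (.l 6787) (.a (.l 4995) (.l
      4995)))) (.c (.c (.l 20355) (.l 10115)) (.c (.l 6787) (.c (.l 5763) (.a (.l 4995) (.l
      4995))))))) (.b (.a (.c (.c (.l 20355) (.l 10115)) (.c (.l 6851) (.a (.l 5059) (.l 5059))))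
      (.c (.c (.l 20355) (.l 10115)) (.c (.l 6851) (.a (.l 5059) (.l 5059))))) (.c (.a (.c (.l
      20355) (.l 10115)) (.c (.l 20355) (.l 10115))) (.a (.c (.l 6787) (.c (.l 5763) (.a (.l
      4995) (.l 4995)))) (.c (.c (.l 8067) (.l 6787)) (.c (.l 5763) (.a (.l 4995) (.c (.l 5379)
      (.l 4995)))))))))

theorem x1_t1a_c1_u_n_h3 : chk3 (onCell 0 2684354560 0 1073741824 0 26843546 T1_t1a_c1_u_n) x1_t1a_c1_u_n_t3 3 3 1 = true := by decide +kernel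

theorem x1_t1a_c1_u_n : Tree 0 2684354560 0 1073741824 0 26843546 T1_t1a_c1_u_n :=
  ⟨_, (chk3_a (chk3_a x1_t1a_c1_u_n_h0 x1_t1a_c1_u_n_h1) (chk3_b x1_t1a_c1_u_n_h2
      x1_t1a_c1_u_n_h3))⟩

def x2_t1a_c1_u_n_t0 : T :=
  (.b (.c (.a (.a (.l 4035) (.l 4035)) (.b (.l 4035) (.l 4035))) (.a (.c (.a (.l 2755) (.l 2755))
      (.a (.a (.l 1987) (.l 1987)) (.a (.l 1987) (.l 1987)))) (.a (.a (.c (.l 2755) (.l 1987))
      (.b (.l 1987) (.l 1987))) (.b (.c (.l 2755) (.l 1987)) (.b (.a (.l 1987) (.c (.l 2691) (.l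
      1923))) (.c (.l 2691) (.l 1923))))))) (.a (.c (.a (.l 4035) (.b (.l 4035) (.l 4035))) (.c
      (.a (.l 2755) (.l 2755)) (.a (.a (.l 1987) (.l 1987)) (.a (.l 1987) (.l 1987))))) (.c (.a
      (.c (.l 8067) (.l 3971)) (.c (.l 8067) (.l 3971))) (.a (.b (.c (.l 2755) (.l 1987)) (.c (.l
      2691) (.l 1987))) (.b (.c (.l 2691) (.b (.l 1923) (.l 1923))) (.c (.l 2691) (.b (.c (.l
      2307) (.l 1923)) (.c (.l 2307) (.l 1923)))))))))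

theorem x2_t1a_c1_u_n_h0 : chk3 (onCell 0 1073741824 0 429496730 0 67108864 T2_t1a_c1_u_n) x2_t1a_c1_u_n_t0 1 1 1 = true := by decide +kernel

theorem x2_t1a_c1_u_n : Tree 0 1073741824 0 429496730 0 67108864 T2_t1a_c1_u_n :=
  ⟨_, x2_t1a_c1_u_n_h0⟩

def x1_t1b_W_f_t0 : T :=
  (.a (.a (.a (.l 5003) (.l 5067)) (.a (.b (.a (.a (.l 4995) (.l 4995)) (.a (.l 4995) (.l 4995)))
      (.a (.a (.l 4995) (.l 4995)) (.a (.l 4995) (.l 4995)))) (.b (.a (.a (.l 4995) (.l 4995))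
      (.l 4995)) (.a (.l 4995) (.l 4995))))) (.a (.b (.a (.a (.l 4995) (.l 5059)) (.a (.l 5059)
      (.l 5059))) (.a (.a (.l 4995) (.l 4995)) (.l 4995))) (.b (.a (.l 5059) (.l 5059)) (.a (.l
      4995) (.l 4995)))))

theorem x1_t1b_W_f_h0 : chk3 (onCell 0 2684354560 0 1073741824 0 26843546 T1_t1b_W_f) x1_t1b_W_f_t0 1 1 1 = true := by decide +kernel

theorem x1_t1b_W_f : Tree 0 2684354560 0 1073741824 0 26843546 T1_t1b_W_f :=
  ⟨_, x1_t1b_W_f_h0⟩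

def x2_t1b_W_f_t0 : T :=
  (.c (.a (.b (.l 4035) (.l 4035)) (.b (.l 4035) (.l 3971))) (.a (.a (.b (.l 1987) (.l 1987)) (.b
      (.l 1987) (.l 1987))) (.b (.l 1987) (.l 1923))))

theorem x2_t1b_W_f_h0 : chk3 (onCell 0 1073741824 0 429496730 0 67108864 T2_t1b_W_f) x2_t1b_W_f_t0 1 1 1 = true := by decide +kernel

theorem x2_t1b_W_f : Tree 0 1073741824 0 429496730 0 67108864 T2_t1b_W_f :=
  ⟨_, x2_t1b_W_f_h0⟩

def x1_t1b_W_n_t0 : T :=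
  (.a (.a (.a (.l 5003) (.b (.l 5067) (.a (.l 5003) (.a (.a (.l 4995) (.l 4995)) (.a (.l 4995)
      (.l 4995)))))) (.b (.a (.b (.a (.a (.l 4995) (.l 4995)) (.l 4995)) (.a (.a (.l 4995) (.l
      4995)) (.l 4995))) (.b (.a (.l 4995) (.l 4995)) (.a (.l 4995) (.l 4995)))) (.a (.b (.a (.a
      (.l 4995) (.l 4995)) (.a (.l 4995) (.l 4995))) (.a (.a (.l 4995) (.l 4995)) (.l 4995))) (.a
      (.a (.l 4995) (.l 4995)) (.b (.l 4995) (.l 4995)))))) (.b (.a (.a (.b (.l 5059) (.a (.l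
      4995) (.l 4995))) (.a (.l 5059) (.l 5059))) (.b (.a (.l 5059) (.l 5059)) (.a (.l 4995) (.l
      4995)))) (.a (.a (.a (.b (.l 4995) (.l 4995)) (.l 4995)) (.b (.l 4995) (.l 4995))) (.a (.b
      (.l 4995) (.l 4995)) (.b (.l 4995) (.l 4995))))))

theorem x1_t1b_W_n_h0 : chk3 (onCell 0 2684354560 0 1073741824 0 26843546 T1_t1b_W_n) x1_t1b_W_n_t0 1 1 1 = true := by decide +kernel

theorem x1_t1b_W_n : Tree 0 2684354560 0 1073741824 0 26843546 T1_t1b_W_n :=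
  ⟨_, x1_t1b_W_n_h0⟩

def x2_t1b_W_n_t0 : T :=
  (.b (.a (.c (.l 4035) (.a (.l 1987) (.l 1987))) (.c (.l 4035) (.a (.l 1987) (.l 1987)))) (.c
      (.a (.l 4035) (.l 3971)) (.a (.a (.b (.l 1987) (.l 1987)) (.l 1987)) (.l 1923))))

theorem x2_t1b_W_n_h0 : chk3 (onCell 0 1073741824 0 429496730 0 67108864 T2_t1b_W_n) x2_t1b_W_n_t0 1 1 1 = true := by decide +kernel

theorem x2_t1b_W_n : Tree 0 1073741824 0 429496730 0 67108864 T2_t1b_W_n :=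
  ⟨_, x2_t1b_W_n_h0⟩

end Pool.Agent.Strip051.LC.E1.Ch
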