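import Pool.Agent.Strip051.LC.E1.Ch.Te

/-! # Rests near the full period: certificates P3 -/

set_option maxRecDepth 100000

namespace Pool.Agent.Strip051.LC.E1.Ch

open Pool.Agent.Strip051.PB
open Pool.Agent.Strip051.LC.E0.Ch (onCell Tree)

def x1_t1b_c1_d_f_t0 : T :=
  (.b (.c (.a (.l 20359) (.b (.c (.a (.l 40839) (.b (.l 40843) (.l 40843))) (.l 20363)) (.c (.l
      40839) (.l 20359)))) (.l 10119)) (.c (.c (.l 40839) (.l 20359)) (.l 10119)))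

theorem x1_t1b_c1_d_f_h0 : chk3 (onCell 0 2684354560 0 1073741824 0 26843546 T1_t1b_c1_d_f) x1_t1b_c1_d_f_t0 4 2 2 = true := by decide +kernel

def x1_t1b_c1_d_f_t1 : T :=
  (.a (.c (.a (.b (.c (.a (.l 81795) (.l 81795)) (.l 40835)) (.c (.a (.l 81795) (.l 81795)) (.l
      40835))) (.b (.c (.c (.l 163715) (.l 81795)) (.l 40835)) (.c (.c (.l 163715) (.l 81795))
      (.l 40835)))) (.a (.b (.l 20355) (.l 20355)) (.c (.b (.l 27267) (.l 27267)) (.l 20355))))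
      (.c (.b (.a (.c (.l 81795) (.l 40835)) (.c (.l 81795) (.l 40835))) (.a (.c (.c (.l 163715)
      (.l 81795)) (.l 40835)) (.c (.l 81795) (.l 40835)))) (.b (.c (.l 27267) (.l 20355)) (.c (.l
      27267) (.l 20355)))))

theorem x1_t1b_c1_d_f_h1 : chk3 (onCell 0 2684354560 0 1073741824 0 26843546 T1_t1b_c1_d_f) x1_t1b_c1_d_f_t1 5 8 4 = true := by decide +kernel

def x1_t1b_c1_d_f_t2 : T :=
  (.a (.c (.b (.a (.c (.a (.l 81795) (.l 81795)) (.c (.l 54531) (.l 40835))) (.c (.b (.l 81795)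
      (.l 81795)) (.l 40835))) (.a (.l 40839) (.c (.b (.l 81795) (.l 81795)) (.c (.l 54531) (.l
      40835))))) (.b (.a (.l 20355) (.l 20355)) (.a (.l 20359) (.l 20355)))) (.c (.b (.a (.c (.c
      (.l 163715) (.l 81795)) (.l 40835)) (.c (.c (.l 163715) (.l 81795)) (.l 40835))) (.a (.c
      (.b (.l 81795) (.l 81795)) (.l 40835)) (.c (.b (.l 81795) (.l 81795)) (.l 40835)))) (.b (.c
      (.a (.l 27267) (.l 27267)) (.l 20355)) (.a (.l 20355) (.l 20355)))))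

theorem x1_t1b_c1_d_f_h2 : chk3 (onCell 0 2684354560 0 1073741824 0 26843546 T1_t1b_c1_d_f) x1_t1b_c1_d_f_t2 5 9 4 = true := by decide +kernel

def x1_t1b_c1_d_f_t3 : T :=
  (.b (.a (.c (.a (.l 13571) (.l 13571)) (.b (.l 10115) (.l 10115))) (.c (.c (.b (.l 16259) (.l
      16259)) (.b (.l 13571) (.l 13571))) (.b (.l 10115) (.l 10115)))) (.a (.c (.b (.c (.l 16259)
      (.l 13571)) (.a (.l 13571) (.l 13571))) (.b (.l 10115) (.a (.l 10115) (.l 10115)))) (.c (.b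
      (.l 13571) (.c (.l 16259) (.l 13571))) (.b (.l 10115) (.l 10115)))))

theorem x1_t1b_c1_d_f_h3 : chk3 (onCell 0 2684354560 0 1073741824 0 26843546 T1_t1b_c1_d_f) x1_t1b_c1_d_f_t3 5 4 5 = true := by decide +kernel

def x1_t1b_c1_d_f_t4 : T :=
  (.c (.b (.a (.c (.l 40839) (.l 20359)) (.c (.b (.a (.c (.b (.l 81795) (.c (.l 163715) (.l
      81795))) (.c (.b (.l 54531) (.l 54531)) (.l 40835))) (.c (.b (.l 81795) (.l 81795)) (.c (.l
      54531) (.l 40835)))) (.l 40839)) (.b (.a (.c (.l 27267) (.l 20355)) (.c (.l 27267) (.l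
      20355))) (.l 20359)))) (.a (.c (.l 40839) (.l 20359)) (.c (.l 40839) (.l 20359)))) (.b (.l
      10119) (.l 10119)))

theorem x1_t1b_c1_d_f_h4 : chk3 (onCell 0 2684354560 0 1073741824 0 26843546 T1_t1b_c1_d_f) x1_t1b_c1_d_f_t4 5 5 2 = true := by decide +kernel

def x1_t1b_c1_d_f_t5 : T :=
  (.a (.b (.l 4999) (.l 4999)) (.b (.c (.b (.a (.c (.b (.l 8067) (.l 8067)) (.l 6787)) (.c (.l
      8067) (.l 6787))) (.a (.c (.b (.l 8067) (.l 8067)) (.b (.l 6787) (.l 6787))) (.c (.b (.l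
      8067) (.l 8067)) (.b (.l 6787) (.l 6787))))) (.b (.a (.c (.l 5763) (.l 4995)) (.c (.l 5763)
      (.l 4995))) (.a (.c (.b (.l 5763) (.l 5763)) (.b (.l 4995) (.l 4995))) (.c (.b (.l 5763)
      (.l 5763)) (.b (.l 4995) (.l 4995)))))) (.c (.l 6791) (.l 4999))))

theorem x1_t1b_c1_d_f_h5 : chk3 (onCell 0 2684354560 0 1073741824 0 26843546 T1_t1b_c1_d_f) x1_t1b_c1_d_f_t5 2 2 3 = true := by decide +kernel

def x1_t1b_c1_d_f_t6 : T :=
  (.b (.a (.c (.b (.a (.c (.l 81795) (.l 40835)) (.c (.l 81795) (.l 40835))) (.a (.c (.l 81795)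
      (.l 40835)) (.c (.l 81795) (.l 40835)))) (.b (.l 20355) (.c (.l 27267) (.l 20355)))) (.c
      (.b (.a (.c (.l 81795) (.l 40835)) (.l 40835)) (.a (.c (.l 81795) (.l 40835)) (.c (.l
      81795) (.l 40835)))) (.b (.l 20355) (.l 20355)))) (.a (.c (.b (.a (.c (.l 81795) (.l
      40835)) (.c (.l 81795) (.l 40835))) (.a (.c (.c (.l 163715) (.l 81795)) (.l 40835)) (.c (.c
      (.l 163715) (.l 81795)) (.l 40835)))) (.b (.c (.l 27267) (.l 20355)) (.c (.c (.l 32643) (.l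
      27267)) (.l 20355)))) (.c (.b (.a (.c (.l 81795) (.l 40835)) (.c (.l 81795) (.l 40835)))
      (.a (.c (.l 81795) (.l 40835)) (.c (.l 81795) (.l 40835)))) (.b (.c (.l 27267) (.l 20355))
      (.c (.l 27267) (.l 20355))))))

theorem x1_t1b_c1_d_f_h6 : chk3 (onCell 0 2684354560 0 1073741824 0 26843546 T1_t1b_c1_d_f) x1_t1b_c1_d_f_t6 6 4 4 = true := by decide +kernel

def x1_t1b_c1_d_f_t7 : T :=
  (.b (.a (.c (.c (.b (.l 16259) (.l 16259)) (.l 13571)) (.b (.l 10115) (.l 10115))) (.c (.c (.l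
      16259) (.l 13571)) (.l 10115))) (.a (.c (.b (.l 13571) (.l 13571)) (.b (.l 10115) (.l
      10115))) (.c (.b (.l 13571) (.l 13571)) (.b (.l 10115) (.l 10115)))))

theorem x1_t1b_c1_d_f_h7 : chk3 (onCell 0 2684354560 0 1073741824 0 26843546 T1_t1b_c1_d_f) x1_t1b_c1_d_f_t7 6 4 5 = true := by decide +kernel

def x1_t1b_c1_d_f_t8 : T :=
  (.c (.b (.a (.c (.b (.c (.l 81795) (.l 40835)) (.a (.l 40835) (.l 40835))) (.c (.b (.l 27267)
      (.l 27267)) (.l 20355))) (.c (.b (.c (.l 81795) (.l 40835)) (.c (.l 81795) (.l 40835))) (.c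
      (.l 27267) (.l 20355)))) (.a (.c (.b (.a (.l 40835) (.l 40835)) (.a (.c (.l 81795) (.l
      40835)) (.l 40835))) (.b (.l 20355) (.l 20355))) (.c (.b (.a (.l 40835) (.l 40835)) (.a (.l
      40835) (.l 40835))) (.b (.l 20355) (.l 20355))))) (.b (.a (.c (.l 13571) (.l 10115)) (.c
      (.l 13571) (.l 10115))) (.a (.c (.b (.l 13571) (.l 13571)) (.b (.l 10115) (.l 10115))) (.c
      (.b (.l 13571) (.l 13571)) (.l 10115)))))

theorem x1_t1b_c1_d_f_h8 : chk3 (onCell 0 2684354560 0 1073741824 0 26843546 T1_t1b_c1_d_f) x1_t1b_c1_d_f_t8 7 4 2 = true := by decide +kernel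

def x1_t1b_c1_d_f_t9 : T :=
  (.c (.b (.a (.c (.b (.a (.c (.b (.l 81795) (.l 81795)) (.l 40835)) (.c (.b (.l 81795) (.l
      81795)) (.l 40835))) (.a (.c (.b (.l 81795) (.l 81795)) (.b (.l 40835) (.l 40835))) (.c (.b
      (.l 81795) (.l 81795)) (.b (.l 40835) (.l 40835))))) (.b (.a (.l 20355) (.l 20355)) (.a (.c
      (.l 27267) (.l 20355)) (.c (.l 27267) (.l 20355))))) (.c (.b (.a (.c (.b (.l 81795) (.l
      81795)) (.l 40835)) (.c (.c (.l 163715) (.l 81795)) (.l 40835))) (.a (.c (.b (.l 81795) (.l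
      81795)) (.b (.l 40835) (.l 40835))) (.c (.b (.l 81795) (.l 81795)) (.b (.l 40835) (.l
      40835))))) (.b (.a (.l 20355) (.l 20355)) (.a (.c (.l 27267) (.l 20355)) (.c (.l 27267) (.l
      20355)))))) (.a (.c (.l 40839) (.l 20359)) (.c (.l 40839) (.l 20359)))) (.b (.a (.c (.b (.c
      (.l 16259) (.l 13571)) (.a (.l 13571) (.l 13571))) (.b (.l 10115) (.b (.l 10115) (.l
      10115)))) (.c (.b (.c (.l 16259) (.l 13571)) (.a (.l 13571) (.l 13571))) (.b (.l 10115) (.b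
      (.l 10115) (.l 10115))))) (.a (.l 10119) (.l 10119))))

theorem x1_t1b_c1_d_f_h9 : chk3 (onCell 0 2684354560 0 1073741824 0 26843546 T1_t1b_c1_d_f) x1_t1b_c1_d_f_t9 6 5 2 = true := by decide +kernel

def x1_t1b_c1_d_f_t10 : T :=
  (.c (.b (.a (.c (.b (.a (.c (.l 81795) (.l 40835)) (.c (.l 81795) (.l 40835))) (.a (.c (.b (.l
      81795) (.l 81795)) (.l 40835)) (.c (.b (.l 81795) (.l 81795)) (.l 40835)))) (.b (.c (.l
      27267) (.l 20355)) (.a (.l 20355) (.l 20355)))) (.c (.b (.a (.c (.l 81795) (.l 40835)) (.l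
      40835)) (.a (.c (.b (.l 81795) (.l 81795)) (.l 40835)) (.c (.b (.l 81795) (.l 81795)) (.l
      40835)))) (.b (.l 20355) (.a (.l 20355) (.l 20355))))) (.a (.c (.l 40839) (.l 20359)) (.c
      (.l 40903) (.l 20423)))) (.b (.a (.c (.b (.l 13571) (.a (.l 13571) (.l 13571))) (.b (.l
      10115) (.b (.l 10115) (.l 10115)))) (.c (.b (.l 13571) (.b (.l 13571) (.l 13571))) (.b (.l
      10115) (.l 10115)))) (.a (.l 10183) (.c (.l 13639) (.l 10183)))))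

theorem x1_t1b_c1_d_f_h10 : chk3 (onCell 0 2684354560 0 1073741824 0 26843546 T1_t1b_c1_d_f) x1_t1b_c1_d_f_t10 7 5 2 = true := by decide +kernel

def x1_t1b_c1_d_f_t11 : T :=
  (.a (.c (.b (.a (.c (.l 8067) (.l 6787)) (.c (.l 8067) (.l 6787))) (.a (.c (.b (.l 8067) (.l
      8067)) (.b (.l 6787) (.l 6787))) (.c (.b (.l 8067) (.l 8067)) (.b (.l 6787) (.l 6787)))))
      (.b (.a (.c (.l 5763) (.l 4995)) (.b (.l 4995) (.l 4995))) (.a (.b (.l 4995) (.l 4995)) (.b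
      (.l 4995) (.l 4995))))) (.c (.b (.a (.b (.l 6787) (.l 6787)) (.b (.l 6787) (.l 6787))) (.a
      (.b (.l 6787) (.l 6787)) (.b (.l 6787) (.l 6787)))) (.b (.a (.b (.l 3) (.l 4995)) (.b (.a
      (.l 4995) (.l 3)) (.a (.l 4995) (.l 3)))) (.a (.b (.l 4995) (.l 4995)) (.b (.a (.l 4995)
      (.l 4995)) (.a (.l 4995) (.l 4995)))))))

theorem x1_t1b_c1_d_f_h11 : chk3 (onCell 0 2684354560 0 1073741824 0 26843546 T1_t1b_c1_d_f) x1_t1b_c1_d_f_t11 3 4 3 = true := by decide +kernel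

def x1_t1b_c1_d_f_t12 : T :=
  (.a (.c (.b (.a (.c (.b (.l 8067) (.b (.l 8067) (.l 8067))) (.b (.l 6787) (.l 6787))) (.c (.b
      (.l 8067) (.b (.l 8067) (.l 8067))) (.b (.l 6787) (.l 6787)))) (.a (.l 6791) (.l 6791)))
      (.b (.a (.c (.b (.l 5763) (.l 5763)) (.b (.l 4995) (.l 4995))) (.c (.b (.l 5763) (.l 5763))
      (.b (.l 4995) (.l 4995)))) (.a (.l 4999) (.l 4999)))) (.c (.b (.a (.c (.b (.l 8067) (.l
      8067)) (.b (.l 6787) (.l 6787))) (.c (.b (.l 8067) (.l 8067)) (.b (.l 6787) (.l 6787))))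
      (.a (.l 6855) (.c (.l 71) (.b (.a (.l 3) (.l 67)) (.l 6855))))) (.b (.a (.c (.b (.l 5763)
      (.l 5763)) (.b (.l 4995) (.l 4995))) (.c (.b (.l 5763) (.l 5827)) (.b (.l 4995) (.l
      4995)))) (.a (.c (.l 5831) (.b (.a (.l 4995) (.l 4995)) (.l 5063))) (.c (.b (.a (.l 3) (.l
      67)) (.l 5831)) (.b (.a (.c (.l 5379) (.l 4995)) (.l 67)) (.a (.l 5063) (.c (.l 5447) (.b
      (.l 67) (.l 5063))))))))))

theorem x1_t1b_c1_d_f_h12 : chk3 (onCell 0 2684354560 0 1073741824 0 26843546 T1_t1b_c1_d_f) x1_t1b_c1_d_f_t12 3 5 3 = true := by decide +kernel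

def x1_t1b_c1_d_f_t13 : T :=
  (.a (.c (.a (.b (.c (.c (.l 40839) (.l 20359)) (.l 10119)) (.l 79)) (.b (.c (.c (.l 40903) (.l
      20423)) (.c (.l 13639) (.l 10183))) (.l 15))) (.a (.c (.l 6791) (.l 4999)) (.b (.c (.l
      6855) (.l 5063)) (.l 15)))) (.c (.a (.b (.c (.a (.c (.l 40903) (.l 20423)) (.c (.c (.l
      81863) (.l 40903)) (.l 20423))) (.c (.c (.l 16327) (.l 13639)) (.b (.l 10183) (.l 15))))
      (.l 15)) (.b (.c (.b (.c (.l 40903) (.l 20423)) (.l 15)) (.c (.b (.l 13639) (.l 15)) (.b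
      (.l 71) (.l 15)))) (.l 15))) (.a (.b (.c (.b (.l 6855) (.l 15)) (.b (.l 5063) (.l 15))) (.l
      15)) (.b (.c (.b (.a (.c (.l 8135) (.l 6855)) (.c (.l 71) (.b (.l 6855) (.l 15)))) (.l 15))
      (.b (.a (.b (.l 4999) (.l 15)) (.b (.a (.c (.l 5767) (.c (.l 5383) (.b (.l 4999) (.l 15))))
      (.c (.l 5831) (.l 5063))) (.l 15))) (.l 15))) (.l 15)))))

theorem x1_t1b_c1_d_f_h13 : chk3 (onCell 0 2684354560 0 1073741824 0 26843546 T1_t1b_c1_d_f) x1_t1b_c1_d_f_t13 1 3 1 = true := by decide +kernel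

theorem x1_t1b_c1_d_f : Tree 0 2684354560 0 1073741824 0 26843546 T1_t1b_c1_d_f :=
  ⟨_, (chk3_b (chk3_a (chk3_c (chk3_a x1_t1b_c1_d_f_h0 (chk3_b (chk3_c (chk3_b x1_t1b_c1_d_f_h1
      x1_t1b_c1_d_f_h2) x1_t1b_c1_d_f_h3) x1_t1b_c1_d_f_h4)) x1_t1b_c1_d_f_h5) (chk3_c (chk3_b
      (chk3_a (chk3_c x1_t1b_c1_d_f_h6 x1_t1b_c1_d_f_h7) x1_t1b_c1_d_f_h8) (chk3_a
      x1_t1b_c1_d_f_h9 x1_t1b_c1_d_f_h10)) (chk3_b x1_t1b_c1_d_f_h11 x1_t1b_c1_d_f_h12)))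
      x1_t1b_c1_d_f_h13)⟩

def x2_t1b_c1_d_f_t0 : T :=
  (.c (.a (.b (.c (.a (.l 8067) (.l 8067)) (.l 67)) (.c (.a (.l 8067) (.l 8067)) (.l 3))) (.b (.c
      (.a (.b (.c (.l 16259) (.l 3)) (.l 8067)) (.b (.c (.l 16259) (.l 3)) (.l 8067))) (.a (.l 3)
      (.l 67))) (.c (.a (.l 8131) (.l 8131)) (.a (.l 67) (.l 67))))) (.a (.b (.c (.l 67) (.l 67))
      (.c (.l 67) (.a (.l 1923) (.l 3)))) (.b (.c (.a (.l 67) (.l 67)) (.a (.l 3) (.l 67))) (.c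
      (.a (.l 67) (.l 67)) (.a (.l 67) (.l 67))))))

theorem x2_t1b_c1_d_f_h0 : chk3 (onCell 0 1073741824 0 429496730 0 67108864 T2_t1b_c1_d_f) x2_t1b_c1_d_f_t0 4 2 1 = true := by decide +kernel

def x2_t1b_c1_d_f_t1 : T :=
  (.c (.a (.b (.c (.a (.l 8067) (.l 8067)) (.l 3971)) (.c (.a (.l 8067) (.l 8067)) (.l 3971)))
      (.b (.c (.a (.l 8067) (.b (.l 8067) (.l 8067))) (.a (.l 3971) (.l 4035))) (.c (.a (.b (.l
      8067) (.l 8067)) (.b (.l 8067) (.l 8067))) (.a (.l 3971) (.l 4035))))) (.a (.b (.c (.l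
      2755) (.a (.l 1923) (.l 1923))) (.c (.l 2755) (.a (.l 3) (.a (.l 1923) (.l 1923))))) (.b
      (.c (.a (.l 2755) (.l 2755)) (.a (.l 1923) (.l 1987))) (.c (.a (.l 2755) (.l 2755)) (.a (.a
      (.l 1923) (.l 1923)) (.l 1987))))))

theorem x2_t1b_c1_d_f_h1 : chk3 (onCell 0 1073741824 0 429496730 0 67108864 T2_t1b_c1_d_f) x2_t1b_c1_d_f_t1 4 3 1 = true := by decide +kernel

def x2_t1b_c1_d_f_t2 : T :=
  (.c (.a (.b (.c (.a (.b (.c (.l 16259) (.l 3)) (.c (.l 16259) (.l 3))) (.b (.c (.l 16263) (.l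
      3)) (.l 8071))) (.l 7)) (.c (.l 8135) (.l 71))) (.b (.c (.a (.b (.c (.l 16263) (.l 7)) (.l
      8071)) (.b (.c (.l 16263) (.l 7)) (.l 8071))) (.a (.l 7) (.b (.l 7) (.l 7)))) (.c (.l 8071)
      (.a (.l 3975) (.b (.l 7) (.l 3975)))))) (.a (.b (.c (.a (.l 67) (.l 7)) (.a (.a (.l 67) (.l
      67)) (.l 7))) (.c (.a (.l 67) (.l 7)) (.a (.b (.l 3) (.l 3)) (.b (.l 67) (.l 67))))) (.b
      (.c (.l 7) (.l 7)) (.c (.l 7) (.a (.l 7) (.b (.l 7) (.l 7)))))))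

theorem x2_t1b_c1_d_f_h2 : chk3 (onCell 0 1073741824 0 429496730 0 67108864 T2_t1b_c1_d_f) x2_t1b_c1_d_f_t2 5 2 1 = true := by decide +kernel

def x2_t1b_c1_d_f_t3 : T :=
  (.a (.b (.c (.a (.b (.l 8067) (.l 8067)) (.b (.l 8135) (.c (.l 16259) (.l 8067)))) (.a (.b (.l
      3971) (.l 3971)) (.b (.l 4039) (.c (.l 5379) (.l 3971))))) (.c (.a (.b (.l 8067) (.c (.l
      16259) (.l 8067))) (.b (.c (.l 16259) (.l 8067)) (.c (.l 16259) (.l 8067)))) (.a (.l 4035)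
      (.b (.l 4035) (.l 4035))))) (.b (.c (.a (.b (.l 8071) (.c (.l 16259) (.l 8071))) (.c (.l
      16263) (.l 8071))) (.a (.b (.l 3975) (.l 4039)) (.c (.b (.l 5383) (.l 5383)) (.b (.l 3975)
      (.l 3975))))) (.c (.a (.b (.c (.l 16323) (.l 8135)) (.c (.l 16327) (.l 8135))) (.c (.l
      16327) (.c (.l 10951) (.l 8135)))) (.a (.b (.l 4039) (.c (.l 5447) (.l 67))) (.c (.b (.l
      5447) (.l 5447)) (.b (.l 4039) (.l 4039)))))))

theorem x2_t1b_c1_d_f_h3 : chk3 (onCell 0 1073741824 0 429496730 0 67108864 T2_t1b_c1_d_f) x2_t1b_c1_d_f_t3 5 3 2 = true := by decide +kernel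

def x2_t1b_c1_d_f_t4 : T :=
  (.a (.b (.c (.a (.b (.l 2691) (.l 2691)) (.b (.l 3) (.l 67))) (.a (.b (.l 1923) (.l 1923)) (.b
      (.l 1991) (.c (.l 2307) (.l 3))))) (.c (.a (.l 2755) (.b (.l 2755) (.l 2755))) (.a (.a (.l
      1987) (.l 1987)) (.b (.l 1987) (.l 1987))))) (.b (.c (.a (.b (.l 2695) (.c (.l 3) (.l 3)))
      (.a (.b (.l 2695) (.l 2695)) (.b (.l 2695) (.l 2695)))) (.a (.b (.l 1927) (.c (.l 3) (.a
      (.l 3) (.l 3)))) (.b (.l 1927) (.c (.l 2311) (.a (.b (.l 3) (.l 3)) (.l 1927)))))) (.c (.a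
      (.b (.l 2759) (.c (.l 67) (.l 67))) (.b (.l 2759) (.c (.l 3271) (.l 71)))) (.a (.b (.c (.l
      67) (.a (.l 1923) (.l 67))) (.c (.l 67) (.a (.l 1987) (.l 67)))) (.b (.c (.l 2375) (.a (.b
      (.l 3) (.l 3)) (.l 1927))) (.c (.a (.l 67) (.l 2375)) (.a (.b (.l 67) (.l 67)) (.l
      71))))))))

theorem x2_t1b_c1_d_f_h4 : chk3 (onCell 0 1073741824 0 429496730 0 67108864 T2_t1b_c1_d_f) x2_t1b_c1_d_f_t4 5 3 3 = true := by decide +kernel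

def x2_t1b_c1_d_f_t5 : T :=
  (.a (.c (.a (.b (.c (.a (.b (.c (.l 16263) (.l 7)) (.c (.l 16263) (.l 8071))) (.l 15)) (.a (.b
      (.c (.l 7) (.l 7)) (.l 7)) (.l 15))) (.c (.l 8071) (.a (.b (.l 7) (.l 3975)) (.l 15)))) (.l
      15)) (.a (.b (.c (.a (.l 7) (.l 15)) (.a (.l 7) (.l 15))) (.c (.a (.b (.l 7) (.l 7)) (.l
      15)) (.a (.b (.l 7) (.l 7)) (.l 15)))) (.l 15))) (.l 15))

theorem x2_t1b_c1_d_f_h5 : chk3 (onCell 0 1073741824 0 429496730 0 67108864 T2_t1b_c1_d_f) x2_t1b_c1_d_f_t5 3 2 1 = true := by decide +kernel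

def x2_t1b_c1_d_f_t6 : T :=
  (.a (.c (.a (.b (.c (.c (.c (.l 32647) (.l 16263)) (.a (.l 8071) (.l 15))) (.a (.c (.b (.l
      5383) (.l 5383)) (.b (.l 3975) (.l 3975))) (.l 15))) (.c (.c (.l 16327) (.c (.l 10951) (.l
      8135))) (.c (.b (.l 5383) (.l 5447)) (.b (.a (.l 3975) (.l 15)) (.l 4039))))) (.l 15)) (.a
      (.b (.c (.a (.b (.l 2695) (.a (.c (.l 3207) (.l 2695)) (.l 15))) (.l 15)) (.a (.b (.l 7)
      (.a (.c (.l 2311) (.a (.l 1927) (.l 1927))) (.l 15))) (.l 15))) (.c (.a (.b (.l 2695) (.c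
      (.l 3271) (.l 2759))) (.l 15)) (.a (.b (.l 1927) (.a (.b (.l 1927) (.c (.l 2375) (.l
      1991))) (.l 15))) (.l 15)))) (.l 15))) (.l 15))

theorem x2_t1b_c1_d_f_h6 : chk3 (onCell 0 1073741824 0 429496730 0 67108864 T2_t1b_c1_d_f) x2_t1b_c1_d_f_t6 3 3 1 = true := by decide +kernel

theorem x2_t1b_c1_d_f : Tree 0 1073741824 0 429496730 0 67108864 T2_t1b_c1_d_f :=
  ⟨_, (chk3_a (chk3_a (chk3_b x2_t1b_c1_d_f_h0 x2_t1b_c1_d_f_h1) (chk3_b x2_t1b_c1_d_f_h2 (chk3_c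
      x2_t1b_c1_d_f_h3 x2_t1b_c1_d_f_h4))) (chk3_b x2_t1b_c1_d_f_h5 x2_t1b_c1_d_f_h6))⟩

end Pool.Agent.Strip051.LC.E1.Ch
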