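import Pool.Agent.Strip051.LC.E1.Ch.Te

/-! # Rests near the full period: certificates P4 -/

set_option maxRecDepth 100000

namespace Pool.Agent.Strip051.LC.E1.Ch

open Pool.Agent.Strip051.PB
open Pool.Agent.Strip051.LC.E0.Ch (onCell Tree)

def x2_t1b_c1_d_n_t0 : T :=
  (.a (.b (.c (.l 4035) (.a (.b (.c (.l 2755) (.l 1923)) (.c (.l 2755) (.l 1923))) (.b (.c (.l
      2755) (.l 1923)) (.a (.c (.l 2755) (.l 1923)) (.c (.l 2755) (.l 1923)))))) (.c (.l 4035)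
      (.a (.c (.l 2755) (.l 1923)) (.c (.l 2755) (.l 1987))))) (.b (.c (.l 4035) (.a (.b (.a (.l
      1987) (.l 1987)) (.c (.l 2755) (.l 1923))) (.b (.c (.l 2755) (.l 1987)) (.a (.l 1987) (.l
      1987))))) (.c (.a (.l 4035) (.l 4035)) (.a (.c (.l 2755) (.b (.l 1987) (.l 1923))) (.a (.c
      (.l 2755) (.l 1987)) (.c (.l 2755) (.l 1987)))))))

theorem x2_t1b_c1_d_n_h0 : chk3 (onCell 0 1073741824 0 429496730 0 67108864 T2_t1b_c1_d_n) x2_t1b_c1_d_n_t0 4 2 1 = true := by decide +kernel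

def x2_t1b_c1_d_n_t1 : T :=
  (.a (.b (.c (.a (.l 4035) (.l 4035)) (.a (.c (.l 2755) (.b (.l 1923) (.l 1923))) (.c (.l 2755)
      (.b (.l 1923) (.l 1923))))) (.c (.c (.l 8131) (.l 4035)) (.c (.l 2755) (.a (.c (.l 2307)
      (.l 1923)) (.b (.a (.l 1923) (.l 1923)) (.a (.l 1923) (.l 1923))))))) (.b (.c (.a (.l 4035)
      (.c (.l 8131) (.l 4035))) (.a (.c (.l 2755) (.b (.l 1923) (.l 1923))) (.c (.l 2755) (.b (.l
      1987) (.l 1987))))) (.c (.a (.c (.l 8131) (.l 4035)) (.c (.l 8131) (.l 4035))) (.a (.c (.l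
      2755) (.b (.a (.l 1923) (.l 1923)) (.a (.l 1923) (.l 1923)))) (.c (.l 2755) (.b (.l 1987)
      (.a (.l 1923) (.l 1923))))))))

theorem x2_t1b_c1_d_n_h1 : chk3 (onCell 0 1073741824 0 429496730 0 67108864 T2_t1b_c1_d_n) x2_t1b_c1_d_n_t1 4 3 1 = true := by decide +kernel

def x2_t1b_c1_d_n_t2 : T :=
  (.a (.b (.c (.l 4039) (.a (.b (.c (.l 2755) (.l 67)) (.c (.l 2755) (.l 1987))) (.b (.l 1991)
      (.c (.l 2755) (.l 67))))) (.c (.a (.l 4035) (.l 4039)) (.a (.a (.c (.l 2755) (.l 1987)) (.c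
      (.l 2755) (.l 1987))) (.a (.b (.c (.l 2755) (.l 1987)) (.c (.l 2755) (.l 1987))) (.b (.c
      (.l 2755) (.l 1987)) (.c (.l 2755) (.l 1987))))))) (.b (.c (.l 4039) (.a (.b (.l 1991) (.l
      1991)) (.b (.l 1991) (.l 1991)))) (.c (.l 4039) (.a (.b (.c (.l 67) (.l 1991)) (.c (.l 67)
      (.l 1991))) (.b (.a (.c (.l 67) (.l 67)) (.l 1991)) (.a (.c (.l 67) (.l 1991)) (.l
      1991)))))))

theorem x2_t1b_c1_d_n_h2 : chk3 (onCell 0 1073741824 0 429496730 0 67108864 T2_t1b_c1_d_n) x2_t1b_c1_d_n_t2 5 2 1 = true := by decide +kernel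

def x2_t1b_c1_d_n_t3 : T :=
  (.b (.c (.a (.a (.c (.l 8131) (.l 4035)) (.b (.l 4035) (.l 4035))) (.a (.b (.l 4035) (.l 4035))
      (.b (.l 4035) (.l 4035)))) (.a (.c (.a (.l 2755) (.l 2755)) (.b (.a (.l 1987) (.l 1987))
      (.a (.l 1987) (.l 1987)))) (.a (.c (.l 2755) (.b (.l 1987) (.c (.l 2371) (.l 1923)))) (.c
      (.l 2755) (.b (.l 1987) (.c (.l 2371) (.l 1987))))))) (.c (.a (.c (.l 8131) (.l 4035)) (.b
      (.a (.l 4035) (.l 4035)) (.a (.l 4035) (.l 4035)))) (.a (.c (.l 2755) (.a (.b (.l 1987) (.l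
      1987)) (.b (.l 1987) (.l 1987)))) (.a (.c (.l 2755) (.b (.l 1987) (.l 1987))) (.c (.l 2755)
      (.b (.c (.l 2371) (.l 1923)) (.c (.l 2307) (.l 1923))))))))

theorem x2_t1b_c1_d_n_h3 : chk3 (onCell 0 1073741824 0 429496730 0 67108864 T2_t1b_c1_d_n) x2_t1b_c1_d_n_t3 10 3 1 = true := by decide +kernel

def x2_t1b_c1_d_n_t4 : T :=
  (.c (.a (.b (.l 4039) (.c (.l 8131) (.l 4035))) (.c (.l 8071) (.l 3975))) (.a (.b (.c (.l 2695)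
      (.a (.l 1987) (.b (.l 1987) (.l 1987)))) (.a (.c (.l 2755) (.l 1987)) (.c (.l 2755) (.l
      1987)))) (.b (.a (.c (.l 2695) (.b (.l 67) (.l 67))) (.l 1991)) (.c (.l 2695) (.a (.b (.l
      67) (.l 67)) (.l 1927))))))

theorem x2_t1b_c1_d_n_h4 : chk3 (onCell 0 1073741824 0 429496730 0 67108864 T2_t1b_c1_d_n) x2_t1b_c1_d_n_t4 11 6 1 = true := by decide +kernel

def x2_t1b_c1_d_n_t5 : T :=
  (.a (.a (.b (.c (.l 8131) (.l 4035)) (.c (.l 8067) (.l 3971))) (.b (.c (.l 8131) (.l 4035)) (.c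
      (.l 8131) (.l 4035)))) (.c (.c (.l 16327) (.c (.l 10951) (.c (.l 9415) (.c (.b (.l 67) (.l
      8775)) (.b (.l 67) (.l 8135)))))) (.b (.c (.l 5447) (.l 4039)) (.c (.b (.l 5447) (.c (.c
      (.c (.l 7751) (.a (.l 7171) (.l 67))) (.c (.a (.l 6787) (.l 67)) (.a (.l 6531) (.l 67))))
      (.c (.c (.a (.l 6147) (.l 67)) (.a (.l 5891) (.l 67))) (.c (.a (.l 5635) (.l 67)) (.a (.l
      5379) (.l 67)))))) (.c (.c (.b (.l 5063) (.a (.l 4995) (.l 67))) (.b (.l 4679) (.a (.l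
      4611) (.l 67)))) (.b (.l 4039) (.c (.a (.l 4355) (.l 67)) (.a (.l 3971) (.l 67)))))))))

theorem x2_t1b_c1_d_n_h5 : chk3 (onCell 0 1073741824 0 429496730 0 67108864 T2_t1b_c1_d_n) x2_t1b_c1_d_n_t5 11 7 2 = true := by decide +kernel

def x2_t1b_c1_d_n_t6 : T :=
  (.a (.b (.c (.a (.l 2755) (.l 2755)) (.a (.c (.l 2371) (.l 1987)) (.b (.l 1987) (.l 1987))))
      (.a (.c (.l 2691) (.c (.l 2307) (.l 1923))) (.c (.l 2755) (.c (.l 2307) (.b (.l 1987) (.l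
      1923)))))) (.b (.b (.a (.c (.l 67) (.l 67)) (.l 1927)) (.c (.a (.l 67) (.l 2695)) (.a (.c
      (.l 67) (.l 67)) (.l 67)))) (.c (.b (.a (.l 2755) (.c (.l 67) (.l 67))) (.a (.l 2755) (.c
      (.c (.c (.l 67) (.l 67)) (.c (.l 67) (.l 67))) (.c (.c (.l 67) (.l 67)) (.c (.l 67) (.l
      67)))))) (.a (.b (.c (.l 2371) (.l 67)) (.c (.l 2307) (.a (.l 1923) (.l 1923)))) (.c (.c
      (.b (.l 67) (.a (.l 3) (.l 67))) (.b (.l 67) (.a (.l 3) (.l 67)))) (.b (.l 67) (.c (.a (.l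
      3) (.l 67)) (.a (.l 3) (.l 67)))))))))

theorem x2_t1b_c1_d_n_h6 : chk3 (onCell 0 1073741824 0 429496730 0 67108864 T2_t1b_c1_d_n) x2_t1b_c1_d_n_t6 11 7 3 = true := by decide +kernel

def x2_t1b_c1_d_n_t7 : T :=
  (.a (.a (.b (.c (.l 4039) (.a (.b (.l 71) (.l 1991)) (.l 15))) (.c (.l 4039) (.a (.l 1991) (.l
      15)))) (.l 15)) (.l 15))

theorem x2_t1b_c1_d_n_h7 : chk3 (onCell 0 1073741824 0 429496730 0 67108864 T2_t1b_c1_d_n) x2_t1b_c1_d_n_t7 3 2 1 = true := by decide +kernel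

def x2_t1b_c1_d_n_t8 : T :=
  (.c (.a (.c (.l 8071) (.l 3975)) (.l 15)) (.c (.a (.l 2695) (.l 15)) (.a (.a (.b (.l 1927) (.l
      1927)) (.l 15)) (.l 15))))

theorem x2_t1b_c1_d_n_h8 : chk3 (onCell 0 1073741824 0 429496730 0 67108864 T2_t1b_c1_d_n) x2_t1b_c1_d_n_t8 12 6 1 = true := by decide +kernel

def x2_t1b_c1_d_n_t9 : T :=
  (.c (.c (.l 16327) (.a (.c (.l 10951) (.l 8135)) (.l 15))) (.a (.b (.l 3975) (.c (.l 5447) (.c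
      (.l 4679) (.c (.l 4423) (.b (.l 4039) (.l 71)))))) (.l 15)))

theorem x2_t1b_c1_d_n_h9 : chk3 (onCell 0 1073741824 0 429496730 0 67108864 T2_t1b_c1_d_n) x2_t1b_c1_d_n_t9 12 7 2 = true := by decide +kernel

def x2_t1b_c1_d_n_t10 : T :=
  (.l 1991)

theorem x2_t1b_c1_d_n_h10 : chk3 (onCell 0 1073741824 0 429496730 0 67108864 T2_t1b_c1_d_n) x2_t1b_c1_d_n_t10 24 14 3 = true := by decide +kernel

def x2_t1b_c1_d_n_t11 : T :=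
  (.l 2695)

theorem x2_t1b_c1_d_n_h11 : chk3 (onCell 0 1073741824 0 429496730 0 67108864 T2_t1b_c1_d_n) x2_t1b_c1_d_n_t11 48 30 6 = true := by decide +kernel

def x2_t1b_c1_d_n_t12 : T :=
  (.c (.l 3911) (.a (.b (.l 3591) (.l 71)) (.l 15)))

theorem x2_t1b_c1_d_n_h12 : chk3 (onCell 0 1073741824 0 429496730 0 67108864 T2_t1b_c1_d_n) x2_t1b_c1_d_n_t12 48 31 24 = true := by decide +kernel

def x2_t1b_c1_d_n_t13 : T :=
  (.a (.b (.l 3335) (.c (.a (.l 67) (.l 71)) (.a (.l 67) (.b (.l 3335) (.c (.l 71) (.a (.l 67)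
      (.l 71))))))) (.l 15))

theorem x2_t1b_c1_d_n_h13 : chk3 (onCell 0 1073741824 0 429496730 0 67108864 T2_t1b_c1_d_n) x2_t1b_c1_d_n_t13 48 31 50 = true := by decide +kernel

def x2_t1b_c1_d_n_t14 : T :=
  (.a (.b (.l 3207) (.c (.a (.l 67) (.b (.l 3335) (.c (.a (.l 67) (.b (.l 3335) (.c (.l 71) (.a
      (.l 67) (.b (.l 3335) (.l 71)))))) (.a (.l 67) (.b (.l 3335) (.c (.a (.l 67) (.b (.l 3335)
      (.c (.l 71) (.a (.l 99) (.l 15))))) (.a (.l 67) (.b (.l 3335) (.c (.a (.l 99) (.l 15)) (.a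
      (.l 99) (.l 15))))))))))) (.a (.l 67) (.b (.l 3207) (.c (.a (.l 67) (.b (.l 3207) (.c (.a
      (.l 67) (.b (.l 3335) (.c (.a (.l 99) (.l 15)) (.a (.l 99) (.l 15))))) (.a (.l 67) (.b (.l
      3207) (.c (.a (.l 99) (.l 15)) (.a (.l 99) (.l 15)))))))) (.a (.l 67) (.b (.l 3207) (.c (.a
      (.l 67) (.b (.l 3207) (.c (.a (.l 99) (.l 15)) (.a (.l 99) (.l 15))))) (.a (.l 67) (.b (.l
      3207) (.c (.a (.l 99) (.l 15)) (.a (.l 99) (.b (.l 3271) (.c (.l 15) (.a (.l 99) (.l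
      15)))))))))))))))) (.l 15))

theorem x2_t1b_c1_d_n_h14 : chk3 (onCell 0 1073741824 0 429496730 0 67108864 T2_t1b_c1_d_n) x2_t1b_c1_d_n_t14 48 31 51 = true := by decide +kernel

def x2_t1b_c1_d_n_t15 : T :=
  (.l 3079)

theorem x2_t1b_c1_d_n_h15 : chk3 (onCell 0 1073741824 0 429496730 0 67108864 T2_t1b_c1_d_n) x2_t1b_c1_d_n_t15 96 62 52 = true := by decide +kernel

def x2_t1b_c1_d_n_t16 : T :=
  (.a (.l 67) (.b (.l 3079) (.c (.a (.l 67) (.b (.l 3207) (.c (.a (.l 67) (.b (.l 3207) (.c (.a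
      (.l 99) (.b (.l 3271) (.c (.a (.l 99) (.l 15)) (.a (.l 99) (.l 15))))) (.a (.l 99) (.b (.l
      3271) (.c (.a (.l 99) (.l 15)) (.a (.l 99) (.l 15)))))))) (.a (.l 67) (.b (.l 3207) (.c (.a
      (.l 99) (.b (.l 3207) (.c (.a (.l 99) (.l 15)) (.a (.l 99) (.l 15))))) (.a (.l 67) (.b (.l
      3207) (.c (.a (.l 99) (.l 15)) (.a (.l 99) (.l 15))))))))))) (.a (.l 67) (.b (.l 99) (.c
      (.a (.l 67) (.b (.l 99) (.c (.a (.l 67) (.b (.l 99) (.c (.a (.l 99) (.l 15)) (.a (.l 99)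
      (.l 15))))) (.a (.l 67) (.b (.l 99) (.l 99)))))) (.a (.l 67) (.b (.l 99) (.c (.a (.l 67)
      (.l 99)) (.a (.l 67) (.l 99)))))))))))

theorem x2_t1b_c1_d_n_h16 : chk3 (onCell 0 1073741824 0 429496730 0 67108864 T2_t1b_c1_d_n) x2_t1b_c1_d_n_t16 96 63 104 = true := by decide +kernel

def x2_t1b_c1_d_n_t17 : T :=
  (.a (.l 67) (.b (.l 99) (.c (.a (.l 67) (.b (.l 99) (.c (.a (.l 67) (.b (.l 99) (.l 99))) (.a
      (.l 67) (.l 99))))) (.a (.l 67) (.b (.l 99) (.l 99))))))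

theorem x2_t1b_c1_d_n_h17 : chk3 (onCell 0 1073741824 0 429496730 0 67108864 T2_t1b_c1_d_n) x2_t1b_c1_d_n_t17 96 63 105 = true := by decide +kernel

def x2_t1b_c1_d_n_t18 : T :=
  (.l 15)

theorem x2_t1b_c1_d_n_h18 : chk3 (onCell 0 1073741824 0 429496730 0 67108864 T2_t1b_c1_d_n) x2_t1b_c1_d_n_t18 97 31 52 = true := by decide +kernel

def x2_t1b_c1_d_n_t19 : T :=
  (.b (.l 99) (.c (.a (.l 67) (.b (.l 99) (.c (.a (.l 67) (.l 99)) (.a (.l 67) (.l 99))))) (.a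
      (.l 67) (.b (.l 67) (.l 99)))))

theorem x2_t1b_c1_d_n_h19 : chk3 (onCell 0 1073741824 0 429496730 0 67108864 T2_t1b_c1_d_n) x2_t1b_c1_d_n_t19 96 31 53 = true := by decide +kernel

def x2_t1b_c1_d_n_t20 : T :=
  (.l 3015)

theorem x2_t1b_c1_d_n_h20 : chk3 (onCell 0 1073741824 0 429496730 0 67108864 T2_t1b_c1_d_n) x2_t1b_c1_d_n_t20 97 62 53 = true := by decide +kernel

def x2_t1b_c1_d_n_t21 : T :=
  (.a (.b (.l 3015) (.c (.l 15) (.a (.b (.l 3015) (.c (.a (.b (.l 3015) (.c (.l 15) (.a (.b (.l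
      3015) (.c (.a (.l 99) (.l 15)) (.a (.l 99) (.l 15)))) (.l 15)))) (.l 15)) (.a (.b (.l 3015)
      (.c (.a (.b (.l 3015) (.c (.a (.l 99) (.l 15)) (.a (.l 99) (.l 15)))) (.l 15)) (.a (.b (.l
      2951) (.c (.a (.l 99) (.l 15)) (.a (.l 99) (.l 15)))) (.l 15)))) (.l 15)))) (.l 15)))) (.l
      15))

theorem x2_t1b_c1_d_n_h21 : chk3 (onCell 0 1073741824 0 429496730 0 67108864 T2_t1b_c1_d_n) x2_t1b_c1_d_n_t21 97 63 106 = true := by decide +kernel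

def x2_t1b_c1_d_n_t22 : T :=
  (.a (.b (.l 3015) (.c (.a (.b (.l 3015) (.c (.a (.b (.l 2951) (.c (.a (.b (.l 99) (.c (.a (.l
      99) (.l 15)) (.a (.l 99) (.l 15)))) (.l 15)) (.a (.b (.l 99) (.l 99)) (.l 15)))) (.l 15))
      (.a (.b (.l 2951) (.c (.a (.l 99) (.l 15)) (.a (.l 99) (.l 15)))) (.l 15)))) (.l 15)) (.a
      (.b (.l 2951) (.c (.a (.b (.l 2951) (.c (.a (.l 99) (.l 15)) (.a (.l 99) (.l 15)))) (.l
      15)) (.a (.b (.l 2951) (.c (.a (.l 99) (.l 15)) (.a (.l 99) (.l 15)))) (.l 15)))) (.l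
      15)))) (.l 15))

theorem x2_t1b_c1_d_n_h22 : chk3 (onCell 0 1073741824 0 429496730 0 67108864 T2_t1b_c1_d_n) x2_t1b_c1_d_n_t22 97 63 107 = true := by decide +kernel

def x2_t1b_c1_d_n_t23 : T :=
  (.b (.l 67) (.c (.a (.l 67) (.l 99)) (.a (.l 67) (.l 99))))

theorem x2_t1b_c1_d_n_h23 : chk3 (onCell 0 1073741824 0 429496730 0 67108864 T2_t1b_c1_d_n) x2_t1b_c1_d_n_t23 96 31 54 = true := by decide +kernel

def x2_t1b_c1_d_n_t24 : T :=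
  (.l 2887)

theorem x2_t1b_c1_d_n_h24 : chk3 (onCell 0 1073741824 0 429496730 0 67108864 T2_t1b_c1_d_n) x2_t1b_c1_d_n_t24 97 62 54 = true := by decide +kernel

def x2_t1b_c1_d_n_t25 : T :=
  (.a (.b (.l 2887) (.c (.a (.b (.l 2951) (.c (.a (.b (.l 2951) (.c (.a (.l 99) (.l 15)) (.a (.l
      99) (.l 15)))) (.l 15)) (.a (.b (.l 2951) (.c (.a (.l 99) (.l 15)) (.a (.l 99) (.l 15))))
      (.l 15)))) (.l 15)) (.a (.b (.l 2823) (.c (.a (.b (.l 2823) (.c (.a (.l 99) (.l 15)) (.a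
      (.l 99) (.l 15)))) (.l 15)) (.a (.b (.l 2823) (.c (.a (.l 99) (.l 15)) (.a (.l 99) (.l
      15)))) (.l 15)))) (.l 15)))) (.l 15))

theorem x2_t1b_c1_d_n_h25 : chk3 (onCell 0 1073741824 0 429496730 0 67108864 T2_t1b_c1_d_n) x2_t1b_c1_d_n_t25 97 63 108 = true := by decide +kernel

def x2_t1b_c1_d_n_t26 : T :=
  (.a (.b (.l 2823) (.c (.a (.b (.l 2823) (.c (.a (.b (.l 2823) (.c (.a (.l 99) (.l 15)) (.a (.l
      99) (.l 15)))) (.l 15)) (.a (.b (.l 2823) (.c (.a (.l 99) (.b (.l 2887) (.c (.l 15) (.a (.l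
      99) (.l 15))))) (.a (.l 99) (.b (.l 2887) (.c (.a (.l 99) (.l 15)) (.a (.l 99) (.l
      15))))))) (.l 15)))) (.l 15)) (.a (.b (.l 2823) (.c (.a (.b (.l 99) (.c (.a (.l 99) (.b (.l
      99) (.c (.a (.l 99) (.l 15)) (.a (.l 99) (.l 15))))) (.a (.l 99) (.b (.l 99) (.c (.l 99)
      (.l 99)))))) (.l 15)) (.a (.b (.l 99) (.c (.a (.l 67) (.b (.l 99) (.l 99))) (.a (.l 67) (.l
      99)))) (.l 15)))) (.l 15)))) (.l 15))

theorem x2_t1b_c1_d_n_h26 : chk3 (onCell 0 1073741824 0 429496730 0 67108864 T2_t1b_c1_d_n) x2_t1b_c1_d_n_t26 97 63 109 = true := by decide +kernel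

def x2_t1b_c1_d_n_t27 : T :=
  (.a (.b (.l 67) (.c (.a (.l 67) (.l 99)) (.l 99))) (.b (.l 2695) (.c (.a (.b (.l 2695) (.c (.a
      (.b (.l 2823) (.c (.a (.b (.l 99) (.c (.a (.l 67) (.l 99)) (.l 99))) (.l 15)) (.a (.l 99)
      (.l 15)))) (.l 15)) (.a (.b (.l 2695) (.c (.a (.l 99) (.l 15)) (.a (.l 99) (.l 15)))) (.l
      15)))) (.l 15)) (.a (.b (.l 2695) (.c (.a (.b (.l 2695) (.c (.a (.l 99) (.l 15)) (.a (.l
      99) (.l 15)))) (.l 15)) (.a (.b (.l 2695) (.c (.a (.l 99) (.l 15)) (.a (.l 99) (.b (.l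
      2759) (.c (.l 15) (.a (.b (.l 2759) (.c (.l 15) (.a (.l 99) (.l 15)))) (.l 15))))))) (.l
      15)))) (.l 15)))))

theorem x2_t1b_c1_d_n_h27 : chk3 (onCell 0 1073741824 0 429496730 0 67108864 T2_t1b_c1_d_n) x2_t1b_c1_d_n_t27 48 31 55 = true := by decide +kernel

def x2_t1b_c1_d_n_t28 : T :=
  (.l 15)

theorem x2_t1b_c1_d_n_h28 : chk3 (onCell 0 1073741824 0 429496730 0 67108864 T2_t1b_c1_d_n) x2_t1b_c1_d_n_t28 49 15 6 = true := by decide +kernel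

def x2_t1b_c1_d_n_t29 : T :=
  (.l 1927)

theorem x2_t1b_c1_d_n_h29 : chk3 (onCell 0 1073741824 0 429496730 0 67108864 T2_t1b_c1_d_n) x2_t1b_c1_d_n_t29 48 30 7 = true := by decide +kernel

def x2_t1b_c1_d_n_t30 : T :=
  (.b (.l 67) (.l 99))

theorem x2_t1b_c1_d_n_h30 : chk3 (onCell 0 1073741824 0 429496730 0 67108864 T2_t1b_c1_d_n) x2_t1b_c1_d_n_t30 96 31 56 = true := by decide +kernel

def x2_t1b_c1_d_n_t31 : T :=
  (.l 2567)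

theorem x2_t1b_c1_d_n_h31 : chk3 (onCell 0 1073741824 0 429496730 0 67108864 T2_t1b_c1_d_n) x2_t1b_c1_d_n_t31 97 62 56 = true := by decide +kernel

def x2_t1b_c1_d_n_t32 : T :=
  (.a (.b (.l 2567) (.c (.a (.b (.l 2695) (.c (.a (.l 99) (.b (.l 2759) (.c (.a (.b (.l 2759) (.c
      (.a (.l 99) (.l 15)) (.a (.l 99) (.l 15)))) (.l 15)) (.a (.b (.l 99) (.c (.a (.l 99) (.l
      15)) (.l 99))) (.l 15))))) (.a (.l 99) (.b (.l 2759) (.c (.a (.b (.l 99) (.l 99)) (.l 15))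
      (.a (.l 99) (.l 15))))))) (.l 15)) (.a (.b (.l 2567) (.c (.a (.l 99) (.b (.l 2695) (.c (.a
      (.l 99) (.l 15)) (.a (.l 99) (.l 15))))) (.a (.l 99) (.b (.l 2567) (.c (.a (.l 99) (.l 15))
      (.a (.l 99) (.l 15))))))) (.l 15)))) (.l 15))

theorem x2_t1b_c1_d_n_h32 : chk3 (onCell 0 1073741824 0 429496730 0 67108864 T2_t1b_c1_d_n) x2_t1b_c1_d_n_t32 97 63 112 = true := by decide +kernel

def x2_t1b_c1_d_n_t33 : T :=
  (.a (.b (.l 2567) (.c (.a (.b (.l 2567) (.c (.a (.l 67) (.b (.l 2567) (.c (.a (.l 99) (.l 15))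
      (.a (.l 99) (.l 15))))) (.a (.l 67) (.b (.l 2567) (.c (.a (.l 99) (.l 15)) (.a (.l 99) (.l
      15))))))) (.l 15)) (.a (.b (.l 2567) (.c (.a (.l 67) (.b (.l 2567) (.c (.a (.l 99) (.l 15))
      (.a (.l 99) (.l 15))))) (.a (.l 67) (.b (.l 2567) (.c (.a (.l 99) (.l 15)) (.a (.l 99) (.l
      15))))))) (.l 15)))) (.l 15))

theorem x2_t1b_c1_d_n_h33 : chk3 (onCell 0 1073741824 0 429496730 0 67108864 T2_t1b_c1_d_n) x2_t1b_c1_d_n_t33 97 63 113 = true := by decide +kernel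

def x2_t1b_c1_d_n_t34 : T :=
  (.a (.b (.l 67) (.l 67)) (.b (.l 2439) (.c (.a (.b (.l 2567) (.c (.a (.b (.l 2567) (.c (.a (.l
      67) (.b (.l 2567) (.c (.a (.l 99) (.l 15)) (.a (.l 99) (.l 15))))) (.a (.l 67) (.b (.l
      2567) (.c (.a (.l 99) (.l 15)) (.a (.l 99) (.l 15))))))) (.l 15)) (.a (.b (.l 2567) (.c (.a
      (.l 67) (.b (.l 2567) (.c (.a (.l 99) (.l 15)) (.a (.l 99) (.b (.l 99) (.c (.a (.l 99) (.l
      15)) (.l 99))))))) (.a (.l 67) (.b (.l 99) (.c (.a (.l 99) (.b (.l 99) (.l 99))) (.a (.l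
      99) (.l 99))))))) (.l 15)))) (.l 15)) (.a (.b (.l 2439) (.c (.a (.b (.l 99) (.c (.a (.l 67)
      (.b (.l 99) (.c (.a (.l 99) (.l 99)) (.l 99)))) (.a (.l 67) (.b (.l 99) (.l 99))))) (.l
      15)) (.a (.b (.l 99) (.a (.l 67) (.l 99))) (.l 15)))) (.l 15)))))

theorem x2_t1b_c1_d_n_h34 : chk3 (onCell 0 1073741824 0 429496730 0 67108864 T2_t1b_c1_d_n) x2_t1b_c1_d_n_t34 48 31 57 = true := by decide +kernel

def x2_t1b_c1_d_n_t35 : T :=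
  (.c (.b (.l 67) (.l 67)) (.b (.l 67) (.l 67)))

theorem x2_t1b_c1_d_n_h35 : chk3 (onCell 0 1073741824 0 429496730 0 67108864 T2_t1b_c1_d_n) x2_t1b_c1_d_n_t35 96 31 29 = true := by decide +kernel

def x2_t1b_c1_d_n_t36 : T :=
  (.b (.l 2311) (.c (.a (.b (.l 2439) (.c (.a (.b (.l 99) (.l 99)) (.l 15)) (.a (.l 99) (.l
      15)))) (.l 15)) (.a (.b (.l 2311) (.a (.l 99) (.c (.b (.l 2503) (.c (.l 15) (.a (.b (.l
      2503) (.c (.a (.b (.l 99) (.l 99)) (.l 15)) (.a (.b (.l 99) (.l 99)) (.l 15)))) (.l 15))))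
      (.b (.l 2375) (.c (.a (.b (.l 2503) (.c (.a (.l 99) (.l 15)) (.a (.l 99) (.l 15)))) (.l
      15)) (.a (.b (.l 2311) (.c (.a (.l 99) (.l 15)) (.a (.l 99) (.l 15)))) (.l 15))))))) (.l
      15))))

theorem x2_t1b_c1_d_n_h36 : chk3 (onCell 0 1073741824 0 429496730 0 67108864 T2_t1b_c1_d_n) x2_t1b_c1_d_n_t36 97 31 58 = true := by decide +kernel

def x2_t1b_c1_d_n_t37 : T :=
  (.b (.l 2311) (.a (.c (.b (.l 2311) (.a (.l 99) (.c (.b (.l 2375) (.a (.c (.b (.l 2311) (.a (.l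
      99) (.l 15))) (.b (.l 2311) (.a (.l 99) (.l 15)))) (.l 15))) (.b (.l 2311) (.a (.c (.b (.l
      2311) (.a (.l 99) (.l 15))) (.b (.l 2311) (.a (.l 99) (.l 15)))) (.l 15)))))) (.b (.l 2311)
      (.a (.l 99) (.c (.b (.l 2311) (.a (.c (.b (.l 2311) (.a (.l 99) (.l 15))) (.b (.l 2311) (.a
      (.l 99) (.l 15)))) (.l 15))) (.b (.l 2311) (.a (.c (.b (.l 2311) (.a (.l 99) (.l 15))) (.b
      (.l 99) (.a (.l 99) (.c (.l 15) (.b (.l 99) (.l 99)))))) (.l 15))))))) (.l 15)))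

theorem x2_t1b_c1_d_n_h37 : chk3 (onCell 0 1073741824 0 429496730 0 67108864 T2_t1b_c1_d_n) x2_t1b_c1_d_n_t37 97 31 59 = true := by decide +kernel

def x2_t1b_c1_d_n_t38 : T :=
  (.a (.c (.b (.l 67) (.l 67)) (.b (.l 67) (.l 67))) (.b (.l 2183) (.c (.a (.c (.b (.l 2183) (.a
      (.l 67) (.c (.b (.l 2311) (.a (.c (.b (.l 99) (.a (.l 99) (.l 99))) (.b (.l 99) (.l 99)))
      (.l 15))) (.b (.l 2183) (.a (.l 99) (.l 15)))))) (.b (.l 2183) (.a (.l 67) (.c (.b (.l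
      2183) (.a (.l 99) (.l 15))) (.b (.l 2183) (.a (.l 99) (.l 15))))))) (.l 15)) (.a (.c (.b
      (.l 2183) (.a (.l 67) (.c (.b (.l 2183) (.a (.l 99) (.l 15))) (.b (.l 2183) (.a (.l 99) (.c
      (.b (.l 2247) (.a (.l 99) (.l 15))) (.b (.l 2247) (.a (.l 99) (.l 15))))))))) (.b (.l 2183)
      (.a (.l 67) (.c (.b (.l 2183) (.a (.l 99) (.c (.b (.l 2247) (.a (.l 99) (.l 15))) (.b (.l
      2183) (.a (.l 99) (.l 15)))))) (.b (.l 2183) (.a (.l 99) (.c (.b (.l 2183) (.a (.l 99) (.l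
      15))) (.b (.l 2183) (.a (.l 99) (.l 15)))))))))) (.l 15)))))

theorem x2_t1b_c1_d_n_h38 : chk3 (onCell 0 1073741824 0 429496730 0 67108864 T2_t1b_c1_d_n) x2_t1b_c1_d_n_t38 48 31 30 = true := by decide +kernel

def x2_t1b_c1_d_n_t39 : T :=
  (.a (.b (.l 67) (.l 67)) (.c (.b (.l 2055) (.a (.c (.b (.l 2055) (.a (.l 67) (.c (.b (.l 2055)
      (.a (.l 67) (.c (.b (.l 2055) (.a (.l 99) (.l 15))) (.b (.l 2055) (.a (.l 99) (.l 15))))))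
      (.b (.l 2055) (.a (.l 67) (.c (.b (.l 2055) (.a (.l 99) (.l 15))) (.b (.l 99) (.a (.l 99)
      (.l 15))))))))) (.b (.l 99) (.a (.l 67) (.c (.b (.l 99) (.a (.l 67) (.c (.b (.l 99) (.a (.l
      99) (.l 15))) (.b (.l 99) (.a (.l 99) (.l 99)))))) (.b (.l 99) (.a (.l 67) (.c (.b (.l 99)
      (.l 99)) (.l 99)))))))) (.l 15))) (.b (.l 1927) (.a (.c (.b (.l 99) (.a (.l 67) (.c (.b (.l
      99) (.a (.l 67) (.l 99))) (.b (.l 99) (.l 99))))) (.b (.l 99) (.a (.l 67) (.l 99)))) (.c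
      (.l 15) (.b (.l 71) (.a (.c (.l 15) (.b (.l 71) (.a (.c (.l 15) (.b (.l 71) (.a (.l 99) (.l
      15)))) (.l 15)))) (.l 15))))))))

theorem x2_t1b_c1_d_n_h39 : chk3 (onCell 0 1073741824 0 429496730 0 67108864 T2_t1b_c1_d_n) x2_t1b_c1_d_n_t39 48 31 31 = true := by decide +kernel

def x2_t1b_c1_d_n_t40 : T :=
  (.l 15)

theorem x2_t1b_c1_d_n_h40 : chk3 (onCell 0 1073741824 0 429496730 0 67108864 T2_t1b_c1_d_n) x2_t1b_c1_d_n_t40 49 15 7 = true := by decide +kernel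

def x2_t1b_c1_d_n_t41 : T :=
  (.l 15)

theorem x2_t1b_c1_d_n_h41 : chk3 (onCell 0 1073741824 0 429496730 0 67108864 T2_t1b_c1_d_n) x2_t1b_c1_d_n_t41 25 7 3 = true := by decide +kernel

def x2_t1b_c1_d_n_t42 : T :=
  (.l 15)

theorem x2_t1b_c1_d_n_h42 : chk3 (onCell 0 1073741824 0 429496730 0 67108864 T2_t1b_c1_d_n) x2_t1b_c1_d_n_t42 13 3 1 = true := by decide +kernel

def x2_t1b_c1_d_n_t43 : T :=
  (.l 15)

theorem x2_t1b_c1_d_n_h43 : chk3 (onCell 0 1073741824 0 429496730 0 67108864 T2_t1b_c1_d_n) x2_t1b_c1_d_n_t43 7 3 1 = true := by decide +kernel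

theorem x2_t1b_c1_d_n : Tree 0 1073741824 0 429496730 0 67108864 T2_t1b_c1_d_n :=
  ⟨_, (chk3_a (chk3_a (chk3_b x2_t1b_c1_d_n_h0 x2_t1b_c1_d_n_h1) (chk3_b x2_t1b_c1_d_n_h2 (chk3_a
      x2_t1b_c1_d_n_h3 (chk3_b x2_t1b_c1_d_n_h4 (chk3_c x2_t1b_c1_d_n_h5 x2_t1b_c1_d_n_h6)))))
      (chk3_b x2_t1b_c1_d_n_h7 (chk3_a (chk3_a (chk3_b x2_t1b_c1_d_n_h8 (chk3_c x2_t1b_c1_d_n_h9
      (chk3_a (chk3_b x2_t1b_c1_d_n_h10 (chk3_c (chk3_a (chk3_b x2_t1b_c1_d_n_h11 (chk3_c (chk3_c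
      x2_t1b_c1_d_n_h12 (chk3_c x2_t1b_c1_d_n_h13 x2_t1b_c1_d_n_h14)) (chk3_c (chk3_c (chk3_a
      (chk3_b x2_t1b_c1_d_n_h15 (chk3_c x2_t1b_c1_d_n_h16 x2_t1b_c1_d_n_h17)) x2_t1b_c1_d_n_h18)
      (chk3_a x2_t1b_c1_d_n_h19 (chk3_b x2_t1b_c1_d_n_h20 (chk3_c x2_t1b_c1_d_n_h21
      x2_t1b_c1_d_n_h22)))) (chk3_c (chk3_a x2_t1b_c1_d_n_h23 (chk3_b x2_t1b_c1_d_n_h24 (chk3_c
      x2_t1b_c1_d_n_h25 x2_t1b_c1_d_n_h26))) x2_t1b_c1_d_n_h27)))) x2_t1b_c1_d_n_h28) (chk3_a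
      (chk3_b x2_t1b_c1_d_n_h29 (chk3_c (chk3_c (chk3_c (chk3_a x2_t1b_c1_d_n_h30 (chk3_b
      x2_t1b_c1_d_n_h31 (chk3_c x2_t1b_c1_d_n_h32 x2_t1b_c1_d_n_h33))) x2_t1b_c1_d_n_h34) (chk3_a
      x2_t1b_c1_d_n_h35 (chk3_c x2_t1b_c1_d_n_h36 x2_t1b_c1_d_n_h37))) (chk3_c x2_t1b_c1_d_n_h38
      x2_t1b_c1_d_n_h39))) x2_t1b_c1_d_n_h40))) x2_t1b_c1_d_n_h41))) x2_t1b_c1_d_n_h42)
      x2_t1b_c1_d_n_h43)))⟩

end Pool.Agent.Strip051.LC.E1.Ch
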