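import Pool.Agent.Strip051.LC.E1.Ch.Te

/-! # Rests near the full period: certificates P5 -/

set_option maxRecDepth 100000

namespace Pool.Agent.Strip051.LC.E1.Ch

open Pool.Agent.Strip051.PB
open Pool.Agent.Strip051.LC.E0.Ch (onCell Tree)

def x1_t1b_c1_u_f_t0 : T :=
  (.c (.b (.a (.c (.b (.a (.c (.b (.c (.l 81803) (.l 40843)) (.l 40843)) (.l 20363)) (.c (.b (.c
      (.l 81803) (.l 40843)) (.l 40843)) (.l 20363))) (.l 20363)) (.l 10123)) (.c (.b (.c (.a (.b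
      (.c (.l 81803) (.l 40843)) (.l 40843)) (.b (.c (.l 81803) (.l 40843)) (.l 40843))) (.l
      20363)) (.l 20363)) (.b (.c (.l 13579) (.l 10123)) (.l 10123)))) (.a (.l 10123) (.c (.l
      20363) (.l 10123)))) (.b (.a (.c (.l 6795) (.l 5003)) (.c (.b (.l 6795) (.l 6795)) (.l
      5003))) (.a (.c (.l 6795) (.l 5003)) (.c (.l 6795) (.b (.l 5003) (.l 5003))))))

theorem x1_t1b_c1_u_f_h0 : chk3 (onCell 0 2684354560 0 1073741824 0 26843546 T1_t1b_c1_u_f) x1_t1b_c1_u_f_t0 4 1 1 = true := by decide +kernel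

def x1_t1b_c1_u_f_t1 : T :=
  (.c (.a (.b (.c (.a (.b (.c (.a (.b (.l 163715) (.l 163715)) (.l 163715)) (.b (.l 81795) (.l
      81795))) (.l 81795)) (.b (.c (.a (.l 163715) (.l 163715)) (.b (.l 81795) (.l 81795))) (.l
      81795))) (.a (.b (.c (.l 54531) (.l 40835)) (.l 40835)) (.b (.c (.l 54531) (.l 40835)) (.l
      40835)))) (.c (.a (.l 81795) (.l 81795)) (.b (.l 40835) (.l 40835)))) (.b (.c (.a (.b (.c
      (.a (.l 163715) (.l 163715)) (.b (.l 81795) (.l 81795))) (.l 81795)) (.b (.c (.b (.l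
      163715) (.l 163715)) (.l 81795)) (.l 81795))) (.a (.b (.c (.l 54531) (.l 40835)) (.l
      40835)) (.b (.c (.l 54531) (.l 40835)) (.l 40835)))) (.c (.a (.l 81795) (.l 81795)) (.b (.l
      40835) (.l 40835))))) (.a (.b (.c (.a (.b (.l 27267) (.l 27267)) (.b (.l 27267) (.l
      27267))) (.b (.c (.l 23299) (.l 20355)) (.l 20355))) (.c (.b (.l 27267) (.l 27267)) (.b (.l
      20355) (.l 20355)))) (.b (.c (.a (.b (.l 27267) (.l 27267)) (.b (.l 27267) (.l 27267))) (.b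
      (.l 20355) (.l 20355))) (.c (.b (.l 27267) (.l 27267)) (.l 20355)))))

theorem x1_t1b_c1_u_f_h1 : chk3 (onCell 0 2684354560 0 1073741824 0 26843546 T1_t1b_c1_u_f) x1_t1b_c1_u_f_t1 10 4 4 = true := by decide +kernel

def x1_t1b_c1_u_f_t2 : T :=
  (.c (.a (.b (.c (.l 81795) (.l 40835)) (.l 40835)) (.b (.l 40835) (.l 40835))) (.a (.b (.l
      20355) (.l 20355)) (.b (.l 20355) (.l 20355))))

theorem x1_t1b_c1_u_f_h2 : chk3 (onCell 0 2684354560 0 1073741824 0 26843546 T1_t1b_c1_u_f) x1_t1b_c1_u_f_t2 10 5 4 = true := by decide +kernel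

def x1_t1b_c1_u_f_t3 : T :=
  (.b (.c (.a (.b (.c (.b (.l 16259) (.l 16259)) (.b (.l 13571) (.l 13571))) (.c (.l 16259) (.l
      13571))) (.b (.c (.b (.l 16259) (.l 16259)) (.b (.l 13571) (.l 13571))) (.c (.l 16259) (.l
      13571)))) (.a (.b (.c (.b (.l 11651) (.l 11651)) (.l 10115)) (.l 10115)) (.b (.c (.l 11651)
      (.l 10115)) (.l 10115)))) (.c (.a (.b (.l 13571) (.l 13571)) (.b (.l 13571) (.l 13571)))
      (.a (.b (.l 10115) (.l 10115)) (.b (.l 10115) (.l 10115)))))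

theorem x1_t1b_c1_u_f_h3 : chk3 (onCell 0 2684354560 0 1073741824 0 26843546 T1_t1b_c1_u_f) x1_t1b_c1_u_f_t3 10 2 5 = true := by decide +kernel

def x1_t1b_c1_u_f_t4 : T :=
  (.b (.c (.a (.b (.c (.a (.b (.c (.b (.l 163715) (.l 163715)) (.l 81795)) (.l 81795)) (.b (.c
      (.b (.l 163715) (.l 163715)) (.l 81795)) (.l 81795))) (.a (.b (.c (.l 54531) (.l 40835))
      (.l 40835)) (.b (.l 40835) (.l 40835)))) (.c (.b (.l 81795) (.l 81795)) (.b (.l 40835) (.l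
      40835)))) (.b (.c (.b (.a (.c (.b (.l 163715) (.l 163715)) (.l 81795)) (.c (.b (.l 163715)
      (.l 163715)) (.l 81795))) (.c (.l 163715) (.l 81795))) (.a (.b (.l 40835) (.l 40835)) (.b
      (.l 40835) (.l 40835)))) (.c (.b (.l 81795) (.l 81795)) (.l 40835)))) (.a (.b (.c (.b (.c
      (.l 32643) (.l 27267)) (.l 27267)) (.b (.l 20355) (.l 20355))) (.c (.l 27267) (.l 20355)))
      (.b (.c (.b (.c (.l 32643) (.l 27267)) (.l 27267)) (.b (.l 20355) (.l 20355))) (.c (.l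
      27267) (.l 20355))))) (.c (.a (.b (.l 40835) (.l 40835)) (.b (.l 40835) (.l 40835))) (.a
      (.b (.l 20355) (.l 20355)) (.b (.l 20355) (.l 20355)))))

theorem x1_t1b_c1_u_f_h4 : chk3 (onCell 0 2684354560 0 1073741824 0 26843546 T1_t1b_c1_u_f) x1_t1b_c1_u_f_t4 11 2 4 = true := by decide +kernel

def x1_t1b_c1_u_f_t5 : T :=
  (.b (.c (.a (.b (.c (.b (.l 16259) (.l 16259)) (.b (.l 13571) (.l 13571))) (.l 13571)) (.b (.c
      (.b (.l 16259) (.l 16259)) (.l 13571)) (.l 13571))) (.a (.b (.b (.l 10115) (.l 10115)) (.l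
      10115)) (.b (.l 3) (.l 10115)))) (.c (.a (.b (.l 13571) (.l 13571)) (.b (.l 13571) (.l
      13571))) (.b (.c (.l 11651) (.l 10115)) (.l 10115))))

theorem x1_t1b_c1_u_f_h5 : chk3 (onCell 0 2684354560 0 1073741824 0 26843546 T1_t1b_c1_u_f) x1_t1b_c1_u_f_t5 11 2 5 = true := by decide +kernel

def x1_t1b_c1_u_f_t6 : T :=
  (.a (.c (.b (.c (.a (.b (.b (.l 8067) (.l 8067)) (.l 8067)) (.b (.l 8067) (.l 8067))) (.a (.b
      (.l 6787) (.l 6787)) (.b (.l 6787) (.l 6787)))) (.a (.c (.b (.l 8067) (.l 8067)) (.c (.b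
      (.l 7427) (.l 7427)) (.l 6787))) (.c (.b (.l 8067) (.l 8067)) (.l 6787)))) (.b (.a (.c (.b
      (.l 5763) (.l 5763)) (.b (.l 4995) (.l 4995))) (.c (.b (.l 5763) (.l 5763)) (.c (.l 5379)
      (.l 4995)))) (.c (.a (.a (.l 5763) (.l 5763)) (.l 5763)) (.a (.l 4995) (.l 4995))))) (.c
      (.b (.c (.a (.b (.l 8067) (.l 8067)) (.b (.l 8067) (.l 8067))) (.b (.a (.l 6787) (.l 6787))
      (.a (.l 6787) (.l 6787)))) (.c (.b (.c (.l 9091) (.l 8067)) (.l 8067)) (.a (.l 6787) (.l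
      6787)))) (.b (.c (.b (.a (.l 5763) (.l 5763)) (.l 3)) (.b (.c (.l 5379) (.l 4995)) (.l
      4995))) (.c (.a (.l 5763) (.l 5763)) (.a (.l 4995) (.l 4995))))))

theorem x1_t1b_c1_u_f_h6 : chk3 (onCell 0 2684354560 0 1073741824 0 26843546 T1_t1b_c1_u_f) x1_t1b_c1_u_f_t6 5 2 3 = true := by decide +kernel

def x1_t1b_c1_u_f_t7 : T :=
  (.c (.a (.b (.c (.a (.b (.l 40835) (.l 40835)) (.l 40835)) (.a (.b (.l 20355) (.l 20355)) (.l
      20355))) (.a (.c (.l 40835) (.l 20355)) (.l 20355))) (.b (.c (.a (.l 40835) (.l 40835)) (.b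
      (.l 20355) (.l 20355))) (.c (.l 40835) (.a (.l 20355) (.l 20355))))) (.a (.b (.a (.c (.b
      (.l 13571) (.l 13571)) (.b (.l 10115) (.l 10115))) (.c (.l 13571) (.l 10115))) (.a (.c (.l
      13571) (.l 10115)) (.l 10115))) (.b (.c (.b (.l 13571) (.l 13571)) (.a (.l 10115) (.l
      10115))) (.c (.a (.l 13571) (.l 13571)) (.a (.l 10115) (.l 10115))))))

theorem x1_t1b_c1_u_f_h7 : chk3 (onCell 0 2684354560 0 1073741824 0 26843546 T1_t1b_c1_u_f) x1_t1b_c1_u_f_t7 5 3 2 = true := by decide +kernel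

def x1_t1b_c1_u_f_t8 : T :=
  (.a (.c (.b (.c (.a (.b (.l 8067) (.l 8067)) (.l 8067)) (.a (.l 6787) (.l 6787))) (.a (.c (.l
      8067) (.l 6787)) (.l 6787))) (.b (.a (.c (.l 5763) (.l 4995)) (.c (.l 5763) (.l 4995))) (.a
      (.a (.l 4995) (.l 4995)) (.l 4995)))) (.c (.b (.c (.a (.l 8067) (.l 8067)) (.a (.l 6787)
      (.l 6787))) (.c (.a (.l 8067) (.l 8067)) (.a (.l 6787) (.l 6787)))) (.b (.c (.a (.l 5763)
      (.l 5763)) (.a (.l 4995) (.l 4995))) (.c (.a (.l 5763) (.l 5763)) (.a (.l 4995) (.l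
      4995))))))

theorem x1_t1b_c1_u_f_h8 : chk3 (onCell 0 2684354560 0 1073741824 0 26843546 T1_t1b_c1_u_f) x1_t1b_c1_u_f_t8 5 3 3 = true := by decide +kernel

def x1_t1b_c1_u_f_t9 : T :=
  (.c (.b (.c (.b (.a (.c (.b (.a (.c (.b (.l 163715) (.l 163715)) (.l 81795)) (.c (.l 163715)
      (.l 81795))) (.l 81795)) (.b (.c (.b (.l 54531) (.l 54531)) (.l 40835)) (.l 40835))) (.c
      (.b (.a (.c (.l 163715) (.l 81795)) (.c (.l 163715) (.l 81795))) (.l 81795)) (.b (.c (.l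
      54531) (.l 40835)) (.l 40835)))) (.a (.c (.l 81795) (.l 40835)) (.c (.l 81795) (.l
      40835)))) (.a (.b (.c (.b (.l 27267) (.l 27267)) (.b (.l 20355) (.l 20355))) (.c (.l 27267)
      (.l 20355))) (.b (.c (.b (.l 27267) (.l 27267)) (.b (.l 20355) (.l 20355))) (.l 20355))))
      (.c (.a (.b (.l 40835) (.l 40835)) (.b (.l 40835) (.l 40835))) (.a (.b (.l 20355) (.l
      20355)) (.b (.l 20355) (.l 20355))))) (.b (.c (.a (.b (.c (.l 16259) (.l 13571)) (.l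
      13571)) (.b (.c (.l 16259) (.l 13571)) (.l 13571))) (.a (.b (.l 10115) (.l 10115)) (.b (.l
      10115) (.l 10115)))) (.c (.b (.c (.l 16259) (.l 13571)) (.l 13571)) (.b (.l 10115) (.l
      10115)))))

theorem x1_t1b_c1_u_f_h9 : chk3 (onCell 0 2684354560 0 1073741824 0 26843546 T1_t1b_c1_u_f) x1_t1b_c1_u_f_t9 12 2 2 = true := by decide +kernel

def x1_t1b_c1_u_f_t10 : T :=
  (.c (.b (.c (.b (.a (.c (.b (.a (.c (.l 163715) (.l 81795)) (.c (.l 163715) (.l 81795))) (.l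
      81795)) (.b (.c (.l 54531) (.l 40835)) (.l 40835))) (.c (.b (.a (.c (.l 163715) (.l 81795))
      (.c (.l 163715) (.l 81795))) (.l 81795)) (.b (.l 40835) (.l 40835)))) (.a (.c (.l 81795)
      (.l 40835)) (.c (.l 81795) (.l 40835)))) (.b (.a (.c (.b (.l 27267) (.l 27267)) (.l 20355))
      (.c (.b (.l 27267) (.l 27267)) (.l 20355))) (.c (.b (.l 27267) (.l 27267)) (.l 20355))))
      (.c (.b (.c (.l 81795) (.l 40835)) (.l 40835)) (.b (.l 20355) (.l 20355)))) (.b (.c (.b (.c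
      (.b (.l 16259) (.l 16259)) (.b (.l 13571) (.l 13571))) (.c (.l 16259) (.l 13571))) (.b (.c
      (.b (.l 11651) (.l 11651)) (.l 10115)) (.l 10115))) (.c (.b (.l 13571) (.l 13571)) (.b (.l
      10115) (.l 10115)))))

theorem x1_t1b_c1_u_f_h10 : chk3 (onCell 0 2684354560 0 1073741824 0 26843546 T1_t1b_c1_u_f) x1_t1b_c1_u_f_t10 13 2 2 = true := by decide +kernel

def x1_t1b_c1_u_f_t11 : T :=
  (.b (.c (.a (.c (.b (.a (.l 8067) (.l 8067)) (.l 3)) (.b (.l 3) (.l 6787))) (.c (.b (.l 3) (.l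
      8067)) (.b (.l 6787) (.l 6787)))) (.a (.c (.b (.l 5763) (.l 5763)) (.b (.l 4995) (.l
      4995))) (.c (.b (.l 5763) (.l 5763)) (.b (.l 4995) (.l 4995))))) (.c (.a (.c (.b (.l 8067)
      (.l 8067)) (.b (.l 6787) (.l 6787))) (.c (.b (.l 8067) (.l 8067)) (.b (.l 6787) (.l
      6787)))) (.a (.c (.a (.l 5763) (.l 5763)) (.a (.l 4995) (.l 4995))) (.b (.c (.l 5763) (.l
      4995)) (.l 4995)))))

theorem x1_t1b_c1_u_f_h11 : chk3 (onCell 0 2684354560 0 1073741824 0 26843546 T1_t1b_c1_u_f) x1_t1b_c1_u_f_t11 6 2 3 = true := by decide +kernel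

def x1_t1b_c1_u_f_t12 : T :=
  (.c (.a (.c (.b (.a (.c (.b (.c (.b (.l 163715) (.l 163715)) (.l 81795)) (.l 81795)) (.b (.l
      40835) (.l 40835))) (.c (.b (.c (.b (.l 163715) (.l 163715)) (.l 81795)) (.l 81795)) (.b
      (.l 40835) (.l 40835)))) (.c (.b (.l 81795) (.l 81795)) (.b (.l 40835) (.l 40835)))) (.b
      (.c (.b (.c (.l 32643) (.l 27267)) (.l 27267)) (.b (.l 20355) (.l 20355))) (.c (.l 27267)
      (.l 20355)))) (.c (.b (.a (.c (.b (.c (.b (.l 163715) (.l 163715)) (.l 81795)) (.l 81795))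
      (.b (.l 40835) (.l 40835))) (.c (.b (.c (.l 163715) (.l 81795)) (.l 81795)) (.l 40835)))
      (.c (.l 81795) (.l 40835))) (.b (.c (.b (.l 27267) (.l 27267)) (.b (.l 20355) (.l 20355)))
      (.l 20355)))) (.a (.c (.b (.c (.b (.l 16259) (.l 16259)) (.l 13571)) (.l 13571)) (.b (.l 3)
      (.l 10115))) (.c (.b (.c (.l 16259) (.l 13571)) (.l 13571)) (.b (.l 10115) (.l 10115)))))

theorem x1_t1b_c1_u_f_h12 : chk3 (onCell 0 2684354560 0 1073741824 0 26843546 T1_t1b_c1_u_f) x1_t1b_c1_u_f_t12 7 4 2 = true := by decide +kernel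

def x1_t1b_c1_u_f_t13 : T :=
  (.c (.a (.c (.b (.l 40835) (.l 40835)) (.b (.l 20355) (.l 20355))) (.c (.b (.l 40835) (.l
      40835)) (.b (.l 20355) (.l 20355)))) (.a (.c (.b (.l 13571) (.l 13571)) (.b (.l 10115) (.l
      10115))) (.c (.b (.l 13571) (.l 13571)) (.l 10115))))

theorem x1_t1b_c1_u_f_h13 : chk3 (onCell 0 2684354560 0 1073741824 0 26843546 T1_t1b_c1_u_f) x1_t1b_c1_u_f_t13 7 5 2 = true := by decide +kernel

def x1_t1b_c1_u_f_t14 : T :=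
  (.b (.c (.a (.c (.b (.l 8067) (.l 8067)) (.b (.l 6787) (.l 6787))) (.c (.b (.l 8067) (.l 8067))
      (.b (.l 6787) (.l 6787)))) (.a (.c (.b (.l 5763) (.l 5763)) (.b (.l 4995) (.l 4995))) (.b
      (.a (.c (.l 5763) (.l 4995)) (.c (.l 5763) (.l 4995))) (.a (.l 4995) (.c (.l 5763) (.l
      4995)))))) (.c (.a (.c (.b (.l 8067) (.l 8067)) (.l 6787)) (.c (.l 8067) (.l 6787))) (.a
      (.b (.c (.l 5763) (.l 4995)) (.c (.l 5763) (.l 4995))) (.b (.c (.l 5763) (.l 4995)) (.c (.l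
      5763) (.l 4995))))))

theorem x1_t1b_c1_u_f_h14 : chk3 (onCell 0 2684354560 0 1073741824 0 26843546 T1_t1b_c1_u_f) x1_t1b_c1_u_f_t14 7 2 3 = true := by decide +kernel

def x1_t1b_c1_u_f_t15 : T :=
  (.c (.c (.a (.b (.c (.b (.l 40835) (.l 40835)) (.b (.l 20355) (.l 20355))) (.c (.l 40835) (.l
      20355))) (.b (.c (.l 40835) (.l 20355)) (.l 20355))) (.a (.b (.c (.b (.l 13571) (.l 13571))
      (.b (.l 10115) (.l 10115))) (.c (.l 13571) (.l 10115))) (.b (.c (.l 13571) (.l 10115)) (.l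
      10115)))) (.c (.a (.b (.c (.b (.l 8067) (.l 8067)) (.l 3)) (.c (.l 8067) (.l 6787))) (.b
      (.c (.l 8067) (.l 6787)) (.l 6787))) (.a (.b (.a (.l 4995) (.l 4995)) (.c (.l 5763) (.a (.l
      4995) (.l 4995)))) (.b (.a (.l 4995) (.l 4995)) (.c (.l 5763) (.c (.l 5379) (.l 4995)))))))

theorem x1_t1b_c1_u_f_h15 : chk3 (onCell 0 2684354560 0 1073741824 0 26843546 T1_t1b_c1_u_f) x1_t1b_c1_u_f_t15 6 3 1 = true := by decide +kernel

def x1_t1b_c1_u_f_t16 : T :=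
  (.c (.c (.b (.a (.c (.l 40835) (.l 20355)) (.c (.l 40835) (.l 20355))) (.c (.l 40835) (.a (.l
      20355) (.l 20355)))) (.a (.b (.c (.l 13571) (.l 10115)) (.l 10115)) (.b (.c (.l 13571) (.l
      10115)) (.l 10115)))) (.c (.a (.b (.c (.l 8067) (.l 6787)) (.l 6787)) (.b (.b (.l 6787) (.l
      6787)) (.l 6787))) (.a (.b (.b (.c (.l 5763) (.l 4995)) (.c (.l 5763) (.l 4995))) (.c (.l
      5763) (.c (.l 5379) (.b (.l 4995) (.l 4995))))) (.b (.b (.c (.l 5763) (.l 4995)) (.c (.l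
      5763) (.l 4995))) (.c (.l 5763) (.b (.l 4995) (.l 4995)))))))

theorem x1_t1b_c1_u_f_h16 : chk3 (onCell 0 2684354560 0 1073741824 0 26843546 T1_t1b_c1_u_f) x1_t1b_c1_u_f_t16 7 3 1 = true := by decide +kernel

theorem x1_t1b_c1_u_f : Tree 0 2684354560 0 1073741824 0 26843546 T1_t1b_c1_u_f :=
  ⟨_, (chk3_a (chk3_a x1_t1b_c1_u_f_h0 (chk3_b (chk3_c (chk3_a (chk3_c (chk3_b x1_t1b_c1_u_f_h1
      x1_t1b_c1_u_f_h2) x1_t1b_c1_u_f_h3) (chk3_c x1_t1b_c1_u_f_h4 x1_t1b_c1_u_f_h5))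
      x1_t1b_c1_u_f_h6) (chk3_c x1_t1b_c1_u_f_h7 x1_t1b_c1_u_f_h8))) (chk3_b (chk3_a (chk3_c
      (chk3_a x1_t1b_c1_u_f_h9 x1_t1b_c1_u_f_h10) x1_t1b_c1_u_f_h11) (chk3_c (chk3_b
      x1_t1b_c1_u_f_h12 x1_t1b_c1_u_f_h13) x1_t1b_c1_u_f_h14)) (chk3_a x1_t1b_c1_u_f_h15
      x1_t1b_c1_u_f_h16)))⟩

def x2_t1b_c1_u_f_t0 : T :=
  (.c (.a (.c (.a (.c (.a (.b (.c (.a (.l 32643) (.l 32643)) (.l 16259)) (.a (.c (.l 32643) (.l
      16259)) (.l 16259))) (.b (.l 16259) (.l 16259))) (.a (.b (.c (.l 10883) (.l 3)) (.l 8067))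
      (.b (.l 8067) (.l 8067)))) (.b (.l 8067) (.l 8067))) (.a (.c (.b (.a (.l 3) (.l 5379)) (.l
      5379)) (.b (.a (.l 3) (.l 3971)) (.l 3971))) (.c (.b (.l 5379) (.l 5379)) (.b (.l 3971) (.l
      3971))))) (.c (.b (.l 8067) (.l 8067)) (.b (.l 3971) (.l 3971)))) (.a (.c (.a (.c (.b (.l
      3) (.l 3203)) (.b (.l 3) (.l 2691))) (.c (.b (.l 3203) (.l 3203)) (.b (.l 2691) (.l
      2691)))) (.a (.c (.b (.l 3) (.l 2307)) (.b (.l 3) (.b (.l 1923) (.l 1923)))) (.b (.c (.l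
      2307) (.l 3)) (.c (.l 2307) (.b (.l 1923) (.l 1923)))))) (.c (.a (.b (.l 2691) (.l 2691))
      (.b (.l 2691) (.l 2691))) (.a (.b (.l 1923) (.c (.l 2307) (.b (.l 1923) (.l 1923)))) (.b
      (.l 1923) (.b (.l 1923) (.c (.l 2307) (.l 1923))))))))

theorem x2_t1b_c1_u_f_h0 : chk3 (onCell 0 1073741824 0 429496730 0 67108864 T2_t1b_c1_u_f) x2_t1b_c1_u_f_t0 1 1 1 = true := by decide +kernel

theorem x2_t1b_c1_u_f : Tree 0 1073741824 0 429496730 0 67108864 T2_t1b_c1_u_f :=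
  ⟨_, x2_t1b_c1_u_f_h0⟩

def x1_t1b_c1_u_n_t0 : T :=
  (.b (.a (.b (.c (.l 10123) (.l 5003)) (.c (.l 10123) (.l 5003))) (.b (.c (.a (.l 10123) (.b (.c
      (.l 20363) (.l 10123)) (.c (.l 20363) (.l 10123)))) (.a (.l 5003) (.c (.l 6795) (.l
      5003)))) (.c (.a (.l 10123) (.l 10123)) (.a (.l 5003) (.c (.l 6795) (.l 5003)))))) (.a (.b
      (.c (.l 10123) (.l 5003)) (.c (.l 10123) (.l 5003))) (.b (.c (.l 10123) (.a (.l 5003) (.c
      (.l 6795) (.l 5003)))) (.c (.l 10123) (.a (.l 5003) (.c (.l 6795) (.a (.l 4995) (.l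
      4995))))))))

theorem x1_t1b_c1_u_n_h0 : chk3 (onCell 0 2684354560 0 1073741824 0 26843546 T1_t1b_c1_u_n) x1_t1b_c1_u_n_t0 4 1 1 = true := by decide +kernel

def x1_t1b_c1_u_n_t1 : T :=
  (.b (.c (.a (.b (.c (.a (.l 20355) (.l 20355)) (.c (.a (.l 13571) (.l 13571)) (.l 10115))) (.c
      (.c (.l 40835) (.l 20355)) (.c (.l 13571) (.l 10115)))) (.b (.c (.c (.b (.l 40835) (.l
      40835)) (.l 20355)) (.c (.l 13571) (.l 10115))) (.c (.c (.l 40835) (.l 20355)) (.l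
      10115)))) (.a (.c (.b (.c (.l 8067) (.l 6787)) (.l 6787)) (.a (.l 4995) (.l 4995))) (.c (.b
      (.l 6787) (.l 6787)) (.c (.b (.l 5763) (.l 5763)) (.b (.l 4995) (.l 4995)))))) (.c (.a (.b
      (.c (.l 20355) (.l 10115)) (.c (.l 20355) (.l 10115))) (.b (.c (.l 20355) (.l 10115)) (.c
      (.l 20355) (.l 10115)))) (.a (.c (.c (.b (.l 8067) (.l 8067)) (.b (.l 6787) (.l 6787))) (.a
      (.l 4995) (.l 4995))) (.c (.c (.b (.l 8067) (.l 8067)) (.b (.l 6787) (.l 6787))) (.c (.l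
      5763) (.l 4995))))))

theorem x1_t1b_c1_u_n_h1 : chk3 (onCell 0 2684354560 0 1073741824 0 26843546 T1_t1b_c1_u_n) x1_t1b_c1_u_n_t1 10 2 1 = true := by decide +kernel

def x1_t1b_c1_u_n_t2 : T :=
  (.b (.c (.a (.b (.c (.c (.l 40835) (.l 20355)) (.c (.l 13571) (.l 10115))) (.c (.l 20355) (.l
      10115))) (.b (.c (.c (.l 40835) (.l 20355)) (.c (.l 13571) (.l 10115))) (.c (.l 20355) (.l
      10115)))) (.a (.c (.c (.b (.l 8067) (.l 8067)) (.b (.l 6787) (.l 6787))) (.c (.c (.b (.l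
      6275) (.l 6275)) (.b (.l 5763) (.l 5763))) (.a (.l 4995) (.l 4995)))) (.c (.c (.b (.l 8067)
      (.l 8067)) (.b (.l 6787) (.l 6787))) (.a (.l 4995) (.l 4995))))) (.c (.a (.c (.b (.l 20355)
      (.l 20355)) (.c (.l 13571) (.b (.l 10115) (.l 10115)))) (.c (.b (.l 20355) (.l 20355)) (.c
      (.l 13571) (.l 10115)))) (.a (.c (.c (.b (.l 8067) (.l 8067)) (.b (.l 6787) (.l 6787))) (.c
      (.b (.l 5763) (.l 5763)) (.a (.l 4995) (.l 4995)))) (.c (.c (.l 8067) (.l 6787)) (.a (.l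
      4995) (.l 4995))))))

theorem x1_t1b_c1_u_n_h2 : chk3 (onCell 0 2684354560 0 1073741824 0 26843546 T1_t1b_c1_u_n) x1_t1b_c1_u_n_t2 11 2 1 = true := by decide +kernel

def x1_t1b_c1_u_n_t3 : T :=
  (.a (.b (.c (.a (.c (.b (.l 20355) (.l 20355)) (.c (.l 13571) (.b (.l 10115) (.l 10115)))) (.c
      (.b (.l 20355) (.l 20355)) (.c (.l 13571) (.l 10115)))) (.a (.c (.c (.b (.l 8067) (.l
      8067)) (.b (.l 6787) (.l 6787))) (.a (.l 4995) (.l 4995))) (.c (.c (.l 8067) (.l 6787)) (.b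
      (.l 4995) (.l 4995))))) (.c (.a (.c (.l 20355) (.c (.l 13571) (.l 10115))) (.c (.l 20355)
      (.l 10115))) (.a (.c (.c (.l 8067) (.l 6787)) (.a (.l 4995) (.l 4995))) (.c (.l 6787) (.c
      (.l 5763) (.l 4995)))))) (.b (.c (.a (.c (.l 20355) (.c (.l 13571) (.l 10115))) (.c (.l
      20355) (.l 10115))) (.a (.c (.c (.l 8067) (.l 6787)) (.a (.l 4995) (.l 4995))) (.c (.c (.l
      8067) (.l 6787)) (.c (.l 5763) (.l 4995))))) (.c (.a (.c (.l 20355) (.l 10115)) (.c (.l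
      20355) (.l 10115))) (.a (.c (.l 6787) (.a (.l 4995) (.l 4995))) (.c (.l 6787) (.l 4995))))))

theorem x1_t1b_c1_u_n_h3 : chk3 (onCell 0 2684354560 0 1073741824 0 26843546 T1_t1b_c1_u_n) x1_t1b_c1_u_n_t3 5 3 1 = true := by decide +kernel

def x1_t1b_c1_u_n_t4 : T :=
  (.a (.b (.c (.a (.b (.c (.c (.l 40835) (.l 20355)) (.l 10115)) (.c (.l 20355) (.l 10115))) (.b
      (.c (.l 20355) (.l 10115)) (.c (.l 20355) (.l 10115)))) (.c (.a (.c (.l 8067) (.l 6787))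
      (.c (.l 8067) (.l 6787))) (.a (.b (.l 4995) (.l 4995)) (.b (.l 4995) (.l 4995))))) (.c (.a
      (.c (.b (.l 20355) (.l 20355)) (.c (.l 13571) (.l 10115))) (.c (.l 20355) (.l 10115))) (.c
      (.a (.c (.l 8067) (.l 6787)) (.l 6787)) (.a (.c (.l 5763) (.l 4995)) (.b (.l 4995) (.l
      4995)))))) (.b (.c (.a (.b (.c (.l 20355) (.l 10115)) (.c (.l 20355) (.l 10115))) (.b (.c
      (.l 20355) (.l 10115)) (.c (.l 20355) (.l 10115)))) (.c (.a (.l 6787) (.l 6787)) (.c (.a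
      (.l 5763) (.l 5763)) (.a (.l 4995) (.l 4995))))) (.c (.a (.c (.l 20355) (.l 10115)) (.c (.l
      20355) (.l 10115))) (.c (.c (.a (.l 8067) (.l 8067)) (.a (.l 6787) (.l 6787))) (.c (.a (.l
      5763) (.l 5763)) (.a (.l 4995) (.l 4995)))))))

theorem x1_t1b_c1_u_n_h4 : chk3 (onCell 0 2684354560 0 1073741824 0 26843546 T1_t1b_c1_u_n) x1_t1b_c1_u_n_t4 6 2 1 = true := by decide +kernel

def x1_t1b_c1_u_n_t5 : T :=
  (.a (.b (.c (.a (.c (.l 20355) (.l 10115)) (.c (.l 20355) (.l 10115))) (.c (.a (.l 6787) (.l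
      6787)) (.a (.l 4995) (.l 4995)))) (.c (.c (.l 20355) (.a (.l 10115) (.l 10115))) (.c (.a
      (.l 6787) (.l 6787)) (.a (.l 4995) (.l 4995))))) (.b (.c (.c (.b (.l 20355) (.l 20355)) (.c
      (.l 13571) (.l 10115))) (.c (.c (.l 8067) (.l 6787)) (.c (.l 5763) (.a (.l 4995) (.l
      4995))))) (.c (.c (.l 20355) (.l 10115)) (.c (.c (.l 8067) (.l 6787)) (.c (.l 5763) (.a (.l
      4995) (.l 4995)))))))

theorem x1_t1b_c1_u_n_h5 : chk3 (onCell 0 2684354560 0 1073741824 0 26843546 T1_t1b_c1_u_n) x1_t1b_c1_u_n_t5 6 3 1 = true := by decide +kernel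

def x1_t1b_c1_u_n_t6 : T :=
  (.a (.b (.c (.a (.b (.c (.l 20355) (.l 10115)) (.c (.l 20355) (.l 10115))) (.b (.c (.l 20355)
      (.l 10115)) (.c (.l 20355) (.l 10115)))) (.c (.a (.l 6787) (.l 6787)) (.c (.c (.b (.l 6275)
      (.l 6275)) (.b (.l 5763) (.l 5763))) (.a (.l 4995) (.l 4995))))) (.c (.a (.c (.l 20355) (.l
      10115)) (.c (.l 20355) (.l 10115))) (.c (.c (.l 8067) (.b (.l 6787) (.l 6787))) (.c (.b (.l
      5763) (.l 5763)) (.a (.l 4995) (.l 4995)))))) (.b (.c (.a (.c (.c (.l 40835) (.l 20355))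
      (.l 10115)) (.c (.b (.l 20355) (.l 20355)) (.l 10115))) (.c (.c (.b (.l 8067) (.l 8067))
      (.b (.l 6787) (.l 6787))) (.c (.c (.b (.l 6275) (.l 6275)) (.b (.l 5763) (.l 5763))) (.c
      (.b (.l 5379) (.l 5379)) (.b (.l 4995) (.l 4995)))))) (.c (.a (.c (.l 20355) (.l 10115))
      (.c (.l 20355) (.l 10115))) (.c (.b (.l 6787) (.l 6787)) (.c (.c (.l 6275) (.l 5763)) (.c
      (.a (.l 5379) (.l 5379)) (.a (.l 4995) (.l 4995))))))))

theorem x1_t1b_c1_u_n_h6 : chk3 (onCell 0 2684354560 0 1073741824 0 26843546 T1_t1b_c1_u_n) x1_t1b_c1_u_n_t6 7 2 1 = true := by decide +kernel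

def x1_t1b_c1_u_n_t7 : T :=
  (.a (.b (.c (.c (.l 20355) (.c (.l 13571) (.l 10115))) (.c (.c (.l 8067) (.l 6787)) (.c (.l
      5763) (.b (.l 4995) (.l 4995))))) (.c (.c (.l 20355) (.l 10115)) (.c (.l 6787) (.c (.l
      5763) (.b (.l 4995) (.l 4995)))))) (.b (.c (.c (.l 20355) (.l 10115)) (.c (.c (.l 8067) (.l
      6787)) (.c (.b (.l 5763) (.l 5763)) (.b (.c (.l 5379) (.l 4995)) (.c (.l 5379) (.l
      4995)))))) (.c (.c (.l 20355) (.l 10115)) (.c (.c (.l 8067) (.l 6787)) (.c (.l 5763) (.b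
      (.a (.l 4995) (.l 4995)) (.l 4995)))))))

theorem x1_t1b_c1_u_n_h7 : chk3 (onCell 0 2684354560 0 1073741824 0 26843546 T1_t1b_c1_u_n) x1_t1b_c1_u_n_t7 7 3 1 = true := by decide +kernel

theorem x1_t1b_c1_u_n : Tree 0 2684354560 0 1073741824 0 26843546 T1_t1b_c1_u_n :=
  ⟨_, (chk3_a (chk3_a x1_t1b_c1_u_n_h0 (chk3_b (chk3_a x1_t1b_c1_u_n_h1 x1_t1b_c1_u_n_h2)
      x1_t1b_c1_u_n_h3)) (chk3_a (chk3_b x1_t1b_c1_u_n_h4 x1_t1b_c1_u_n_h5) (chk3_b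
      x1_t1b_c1_u_n_h6 x1_t1b_c1_u_n_h7)))⟩

def x2_t1b_c1_u_n_t0 : T :=
  (.c (.a (.c (.a (.b (.l 8067) (.a (.l 8067) (.l 8067))) (.b (.l 8067) (.l 8131))) (.a (.b (.a
      (.l 3971) (.l 3971)) (.c (.l 5443) (.l 4035))) (.b (.l 3971) (.l 4035)))) (.a (.c (.b (.l
      8067) (.l 8067)) (.b (.l 3971) (.l 3971))) (.c (.l 8131) (.b (.l 3971) (.l 3971))))) (.a
      (.c (.a (.b (.c (.l 3203) (.l 2691)) (.c (.l 3267) (.a (.l 2691) (.l 2691)))) (.b (.l 2691)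
      (.c (.l 3203) (.l 2691)))) (.a (.b (.b (.l 1923) (.l 1923)) (.b (.c (.l 2307) (.l 1923))
      (.c (.l 2307) (.c (.l 2179) (.l 1923))))) (.b (.b (.l 1923) (.l 1923)) (.b (.c (.l 2307)
      (.l 1923)) (.c (.l 2307) (.l 1923)))))) (.c (.b (.a (.l 2755) (.l 2755)) (.a (.l 2691) (.l
      2691))) (.a (.b (.b (.l 1923) (.l 1923)) (.b (.l 1923) (.c (.l 2307) (.l 1923)))) (.b (.b
      (.l 1923) (.l 1923)) (.b (.l 1923) (.c (.l 2307) (.l 1923))))))))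

theorem x2_t1b_c1_u_n_h0 : chk3 (onCell 0 1073741824 0 429496730 0 67108864 T2_t1b_c1_u_n) x2_t1b_c1_u_n_t0 1 1 1 = true := by decide +kernel

theorem x2_t1b_c1_u_n : Tree 0 1073741824 0 429496730 0 67108864 T2_t1b_c1_u_n :=
  ⟨_, x2_t1b_c1_u_n_h0⟩

end Pool.Agent.Strip051.LC.E1.Ch
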