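import Pool.Agent.Strip051.LC.E1.Ch.Te

/-! # Rests near the full period: certificates P6 -/

set_option maxRecDepth 100000

namespace Pool.Agent.Strip051.LC.E1.Ch

open Pool.Agent.Strip051.PB
open Pool.Agent.Strip051.LC.E0.Ch (onCell Tree)

def x1_t2a_W_f_t0 : T :=
  (.a (.a (.l 5067) (.b (.a (.l 5027) (.l 5027)) (.b (.l 5059) (.b (.l 5059) (.l 5059))))) (.b
      (.a (.l 5027) (.l 5059)) (.b (.a (.l 5059) (.l 5059)) (.a (.b (.l 5059) (.l 5059)) (.b (.l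
      5059) (.l 4995))))))

theorem x1_t2a_W_f_h0 : chk3 (onCell 0 2684354560 0 1073741824 0 26843546 T1_t2a_W_f) x1_t2a_W_f_t0 1 1 1 = true := by decide +kernel

theorem x1_t2a_W_f : Tree 0 2684354560 0 1073741824 0 26843546 T1_t2a_W_f :=
  ⟨_, x1_t2a_W_f_h0⟩

def x2_t2a_W_f_t0 : T :=
  (.a (.c (.l 4035) (.b (.l 1987) (.l 1987))) (.c (.a (.b (.l 4035) (.l 4035)) (.a (.b (.l 3971)
      (.l 4035)) (.b (.l 3971) (.l 3971)))) (.a (.b (.l 1987) (.l 1987)) (.a (.b (.b (.l 1923)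
      (.l 1923)) (.l 1987)) (.b (.b (.a (.l 1923) (.b (.a (.l 1923) (.l 1923)) (.l 1923))) (.l
      1923)) (.a (.l 1923) (.l 1923)))))))

theorem x2_t2a_W_f_h0 : chk3 (onCell 0 1073741824 0 429496730 0 67108864 T2_t2a_W_f) x2_t2a_W_f_t0 1 1 1 = true := by decide +kernel

theorem x2_t2a_W_f : Tree 0 1073741824 0 429496730 0 67108864 T2_t2a_W_f :=
  ⟨_, x2_t2a_W_f_h0⟩

def x1_t2a_W_n_t0 : T :=
  (.a (.a (.a (.l 5035) (.b (.l 5035) (.b (.l 5035) (.l 5067)))) (.b (.a (.b (.l 5027) (.l 5027))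
      (.l 5027)) (.a (.b (.l 5027) (.a (.l 5059) (.l 5059))) (.b (.l 5027) (.l 5059))))) (.b (.a
      (.b (.l 5027) (.l 5027)) (.b (.l 5027) (.l 5059))) (.a (.b (.l 5059) (.b (.l 5059) (.l
      5059))) (.b (.l 5059) (.b (.l 5059) (.b (.l 5059) (.l 4995)))))))

theorem x1_t2a_W_n_h0 : chk3 (onCell 0 2684354560 0 1073741824 0 26843546 T1_t2a_W_n) x1_t2a_W_n_t0 1 1 1 = true := by decide +kernel

theorem x1_t2a_W_n : Tree 0 2684354560 0 1073741824 0 26843546 T1_t2a_W_n :=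
  ⟨_, x1_t2a_W_n_h0⟩

def x2_t2a_W_n_t0 : T :=
  (.a (.b (.c (.l 4035) (.l 1987)) (.c (.l 4035) (.l 1987))) (.b (.c (.a (.l 4035) (.l 3971)) (.a
      (.l 1987) (.a (.l 1923) (.c (.l 2691) (.a (.l 1923) (.a (.l 1923) (.l 1923))))))) (.c (.l
      4035) (.a (.l 1987) (.a (.l 1987) (.b (.l 1923) (.l 1923)))))))

theorem x2_t2a_W_n_h0 : chk3 (onCell 0 1073741824 0 429496730 0 67108864 T2_t2a_W_n) x2_t2a_W_n_t0 1 1 1 = true := by decide +kernel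

theorem x2_t2a_W_n : Tree 0 1073741824 0 429496730 0 67108864 T2_t2a_W_n :=
  ⟨_, x2_t2a_W_n_h0⟩

def x1_t2a_c3_dd_f_t0 : T :=
  (.c (.a (.l 10183) (.c (.l 20423) (.l 10183))) (.a (.a (.l 5063) (.l 5063)) (.a (.c (.l 6855)
      (.b (.l 15) (.l 5063))) (.c (.b (.l 15) (.l 6855)) (.b (.l 15) (.l 5063))))))

theorem x1_t2a_c3_dd_f_h0 : chk3 (onCell 0 2684354560 0 1073741824 0 26843546 T1_t2a_c3_dd_f) x1_t2a_c3_dd_f_t0 1 1 1 = true := by decide +kernel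

theorem x1_t2a_c3_dd_f : Tree 0 2684354560 0 1073741824 0 26843546 T1_t2a_c3_dd_f :=
  ⟨_, x1_t2a_c3_dd_f_h0⟩

def x2_t2a_c3_dd_f_t0 : T :=
  (.b (.c (.a (.l 15) (.b (.l 4039) (.l 4039))) (.c (.a (.l 15) (.b (.l 2759) (.l 2759))) (.a (.l
      15) (.b (.l 1991) (.a (.l 1991) (.l 1991)))))) (.c (.c (.l 8135) (.a (.l 15) (.l 4039)))
      (.c (.a (.l 15) (.b (.l 2759) (.l 2759))) (.a (.l 15) (.b (.l 1991) (.l 1991))))))

theorem x2_t2a_c3_dd_f_h0 : chk3 (onCell 0 1073741824 0 429496730 0 67108864 T2_t2a_c3_dd_f) x2_t2a_c3_dd_f_t0 1 1 1 = true := by decide +kernel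

theorem x2_t2a_c3_dd_f : Tree 0 1073741824 0 429496730 0 67108864 T2_t2a_c3_dd_f :=
  ⟨_, x2_t2a_c3_dd_f_h0⟩

def x1_t2a_c3_dd_n_t0 : T :=
  (.b (.a (.a (.l 5063) (.c (.c (.l 20423) (.l 10183)) (.b (.l 15) (.l 15)))) (.a (.b (.l 15) (.l
      15)) (.b (.l 15) (.l 15)))) (.a (.c (.l 10183) (.l 5063)) (.b (.a (.c (.l 10183) (.l 5063))
      (.b (.a (.l 15) (.l 15)) (.l 5063))) (.a (.b (.l 5063) (.a (.l 5059) (.l 5059))) (.b (.a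
      (.l 5063) (.b (.l 5059) (.l 5027))) (.a (.l 5059) (.b (.l 5027) (.l 5059))))))))

theorem x1_t2a_c3_dd_n_h0 : chk3 (onCell 0 2684354560 0 1073741824 0 26843546 T1_t2a_c3_dd_n) x1_t2a_c3_dd_n_t0 1 1 1 = true := by decide +kernel

theorem x1_t2a_c3_dd_n : Tree 0 2684354560 0 1073741824 0 26843546 T1_t2a_c3_dd_n :=
  ⟨_, x1_t2a_c3_dd_n_h0⟩

def x2_t2a_c3_dd_n_t0 : T :=
  (.l 15)

theorem x2_t2a_c3_dd_n_h0 : chk3 (onCell 0 1073741824 0 429496730 0 67108864 T2_t2a_c3_dd_n) x2_t2a_c3_dd_n_t0 2 1 1 = true := by decide +kernel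

def x2_t2a_c3_dd_n_t1 : T :=
  (.a (.l 15) (.b (.c (.l 4039) (.l 1991)) (.c (.l 4039) (.c (.l 2759) (.l 1991)))))

theorem x2_t2a_c3_dd_n_h1 : chk3 (onCell 0 1073741824 0 429496730 0 67108864 T2_t2a_c3_dd_n) x2_t2a_c3_dd_n_t1 6 2 1 = true := by decide +kernel

def x2_t2a_c3_dd_n_t2 : T :=
  (.l 15)

theorem x2_t2a_c3_dd_n_h2 : chk3 (onCell 0 1073741824 0 429496730 0 67108864 T2_t2a_c3_dd_n) x2_t2a_c3_dd_n_t2 12 3 1 = true := by decide +kernel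

def x2_t2a_c3_dd_n_t3 : T :=
  (.c (.l 8135) (.a (.b (.l 4039) (.l 4039)) (.l 4039)))

theorem x2_t2a_c3_dd_n_h3 : chk3 (onCell 0 1073741824 0 429496730 0 67108864 T2_t2a_c3_dd_n) x2_t2a_c3_dd_n_t3 13 6 2 = true := by decide +kernel

def x2_t2a_c3_dd_n_t4 : T :=
  (.l 1991)

theorem x2_t2a_c3_dd_n_h4 : chk3 (onCell 0 1073741824 0 429496730 0 67108864 T2_t2a_c3_dd_n) x2_t2a_c3_dd_n_t4 26 12 3 = true := by decide +kernel

def x2_t2a_c3_dd_n_t5 : T :=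
  (.c (.c (.l 3655) (.a (.l 15) (.c (.l 3399) (.l 71)))) (.c (.c (.c (.a (.l 15) (.b (.l 3143)
      (.l 71))) (.a (.l 15) (.b (.l 3143) (.l 71)))) (.c (.a (.l 15) (.b (.l 3015) (.c (.l 3143)
      (.a (.l 3015) (.l 3011))))) (.a (.l 15) (.b (.l 3015) (.c (.a (.l 3015) (.l 3011)) (.a (.l
      3015) (.l 3011))))))) (.c (.a (.l 15) (.c (.b (.l 2887) (.a (.l 2887) (.l 2883))) (.b (.l
      2887) (.a (.l 2887) (.l 2883))))) (.a (.l 15) (.b (.l 2759) (.c (.a (.l 2759) (.l 2755))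
      (.a (.l 2759) (.l 2755))))))))

theorem x2_t2a_c3_dd_n_h5 : chk3 (onCell 0 1073741824 0 429496730 0 67108864 T2_t2a_c3_dd_n) x2_t2a_c3_dd_n_t5 26 13 6 = true := by decide +kernel

def x2_t2a_c3_dd_n_t6 : T :=
  (.c (.c (.c (.a (.l 15) (.b (.l 2631) (.c (.a (.l 2631) (.l 2627)) (.a (.l 2631) (.l 2627)))))
      (.a (.l 15) (.b (.l 2503) (.c (.a (.l 2631) (.l 2627)) (.a (.l 2503) (.l 2499)))))) (.c (.a
      (.l 15) (.b (.l 2375) (.c (.a (.l 2503) (.l 2499)) (.a (.l 2375) (.l 2371))))) (.a (.l 15)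
      (.b (.l 2375) (.c (.a (.l 2375) (.l 2371)) (.a (.l 2375) (.l 2371))))))) (.c (.c (.a (.l
      15) (.b (.l 2247) (.c (.a (.l 2247) (.l 2243)) (.a (.l 2247) (.l 2243))))) (.a (.l 15) (.b
      (.l 2247) (.c (.a (.l 2247) (.l 2243)) (.a (.l 2247) (.l 2243)))))) (.c (.a (.l 15) (.b (.l
      2119) (.c (.a (.l 2119) (.l 2115)) (.a (.l 2119) (.l 2115))))) (.a (.l 15) (.b (.l 1991)
      (.c (.a (.l 2119) (.l 2115)) (.a (.l 1991) (.l 1987))))))))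

theorem x2_t2a_c3_dd_n_h6 : chk3 (onCell 0 1073741824 0 429496730 0 67108864 T2_t2a_c3_dd_n) x2_t2a_c3_dd_n_t6 26 13 7 = true := by decide +kernel

def x2_t2a_c3_dd_n_t7 : T :=
  (.c (.b (.l 2755) (.b (.l 2755) (.l 2755))) (.c (.c (.b (.l 2499) (.c (.b (.l 2627) (.l 2627))
      (.b (.l 2499) (.l 2499)))) (.b (.l 2371) (.c (.b (.l 2371) (.l 2371)) (.b (.l 2371) (.l
      2371))))) (.c (.b (.l 2243) (.c (.b (.l 2243) (.l 2243)) (.b (.l 2243) (.l 2243)))) (.b (.l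
      1987) (.c (.b (.l 2115) (.l 2115)) (.a (.b (.l 1987) (.l 1987)) (.l 1987)))))))

theorem x2_t2a_c3_dd_n_h7 : chk3 (onCell 0 1073741824 0 429496730 0 67108864 T2_t2a_c3_dd_n) x2_t2a_c3_dd_n_t7 27 6 3 = true := by decide +kernel

def x2_t2a_c3_dd_n_t8 : T :=
  (.c (.c (.l 8135) (.a (.l 4039) (.b (.l 4035) (.l 4035)))) (.a (.c (.b (.l 2759) (.l 2759)) (.c
      (.c (.b (.l 2503) (.l 2503)) (.b (.l 2375) (.l 2375))) (.c (.b (.l 2247) (.l 2247)) (.b (.l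
      71) (.l 1991))))) (.b (.c (.c (.l 3267) (.c (.l 3011) (.l 2755))) (.c (.c (.c (.l 2627) (.b
      (.l 2499) (.l 2499))) (.c (.b (.l 2371) (.l 2371)) (.b (.l 2371) (.l 2371)))) (.c (.c (.b
      (.l 2243) (.l 2243)) (.b (.l 2243) (.l 2243))) (.b (.l 1987) (.l 1987))))) (.l 1987))))

theorem x2_t2a_c3_dd_n_h8 : chk3 (onCell 0 1073741824 0 429496730 0 67108864 T2_t2a_c3_dd_n) x2_t2a_c3_dd_n_t8 13 7 1 = true := by decide +kernel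

def x2_t2a_c3_dd_n_t9 : T :=
  (.b (.a (.b (.c (.l 4035) (.l 1991)) (.c (.l 4035) (.a (.a (.b (.l 1987) (.l 1987)) (.l 1987))
      (.l 1987)))) (.b (.c (.l 4035) (.l 1987)) (.c (.l 4035) (.l 1987)))) (.a (.b (.c (.a (.l
      4035) (.l 4035)) (.a (.a (.b (.l 1987) (.l 1987)) (.l 1987)) (.l 1987))) (.c (.a (.l 4035)
      (.l 4035)) (.a (.b (.l 1987) (.l 1987)) (.l 1987)))) (.b (.c (.l 4035) (.l 1987)) (.c (.l
      4035) (.l 1987)))))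

theorem x2_t2a_c3_dd_n_h9 : chk3 (onCell 0 1073741824 0 429496730 0 67108864 T2_t2a_c3_dd_n) x2_t2a_c3_dd_n_t9 7 1 1 = true := by decide +kernel

theorem x2_t2a_c3_dd_n : Tree 0 1073741824 0 429496730 0 67108864 T2_t2a_c3_dd_n :=
  ⟨_, (chk3_a x2_t2a_c3_dd_n_h0 (chk3_a (chk3_b x2_t2a_c3_dd_n_h1 (chk3_a x2_t2a_c3_dd_n_h2
      (chk3_b (chk3_c x2_t2a_c3_dd_n_h3 (chk3_a (chk3_b x2_t2a_c3_dd_n_h4 (chk3_c
      x2_t2a_c3_dd_n_h5 x2_t2a_c3_dd_n_h6)) x2_t2a_c3_dd_n_h7)) x2_t2a_c3_dd_n_h8)))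
      x2_t2a_c3_dd_n_h9))⟩

def x1_t2a_c3_du_f_t0 : T :=
  (.a (.a (.b (.l 5035) (.l 5035)) (.b (.a (.l 5027) (.l 5027)) (.a (.b (.l 5027) (.a (.l 5027)
      (.l 5027))) (.b (.l 5027) (.l 5027))))) (.b (.a (.a (.l 5027) (.l 5027)) (.b (.l 5027) (.l
      5027))) (.a (.b (.a (.l 5027) (.l 5027)) (.c (.l 10147) (.l 5027))) (.b (.l 5027) (.c (.l
      10147) (.l 5027))))))

theorem x1_t2a_c3_du_f_h0 : chk3 (onCell 0 2684354560 0 1073741824 0 26843546 T1_t2a_c3_du_f) x1_t2a_c3_du_f_t0 1 1 1 = true := by decide +kernel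

theorem x1_t2a_c3_du_f : Tree 0 2684354560 0 1073741824 0 26843546 T1_t2a_c3_du_f :=
  ⟨_, x1_t2a_c3_du_f_h0⟩

def x2_t2a_c3_du_f_t0 : T :=
  (.a (.c (.a (.l 4035) (.l 4035)) (.b (.l 1987) (.l 1955))) (.b (.c (.a (.l 4035) (.l 4035)) (.a
      (.l 1987) (.a (.l 1987) (.c (.l 2755) (.l 1987))))) (.c (.l 4035) (.a (.l 1955) (.a (.l
      1987) (.l 1987))))))

theorem x2_t2a_c3_du_f_h0 : chk3 (onCell 0 1073741824 0 429496730 0 67108864 T2_t2a_c3_du_f) x2_t2a_c3_du_f_t0 1 1 1 = true := by decide +kernel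

theorem x2_t2a_c3_du_f : Tree 0 1073741824 0 429496730 0 67108864 T2_t2a_c3_du_f :=
  ⟨_, x2_t2a_c3_du_f_h0⟩

def x1_t2a_c3_du_n_t0 : T :=
  (.a (.a (.b (.l 5067) (.l 5035)) (.b (.b (.a (.l 5027) (.l 5027)) (.a (.l 5027) (.l 5027))) (.b
      (.a (.l 5027) (.l 5027)) (.a (.b (.l 5027) (.l 5027)) (.b (.l 5027) (.l 5027)))))) (.b (.a
      (.b (.l 5027) (.l 5027)) (.b (.l 5027) (.l 5027))) (.b (.a (.a (.l 5027) (.l 5027)) (.a (.l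
      5027) (.l 5027))) (.a (.b (.l 5027) (.c (.l 10147) (.l 5027))) (.a (.b (.l 5027) (.l 5027))
      (.c (.l 10147) (.l 5027)))))))

theorem x1_t2a_c3_du_n_h0 : chk3 (onCell 0 2684354560 0 1073741824 0 26843546 T1_t2a_c3_du_n) x1_t2a_c3_du_n_t0 1 1 1 = true := by decide +kernel

theorem x1_t2a_c3_du_n : Tree 0 2684354560 0 1073741824 0 26843546 T1_t2a_c3_du_n :=
  ⟨_, x1_t2a_c3_du_n_h0⟩

def x2_t2a_c3_du_n_t0 : T :=
  (.a (.b (.c (.l 4035) (.l 1987)) (.c (.l 4003) (.l 1987))) (.b (.c (.a (.l 4035) (.l 4035)) (.a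
      (.a (.l 1987) (.l 1987)) (.a (.b (.l 1987) (.l 1987)) (.a (.b (.l 1987) (.l 1987)) (.b (.l
      1987) (.l 1987)))))) (.c (.a (.l 4035) (.l 4035)) (.a (.l 1987) (.a (.c (.l 2755) (.l
      1987)) (.a (.c (.l 2755) (.l 1987)) (.c (.l 2755) (.l 1987))))))))

theorem x2_t2a_c3_du_n_h0 : chk3 (onCell 0 1073741824 0 429496730 0 67108864 T2_t2a_c3_du_n) x2_t2a_c3_du_n_t0 1 1 1 = true := by decide +kernel

theorem x2_t2a_c3_du_n : Tree 0 1073741824 0 429496730 0 67108864 T2_t2a_c3_du_n :=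
  ⟨_, x2_t2a_c3_du_n_h0⟩

def x1_t2a_c3_u1_f_t0 : T :=
  (.c (.a (.c (.a (.b (.l 20395) (.l 20395)) (.l 20427)) (.a (.b (.l 10155) (.l 10155)) (.b (.l
      10187) (.l 10187)))) (.c (.b (.a (.l 20419) (.l 20419)) (.a (.l 20419) (.l 20419))) (.b (.a
      (.a (.l 10147) (.l 10147)) (.l 10179)) (.a (.a (.l 10179) (.l 10179)) (.l 10179))))) (.a
      (.c (.a (.b (.l 6827) (.l 6827)) (.b (.l 6859) (.l 6859))) (.a (.b (.l 5035) (.l 5035)) (.b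
      (.l 5067) (.l 5067)))) (.c (.b (.a (.a (.l 6819) (.l 6819)) (.l 6851)) (.a (.a (.l 6851)
      (.l 6851)) (.l 6851))) (.b (.a (.a (.l 5027) (.l 5027)) (.l 5059)) (.a (.a (.l 5059) (.l
      5059)) (.a (.l 5059) (.l 5059)))))))

theorem x1_t2a_c3_u1_f_h0 : chk3 (onCell 0 2684354560 0 1073741824 0 26843546 T1_t2a_c3_u1_f) x1_t2a_c3_u1_f_t0 2 1 1 = true := by decide +kernel

def x1_t2a_c3_u1_f_t1 : T :=
  (.c (.a (.c (.b (.l 20419) (.a (.l 20419) (.l 20419))) (.b (.a (.l 10179) (.l 10179)) (.a (.l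
      10179) (.l 10179)))) (.c (.b (.l 20419) (.l 20419)) (.b (.l 10179) (.a (.l 10179) (.l
      10179))))) (.a (.c (.b (.a (.l 6851) (.l 6851)) (.a (.l 6851) (.l 6851))) (.b (.a (.l 5059)
      (.l 5059)) (.a (.l 5059) (.l 5059)))) (.c (.b (.a (.l 6851) (.l 6851)) (.b (.l 6851) (.l
      6851))) (.b (.a (.c (.l 5827) (.l 5059)) (.b (.l 5027) (.a (.l 5027) (.l 5027)))) (.b (.a
      (.l 5059) (.a (.l 5027) (.l 5027))) (.a (.l 5059) (.b (.l 5059) (.l 5059))))))))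

theorem x1_t2a_c3_u1_f_h1 : chk3 (onCell 0 2684354560 0 1073741824 0 26843546 T1_t2a_c3_u1_f) x1_t2a_c3_u1_f_t1 3 1 1 = true := by decide +kernel

theorem x1_t2a_c3_u1_f : Tree 0 2684354560 0 1073741824 0 26843546 T1_t2a_c3_u1_f :=
  ⟨_, (chk3_a x1_t2a_c3_u1_f_h0 x1_t2a_c3_u1_f_h1)⟩

def x2_t2a_c3_u1_f_t0 : T :=
  (.c (.c (.l 8131) (.a (.l 4035) (.b (.l 4035) (.l 4035)))) (.c (.a (.b (.l 2755) (.l 2755)) (.b
      (.l 2755) (.l 2755))) (.a (.b (.b (.l 1987) (.l 1955)) (.l 1987)) (.b (.a (.l 1987) (.l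
      1987)) (.l 1987)))))

theorem x2_t2a_c3_u1_f_h0 : chk3 (onCell 0 1073741824 0 429496730 0 67108864 T2_t2a_c3_u1_f) x2_t2a_c3_u1_f_t0 1 1 1 = true := by decide +kernel

theorem x2_t2a_c3_u1_f : Tree 0 1073741824 0 429496730 0 67108864 T2_t2a_c3_u1_f :=
  ⟨_, x2_t2a_c3_u1_f_h0⟩

def x1_t2a_c3_u1_n_t0 : T :=
  (.a (.c (.a (.b (.l 20395) (.l 20395)) (.l 20427)) (.a (.b (.l 10155) (.l 10155)) (.b (.l
      10187) (.l 10187)))) (.c (.b (.a (.a (.l 20419) (.l 20387)) (.l 20419)) (.a (.c (.b (.l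
      40899) (.l 40899)) (.b (.l 20419) (.l 20419))) (.l 20419))) (.b (.a (.a (.l 10179) (.l
      10147)) (.a (.l 10179) (.l 10179))) (.a (.c (.b (.l 13635) (.l 13635)) (.b (.l 10179) (.l
      10179))) (.a (.l 10179) (.l 10179))))))

theorem x1_t2a_c3_u1_n_h0 : chk3 (onCell 0 2684354560 0 1073741824 0 26843546 T1_t2a_c3_u1_n) x1_t2a_c3_u1_n_t0 2 1 2 = true := by decide +kernel

def x1_t2a_c3_u1_n_t1 : T :=
  (.a (.c (.a (.b (.l 6827) (.l 6827)) (.b (.l 6859) (.l 6859))) (.a (.b (.l 5035) (.l 5035)) (.b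
      (.c (.a (.l 5835) (.l 5803)) (.a (.l 5067) (.l 5035))) (.c (.a (.l 5835) (.l 5835)) (.a (.l
      5067) (.l 5067)))))) (.c (.b (.a (.a (.l 6851) (.l 6819)) (.a (.l 6851) (.l 6851))) (.a (.c
      (.b (.l 8131) (.l 8131)) (.b (.l 6851) (.l 6851))) (.b (.l 6851) (.l 6851)))) (.b (.a (.a
      (.l 5059) (.l 5027)) (.a (.l 5059) (.l 5059))) (.a (.c (.b (.l 5827) (.a (.l 5795) (.l
      5795))) (.b (.a (.l 5027) (.l 5027)) (.a (.l 5027) (.l 5027)))) (.b (.c (.l 5827) (.a (.l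
      5027) (.l 5059))) (.a (.l 5059) (.l 5059)))))))

theorem x1_t2a_c3_u1_n_h1 : chk3 (onCell 0 2684354560 0 1073741824 0 26843546 T1_t2a_c3_u1_n) x1_t2a_c3_u1_n_t1 2 1 3 = true := by decide +kernel

def x1_t2a_c3_u1_n_t2 : T :=
  (.c (.a (.c (.b (.a (.l 20419) (.l 20419)) (.a (.l 20419) (.l 20419))) (.b (.a (.l 10179) (.l
      10179)) (.a (.l 10179) (.l 10179)))) (.c (.b (.a (.l 20419) (.l 20419)) (.a (.l 20419) (.l
      20419))) (.b (.a (.l 10179) (.l 10179)) (.a (.l 10179) (.l 10179))))) (.a (.c (.b (.a (.a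
      (.l 6851) (.l 6851)) (.a (.l 6851) (.l 6851))) (.a (.b (.l 6851) (.l 6851)) (.b (.l 6851)
      (.l 6851)))) (.b (.a (.b (.l 5059) (.l 5059)) (.b (.l 5059) (.l 5059))) (.a (.b (.l 5059)
      (.l 5059)) (.b (.l 5059) (.l 5059))))) (.c (.b (.a (.a (.l 6851) (.l 6851)) (.a (.l 6851)
      (.l 6851))) (.b (.a (.l 6851) (.l 6851)) (.a (.l 6851) (.l 6851)))) (.b (.a (.b (.a (.l
      5027) (.l 5027)) (.c (.l 5827) (.l 5059))) (.b (.a (.l 5059) (.l 5059)) (.a (.l 5059) (.l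
      5059)))) (.b (.a (.a (.l 5059) (.l 5059)) (.a (.l 5059) (.l 5059))) (.a (.b (.l 5059) (.l
      5059)) (.b (.a (.l 5059) (.l 5059)) (.a (.l 5059) (.l 5059)))))))))

theorem x1_t2a_c3_u1_n_h2 : chk3 (onCell 0 2684354560 0 1073741824 0 26843546 T1_t2a_c3_u1_n) x1_t2a_c3_u1_n_t2 3 1 1 = true := by decide +kernel

theorem x1_t2a_c3_u1_n : Tree 0 2684354560 0 1073741824 0 26843546 T1_t2a_c3_u1_n :=
  ⟨_, (chk3_a (chk3_c x1_t2a_c3_u1_n_h0 x1_t2a_c3_u1_n_h1) x1_t2a_c3_u1_n_h2)⟩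

def x2_t2a_c3_u1_n_t0 : T :=
  (.c (.a (.a (.b (.l 4035) (.l 4035)) (.b (.l 4035) (.l 4035))) (.a (.b (.l 4035) (.l 4035)) (.b
      (.l 4035) (.l 4035)))) (.a (.c (.a (.b (.l 2755) (.l 2755)) (.b (.l 2755) (.l 2755))) (.a
      (.b (.b (.l 1987) (.l 1955)) (.c (.l 2371) (.l 1955))) (.b (.b (.l 1987) (.l 1987)) (.b (.l
      1987) (.l 1955))))) (.c (.a (.b (.l 2755) (.l 2755)) (.b (.l 2755) (.l 2755))) (.c (.a (.b
      (.l 2371) (.l 2371)) (.b (.l 2371) (.l 2371))) (.a (.b (.l 1987) (.l 1987)) (.b (.l 1987)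
      (.l 1987)))))))

theorem x2_t2a_c3_u1_n_h0 : chk3 (onCell 0 1073741824 0 429496730 0 67108864 T2_t2a_c3_u1_n) x2_t2a_c3_u1_n_t0 1 1 1 = true := by decide +kernel

theorem x2_t2a_c3_u1_n : Tree 0 1073741824 0 429496730 0 67108864 T2_t2a_c3_u1_n :=
  ⟨_, x2_t2a_c3_u1_n_h0⟩

def x1_t2a_c3_u2_f_t0 : T :=
  (.a (.a (.l 5067) (.b (.b (.a (.l 5027) (.l 5027)) (.l 15)) (.l 15))) (.b (.a (.a (.l 5027) (.l
      5027)) (.a (.l 5027) (.l 5059))) (.l 15)))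

theorem x1_t2a_c3_u2_f_h0 : chk3 (onCell 0 2684354560 0 1073741824 0 26843546 T1_t2a_c3_u2_f) x1_t2a_c3_u2_f_t0 1 1 1 = true := by decide +kernel

theorem x1_t2a_c3_u2_f : Tree 0 2684354560 0 1073741824 0 26843546 T1_t2a_c3_u2_f :=
  ⟨_, x1_t2a_c3_u2_f_h0⟩

def x2_t2a_c3_u2_f_t0 : T :=
  (.a (.a (.c (.l 4035) (.b (.l 1955) (.l 1955))) (.l 15)) (.l 15))

theorem x2_t2a_c3_u2_f_h0 : chk3 (onCell 0 1073741824 0 429496730 0 67108864 T2_t2a_c3_u2_f) x2_t2a_c3_u2_f_t0 1 1 1 = true := by decide +kernel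

theorem x2_t2a_c3_u2_f : Tree 0 1073741824 0 429496730 0 67108864 T2_t2a_c3_u2_f :=
  ⟨_, x2_t2a_c3_u2_f_h0⟩

def x1_t2a_c3_u2_n_t0 : T :=
  (.a (.a (.l 5067) (.b (.b (.a (.l 5027) (.l 5027)) (.l 15)) (.l 15))) (.b (.a (.b (.l 5027) (.l
      15)) (.a (.l 5059) (.l 5059))) (.l 15)))

theorem x1_t2a_c3_u2_n_h0 : chk3 (onCell 0 2684354560 0 1073741824 0 26843546 T1_t2a_c3_u2_n) x1_t2a_c3_u2_n_t0 1 1 1 = true := by decide +kernel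

theorem x1_t2a_c3_u2_n : Tree 0 2684354560 0 1073741824 0 26843546 T1_t2a_c3_u2_n :=
  ⟨_, x1_t2a_c3_u2_n_h0⟩

def x2_t2a_c3_u2_n_t0 : T :=
  (.a (.a (.c (.l 4035) (.b (.l 1987) (.l 1987))) (.l 15)) (.l 15))

theorem x2_t2a_c3_u2_n_h0 : chk3 (onCell 0 1073741824 0 429496730 0 67108864 T2_t2a_c3_u2_n) x2_t2a_c3_u2_n_t0 1 1 1 = true := by decide +kernel

theorem x2_t2a_c3_u2_n : Tree 0 1073741824 0 429496730 0 67108864 T2_t2a_c3_u2_n :=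
  ⟨_, x2_t2a_c3_u2_n_h0⟩

def x1_t2b_W_d_f_t0 : T :=
  (.a (.a (.l 5067) (.b (.a (.l 5027) (.l 5027)) (.b (.l 5059) (.b (.l 5059) (.l 5059))))) (.b
      (.a (.l 5027) (.l 5059)) (.b (.a (.l 5059) (.l 5059)) (.a (.b (.l 5059) (.l 5059)) (.b (.l
      5059) (.l 4995))))))

theorem x1_t2b_W_d_f_h0 : chk3 (onCell 0 2684354560 0 1073741824 0 26843546 T1_t2b_W_d_f) x1_t2b_W_d_f_t0 1 1 1 = true := by decide +kernel

theorem x1_t2b_W_d_f : Tree 0 2684354560 0 1073741824 0 26843546 T1_t2b_W_d_f :=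
  ⟨_, x1_t2b_W_d_f_h0⟩

def x2_t2b_W_d_f_t0 : T :=
  (.a (.c (.l 4035) (.b (.l 1987) (.l 1987))) (.c (.a (.b (.l 4035) (.l 4035)) (.a (.b (.l 3971)
      (.l 4035)) (.b (.l 3971) (.l 3971)))) (.a (.b (.l 1987) (.l 1987)) (.a (.b (.b (.l 1923)
      (.l 1923)) (.l 1987)) (.b (.b (.a (.l 1923) (.b (.a (.l 1923) (.l 1923)) (.l 1923))) (.l
      1923)) (.a (.l 1923) (.l 1923)))))))

theorem x2_t2b_W_d_f_h0 : chk3 (onCell 0 1073741824 0 429496730 0 67108864 T2_t2b_W_d_f) x2_t2b_W_d_f_t0 1 1 1 = true := by decide +kernel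

theorem x2_t2b_W_d_f : Tree 0 1073741824 0 429496730 0 67108864 T2_t2b_W_d_f :=
  ⟨_, x2_t2b_W_d_f_h0⟩

def x1_t2b_W_d_n_t0 : T :=
  (.a (.a (.a (.l 5035) (.b (.l 5035) (.b (.l 5035) (.l 5067)))) (.b (.a (.b (.l 5027) (.l 5027))
      (.l 5027)) (.a (.b (.l 5027) (.a (.l 5059) (.l 5059))) (.b (.l 5027) (.l 5059))))) (.b (.a
      (.b (.l 5027) (.l 5027)) (.b (.l 5027) (.l 5059))) (.a (.b (.l 5059) (.b (.l 5059) (.l
      5059))) (.b (.l 5059) (.b (.l 5059) (.b (.l 5059) (.l 4995)))))))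

theorem x1_t2b_W_d_n_h0 : chk3 (onCell 0 2684354560 0 1073741824 0 26843546 T1_t2b_W_d_n) x1_t2b_W_d_n_t0 1 1 1 = true := by decide +kernel

theorem x1_t2b_W_d_n : Tree 0 2684354560 0 1073741824 0 26843546 T1_t2b_W_d_n :=
  ⟨_, x1_t2b_W_d_n_h0⟩

def x2_t2b_W_d_n_t0 : T :=
  (.a (.b (.c (.l 4035) (.l 1987)) (.c (.l 4035) (.l 1987))) (.b (.c (.a (.l 4035) (.l 3971)) (.a
      (.l 1987) (.a (.l 1923) (.c (.l 2691) (.a (.l 1923) (.a (.l 1923) (.l 1923))))))) (.c (.l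
      4035) (.a (.l 1987) (.a (.l 1987) (.b (.l 1923) (.l 1923)))))))

theorem x2_t2b_W_d_n_h0 : chk3 (onCell 0 1073741824 0 429496730 0 67108864 T2_t2b_W_d_n) x2_t2b_W_d_n_t0 1 1 1 = true := by decide +kernel

theorem x2_t2b_W_d_n : Tree 0 1073741824 0 429496730 0 67108864 T2_t2b_W_d_n :=
  ⟨_, x2_t2b_W_d_n_h0⟩

def x1_t2b_W_u_f_t0 : T :=
  (.a (.a (.l 5035) (.b (.b (.a (.l 5027) (.l 5027)) (.l 15)) (.l 15))) (.b (.a (.a (.l 5027) (.l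
      5027)) (.b (.l 5027) (.l 15))) (.l 15)))

theorem x1_t2b_W_u_f_h0 : chk3 (onCell 0 2684354560 0 1073741824 0 26843546 T1_t2b_W_u_f) x1_t2b_W_u_f_t0 1 1 1 = true := by decide +kernel

theorem x1_t2b_W_u_f : Tree 0 2684354560 0 1073741824 0 26843546 T1_t2b_W_u_f :=
  ⟨_, x1_t2b_W_u_f_h0⟩

def x2_t2b_W_u_f_t0 : T :=
  (.a (.c (.a (.l 4035) (.l 15)) (.b (.l 1987) (.l 1987))) (.l 15))

theorem x2_t2b_W_u_f_h0 : chk3 (onCell 0 1073741824 0 429496730 0 67108864 T2_t2b_W_u_f) x2_t2b_W_u_f_t0 1 1 1 = true := by decide +kernel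

theorem x2_t2b_W_u_f : Tree 0 1073741824 0 429496730 0 67108864 T2_t2b_W_u_f :=
  ⟨_, x2_t2b_W_u_f_h0⟩

def x1_t2b_W_u_n_t0 : T :=
  (.a (.a (.l 5067) (.b (.b (.a (.l 5027) (.l 5027)) (.l 15)) (.l 15))) (.b (.a (.a (.b (.l 5027)
      (.l 15)) (.l 5027)) (.b (.l 5027) (.l 15))) (.l 15)))

theorem x1_t2b_W_u_n_h0 : chk3 (onCell 0 2684354560 0 1073741824 0 26843546 T1_t2b_W_u_n) x1_t2b_W_u_n_t0 1 1 1 = true := by decide +kernel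

theorem x1_t2b_W_u_n : Tree 0 2684354560 0 1073741824 0 26843546 T1_t2b_W_u_n :=
  ⟨_, x1_t2b_W_u_n_h0⟩

def x2_t2b_W_u_n_t0 : T :=
  (.a (.a (.c (.l 4035) (.b (.l 1987) (.l 1987))) (.l 15)) (.l 15))

theorem x2_t2b_W_u_n_h0 : chk3 (onCell 0 1073741824 0 429496730 0 67108864 T2_t2b_W_u_n) x2_t2b_W_u_n_t0 1 1 1 = true := by decide +kernel

theorem x2_t2b_W_u_n : Tree 0 1073741824 0 429496730 0 67108864 T2_t2b_W_u_n :=
  ⟨_, x2_t2b_W_u_n_h0⟩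

def x1_t2b_c1_dd_f_t0 : T :=
  (.a (.a (.a (.l 4999) (.l 5063)) (.a (.l 5063) (.l 5063))) (.a (.a (.b (.l 15) (.l 4999)) (.b
      (.l 15) (.b (.l 4999) (.l 4999)))) (.a (.b (.l 15) (.b (.c (.l 10119) (.l 4999)) (.b (.l
      4999) (.l 4995)))) (.b (.l 15) (.b (.c (.l 10119) (.l 4999)) (.b (.b (.l 4999) (.l 4995))
      (.l 4995)))))))

theorem x1_t2b_c1_dd_f_h0 : chk3 (onCell 0 2684354560 0 1073741824 0 26843546 T1_t2b_c1_dd_f) x1_t2b_c1_dd_f_t0 1 1 1 = true := by decide +kernel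

theorem x1_t2b_c1_dd_f : Tree 0 2684354560 0 1073741824 0 26843546 T1_t2b_c1_dd_f :=
  ⟨_, x1_t2b_c1_dd_f_h0⟩

def x2_t2b_c1_dd_f_t0 : T :=
  (.b (.a (.l 15) (.c (.b (.b (.l 3975) (.l 3975)) (.l 4039)) (.b (.a (.b (.l 1927) (.l 1927))
      (.b (.c (.a (.l 2691) (.l 2691)) (.a (.l 1927) (.b (.l 1923) (.l 1923)))) (.a (.c (.l 2691)
      (.l 1927)) (.l 1923)))) (.a (.c (.l 2695) (.c (.l 2311) (.l 1927))) (.a (.c (.l 2695) (.b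
      (.l 1923) (.l 1923))) (.c (.l 2691) (.b (.l 1923) (.l 1923)))))))) (.a (.l 15) (.c (.b (.l
      4039) (.l 4039)) (.a (.b (.c (.l 2695) (.l 1927)) (.c (.l 2695) (.c (.l 2311) (.l 7)))) (.a
      (.b (.c (.l 2691) (.l 7)) (.c (.l 2691) (.a (.l 1923) (.l 1923)))) (.b (.c (.l 2691) (.l
      1923)) (.l 1923)))))))

theorem x2_t2b_c1_dd_f_h0 : chk3 (onCell 0 1073741824 0 429496730 0 67108864 T2_t2b_c1_dd_f) x2_t2b_c1_dd_f_t0 1 1 1 = true := by decide +kernel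

theorem x2_t2b_c1_dd_f : Tree 0 1073741824 0 429496730 0 67108864 T2_t2b_c1_dd_f :=
  ⟨_, x2_t2b_c1_dd_f_h0⟩

def x1_t2b_c1_dd_n_t0 : T :=
  (.a (.a (.b (.l 79) (.c (.a (.l 10151) (.l 10183)) (.a (.l 5031) (.l 5063)))) (.b (.a (.l 5063)
      (.l 15)) (.a (.l 5063) (.l 5063)))) (.a (.b (.c (.a (.l 15) (.l 15)) (.a (.l 15) (.l 15)))
      (.b (.a (.l 4999) (.c (.l 10119) (.a (.c (.l 6791) (.l 4999)) (.c (.l 6791) (.l 4999)))))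
      (.c (.l 10183) (.a (.c (.l 6791) (.l 4999)) (.c (.l 6791) (.l 4999)))))) (.b (.c (.l 15)
      (.l 15)) (.b (.c (.a (.l 10119) (.c (.l 20423) (.l 10183))) (.a (.c (.l 6791) (.c (.l 5767)
      (.l 7))) (.c (.l 6855) (.c (.l 5831) (.c (.l 71) (.a (.l 5063) (.l 71))))))) (.c (.a (.b
      (.l 10115) (.l 10115)) (.b (.l 10115) (.l 10115))) (.a (.b (.b (.b (.l 4995) (.l 4995)) (.l
      4995)) (.l 4995)) (.b (.b (.b (.l 4995) (.l 4995)) (.l 4995)) (.a (.l 4995) (.l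
      4995)))))))))

theorem x1_t2b_c1_dd_n_h0 : chk3 (onCell 0 2684354560 0 1073741824 0 26843546 T1_t2b_c1_dd_n) x1_t2b_c1_dd_n_t0 1 1 1 = true := by decide +kernel

theorem x1_t2b_c1_dd_n : Tree 0 2684354560 0 1073741824 0 26843546 T1_t2b_c1_dd_n :=
  ⟨_, x1_t2b_c1_dd_n_h0⟩

def x1_t2b_c1_du_f_t0 : T :=
  (.a (.b (.a (.c (.l 10123) (.l 5003)) (.c (.l 10123) (.l 5003))) (.l 5003)) (.b (.b (.c (.c (.l
      20427) (.l 10187)) (.l 5067)) (.c (.l 10123) (.l 5003))) (.b (.l 5003) (.l 5003))))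

theorem x1_t2b_c1_du_f_h0 : chk3 (onCell 0 2684354560 0 1073741824 0 26843546 T1_t2b_c1_du_f) x1_t2b_c1_du_f_t0 4 1 1 = true := by decide +kernel

def x1_t2b_c1_du_f_t1 : T :=
  (.b (.a (.c (.b (.c (.b (.a (.c (.l 40899) (.l 20419)) (.c (.l 40899) (.l 20419))) (.a (.l
      20419) (.l 20419))) (.b (.c (.l 13635) (.l 10179)) (.l 10179))) (.c (.b (.l 20419) (.l
      20419)) (.a (.l 10179) (.l 10179)))) (.b (.c (.a (.l 6851) (.l 6851)) (.a (.l 5059) (.l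
      5059))) (.c (.a (.l 6851) (.l 6851)) (.a (.l 5059) (.l 5059))))) (.c (.b (.c (.b (.c (.b
      (.l 40867) (.l 40899)) (.l 20419)) (.l 20419)) (.b (.c (.l 13635) (.l 10179)) (.l 10179)))
      (.c (.b (.l 20419) (.l 20419)) (.a (.l 10179) (.l 10179)))) (.b (.c (.a (.l 6851) (.l
      6851)) (.a (.l 5059) (.l 5059))) (.c (.l 6851) (.l 5059))))) (.b (.a (.c (.a (.l 10179) (.l
      10179)) (.a (.l 5059) (.l 5059))) (.c (.l 10179) (.a (.l 4995) (.l 5059)))) (.a (.b (.l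
      5059) (.l 4995)) (.b (.l 5059) (.l 5059)))))

theorem x1_t2b_c1_du_f_h1 : chk3 (onCell 0 2684354560 0 1073741824 0 26843546 T1_t2b_c1_du_f) x1_t2b_c1_du_f_t1 5 1 1 = true := by decide +kernel

def x1_t2b_c1_du_f_t2 : T :=
  (.b (.c (.c (.a (.b (.c (.b (.l 40867) (.l 40867)) (.l 20387)) (.l 20387)) (.b (.c (.l 40867)
      (.l 20387)) (.l 20387))) (.a (.c (.b (.l 13603) (.l 13603)) (.b (.l 10147) (.l 10147))) (.b
      (.c (.l 13603) (.l 10147)) (.l 10147)))) (.a (.c (.c (.b (.l 8099) (.l 8099)) (.b (.l 6819)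
      (.l 6819))) (.a (.l 5059) (.b (.l 5027) (.l 5027)))) (.c (.b (.c (.l 8099) (.l 6819)) (.l
      6819)) (.c (.b (.l 5795) (.l 5795)) (.b (.b (.l 5027) (.l 5027)) (.l 5027)))))) (.c (.a (.c
      (.l 20419) (.l 10179)) (.b (.c (.l 20387) (.l 10147)) (.l 10179))) (.a (.c (.l 6851) (.l
      5059)) (.c (.b (.l 6819) (.l 6851)) (.b (.l 5059) (.l 5059))))))

theorem x1_t2b_c1_du_f_h2 : chk3 (onCell 0 2684354560 0 1073741824 0 26843546 T1_t2b_c1_du_f) x1_t2b_c1_du_f_t2 6 2 1 = true := by decide +kernel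

def x1_t2b_c1_du_f_t3 : T :=
  (.c (.c (.a (.b (.c (.l 40867) (.l 20387)) (.l 20387)) (.b (.c (.l 40867) (.l 20387)) (.l
      20387))) (.a (.b (.c (.l 13603) (.c (.l 11683) (.l 10147))) (.c (.l 13603) (.l 10147))) (.b
      (.c (.b (.l 13603) (.l 13603)) (.c (.l 11683) (.l 10147))) (.c (.l 13603) (.l 10147)))))
      (.a (.c (.b (.c (.l 35) (.b (.l 6819) (.l 6819))) (.c (.l 8099) (.l 6819))) (.b (.c (.b (.l
      35) (.l 5795)) (.b (.a (.l 5027) (.l 35)) (.l 35))) (.b (.c (.l 5795) (.l 5027)) (.l 35))))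
      (.b (.c (.c (.c (.l 9123) (.l 8099)) (.b (.c (.l 7459) (.l 6819)) (.l 6819))) (.c (.b (.a
      (.l 35) (.c (.l 6307) (.l 35))) (.a (.l 5795) (.l 35))) (.b (.a (.c (.l 5411) (.l 35)) (.a
      (.l 35) (.l 35))) (.a (.c (.l 5411) (.l 5027)) (.b (.l 35) (.l 35)))))) (.c (.c (.l 8099)
      (.b (.l 6819) (.l 6819))) (.b (.c (.l 35) (.a (.l 5027) (.l 35))) (.c (.l 5795) (.l
      35)))))))

theorem x1_t2b_c1_du_f_h3 : chk3 (onCell 0 2684354560 0 1073741824 0 26843546 T1_t2b_c1_du_f) x1_t2b_c1_du_f_t3 7 4 1 = true := by decide +kernel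

def x1_t2b_c1_du_f_t4 : T :=
  (.c (.a (.b (.c (.l 20387) (.l 10147)) (.l 10179)) (.b (.c (.l 20387) (.l 10147)) (.l 10179)))
      (.a (.c (.c (.l 8131) (.b (.l 6819) (.l 6851))) (.b (.l 35) (.l 5059))) (.c (.c (.b (.l
      8099) (.l 8131)) (.b (.l 6819) (.l 6851))) (.c (.b (.l 5795) (.l 5827)) (.b (.l 35) (.l
      5059))))))

theorem x1_t2b_c1_du_f_h4 : chk3 (onCell 0 2684354560 0 1073741824 0 26843546 T1_t2b_c1_du_f) x1_t2b_c1_du_f_t4 7 5 1 = true := by decide +kernel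

def x1_t2b_c1_du_f_t5 : T :=
  (.a (.b (.c (.a (.l 10179) (.l 10179)) (.a (.b (.l 5059) (.l 5059)) (.c (.l 6851) (.l 5059))))
      (.b (.c (.l 10179) (.l 5059)) (.b (.l 4995) (.l 4995)))) (.b (.b (.c (.l 10179) (.c (.l
      6851) (.l 5059))) (.c (.l 10179) (.c (.l 6851) (.l 5059)))) (.b (.c (.l 10115) (.c (.l
      6787) (.l 4995))) (.b (.c (.l 10115) (.l 4995)) (.l 4995)))))

theorem x1_t2b_c1_du_f_h5 : chk3 (onCell 0 2684354560 0 1073741824 0 26843546 T1_t2b_c1_du_f) x1_t2b_c1_du_f_t5 3 3 1 = true := by decide +kernel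

theorem x1_t2b_c1_du_f : Tree 0 2684354560 0 1073741824 0 26843546 T1_t2b_c1_du_f :=
  ⟨_, (chk3_a (chk3_a x1_t2b_c1_du_f_h0 x1_t2b_c1_du_f_h1) (chk3_b (chk3_a x1_t2b_c1_du_f_h2
      (chk3_b x1_t2b_c1_du_f_h3 x1_t2b_c1_du_f_h4)) x1_t2b_c1_du_f_h5))⟩

end Pool.Agent.Strip051.LC.E1.Ch
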