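import Pool.Agent.Strip051.LC.E1.Ch.Te

/-! # Rests near the full period: certificates P7 -/

set_option maxRecDepth 100000

namespace Pool.Agent.Strip051.LC.E1.Ch

open Pool.Agent.Strip051.PB
open Pool.Agent.Strip051.LC.E0.Ch (onCell Tree)

def x2_t2b_c1_du_f_t0 : T :=
  (.a (.b (.c (.a (.b (.l 8099) (.l 8099)) (.b (.l 8131) (.l 8131))) (.a (.b (.c (.l 35) (.l 35))
      (.l 4003)) (.b (.l 4035) (.l 4035)))) (.c (.a (.b (.l 8099) (.c (.l 16291) (.l 8099))) (.l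
      8099)) (.a (.b (.b (.l 4003) (.l 4003)) (.c (.l 5411) (.l 4003))) (.b (.l 4003) (.c (.l
      5411) (.l 4003)))))) (.b (.c (.l 8131) (.b (.l 4035) (.l 4035))) (.a (.c (.l 8131) (.b (.l
      4035) (.l 4003))) (.b (.l 4035) (.l 4035)))))

theorem x2_t2b_c1_du_f_h0 : chk3 (onCell 0 1073741824 0 429496730 0 67108864 T2_t2b_c1_du_f) x2_t2b_c1_du_f_t0 2 1 2 = true := by decide +kernel

def x2_t2b_c1_du_f_t1 : T :=
  (.a (.c (.b (.c (.l 35) (.l 35)) (.c (.l 3235) (.l 35))) (.b (.c (.l 35) (.l 35)) (.c (.a (.l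
      35) (.l 35)) (.a (.b (.l 35) (.l 1955)) (.b (.l 35) (.l 1955)))))) (.c (.b (.c (.l 67) (.l
      67)) (.b (.l 2755) (.l 2723))) (.b (.c (.l 67) (.l 35)) (.c (.a (.l 2339) (.l 2339)) (.a
      (.b (.l 35) (.l 1955)) (.b (.l 1955) (.l 1955)))))))

theorem x2_t2b_c1_du_f_h1 : chk3 (onCell 0 1073741824 0 429496730 0 67108864 T2_t2b_c1_du_f) x2_t2b_c1_du_f_t1 4 2 3 = true := by decide +kernel

def x2_t2b_c1_du_f_t2 : T :=
  (.a (.c (.b (.b (.a (.l 2723) (.l 2723)) (.c (.l 3235) (.l 2723))) (.c (.l 3235) (.a (.l 35)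
      (.l 2723)))) (.b (.b (.a (.c (.l 2339) (.l 35)) (.c (.l 2339) (.c (.l 2211) (.l 1955))))
      (.c (.a (.b (.l 2339) (.l 2339)) (.l 2339)) (.a (.a (.l 35) (.l 35)) (.c (.l 2211) (.l
      35))))) (.c (.a (.c (.l 2467) (.l 35)) (.c (.l 2467) (.l 2339))) (.a (.b (.c (.l 2211) (.l
      35)) (.c (.l 2211) (.l 35))) (.b (.c (.l 2211) (.l 35)) (.c (.l 2211) (.l 35))))))) (.c (.b
      (.b (.l 2723) (.c (.l 3235) (.l 2723))) (.c (.l 3235) (.l 2723))) (.b (.b (.c (.l 2339) (.a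
      (.l 35) (.l 1955))) (.c (.l 2339) (.a (.c (.l 2211) (.l 1955)) (.l 1955)))) (.c (.a (.b (.l
      2339) (.l 2339)) (.l 2339)) (.a (.b (.c (.l 2211) (.l 35)) (.c (.l 2211) (.l 35))) (.b (.l
      35) (.l 35)))))))

theorem x2_t2b_c1_du_f_h2 : chk3 (onCell 0 1073741824 0 429496730 0 67108864 T2_t2b_c1_du_f) x2_t2b_c1_du_f_t2 4 3 3 = true := by decide +kernel

def x2_t2b_c1_du_f_t3 : T :=
  (.a (.b (.c (.b (.l 2755) (.l 2755)) (.b (.b (.l 67) (.l 67)) (.b (.l 1987) (.c (.l 2371) (.l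
      1987))))) (.b (.c (.a (.l 2723) (.l 2755)) (.c (.l 2371) (.a (.b (.l 1955) (.l 1955)) (.l
      1987)))) (.c (.a (.l 2723) (.l 2723)) (.a (.c (.l 2339) (.l 35)) (.c (.l 2339) (.l
      1955)))))) (.b (.c (.b (.l 2755) (.l 2755)) (.b (.l 1987) (.b (.l 1987) (.l 1987)))) (.b
      (.c (.l 2755) (.l 1987)) (.c (.l 2755) (.a (.l 1987) (.l 1987))))))

theorem x2_t2b_c1_du_f_h3 : chk3 (onCell 0 1073741824 0 429496730 0 67108864 T2_t2b_c1_du_f) x2_t2b_c1_du_f_t3 5 1 3 = true := by decide +kernel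

def x2_t2b_c1_du_f_t4 : T :=
  (.a (.c (.b (.b (.l 4035) (.l 4035)) (.a (.l 4035) (.l 4035))) (.a (.b (.b (.l 1987) (.c (.l
      2691) (.l 1923))) (.c (.l 2755) (.b (.l 1987) (.l 1987)))) (.a (.b (.b (.l 1923) (.l 1923))
      (.c (.l 2755) (.b (.l 1923) (.l 1923)))) (.b (.b (.l 1923) (.l 1923)) (.c (.l 2691) (.b (.l
      1923) (.l 1923))))))) (.c (.a (.a (.b (.l 3971) (.l 3971)) (.b (.l 3971) (.l 3971))) (.a
      (.b (.l 3971) (.l 3971)) (.b (.l 3971) (.l 3971)))) (.b (.a (.b (.l 1923) (.l 1923)) (.a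
      (.b (.l 1923) (.l 1923)) (.b (.c (.l 2691) (.a (.l 1923) (.b (.l 1923) (.l 1923)))) (.l
      1923)))) (.a (.b (.l 1923) (.l 1923)) (.a (.b (.l 1923) (.l 1923)) (.c (.l 2691) (.l
      1923)))))))

theorem x2_t2b_c1_du_f_h4 : chk3 (onCell 0 1073741824 0 429496730 0 67108864 T2_t2b_c1_du_f) x2_t2b_c1_du_f_t4 3 1 1 = true := by decide +kernel

theorem x2_t2b_c1_du_f : Tree 0 1073741824 0 429496730 0 67108864 T2_t2b_c1_du_f :=
  ⟨_, (chk3_a (chk3_c x2_t2b_c1_du_f_h0 (chk3_a (chk3_b x2_t2b_c1_du_f_h1 x2_t2b_c1_du_f_h2)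
      x2_t2b_c1_du_f_h3)) x2_t2b_c1_du_f_h4)⟩

def x1_t2b_c1_du_n_t0 : T :=
  (.a (.b (.c (.l 10155) (.a (.l 5035) (.b (.l 5035) (.l 5035)))) (.c (.l 10187) (.a (.l 5035)
      (.b (.l 5035) (.c (.l 6859) (.l 5067)))))) (.b (.c (.b (.a (.a (.l 10147) (.l 10147)) (.c
      (.l 20387) (.l 10179))) (.a (.a (.l 10147) (.l 10147)) (.c (.l 20387) (.l 10147)))) (.b (.a
      (.a (.l 5027) (.l 5027)) (.c (.c (.l 8131) (.l 6851)) (.a (.l 5027) (.l 5027)))) (.a (.c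
      (.a (.l 6819) (.l 6819)) (.a (.l 5027) (.l 5027))) (.c (.l 6819) (.a (.l 5027) (.l
      5027)))))) (.c (.b (.a (.a (.l 10147) (.l 10147)) (.l 10179)) (.a (.a (.l 10179) (.l
      10179)) (.l 10179))) (.b (.a (.a (.c (.l 6819) (.l 5027)) (.l 5027)) (.a (.l 5059) (.l
      5059))) (.a (.a (.l 5059) (.l 5059)) (.b (.l 5059) (.l 5059)))))))

theorem x1_t2b_c1_du_n_h0 : chk3 (onCell 0 2684354560 0 1073741824 0 26843546 T1_t2b_c1_du_n) x1_t2b_c1_du_n_t0 2 1 1 = true := by decide +kernel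

def x1_t2b_c1_du_n_t1 : T :=
  (.c (.b (.a (.c (.l 20419) (.l 10179)) (.c (.l 20387) (.l 10147))) (.a (.c (.l 20387) (.l
      10179)) (.c (.l 20419) (.l 10179)))) (.b (.a (.c (.c (.l 8131) (.l 6851)) (.c (.a (.l 5795)
      (.l 5795)) (.a (.l 5027) (.l 5027)))) (.c (.c (.l 8099) (.l 6819)) (.c (.l 5827) (.a (.l
      5027) (.l 5027))))) (.a (.c (.a (.l 6819) (.l 6819)) (.a (.l 5027) (.l 5027))) (.c (.b (.l
      6819) (.l 6819)) (.b (.l 5027) (.l 5027))))))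

theorem x1_t2b_c1_du_n_h1 : chk3 (onCell 0 2684354560 0 1073741824 0 26843546 T1_t2b_c1_du_n) x1_t2b_c1_du_n_t1 6 2 1 = true := by decide +kernel

def x1_t2b_c1_du_n_t2 : T :=
  (.c (.b (.a (.c (.l 20387) (.l 10147)) (.c (.l 20387) (.l 10147))) (.a (.c (.l 20419) (.l
      10179)) (.b (.l 10147) (.l 10179)))) (.b (.c (.a (.c (.l 8099) (.l 6819)) (.c (.l 8099) (.a
      (.l 6819) (.l 6819)))) (.a (.a (.b (.a (.l 5027) (.l 5027)) (.l 5027)) (.b (.a (.b (.l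
      5027) (.l 5027)) (.b (.c (.l 5795) (.l 5027)) (.l 5027))) (.c (.l 5795) (.l 5027)))) (.b
      (.a (.c (.l 5795) (.c (.l 5411) (.l 5027))) (.c (.l 5795) (.c (.l 5411) (.l 5027)))) (.a
      (.b (.l 5027) (.l 5027)) (.b (.a (.l 5027) (.l 5027)) (.l 5027)))))) (.b (.c (.a (.l 6819)
      (.l 6819)) (.a (.l 5027) (.a (.l 5027) (.l 5027)))) (.c (.a (.l 6851) (.l 6851)) (.c (.a
      (.l 5795) (.l 5827)) (.a (.l 5059) (.l 5059)))))))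

theorem x1_t2b_c1_du_n_h2 : chk3 (onCell 0 2684354560 0 1073741824 0 26843546 T1_t2b_c1_du_n) x1_t2b_c1_du_n_t2 7 2 1 = true := by decide +kernel

def x1_t2b_c1_du_n_t3 : T :=
  (.a (.c (.b (.a (.l 10179) (.l 10179)) (.a (.l 10179) (.l 10179))) (.b (.a (.b (.l 5059) (.l
      5059)) (.b (.l 5059) (.l 5059))) (.b (.a (.l 5059) (.l 4995)) (.b (.l 4995) (.l 4995)))))
      (.c (.b (.a (.l 10179) (.l 10179)) (.a (.l 10115) (.l 10115))) (.b (.b (.c (.l 6851) (.a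
      (.l 5059) (.l 5059))) (.b (.l 5059) (.l 5059))) (.b (.b (.l 5059) (.l 4995)) (.a (.l 4995)
      (.a (.l 4995) (.l 4995)))))))

theorem x1_t2b_c1_du_n_h3 : chk3 (onCell 0 2684354560 0 1073741824 0 26843546 T1_t2b_c1_du_n) x1_t2b_c1_du_n_t3 3 3 1 = true := by decide +kernel

theorem x1_t2b_c1_du_n : Tree 0 2684354560 0 1073741824 0 26843546 T1_t2b_c1_du_n :=
  ⟨_, (chk3_a x1_t2b_c1_du_n_h0 (chk3_b (chk3_a x1_t2b_c1_du_n_h1 x1_t2b_c1_du_n_h2)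
      x1_t2b_c1_du_n_h3))⟩

def x2_t2b_c1_du_n_t0 : T :=
  (.a (.c (.b (.l 8131) (.l 8131)) (.b (.b (.l 4035) (.l 4035)) (.a (.l 4035) (.l 4035)))) (.a
      (.b (.l 4035) (.c (.l 8131) (.l 4035))) (.b (.a (.l 4035) (.l 3971)) (.a (.l 3971) (.l
      3971)))))

theorem x2_t2b_c1_du_n_h0 : chk3 (onCell 0 1073741824 0 429496730 0 67108864 T2_t2b_c1_du_n) x2_t2b_c1_du_n_t0 1 1 2 = true := by decide +kernel

def x2_t2b_c1_du_n_t1 : T :=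
  (.a (.c (.b (.b (.l 2755) (.l 2755)) (.a (.c (.l 3235) (.l 2723)) (.c (.l 3267) (.l 2755))))
      (.b (.b (.a (.l 1987) (.l 1987)) (.a (.b (.l 1955) (.l 1955)) (.b (.l 1987) (.l 1987))))
      (.a (.b (.b (.c (.l 2339) (.l 1955)) (.c (.l 2339) (.l 1955))) (.c (.l 2339) (.c (.l 2211)
      (.l 1955)))) (.b (.b (.l 1955) (.c (.l 2339) (.l 1955))) (.c (.l 2339) (.l 35)))))) (.c (.b
      (.b (.l 2755) (.l 2755)) (.a (.b (.l 2755) (.l 2755)) (.l 2755))) (.b (.b (.l 1987) (.a (.l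
      1987) (.l 1987))) (.a (.b (.l 1987) (.c (.l 2371) (.l 1987))) (.b (.l 1987) (.l 1987))))))

theorem x2_t2b_c1_du_n_h1 : chk3 (onCell 0 1073741824 0 429496730 0 67108864 T2_t2b_c1_du_n) x2_t2b_c1_du_n_t1 2 1 3 = true := by decide +kernel

def x2_t2b_c1_du_n_t2 : T :=
  (.c (.a (.b (.l 2755) (.a (.l 2755) (.l 2755))) (.b (.a (.l 2691) (.a (.l 2691) (.l 2691))) (.b
      (.l 2691) (.l 2691)))) (.a (.b (.b (.l 1923) (.l 1923)) (.a (.b (.l 1987) (.l 1987)) (.c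
      (.l 2371) (.c (.l 2243) (.c (.l 2115) (.l 67)))))) (.b (.b (.a (.l 1923) (.l 1923)) (.a (.l
      1923) (.l 1923))) (.b (.c (.l 2307) (.l 1923)) (.a (.l 1923) (.l 1923))))))

theorem x2_t2b_c1_du_n_h2 : chk3 (onCell 0 1073741824 0 429496730 0 67108864 T2_t2b_c1_du_n) x2_t2b_c1_du_n_t2 3 1 3 = true := by decide +kernel

theorem x2_t2b_c1_du_n : Tree 0 1073741824 0 429496730 0 67108864 T2_t2b_c1_du_n :=
  ⟨_, (chk3_c x2_t2b_c1_du_n_h0 (chk3_a x2_t2b_c1_du_n_h1 x2_t2b_c1_du_n_h2))⟩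

end Pool.Agent.Strip051.LC.E1.Ch
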