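import Pool.Agent.Strip051.LC.E1.Ch.Te

/-! # Rests near the full period: certificates P8 -/

set_option maxRecDepth 100000

namespace Pool.Agent.Strip051.LC.E1.Ch

open Pool.Agent.Strip051.PB
open Pool.Agent.Strip051.LC.E0.Ch (onCell Tree)

def x1_t2b_c1_u_f_t0 : T :=
  (.b (.a (.b (.c (.l 10155) (.l 5035)) (.c (.l 10187) (.l 5067))) (.b (.c (.l 10155) (.l 5035))
      (.c (.l 10187) (.l 5067)))) (.a (.b (.c (.l 10123) (.l 5003)) (.c (.l 10123) (.l 5003)))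
      (.b (.c (.l 10187) (.l 5067)) (.c (.a (.l 10123) (.l 10187)) (.l 5067)))))

theorem x1_t2b_c1_u_f_h0 : chk3 (onCell 0 2684354560 0 1073741824 0 26843546 T1_t2b_c1_u_f) x1_t2b_c1_u_f_t0 4 1 1 = true := by decide +kernel

def x1_t2b_c1_u_f_t1 : T :=
  (.b (.c (.a (.b (.c (.c (.c (.l 81827) (.l 40867)) (.l 20387)) (.l 10147)) (.c (.c (.c (.l
      81827) (.l 40867)) (.l 20387)) (.l 10147))) (.b (.c (.c (.l 40867) (.l 20387)) (.l 10147))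
      (.c (.c (.l 40867) (.l 20387)) (.l 10147)))) (.a (.b (.c (.l 6819) (.l 5027)) (.c (.l 6819)
      (.l 5027))) (.c (.c (.b (.l 8099) (.l 8099)) (.b (.l 6819) (.l 6819))) (.c (.l 5795) (.l
      5027))))) (.c (.a (.b (.c (.a (.l 20387) (.l 20387)) (.l 10147)) (.c (.a (.l 20387) (.l
      20387)) (.l 10179))) (.b (.c (.c (.l 40867) (.l 20387)) (.l 10147)) (.c (.c (.l 40867) (.l
      20387)) (.l 10147)))) (.a (.b (.c (.l 6819) (.l 5027)) (.l 5059)) (.c (.b (.l 6819) (.l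
      6819)) (.c (.l 5827) (.l 5059))))))

theorem x1_t2b_c1_u_f_h1 : chk3 (onCell 0 2684354560 0 1073741824 0 26843546 T1_t2b_c1_u_f) x1_t2b_c1_u_f_t1 10 2 1 = true := by decide +kernel

def x1_t2b_c1_u_f_t2 : T :=
  (.b (.c (.a (.b (.c (.c (.l 40867) (.l 20387)) (.l 10147)) (.c (.c (.l 40867) (.l 20387)) (.l
      10147))) (.b (.c (.l 20387) (.l 10147)) (.c (.l 20387) (.l 10147)))) (.a (.c (.c (.b (.l
      8099) (.l 8099)) (.l 6819)) (.c (.l 5795) (.l 5027))) (.c (.c (.b (.l 8099) (.l 8099)) (.b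
      (.l 6819) (.l 6819))) (.c (.b (.l 5795) (.l 5795)) (.b (.l 5027) (.l 5027)))))) (.c (.a (.b
      (.c (.c (.l 40867) (.l 20387)) (.l 10147)) (.c (.l 20387) (.l 10147))) (.b (.c (.l 20387)
      (.l 10147)) (.c (.l 20387) (.l 10147)))) (.c (.a (.c (.b (.l 8099) (.l 8099)) (.l 6819))
      (.c (.b (.l 8099) (.l 8099)) (.l 6819))) (.a (.c (.l 5795) (.l 5027)) (.c (.l 5795) (.b (.l
      5027) (.l 5027)))))))

theorem x1_t2b_c1_u_f_h2 : chk3 (onCell 0 2684354560 0 1073741824 0 26843546 T1_t2b_c1_u_f) x1_t2b_c1_u_f_t2 11 2 1 = true := by decide +kernel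

def x1_t2b_c1_u_f_t3 : T :=
  (.b (.c (.a (.b (.c (.a (.l 20419) (.l 20419)) (.l 10179)) (.c (.a (.l 20355) (.l 20419)) (.c
      (.l 13635) (.l 10179)))) (.b (.c (.c (.l 40899) (.l 20419)) (.l 10179)) (.c (.c (.c (.l
      81859) (.l 40899)) (.l 20419)) (.l 10179)))) (.a (.b (.c (.l 6851) (.l 5059)) (.c (.l 6851)
      (.l 5059))) (.b (.l 5059) (.c (.l 6851) (.l 5059))))) (.c (.a (.b (.c (.a (.l 20355) (.l
      20355)) (.c (.a (.l 13571) (.l 13571)) (.l 10115))) (.c (.a (.l 20355) (.l 20355)) (.c (.a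
      (.l 13571) (.l 13571)) (.a (.l 10115) (.l 10115))))) (.b (.c (.a (.l 20355) (.l 20419)) (.l
      10179)) (.c (.a (.l 20355) (.l 20355)) (.c (.l 13571) (.l 10115))))) (.a (.b (.c (.a (.l
      6787) (.l 6787)) (.l 4995)) (.c (.a (.l 6787) (.l 6787)) (.a (.l 4995) (.l 4995)))) (.b (.c
      (.l 6851) (.l 5059)) (.c (.a (.l 6787) (.l 6787)) (.l 4995))))))

theorem x1_t2b_c1_u_f_h3 : chk3 (onCell 0 2684354560 0 1073741824 0 26843546 T1_t2b_c1_u_f) x1_t2b_c1_u_f_t3 10 3 1 = true := by decide +kernel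

def x1_t2b_c1_u_f_t4 : T :=
  (.b (.c (.a (.b (.c (.l 20387) (.l 10147)) (.c (.l 20419) (.l 10179))) (.b (.c (.l 20387) (.l
      10147)) (.c (.l 20387) (.l 10147)))) (.a (.c (.b (.l 6819) (.l 6851)) (.b (.l 5027) (.l
      5059))) (.b (.c (.l 6819) (.l 5027)) (.c (.l 6819) (.l 5027))))) (.c (.a (.b (.c (.c (.l
      40899) (.l 20419)) (.l 10179)) (.c (.c (.l 40899) (.l 20419)) (.l 10179))) (.b (.c (.l
      20419) (.l 10179)) (.c (.l 20419) (.l 10179)))) (.a (.b (.l 5059) (.c (.l 6851) (.l 5059)))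
      (.b (.l 5059) (.c (.l 6851) (.l 5059))))))

theorem x1_t2b_c1_u_f_h4 : chk3 (onCell 0 2684354560 0 1073741824 0 26843546 T1_t2b_c1_u_f) x1_t2b_c1_u_f_t4 11 3 1 = true := by decide +kernel

def x1_t2b_c1_u_f_t5 : T :=
  (.b (.c (.a (.b (.c (.l 20387) (.l 10147)) (.c (.l 20387) (.l 10147))) (.b (.c (.l 20387) (.l
      10147)) (.c (.l 20387) (.l 10147)))) (.a (.c (.c (.b (.l 8099) (.l 8099)) (.b (.l 6819) (.l
      6819))) (.c (.b (.l 5795) (.l 5795)) (.b (.l 5027) (.l 5027)))) (.c (.c (.b (.l 8099) (.l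
      8099)) (.b (.l 6819) (.l 6819))) (.c (.b (.l 5795) (.l 5795)) (.b (.l 5027) (.l 5027))))))
      (.c (.a (.b (.c (.l 20387) (.l 10147)) (.c (.l 20387) (.l 10147))) (.b (.c (.l 20387) (.l
      10147)) (.c (.l 20387) (.l 10147)))) (.a (.c (.c (.b (.l 8099) (.l 8099)) (.b (.l 6819) (.l
      6819))) (.c (.b (.l 5795) (.l 5795)) (.b (.l 5027) (.l 5027)))) (.c (.c (.b (.l 8099) (.l
      8099)) (.l 6819)) (.b (.l 5027) (.l 5027))))))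

theorem x1_t2b_c1_u_f_h5 : chk3 (onCell 0 2684354560 0 1073741824 0 26843546 T1_t2b_c1_u_f) x1_t2b_c1_u_f_t5 12 2 1 = true := by decide +kernel

def x1_t2b_c1_u_f_t6 : T :=
  (.b (.c (.a (.b (.c (.l 20387) (.c (.l 13603) (.l 10147))) (.c (.l 20387) (.l 10147))) (.c (.c
      (.l 40867) (.l 20387)) (.c (.c (.l 16291) (.l 13603)) (.c (.l 11683) (.l 10147))))) (.a (.c
      (.c (.b (.l 8099) (.l 8099)) (.b (.l 6819) (.l 6819))) (.c (.b (.l 5795) (.l 5795)) (.b (.l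
      35) (.l 5027)))) (.c (.c (.b (.l 8099) (.l 8099)) (.b (.l 6819) (.l 6819))) (.b (.c (.l
      5795) (.a (.l 5027) (.l 5027))) (.c (.l 5795) (.c (.l 5411) (.l 5027))))))) (.c (.a (.b (.c
      (.l 20387) (.l 10147)) (.c (.l 20387) (.l 10147))) (.b (.c (.l 20387) (.l 10147)) (.c (.l
      20387) (.l 10147)))) (.a (.c (.c (.b (.l 8099) (.l 8099)) (.b (.l 6819) (.l 6819))) (.b (.c
      (.l 5795) (.l 5027)) (.a (.l 5027) (.l 5027)))) (.b (.c (.l 6819) (.a (.l 5027) (.c (.l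
      5795) (.l 5027)))) (.c (.l 6819) (.a (.l 5027) (.l 5027)))))))

theorem x1_t2b_c1_u_f_h6 : chk3 (onCell 0 2684354560 0 1073741824 0 26843546 T1_t2b_c1_u_f) x1_t2b_c1_u_f_t6 13 2 1 = true := by decide +kernel

def x1_t2b_c1_u_f_t7 : T :=
  (.b (.c (.a (.b (.c (.l 20387) (.l 10147)) (.c (.l 20387) (.l 10147))) (.b (.c (.l 20387) (.l
      10147)) (.c (.l 20387) (.l 10147)))) (.a (.b (.c (.l 6819) (.l 5027)) (.c (.l 6819) (.l
      5027))) (.b (.c (.l 6819) (.l 5027)) (.c (.l 6819) (.l 5027))))) (.c (.a (.b (.c (.l 20387)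
      (.l 10147)) (.c (.l 20419) (.l 10179))) (.b (.c (.l 20387) (.l 10147)) (.c (.l 20419) (.l
      10179)))) (.a (.b (.l 5059) (.l 5059)) (.b (.c (.l 6819) (.l 5059)) (.c (.l 6851) (.l
      5059))))))

theorem x1_t2b_c1_u_f_h7 : chk3 (onCell 0 2684354560 0 1073741824 0 26843546 T1_t2b_c1_u_f) x1_t2b_c1_u_f_t7 12 3 1 = true := by decide +kernel

def x1_t2b_c1_u_f_t8 : T :=
  (.b (.c (.a (.b (.c (.l 20387) (.l 10147)) (.c (.l 20387) (.l 10147))) (.b (.c (.l 20387) (.l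
      10147)) (.c (.l 20387) (.l 10147)))) (.a (.b (.c (.l 6819) (.a (.l 5027) (.l 5027))) (.c
      (.l 6819) (.a (.l 5027) (.l 5027)))) (.b (.c (.l 6819) (.a (.l 5027) (.c (.l 5795) (.l
      5027)))) (.c (.l 6819) (.a (.l 5027) (.c (.l 5795) (.l 5027))))))) (.c (.a (.b (.c (.l
      20387) (.l 10147)) (.c (.l 20419) (.l 10179))) (.b (.c (.l 20419) (.l 10179)) (.c (.l
      20419) (.l 10179)))) (.a (.b (.c (.l 6819) (.a (.l 5059) (.l 5059))) (.c (.l 6851) (.b (.l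
      5059) (.l 5059)))) (.b (.b (.c (.l 6819) (.c (.l 5795) (.l 5027))) (.c (.l 6851) (.c (.l
      5827) (.l 5027)))) (.b (.c (.l 6851) (.c (.l 5827) (.l 5059))) (.c (.l 6851) (.a (.l 5059)
      (.l 5059))))))))

theorem x1_t2b_c1_u_f_h8 : chk3 (onCell 0 2684354560 0 1073741824 0 26843546 T1_t2b_c1_u_f) x1_t2b_c1_u_f_t8 13 3 1 = true := by decide +kernel

def x1_t2b_c1_u_f_t9 : T :=
  (.c (.a (.c (.c (.l 40867) (.l 20387)) (.c (.c (.l 16291) (.l 13603)) (.b (.l 10147) (.l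
      10147)))) (.c (.c (.l 40867) (.l 20387)) (.c (.c (.l 16291) (.l 13603)) (.b (.l 10147) (.l
      10147))))) (.a (.c (.c (.b (.l 8099) (.l 8099)) (.b (.l 6819) (.l 6819))) (.b (.c (.c (.l
      6307) (.l 5795)) (.a (.l 35) (.c (.l 5411) (.l 35)))) (.a (.c (.l 5795) (.l 5027)) (.c (.l
      5795) (.c (.l 5411) (.l 5027)))))) (.c (.c (.b (.l 8099) (.l 8099)) (.b (.l 35) (.l 6819)))
      (.b (.c (.c (.l 6307) (.a (.l 5795) (.l 5795))) (.c (.a (.l 5411) (.l 35)) (.a (.b (.l 35)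
      (.l 35)) (.b (.l 35) (.l 35))))) (.a (.b (.c (.l 5795) (.c (.l 5411) (.l 5027))) (.c (.l
      5795) (.c (.l 5411) (.l 5027)))) (.b (.c (.l 5795) (.c (.l 5411) (.l 35))) (.a (.c (.l
      5795) (.l 35)) (.c (.l 5795) (.l 35)))))))))

theorem x1_t2b_c1_u_f_h9 : chk3 (onCell 0 2684354560 0 1073741824 0 26843546 T1_t2b_c1_u_f) x1_t2b_c1_u_f_t9 14 4 1 = true := by decide +kernel

def x1_t2b_c1_u_f_t10 : T :=
  (.c (.a (.c (.c (.l 40867) (.l 20387)) (.c (.l 13603) (.l 10147))) (.c (.c (.l 40867) (.l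
      20387)) (.c (.l 13603) (.l 10147)))) (.a (.b (.c (.c (.l 8099) (.l 6819)) (.a (.b (.c (.l
      5795) (.l 5027)) (.l 5027)) (.b (.a (.c (.l 5795) (.l 5027)) (.c (.l 5795) (.l 5027))) (.c
      (.l 5795) (.l 5027))))) (.c (.l 6819) (.a (.c (.l 5795) (.l 5027)) (.c (.l 5795) (.a (.l
      5027) (.l 5027)))))) (.b (.c (.c (.l 8099) (.l 6819)) (.a (.b (.a (.c (.l 5795) (.l 5027))
      (.c (.l 5795) (.l 5027))) (.c (.l 5795) (.c (.l 5411) (.l 5027)))) (.b (.a (.c (.l 5795)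
      (.l 5027)) (.c (.l 5795) (.l 35))) (.c (.l 5795) (.c (.l 5411) (.l 5027)))))) (.c (.l 6819)
      (.a (.c (.l 5795) (.b (.c (.l 5411) (.l 5027)) (.c (.l 5411) (.l 5027)))) (.c (.l 5795) (.b
      (.c (.l 5411) (.l 5027)) (.c (.l 5411) (.l 5027)))))))))

theorem x1_t2b_c1_u_f_h10 : chk3 (onCell 0 2684354560 0 1073741824 0 26843546 T1_t2b_c1_u_f) x1_t2b_c1_u_f_t10 14 5 1 = true := by decide +kernel

def x1_t2b_c1_u_f_t11 : T :=
  (.a (.c (.c (.l 40867) (.l 20387)) (.c (.c (.l 16291) (.l 13603)) (.b (.l 10147) (.l 10147))))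
      (.c (.c (.l 40867) (.l 20387)) (.c (.b (.l 13603) (.l 13603)) (.b (.l 10147) (.l 10147)))))

theorem x1_t2b_c1_u_f_h11 : chk3 (onCell 0 2684354560 0 1073741824 0 26843546 T1_t2b_c1_u_f) x1_t2b_c1_u_f_t11 15 4 2 = true := by decide +kernel

def x1_t2b_c1_u_f_t12 : T :=
  (.c (.b (.c (.l 8099) (.c (.l 7459) (.l 6819))) (.c (.l 8099) (.l 6819))) (.b (.c (.c (.a (.l
      6307) (.l 6307)) (.a (.l 5795) (.c (.l 6051) (.l 35)))) (.a (.c (.b (.l 35) (.l 5411)) (.b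
      (.l 35) (.l 35))) (.b (.c (.l 35) (.l 35)) (.c (.l 35) (.l 35))))) (.a (.b (.c (.l 5795)
      (.c (.l 5411) (.l 35))) (.c (.l 5795) (.c (.l 5411) (.l 35)))) (.c (.b (.l 5795) (.l 5795))
      (.c (.b (.l 35) (.l 5411)) (.b (.l 35) (.l 35)))))))

theorem x1_t2b_c1_u_f_h12 : chk3 (onCell 0 2684354560 0 1073741824 0 26843546 T1_t2b_c1_u_f) x1_t2b_c1_u_f_t12 30 4 3 = true := by decide +kernel

def x1_t2b_c1_u_f_t13 : T :=
  (.c (.b (.c (.l 8099) (.b (.l 35) (.l 6819))) (.c (.l 8099) (.b (.l 6819) (.l 6819)))) (.b (.c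
      (.c (.a (.l 6307) (.c (.l 6563) (.l 6307))) (.a (.b (.l 35) (.l 5795)) (.b (.l 35) (.l
      35)))) (.b (.a (.b (.a (.l 35) (.l 35)) (.a (.l 35) (.l 35))) (.b (.c (.l 35) (.l 35)) (.a
      (.l 35) (.l 35)))) (.a (.c (.l 35) (.l 35)) (.a (.l 35) (.b (.l 35) (.l 35)))))) (.c (.a
      (.b (.c (.l 6307) (.l 5795)) (.a (.l 5795) (.l 5795))) (.b (.c (.l 6307) (.l 35)) (.c (.l
      6307) (.l 5795)))) (.a (.b (.c (.l 35) (.l 35)) (.c (.l 35) (.l 35))) (.b (.a (.l 35) (.l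
      35)) (.a (.l 35) (.l 35)))))))

theorem x1_t2b_c1_u_f_h13 : chk3 (onCell 0 2684354560 0 1073741824 0 26843546 T1_t2b_c1_u_f) x1_t2b_c1_u_f_t13 31 4 3 = true := by decide +kernel

def x1_t2b_c1_u_f_t14 : T :=
  (.a (.c (.c (.l 40867) (.l 20387)) (.c (.l 13603) (.l 10147))) (.c (.c (.l 40867) (.l 20387))
      (.c (.l 13603) (.l 10147))))

theorem x1_t2b_c1_u_f_h14 : chk3 (onCell 0 2684354560 0 1073741824 0 26843546 T1_t2b_c1_u_f) x1_t2b_c1_u_f_t14 15 5 2 = true := by decide +kernel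

def x1_t2b_c1_u_f_t15 : T :=
  (.b (.c (.c (.l 8099) (.l 6819)) (.a (.b (.a (.c (.l 5795) (.l 35)) (.c (.l 5795) (.l 35))) (.c
      (.l 5795) (.c (.l 5411) (.l 35)))) (.b (.c (.l 5795) (.c (.l 5411) (.l 35))) (.c (.l 5795)
      (.c (.l 5411) (.l 35)))))) (.c (.b (.l 6819) (.l 6819)) (.a (.c (.l 5795) (.b (.c (.l 5411)
      (.l 35)) (.c (.l 5411) (.l 35)))) (.c (.c (.l 6307) (.l 5795)) (.c (.b (.l 5411) (.l 5411))
      (.b (.l 35) (.l 35)))))))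

theorem x1_t2b_c1_u_f_h15 : chk3 (onCell 0 2684354560 0 1073741824 0 26843546 T1_t2b_c1_u_f) x1_t2b_c1_u_f_t15 30 5 3 = true := by decide +kernel

def x1_t2b_c1_u_f_t16 : T :=
  (.b (.c (.b (.c (.l 8099) (.l 6819)) (.a (.l 6819) (.l 6819))) (.a (.b (.c (.a (.l 5795) (.l
      5795)) (.c (.l 35) (.l 35))) (.c (.c (.l 6307) (.l 5795)) (.c (.l 5411) (.l 35)))) (.c (.b
      (.a (.l 5795) (.c (.l 6307) (.l 5795))) (.c (.l 6307) (.l 5795))) (.b (.a (.l 35) (.l 35))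
      (.c (.l 5411) (.l 35)))))) (.c (.b (.a (.l 6819) (.l 6819)) (.c (.l 8099) (.l 6819))) (.a
      (.c (.c (.l 6307) (.l 5795)) (.c (.b (.l 5411) (.l 5411)) (.b (.l 35) (.l 35)))) (.b (.c
      (.c (.l 6307) (.l 5795)) (.c (.l 5411) (.l 35))) (.c (.c (.l 6307) (.l 5795)) (.c (.l 5411)
      (.l 35)))))))

theorem x1_t2b_c1_u_f_h16 : chk3 (onCell 0 2684354560 0 1073741824 0 26843546 T1_t2b_c1_u_f) x1_t2b_c1_u_f_t16 31 5 3 = true := by decide +kernel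

def x1_t2b_c1_u_f_t17 : T :=
  (.c (.a (.b (.c (.l 20387) (.l 10147)) (.c (.l 20387) (.l 10147))) (.b (.c (.l 20387) (.l
      10147)) (.c (.l 20387) (.l 10147)))) (.a (.b (.c (.l 6819) (.c (.l 5795) (.a (.l 5027) (.c
      (.l 5411) (.b (.l 5027) (.l 5027)))))) (.c (.l 6819) (.c (.l 5795) (.a (.l 5027) (.c (.l
      5411) (.b (.l 5027) (.l 5027))))))) (.b (.c (.l 6819) (.c (.a (.l 5795) (.l 5795)) (.a (.c
      (.l 5411) (.b (.l 5027) (.l 5027))) (.c (.l 5411) (.b (.l 5027) (.l 35)))))) (.b (.c (.l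
      6819) (.c (.l 5795) (.a (.c (.l 5411) (.l 35)) (.c (.l 5411) (.c (.l 5283) (.l 35)))))) (.c
      (.l 6819) (.c (.l 5795) (.a (.c (.l 5411) (.c (.l 5283) (.l 5027))) (.c (.l 5411) (.c (.l
      5283) (.a (.l 5027) (.l 5027)))))))))))

theorem x1_t2b_c1_u_f_h17 : chk3 (onCell 0 2684354560 0 1073741824 0 26843546 T1_t2b_c1_u_f) x1_t2b_c1_u_f_t17 14 6 1 = true := by decide +kernel

def x1_t2b_c1_u_f_t18 : T :=
  (.a (.b (.c (.l 20419) (.l 10179)) (.c (.l 20419) (.l 10179))) (.b (.c (.l 20419) (.l 10179))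
      (.c (.l 20419) (.l 10179))))

theorem x1_t2b_c1_u_f_h18 : chk3 (onCell 0 2684354560 0 1073741824 0 26843546 T1_t2b_c1_u_f) x1_t2b_c1_u_f_t18 14 7 2 = true := by decide +kernel

def x1_t2b_c1_u_f_t19 : T :=
  (.a (.b (.b (.c (.l 6851) (.c (.l 5795) (.a (.l 5027) (.c (.l 5411) (.l 5027))))) (.c (.l 6851)
      (.c (.l 5795) (.a (.l 5027) (.c (.l 5411) (.l 5027)))))) (.b (.c (.l 6851) (.a (.c (.l
      5827) (.l 5027)) (.c (.l 5827) (.l 5027)))) (.c (.l 6851) (.a (.c (.l 5827) (.l 5059)) (.b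
      (.c (.l 5827) (.l 5059)) (.c (.l 5827) (.l 5059))))))) (.b (.b (.c (.l 6851) (.c (.l 5795)
      (.a (.c (.l 5411) (.c (.l 5283) (.l 5027))) (.c (.l 5411) (.b (.l 5027) (.l 5027)))))) (.c
      (.l 6851) (.a (.c (.l 5795) (.c (.l 5411) (.l 5027))) (.c (.l 5795) (.c (.l 5411) (.l
      5027)))))) (.c (.l 6851) (.b (.a (.b (.c (.l 5795) (.l 5027)) (.c (.l 5827) (.l 5027))) (.b
      (.c (.l 5795) (.l 5027)) (.c (.l 5827) (.l 5027)))) (.a (.b (.c (.l 5827) (.l 5027)) (.c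
      (.l 5827) (.l 5059))) (.b (.c (.l 5827) (.l 5027)) (.c (.l 5827) (.l 5059))))))))

theorem x1_t2b_c1_u_f_h19 : chk3 (onCell 0 2684354560 0 1073741824 0 26843546 T1_t2b_c1_u_f) x1_t2b_c1_u_f_t19 14 7 3 = true := by decide +kernel

def x1_t2b_c1_u_f_t20 : T :=
  (.a (.b (.c (.l 20387) (.l 10147)) (.c (.l 20387) (.l 10147))) (.c (.l 20387) (.b (.l 10147)
      (.l 10147))))

theorem x1_t2b_c1_u_f_h20 : chk3 (onCell 0 2684354560 0 1073741824 0 26843546 T1_t2b_c1_u_f) x1_t2b_c1_u_f_t20 15 6 2 = true := by decide +kernel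

def x1_t2b_c1_u_f_t21 : T :=
  (.b (.c (.a (.l 6819) (.l 6819)) (.c (.a (.l 5795) (.c (.l 6307) (.l 5795))) (.a (.b (.a (.c
      (.l 5411) (.l 5027)) (.c (.l 5411) (.l 5027))) (.c (.l 5411) (.c (.l 5283) (.l 5027)))) (.b
      (.c (.l 5411) (.l 35)) (.a (.b (.c (.l 5411) (.l 5027)) (.c (.l 5411) (.l 5027))) (.b (.c
      (.l 5411) (.l 5027)) (.c (.l 5411) (.l 5027)))))))) (.b (.c (.l 6819) (.c (.c (.l 6307) (.l
      5795)) (.a (.c (.l 5411) (.c (.l 5283) (.l 35))) (.c (.l 5411) (.c (.l 5283) (.l 35))))))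
      (.c (.l 6851) (.c (.c (.l 6307) (.l 5795)) (.a (.c (.l 5411) (.b (.l 5027) (.l 5027))) (.b
      (.a (.c (.l 5411) (.l 5027)) (.c (.l 5411) (.l 5027))) (.a (.c (.l 5411) (.l 5027)) (.c (.l
      5411) (.l 5027)))))))))

theorem x1_t2b_c1_u_f_h21 : chk3 (onCell 0 2684354560 0 1073741824 0 26843546 T1_t2b_c1_u_f) x1_t2b_c1_u_f_t21 30 6 3 = true := by decide +kernel

def x1_t2b_c1_u_f_t22 : T :=
  (.b (.c (.c (.l 8099) (.l 6819)) (.c (.c (.a (.l 6307) (.l 6307)) (.a (.l 5795) (.l 5795))) (.a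
      (.b (.c (.l 5411) (.l 35)) (.c (.l 5411) (.l 35))) (.b (.c (.l 5411) (.l 35)) (.c (.l 5411)
      (.l 35)))))) (.c (.c (.l 8099) (.l 6819)) (.c (.c (.a (.l 6307) (.l 6307)) (.a (.l 5795)
      (.l 5795))) (.a (.b (.c (.l 5411) (.a (.l 35) (.l 35))) (.c (.l 5411) (.b (.l 35) (.l
      35)))) (.b (.a (.c (.l 5411) (.l 35)) (.c (.l 5411) (.l 35))) (.b (.a (.c (.l 5411) (.l
      5027)) (.l 35)) (.a (.l 35) (.l 35))))))))

theorem x1_t2b_c1_u_f_h22 : chk3 (onCell 0 2684354560 0 1073741824 0 26843546 T1_t2b_c1_u_f) x1_t2b_c1_u_f_t22 31 6 3 = true := by decide +kernel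

def x1_t2b_c1_u_f_t23 : T :=
  (.a (.b (.l 10179) (.c (.l 20419) (.l 10179))) (.b (.l 10179) (.l 10179)))

theorem x1_t2b_c1_u_f_h23 : chk3 (onCell 0 2684354560 0 1073741824 0 26843546 T1_t2b_c1_u_f) x1_t2b_c1_u_f_t23 15 7 2 = true := by decide +kernel

def x1_t2b_c1_u_f_t24 : T :=
  (.a (.b (.c (.c (.l 8131) (.l 6851)) (.b (.c (.c (.l 6307) (.l 5795)) (.a (.b (.c (.l 5411) (.l
      5027)) (.a (.l 5027) (.l 5027))) (.c (.l 5411) (.l 35)))) (.c (.c (.l 6307) (.l 5795)) (.a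
      (.b (.l 5027) (.l 5027)) (.b (.l 35) (.l 5027)))))) (.c (.b (.l 6851) (.l 6851)) (.b (.a
      (.b (.c (.l 5795) (.l 5027)) (.c (.l 5827) (.l 5027))) (.b (.c (.l 5795) (.l 5027)) (.c (.l
      5827) (.l 5027)))) (.a (.b (.c (.l 5827) (.l 5027)) (.c (.l 5827) (.l 5059))) (.c (.l 5827)
      (.l 5059)))))) (.b (.c (.c (.l 8131) (.l 6851)) (.b (.c (.c (.l 6307) (.l 5795)) (.a (.b
      (.a (.l 35) (.l 35)) (.l 35)) (.b (.l 35) (.l 35)))) (.a (.c (.l 5795) (.l 35)) (.b (.c (.l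
      5795) (.l 5027)) (.a (.c (.l 5795) (.l 5027)) (.c (.l 5795) (.l 5027))))))) (.c (.b (.c (.l
      8131) (.l 6851)) (.a (.l 6851) (.l 6851))) (.b (.a (.c (.l 5827) (.l 5027)) (.c (.l 5827)
      (.l 5027))) (.c (.l 5827) (.a (.l 5059) (.l 5059)))))))

theorem x1_t2b_c1_u_f_h24 : chk3 (onCell 0 2684354560 0 1073741824 0 26843546 T1_t2b_c1_u_f) x1_t2b_c1_u_f_t24 15 7 3 = true := by decide +kernel

theorem x1_t2b_c1_u_f : Tree 0 2684354560 0 1073741824 0 26843546 T1_t2b_c1_u_f :=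
  ⟨_, (chk3_a (chk3_a x1_t2b_c1_u_f_h0 (chk3_b (chk3_a x1_t2b_c1_u_f_h1 x1_t2b_c1_u_f_h2) (chk3_a
      x1_t2b_c1_u_f_h3 x1_t2b_c1_u_f_h4))) (chk3_a (chk3_b (chk3_a x1_t2b_c1_u_f_h5
      x1_t2b_c1_u_f_h6) (chk3_a x1_t2b_c1_u_f_h7 x1_t2b_c1_u_f_h8)) (chk3_b (chk3_a (chk3_b
      x1_t2b_c1_u_f_h9 x1_t2b_c1_u_f_h10) (chk3_b (chk3_c x1_t2b_c1_u_f_h11 (chk3_a
      x1_t2b_c1_u_f_h12 x1_t2b_c1_u_f_h13)) (chk3_c x1_t2b_c1_u_f_h14 (chk3_a x1_t2b_c1_u_f_h15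
      x1_t2b_c1_u_f_h16)))) (chk3_a (chk3_b x1_t2b_c1_u_f_h17 (chk3_c x1_t2b_c1_u_f_h18
      x1_t2b_c1_u_f_h19)) (chk3_b (chk3_c x1_t2b_c1_u_f_h20 (chk3_a x1_t2b_c1_u_f_h21
      x1_t2b_c1_u_f_h22)) (chk3_c x1_t2b_c1_u_f_h23 x1_t2b_c1_u_f_h24))))))⟩

def x2_t2b_c1_u_f_t0 : T :=
  (.c (.c (.a (.l 16323) (.b (.l 16323) (.l 16323))) (.a (.b (.l 8131) (.l 8099)) (.b (.l 8131)
      (.l 8131)))) (.c (.b (.a (.l 5443) (.b (.l 5443) (.l 5443))) (.a (.b (.l 5411) (.l 5411))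
      (.l 5443))) (.b (.a (.b (.l 4003) (.l 4003)) (.c (.l 4675) (.b (.l 67) (.l 4035)))) (.a (.b
      (.l 4003) (.l 4003)) (.a (.l 4035) (.l 4035))))))

theorem x2_t2b_c1_u_f_h0 : chk3 (onCell 0 1073741824 0 429496730 0 67108864 T2_t2b_c1_u_f) x2_t2b_c1_u_f_t0 1 1 2 = true := by decide +kernel

def x2_t2b_c1_u_f_t1 : T :=
  (.a (.b (.c (.b (.l 67) (.l 3235)) (.b (.l 35) (.l 35))) (.a (.b (.b (.l 2723) (.c (.l 3235)
      (.l 2723))) (.c (.l 3235) (.b (.l 2723) (.l 2723)))) (.a (.b (.b (.l 2723) (.l 2723)) (.c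
      (.l 3235) (.l 2723))) (.c (.b (.l 3235) (.l 3235)) (.b (.l 2723) (.l 2723)))))) (.c (.b (.c
      (.b (.l 67) (.l 3651)) (.b (.l 67) (.l 67))) (.c (.a (.l 3651) (.l 3651)) (.a (.l 3267) (.b
      (.l 3267) (.l 3267))))) (.b (.c (.b (.l 67) (.l 67)) (.b (.l 67) (.l 67))) (.b (.c (.l
      3011) (.l 67)) (.a (.l 2723) (.l 2755))))))

theorem x2_t2b_c1_u_f_h1 : chk3 (onCell 0 1073741824 0 429496730 0 67108864 T2_t2b_c1_u_f) x2_t2b_c1_u_f_t1 1 1 6 = true := by decide +kernel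

def x2_t2b_c1_u_f_t2 : T :=
  (.b (.c (.b (.l 35) (.c (.l 35) (.l 35))) (.b (.l 35) (.a (.l 35) (.l 35)))) (.c (.b (.b (.b
      (.l 2339) (.l 2339)) (.a (.l 2339) (.c (.l 2467) (.l 2339)))) (.a (.c (.b (.l 2467) (.l
      35)) (.b (.l 35) (.c (.l 35) (.l 35)))) (.b (.c (.l 2467) (.l 2339)) (.c (.l 2467) (.l
      2339))))) (.b (.a (.b (.l 1955) (.b (.l 1955) (.l 35))) (.b (.l 1955) (.c (.l 2211) (.l
      1955)))) (.b (.c (.a (.l 35) (.l 2211)) (.a (.l 35) (.l 35))) (.c (.a (.c (.l 35) (.l 35))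
      (.l 35)) (.a (.c (.l 35) (.l 35)) (.l 35)))))))

theorem x2_t2b_c1_u_f_h2 : chk3 (onCell 0 1073741824 0 429496730 0 67108864 T2_t2b_c1_u_f) x2_t2b_c1_u_f_t2 2 1 7 = true := by decide +kernel

def x2_t2b_c1_u_f_t3 : T :=
  (.a (.c (.b (.b (.l 67) (.l 67)) (.b (.c (.l 2499) (.l 2371)) (.b (.c (.l 2467) (.l 2339)) (.c
      (.l 2467) (.l 35))))) (.b (.b (.l 67) (.l 67)) (.b (.c (.b (.l 35) (.l 2211)) (.b (.l 35)
      (.l 35))) (.b (.a (.c (.l 2211) (.l 1955)) (.b (.l 1955) (.l 1955))) (.a (.c (.l 2211) (.l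
      35)) (.b (.c (.l 2211) (.l 1955)) (.c (.l 2211) (.l 35)))))))) (.b (.c (.c (.b (.l 67) (.l
      67)) (.b (.l 67) (.l 67))) (.b (.l 67) (.l 67))) (.c (.b (.c (.l 67) (.l 67)) (.a (.b (.l
      2371) (.c (.l 2467) (.l 2339))) (.b (.l 2371) (.l 2371)))) (.b (.b (.l 67) (.l 67)) (.c (.a
      (.b (.l 2211) (.l 2211)) (.l 2243)) (.a (.l 67) (.l 1987)))))))

theorem x2_t2b_c1_u_f_h3 : chk3 (onCell 0 1073741824 0 429496730 0 67108864 T2_t2b_c1_u_f) x2_t2b_c1_u_f_t3 3 1 7 = true := by decide +kernel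

theorem x2_t2b_c1_u_f : Tree 0 1073741824 0 429496730 0 67108864 T2_t2b_c1_u_f :=
  ⟨_, (chk3_c x2_t2b_c1_u_f_h0 (chk3_c x2_t2b_c1_u_f_h1 (chk3_a x2_t2b_c1_u_f_h2
      x2_t2b_c1_u_f_h3)))⟩

end Pool.Agent.Strip051.LC.E1.Ch
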