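import Pool.Agent.Strip051.LC.E1.Ch.Te

/-! # Rests near the full period: certificates P9 -/

set_option maxRecDepth 100000

namespace Pool.Agent.Strip051.LC.E1.Ch

open Pool.Agent.Strip051.PB
open Pool.Agent.Strip051.LC.E0.Ch (onCell Tree)

def x1_t2b_c1_u_n_t0 : T :=
  (.b (.a (.l 5035) (.b (.l 5067) (.l 5067))) (.a (.l 5067) (.b (.l 5067) (.c (.l 10187) (.l
      5067)))))

theorem x1_t2b_c1_u_n_h0 : chk3 (onCell 0 2684354560 0 1073741824 0 26843546 T1_t2b_c1_u_n) x1_t2b_c1_u_n_t0 4 1 1 = true := by decide +kernel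

def x1_t2b_c1_u_n_t1 : T :=
  (.b (.a (.b (.c (.a (.c (.l 20387) (.l 10147)) (.c (.l 20387) (.l 10147))) (.a (.c (.l 6819)
      (.l 5027)) (.c (.l 6819) (.l 5027)))) (.c (.a (.c (.l 20387) (.l 10179)) (.c (.l 20387) (.l
      10147))) (.a (.c (.l 6851) (.l 5059)) (.l 5027)))) (.b (.c (.a (.l 10147) (.l 10147)) (.a
      (.c (.l 6819) (.l 5027)) (.c (.l 6819) (.l 5027)))) (.c (.a (.l 10147) (.l 10179)) (.a (.c
      (.l 6819) (.l 5027)) (.c (.l 6851) (.l 5059)))))) (.a (.b (.c (.a (.b (.l 10179) (.l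
      10179)) (.c (.l 20419) (.l 10179))) (.a (.b (.l 5059) (.l 5059)) (.l 5059))) (.c (.a (.b
      (.l 10179) (.l 10115)) (.c (.l 20419) (.l 10179))) (.a (.b (.l 5059) (.l 4995)) (.b (.l
      5059) (.l 5059))))) (.b (.c (.a (.l 10179) (.l 10179)) (.a (.c (.l 6851) (.l 5059)) (.c (.l
      6851) (.l 5059)))) (.c (.a (.c (.l 20419) (.l 10179)) (.l 10179)) (.a (.b (.l 5059) (.l
      5059)) (.b (.l 5059) (.l 5059)))))))

theorem x1_t2b_c1_u_n_h1 : chk3 (onCell 0 2684354560 0 1073741824 0 26843546 T1_t2b_c1_u_n) x1_t2b_c1_u_n_t1 5 1 1 = true := by decide +kernel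

def x1_t2b_c1_u_n_t2 : T :=
  (.b (.a (.b (.c (.c (.a (.l 20387) (.l 20387)) (.a (.l 10147) (.l 10147))) (.c (.a (.l 6819)
      (.l 6819)) (.a (.l 5027) (.l 5059)))) (.c (.a (.l 10179) (.l 10179)) (.c (.a (.l 6851) (.l
      6851)) (.a (.l 5059) (.l 5059))))) (.b (.c (.c (.l 20419) (.l 10179)) (.c (.a (.l 6819) (.l
      6819)) (.a (.l 5059) (.b (.l 5027) (.l 5027))))) (.c (.c (.l 20419) (.l 10179)) (.c (.a (.l
      6851) (.l 6851)) (.a (.l 5059) (.l 5059)))))) (.a (.b (.c (.a (.l 10179) (.l 10179)) (.c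
      (.a (.l 6851) (.l 6851)) (.a (.l 5059) (.l 5059)))) (.c (.a (.l 10179) (.l 10179)) (.a (.b
      (.l 5059) (.l 5059)) (.b (.l 5059) (.c (.l 6851) (.l 5059)))))) (.b (.c (.c (.l 20419) (.l
      10179)) (.c (.b (.l 6851) (.l 6851)) (.a (.l 5059) (.l 5059)))) (.c (.a (.l 10179) (.l
      10179)) (.a (.b (.c (.l 6851) (.l 5059)) (.c (.l 6851) (.l 5059))) (.c (.l 6851) (.b (.l
      5059) (.l 5059))))))))

theorem x1_t2b_c1_u_n_h2 : chk3 (onCell 0 2684354560 0 1073741824 0 26843546 T1_t2b_c1_u_n) x1_t2b_c1_u_n_t2 6 1 1 = true := by decide +kernel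

def x1_t2b_c1_u_n_t3 : T :=
  (.a (.b (.c (.c (.l 20387) (.l 10147)) (.c (.b (.l 6851) (.l 6851)) (.a (.b (.l 5027) (.l
      5027)) (.b (.b (.a (.l 5027) (.l 5027)) (.a (.l 5027) (.l 5027))) (.c (.l 5795) (.l
      5027)))))) (.c (.c (.l 20419) (.l 10179)) (.c (.a (.l 6851) (.l 6851)) (.a (.c (.l 5827)
      (.l 5027)) (.c (.l 5795) (.l 5027)))))) (.b (.c (.c (.l 20387) (.l 10147)) (.c (.c (.l
      8131) (.a (.l 6819) (.l 6819))) (.a (.b (.a (.b (.c (.l 5795) (.l 5027)) (.l 5027)) (.c (.l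
      5795) (.l 5027))) (.b (.a (.l 5027) (.b (.l 5027) (.l 5027))) (.a (.l 5027) (.c (.l 5795)
      (.l 5027))))) (.c (.l 5795) (.c (.l 35) (.b (.l 5027) (.l 5027))))))) (.c (.c (.l 20419)
      (.l 10179)) (.c (.b (.l 6851) (.l 6851)) (.b (.a (.c (.l 5795) (.l 5027)) (.b (.a (.b (.l
      5027) (.l 5027)) (.b (.c (.l 5795) (.l 5027)) (.c (.l 5795) (.l 5027)))) (.c (.l 5795) (.l
      5027)))) (.c (.l 5795) (.a (.l 5027) (.l 5027))))))))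

theorem x1_t2b_c1_u_n_h3 : chk3 (onCell 0 2684354560 0 1073741824 0 26843546 T1_t2b_c1_u_n) x1_t2b_c1_u_n_t3 7 2 1 = true := by decide +kernel

def x1_t2b_c1_u_n_t4 : T :=
  (.a (.b (.c (.a (.l 10179) (.l 10179)) (.c (.b (.l 6851) (.l 6851)) (.b (.a (.l 5059) (.c (.l
      5795) (.l 5027))) (.a (.l 5059) (.c (.l 5827) (.l 5027)))))) (.c (.b (.l 10179) (.l 10179))
      (.a (.c (.l 6851) (.b (.l 5059) (.l 5059))) (.c (.l 6851) (.b (.c (.l 5827) (.l 5027)) (.c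
      (.l 5827) (.l 5059))))))) (.b (.c (.b (.l 10179) (.l 10179)) (.c (.b (.l 6851) (.l 6851))
      (.b (.a (.c (.l 5795) (.l 5027)) (.c (.l 5795) (.l 5027))) (.a (.c (.l 5795) (.l 5027)) (.c
      (.l 5795) (.l 5027)))))) (.c (.b (.l 10179) (.l 10179)) (.a (.c (.l 6851) (.b (.c (.l 5827)
      (.l 5027)) (.c (.l 5827) (.l 5059)))) (.c (.b (.l 6851) (.l 6851)) (.b (.b (.c (.l 5795)
      (.l 5027)) (.c (.l 5795) (.l 5027))) (.b (.c (.l 5827) (.l 5027)) (.a (.l 5059) (.l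
      5059)))))))))

theorem x1_t2b_c1_u_n_h4 : chk3 (onCell 0 2684354560 0 1073741824 0 26843546 T1_t2b_c1_u_n) x1_t2b_c1_u_n_t4 7 3 1 = true := by decide +kernel

theorem x1_t2b_c1_u_n : Tree 0 2684354560 0 1073741824 0 26843546 T1_t2b_c1_u_n :=
  ⟨_, (chk3_a (chk3_a x1_t2b_c1_u_n_h0 x1_t2b_c1_u_n_h1) (chk3_a x1_t2b_c1_u_n_h2 (chk3_b
      x1_t2b_c1_u_n_h3 x1_t2b_c1_u_n_h4)))⟩

def x2_t2b_c1_u_n_t0 : T :=
  (.c (.c (.a (.a (.b (.l 8131) (.l 8131)) (.b (.l 8131) (.l 8131))) (.b (.l 8131) (.l 8131)))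
      (.a (.b (.b (.l 4035) (.l 4035)) (.c (.l 5443) (.l 4035))) (.b (.b (.l 4035) (.l 4035)) (.a
      (.l 4035) (.l 4035))))) (.c (.a (.b (.b (.l 2755) (.l 2755)) (.a (.b (.l 2723) (.l 2755))
      (.c (.l 3267) (.b (.l 2755) (.l 2723))))) (.c (.b (.b (.l 3267) (.l 3267)) (.a (.l 3267)
      (.b (.l 3267) (.l 3267)))) (.b (.b (.l 2755) (.l 2755)) (.a (.l 2755) (.b (.l 2755) (.l
      2755)))))) (.a (.c (.b (.b (.l 2371) (.l 2371)) (.a (.b (.l 2339) (.l 2339)) (.b (.l 2339)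
      (.l 2339)))) (.b (.b (.l 1987) (.l 1987)) (.a (.b (.l 1955) (.c (.l 2211) (.l 1955))) (.b
      (.l 1955) (.l 1955))))) (.c (.b (.b (.l 2371) (.b (.l 2371) (.l 2371))) (.a (.b (.l 2371)
      (.l 2339)) (.b (.l 2371) (.l 2371)))) (.b (.b (.l 1987) (.a (.l 1987) (.l 1987))) (.a (.b
      (.l 1987) (.l 1955)) (.c (.b (.l 2243) (.l 2243)) (.b (.l 1987) (.l 1987)))))))))

theorem x2_t2b_c1_u_n_h0 : chk3 (onCell 0 1073741824 0 429496730 0 67108864 T2_t2b_c1_u_n) x2_t2b_c1_u_n_t0 1 1 1 = true := by decide +kernel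

theorem x2_t2b_c1_u_n : Tree 0 1073741824 0 429496730 0 67108864 T2_t2b_c1_u_n :=
  ⟨_, x2_t2b_c1_u_n_h0⟩

def x1_t3a_c1_f_t0 : T :=
  (.a (.c (.c (.l 20359) (.l 10119)) (.l 4999)) (.a (.c (.l 10119) (.l 4999)) (.c (.c (.l 20423)
      (.l 10183)) (.c (.l 6855) (.b (.l 15) (.l 5063))))))

theorem x1_t3a_c1_f_h0 : chk3 (onCell 0 2684354560 0 1073741824 0 26843546 T1_t3a_c1_f) x1_t3a_c1_f_t0 2 2 1 = true := by decide +kernel

def x1_t3a_c1_f_t1 : T :=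
  (.a (.c (.c (.l 20423) (.l 10183)) (.b (.l 15) (.c (.l 6855) (.b (.l 5063) (.b (.a (.l 5063)
      (.l 5063)) (.a (.l 5063) (.a (.l 4995) (.l 4995)))))))) (.c (.c (.l 20423) (.b (.l 15) (.l
      10183))) (.b (.l 15) (.b (.c (.l 6855) (.b (.l 15) (.c (.l 5831) (.l 5063)))) (.b (.a (.c
      (.l 6855) (.a (.l 5063) (.c (.l 5831) (.l 5063)))) (.c (.l 6855) (.a (.c (.l 5831) (.l 71))
      (.l 4999)))) (.a (.c (.l 6855) (.a (.b (.l 4995) (.l 4995)) (.b (.l 4995) (.l 4995)))) (.c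
      (.l 6855) (.a (.b (.l 4995) (.l 4995)) (.b (.l 4995) (.l 4995))))))))))

theorem x1_t3a_c1_f_h1 : chk3 (onCell 0 2684354560 0 1073741824 0 26843546 T1_t3a_c1_f) x1_t3a_c1_f_t1 6 2 1 = true := by decide +kernel

def x1_t3a_c1_f_t2 : T :=
  (.a (.b (.l 15) (.c (.c (.l 20423) (.c (.l 13639) (.l 10183))) (.b (.c (.b (.l 15) (.l 6791))
      (.c (.b (.l 15) (.l 5767)) (.b (.l 15) (.l 4999)))) (.b (.a (.l 5063) (.c (.l 6791) (.l
      5063))) (.a (.c (.l 6855) (.a (.b (.l 4995) (.l 4995)) (.b (.l 4995) (.l 4995)))) (.c (.l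
      6855) (.l 5063))))))) (.b (.l 15) (.b (.c (.c (.l 20359) (.l 10119)) (.c (.l 6855) (.b (.l
      15) (.c (.l 5831) (.l 5063))))) (.b (.b (.c (.l 10183) (.a (.l 5063) (.c (.l 6855) (.l
      71)))) (.c (.a (.l 10119) (.l 10183)) (.a (.c (.l 6791) (.l 5063)) (.c (.l 6855) (.a (.l
      4995) (.l 4995)))))) (.c (.a (.l 10183) (.c (.l 20423) (.a (.l 10115) (.l 10115)))) (.a (.c
      (.l 6855) (.l 5063)) (.c (.a (.l 6787) (.l 6787)) (.a (.b (.l 4995) (.l 4995)) (.b (.l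
      4995) (.l 4995))))))))))

theorem x1_t3a_c1_f_h2 : chk3 (onCell 0 2684354560 0 1073741824 0 26843546 T1_t3a_c1_f) x1_t3a_c1_f_t2 7 2 1 = true := by decide +kernel

def x1_t3a_c1_f_t3 : T :=
  (.a (.c (.l 10119) (.l 4999)) (.b (.b (.a (.c (.l 10119) (.l 4999)) (.c (.l 10119) (.l 4999)))
      (.a (.c (.l 10119) (.l 4999)) (.c (.l 10119) (.l 4999)))) (.a (.c (.l 10119) (.l 4999)) (.c
      (.l 10183) (.l 5063)))))

theorem x1_t3a_c1_f_h3 : chk3 (onCell 0 2684354560 0 1073741824 0 26843546 T1_t3a_c1_f) x1_t3a_c1_f_t3 4 3 1 = true := by decide +kernel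

def x1_t3a_c1_f_t4 : T :=
  (.a (.b (.a (.c (.l 10119) (.l 4999)) (.c (.l 10183) (.l 5063))) (.c (.l 10183) (.l 5063))) (.b
      (.c (.l 10183) (.l 5063)) (.c (.l 10183) (.a (.l 5063) (.c (.b (.l 6787) (.l 6787)) (.b (.l
      4995) (.l 4995)))))))

theorem x1_t3a_c1_f_h4 : chk3 (onCell 0 2684354560 0 1073741824 0 26843546 T1_t3a_c1_f) x1_t3a_c1_f_t4 5 6 1 = true := by decide +kernel

def x1_t3a_c1_f_t5 : T :=
  (.b (.c (.l 10183) (.l 5063)) (.c (.a (.c (.a (.b (.l 20355) (.l 20355)) (.c (.c (.l 81795) (.l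
      40835)) (.l 20355))) (.a (.c (.l 13571) (.l 10115)) (.c (.l 13571) (.l 10115)))) (.c (.a
      (.c (.l 40835) (.l 20355)) (.c (.l 40835) (.l 20355))) (.a (.l 10115) (.l 10115)))) (.a (.c
      (.a (.l 6787) (.l 6787)) (.c (.a (.l 5763) (.l 5763)) (.a (.l 4995) (.l 4995)))) (.c (.c
      (.b (.l 8067) (.l 8067)) (.b (.l 6787) (.l 6787))) (.b (.l 4995) (.l 4995))))))

theorem x1_t3a_c1_f_h5 : chk3 (onCell 0 2684354560 0 1073741824 0 26843546 T1_t3a_c1_f) x1_t3a_c1_f_t5 10 7 1 = true := by decide +kernel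

def x1_t3a_c1_f_t6 : T :=
  (.c (.a (.b (.c (.a (.c (.b (.l 40835) (.l 40835)) (.l 20355)) (.c (.l 40835) (.l 20355))) (.a
      (.l 10115) (.l 10115))) (.c (.a (.l 20355) (.l 20355)) (.c (.b (.l 13571) (.l 13571)) (.b
      (.l 10115) (.l 10115))))) (.b (.c (.a (.c (.l 40835) (.l 20355)) (.l 20355)) (.a (.l 10115)
      (.l 10115))) (.c (.a (.l 20355) (.l 20355)) (.c (.b (.l 13571) (.l 13571)) (.l 10179)))))
      (.a (.b (.c (.b (.l 6787) (.l 6787)) (.b (.l 4995) (.l 4995))) (.c (.b (.l 6787) (.l 6787))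
      (.b (.l 4995) (.l 4995)))) (.b (.c (.b (.l 6787) (.l 6787)) (.b (.l 4995) (.l 4995))) (.c
      (.b (.l 6787) (.l 6851)) (.b (.l 4995) (.l 5059))))))

theorem x1_t3a_c1_f_h6 : chk3 (onCell 0 2684354560 0 1073741824 0 26843546 T1_t3a_c1_f) x1_t3a_c1_f_t6 11 7 1 = true := by decide +kernel

def x1_t3a_c1_f_t7 : T :=
  (.a (.c (.a (.l 10183) (.c (.l 20423) (.l 10183))) (.a (.l 5063) (.c (.l 6855) (.b (.b (.l
      4995) (.l 4995)) (.l 4995))))) (.c (.a (.c (.l 20423) (.l 10183)) (.c (.b (.l 20423) (.c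
      (.l 40835) (.l 20355))) (.b (.l 10183) (.l 10115)))) (.a (.c (.l 6855) (.b (.b (.l 4995)
      (.l 4995)) (.l 4995))) (.c (.b (.l 6855) (.l 6787)) (.b (.b (.l 4995) (.l 4995)) (.b (.l
      4995) (.l 4995)))))))

theorem x1_t3a_c1_f_h7 : chk3 (onCell 0 2684354560 0 1073741824 0 26843546 T1_t3a_c1_f) x1_t3a_c1_f_t7 6 12 1 = true := by decide +kernel

def x1_t3a_c1_f_t8 : T :=
  (.a (.c (.a (.c (.a (.b (.l 20355) (.l 20355)) (.b (.l 20355) (.l 20355))) (.b (.l 10115) (.l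
      10115))) (.c (.a (.c (.l 40835) (.l 20355)) (.b (.l 20355) (.l 20419))) (.b (.l 10115) (.l
      10179)))) (.a (.c (.b (.l 6787) (.l 6787)) (.b (.l 4995) (.l 4995))) (.c (.b (.l 6787) (.l
      6851)) (.b (.l 5059) (.l 5059))))) (.c (.a (.c (.b (.l 20355) (.l 20419)) (.b (.l 10115)
      (.l 10179))) (.c (.b (.l 20419) (.l 20419)) (.b (.l 10179) (.l 10179)))) (.a (.c (.b (.l
      6851) (.l 6851)) (.b (.l 5059) (.l 5059))) (.c (.b (.l 6851) (.l 6851)) (.b (.l 5059) (.l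
      5059))))))

theorem x1_t3a_c1_f_h8 : chk3 (onCell 0 2684354560 0 1073741824 0 26843546 T1_t3a_c1_f) x1_t3a_c1_f_t8 6 13 1 = true := by decide +kernel

def x1_t3a_c1_f_t9 : T :=
  (.a (.c (.a (.c (.b (.l 20423) (.c (.l 40835) (.l 20355))) (.b (.b (.l 10115) (.l 10115)) (.l
      10115))) (.c (.b (.a (.l 20355) (.l 20355)) (.l 20355)) (.b (.b (.l 10115) (.l 10115)) (.l
      10115)))) (.a (.c (.b (.b (.l 6787) (.l 6787)) (.l 6787)) (.b (.b (.l 4995) (.l 4995)) (.b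
      (.l 4995) (.l 4995)))) (.c (.b (.b (.l 6787) (.l 6787)) (.l 6787)) (.b (.b (.l 4995) (.l
      4995)) (.b (.l 4995) (.l 4995)))))) (.c (.a (.c (.b (.a (.l 20355) (.l 20355)) (.l 20355))
      (.b (.b (.l 10115) (.l 10115)) (.l 10115))) (.c (.b (.a (.l 20355) (.l 20355)) (.l 20355))
      (.b (.l 10115) (.l 10115)))) (.a (.c (.b (.b (.l 6787) (.l 6787)) (.l 6787)) (.b (.b (.l
      4995) (.l 4995)) (.c (.l 5763) (.l 4995)))) (.c (.b (.b (.l 6787) (.l 6787)) (.b (.l 6787)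
      (.l 6787))) (.b (.c (.l 5763) (.l 5059)) (.c (.l 5763) (.l 3)))))))

theorem x1_t3a_c1_f_h9 : chk3 (onCell 0 2684354560 0 1073741824 0 26843546 T1_t3a_c1_f) x1_t3a_c1_f_t9 7 12 1 = true := by decide +kernel

def x1_t3a_c1_f_t10 : T :=
  (.a (.c (.a (.c (.b (.l 20355) (.l 20355)) (.b (.l 10115) (.l 10115))) (.c (.b (.l 20355) (.l
      20355)) (.b (.l 10115) (.l 10115)))) (.a (.c (.b (.l 6851) (.l 6787)) (.b (.l 5059) (.c (.l
      5763) (.l 5059)))) (.c (.b (.l 6787) (.l 6787)) (.b (.c (.l 5763) (.l 5059)) (.c (.l 5763)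
      (.l 5059)))))) (.c (.a (.c (.b (.l 20355) (.l 20355)) (.b (.l 10115) (.l 10115))) (.c (.b
      (.l 20355) (.l 20355)) (.b (.l 10115) (.l 10115)))) (.a (.c (.b (.l 6787) (.l 6787)) (.b
      (.c (.l 5763) (.l 4995)) (.c (.l 5763) (.l 5059)))) (.c (.b (.a (.l 6787) (.l 6787)) (.b
      (.l 6787) (.l 6787))) (.b (.c (.l 5763) (.l 67)) (.c (.l 5763) (.l 5059)))))))

theorem x1_t3a_c1_f_h10 : chk3 (onCell 0 2684354560 0 1073741824 0 26843546 T1_t3a_c1_f) x1_t3a_c1_f_t10 7 13 1 = true := by decide +kernel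

def x1_t3a_c1_f_t11 : T :=
  (.a (.c (.a (.b (.c (.a (.l 20355) (.l 20419)) (.b (.l 10115) (.l 10179))) (.c (.a (.l 20419)
      (.l 20419)) (.c (.l 13635) (.l 10179)))) (.b (.c (.a (.l 20419) (.l 20419)) (.b (.l 10179)
      (.l 10179))) (.c (.c (.l 40899) (.l 20419)) (.l 10179)))) (.b (.a (.b (.l 5059) (.l 5059))
      (.b (.l 5059) (.l 5059))) (.a (.c (.l 6851) (.l 5059)) (.c (.l 6851) (.l 5059))))) (.c (.b
      (.a (.c (.a (.l 20419) (.l 20419)) (.b (.l 10179) (.l 10179))) (.c (.b (.l 20419) (.l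
      20355)) (.l 10179))) (.a (.c (.c (.l 40899) (.l 20419)) (.l 10179)) (.c (.c (.l 40835) (.l
      20355)) (.l 10115)))) (.b (.a (.b (.l 5059) (.c (.l 6851) (.l 5059))) (.c (.l 6851) (.c (.a
      (.l 5827) (.l 5827)) (.b (.l 5059) (.l 5059))))) (.a (.c (.l 6851) (.a (.l 5059) (.l
      5059))) (.c (.l 6851) (.c (.b (.l 5827) (.l 5827)) (.c (.b (.l 5443) (.l 5443)) (.b (.l
      5059) (.l 5059)))))))))

theorem x1_t3a_c1_f_h11 : chk3 (onCell 0 2684354560 0 1073741824 0 26843546 T1_t3a_c1_f) x1_t3a_c1_f_t11 6 7 1 = true := by decide +kernel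

def x1_t3a_c1_f_t12 : T :=
  (.a (.c (.a (.c (.c (.l 40835) (.l 20355)) (.l 10115)) (.c (.c (.l 40835) (.l 20355)) (.l
      10115))) (.a (.c (.b (.l 6787) (.l 6787)) (.c (.b (.l 5763) (.l 5763)) (.c (.b (.l 5379)
      (.l 5379)) (.b (.l 5059) (.l 5059))))) (.c (.b (.l 6787) (.l 6787)) (.c (.b (.l 5763) (.l
      5827)) (.c (.b (.l 5379) (.l 5443)) (.b (.l 5059) (.l 5059))))))) (.c (.a (.c (.b (.l
      20355) (.l 20355)) (.l 10115)) (.c (.b (.l 20355) (.l 20355)) (.l 10115))) (.a (.c (.b (.l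
      6787) (.l 6851)) (.c (.b (.l 5763) (.l 5827)) (.b (.l 5059) (.l 5059)))) (.c (.b (.b (.l
      6787) (.l 6787)) (.b (.l 6787) (.l 6851))) (.c (.b (.l 5763) (.l 5827)) (.b (.l 5059) (.c
      (.l 5443) (.l 5059))))))))

theorem x1_t3a_c1_f_h12 : chk3 (onCell 0 2684354560 0 1073741824 0 26843546 T1_t3a_c1_f) x1_t3a_c1_f_t12 7 14 1 = true := by decide +kernel

def x1_t3a_c1_f_t13 : T :=
  (.a (.c (.a (.c (.l 20355) (.l 10115)) (.c (.l 20355) (.l 10115))) (.a (.c (.b (.l 6787) (.l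
      6851)) (.c (.b (.l 5827) (.l 5827)) (.c (.b (.l 5443) (.l 5443)) (.b (.l 5059) (.l
      5059))))) (.c (.b (.l 6851) (.l 6851)) (.c (.b (.l 5827) (.l 5827)) (.b (.l 5059) (.c (.l
      5443) (.l 5059))))))) (.c (.a (.c (.l 20355) (.l 10115)) (.b (.l 10115) (.l 10115))) (.b
      (.a (.c (.l 6851) (.c (.l 5827) (.c (.l 5443) (.l 5059)))) (.c (.b (.l 6851) (.l 6851)) (.c
      (.l 5827) (.b (.l 5059) (.l 5059))))) (.a (.c (.b (.l 6851) (.l 6851)) (.c (.l 5827) (.a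
      (.l 5059) (.l 5059)))) (.c (.b (.b (.l 6851) (.l 6851)) (.a (.l 6851) (.l 6851))) (.c (.l
      5827) (.b (.l 5059) (.l 5059))))))))

theorem x1_t3a_c1_f_h13 : chk3 (onCell 0 2684354560 0 1073741824 0 26843546 T1_t3a_c1_f) x1_t3a_c1_f_t13 7 15 1 = true := by decide +kernel

theorem x1_t3a_c1_f : Tree 0 2684354560 0 1073741824 0 26843546 T1_t3a_c1_f :=
  ⟨_, (chk3_b (chk3_a x1_t3a_c1_f_h0 (chk3_a x1_t3a_c1_f_h1 x1_t3a_c1_f_h2)) (chk3_a (chk3_a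
      x1_t3a_c1_f_h3 (chk3_b x1_t3a_c1_f_h4 (chk3_a x1_t3a_c1_f_h5 x1_t3a_c1_f_h6))) (chk3_b
      (chk3_a (chk3_b x1_t3a_c1_f_h7 x1_t3a_c1_f_h8) (chk3_b x1_t3a_c1_f_h9 x1_t3a_c1_f_h10))
      (chk3_a x1_t3a_c1_f_h11 (chk3_b x1_t3a_c1_f_h12 x1_t3a_c1_f_h13)))))⟩

end Pool.Agent.Strip051.LC.E1.Ch
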