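import Pool.Agent.Strip051.LC.E1.Ch.Te

/-! # Rests near the full period: certificate P_x1_t1b_c1_d_n_2 -/

set_option maxRecDepth 100000

namespace Pool.Agent.Strip051.LC.E1.Ch

open Pool.Agent.Strip051.PB
open Pool.Agent.Strip051.LC.E0.Ch (onCell Tree)

def x1_t1b_c1_d_n_t38 : T :=
  (.c (.c (.c (.c (.b (.c (.b (.l 20167) (.l 15)) (.b (.l 19911) (.l 15))) (.l 15)) (.b (.c (.b
      (.l 19527) (.l 15)) (.b (.l 19271) (.l 15))) (.l 15))) (.c (.b (.c (.b (.l 19015) (.l 15))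
      (.b (.l 18759) (.l 15))) (.l 15)) (.b (.c (.b (.l 18503) (.l 15)) (.b (.l 18247) (.l 15)))
      (.l 15)))) (.c (.b (.c (.b (.l 17735) (.l 15)) (.b (.l 17223) (.l 15))) (.l 15)) (.b (.c
      (.b (.l 16839) (.l 15)) (.b (.l 16327) (.l 15))) (.l 15)))) (.c (.c (.b (.c (.b (.l 15943)
      (.l 15)) (.b (.l 15559) (.l 15))) (.l 15)) (.b (.c (.b (.l 15303) (.l 15)) (.b (.l 14919)
      (.l 15))) (.l 15))) (.c (.b (.c (.b (.l 14535) (.l 15)) (.b (.l 14279) (.l 15))) (.l 15))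
      (.b (.c (.b (.l 13895) (.l 15)) (.b (.l 13639) (.l 15))) (.l 15)))))

theorem x1_t1b_c1_d_n_h38 : chk3 (onCell 0 2684354560 0 1073741824 0 26843546 T1_t1b_c1_d_n) x1_t1b_c1_d_n_t38 31 12 10 = true := by decide +kernel

def x1_t1b_c1_d_n_t39 : T :=
  (.c (.c (.c (.b (.b (.l 13127) (.l 15)) (.l 15)) (.b (.b (.l 12615) (.l 15)) (.l 15))) (.b (.c
      (.b (.l 12103) (.l 15)) (.b (.l 11719) (.l 15))) (.l 15))) (.c (.b (.c (.b (.l 11335) (.l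
      15)) (.b (.l 10951) (.l 15))) (.l 15)) (.b (.c (.b (.l 10567) (.l 15)) (.b (.l 10183) (.l
      15))) (.l 15))))

theorem x1_t1b_c1_d_n_h39 : chk3 (onCell 0 2684354560 0 1073741824 0 26843546 T1_t1b_c1_d_n) x1_t1b_c1_d_n_t39 31 12 11 = true := by decide +kernel

def x1_t1b_c1_d_n_t40 : T :=
  (.l 15)

theorem x1_t1b_c1_d_n_h40 : chk3 (onCell 0 2684354560 0 1073741824 0 26843546 T1_t1b_c1_d_n) x1_t1b_c1_d_n_t40 31 13 5 = true := by decide +kernel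

def x1_t1b_c1_d_n_t41 : T :=
  (.c (.c (.b (.l 9927) (.l 15)) (.b (.l 9671) (.l 15))) (.b (.c (.b (.l 9415) (.l 15)) (.b (.a
      (.l 71) (.l 9095)) (.l 15))) (.l 15)))

theorem x1_t1b_c1_d_n_h41 : chk3 (onCell 0 2684354560 0 1073741824 0 26843546 T1_t1b_c1_d_n) x1_t1b_c1_d_n_t41 30 24 24 = true := by decide +kernel

def x1_t1b_c1_d_n_t42 : T :=
  (.b (.c (.b (.a (.c (.b (.l 67) (.l 71)) (.b (.l 67) (.a (.c (.l 71) (.l 71)) (.l 8839)))) (.l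
      8839)) (.l 15)) (.b (.a (.c (.b (.l 67) (.a (.c (.b (.c (.l 71) (.l 71)) (.a (.l 71) (.l
      8775))) (.b (.c (.a (.l 99) (.l 67)) (.l 99)) (.a (.c (.b (.l 71) (.l 15)) (.b (.a (.l
      8711) (.b (.l 71) (.l 15))) (.l 15))) (.l 8775)))) (.l 8711))) (.b (.l 67) (.a (.c (.b (.l
      99) (.a (.c (.b (.a (.l 8711) (.b (.a (.b (.l 99) (.l 15)) (.l 99)) (.l 15))) (.l 15)) (.b
      (.a (.l 8583) (.b (.a (.b (.l 99) (.l 15)) (.l 99)) (.l 15))) (.l 15))) (.l 8647))) (.b (.l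
      99) (.a (.c (.b (.a (.l 8583) (.b (.a (.b (.l 99) (.l 99)) (.l 99)) (.l 15))) (.l 15)) (.b
      (.a (.l 8583) (.b (.a (.l 99) (.l 99)) (.l 15))) (.l 15))) (.l 8647)))) (.l 8583)))) (.l
      8583)) (.l 15))) (.l 15))

theorem x1_t1b_c1_d_n_h42 : chk3 (onCell 0 2684354560 0 1073741824 0 26843546 T1_t1b_c1_d_n) x1_t1b_c1_d_n_t42 30 24 50 = true := by decide +kernel

def x1_t1b_c1_d_n_t43 : T :=
  (.b (.a (.c (.b (.l 67) (.a (.c (.b (.l 99) (.a (.c (.b (.a (.l 8583) (.b (.l 99) (.l 15))) (.l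
      15)) (.b (.a (.b (.l 99) (.l 15)) (.b (.l 99) (.l 15))) (.l 15))) (.l 8519))) (.b (.l 99)
      (.a (.c (.b (.a (.b (.l 99) (.l 15)) (.b (.l 99) (.l 15))) (.l 15)) (.b (.a (.b (.l 99) (.l
      15)) (.b (.l 99) (.l 15))) (.l 15))) (.l 8519)))) (.l 8455))) (.b (.l 67) (.a (.c (.b (.l
      99) (.a (.c (.b (.a (.b (.l 99) (.l 15)) (.b (.l 99) (.l 15))) (.l 15)) (.b (.a (.b (.l 99)
      (.l 15)) (.b (.l 99) (.l 15))) (.l 15))) (.l 8519))) (.b (.l 99) (.a (.c (.b (.a (.b (.l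
      99) (.l 15)) (.b (.l 99) (.l 15))) (.l 15)) (.b (.a (.b (.l 99) (.l 15)) (.b (.l 99) (.l
      15))) (.l 15))) (.l 8391)))) (.l 8327)))) (.l 8327)) (.l 15))

theorem x1_t1b_c1_d_n_h43 : chk3 (onCell 0 2684354560 0 1073741824 0 26843546 T1_t1b_c1_d_n) x1_t1b_c1_d_n_t43 30 48 102 = true := by decide +kernel

def x1_t1b_c1_d_n_t44 : T :=
  (.b (.l 67) (.a (.c (.b (.l 67) (.a (.c (.b (.a (.b (.l 99) (.l 15)) (.b (.l 99) (.l 15))) (.l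
      15)) (.b (.a (.b (.l 99) (.l 15)) (.b (.l 99) (.l 15))) (.l 15))) (.l 8391))) (.b (.l 67)
      (.a (.c (.b (.a (.b (.l 99) (.l 15)) (.b (.l 99) (.a (.b (.l 99) (.l 15)) (.l 8391)))) (.l
      15)) (.b (.a (.b (.l 99) (.l 8199)) (.b (.l 99) (.a (.b (.l 99) (.l 15)) (.l 8263)))) (.l
      15))) (.l 8263)))) (.l 8199)))

theorem x1_t1b_c1_d_n_h44 : chk3 (onCell 0 2684354560 0 1073741824 0 26843546 T1_t1b_c1_d_n) x1_t1b_c1_d_n_t44 60 96 206 = true := by decide +kernel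

def x1_t1b_c1_d_n_t45 : T :=
  (.b (.l 67) (.a (.c (.b (.l 67) (.a (.c (.b (.a (.b (.l 99) (.l 8199)) (.b (.l 99) (.a (.b (.l
      99) (.l 15)) (.l 8263)))) (.l 15)) (.b (.a (.b (.l 99) (.l 8199)) (.b (.l 99) (.a (.b (.l
      99) (.l 15)) (.l 8263)))) (.l 15))) (.l 8263))) (.b (.l 67) (.a (.c (.b (.a (.b (.l 67) (.l
      8199)) (.b (.l 99) (.a (.b (.l 99) (.l 15)) (.l 8263)))) (.l 15)) (.b (.a (.b (.l 67) (.l
      8071)) (.b (.l 99) (.a (.b (.l 99) (.l 15)) (.l 8135)))) (.l 15))) (.l 8135)))) (.l 8071)))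

theorem x1_t1b_c1_d_n_h45 : chk3 (onCell 0 2684354560 0 1073741824 0 26843546 T1_t1b_c1_d_n) x1_t1b_c1_d_n_t45 60 96 207 = true := by decide +kernel

def x1_t1b_c1_d_n_t46 : T :=
  (.l 8071)

theorem x1_t1b_c1_d_n_h46 : chk3 (onCell 0 2684354560 0 1073741824 0 26843546 T1_t1b_c1_d_n) x1_t1b_c1_d_n_t46 61 96 103 = true := by decide +kernel

def x1_t1b_c1_d_n_t47 : T :=
  (.l 15)

theorem x1_t1b_c1_d_n_h47 : chk3 (onCell 0 2684354560 0 1073741824 0 26843546 T1_t1b_c1_d_n) x1_t1b_c1_d_n_t47 30 97 103 = true := by decide +kernel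

def x1_t1b_c1_d_n_t48 : T :=
  (.l 15)

theorem x1_t1b_c1_d_n_h48 : chk3 (onCell 0 2684354560 0 1073741824 0 26843546 T1_t1b_c1_d_n) x1_t1b_c1_d_n_t48 30 49 51 = true := by decide +kernel

def x1_t1b_c1_d_n_t49 : T :=
  (.b (.l 67) (.a (.c (.b (.l 67) (.a (.c (.b (.a (.b (.l 67) (.l 8071)) (.b (.l 67) (.a (.b (.l
      99) (.l 15)) (.l 8135)))) (.l 15)) (.b (.a (.b (.l 67) (.l 8071)) (.b (.l 67) (.a (.b (.l
      99) (.l 15)) (.l 99)))) (.l 15))) (.l 8135))) (.b (.l 67) (.a (.c (.b (.a (.b (.l 67) (.l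
      8071)) (.b (.l 67) (.a (.b (.l 99) (.l 15)) (.l 99)))) (.l 15)) (.b (.a (.b (.l 67) (.l
      8071)) (.b (.l 67) (.a (.b (.l 99) (.l 15)) (.l 99)))) (.l 15))) (.l 8135)))) (.l 8071)))

theorem x1_t1b_c1_d_n_h49 : chk3 (onCell 0 2684354560 0 1073741824 0 26843546 T1_t1b_c1_d_n) x1_t1b_c1_d_n_t49 60 96 208 = true := by decide +kernel

def x1_t1b_c1_d_n_t50 : T :=
  (.b (.l 67) (.a (.c (.b (.l 67) (.a (.c (.b (.a (.l 8135) (.b (.l 67) (.a (.b (.l 99) (.l 15))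
      (.l 99)))) (.l 15)) (.b (.a (.l 8007) (.b (.l 67) (.a (.b (.l 99) (.l 15)) (.l 99)))) (.l
      15))) (.l 8007))) (.b (.l 67) (.a (.c (.b (.a (.l 99) (.b (.l 67) (.a (.l 99) (.l 99))))
      (.l 15)) (.b (.a (.l 99) (.b (.l 67) (.a (.l 99) (.l 99)))) (.l 15))) (.l 8007)))) (.l
      7943)))

theorem x1_t1b_c1_d_n_h50 : chk3 (onCell 0 2684354560 0 1073741824 0 26843546 T1_t1b_c1_d_n) x1_t1b_c1_d_n_t50 60 96 209 = true := by decide +kernel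

def x1_t1b_c1_d_n_t51 : T :=
  (.l 7943)

theorem x1_t1b_c1_d_n_h51 : chk3 (onCell 0 2684354560 0 1073741824 0 26843546 T1_t1b_c1_d_n) x1_t1b_c1_d_n_t51 61 96 104 = true := by decide +kernel

def x1_t1b_c1_d_n_t52 : T :=
  (.l 15)

theorem x1_t1b_c1_d_n_h52 : chk3 (onCell 0 2684354560 0 1073741824 0 26843546 T1_t1b_c1_d_n) x1_t1b_c1_d_n_t52 30 97 104 = true := by decide +kernel

def x1_t1b_c1_d_n_t53 : T :=
  (.b (.a (.c (.b (.l 67) (.a (.c (.b (.l 67) (.a (.c (.b (.a (.l 99) (.b (.l 67) (.l 99))) (.l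
      15)) (.b (.a (.l 99) (.l 99)) (.l 15))) (.l 8007))) (.b (.l 67) (.a (.c (.b (.a (.l 99) (.l
      99)) (.l 15)) (.b (.a (.l 99) (.l 99)) (.l 15))) (.c (.a (.l 7879) (.l 7815)) (.a (.b (.l
      99) (.l 15)) (.l 7815)))))) (.l 7815))) (.b (.l 67) (.a (.c (.b (.l 67) (.a (.c (.b (.a (.l
      99) (.l 99)) (.l 15)) (.b (.a (.l 99) (.l 99)) (.l 15))) (.c (.a (.b (.l 99) (.l 15)) (.l
      7815)) (.a (.b (.l 99) (.l 15)) (.l 7815))))) (.b (.l 67) (.a (.c (.b (.a (.l 99) (.l 99))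
      (.l 15)) (.b (.l 99) (.l 15))) (.c (.a (.b (.l 99) (.l 15)) (.l 7815)) (.a (.b (.l 99) (.l
      15)) (.l 7687)))))) (.l 7687)))) (.l 7687)) (.l 15))

theorem x1_t1b_c1_d_n_h53 : chk3 (onCell 0 2684354560 0 1073741824 0 26843546 T1_t1b_c1_d_n) x1_t1b_c1_d_n_t53 30 48 105 = true := by decide +kernel

def x1_t1b_c1_d_n_t54 : T :=
  (.l 15)

theorem x1_t1b_c1_d_n_h54 : chk3 (onCell 0 2684354560 0 1073741824 0 26843546 T1_t1b_c1_d_n) x1_t1b_c1_d_n_t54 30 49 52 = true := by decide +kernel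

def x1_t1b_c1_d_n_t55 : T :=
  (.b (.l 67) (.a (.c (.b (.l 67) (.a (.c (.b (.l 99) (.l 15)) (.b (.l 99) (.l 15))) (.c (.a (.b
      (.l 99) (.l 7751)) (.l 7687)) (.a (.b (.l 99) (.l 7751)) (.l 7687))))) (.b (.l 67) (.a (.c
      (.b (.l 99) (.a (.l 15) (.b (.a (.b (.l 99) (.l 15)) (.l 7751)) (.l 15)))) (.b (.l 99) (.a
      (.l 7687) (.b (.a (.b (.l 99) (.l 15)) (.l 7751)) (.l 15))))) (.c (.a (.b (.l 99) (.l
      7751)) (.l 7687)) (.a (.b (.l 99) (.l 7751)) (.l 7687)))))) (.l 7687)))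

theorem x1_t1b_c1_d_n_h55 : chk3 (onCell 0 2684354560 0 1073741824 0 26843546 T1_t1b_c1_d_n) x1_t1b_c1_d_n_t55 60 96 212 = true := by decide +kernel

def x1_t1b_c1_d_n_t56 : T :=
  (.b (.l 67) (.a (.c (.b (.l 67) (.a (.c (.b (.l 99) (.a (.l 7687) (.b (.a (.b (.l 99) (.l 15))
      (.l 7751)) (.l 15)))) (.b (.l 99) (.a (.l 7559) (.b (.a (.b (.l 99) (.l 15)) (.l 71)) (.l
      15))))) (.c (.a (.b (.l 67) (.l 7751)) (.l 7687)) (.a (.b (.l 67) (.l 71)) (.l 7559)))))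
      (.b (.l 67) (.a (.c (.b (.l 99) (.a (.l 7559) (.b (.a (.b (.l 99) (.l 15)) (.l 71)) (.l
      15)))) (.b (.l 99) (.a (.l 7559) (.b (.a (.b (.l 99) (.l 15)) (.l 99)) (.l 15))))) (.c (.a
      (.b (.l 67) (.l 71)) (.l 7559)) (.a (.b (.l 67) (.l 71)) (.l 7559)))))) (.l 7559)))

theorem x1_t1b_c1_d_n_h56 : chk3 (onCell 0 2684354560 0 1073741824 0 26843546 T1_t1b_c1_d_n) x1_t1b_c1_d_n_t56 60 96 213 = true := by decide +kernel

def x1_t1b_c1_d_n_t57 : T :=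
  (.l 7559)

theorem x1_t1b_c1_d_n_h57 : chk3 (onCell 0 2684354560 0 1073741824 0 26843546 T1_t1b_c1_d_n) x1_t1b_c1_d_n_t57 61 96 106 = true := by decide +kernel

def x1_t1b_c1_d_n_t58 : T :=
  (.l 15)

theorem x1_t1b_c1_d_n_h58 : chk3 (onCell 0 2684354560 0 1073741824 0 26843546 T1_t1b_c1_d_n) x1_t1b_c1_d_n_t58 30 97 106 = true := by decide +kernel

def x1_t1b_c1_d_n_t59 : T :=
  (.b (.l 67) (.a (.c (.b (.l 67) (.a (.c (.b (.l 99) (.a (.l 7559) (.b (.a (.b (.l 99) (.l 15))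
      (.l 99)) (.l 15)))) (.b (.l 99) (.a (.l 7559) (.b (.a (.b (.l 99) (.l 15)) (.l 99)) (.l
      15))))) (.c (.a (.b (.l 67) (.b (.l 99) (.l 15))) (.l 7559)) (.a (.b (.l 67) (.b (.l 99)
      (.l 15))) (.l 7559))))) (.b (.l 67) (.a (.c (.b (.l 99) (.a (.l 7559) (.b (.a (.b (.l 99)
      (.l 15)) (.l 99)) (.l 15)))) (.b (.l 99) (.a (.l 7431) (.b (.a (.b (.l 99) (.l 15)) (.l
      99)) (.l 15))))) (.c (.a (.b (.l 67) (.b (.l 99) (.l 15))) (.l 7559)) (.a (.b (.l 67) (.b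
      (.l 99) (.l 15))) (.l 7431)))))) (.l 7495)))

theorem x1_t1b_c1_d_n_h59 : chk3 (onCell 0 2684354560 0 1073741824 0 26843546 T1_t1b_c1_d_n) x1_t1b_c1_d_n_t59 60 96 214 = true := by decide +kernel

def x1_t1b_c1_d_n_t60 : T :=
  (.b (.l 67) (.a (.c (.b (.l 67) (.a (.c (.b (.l 99) (.a (.l 7431) (.b (.a (.b (.l 99) (.l 15))
      (.l 99)) (.l 15)))) (.b (.l 99) (.a (.l 7431) (.b (.a (.b (.l 99) (.l 15)) (.l 99)) (.l
      15))))) (.c (.a (.b (.l 67) (.b (.l 99) (.l 15))) (.l 7431)) (.a (.b (.l 67) (.b (.l 99)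
      (.l 15))) (.l 7431))))) (.b (.l 67) (.a (.c (.b (.l 99) (.a (.l 7431) (.b (.a (.l 99) (.l
      99)) (.l 15)))) (.b (.l 67) (.a (.l 7431) (.b (.l 99) (.l 15))))) (.l 7495)))) (.l 7495)))

theorem x1_t1b_c1_d_n_h60 : chk3 (onCell 0 2684354560 0 1073741824 0 26843546 T1_t1b_c1_d_n) x1_t1b_c1_d_n_t60 60 96 215 = true := by decide +kernel

def x1_t1b_c1_d_n_t61 : T :=
  (.l 7431)

theorem x1_t1b_c1_d_n_h61 : chk3 (onCell 0 2684354560 0 1073741824 0 26843546 T1_t1b_c1_d_n) x1_t1b_c1_d_n_t61 61 96 107 = true := by decide +kernel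

def x1_t1b_c1_d_n_t62 : T :=
  (.l 15)

theorem x1_t1b_c1_d_n_h62 : chk3 (onCell 0 2684354560 0 1073741824 0 26843546 T1_t1b_c1_d_n) x1_t1b_c1_d_n_t62 30 97 107 = true := by decide +kernel

def x1_t1b_c1_d_n_t63 : T :=
  (.l 15)

theorem x1_t1b_c1_d_n_h63 : chk3 (onCell 0 2684354560 0 1073741824 0 26843546 T1_t1b_c1_d_n) x1_t1b_c1_d_n_t63 30 49 53 = true := by decide +kernel

def x1_t1b_c1_d_n_t64 : T :=
  (.b (.a (.c (.b (.l 67) (.a (.c (.b (.l 67) (.a (.c (.b (.l 67) (.a (.l 7431) (.b (.l 99) (.l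
      15)))) (.b (.l 67) (.a (.l 7) (.b (.l 99) (.l 15))))) (.l 7367))) (.b (.l 67) (.a (.c (.b
      (.l 67) (.a (.b (.l 99) (.l 15)) (.b (.l 99) (.l 15)))) (.b (.l 67) (.a (.b (.l 99) (.l
      15)) (.b (.l 99) (.l 15))))) (.l 7367)))) (.l 7367))) (.b (.l 67) (.a (.c (.b (.l 67) (.a
      (.c (.b (.l 67) (.a (.b (.l 99) (.l 15)) (.b (.l 99) (.l 15)))) (.b (.l 67) (.a (.b (.l 99)
      (.l 15)) (.b (.l 99) (.l 15))))) (.l 7367))) (.b (.l 67) (.a (.c (.b (.l 67) (.a (.b (.l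
      99) (.l 15)) (.b (.l 99) (.l 15)))) (.b (.l 67) (.a (.b (.l 99) (.l 15)) (.b (.l 99) (.l
      15))))) (.l 7239)))) (.l 7239)))) (.l 7175)) (.l 15))

theorem x1_t1b_c1_d_n_h64 : chk3 (onCell 0 2684354560 0 1073741824 0 26843546 T1_t1b_c1_d_n) x1_t1b_c1_d_n_t64 30 48 108 = true := by decide +kernel

def x1_t1b_c1_d_n_t65 : T :=
  (.b (.l 67) (.a (.c (.b (.l 67) (.a (.c (.b (.l 67) (.a (.b (.l 99) (.l 15)) (.b (.l 99) (.l
      15)))) (.b (.l 67) (.a (.b (.l 99) (.l 15)) (.b (.l 99) (.l 15))))) (.l 7239))) (.b (.l 67)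
      (.a (.c (.b (.l 67) (.a (.b (.l 99) (.l 15)) (.b (.l 99) (.a (.l 15) (.b (.l 99) (.l
      15)))))) (.b (.l 67) (.a (.b (.l 99) (.a (.l 15) (.b (.l 99) (.l 15)))) (.b (.l 99) (.a (.b
      (.l 99) (.l 15)) (.b (.l 99) (.l 15))))))) (.l 7239)))) (.l 7239)))

theorem x1_t1b_c1_d_n_h65 : chk3 (onCell 0 2684354560 0 1073741824 0 26843546 T1_t1b_c1_d_n) x1_t1b_c1_d_n_t65 60 96 218 = true := by decide +kernel

def x1_t1b_c1_d_n_t66 : T :=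
  (.b (.l 67) (.a (.c (.b (.l 67) (.a (.c (.b (.l 67) (.a (.b (.l 99) (.a (.l 7175) (.b (.l 99)
      (.l 15)))) (.b (.l 99) (.a (.b (.l 99) (.l 15)) (.b (.l 99) (.l 15)))))) (.b (.l 67) (.a
      (.b (.l 99) (.a (.l 7047) (.b (.l 99) (.l 15)))) (.b (.l 99) (.a (.b (.l 99) (.l 15)) (.b
      (.l 99) (.l 15))))))) (.l 7111))) (.b (.l 67) (.a (.c (.b (.l 67) (.a (.b (.l 99) (.a (.l
      7047) (.b (.l 99) (.l 15)))) (.b (.l 99) (.a (.b (.l 99) (.l 15)) (.l 99))))) (.b (.l 67)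
      (.a (.b (.l 67) (.a (.l 7047) (.b (.l 99) (.l 15)))) (.b (.l 99) (.a (.b (.l 99) (.l 15))
      (.l 99)))))) (.l 7111)))) (.l 7111)))

theorem x1_t1b_c1_d_n_h66 : chk3 (onCell 0 2684354560 0 1073741824 0 26843546 T1_t1b_c1_d_n) x1_t1b_c1_d_n_t66 60 96 219 = true := by decide +kernel

def x1_t1b_c1_d_n_t67 : T :=
  (.l 7111)

theorem x1_t1b_c1_d_n_h67 : chk3 (onCell 0 2684354560 0 1073741824 0 26843546 T1_t1b_c1_d_n) x1_t1b_c1_d_n_t67 61 96 109 = true := by decide +kernel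

def x1_t1b_c1_d_n_t68 : T :=
  (.a (.l 15) (.b (.l 7047) (.l 15)))

theorem x1_t1b_c1_d_n_h68 : chk3 (onCell 0 2684354560 0 1073741824 0 26843546 T1_t1b_c1_d_n) x1_t1b_c1_d_n_t68 30 97 109 = true := by decide +kernel

def x1_t1b_c1_d_n_t69 : T :=
  (.l 15)

theorem x1_t1b_c1_d_n_h69 : chk3 (onCell 0 2684354560 0 1073741824 0 26843546 T1_t1b_c1_d_n) x1_t1b_c1_d_n_t69 30 49 54 = true := by decide +kernel

def x1_t1b_c1_d_n_t70 : T :=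
  (.b (.l 67) (.a (.c (.b (.l 67) (.a (.c (.b (.l 67) (.a (.b (.l 67) (.a (.l 7047) (.b (.l 99)
      (.l 15)))) (.b (.l 99) (.a (.b (.l 99) (.l 15)) (.l 99))))) (.b (.l 67) (.a (.b (.l 67) (.a
      (.l 7047) (.b (.l 99) (.l 15)))) (.b (.l 99) (.a (.b (.l 99) (.l 15)) (.l 99)))))) (.l
      99))) (.b (.l 67) (.a (.c (.b (.l 67) (.a (.b (.l 67) (.a (.l 7047) (.b (.l 99) (.l 15))))
      (.b (.l 67) (.a (.b (.l 99) (.l 15)) (.l 99))))) (.b (.l 67) (.a (.b (.l 67) (.l 99)) (.b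
      (.l 67) (.a (.b (.l 99) (.l 15)) (.l 99)))))) (.l 99)))) (.l 99)))

theorem x1_t1b_c1_d_n_h70 : chk3 (onCell 0 2684354560 0 1073741824 0 26843546 T1_t1b_c1_d_n) x1_t1b_c1_d_n_t70 60 96 220 = true := by decide +kernel

def x1_t1b_c1_d_n_t71 : T :=
  (.b (.l 67) (.a (.c (.b (.l 67) (.a (.c (.b (.l 67) (.a (.l 6983) (.b (.l 67) (.a (.b (.l 99)
      (.l 15)) (.l 99))))) (.b (.l 67) (.a (.l 99) (.b (.l 67) (.a (.l 99) (.l 99)))))) (.l 99)))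
      (.b (.l 67) (.a (.c (.b (.l 67) (.a (.l 99) (.b (.l 67) (.a (.l 99) (.l 99))))) (.b (.l 67)
      (.a (.l 99) (.b (.l 67) (.l 99))))) (.l 99)))) (.l 99)))

theorem x1_t1b_c1_d_n_h71 : chk3 (onCell 0 2684354560 0 1073741824 0 26843546 T1_t1b_c1_d_n) x1_t1b_c1_d_n_t71 60 96 221 = true := by decide +kernel

def x1_t1b_c1_d_n_t72 : T :=
  (.l 6983)

theorem x1_t1b_c1_d_n_h72 : chk3 (onCell 0 2684354560 0 1073741824 0 26843546 T1_t1b_c1_d_n) x1_t1b_c1_d_n_t72 61 96 110 = true := by decide +kernel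

def x1_t1b_c1_d_n_t73 : T :=
  (.a (.c (.b (.l 67) (.a (.c (.b (.l 67) (.a (.c (.b (.l 67) (.a (.l 99) (.l 99))) (.b (.l 67)
      (.a (.l 99) (.l 99)))) (.l 99))) (.b (.l 67) (.a (.c (.b (.l 67) (.a (.l 99) (.l 99))) (.b
      (.l 67) (.a (.l 99) (.l 99)))) (.l 99)))) (.l 99))) (.b (.l 67) (.a (.c (.b (.l 67) (.a (.c
      (.b (.l 67) (.a (.l 99) (.l 99))) (.b (.l 67) (.a (.l 99) (.l 99)))) (.l 99))) (.b (.l 67)
      (.a (.c (.b (.l 67) (.a (.l 99) (.l 99))) (.b (.l 67) (.l 99))) (.l 99)))) (.l 99)))) (.l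
      99))

theorem x1_t1b_c1_d_n_h73 : chk3 (onCell 0 2684354560 0 1073741824 0 26843546 T1_t1b_c1_d_n) x1_t1b_c1_d_n_t73 30 96 111 = true := by decide +kernel

def x1_t1b_c1_d_n_t74 : T :=
  (.a (.c (.a (.l 15) (.l 15)) (.a (.b (.c (.l 15) (.b (.a (.l 15) (.c (.l 15) (.b (.a (.l 15)
      (.l 6791)) (.l 15)))) (.l 15))) (.l 15)) (.b (.c (.b (.l 6791) (.l 15)) (.b (.l 6791) (.l
      15))) (.l 15)))) (.c (.b (.l 6919) (.l 15)) (.b (.l 6791) (.l 15))))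

theorem x1_t1b_c1_d_n_h74 : chk3 (onCell 0 2684354560 0 1073741824 0 26843546 T1_t1b_c1_d_n) x1_t1b_c1_d_n_t74 30 97 55 = true := by decide +kernel

def x1_t1b_c1_d_n_t75 : T :=
  (.l 15)

theorem x1_t1b_c1_d_n_h75 : chk3 (onCell 0 2684354560 0 1073741824 0 26843546 T1_t1b_c1_d_n) x1_t1b_c1_d_n_t75 30 49 55 = true := by decide +kernel

def x1_t1b_c1_d_n_t76 : T :=
  (.l 15)

theorem x1_t1b_c1_d_n_h76 : chk3 (onCell 0 2684354560 0 1073741824 0 26843546 T1_t1b_c1_d_n) x1_t1b_c1_d_n_t76 30 25 6 = true := by decide +kernel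

def x1_t1b_c1_d_n_t77 : T :=
  (.a (.c (.c (.b (.l 67) (.a (.c (.b (.l 67) (.a (.c (.b (.l 67) (.l 99)) (.b (.l 67) (.l 99)))
      (.l 99))) (.b (.l 67) (.a (.c (.b (.l 67) (.l 99)) (.l 99)) (.l 99)))) (.l 99))) (.b (.l
      67) (.a (.c (.b (.l 67) (.a (.l 99) (.l 99))) (.b (.l 67) (.a (.l 99) (.l 99)))) (.l 99))))
      (.c (.b (.l 67) (.a (.c (.b (.l 67) (.a (.l 99) (.l 99))) (.b (.l 67) (.a (.l 99) (.l
      99)))) (.l 99))) (.b (.l 67) (.a (.c (.b (.l 67) (.a (.l 99) (.l 99))) (.b (.l 67) (.a (.l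
      99) (.l 99)))) (.l 67))))) (.l 99))

theorem x1_t1b_c1_d_n_h77 : chk3 (onCell 0 2684354560 0 1073741824 0 26843546 T1_t1b_c1_d_n) x1_t1b_c1_d_n_t77 30 96 56 = true := by decide +kernel

def x1_t1b_c1_d_n_t78 : T :=
  (.b (.a (.c (.l 15) (.b (.c (.a (.l 15) (.b (.a (.l 15) (.b (.l 99) (.l 15))) (.l 15))) (.a (.l
      15) (.b (.a (.b (.l 99) (.l 15)) (.b (.l 99) (.l 15))) (.l 15)))) (.l 15))) (.c (.b (.a (.c
      (.b (.l 6791) (.l 15)) (.b (.l 99) (.l 15))) (.l 6791)) (.l 15)) (.b (.a (.c (.b (.l 99)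
      (.l 15)) (.b (.l 99) (.l 15))) (.l 6663)) (.l 15)))) (.l 15))

theorem x1_t1b_c1_d_n_h78 : chk3 (onCell 0 2684354560 0 1073741824 0 26843546 T1_t1b_c1_d_n) x1_t1b_c1_d_n_t78 120 194 224 = true := by decide +kernel

def x1_t1b_c1_d_n_t79 : T :=
  (.b (.a (.c (.b (.c (.a (.b (.a (.l 15) (.b (.l 99) (.l 15))) (.l 15)) (.b (.a (.b (.l 99) (.l
      15)) (.b (.l 99) (.l 15))) (.l 15))) (.a (.b (.a (.l 6663) (.b (.l 99) (.l 15))) (.l 15))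
      (.b (.a (.b (.l 99) (.l 15)) (.l 99)) (.l 15)))) (.l 15)) (.b (.c (.a (.b (.a (.l 6663) (.b
      (.l 99) (.l 15))) (.l 15)) (.b (.a (.b (.l 99) (.l 15)) (.l 99)) (.l 15))) (.a (.b (.a (.l
      6663) (.b (.l 99) (.l 15))) (.l 15)) (.b (.a (.b (.l 99) (.l 15)) (.l 99)) (.l 15)))) (.l
      15))) (.c (.b (.a (.c (.b (.l 99) (.l 15)) (.b (.l 99) (.l 15))) (.l 6663)) (.l 15)) (.b
      (.a (.c (.b (.l 99) (.l 15)) (.b (.l 99) (.l 15))) (.l 6663)) (.l 15)))) (.l 15))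

theorem x1_t1b_c1_d_n_h79 : chk3 (onCell 0 2684354560 0 1073741824 0 26843546 T1_t1b_c1_d_n) x1_t1b_c1_d_n_t79 120 194 225 = true := by decide +kernel

def x1_t1b_c1_d_n_t80 : T :=
  (.l 15)

theorem x1_t1b_c1_d_n_h80 : chk3 (onCell 0 2684354560 0 1073741824 0 26843546 T1_t1b_c1_d_n) x1_t1b_c1_d_n_t80 120 195 112 = true := by decide +kernel

def x1_t1b_c1_d_n_t81 : T :=
  (.b (.c (.b (.l 6663) (.l 15)) (.b (.l 6663) (.l 15))) (.l 15))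

theorem x1_t1b_c1_d_n_h81 : chk3 (onCell 0 2684354560 0 1073741824 0 26843546 T1_t1b_c1_d_n) x1_t1b_c1_d_n_t81 121 97 112 = true := by decide +kernel

def x1_t1b_c1_d_n_t82 : T :=
  (.b (.a (.c (.b (.c (.a (.b (.a (.l 6663) (.b (.l 99) (.l 15))) (.l 15)) (.b (.a (.b (.l 99)
      (.l 15)) (.l 99)) (.l 15))) (.a (.b (.a (.l 6535) (.b (.l 99) (.l 15))) (.l 15)) (.b (.a
      (.b (.l 99) (.l 15)) (.l 99)) (.l 15)))) (.l 15)) (.b (.c (.a (.b (.a (.l 99) (.l 99)) (.l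
      15)) (.b (.a (.b (.l 99) (.l 15)) (.l 99)) (.l 15))) (.a (.b (.l 99) (.l 15)) (.b (.a (.b
      (.l 99) (.l 15)) (.l 99)) (.l 15)))) (.l 15))) (.c (.b (.a (.c (.b (.l 99) (.l 15)) (.b (.l
      99) (.l 15))) (.l 6535)) (.l 15)) (.b (.a (.c (.b (.l 99) (.l 15)) (.b (.l 99) (.l 15)))
      (.l 6535)) (.l 15)))) (.l 15))

theorem x1_t1b_c1_d_n_h82 : chk3 (onCell 0 2684354560 0 1073741824 0 26843546 T1_t1b_c1_d_n) x1_t1b_c1_d_n_t82 120 194 226 = true := by decide +kernel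

def x1_t1b_c1_d_n_t83 : T :=
  (.b (.a (.c (.b (.c (.a (.b (.l 99) (.l 15)) (.b (.a (.l 99) (.l 99)) (.l 15))) (.a (.b (.l 99)
      (.l 15)) (.b (.a (.l 99) (.l 99)) (.l 15)))) (.l 15)) (.b (.c (.a (.b (.l 99) (.l 15)) (.b
      (.l 99) (.l 15))) (.a (.b (.l 99) (.l 15)) (.b (.l 99) (.l 15)))) (.l 15))) (.c (.b (.a (.c
      (.b (.l 99) (.l 15)) (.b (.l 99) (.l 15))) (.l 6535)) (.l 15)) (.b (.a (.c (.b (.l 99) (.l
      15)) (.l 6535)) (.l 6535)) (.l 15)))) (.l 15))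

theorem x1_t1b_c1_d_n_h83 : chk3 (onCell 0 2684354560 0 1073741824 0 26843546 T1_t1b_c1_d_n) x1_t1b_c1_d_n_t83 120 194 227 = true := by decide +kernel

def x1_t1b_c1_d_n_t84 : T :=
  (.l 15)

theorem x1_t1b_c1_d_n_h84 : chk3 (onCell 0 2684354560 0 1073741824 0 26843546 T1_t1b_c1_d_n) x1_t1b_c1_d_n_t84 120 195 113 = true := by decide +kernel

def x1_t1b_c1_d_n_t85 : T :=
  (.b (.c (.b (.l 6535) (.l 15)) (.b (.l 6535) (.l 15))) (.l 15))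

theorem x1_t1b_c1_d_n_h85 : chk3 (onCell 0 2684354560 0 1073741824 0 26843546 T1_t1b_c1_d_n) x1_t1b_c1_d_n_t85 121 97 113 = true := by decide +kernel

def x1_t1b_c1_d_n_t86 : T :=
  (.c (.b (.l 6663) (.l 15)) (.b (.l 6535) (.l 15)))

theorem x1_t1b_c1_d_n_h86 : chk3 (onCell 0 2684354560 0 1073741824 0 26843546 T1_t1b_c1_d_n) x1_t1b_c1_d_n_t86 61 97 56 = true := by decide +kernel

def x1_t1b_c1_d_n_t87 : T :=
  (.a (.c (.c (.b (.l 67) (.a (.c (.b (.l 67) (.l 99)) (.b (.l 67) (.l 99))) (.l 67))) (.b (.l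
      67) (.a (.c (.b (.l 67) (.l 99)) (.b (.l 67) (.l 99))) (.l 67)))) (.b (.l 67) (.a (.l 99)
      (.l 67)))) (.l 6343))

theorem x1_t1b_c1_d_n_h87 : chk3 (onCell 0 2684354560 0 1073741824 0 26843546 T1_t1b_c1_d_n) x1_t1b_c1_d_n_t87 30 96 57 = true := by decide +kernel

def x1_t1b_c1_d_n_t88 : T :=
  (.a (.b (.c (.b (.a (.c (.b (.c (.a (.b (.l 99) (.l 15)) (.b (.l 99) (.l 15))) (.a (.b (.l 99)
      (.l 15)) (.b (.l 99) (.l 15)))) (.l 15)) (.b (.c (.a (.b (.l 99) (.l 15)) (.b (.l 99) (.l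
      15))) (.a (.b (.l 99) (.l 15)) (.b (.l 99) (.l 15)))) (.l 15))) (.c (.b (.l 6407) (.l 15))
      (.b (.l 6407) (.l 15)))) (.l 15)) (.b (.a (.c (.b (.c (.a (.b (.l 99) (.l 15)) (.b (.l 99)
      (.l 15))) (.a (.b (.l 99) (.l 15)) (.b (.l 99) (.l 15)))) (.l 15)) (.b (.c (.a (.b (.l 99)
      (.l 15)) (.b (.l 99) (.l 15))) (.a (.b (.l 99) (.l 15)) (.b (.l 99) (.l 15)))) (.l 15)))
      (.c (.b (.l 6407) (.l 15)) (.b (.l 6407) (.l 15)))) (.l 15))) (.l 15)) (.b (.c (.b (.l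
      6407) (.l 15)) (.b (.l 6407) (.l 15))) (.l 15)))

theorem x1_t1b_c1_d_n_h88 : chk3 (onCell 0 2684354560 0 1073741824 0 26843546 T1_t1b_c1_d_n) x1_t1b_c1_d_n_t88 60 97 114 = true := by decide +kernel

def x1_t1b_c1_d_n_t89 : T :=
  (.b (.a (.c (.b (.c (.a (.b (.l 99) (.l 15)) (.b (.l 99) (.l 15))) (.a (.b (.l 99) (.l 15)) (.b
      (.l 99) (.l 15)))) (.l 15)) (.b (.c (.a (.b (.l 99) (.l 15)) (.b (.l 99) (.a (.l 15) (.b
      (.l 99) (.l 15))))) (.a (.b (.l 99) (.l 15)) (.b (.l 99) (.a (.b (.l 99) (.l 15)) (.b (.l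
      99) (.l 15)))))) (.l 15))) (.c (.b (.l 99) (.l 15)) (.b (.l 99) (.l 15)))) (.l 15))

theorem x1_t1b_c1_d_n_h89 : chk3 (onCell 0 2684354560 0 1073741824 0 26843546 T1_t1b_c1_d_n) x1_t1b_c1_d_n_t89 120 194 230 = true := by decide +kernel

end Pool.Agent.Strip051.LC.E1.Ch
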