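import Pool.Agent.Strip051.LC.E1.Ch.Te

/-! # Rests near the full period: certificate P_x1_t1b_c1_d_n_3 -/

set_option maxRecDepth 100000

namespace Pool.Agent.Strip051.LC.E1.Ch

open Pool.Agent.Strip051.PB
open Pool.Agent.Strip051.LC.E0.Ch (onCell Tree)

def x1_t1b_c1_d_n_t90 : T :=
  (.b (.a (.c (.b (.c (.a (.b (.l 99) (.a (.l 15) (.b (.l 99) (.l 15)))) (.b (.l 99) (.a (.b (.l
      99) (.l 15)) (.b (.l 99) (.l 15))))) (.a (.b (.l 99) (.a (.l 6279) (.b (.l 99) (.l 15))))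
      (.b (.l 99) (.a (.b (.l 99) (.l 15)) (.l 99))))) (.l 15)) (.b (.c (.a (.b (.l 99) (.a (.l
      6279) (.b (.l 99) (.l 15)))) (.b (.l 99) (.a (.b (.l 99) (.l 15)) (.l 99)))) (.a (.b (.l
      67) (.a (.l 6279) (.b (.l 99) (.l 15)))) (.b (.l 99) (.a (.b (.l 99) (.l 15)) (.l 99)))))
      (.l 15))) (.c (.b (.l 99) (.l 15)) (.b (.l 99) (.l 15)))) (.l 15))

theorem x1_t1b_c1_d_n_h90 : chk3 (onCell 0 2684354560 0 1073741824 0 26843546 T1_t1b_c1_d_n) x1_t1b_c1_d_n_t90 120 194 231 = true := by decide +kernel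

def x1_t1b_c1_d_n_t91 : T :=
  (.l 15)

theorem x1_t1b_c1_d_n_h91 : chk3 (onCell 0 2684354560 0 1073741824 0 26843546 T1_t1b_c1_d_n) x1_t1b_c1_d_n_t91 120 195 115 = true := by decide +kernel

def x1_t1b_c1_d_n_t92 : T :=
  (.b (.c (.b (.l 6279) (.l 15)) (.b (.l 6279) (.l 15))) (.l 15))

theorem x1_t1b_c1_d_n_h92 : chk3 (onCell 0 2684354560 0 1073741824 0 26843546 T1_t1b_c1_d_n) x1_t1b_c1_d_n_t92 121 97 115 = true := by decide +kernel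

def x1_t1b_c1_d_n_t93 : T :=
  (.c (.b (.l 6407) (.l 15)) (.b (.l 6279) (.l 15)))

theorem x1_t1b_c1_d_n_h93 : chk3 (onCell 0 2684354560 0 1073741824 0 26843546 T1_t1b_c1_d_n) x1_t1b_c1_d_n_t93 61 97 57 = true := by decide +kernel

def x1_t1b_c1_d_n_t94 : T :=
  (.c (.b (.l 67) (.a (.l 99) (.l 67))) (.b (.l 67) (.a (.l 67) (.l 67))))

theorem x1_t1b_c1_d_n_h94 : chk3 (onCell 0 2684354560 0 1073741824 0 26843546 T1_t1b_c1_d_n) x1_t1b_c1_d_n_t94 60 96 58 = true := by decide +kernel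

def x1_t1b_c1_d_n_t95 : T :=
  (.a (.b (.c (.b (.a (.c (.b (.c (.a (.b (.l 67) (.a (.l 6279) (.b (.l 99) (.l 15)))) (.b (.l
      99) (.a (.b (.l 99) (.l 15)) (.l 99)))) (.a (.b (.l 67) (.a (.l 6151) (.l 99))) (.b (.l 99)
      (.a (.b (.l 99) (.l 15)) (.l 99))))) (.l 15)) (.b (.c (.a (.b (.l 67) (.l 99)) (.b (.l 99)
      (.a (.b (.l 99) (.l 15)) (.l 99)))) (.a (.b (.l 67) (.l 99)) (.b (.l 67) (.a (.b (.l 99)
      (.l 15)) (.l 99))))) (.l 15))) (.c (.b (.l 99) (.l 15)) (.b (.l 99) (.l 15)))) (.l 15)) (.b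
      (.a (.c (.b (.c (.a (.l 99) (.b (.l 67) (.a (.l 99) (.l 99)))) (.a (.l 99) (.b (.l 67) (.a
      (.l 99) (.l 99))))) (.l 15)) (.b (.c (.a (.l 99) (.b (.l 67) (.l 99))) (.a (.l 99) (.l
      99))) (.l 15))) (.c (.b (.l 99) (.l 15)) (.b (.l 99) (.l 15)))) (.l 15))) (.l 15)) (.b (.c
      (.b (.l 6151) (.l 15)) (.b (.l 6151) (.l 15))) (.l 15)))

theorem x1_t1b_c1_d_n_h95 : chk3 (onCell 0 2684354560 0 1073741824 0 26843546 T1_t1b_c1_d_n) x1_t1b_c1_d_n_t95 60 97 116 = true := by decide +kernel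

def x1_t1b_c1_d_n_t96 : T :=
  (.a (.b (.c (.b (.a (.c (.b (.c (.a (.l 99) (.l 99)) (.a (.l 99) (.l 99))) (.l 15)) (.b (.c (.a
      (.l 99) (.l 99)) (.a (.l 99) (.l 99))) (.l 15))) (.c (.b (.l 99) (.l 15)) (.b (.l 99) (.l
      15)))) (.l 15)) (.b (.a (.c (.b (.c (.a (.l 99) (.l 99)) (.a (.l 99) (.l 99))) (.l 15)) (.b
      (.c (.a (.l 99) (.l 99)) (.l 99)) (.l 15))) (.c (.a (.b (.l 99) (.l 15)) (.l 6023)) (.a (.b
      (.l 99) (.l 15)) (.l 6023)))) (.l 15))) (.l 15)) (.b (.c (.b (.l 6023) (.l 15)) (.b (.l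
      6023) (.l 15))) (.l 15)))

theorem x1_t1b_c1_d_n_h96 : chk3 (onCell 0 2684354560 0 1073741824 0 26843546 T1_t1b_c1_d_n) x1_t1b_c1_d_n_t96 60 97 117 = true := by decide +kernel

def x1_t1b_c1_d_n_t97 : T :=
  (.b (.l 67) (.c (.b (.l 6151) (.l 15)) (.b (.l 6023) (.l 15))))

theorem x1_t1b_c1_d_n_h97 : chk3 (onCell 0 2684354560 0 1073741824 0 26843546 T1_t1b_c1_d_n) x1_t1b_c1_d_n_t97 61 48 58 = true := by decide +kernel

def x1_t1b_c1_d_n_t98 : T :=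
  (.c (.b (.l 67) (.a (.l 67) (.l 67))) (.b (.l 67) (.a (.l 67) (.l 67))))

theorem x1_t1b_c1_d_n_h98 : chk3 (onCell 0 2684354560 0 1073741824 0 26843546 T1_t1b_c1_d_n) x1_t1b_c1_d_n_t98 60 96 59 = true := by decide +kernel

def x1_t1b_c1_d_n_t99 : T :=
  (.b (.a (.c (.b (.l 99) (.l 15)) (.b (.l 99) (.a (.l 15) (.c (.a (.l 15) (.b (.b (.l 99) (.l
      15)) (.l 15))) (.a (.b (.b (.l 99) (.l 15)) (.l 15)) (.b (.b (.l 99) (.l 15)) (.l 15)))))))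
      (.c (.a (.b (.l 99) (.c (.b (.l 99) (.l 15)) (.b (.l 99) (.l 15)))) (.l 6023)) (.a (.b (.l
      99) (.c (.b (.l 99) (.l 15)) (.b (.l 99) (.l 15)))) (.l 5895)))) (.l 15))

theorem x1_t1b_c1_d_n_h99 : chk3 (onCell 0 2684354560 0 1073741824 0 26843546 T1_t1b_c1_d_n) x1_t1b_c1_d_n_t99 120 194 236 = true := by decide +kernel

def x1_t1b_c1_d_n_t100 : T :=
  (.b (.a (.c (.b (.l 99) (.a (.c (.b (.a (.l 15) (.b (.l 99) (.l 15))) (.l 15)) (.b (.a (.l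
      5895) (.b (.l 99) (.l 15))) (.l 15))) (.c (.a (.b (.b (.l 99) (.l 15)) (.l 15)) (.b (.l 99)
      (.l 15))) (.a (.b (.b (.l 99) (.l 15)) (.l 15)) (.b (.l 99) (.l 15)))))) (.b (.l 99) (.a
      (.c (.b (.a (.l 5895) (.b (.l 99) (.l 15))) (.l 15)) (.b (.a (.l 5895) (.b (.l 99) (.l
      15))) (.l 15))) (.c (.a (.b (.b (.l 99) (.l 15)) (.l 15)) (.b (.l 99) (.l 15))) (.a (.b (.b
      (.l 99) (.l 15)) (.l 15)) (.b (.l 99) (.l 15))))))) (.c (.a (.b (.l 99) (.c (.b (.l 99) (.l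
      15)) (.b (.l 99) (.l 15)))) (.l 5895)) (.a (.b (.l 67) (.c (.b (.l 99) (.l 15)) (.b (.l 99)
      (.l 15)))) (.l 5895)))) (.l 15))

theorem x1_t1b_c1_d_n_h100 : chk3 (onCell 0 2684354560 0 1073741824 0 26843546 T1_t1b_c1_d_n) x1_t1b_c1_d_n_t100 120 194 237 = true := by decide +kernel

def x1_t1b_c1_d_n_t101 : T :=
  (.l 15)

theorem x1_t1b_c1_d_n_h101 : chk3 (onCell 0 2684354560 0 1073741824 0 26843546 T1_t1b_c1_d_n) x1_t1b_c1_d_n_t101 120 195 118 = true := by decide +kernel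

def x1_t1b_c1_d_n_t102 : T :=
  (.b (.c (.b (.l 5895) (.l 15)) (.b (.l 5895) (.l 15))) (.l 15))

theorem x1_t1b_c1_d_n_h102 : chk3 (onCell 0 2684354560 0 1073741824 0 26843546 T1_t1b_c1_d_n) x1_t1b_c1_d_n_t102 121 97 118 = true := by decide +kernel

def x1_t1b_c1_d_n_t103 : T :=
  (.b (.a (.c (.b (.l 99) (.a (.c (.b (.a (.l 5895) (.b (.l 99) (.l 15))) (.l 15)) (.b (.a (.l
      99) (.l 99)) (.l 15))) (.c (.a (.b (.b (.l 99) (.l 15)) (.l 15)) (.b (.l 99) (.l 15))) (.a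
      (.b (.b (.l 99) (.l 15)) (.l 15)) (.b (.l 99) (.l 15)))))) (.b (.l 99) (.a (.c (.b (.l 99)
      (.l 15)) (.b (.l 99) (.l 15))) (.c (.a (.b (.b (.l 99) (.l 15)) (.l 15)) (.b (.l 99) (.l
      15))) (.a (.b (.l 99) (.l 15)) (.b (.l 99) (.l 15))))))) (.c (.a (.b (.l 67) (.c (.b (.l
      99) (.l 15)) (.b (.l 99) (.l 15)))) (.l 5895)) (.a (.b (.l 67) (.c (.b (.l 99) (.l 15)) (.b
      (.l 99) (.l 15)))) (.l 5895)))) (.l 15))

theorem x1_t1b_c1_d_n_h103 : chk3 (onCell 0 2684354560 0 1073741824 0 26843546 T1_t1b_c1_d_n) x1_t1b_c1_d_n_t103 120 194 238 = true := by decide +kernel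

def x1_t1b_c1_d_n_t104 : T :=
  (.b (.a (.c (.b (.l 99) (.a (.c (.b (.l 99) (.l 15)) (.b (.l 99) (.l 15))) (.c (.a (.b (.l 99)
      (.l 15)) (.b (.l 99) (.l 15))) (.a (.b (.l 99) (.l 15)) (.b (.l 99) (.l 15)))))) (.b (.l
      99) (.a (.c (.b (.l 99) (.l 15)) (.b (.l 99) (.l 15))) (.c (.a (.b (.l 99) (.l 15)) (.b (.l
      99) (.l 15))) (.a (.b (.l 99) (.l 15)) (.b (.l 99) (.l 15))))))) (.c (.a (.b (.l 67) (.c
      (.b (.l 99) (.l 15)) (.b (.l 99) (.l 15)))) (.l 5767)) (.a (.b (.l 67) (.c (.b (.l 99) (.l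
      15)) (.l 5767))) (.l 5767)))) (.l 15))

theorem x1_t1b_c1_d_n_h104 : chk3 (onCell 0 2684354560 0 1073741824 0 26843546 T1_t1b_c1_d_n) x1_t1b_c1_d_n_t104 120 194 239 = true := by decide +kernel

def x1_t1b_c1_d_n_t105 : T :=
  (.l 15)

theorem x1_t1b_c1_d_n_h105 : chk3 (onCell 0 2684354560 0 1073741824 0 26843546 T1_t1b_c1_d_n) x1_t1b_c1_d_n_t105 120 195 119 = true := by decide +kernel

def x1_t1b_c1_d_n_t106 : T :=
  (.b (.c (.b (.l 5895) (.l 15)) (.l 5767)) (.l 15))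

theorem x1_t1b_c1_d_n_h106 : chk3 (onCell 0 2684354560 0 1073741824 0 26843546 T1_t1b_c1_d_n) x1_t1b_c1_d_n_t106 121 97 119 = true := by decide +kernel

def x1_t1b_c1_d_n_t107 : T :=
  (.b (.l 67) (.c (.b (.l 5895) (.l 15)) (.l 5767)))

theorem x1_t1b_c1_d_n_h107 : chk3 (onCell 0 2684354560 0 1073741824 0 26843546 T1_t1b_c1_d_n) x1_t1b_c1_d_n_t107 61 48 59 = true := by decide +kernel

def x1_t1b_c1_d_n_t108 : T :=
  (.c (.b (.l 67) (.a (.l 67) (.l 67))) (.b (.l 67) (.a (.l 67) (.l 67))))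

theorem x1_t1b_c1_d_n_h108 : chk3 (onCell 0 2684354560 0 1073741824 0 26843546 T1_t1b_c1_d_n) x1_t1b_c1_d_n_t108 60 96 60 = true := by decide +kernel

def x1_t1b_c1_d_n_t109 : T :=
  (.a (.b (.c (.b (.a (.c (.b (.l 99) (.a (.c (.b (.l 99) (.l 15)) (.b (.l 99) (.l 15))) (.c (.a
      (.b (.l 99) (.l 15)) (.b (.l 99) (.l 15))) (.a (.b (.l 99) (.l 15)) (.b (.l 99) (.l
      15)))))) (.b (.l 99) (.a (.c (.b (.l 99) (.l 15)) (.b (.l 99) (.l 15))) (.c (.a (.b (.l 99)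
      (.l 15)) (.b (.l 99) (.l 15))) (.a (.b (.l 99) (.l 15)) (.b (.l 99) (.l 15))))))) (.l
      5831)) (.l 15)) (.b (.a (.c (.b (.l 67) (.a (.c (.b (.l 99) (.l 15)) (.b (.l 99) (.l 15)))
      (.c (.b (.l 99) (.l 15)) (.b (.l 99) (.l 15))))) (.b (.l 67) (.a (.c (.b (.l 99) (.l 15))
      (.b (.l 99) (.l 15))) (.c (.b (.l 99) (.l 15)) (.b (.l 99) (.l 15)))))) (.l 71)) (.l 15)))
      (.l 15)) (.b (.l 5639) (.l 15)))

theorem x1_t1b_c1_d_n_h109 : chk3 (onCell 0 2684354560 0 1073741824 0 26843546 T1_t1b_c1_d_n) x1_t1b_c1_d_n_t109 60 97 120 = true := by decide +kernel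

def x1_t1b_c1_d_n_t110 : T :=
  (.c (.b (.a (.c (.b (.l 67) (.a (.c (.b (.l 99) (.l 15)) (.b (.l 99) (.l 15))) (.c (.b (.l 99)
      (.l 15)) (.b (.l 99) (.l 15))))) (.b (.l 67) (.a (.c (.b (.l 99) (.l 15)) (.b (.l 99) (.l
      15))) (.c (.b (.l 99) (.a (.l 15) (.b (.l 99) (.l 15)))) (.b (.l 99) (.a (.b (.l 99) (.l
      15)) (.l 99))))))) (.l 71)) (.l 15)) (.b (.a (.c (.b (.l 67) (.a (.c (.b (.l 99) (.a (.l
      15) (.b (.l 99) (.l 15)))) (.b (.l 99) (.a (.l 5639) (.b (.l 99) (.l 15))))) (.c (.b (.l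
      99) (.a (.b (.l 99) (.l 15)) (.l 99))) (.b (.l 99) (.a (.b (.l 99) (.l 15)) (.l 99))))))
      (.b (.l 67) (.a (.c (.b (.l 99) (.a (.l 5639) (.b (.l 99) (.l 15)))) (.b (.l 99) (.a (.l
      5639) (.b (.l 99) (.l 15))))) (.c (.b (.l 99) (.a (.b (.l 99) (.l 15)) (.l 99))) (.b (.l
      99) (.a (.b (.l 99) (.l 15)) (.l 99))))))) (.l 99)) (.l 15)))

theorem x1_t1b_c1_d_n_h110 : chk3 (onCell 0 2684354560 0 1073741824 0 26843546 T1_t1b_c1_d_n) x1_t1b_c1_d_n_t110 120 194 121 = true := by decide +kernel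

def x1_t1b_c1_d_n_t111 : T :=
  (.l 15)

theorem x1_t1b_c1_d_n_h111 : chk3 (onCell 0 2684354560 0 1073741824 0 26843546 T1_t1b_c1_d_n) x1_t1b_c1_d_n_t111 120 195 121 = true := by decide +kernel

def x1_t1b_c1_d_n_t112 : T :=
  (.b (.l 5639) (.l 15))

theorem x1_t1b_c1_d_n_h112 : chk3 (onCell 0 2684354560 0 1073741824 0 26843546 T1_t1b_c1_d_n) x1_t1b_c1_d_n_t112 121 97 121 = true := by decide +kernel

def x1_t1b_c1_d_n_t113 : T :=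
  (.c (.l 71) (.c (.b (.l 67) (.l 5639)) (.b (.l 67) (.l 5639))))

theorem x1_t1b_c1_d_n_h113 : chk3 (onCell 0 2684354560 0 1073741824 0 26843546 T1_t1b_c1_d_n) x1_t1b_c1_d_n_t113 61 48 60 = true := by decide +kernel

def x1_t1b_c1_d_n_t114 : T :=
  (.c (.b (.l 67) (.a (.l 67) (.l 67))) (.b (.l 67) (.a (.l 67) (.l 67))))

theorem x1_t1b_c1_d_n_h114 : chk3 (onCell 0 2684354560 0 1073741824 0 26843546 T1_t1b_c1_d_n) x1_t1b_c1_d_n_t114 60 96 61 = true := by decide +kernel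

def x1_t1b_c1_d_n_t115 : T :=
  (.a (.b (.c (.b (.a (.c (.b (.l 67) (.a (.c (.b (.l 67) (.a (.l 99) (.l 99))) (.b (.l 67) (.l
      99))) (.c (.b (.l 99) (.a (.b (.l 99) (.l 15)) (.l 99))) (.b (.l 99) (.a (.b (.l 99) (.l
      15)) (.l 99)))))) (.b (.l 67) (.a (.c (.l 99) (.l 99)) (.c (.b (.l 99) (.a (.l 99) (.l
      99))) (.b (.l 99) (.a (.l 99) (.l 99))))))) (.l 99)) (.l 15)) (.b (.a (.c (.b (.l 67) (.a
      (.l 99) (.c (.b (.l 99) (.l 99)) (.b (.l 67) (.l 99))))) (.b (.l 67) (.a (.l 99) (.l 99))))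
      (.l 99)) (.l 15))) (.l 15)) (.b (.l 5511) (.l 15)))

theorem x1_t1b_c1_d_n_h115 : chk3 (onCell 0 2684354560 0 1073741824 0 26843546 T1_t1b_c1_d_n) x1_t1b_c1_d_n_t115 60 97 122 = true := by decide +kernel

def x1_t1b_c1_d_n_t116 : T :=
  (.a (.b (.c (.b (.a (.c (.b (.l 67) (.a (.l 99) (.l 99))) (.b (.l 67) (.a (.l 99) (.l 99))))
      (.l 99)) (.l 15)) (.b (.a (.c (.b (.l 67) (.a (.l 99) (.l 99))) (.b (.l 67) (.a (.l 99) (.l
      99)))) (.l 99)) (.a (.l 15) (.b (.a (.l 15) (.l 5383)) (.l 15))))) (.l 15)) (.b (.l 5383)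
      (.l 15)))

theorem x1_t1b_c1_d_n_h116 : chk3 (onCell 0 2684354560 0 1073741824 0 26843546 T1_t1b_c1_d_n) x1_t1b_c1_d_n_t116 60 97 123 = true := by decide +kernel

def x1_t1b_c1_d_n_t117 : T :=
  (.c (.c (.b (.l 67) (.l 5511)) (.b (.l 67) (.l 5511))) (.b (.l 67) (.l 5383)))

theorem x1_t1b_c1_d_n_h117 : chk3 (onCell 0 2684354560 0 1073741824 0 26843546 T1_t1b_c1_d_n) x1_t1b_c1_d_n_t117 61 48 61 = true := by decide +kernel

def x1_t1b_c1_d_n_t118 : T :=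
  (.c (.b (.l 67) (.a (.l 67) (.l 67))) (.b (.l 67) (.a (.l 67) (.l 67))))

theorem x1_t1b_c1_d_n_h118 : chk3 (onCell 0 2684354560 0 1073741824 0 26843546 T1_t1b_c1_d_n) x1_t1b_c1_d_n_t118 60 96 62 = true := by decide +kernel

def x1_t1b_c1_d_n_t119 : T :=
  (.c (.b (.a (.c (.b (.l 67) (.l 99)) (.b (.l 67) (.l 99))) (.l 99)) (.a (.c (.l 15) (.b (.a (.l
      15) (.c (.l 15) (.a (.l 15) (.b (.l 99) (.l 15))))) (.l 15))) (.b (.a (.c (.b (.l 99) (.l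
      15)) (.b (.l 99) (.l 15))) (.l 5383)) (.l 15)))) (.b (.a (.l 99) (.l 99)) (.a (.c (.b (.a
      (.c (.l 15) (.b (.a (.l 15) (.b (.l 99) (.l 15))) (.l 15))) (.c (.a (.b (.b (.l 99) (.l
      15)) (.l 15)) (.b (.l 99) (.l 15))) (.a (.b (.b (.l 99) (.l 15)) (.l 15)) (.b (.l 99) (.l
      15))))) (.l 15)) (.b (.a (.c (.b (.a (.l 5383) (.b (.l 99) (.l 15))) (.l 15)) (.b (.a (.l
      5255) (.l 99)) (.l 15))) (.c (.a (.b (.b (.l 99) (.l 15)) (.l 15)) (.b (.l 99) (.l 15)))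
      (.a (.b (.b (.l 99) (.l 15)) (.l 15)) (.b (.l 99) (.l 15))))) (.l 15))) (.b (.a (.c (.b (.l
      99) (.l 15)) (.b (.l 99) (.l 15))) (.l 5255)) (.l 15)))))

theorem x1_t1b_c1_d_n_h119 : chk3 (onCell 0 2684354560 0 1073741824 0 26843546 T1_t1b_c1_d_n) x1_t1b_c1_d_n_t119 120 194 124 = true := by decide +kernel

def x1_t1b_c1_d_n_t120 : T :=
  (.l 15)

theorem x1_t1b_c1_d_n_h120 : chk3 (onCell 0 2684354560 0 1073741824 0 26843546 T1_t1b_c1_d_n) x1_t1b_c1_d_n_t120 120 195 124 = true := by decide +kernel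

def x1_t1b_c1_d_n_t121 : T :=
  (.b (.l 5255) (.l 15))

theorem x1_t1b_c1_d_n_h121 : chk3 (onCell 0 2684354560 0 1073741824 0 26843546 T1_t1b_c1_d_n) x1_t1b_c1_d_n_t121 121 97 124 = true := by decide +kernel

def x1_t1b_c1_d_n_t122 : T :=
  (.b (.a (.l 99) (.l 99)) (.a (.c (.b (.a (.c (.b (.l 99) (.l 15)) (.b (.l 99) (.l 15))) (.c (.a
      (.b (.b (.l 99) (.l 15)) (.l 15)) (.b (.l 99) (.l 15))) (.a (.b (.b (.l 99) (.l 15)) (.l
      15)) (.b (.l 99) (.l 15))))) (.l 15)) (.b (.a (.c (.b (.l 99) (.l 15)) (.b (.l 99) (.l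
      15))) (.c (.a (.b (.l 99) (.l 15)) (.b (.l 99) (.l 15))) (.a (.b (.l 99) (.l 15)) (.b (.l
      99) (.l 15))))) (.l 15))) (.b (.a (.c (.b (.l 99) (.l 15)) (.b (.l 99) (.l 15))) (.l 5255))
      (.l 15))))

theorem x1_t1b_c1_d_n_h122 : chk3 (onCell 0 2684354560 0 1073741824 0 26843546 T1_t1b_c1_d_n) x1_t1b_c1_d_n_t122 120 194 250 = true := by decide +kernel

def x1_t1b_c1_d_n_t123 : T :=
  (.b (.a (.l 99) (.l 99)) (.a (.c (.b (.a (.c (.b (.l 99) (.l 15)) (.b (.l 99) (.l 15))) (.c (.a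
      (.b (.l 99) (.l 15)) (.b (.l 99) (.l 15))) (.a (.b (.l 99) (.l 15)) (.b (.l 99) (.l 15)))))
      (.l 15)) (.b (.a (.c (.b (.l 99) (.l 15)) (.b (.l 99) (.l 15))) (.c (.a (.b (.l 99) (.l
      15)) (.b (.l 99) (.l 15))) (.a (.b (.l 99) (.l 15)) (.b (.l 99) (.l 15))))) (.l 15))) (.b
      (.a (.c (.b (.l 99) (.l 15)) (.b (.l 99) (.l 15))) (.l 5255)) (.l 15))))

theorem x1_t1b_c1_d_n_h123 : chk3 (onCell 0 2684354560 0 1073741824 0 26843546 T1_t1b_c1_d_n) x1_t1b_c1_d_n_t123 120 194 251 = true := by decide +kernel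

def x1_t1b_c1_d_n_t124 : T :=
  (.l 15)

theorem x1_t1b_c1_d_n_h124 : chk3 (onCell 0 2684354560 0 1073741824 0 26843546 T1_t1b_c1_d_n) x1_t1b_c1_d_n_t124 120 195 125 = true := by decide +kernel

def x1_t1b_c1_d_n_t125 : T :=
  (.b (.l 5255) (.l 15))

theorem x1_t1b_c1_d_n_h125 : chk3 (onCell 0 2684354560 0 1073741824 0 26843546 T1_t1b_c1_d_n) x1_t1b_c1_d_n_t125 121 97 125 = true := by decide +kernel

def x1_t1b_c1_d_n_t126 : T :=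
  (.c (.b (.l 67) (.l 5255)) (.b (.l 67) (.l 5255)))

theorem x1_t1b_c1_d_n_h126 : chk3 (onCell 0 2684354560 0 1073741824 0 26843546 T1_t1b_c1_d_n) x1_t1b_c1_d_n_t126 61 48 62 = true := by decide +kernel

def x1_t1b_c1_d_n_t127 : T :=
  (.c (.b (.l 67) (.a (.l 67) (.l 67))) (.b (.l 67) (.a (.l 67) (.l 67))))

theorem x1_t1b_c1_d_n_h127 : chk3 (onCell 0 2684354560 0 1073741824 0 26843546 T1_t1b_c1_d_n) x1_t1b_c1_d_n_t127 60 96 63 = true := by decide +kernel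

def x1_t1b_c1_d_n_t128 : T :=
  (.b (.c (.b (.a (.l 99) (.l 99)) (.a (.c (.b (.a (.c (.b (.l 99) (.l 15)) (.b (.l 99) (.l 15)))
      (.c (.a (.b (.l 99) (.l 15)) (.b (.l 99) (.l 15))) (.a (.b (.l 99) (.l 15)) (.b (.l 99) (.l
      15))))) (.l 15)) (.b (.a (.c (.b (.l 99) (.l 15)) (.b (.l 99) (.l 15))) (.c (.a (.b (.l 99)
      (.l 15)) (.b (.l 99) (.l 15))) (.a (.b (.l 99) (.l 15)) (.b (.l 99) (.l 15))))) (.l 15)))
      (.b (.l 5127) (.l 15)))) (.b (.l 99) (.a (.c (.b (.a (.c (.b (.l 99) (.l 15)) (.b (.l 99)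
      (.l 15))) (.c (.a (.b (.l 99) (.l 15)) (.b (.l 99) (.l 15))) (.a (.b (.l 99) (.l 15)) (.b
      (.l 99) (.l 15))))) (.l 15)) (.b (.a (.c (.b (.l 99) (.l 15)) (.b (.l 99) (.l 15))) (.c (.a
      (.b (.l 99) (.l 15)) (.b (.l 99) (.l 15))) (.a (.b (.l 99) (.l 15)) (.b (.l 99) (.l 15)))))
      (.l 15))) (.b (.l 99) (.l 15))))) (.l 15))

theorem x1_t1b_c1_d_n_h128 : chk3 (onCell 0 2684354560 0 1073741824 0 26843546 T1_t1b_c1_d_n) x1_t1b_c1_d_n_t128 120 97 126 = true := by decide +kernel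

def x1_t1b_c1_d_n_t129 : T :=
  (.b (.l 5127) (.l 15))

theorem x1_t1b_c1_d_n_h129 : chk3 (onCell 0 2684354560 0 1073741824 0 26843546 T1_t1b_c1_d_n) x1_t1b_c1_d_n_t129 121 97 126 = true := by decide +kernel

def x1_t1b_c1_d_n_t130 : T :=
  (.b (.l 99) (.a (.c (.b (.a (.c (.b (.l 99) (.l 15)) (.b (.l 99) (.l 15))) (.c (.a (.b (.l 99)
      (.l 15)) (.b (.l 99) (.l 15))) (.a (.b (.l 99) (.l 15)) (.b (.l 99) (.l 15))))) (.l 15))
      (.b (.a (.c (.b (.l 99) (.l 15)) (.b (.l 99) (.l 15))) (.c (.a (.b (.l 99) (.l 15)) (.l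
      99)) (.a (.b (.l 99) (.l 15)) (.l 99)))) (.l 15))) (.b (.l 99) (.l 15))))

theorem x1_t1b_c1_d_n_h130 : chk3 (onCell 0 2684354560 0 1073741824 0 26843546 T1_t1b_c1_d_n) x1_t1b_c1_d_n_t130 120 194 254 = true := by decide +kernel

def x1_t1b_c1_d_n_t131 : T :=
  (.b (.l 99) (.a (.c (.b (.a (.c (.b (.l 99) (.l 15)) (.b (.l 99) (.a (.l 15) (.b (.l 99) (.l
      15))))) (.c (.a (.b (.l 99) (.b (.l 99) (.l 15))) (.l 99)) (.a (.b (.l 99) (.b (.l 99) (.l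
      15))) (.l 99)))) (.l 15)) (.b (.a (.c (.b (.l 99) (.a (.l 5127) (.b (.l 99) (.l 15)))) (.b
      (.l 99) (.a (.l 99) (.l 99)))) (.c (.a (.b (.l 99) (.b (.l 99) (.l 15))) (.l 99)) (.a (.b
      (.l 99) (.b (.l 99) (.l 15))) (.l 99)))) (.l 15))) (.b (.l 99) (.l 15))))

theorem x1_t1b_c1_d_n_h131 : chk3 (onCell 0 2684354560 0 1073741824 0 26843546 T1_t1b_c1_d_n) x1_t1b_c1_d_n_t131 120 194 255 = true := by decide +kernel

def x1_t1b_c1_d_n_t132 : T :=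
  (.l 15)

theorem x1_t1b_c1_d_n_h132 : chk3 (onCell 0 2684354560 0 1073741824 0 26843546 T1_t1b_c1_d_n) x1_t1b_c1_d_n_t132 120 195 127 = true := by decide +kernel

def x1_t1b_c1_d_n_t133 : T :=
  (.b (.l 4999) (.l 15))

theorem x1_t1b_c1_d_n_h133 : chk3 (onCell 0 2684354560 0 1073741824 0 26843546 T1_t1b_c1_d_n) x1_t1b_c1_d_n_t133 121 97 127 = true := by decide +kernel

def x1_t1b_c1_d_n_t134 : T :=
  (.c (.b (.l 67) (.l 5127)) (.b (.l 67) (.l 4999)))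

theorem x1_t1b_c1_d_n_h134 : chk3 (onCell 0 2684354560 0 1073741824 0 26843546 T1_t1b_c1_d_n) x1_t1b_c1_d_n_t134 61 48 63 = true := by decide +kernel

def x1_t1b_c1_d_n_t135 : T :=
  (.l 15)

theorem x1_t1b_c1_d_n_h135 : chk3 (onCell 0 2684354560 0 1073741824 0 26843546 T1_t1b_c1_d_n) x1_t1b_c1_d_n_t135 30 49 7 = true := by decide +kernel

def x1_t1b_c1_d_n_t136 : T :=
  (.l 15)

theorem x1_t1b_c1_d_n_h136 : chk3 (onCell 0 2684354560 0 1073741824 0 26843546 T1_t1b_c1_d_n) x1_t1b_c1_d_n_t136 30 25 7 = true := by decide +kernel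

def x1_t1b_c1_d_n_t137 : T :=
  (.l 15)

theorem x1_t1b_c1_d_n_h137 : chk3 (onCell 0 2684354560 0 1073741824 0 26843546 T1_t1b_c1_d_n) x1_t1b_c1_d_n_t137 30 13 3 = true := by decide +kernel

def x1_t1b_c1_d_n_t138 : T :=
  (.c (.c (.b (.l 9927) (.l 15)) (.b (.l 9671) (.l 15))) (.b (.l 9159) (.l 15)))

theorem x1_t1b_c1_d_n_h138 : chk3 (onCell 0 2684354560 0 1073741824 0 26843546 T1_t1b_c1_d_n) x1_t1b_c1_d_n_t138 31 24 24 = true := by decide +kernel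

def x1_t1b_c1_d_n_t139 : T :=
  (.b (.c (.l 71) (.b (.a (.l 8583) (.l 71)) (.l 15))) (.l 15))

theorem x1_t1b_c1_d_n_h139 : chk3 (onCell 0 2684354560 0 1073741824 0 26843546 T1_t1b_c1_d_n) x1_t1b_c1_d_n_t139 31 24 50 = true := by decide +kernel

def x1_t1b_c1_d_n_t140 : T :=
  (.b (.a (.l 8327) (.c (.b (.l 67) (.a (.l 8455) (.l 71))) (.b (.l 67) (.a (.l 8327) (.c (.b (.l
      67) (.a (.l 8455) (.l 71))) (.b (.l 67) (.a (.l 8327) (.c (.b (.l 67) (.a (.l 8327) (.b (.l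
      99) (.l 15)))) (.b (.l 67) (.a (.l 8327) (.b (.l 99) (.l 15)))))))))))) (.l 15))

theorem x1_t1b_c1_d_n_h140 : chk3 (onCell 0 2684354560 0 1073741824 0 26843546 T1_t1b_c1_d_n) x1_t1b_c1_d_n_t140 31 48 102 = true := by decide +kernel

def x1_t1b_c1_d_n_t141 : T :=
  (.b (.a (.l 8071) (.c (.b (.l 67) (.a (.l 8199) (.c (.b (.l 67) (.a (.l 8327) (.c (.b (.l 67)
      (.a (.l 8327) (.b (.l 99) (.l 15)))) (.b (.l 67) (.a (.l 8327) (.b (.l 99) (.l 15)))))))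
      (.b (.l 67) (.a (.l 8199) (.c (.b (.l 67) (.a (.l 8327) (.b (.l 99) (.l 15)))) (.b (.l 67)
      (.a (.l 8199) (.b (.l 99) (.l 15)))))))))) (.b (.l 67) (.a (.l 8071) (.c (.b (.l 67) (.a
      (.l 8199) (.c (.b (.l 67) (.a (.l 8199) (.b (.l 99) (.l 15)))) (.b (.l 67) (.a (.l 8199)
      (.b (.l 99) (.l 15))))))) (.b (.l 67) (.a (.l 8071) (.c (.b (.l 67) (.a (.l 8199) (.b (.l
      99) (.l 15)))) (.b (.l 67) (.a (.l 8071) (.b (.l 99) (.a (.l 15) (.b (.l 99) (.l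
      15)))))))))))))) (.l 15))

theorem x1_t1b_c1_d_n_h141 : chk3 (onCell 0 2684354560 0 1073741824 0 26843546 T1_t1b_c1_d_n) x1_t1b_c1_d_n_t141 31 48 103 = true := by decide +kernel

def x1_t1b_c1_d_n_t142 : T :=
  (.l 15)

theorem x1_t1b_c1_d_n_h142 : chk3 (onCell 0 2684354560 0 1073741824 0 26843546 T1_t1b_c1_d_n) x1_t1b_c1_d_n_t142 31 49 51 = true := by decide +kernel

def x1_t1b_c1_d_n_t143 : T :=
  (.b (.a (.l 7943) (.c (.b (.l 67) (.a (.l 8071) (.c (.b (.l 67) (.a (.l 8071) (.c (.b (.l 67)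
      (.a (.l 8071) (.b (.l 99) (.a (.l 8071) (.b (.l 99) (.l 15)))))) (.b (.l 67) (.a (.l 8071)
      (.b (.l 99) (.a (.l 8071) (.b (.l 99) (.l 15))))))))) (.b (.l 67) (.a (.l 8071) (.c (.b (.l
      67) (.a (.l 8071) (.b (.l 99) (.a (.l 99) (.b (.l 99) (.l 15)))))) (.b (.l 67) (.a (.l
      8071) (.b (.l 99) (.a (.l 99) (.b (.l 99) (.l 15)))))))))))) (.b (.l 67) (.a (.l 7943) (.c
      (.b (.l 67) (.a (.l 7943) (.c (.b (.l 67) (.a (.l 99) (.b (.l 99) (.a (.l 99) (.l 99)))))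
      (.b (.l 67) (.a (.l 99) (.b (.l 99) (.l 99))))))) (.b (.l 67) (.a (.l 7943) (.c (.b (.l 67)
      (.a (.l 99) (.b (.l 67) (.l 99)))) (.b (.l 67) (.a (.l 99) (.b (.l 67) (.l 99))))))))))))
      (.l 15))

theorem x1_t1b_c1_d_n_h143 : chk3 (onCell 0 2684354560 0 1073741824 0 26843546 T1_t1b_c1_d_n) x1_t1b_c1_d_n_t143 31 48 104 = true := by decide +kernel

def x1_t1b_c1_d_n_t144 : T :=
  (.b (.a (.l 7687) (.c (.b (.l 67) (.a (.l 7815) (.c (.b (.l 67) (.a (.l 99) (.c (.b (.l 67) (.a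
      (.l 99) (.l 99))) (.b (.l 67) (.a (.l 99) (.l 99)))))) (.b (.l 67) (.a (.l 99) (.c (.b (.l
      67) (.a (.l 99) (.l 99))) (.b (.l 67) (.l 99)))))))) (.b (.l 67) (.a (.l 7687) (.c (.b (.l
      67) (.a (.l 99) (.c (.b (.l 67) (.l 99)) (.b (.l 67) (.l 99))))) (.b (.l 67) (.a (.l 99)
      (.c (.b (.l 67) (.l 99)) (.l 99))))))))) (.l 15))

theorem x1_t1b_c1_d_n_h144 : chk3 (onCell 0 2684354560 0 1073741824 0 26843546 T1_t1b_c1_d_n) x1_t1b_c1_d_n_t144 31 48 105 = true := by decide +kernel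

def x1_t1b_c1_d_n_t145 : T :=
  (.l 15)

theorem x1_t1b_c1_d_n_h145 : chk3 (onCell 0 2684354560 0 1073741824 0 26843546 T1_t1b_c1_d_n) x1_t1b_c1_d_n_t145 31 49 52 = true := by decide +kernel

def x1_t1b_c1_d_n_t146 : T :=
  (.b (.a (.l 7623) (.c (.b (.l 67) (.a (.l 99) (.c (.b (.l 67) (.a (.l 99) (.l 99))) (.b (.l 67)
      (.a (.l 99) (.l 99)))))) (.b (.l 67) (.a (.l 99) (.b (.l 67) (.c (.a (.l 99) (.l 99)) (.l
      99))))))) (.a (.l 15) (.c (.l 15) (.b (.a (.l 15) (.c (.b (.a (.l 15) (.c (.l 15) (.b (.a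
      (.l 15) (.b (.a (.l 7559) (.b (.l 99) (.l 15))) (.l 15))) (.l 15)))) (.l 15)) (.b (.a (.l
      7559) (.c (.b (.a (.l 7559) (.b (.a (.l 99) (.b (.l 99) (.l 15))) (.l 15))) (.l 15)) (.b
      (.a (.l 7559) (.b (.a (.l 99) (.b (.l 99) (.l 15))) (.l 15))) (.l 15)))) (.l 15)))) (.l
      15)))))

theorem x1_t1b_c1_d_n_h146 : chk3 (onCell 0 2684354560 0 1073741824 0 26843546 T1_t1b_c1_d_n) x1_t1b_c1_d_n_t146 31 48 106 = true := by decide +kernel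

def x1_t1b_c1_d_n_t147 : T :=
  (.b (.a (.l 7495) (.b (.l 67) (.c (.a (.l 99) (.b (.l 67) (.l 99))) (.a (.l 99) (.b (.l 67) (.l
      99)))))) (.a (.l 7431) (.c (.b (.a (.l 7431) (.c (.b (.a (.l 7559) (.c (.b (.a (.l 7559)
      (.b (.a (.l 99) (.l 99)) (.l 15))) (.l 15)) (.b (.a (.l 7559) (.b (.l 99) (.l 15))) (.l
      15)))) (.l 15)) (.b (.a (.l 7431) (.c (.b (.a (.l 7559) (.b (.l 99) (.l 15))) (.l 15)) (.b
      (.a (.l 7431) (.b (.l 99) (.l 15))) (.l 15)))) (.l 15)))) (.l 15)) (.b (.a (.l 7431) (.c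
      (.b (.a (.l 7431) (.c (.b (.a (.l 7431) (.b (.l 99) (.l 15))) (.l 15)) (.b (.a (.l 7431)
      (.b (.l 99) (.l 15))) (.l 15)))) (.l 15)) (.b (.a (.l 7431) (.c (.b (.a (.l 7431) (.b (.l
      99) (.l 15))) (.l 15)) (.b (.a (.l 7431) (.b (.l 99) (.l 15))) (.l 15)))) (.l 15)))) (.l
      15)))))

theorem x1_t1b_c1_d_n_h147 : chk3 (onCell 0 2684354560 0 1073741824 0 26843546 T1_t1b_c1_d_n) x1_t1b_c1_d_n_t147 31 48 107 = true := by decide +kernel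

def x1_t1b_c1_d_n_t148 : T :=
  (.l 15)

theorem x1_t1b_c1_d_n_h148 : chk3 (onCell 0 2684354560 0 1073741824 0 26843546 T1_t1b_c1_d_n) x1_t1b_c1_d_n_t148 31 49 53 = true := by decide +kernel

def x1_t1b_c1_d_n_t149 : T :=
  (.a (.l 7111) (.c (.b (.l 67) (.c (.a (.l 99) (.l 99)) (.a (.l 99) (.l 99)))) (.b (.l 67) (.a
      (.l 99) (.l 99)))))

theorem x1_t1b_c1_d_n_h149 : chk3 (onCell 0 2684354560 0 1073741824 0 26843546 T1_t1b_c1_d_n) x1_t1b_c1_d_n_t149 31 96 54 = true := by decide +kernel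

end Pool.Agent.Strip051.LC.E1.Ch
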