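import Pool.Agent.Strip051.LC.E1.Ch.Te

/-! # Rests near the full period: certificate P_x1_t1b_c1_d_n_4 -/

set_option maxRecDepth 100000

namespace Pool.Agent.Strip051.LC.E1.Ch

open Pool.Agent.Strip051.PB
open Pool.Agent.Strip051.LC.E0.Ch (onCell Tree)

def x1_t1b_c1_d_n_t150 : T :=
  (.a (.l 7175) (.c (.b (.a (.l 7303) (.c (.b (.a (.l 7303) (.c (.b (.a (.l 7431) (.b (.l 99) (.l
      15))) (.l 15)) (.b (.a (.l 7303) (.b (.l 99) (.l 15))) (.l 15)))) (.l 15)) (.b (.a (.l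
      7303) (.c (.b (.a (.l 7303) (.b (.l 99) (.l 15))) (.l 15)) (.b (.a (.l 7303) (.b (.l 99)
      (.l 15))) (.l 15)))) (.l 15)))) (.l 15)) (.b (.a (.l 7175) (.c (.b (.a (.l 7303) (.c (.b
      (.a (.l 7303) (.b (.l 99) (.l 15))) (.l 15)) (.b (.a (.l 7303) (.b (.l 99) (.l 15))) (.l
      15)))) (.l 15)) (.b (.a (.l 7175) (.c (.b (.a (.l 7303) (.b (.l 99) (.l 15))) (.l 15)) (.b
      (.a (.l 7175) (.b (.l 99) (.l 15))) (.l 15)))) (.l 15)))) (.l 15))))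

theorem x1_t1b_c1_d_n_h150 : chk3 (onCell 0 2684354560 0 1073741824 0 26843546 T1_t1b_c1_d_n) x1_t1b_c1_d_n_t150 31 97 108 = true := by decide +kernel

def x1_t1b_c1_d_n_t151 : T :=
  (.a (.l 7047) (.c (.b (.a (.l 7175) (.c (.b (.a (.l 7175) (.b (.c (.a (.l 7175) (.b (.l 99) (.l
      15))) (.a (.l 7175) (.b (.l 99) (.l 15)))) (.l 15))) (.l 15)) (.b (.a (.l 7175) (.b (.c (.a
      (.l 7175) (.b (.l 99) (.a (.l 15) (.b (.l 99) (.l 15))))) (.a (.l 99) (.b (.l 99) (.a (.l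
      99) (.b (.l 99) (.l 15)))))) (.l 15))) (.l 15)))) (.l 15)) (.b (.a (.l 7047) (.b (.c (.a
      (.l 7047) (.b (.c (.a (.l 99) (.b (.l 99) (.a (.l 99) (.l 99)))) (.a (.l 99) (.b (.l 99)
      (.l 99)))) (.l 15))) (.a (.l 7047) (.b (.a (.l 99) (.c (.b (.l 99) (.l 99)) (.b (.l 99) (.l
      99)))) (.l 15)))) (.l 15))) (.l 15))))

theorem x1_t1b_c1_d_n_h151 : chk3 (onCell 0 2684354560 0 1073741824 0 26843546 T1_t1b_c1_d_n) x1_t1b_c1_d_n_t151 31 97 109 = true := by decide +kernel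

def x1_t1b_c1_d_n_t152 : T :=
  (.b (.a (.l 6855) (.c (.b (.l 67) (.a (.l 67) (.l 99))) (.b (.l 67) (.a (.l 67) (.l 99))))) (.a
      (.l 6791) (.c (.b (.a (.l 6919) (.c (.b (.a (.l 7047) (.c (.b (.a (.l 99) (.c (.b (.l 99)
      (.l 99)) (.l 99))) (.l 15)) (.b (.a (.l 99) (.l 99)) (.l 15)))) (.l 15)) (.b (.a (.l 6919)
      (.c (.b (.l 99) (.l 15)) (.b (.l 99) (.l 15)))) (.l 15)))) (.l 15)) (.b (.a (.l 6791) (.c
      (.b (.a (.l 6791) (.c (.b (.l 99) (.l 15)) (.b (.l 99) (.l 15)))) (.l 15)) (.b (.a (.l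
      6791) (.c (.b (.l 99) (.l 15)) (.b (.l 99) (.a (.l 15) (.c (.l 15) (.b (.a (.l 15) (.b (.l
      99) (.l 15))) (.l 15))))))) (.l 15)))) (.l 15)))))

theorem x1_t1b_c1_d_n_h152 : chk3 (onCell 0 2684354560 0 1073741824 0 26843546 T1_t1b_c1_d_n) x1_t1b_c1_d_n_t152 31 48 55 = true := by decide +kernel

def x1_t1b_c1_d_n_t153 : T :=
  (.l 15)

theorem x1_t1b_c1_d_n_h153 : chk3 (onCell 0 2684354560 0 1073741824 0 26843546 T1_t1b_c1_d_n) x1_t1b_c1_d_n_t153 31 49 27 = true := by decide +kernel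

def x1_t1b_c1_d_n_t154 : T :=
  (.l 15)

theorem x1_t1b_c1_d_n_h154 : chk3 (onCell 0 2684354560 0 1073741824 0 26843546 T1_t1b_c1_d_n) x1_t1b_c1_d_n_t154 31 25 6 = true := by decide +kernel

def x1_t1b_c1_d_n_t155 : T :=
  (.l 15)

theorem x1_t1b_c1_d_n_h155 : chk3 (onCell 0 2684354560 0 1073741824 0 26843546 T1_t1b_c1_d_n) x1_t1b_c1_d_n_t155 31 13 6 = true := by decide +kernel

def x1_t1b_c1_d_n_t156 : T :=
  (.b (.b (.c (.c (.c (.l 71) (.b (.c (.l 6471) (.b (.l 67) (.l 67))) (.l 6279))) (.c (.b (.c (.l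
      67) (.l 67)) (.l 6023)) (.b (.l 67) (.l 5767)))) (.c (.b (.c (.l 67) (.l 67)) (.l 5383))
      (.b (.l 67) (.l 4999)))) (.l 15)) (.l 15))

theorem x1_t1b_c1_d_n_h156 : chk3 (onCell 0 2684354560 0 1073741824 0 26843546 T1_t1b_c1_d_n) x1_t1b_c1_d_n_t156 62 12 7 = true := by decide +kernel

def x1_t1b_c1_d_n_t157 : T :=
  (.c (.c (.c (.c (.b (.l 67) (.a (.l 67) (.l 67))) (.b (.l 67) (.l 99))) (.c (.b (.l 67) (.l
      99)) (.b (.l 67) (.l 99)))) (.c (.c (.b (.l 67) (.l 67)) (.b (.l 67) (.l 67))) (.c (.b (.l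
      67) (.l 67)) (.b (.l 67) (.l 67))))) (.c (.c (.l 67) (.l 67)) (.c (.l 67) (.l 67))))

theorem x1_t1b_c1_d_n_h157 : chk3 (onCell 0 2684354560 0 1073741824 0 26843546 T1_t1b_c1_d_n) x1_t1b_c1_d_n_t157 63 96 7 = true := by decide +kernel

def x1_t1b_c1_d_n_t158 : T :=
  (.c (.a (.l 6663) (.c (.b (.a (.l 6663) (.c (.b (.l 99) (.a (.l 6791) (.c (.b (.a (.l 99) (.l
      99)) (.l 15)) (.b (.l 99) (.l 15))))) (.b (.l 99) (.a (.l 6663) (.c (.b (.l 99) (.l 15))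
      (.b (.l 99) (.l 15))))))) (.l 15)) (.b (.a (.l 6663) (.c (.b (.l 99) (.a (.l 6663) (.c (.b
      (.l 99) (.l 15)) (.b (.l 99) (.l 15))))) (.b (.l 99) (.a (.l 6663) (.c (.b (.l 99) (.l 15))
      (.b (.l 99) (.l 15))))))) (.l 15)))) (.a (.l 6535) (.c (.b (.a (.l 6535) (.c (.b (.l 99)
      (.a (.l 6535) (.c (.b (.l 99) (.l 15)) (.b (.l 99) (.l 15))))) (.b (.l 99) (.a (.l 6535)
      (.c (.b (.l 99) (.l 15)) (.b (.l 99) (.l 15))))))) (.l 15)) (.b (.a (.l 6535) (.c (.b (.l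
      99) (.a (.l 6535) (.c (.b (.l 99) (.l 15)) (.b (.l 99) (.l 15))))) (.b (.l 99) (.a (.l
      6535) (.c (.b (.l 99) (.l 15)) (.b (.l 99) (.l 15))))))) (.l 15)))))

theorem x1_t1b_c1_d_n_h158 : chk3 (onCell 0 2684354560 0 1073741824 0 26843546 T1_t1b_c1_d_n) x1_t1b_c1_d_n_t158 63 194 56 = true := by decide +kernel

def x1_t1b_c1_d_n_t159 : T :=
  (.c (.a (.l 6407) (.c (.b (.a (.l 6407) (.c (.b (.l 67) (.a (.l 6407) (.c (.b (.l 99) (.l 15))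
      (.b (.l 99) (.l 15))))) (.b (.l 67) (.a (.l 6407) (.c (.b (.l 99) (.l 15)) (.b (.l 99) (.l
      15))))))) (.l 15)) (.b (.a (.l 6407) (.c (.b (.l 67) (.a (.l 99) (.c (.b (.l 99) (.l 15))
      (.b (.l 99) (.l 99))))) (.b (.l 67) (.a (.l 99) (.c (.b (.l 99) (.l 99)) (.b (.l 99) (.l
      99))))))) (.l 15)))) (.a (.l 6279) (.c (.b (.a (.l 99) (.c (.b (.l 67) (.a (.l 99) (.c (.b
      (.l 99) (.l 99)) (.b (.l 99) (.l 99))))) (.b (.l 67) (.a (.l 99) (.l 99))))) (.l 15)) (.b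
      (.a (.l 99) (.c (.b (.l 67) (.a (.l 99) (.l 99))) (.b (.l 67) (.l 99)))) (.l 15)))))

theorem x1_t1b_c1_d_n_h159 : chk3 (onCell 0 2684354560 0 1073741824 0 26843546 T1_t1b_c1_d_n) x1_t1b_c1_d_n_t159 63 194 57 = true := by decide +kernel

def x1_t1b_c1_d_n_t160 : T :=
  (.c (.a (.l 6151) (.c (.b (.a (.l 99) (.c (.b (.l 67) (.l 99)) (.b (.l 67) (.l 99)))) (.l 15))
      (.b (.a (.l 99) (.l 99)) (.l 15)))) (.a (.l 6023) (.c (.b (.a (.l 99) (.l 99)) (.a (.l 15)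
      (.c (.l 15) (.b (.a (.l 15) (.c (.b (.l 99) (.l 15)) (.b (.l 99) (.l 15)))) (.l 15))))) (.b
      (.l 99) (.a (.l 6023) (.c (.b (.a (.l 6023) (.c (.b (.l 99) (.l 15)) (.b (.l 99) (.l 15))))
      (.l 15)) (.b (.a (.l 6023) (.c (.b (.l 99) (.l 15)) (.b (.l 99) (.l 15)))) (.l 15))))))))

theorem x1_t1b_c1_d_n_h160 : chk3 (onCell 0 2684354560 0 1073741824 0 26843546 T1_t1b_c1_d_n) x1_t1b_c1_d_n_t160 63 194 58 = true := by decide +kernel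

def x1_t1b_c1_d_n_t161 : T :=
  (.c (.a (.l 5895) (.c (.b (.l 99) (.a (.l 5895) (.c (.b (.a (.l 6023) (.c (.b (.l 99) (.l 15))
      (.b (.l 99) (.l 15)))) (.l 15)) (.b (.a (.l 5895) (.c (.b (.l 99) (.l 15)) (.b (.l 99) (.l
      15)))) (.l 15))))) (.b (.l 99) (.a (.l 5895) (.c (.b (.a (.l 5895) (.c (.b (.l 99) (.l 15))
      (.b (.l 99) (.l 15)))) (.l 15)) (.b (.a (.l 5895) (.c (.b (.l 99) (.l 15)) (.b (.l 99) (.l
      15)))) (.l 15))))))) (.a (.l 5767) (.c (.b (.l 99) (.a (.l 5895) (.c (.b (.a (.l 5895) (.c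
      (.b (.l 99) (.l 15)) (.b (.l 99) (.l 15)))) (.l 15)) (.b (.a (.l 5895) (.c (.b (.l 99) (.l
      15)) (.b (.l 99) (.l 15)))) (.l 15))))) (.b (.l 99) (.a (.l 5767) (.c (.b (.a (.l 99) (.c
      (.b (.l 99) (.l 15)) (.b (.l 99) (.l 15)))) (.l 15)) (.b (.a (.l 99) (.c (.b (.l 99) (.l
      15)) (.b (.l 99) (.l 99)))) (.l 15))))))))

theorem x1_t1b_c1_d_n_h161 : chk3 (onCell 0 2684354560 0 1073741824 0 26843546 T1_t1b_c1_d_n) x1_t1b_c1_d_n_t161 63 194 59 = true := by decide +kernel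

def x1_t1b_c1_d_n_t162 : T :=
  (.c (.a (.l 5639) (.c (.b (.l 99) (.a (.l 5767) (.c (.b (.a (.l 99) (.c (.b (.l 99) (.l 99))
      (.b (.l 99) (.l 99)))) (.l 15)) (.b (.a (.l 99) (.l 99)) (.l 15))))) (.b (.l 99) (.a (.l
      5639) (.c (.b (.a (.l 99) (.l 99)) (.l 15)) (.b (.l 99) (.l 15))))))) (.a (.l 5639) (.c (.b
      (.l 99) (.a (.l 5639) (.c (.b (.l 99) (.l 15)) (.b (.l 99) (.l 15))))) (.b (.l 99) (.a (.l
      5639) (.c (.b (.l 99) (.l 15)) (.b (.l 99) (.l 15))))))))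

theorem x1_t1b_c1_d_n_h162 : chk3 (onCell 0 2684354560 0 1073741824 0 26843546 T1_t1b_c1_d_n) x1_t1b_c1_d_n_t162 63 194 60 = true := by decide +kernel

def x1_t1b_c1_d_n_t163 : T :=
  (.c (.a (.l 5511) (.c (.b (.l 99) (.a (.l 5511) (.c (.b (.l 99) (.l 15)) (.b (.l 99) (.l
      15))))) (.b (.l 67) (.a (.l 5511) (.c (.b (.l 99) (.a (.l 15) (.c (.l 15) (.b (.l 99) (.l
      15))))) (.b (.l 99) (.a (.l 5511) (.c (.b (.l 99) (.l 15)) (.b (.l 99) (.l 15)))))))))) (.a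
      (.l 5383) (.c (.b (.l 67) (.a (.l 5511) (.c (.b (.l 99) (.a (.l 5511) (.c (.b (.l 99) (.l
      15)) (.b (.l 99) (.l 15))))) (.b (.l 99) (.a (.l 5511) (.c (.b (.l 99) (.l 15)) (.b (.l 99)
      (.l 15)))))))) (.b (.l 67) (.a (.l 5383) (.c (.b (.l 99) (.a (.l 5383) (.c (.b (.l 99) (.l
      15)) (.b (.l 99) (.l 15))))) (.b (.l 99) (.a (.l 5383) (.c (.b (.l 99) (.l 15)) (.b (.l 99)
      (.l 15)))))))))))

theorem x1_t1b_c1_d_n_h163 : chk3 (onCell 0 2684354560 0 1073741824 0 26843546 T1_t1b_c1_d_n) x1_t1b_c1_d_n_t163 63 194 61 = true := by decide +kernel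

def x1_t1b_c1_d_n_t164 : T :=
  (.c (.c (.a (.l 5255) (.c (.b (.l 67) (.a (.l 5383) (.c (.b (.l 99) (.a (.l 5383) (.c (.b (.l
      99) (.l 15)) (.b (.l 99) (.l 15))))) (.b (.l 99) (.a (.l 5383) (.c (.b (.l 99) (.l 15)) (.b
      (.l 99) (.l 15)))))))) (.b (.l 67) (.a (.l 5255) (.c (.b (.l 99) (.a (.l 99) (.c (.b (.l
      99) (.l 15)) (.b (.l 99) (.l 15))))) (.b (.l 99) (.a (.l 99) (.c (.b (.l 99) (.l 15)) (.b
      (.l 99) (.l 15)))))))))) (.a (.l 5255) (.b (.l 67) (.c (.a (.l 99) (.b (.l 99) (.c (.a (.l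
      99) (.c (.b (.l 99) (.l 15)) (.b (.l 99) (.l 15)))) (.a (.l 99) (.c (.l 99) (.l 99))))))
      (.a (.l 99) (.b (.l 67) (.c (.a (.l 99) (.l 99)) (.l 99)))))))) (.a (.c (.l 5127) (.l 99))
      (.c (.b (.l 67) (.a (.l 99) (.c (.b (.l 67) (.l 99)) (.b (.l 67) (.l 99))))) (.b (.l 67)
      (.a (.l 99) (.l 99))))))

theorem x1_t1b_c1_d_n_h164 : chk3 (onCell 0 2684354560 0 1073741824 0 26843546 T1_t1b_c1_d_n) x1_t1b_c1_d_n_t164 63 194 31 = true := by decide +kernel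

def x1_t1b_c1_d_n_t165 : T :=
  (.a (.l 15) (.b (.c (.l 15) (.c (.l 15) (.c (.l 15) (.c (.l 15) (.c (.l 15) (.a (.l 15) (.c (.l
      15) (.b (.a (.l 15) (.c (.l 15) (.b (.l 99) (.l 15)))) (.l 15))))))))) (.l 15)))

theorem x1_t1b_c1_d_n_h165 : chk3 (onCell 0 2684354560 0 1073741824 0 26843546 T1_t1b_c1_d_n) x1_t1b_c1_d_n_t165 63 195 7 = true := by decide +kernel

def x1_t1b_c1_d_n_t166 : T :=
  (.l 15)

theorem x1_t1b_c1_d_n_h166 : chk3 (onCell 0 2684354560 0 1073741824 0 26843546 T1_t1b_c1_d_n) x1_t1b_c1_d_n_t166 63 49 7 = true := by decide +kernel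

def x1_t1b_c1_d_n_t167 : T :=
  (.l 15)

theorem x1_t1b_c1_d_n_h167 : chk3 (onCell 0 2684354560 0 1073741824 0 26843546 T1_t1b_c1_d_n) x1_t1b_c1_d_n_t167 63 25 7 = true := by decide +kernel

def x1_t1b_c1_d_n_t168 : T :=
  (.l 15)

theorem x1_t1b_c1_d_n_h168 : chk3 (onCell 0 2684354560 0 1073741824 0 26843546 T1_t1b_c1_d_n) x1_t1b_c1_d_n_t168 31 13 7 = true := by decide +kernel

def x1_t1b_c1_d_n_t169 : T :=
  (.l 15)

theorem x1_t1b_c1_d_n_h169 : chk3 (onCell 0 2684354560 0 1073741824 0 26843546 T1_t1b_c1_d_n) x1_t1b_c1_d_n_t169 15 7 1 = true := by decide +kernel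

end Pool.Agent.Strip051.LC.E1.Ch
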