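import Pool.Agent.Strip051.LC.E1.Ch.Cert.P_x1_t1b_c1_d_n_1
import Pool.Agent.Strip051.LC.E1.Ch.Cert.P_x1_t1b_c1_d_n_2
import Pool.Agent.Strip051.LC.E1.Ch.Cert.P_x1_t1b_c1_d_n_3
import Pool.Agent.Strip051.LC.E1.Ch.Cert.P_x1_t1b_c1_d_n_4

/-! # Rests near the full period: certificate P_x1_t1b_c1_d_n -/

set_option maxRecDepth 100000

namespace Pool.Agent.Strip051.LC.E1.Ch

open Pool.Agent.Strip051.PB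
open Pool.Agent.Strip051.LC.E0.Ch (onCell Tree)

theorem x1_t1b_c1_d_n : Tree 0 2684354560 0 1073741824 0 26843546 T1_t1b_c1_d_n :=
  ⟨_, (chk3_a (chk3_a x1_t1b_c1_d_n_h0 (chk3_b x1_t1b_c1_d_n_h1 x1_t1b_c1_d_n_h2)) (chk3_a
      (chk3_b (chk3_b x1_t1b_c1_d_n_h3 x1_t1b_c1_d_n_h4) x1_t1b_c1_d_n_h5) (chk3_b (chk3_b
      x1_t1b_c1_d_n_h6 (chk3_b x1_t1b_c1_d_n_h7 (chk3_b x1_t1b_c1_d_n_h8 (chk3_b x1_t1b_c1_d_n_h9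
      (chk3_a x1_t1b_c1_d_n_h10 (chk3_c (chk3_c x1_t1b_c1_d_n_h11 (chk3_b x1_t1b_c1_d_n_h12
      (chk3_c x1_t1b_c1_d_n_h13 x1_t1b_c1_d_n_h14))) x1_t1b_c1_d_n_h15)))))) (chk3_a (chk3_b
      (chk3_b (chk3_c x1_t1b_c1_d_n_h16 (chk3_c (chk3_b (chk3_c (chk3_c x1_t1b_c1_d_n_h17 (chk3_c
      x1_t1b_c1_d_n_h18 x1_t1b_c1_d_n_h19)) x1_t1b_c1_d_n_h20) x1_t1b_c1_d_n_h21) (chk3_b (chk3_b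
      (chk3_c (chk3_c (chk3_c x1_t1b_c1_d_n_h22 x1_t1b_c1_d_n_h23) x1_t1b_c1_d_n_h24) (chk3_c
      (chk3_c x1_t1b_c1_d_n_h25 x1_t1b_c1_d_n_h26) (chk3_c x1_t1b_c1_d_n_h27 x1_t1b_c1_d_n_h28)))
      x1_t1b_c1_d_n_h29) x1_t1b_c1_d_n_h30))) x1_t1b_c1_d_n_h31) x1_t1b_c1_d_n_h32) (chk3_b
      (chk3_c (chk3_a (chk3_c x1_t1b_c1_d_n_h33 (chk3_b (chk3_c x1_t1b_c1_d_n_h34
      x1_t1b_c1_d_n_h35) x1_t1b_c1_d_n_h36)) (chk3_c x1_t1b_c1_d_n_h37 (chk3_b (chk3_c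
      x1_t1b_c1_d_n_h38 x1_t1b_c1_d_n_h39) x1_t1b_c1_d_n_h40))) (chk3_a (chk3_b (chk3_c (chk3_b
      (chk3_c (chk3_c x1_t1b_c1_d_n_h41 (chk3_c x1_t1b_c1_d_n_h42 (chk3_b (chk3_c
      x1_t1b_c1_d_n_h43 (chk3_b (chk3_a (chk3_c x1_t1b_c1_d_n_h44 x1_t1b_c1_d_n_h45)
      x1_t1b_c1_d_n_h46) x1_t1b_c1_d_n_h47)) x1_t1b_c1_d_n_h48))) (chk3_c (chk3_c (chk3_b (chk3_c
      (chk3_b (chk3_a (chk3_c x1_t1b_c1_d_n_h49 x1_t1b_c1_d_n_h50) x1_t1b_c1_d_n_h51)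
      x1_t1b_c1_d_n_h52) x1_t1b_c1_d_n_h53) x1_t1b_c1_d_n_h54) (chk3_b (chk3_c (chk3_b (chk3_a
      (chk3_c x1_t1b_c1_d_n_h55 x1_t1b_c1_d_n_h56) x1_t1b_c1_d_n_h57) x1_t1b_c1_d_n_h58) (chk3_b
      (chk3_a (chk3_c x1_t1b_c1_d_n_h59 x1_t1b_c1_d_n_h60) x1_t1b_c1_d_n_h61) x1_t1b_c1_d_n_h62))
      x1_t1b_c1_d_n_h63)) (chk3_c (chk3_b (chk3_c x1_t1b_c1_d_n_h64 (chk3_b (chk3_a (chk3_c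
      x1_t1b_c1_d_n_h65 x1_t1b_c1_d_n_h66) x1_t1b_c1_d_n_h67) x1_t1b_c1_d_n_h68))
      x1_t1b_c1_d_n_h69) (chk3_b (chk3_b (chk3_c (chk3_a (chk3_c x1_t1b_c1_d_n_h70
      x1_t1b_c1_d_n_h71) x1_t1b_c1_d_n_h72) x1_t1b_c1_d_n_h73) x1_t1b_c1_d_n_h74)
      x1_t1b_c1_d_n_h75)))) x1_t1b_c1_d_n_h76) (chk3_b (chk3_b (chk3_c (chk3_c (chk3_c (chk3_b
      x1_t1b_c1_d_n_h77 (chk3_a (chk3_c (chk3_a (chk3_b (chk3_c x1_t1b_c1_d_n_h78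
      x1_t1b_c1_d_n_h79) x1_t1b_c1_d_n_h80) x1_t1b_c1_d_n_h81) (chk3_a (chk3_b (chk3_c
      x1_t1b_c1_d_n_h82 x1_t1b_c1_d_n_h83) x1_t1b_c1_d_n_h84) x1_t1b_c1_d_n_h85))
      x1_t1b_c1_d_n_h86)) (chk3_b x1_t1b_c1_d_n_h87 (chk3_a (chk3_c x1_t1b_c1_d_n_h88 (chk3_a
      (chk3_b (chk3_c x1_t1b_c1_d_n_h89 x1_t1b_c1_d_n_h90) x1_t1b_c1_d_n_h91) x1_t1b_c1_d_n_h92))
      x1_t1b_c1_d_n_h93))) (chk3_c (chk3_a (chk3_b x1_t1b_c1_d_n_h94 (chk3_c x1_t1b_c1_d_n_h95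
      x1_t1b_c1_d_n_h96)) x1_t1b_c1_d_n_h97) (chk3_a (chk3_b x1_t1b_c1_d_n_h98 (chk3_c (chk3_a
      (chk3_b (chk3_c x1_t1b_c1_d_n_h99 x1_t1b_c1_d_n_h100) x1_t1b_c1_d_n_h101)
      x1_t1b_c1_d_n_h102) (chk3_a (chk3_b (chk3_c x1_t1b_c1_d_n_h103 x1_t1b_c1_d_n_h104)
      x1_t1b_c1_d_n_h105) x1_t1b_c1_d_n_h106))) x1_t1b_c1_d_n_h107))) (chk3_c (chk3_c (chk3_a
      (chk3_b x1_t1b_c1_d_n_h108 (chk3_c x1_t1b_c1_d_n_h109 (chk3_a (chk3_b x1_t1b_c1_d_n_h110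
      x1_t1b_c1_d_n_h111) x1_t1b_c1_d_n_h112))) x1_t1b_c1_d_n_h113) (chk3_a (chk3_b
      x1_t1b_c1_d_n_h114 (chk3_c x1_t1b_c1_d_n_h115 x1_t1b_c1_d_n_h116)) x1_t1b_c1_d_n_h117))
      (chk3_c (chk3_a (chk3_b x1_t1b_c1_d_n_h118 (chk3_c (chk3_a (chk3_b x1_t1b_c1_d_n_h119
      x1_t1b_c1_d_n_h120) x1_t1b_c1_d_n_h121) (chk3_a (chk3_b (chk3_c x1_t1b_c1_d_n_h122
      x1_t1b_c1_d_n_h123) x1_t1b_c1_d_n_h124) x1_t1b_c1_d_n_h125))) x1_t1b_c1_d_n_h126) (chk3_a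
      (chk3_b x1_t1b_c1_d_n_h127 (chk3_c (chk3_a x1_t1b_c1_d_n_h128 x1_t1b_c1_d_n_h129) (chk3_a
      (chk3_b (chk3_c x1_t1b_c1_d_n_h130 x1_t1b_c1_d_n_h131) x1_t1b_c1_d_n_h132)
      x1_t1b_c1_d_n_h133))) x1_t1b_c1_d_n_h134)))) x1_t1b_c1_d_n_h135) x1_t1b_c1_d_n_h136))
      x1_t1b_c1_d_n_h137) (chk3_c (chk3_b (chk3_b (chk3_c (chk3_c x1_t1b_c1_d_n_h138 (chk3_c
      x1_t1b_c1_d_n_h139 (chk3_b (chk3_c x1_t1b_c1_d_n_h140 x1_t1b_c1_d_n_h141)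
      x1_t1b_c1_d_n_h142))) (chk3_c (chk3_c (chk3_b (chk3_c x1_t1b_c1_d_n_h143
      x1_t1b_c1_d_n_h144) x1_t1b_c1_d_n_h145) (chk3_b (chk3_c x1_t1b_c1_d_n_h146
      x1_t1b_c1_d_n_h147) x1_t1b_c1_d_n_h148)) (chk3_b (chk3_c (chk3_b x1_t1b_c1_d_n_h149 (chk3_c
      x1_t1b_c1_d_n_h150 x1_t1b_c1_d_n_h151)) x1_t1b_c1_d_n_h152) x1_t1b_c1_d_n_h153)))
      x1_t1b_c1_d_n_h154) x1_t1b_c1_d_n_h155) (chk3_b (chk3_a x1_t1b_c1_d_n_h156 (chk3_b (chk3_b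
      (chk3_b x1_t1b_c1_d_n_h157 (chk3_b (chk3_c (chk3_c (chk3_c x1_t1b_c1_d_n_h158
      x1_t1b_c1_d_n_h159) (chk3_c x1_t1b_c1_d_n_h160 x1_t1b_c1_d_n_h161)) (chk3_c (chk3_c
      x1_t1b_c1_d_n_h162 x1_t1b_c1_d_n_h163) x1_t1b_c1_d_n_h164)) x1_t1b_c1_d_n_h165))
      x1_t1b_c1_d_n_h166) x1_t1b_c1_d_n_h167)) x1_t1b_c1_d_n_h168)))) x1_t1b_c1_d_n_h169)))))⟩

end Pool.Agent.Strip051.LC.E1.Ch
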