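import Pool.Agent.Strip051.LC.E1.Ch.Te

/-! # Rests near the full period: certificate P_x1_t1b_c1_d_n_1 -/

set_option maxRecDepth 100000

namespace Pool.Agent.Strip051.LC.E1.Ch

open Pool.Agent.Strip051.PB
open Pool.Agent.Strip051.LC.E0.Ch (onCell Tree)

def x1_t1b_c1_d_n_t0 : T :=
  (.c (.c (.l 20423) (.l 10183)) (.c (.l 6855) (.l 5063)))

theorem x1_t1b_c1_d_n_h0 : chk3 (onCell 0 2684354560 0 1073741824 0 26843546 T1_t1b_c1_d_n) x1_t1b_c1_d_n_t0 4 1 1 = true := by decide +kernel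

def x1_t1b_c1_d_n_t1 : T :=
  (.b (.a (.b (.c (.c (.a (.l 20355) (.l 20355)) (.a (.l 10115) (.l 10115))) (.a (.l 4995) (.l
      4995))) (.c (.a (.c (.b (.l 20355) (.l 20355)) (.b (.l 10115) (.l 10115))) (.c (.b (.l
      20355) (.l 20355)) (.l 10115))) (.a (.c (.l 6787) (.l 4995)) (.c (.l 6787) (.l 4995)))))
      (.b (.c (.c (.a (.l 20355) (.l 20355)) (.a (.l 10115) (.l 10115))) (.c (.c (.a (.l 8067)
      (.l 8067)) (.a (.l 6787) (.l 6787))) (.c (.a (.l 5763) (.l 5763)) (.a (.l 4995) (.l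
      4995))))) (.c (.c (.a (.c (.l 40835) (.l 20355)) (.l 20355)) (.a (.l 10115) (.l 10115)))
      (.a (.c (.l 6787) (.l 4995)) (.c (.l 6787) (.l 4995)))))) (.b (.a (.c (.l 10119) (.l 4999))
      (.b (.c (.a (.c (.l 20355) (.l 10115)) (.c (.l 20355) (.l 10115))) (.c (.l 6851) (.l
      5059))) (.b (.c (.l 10183) (.l 5059)) (.c (.l 10183) (.l 5063))))) (.b (.a (.c (.l 10119)
      (.l 4999)) (.c (.l 10183) (.l 5063))) (.c (.l 10183) (.l 5063)))))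

theorem x1_t1b_c1_d_n_h1 : chk3 (onCell 0 2684354560 0 1073741824 0 26843546 T1_t1b_c1_d_n) x1_t1b_c1_d_n_t1 5 2 1 = true := by decide +kernel

def x1_t1b_c1_d_n_t2 : T :=
  (.a (.c (.c (.l 20423) (.l 10183)) (.c (.l 6855) (.l 5063))) (.c (.c (.c (.l 40903) (.l 20423))
      (.c (.c (.l 16327) (.l 13639)) (.b (.l 10183) (.l 15)))) (.c (.b (.l 6855) (.l 15)) (.c (.b
      (.l 5831) (.l 15)) (.b (.l 5063) (.l 15))))))

theorem x1_t1b_c1_d_n_h2 : chk3 (onCell 0 2684354560 0 1073741824 0 26843546 T1_t1b_c1_d_n) x1_t1b_c1_d_n_t2 5 3 1 = true := by decide +kernel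

def x1_t1b_c1_d_n_t3 : T :=
  (.b (.a (.c (.c (.c (.l 40899) (.l 20419)) (.b (.l 10179) (.l 10179))) (.a (.b (.l 5059) (.l
      5059)) (.b (.l 5059) (.l 5059)))) (.c (.c (.l 20419) (.l 10179)) (.c (.l 6851) (.b (.l
      5059) (.l 5059))))) (.a (.b (.c (.c (.l 20419) (.l 10179)) (.a (.l 5059) (.l 5059))) (.c
      (.c (.c (.l 40899) (.l 20419)) (.a (.l 10115) (.l 10179))) (.a (.c (.l 6787) (.l 4995)) (.c
      (.l 6851) (.l 5059))))) (.b (.c (.c (.l 20419) (.l 10179)) (.a (.l 5059) (.c (.l 6851) (.l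
      5059)))) (.c (.c (.l 20419) (.l 10179)) (.a (.l 5059) (.c (.l 6851) (.l 5059)))))))

theorem x1_t1b_c1_d_n_h3 : chk3 (onCell 0 2684354560 0 1073741824 0 26843546 T1_t1b_c1_d_n) x1_t1b_c1_d_n_t3 6 4 1 = true := by decide +kernel

def x1_t1b_c1_d_n_t4 : T :=
  (.b (.b (.a (.a (.c (.c (.l 20355) (.l 10115)) (.l 4995)) (.c (.c (.l 20355) (.l 10115)) (.b
      (.l 4995) (.l 4995)))) (.a (.c (.c (.l 20419) (.l 10179)) (.b (.l 5059) (.l 5059))) (.c (.l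
      10179) (.l 5059)))) (.a (.b (.c (.c (.l 20355) (.l 10115)) (.l 4995)) (.c (.a (.l 10115)
      (.l 10115)) (.l 5059))) (.a (.b (.c (.c (.l 20419) (.l 10179)) (.l 5059)) (.c (.c (.l
      20355) (.l 10115)) (.c (.l 6787) (.l 4995)))) (.c (.c (.l 20419) (.l 10179)) (.b (.l 5059)
      (.l 5059)))))) (.b (.a (.c (.l 10183) (.l 5063)) (.b (.a (.c (.l 10183) (.a (.l 4995) (.l
      4995))) (.c (.c (.l 20419) (.l 10179)) (.a (.l 5059) (.l 5059)))) (.a (.c (.l 10183) (.l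
      4995)) (.c (.c (.l 20419) (.l 10179)) (.a (.l 4995) (.l 5059)))))) (.b (.a (.c (.l 10119)
      (.l 4999)) (.c (.l 10183) (.a (.l 5063) (.c (.l 6851) (.l 5059))))) (.c (.l 10183) (.l
      5063)))))

theorem x1_t1b_c1_d_n_h4 : chk3 (onCell 0 2684354560 0 1073741824 0 26843546 T1_t1b_c1_d_n) x1_t1b_c1_d_n_t4 6 5 1 = true := by decide +kernel

def x1_t1b_c1_d_n_t5 : T :=
  (.a (.c (.c (.c (.l 40903) (.l 20423)) (.c (.b (.l 13639) (.l 15)) (.b (.c (.l 11719) (.l 71))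
      (.l 15)))) (.b (.c (.c (.c (.b (.l 9159) (.l 15)) (.b (.l 8135) (.l 15))) (.c (.b (.l 7495)
      (.l 15)) (.b (.l 6855) (.l 15)))) (.b (.l 5063) (.l 15))) (.l 15))) (.c (.c (.c (.l 40903)
      (.c (.l 27335) (.b (.l 20423) (.l 15)))) (.b (.c (.c (.c (.l 18247) (.l 16327)) (.c (.c (.l
      71) (.b (.l 14919) (.l 15))) (.b (.l 13639) (.l 15)))) (.b (.c (.l 71) (.c (.c (.l 11335)
      (.b (.l 10951) (.l 15))) (.c (.b (.l 10567) (.l 15)) (.b (.l 10183) (.l 15))))) (.l 15)))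
      (.l 15))) (.b (.c (.b (.c (.c (.c (.b (.l 9671) (.l 15)) (.b (.l 9159) (.l 15))) (.c (.b
      (.l 8647) (.l 15)) (.b (.l 8135) (.l 15)))) (.c (.c (.b (.l 7751) (.l 15)) (.b (.l 7495)
      (.l 15))) (.b (.l 6855) (.l 15)))) (.l 15)) (.b (.b (.l 5063) (.l 15)) (.l 15))) (.l 15))))

theorem x1_t1b_c1_d_n_h5 : chk3 (onCell 0 2684354560 0 1073741824 0 26843546 T1_t1b_c1_d_n) x1_t1b_c1_d_n_t5 6 3 1 = true := by decide +kernel

def x1_t1b_c1_d_n_t6 : T :=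
  (.b (.a (.b (.c (.l 10179) (.c (.l 6851) (.l 5059))) (.c (.l 10179) (.c (.l 6851) (.l 5059))))
      (.b (.c (.l 10179) (.c (.l 6851) (.c (.l 5827) (.l 4995)))) (.a (.c (.l 10179) (.c (.l
      6851) (.l 5059))) (.b (.c (.l 10179) (.c (.l 6851) (.l 4995))) (.c (.l 10179) (.c (.l 6851)
      (.l 4995))))))) (.a (.b (.a (.c (.l 10179) (.b (.c (.l 6851) (.l 5059)) (.c (.l 6819) (.l
      5059)))) (.c (.l 10179) (.b (.c (.l 6851) (.l 5059)) (.c (.l 6819) (.l 5059))))) (.a (.c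
      (.l 10179) (.c (.l 6851) (.l 5059))) (.b (.c (.l 10147) (.a (.c (.l 6819) (.l 5059)) (.c
      (.l 6819) (.l 5059)))) (.c (.l 10147) (.c (.l 6819) (.l 5059)))))) (.b (.c (.c (.l 20419)
      (.l 10179)) (.c (.l 6851) (.b (.a (.l 5059) (.l 5059)) (.l 5059)))) (.c (.c (.l 20419) (.l
      10179)) (.c (.l 6851) (.a (.l 5059) (.c (.l 5827) (.l 4995))))))))

theorem x1_t1b_c1_d_n_h6 : chk3 (onCell 0 2684354560 0 1073741824 0 26843546 T1_t1b_c1_d_n) x1_t1b_c1_d_n_t6 7 4 1 = true := by decide +kernel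

def x1_t1b_c1_d_n_t7 : T :=
  (.b (.a (.b (.a (.c (.l 10147) (.c (.l 6819) (.l 5059))) (.c (.l 10147) (.c (.l 6819) (.l
      5059)))) (.c (.l 10179) (.c (.l 6819) (.l 5059)))) (.c (.c (.l 20419) (.l 10179)) (.c (.l
      6851) (.a (.l 67) (.b (.l 5059) (.l 5059)))))) (.a (.b (.c (.c (.l 20387) (.l 10147)) (.c
      (.l 6819) (.l 5059))) (.a (.c (.l 10179) (.l 5059)) (.c (.c (.l 20387) (.l 10147)) (.c (.l
      6819) (.l 5027))))) (.b (.c (.a (.l 10147) (.l 10179)) (.c (.l 6851) (.c (.l 5827) (.l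
      5059)))) (.c (.a (.c (.l 20387) (.l 10147)) (.l 10179)) (.c (.l 6851) (.a (.l 67) (.l
      5059)))))))

theorem x1_t1b_c1_d_n_h7 : chk3 (onCell 0 2684354560 0 1073741824 0 26843546 T1_t1b_c1_d_n) x1_t1b_c1_d_n_t7 7 10 1 = true := by decide +kernel

def x1_t1b_c1_d_n_t8 : T :=
  (.b (.a (.a (.c (.c (.l 20419) (.l 10179)) (.a (.l 5059) (.l 5027))) (.c (.c (.l 20387) (.l
      10147)) (.b (.l 5027) (.l 5027)))) (.c (.a (.a (.c (.l 20387) (.l 10147)) (.l 10179)) (.l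
      10179)) (.c (.l 6851) (.a (.a (.l 5027) (.l 5059)) (.l 5059))))) (.a (.a (.c (.c (.l 20419)
      (.l 10179)) (.a (.l 5059) (.l 5059))) (.c (.c (.l 20387) (.l 10147)) (.b (.c (.l 6819) (.l
      5027)) (.a (.l 5027) (.c (.l 6819) (.l 5027)))))) (.c (.a (.c (.l 20419) (.l 10179)) (.c
      (.l 20419) (.l 10179))) (.a (.c (.a (.l 6819) (.l 6819)) (.a (.l 5027) (.l 5059))) (.c (.l
      6851) (.a (.l 5059) (.b (.l 5059) (.l 5059))))))))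

theorem x1_t1b_c1_d_n_h8 : chk3 (onCell 0 2684354560 0 1073741824 0 26843546 T1_t1b_c1_d_n) x1_t1b_c1_d_n_t8 7 22 1 = true := by decide +kernel

def x1_t1b_c1_d_n_t9 : T :=
  (.a (.c (.a (.c (.l 20423) (.l 10183)) (.c (.l 20423) (.a (.l 10179) (.l 10147)))) (.a (.c (.b
      (.l 6851) (.l 6851)) (.b (.l 5059) (.l 5059))) (.c (.a (.l 6851) (.l 6819)) (.a (.l 5059)
      (.a (.l 5027) (.b (.l 5027) (.l 5027))))))) (.c (.a (.c (.a (.l 20387) (.l 20419)) (.a (.b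
      (.l 10147) (.l 10147)) (.l 10179))) (.c (.a (.l 20419) (.l 20419)) (.a (.l 10179) (.l
      10115)))) (.b (.c (.a (.a (.l 6819) (.l 6851)) (.l 6851)) (.a (.a (.l 5027) (.l 5059)) (.l
      5059))) (.a (.c (.a (.l 6819) (.l 6851)) (.a (.a (.a (.l 5027) (.l 5027)) (.l 5027)) (.l
      5059))) (.c (.l 6851) (.a (.l 5059) (.l 4995)))))))

theorem x1_t1b_c1_d_n_h9 : chk3 (onCell 0 2684354560 0 1073741824 0 26843546 T1_t1b_c1_d_n) x1_t1b_c1_d_n_t9 7 46 1 = true := by decide +kernel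

def x1_t1b_c1_d_n_t10 : T :=
  (.c (.c (.l 20423) (.l 10183)) (.b (.a (.c (.l 67) (.l 67)) (.c (.a (.l 67) (.l 67)) (.a (.l
      67) (.l 35)))) (.c (.c (.l 8135) (.l 71)) (.a (.l 67) (.a (.b (.l 67) (.l 67)) (.c (.l 67)
      (.l 67)))))))

theorem x1_t1b_c1_d_n_h10 : chk3 (onCell 0 2684354560 0 1073741824 0 26843546 T1_t1b_c1_d_n) x1_t1b_c1_d_n_t10 14 47 1 = true := by decide +kernel

def x1_t1b_c1_d_n_t11 : T :=
  (.c (.l 40903) (.c (.l 27335) (.c (.l 23367) (.c (.l 71) (.c (.c (.l 71) (.a (.l 21191) (.l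
      21191))) (.c (.a (.l 20807) (.l 20807)) (.a (.l 20423) (.l 20423))))))))

theorem x1_t1b_c1_d_n_h11 : chk3 (onCell 0 2684354560 0 1073741824 0 26843546 T1_t1b_c1_d_n) x1_t1b_c1_d_n_t11 15 47 4 = true := by decide +kernel

def x1_t1b_c1_d_n_t12 : T :=
  (.a (.a (.c (.l 13603) (.l 35)) (.c (.l 13635) (.l 67))) (.a (.c (.l 13635) (.l 67)) (.c (.l 3)
      (.l 3))))

theorem x1_t1b_c1_d_n_h12 : chk3 (onCell 0 2684354560 0 1073741824 0 26843546 T1_t1b_c1_d_n) x1_t1b_c1_d_n_t12 15 94 5 = true := by decide +kernel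

def x1_t1b_c1_d_n_t13 : T :=
  (.c (.c (.c (.c (.c (.a (.l 20167) (.l 20167)) (.a (.l 19911) (.l 19911))) (.c (.a (.l 19527)
      (.l 19527)) (.a (.l 19271) (.l 19271)))) (.c (.c (.a (.l 19015) (.l 19015)) (.a (.l 18759)
      (.l 18759))) (.c (.a (.l 18503) (.l 18503)) (.a (.l 18247) (.l 18247))))) (.c (.c (.c (.a
      (.l 17991) (.l 17991)) (.a (.l 17735) (.l 17735))) (.c (.a (.l 17479) (.l 17479)) (.a (.l
      17223) (.l 17223)))) (.c (.c (.a (.l 16967) (.l 16967)) (.a (.l 16839) (.l 16839))) (.a (.l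
      16327) (.l 16327))))) (.c (.c (.c (.a (.l 15943) (.l 15943)) (.a (.l 15559) (.l 15559)))
      (.c (.a (.l 15303) (.l 15303)) (.a (.l 14919) (.l 14919)))) (.c (.c (.a (.l 14535) (.l
      14535)) (.a (.l 14279) (.l 14279))) (.c (.a (.l 13895) (.l 13895)) (.a (.l 13639) (.l
      13639))))))

theorem x1_t1b_c1_d_n_h13 : chk3 (onCell 0 2684354560 0 1073741824 0 26843546 T1_t1b_c1_d_n) x1_t1b_c1_d_n_t13 15 95 10 = true := by decide +kernel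

def x1_t1b_c1_d_n_t14 : T :=
  (.c (.c (.c (.c (.a (.l 13383) (.l 13383)) (.a (.l 13127) (.l 13127))) (.c (.a (.l 12871) (.l
      12871)) (.a (.l 12615) (.l 67)))) (.c (.a (.l 12103) (.l 12103)) (.a (.l 11719) (.l
      11719)))) (.c (.c (.a (.l 11335) (.l 67)) (.a (.l 10951) (.l 67))) (.c (.a (.l 10567) (.l
      67)) (.a (.l 10183) (.l 67)))))

theorem x1_t1b_c1_d_n_h14 : chk3 (onCell 0 2684354560 0 1073741824 0 26843546 T1_t1b_c1_d_n) x1_t1b_c1_d_n_t14 15 95 11 = true := by decide +kernel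

def x1_t1b_c1_d_n_t15 : T :=
  (.b (.a (.c (.a (.c (.l 35) (.l 35)) (.l 67)) (.a (.c (.l 35) (.a (.l 35) (.l 35))) (.l 67)))
      (.c (.a (.l 67) (.l 3)) (.a (.l 67) (.c (.l 3) (.l 3))))) (.a (.c (.c (.c (.c (.l 9671) (.c
      (.l 9415) (.l 71))) (.c (.c (.c (.a (.l 67) (.l 67)) (.a (.l 67) (.l 67))) (.c (.a (.l 67)
      (.l 67)) (.a (.l 67) (.l 67)))) (.c (.a (.l 67) (.l 67)) (.a (.l 67) (.l 67))))) (.a (.c
      (.l 67) (.l 67)) (.l 67))) (.a (.c (.l 67) (.l 67)) (.c (.l 67) (.l 67)))) (.c (.a (.c (.l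
      67) (.l 67)) (.c (.l 67) (.l 67))) (.a (.c (.l 67) (.l 67)) (.c (.l 67) (.l 3))))))

theorem x1_t1b_c1_d_n_h15 : chk3 (onCell 0 2684354560 0 1073741824 0 26843546 T1_t1b_c1_d_n) x1_t1b_c1_d_n_t15 15 47 3 = true := by decide +kernel

def x1_t1b_c1_d_n_t16 : T :=
  (.c (.c (.l 40903) (.c (.l 27335) (.c (.l 23367) (.c (.l 21831) (.l 71))))) (.c (.c (.c (.c (.c
      (.b (.l 19911) (.l 15)) (.b (.l 19271) (.l 15))) (.c (.b (.l 18759) (.l 15)) (.b (.l 18247)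
      (.l 15)))) (.c (.c (.b (.l 17735) (.l 15)) (.b (.l 17223) (.l 15))) (.c (.b (.l 16839) (.l
      15)) (.b (.l 16327) (.l 15))))) (.c (.c (.c (.b (.l 15943) (.l 15)) (.b (.l 15559) (.l
      15))) (.c (.b (.l 15303) (.l 15)) (.b (.l 14919) (.l 15)))) (.c (.b (.l 14279) (.l 15)) (.b
      (.l 13639) (.l 15))))) (.c (.c (.c (.b (.l 13127) (.l 15)) (.b (.l 12615) (.l 15))) (.c (.b
      (.l 12103) (.l 15)) (.b (.l 11719) (.l 15)))) (.c (.b (.l 10951) (.l 15)) (.b (.l 10183)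
      (.l 15))))))

theorem x1_t1b_c1_d_n_h16 : chk3 (onCell 0 2684354560 0 1073741824 0 26843546 T1_t1b_c1_d_n) x1_t1b_c1_d_n_t16 14 12 2 = true := by decide +kernel

def x1_t1b_c1_d_n_t17 : T :=
  (.c (.c (.l 9927) (.b (.l 9671) (.l 15))) (.c (.b (.l 9415) (.l 15)) (.b (.a (.l 9095) (.c (.l
      9287) (.l 71))) (.l 15))))

theorem x1_t1b_c1_d_n_h17 : chk3 (onCell 0 2684354560 0 1073741824 0 26843546 T1_t1b_c1_d_n) x1_t1b_c1_d_n_t17 14 24 24 = true := by decide +kernel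

def x1_t1b_c1_d_n_t18 : T :=
  (.c (.b (.a (.l 8839) (.c (.b (.l 9031) (.l 15)) (.b (.a (.l 8839) (.l 71)) (.l 15)))) (.l 15))
      (.b (.a (.l 8583) (.c (.b (.a (.l 8711) (.c (.b (.l 67) (.l 71)) (.b (.l 67) (.a (.l 8711)
      (.c (.l 71) (.b (.l 99) (.l 8711))))))) (.l 15)) (.b (.a (.l 8583) (.c (.b (.l 67) (.a (.l
      8583) (.c (.b (.l 99) (.l 8711)) (.b (.l 67) (.l 8583))))) (.b (.l 67) (.a (.l 8583) (.c
      (.b (.l 67) (.l 8583)) (.b (.l 67) (.l 8583))))))) (.l 15)))) (.l 15)))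

theorem x1_t1b_c1_d_n_h18 : chk3 (onCell 0 2684354560 0 1073741824 0 26843546 T1_t1b_c1_d_n) x1_t1b_c1_d_n_t18 14 24 50 = true := by decide +kernel

def x1_t1b_c1_d_n_t19 : T :=
  (.b (.c (.a (.l 8327) (.c (.b (.a (.l 8455) (.c (.b (.l 67) (.a (.l 8455) (.c (.b (.l 67) (.l
      8583)) (.b (.l 67) (.l 8455))))) (.b (.l 67) (.a (.l 8455) (.c (.b (.l 67) (.l 8455)) (.b
      (.l 67) (.l 8455))))))) (.l 15)) (.b (.a (.l 8327) (.c (.b (.l 67) (.a (.l 8455) (.c (.b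
      (.l 67) (.l 8455)) (.b (.l 67) (.l 8455))))) (.b (.l 67) (.a (.l 8327) (.c (.b (.l 67) (.l
      8327)) (.b (.l 67) (.l 8327))))))) (.l 15)))) (.a (.l 8071) (.b (.c (.a (.l 8199) (.c (.b
      (.l 67) (.a (.l 8327) (.c (.b (.l 67) (.l 8327)) (.b (.l 67) (.l 8327))))) (.b (.l 67) (.a
      (.l 8199) (.c (.b (.l 67) (.l 8327)) (.b (.l 67) (.l 8199))))))) (.a (.l 8071) (.l 8135)))
      (.l 15)))) (.l 15))

theorem x1_t1b_c1_d_n_h19 : chk3 (onCell 0 2684354560 0 1073741824 0 26843546 T1_t1b_c1_d_n) x1_t1b_c1_d_n_t19 14 24 51 = true := by decide +kernel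

def x1_t1b_c1_d_n_t20 : T :=
  (.c (.c (.b (.c (.a (.l 7943) (.b (.l 8007) (.l 15))) (.a (.l 7687) (.b (.l 7751) (.l 15))))
      (.l 15)) (.b (.c (.a (.l 7559) (.b (.l 7623) (.l 15))) (.a (.l 7431) (.b (.l 7495) (.l
      15)))) (.l 15))) (.c (.b (.c (.a (.l 7175) (.b (.l 7239) (.l 15))) (.a (.l 7047) (.b (.l
      7111) (.l 15)))) (.l 15)) (.b (.c (.a (.l 6919) (.b (.l 6983) (.l 15))) (.a (.l 6791) (.b
      (.l 6855) (.l 15)))) (.l 15))))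

theorem x1_t1b_c1_d_n_h20 : chk3 (onCell 0 2684354560 0 1073741824 0 26843546 T1_t1b_c1_d_n) x1_t1b_c1_d_n_t20 14 24 13 = true := by decide +kernel

def x1_t1b_c1_d_n_t21 : T :=
  (.l 15)

theorem x1_t1b_c1_d_n_h21 : chk3 (onCell 0 2684354560 0 1073741824 0 26843546 T1_t1b_c1_d_n) x1_t1b_c1_d_n_t21 14 25 6 = true := by decide +kernel

def x1_t1b_c1_d_n_t22 : T :=
  (.a (.l 6535) (.c (.b (.l 6727) (.a (.l 15) (.c (.l 15) (.b (.a (.l 15) (.c (.b (.a (.l 15) (.c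
      (.l 15) (.b (.l 6663) (.l 15)))) (.l 15)) (.b (.a (.l 15) (.c (.b (.l 6663) (.l 15)) (.b
      (.l 6663) (.l 15)))) (.l 15)))) (.l 15))))) (.b (.l 6599) (.a (.l 15) (.c (.b (.a (.l 15)
      (.c (.b (.a (.l 6535) (.c (.b (.l 6663) (.l 15)) (.b (.l 6535) (.l 15)))) (.l 15)) (.b (.a
      (.l 6535) (.c (.b (.l 6535) (.l 15)) (.b (.l 6535) (.l 15)))) (.l 15)))) (.l 15)) (.b (.a
      (.l 6535) (.c (.b (.a (.l 6535) (.c (.b (.l 6535) (.l 15)) (.b (.l 6535) (.l 15)))) (.l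
      15)) (.b (.a (.l 6535) (.c (.b (.l 6535) (.l 15)) (.b (.l 6535) (.l 15)))) (.l 15)))) (.l
      15)))))))

theorem x1_t1b_c1_d_n_h22 : chk3 (onCell 0 2684354560 0 1073741824 0 26843546 T1_t1b_c1_d_n) x1_t1b_c1_d_n_t22 14 48 56 = true := by decide +kernel

def x1_t1b_c1_d_n_t23 : T :=
  (.a (.l 6279) (.c (.b (.l 6471) (.a (.l 6407) (.c (.b (.a (.l 6407) (.c (.b (.a (.l 6407) (.c
      (.b (.l 6535) (.l 15)) (.b (.l 6407) (.l 15)))) (.l 15)) (.b (.a (.l 6407) (.c (.b (.l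
      6407) (.l 15)) (.b (.l 6407) (.l 15)))) (.l 15)))) (.l 15)) (.b (.a (.l 6407) (.c (.b (.a
      (.l 6407) (.c (.b (.l 6407) (.l 15)) (.b (.l 6407) (.l 15)))) (.l 15)) (.b (.a (.l 6407)
      (.c (.b (.l 6407) (.l 15)) (.b (.l 6407) (.l 15)))) (.l 15)))) (.l 15))))) (.b (.a (.l
      6279) (.l 71)) (.a (.l 6279) (.c (.b (.a (.l 6279) (.c (.b (.a (.l 6279) (.c (.b (.l 6407)
      (.l 15)) (.b (.l 6279) (.l 15)))) (.l 15)) (.b (.a (.l 6279) (.c (.b (.l 6279) (.l 15)) (.b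
      (.l 6279) (.l 15)))) (.l 15)))) (.l 15)) (.b (.a (.l 6279) (.c (.b (.l 6279) (.l 15)) (.b
      (.l 6279) (.l 15)))) (.l 15)))))))

theorem x1_t1b_c1_d_n_h23 : chk3 (onCell 0 2684354560 0 1073741824 0 26843546 T1_t1b_c1_d_n) x1_t1b_c1_d_n_t23 14 48 57 = true := by decide +kernel

def x1_t1b_c1_d_n_t24 : T :=
  (.c (.a (.l 6023) (.c (.b (.a (.l 6151) (.b (.l 67) (.l 99))) (.a (.l 6151) (.b (.c (.a (.l
      6151) (.c (.b (.l 6151) (.l 15)) (.b (.l 6151) (.l 15)))) (.a (.l 6151) (.c (.b (.l 6151)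
      (.l 15)) (.b (.l 6151) (.l 15))))) (.l 15)))) (.b (.a (.l 6023) (.b (.l 67) (.l 67))) (.a
      (.l 6023) (.b (.c (.a (.l 6023) (.c (.b (.l 6151) (.l 15)) (.b (.l 6023) (.l 15)))) (.a (.l
      6023) (.c (.b (.l 6023) (.l 15)) (.b (.l 6023) (.l 15))))) (.l 15)))))) (.a (.l 5767) (.c
      (.b (.a (.l 5895) (.b (.l 67) (.l 67))) (.a (.l 5895) (.b (.c (.a (.l 5895) (.c (.b (.l
      6023) (.l 15)) (.b (.l 5895) (.l 15)))) (.a (.l 5895) (.c (.b (.l 5895) (.l 15)) (.b (.l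
      5895) (.l 15))))) (.l 15)))) (.b (.a (.l 67) (.b (.l 67) (.l 67))) (.a (.l 5767) (.b (.c
      (.a (.l 5895) (.b (.l 5895) (.l 15))) (.a (.l 5767) (.b (.l 5767) (.l 15)))) (.l 15)))))))

theorem x1_t1b_c1_d_n_h24 : chk3 (onCell 0 2684354560 0 1073741824 0 26843546 T1_t1b_c1_d_n) x1_t1b_c1_d_n_t24 14 48 29 = true := by decide +kernel

def x1_t1b_c1_d_n_t25 : T :=
  (.a (.l 5639) (.c (.b (.a (.l 67) (.b (.l 67) (.l 67))) (.a (.l 5639) (.b (.c (.a (.l 5767) (.b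
      (.l 5767) (.l 15))) (.a (.l 5639) (.c (.b (.l 5767) (.l 15)) (.b (.a (.l 5639) (.b (.l 3)
      (.l 5639))) (.l 15))))) (.l 15)))) (.b (.a (.l 67) (.b (.l 67) (.l 67))) (.a (.l 5639) (.b
      (.c (.a (.l 5639) (.c (.b (.a (.l 5639) (.b (.l 3) (.l 5639))) (.l 15)) (.b (.a (.l 5639)
      (.b (.l 67) (.l 5639))) (.l 15)))) (.a (.l 5639) (.c (.b (.a (.l 5639) (.b (.l 67) (.l
      5639))) (.l 15)) (.b (.a (.l 5639) (.b (.l 67) (.l 5639))) (.l 15))))) (.l 15))))))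

theorem x1_t1b_c1_d_n_h25 : chk3 (onCell 0 2684354560 0 1073741824 0 26843546 T1_t1b_c1_d_n) x1_t1b_c1_d_n_t25 14 48 60 = true := by decide +kernel

def x1_t1b_c1_d_n_t26 : T :=
  (.a (.l 5383) (.b (.a (.l 67) (.c (.b (.l 67) (.l 67)) (.b (.l 67) (.l 67)))) (.c (.a (.l 5511)
      (.b (.c (.a (.l 5511) (.b (.a (.l 5511) (.c (.b (.l 67) (.l 5511)) (.b (.l 67) (.l 5511))))
      (.l 15))) (.a (.l 5511) (.b (.a (.l 5511) (.c (.b (.l 67) (.l 5511)) (.b (.l 67) (.l 99))))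
      (.l 15)))) (.l 15))) (.a (.l 5383) (.b (.c (.a (.l 5511) (.b (.a (.l 5511) (.l 99)) (.l
      15))) (.a (.l 5383) (.b (.a (.l 99) (.l 99)) (.l 15)))) (.l 15))))))

theorem x1_t1b_c1_d_n_h26 : chk3 (onCell 0 2684354560 0 1073741824 0 26843546 T1_t1b_c1_d_n) x1_t1b_c1_d_n_t26 14 48 61 = true := by decide +kernel

def x1_t1b_c1_d_n_t27 : T :=
  (.a (.l 5255) (.b (.a (.l 67) (.c (.b (.l 67) (.l 67)) (.b (.l 67) (.l 67)))) (.c (.a (.l 5255)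
      (.b (.c (.a (.l 5383) (.b (.l 99) (.l 15))) (.a (.l 5255) (.b (.l 99) (.c (.l 15) (.a (.l
      15) (.b (.l 5255) (.l 15))))))) (.l 15))) (.a (.l 5255) (.b (.c (.a (.l 5255) (.b (.l 99)
      (.c (.a (.l 15) (.b (.l 5255) (.l 15))) (.a (.l 5255) (.b (.l 5255) (.l 15)))))) (.a (.l
      5255) (.b (.l 99) (.c (.a (.l 5255) (.b (.l 5255) (.l 15))) (.a (.l 5255) (.b (.l 5255) (.l
      15))))))) (.l 15))))))

theorem x1_t1b_c1_d_n_h27 : chk3 (onCell 0 2684354560 0 1073741824 0 26843546 T1_t1b_c1_d_n) x1_t1b_c1_d_n_t27 14 48 62 = true := by decide +kernel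

def x1_t1b_c1_d_n_t28 : T :=
  (.a (.l 4999) (.b (.a (.l 67) (.c (.b (.l 67) (.l 67)) (.b (.l 67) (.l 67)))) (.c (.a (.l 5127)
      (.b (.c (.a (.l 5127) (.b (.l 99) (.c (.a (.l 5255) (.b (.l 5255) (.l 15))) (.a (.l 5127)
      (.b (.l 5127) (.l 15)))))) (.a (.l 5127) (.b (.l 99) (.c (.a (.l 5127) (.b (.l 5127) (.l
      15))) (.a (.l 5127) (.b (.l 5127) (.l 15))))))) (.l 15))) (.a (.l 4999) (.b (.c (.a (.l
      5127) (.b (.l 67) (.c (.a (.l 5127) (.b (.l 5127) (.l 15))) (.a (.l 5127) (.b (.l 5127) (.l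
      15)))))) (.a (.l 4999) (.b (.l 67) (.l 4999)))) (.l 15))))))

theorem x1_t1b_c1_d_n_h28 : chk3 (onCell 0 2684354560 0 1073741824 0 26843546 T1_t1b_c1_d_n) x1_t1b_c1_d_n_t28 14 48 63 = true := by decide +kernel

def x1_t1b_c1_d_n_t29 : T :=
  (.l 15)

theorem x1_t1b_c1_d_n_h29 : chk3 (onCell 0 2684354560 0 1073741824 0 26843546 T1_t1b_c1_d_n) x1_t1b_c1_d_n_t29 14 49 7 = true := by decide +kernel

def x1_t1b_c1_d_n_t30 : T :=
  (.l 15)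

theorem x1_t1b_c1_d_n_h30 : chk3 (onCell 0 2684354560 0 1073741824 0 26843546 T1_t1b_c1_d_n) x1_t1b_c1_d_n_t30 14 25 7 = true := by decide +kernel

def x1_t1b_c1_d_n_t31 : T :=
  (.l 15)

theorem x1_t1b_c1_d_n_h31 : chk3 (onCell 0 2684354560 0 1073741824 0 26843546 T1_t1b_c1_d_n) x1_t1b_c1_d_n_t31 14 13 1 = true := by decide +kernel

def x1_t1b_c1_d_n_t32 : T :=
  (.l 15)

theorem x1_t1b_c1_d_n_h32 : chk3 (onCell 0 2684354560 0 1073741824 0 26843546 T1_t1b_c1_d_n) x1_t1b_c1_d_n_t32 14 7 1 = true := by decide +kernel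

def x1_t1b_c1_d_n_t33 : T :=
  (.c (.l 40903) (.c (.l 27335) (.c (.l 23367) (.c (.l 21831) (.b (.l 20423) (.l 15))))))

theorem x1_t1b_c1_d_n_h33 : chk3 (onCell 0 2684354560 0 1073741824 0 26843546 T1_t1b_c1_d_n) x1_t1b_c1_d_n_t33 30 6 4 = true := by decide +kernel

def x1_t1b_c1_d_n_t34 : T :=
  (.c (.c (.l 18247) (.c (.l 71) (.c (.b (.l 16839) (.l 15)) (.b (.c (.l 16583) (.l 71)) (.l
      15))))) (.c (.c (.c (.b (.c (.b (.l 16199) (.l 15)) (.b (.l 15943) (.l 15))) (.l 15)) (.b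
      (.c (.b (.l 15815) (.l 15)) (.b (.l 15559) (.l 15))) (.l 15))) (.c (.b (.c (.b (.l 15431)
      (.l 15)) (.b (.l 15303) (.l 15))) (.l 15)) (.b (.c (.b (.l 15047) (.l 15)) (.b (.l 14919)
      (.l 15))) (.l 15)))) (.c (.b (.c (.c (.b (.l 14791) (.l 15)) (.b (.l 14535) (.l 15))) (.b
      (.l 14279) (.l 15))) (.l 15)) (.b (.c (.b (.l 13895) (.l 15)) (.b (.l 13639) (.l 15))) (.l
      15)))))

theorem x1_t1b_c1_d_n_h34 : chk3 (onCell 0 2684354560 0 1073741824 0 26843546 T1_t1b_c1_d_n) x1_t1b_c1_d_n_t34 30 12 10 = true := by decide +kernel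

def x1_t1b_c1_d_n_t35 : T :=
  (.c (.c (.c (.b (.c (.b (.l 13383) (.l 15)) (.b (.l 13127) (.l 15))) (.l 15)) (.b (.c (.b (.l
      12871) (.l 15)) (.b (.l 12615) (.l 15))) (.l 15))) (.b (.c (.b (.l 12103) (.l 15)) (.b (.l
      11719) (.l 15))) (.l 15))) (.c (.b (.c (.b (.l 11335) (.l 15)) (.b (.l 10951) (.l 15))) (.l
      15)) (.b (.c (.b (.l 10567) (.l 15)) (.b (.l 10183) (.l 15))) (.l 15))))

theorem x1_t1b_c1_d_n_h35 : chk3 (onCell 0 2684354560 0 1073741824 0 26843546 T1_t1b_c1_d_n) x1_t1b_c1_d_n_t35 30 12 11 = true := by decide +kernel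

def x1_t1b_c1_d_n_t36 : T :=
  (.l 15)

theorem x1_t1b_c1_d_n_h36 : chk3 (onCell 0 2684354560 0 1073741824 0 26843546 T1_t1b_c1_d_n) x1_t1b_c1_d_n_t36 30 13 5 = true := by decide +kernel

def x1_t1b_c1_d_n_t37 : T :=
  (.c (.l 40903) (.c (.l 27335) (.b (.c (.l 23367) (.c (.l 21831) (.c (.b (.l 21191) (.l 15)) (.b
      (.c (.l 20807) (.b (.l 20423) (.l 15))) (.l 15))))) (.l 15))))

theorem x1_t1b_c1_d_n_h37 : chk3 (onCell 0 2684354560 0 1073741824 0 26843546 T1_t1b_c1_d_n) x1_t1b_c1_d_n_t37 31 6 4 = true := by decide +kernel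

end Pool.Agent.Strip051.LC.E1.Ch
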