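import Pool.Agent.Strip051.LC.E1.Ch.Te

/-! # Rests near the full period: certificate P_x2_t2b_c1_dd_n_2 -/

set_option maxRecDepth 100000

namespace Pool.Agent.Strip051.LC.E1.Ch

open Pool.Agent.Strip051.PB
open Pool.Agent.Strip051.LC.E0.Ch (onCell Tree)

def x2_t2b_c1_dd_n_t49 : T :=
  (.b (.a (.l 15) (.c (.a (.l 15) (.b (.l 2055) (.c (.a (.l 15) (.l 99)) (.a (.l 15) (.l 99)))))
      (.a (.l 15) (.b (.l 2055) (.c (.a (.l 15) (.l 99)) (.a (.l 15) (.l 99))))))) (.a (.l 15)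
      (.c (.b (.a (.l 15) (.c (.b (.a (.l 15) (.l 99)) (.l 2055)) (.b (.a (.l 15) (.l 99)) (.l
      2055)))) (.l 2055)) (.b (.a (.l 15) (.c (.b (.a (.l 15) (.l 99)) (.l 2055)) (.b (.a (.l 15)
      (.l 99)) (.l 2055)))) (.l 2055)))))

theorem x2_t2b_c1_dd_n_h49 : chk3 (onCell 0 1073741824 0 429496730 0 67108864 T2_t2b_c1_dd_n) x2_t2b_c1_dd_n_t49 424 212 509 = true := by decide +kernel

def x2_t2b_c1_dd_n_t50 : T :=
  (.c (.b (.l 99) (.l 99)) (.b (.l 99) (.l 99)))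

theorem x2_t2b_c1_dd_n_h50 : chk3 (onCell 0 1073741824 0 429496730 0 67108864 T2_t2b_c1_dd_n) x2_t2b_c1_dd_n_t50 425 212 254 = true := by decide +kernel

def x2_t2b_c1_dd_n_t51 : T :=
  (.a (.l 2055) (.l 3))

theorem x2_t2b_c1_dd_n_h51 : chk3 (onCell 0 1073741824 0 429496730 0 67108864 T2_t2b_c1_dd_n) x2_t2b_c1_dd_n_t51 212 213 254 = true := by decide +kernel

def x2_t2b_c1_dd_n_t52 : T :=
  (.c (.b (.a (.l 15) (.c (.a (.l 15) (.b (.l 2055) (.c (.a (.l 15) (.l 99)) (.a (.l 15) (.l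
      99))))) (.a (.l 15) (.b (.l 2055) (.c (.a (.l 15) (.l 99)) (.a (.l 15) (.l 99))))))) (.a
      (.l 15) (.c (.b (.a (.l 15) (.c (.b (.a (.l 15) (.l 99)) (.l 2055)) (.b (.a (.l 15) (.l
      99)) (.l 2055)))) (.l 2055)) (.b (.a (.l 15) (.c (.b (.a (.l 15) (.l 99)) (.l 2055)) (.b
      (.a (.l 15) (.l 99)) (.l 2055)))) (.l 2055))))) (.b (.a (.l 15) (.c (.a (.l 15) (.b (.l
      2055) (.c (.a (.l 15) (.l 99)) (.a (.l 15) (.l 99))))) (.a (.l 15) (.b (.l 1927) (.c (.a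
      (.l 15) (.l 99)) (.a (.l 15) (.l 99))))))) (.a (.l 15) (.c (.b (.a (.l 15) (.c (.b (.a (.l
      15) (.l 99)) (.l 2055)) (.b (.a (.l 15) (.l 99)) (.l 2055)))) (.l 2055)) (.b (.a (.l 15)
      (.c (.b (.a (.l 15) (.l 99)) (.l 2055)) (.b (.a (.l 15) (.l 99)) (.l 7)))) (.l 7))))))

theorem x2_t2b_c1_dd_n_h52 : chk3 (onCell 0 1073741824 0 429496730 0 67108864 T2_t2b_c1_dd_n) x2_t2b_c1_dd_n_t52 424 212 255 = true := by decide +kernel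

def x2_t2b_c1_dd_n_t53 : T :=
  (.c (.b (.l 99) (.l 99)) (.b (.l 99) (.l 99)))

theorem x2_t2b_c1_dd_n_h53 : chk3 (onCell 0 1073741824 0 429496730 0 67108864 T2_t2b_c1_dd_n) x2_t2b_c1_dd_n_t53 425 212 255 = true := by decide +kernel

def x2_t2b_c1_dd_n_t54 : T :=
  (.a (.l 7) (.l 3))

theorem x2_t2b_c1_dd_n_h54 : chk3 (onCell 0 1073741824 0 429496730 0 67108864 T2_t2b_c1_dd_n) x2_t2b_c1_dd_n_t54 212 213 255 = true := by decide +kernel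

def x2_t2b_c1_dd_n_t55 : T :=
  (.l 67)

theorem x2_t2b_c1_dd_n_h55 : chk3 (onCell 0 1073741824 0 429496730 0 67108864 T2_t2b_c1_dd_n) x2_t2b_c1_dd_n_t55 213 106 127 = true := by decide +kernel

def x2_t2b_c1_dd_n_t56 : T :=
  (.a (.l 1927) (.l 3))

theorem x2_t2b_c1_dd_n_h56 : chk3 (onCell 0 1073741824 0 429496730 0 67108864 T2_t2b_c1_dd_n) x2_t2b_c1_dd_n_t56 106 107 127 = true := by decide +kernel

def x2_t2b_c1_dd_n_t57 : T :=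
  (.c (.b (.l 2051) (.l 2115)) (.b (.l 1923) (.l 1987)))

theorem x2_t2b_c1_dd_n_h57 : chk3 (onCell 0 1073741824 0 429496730 0 67108864 T2_t2b_c1_dd_n) x2_t2b_c1_dd_n_t57 107 26 63 = true := by decide +kernel

def x2_t2b_c1_dd_n_t58 : T :=
  (.l 15)

theorem x2_t2b_c1_dd_n_h58 : chk3 (onCell 0 1073741824 0 429496730 0 67108864 T2_t2b_c1_dd_n) x2_t2b_c1_dd_n_t58 52 27 62 = true := by decide +kernel

def x2_t2b_c1_dd_n_t59 : T :=
  (.a (.b (.l 2055) (.b (.c (.a (.l 2055) (.l 3)) (.a (.l 2055) (.l 3))) (.c (.b (.a (.c (.a (.l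
      15) (.l 99)) (.a (.l 15) (.l 99))) (.l 3)) (.a (.c (.b (.a (.l 15) (.c (.l 7) (.a (.l 99)
      (.l 3)))) (.a (.l 15) (.c (.l 7) (.a (.l 99) (.l 3))))) (.b (.a (.l 15) (.c (.a (.l 99) (.l
      3)) (.a (.l 99) (.l 3)))) (.a (.l 15) (.c (.a (.l 99) (.l 3)) (.a (.l 99) (.l 3)))))) (.l
      3))) (.b (.a (.c (.a (.l 15) (.l 99)) (.a (.l 15) (.l 99))) (.l 3)) (.a (.c (.b (.a (.l 15)
      (.c (.a (.l 99) (.l 3)) (.l 99))) (.a (.l 15) (.c (.a (.l 99) (.l 3)) (.a (.l 99) (.l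
      3))))) (.b (.a (.l 15) (.l 99)) (.a (.l 15) (.l 99)))) (.l 3)))))) (.l 2051))

theorem x2_t2b_c1_dd_n_h59 : chk3 (onCell 0 1073741824 0 429496730 0 67108864 T2_t2b_c1_dd_n) x2_t2b_c1_dd_n_t59 53 27 124 = true := by decide +kernel

def x2_t2b_c1_dd_n_t60 : T :=
  (.l 2055)

theorem x2_t2b_c1_dd_n_h60 : chk3 (onCell 0 1073741824 0 429496730 0 67108864 T2_t2b_c1_dd_n) x2_t2b_c1_dd_n_t60 106 54 125 = true := by decide +kernel

def x2_t2b_c1_dd_n_t61 : T :=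
  (.c (.a (.l 2055) (.l 3)) (.a (.l 2055) (.l 3)))

theorem x2_t2b_c1_dd_n_h61 : chk3 (onCell 0 1073741824 0 429496730 0 67108864 T2_t2b_c1_dd_n) x2_t2b_c1_dd_n_t61 106 110 125 = true := by decide +kernel

def x2_t2b_c1_dd_n_t62 : T :=
  (.c (.a (.c (.a (.l 2055) (.l 99)) (.a (.l 2055) (.l 99))) (.l 3)) (.a (.c (.a (.l 2055) (.l
      99)) (.a (.l 2055) (.l 99))) (.l 3)))

theorem x2_t2b_c1_dd_n_h62 : chk3 (onCell 0 1073741824 0 429496730 0 67108864 T2_t2b_c1_dd_n) x2_t2b_c1_dd_n_t62 106 222 125 = true := by decide +kernel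

def x2_t2b_c1_dd_n_t63 : T :=
  (.c (.a (.b (.l 2055) (.c (.l 15) (.a (.l 15) (.l 2055)))) (.l 99)) (.a (.b (.l 2055) (.c (.a
      (.l 15) (.l 2055)) (.a (.l 15) (.l 2055)))) (.l 99)))

theorem x2_t2b_c1_dd_n_h63 : chk3 (onCell 0 1073741824 0 429496730 0 67108864 T2_t2b_c1_dd_n) x2_t2b_c1_dd_n_t63 212 446 250 = true := by decide +kernel

def x2_t2b_c1_dd_n_t64 : T :=
  (.a (.b (.c (.l 15) (.a (.l 15) (.b (.l 2055) (.c (.a (.l 15) (.l 2055)) (.a (.l 15) (.l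
      2055)))))) (.c (.l 15) (.a (.l 15) (.b (.c (.a (.l 15) (.l 2055)) (.a (.l 15) (.l 2055)))
      (.c (.a (.l 15) (.b (.c (.l 15) (.a (.l 15) (.l 2055))) (.c (.l 15) (.a (.l 15) (.b (.a (.l
      15) (.l 99)) (.a (.l 15) (.l 99))))))) (.a (.l 15) (.b (.c (.a (.l 15) (.l 2055)) (.a (.l
      15) (.l 2055))) (.c (.a (.l 15) (.b (.a (.l 15) (.l 99)) (.a (.l 15) (.l 99)))) (.a (.l 15)
      (.b (.a (.l 15) (.l 99)) (.a (.l 15) (.l 99)))))))))))) (.l 99))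

theorem x2_t2b_c1_dd_n_h64 : chk3 (onCell 0 1073741824 0 429496730 0 67108864 T2_t2b_c1_dd_n) x2_t2b_c1_dd_n_t64 212 447 500 = true := by decide +kernel

def x2_t2b_c1_dd_n_t65 : T :=
  (.c (.a (.l 15) (.b (.l 2055) (.c (.a (.l 15) (.l 2055)) (.a (.l 15) (.l 2055))))) (.a (.l 15)
      (.b (.l 2055) (.c (.a (.l 15) (.l 2055)) (.a (.l 15) (.l 2055))))))

theorem x2_t2b_c1_dd_n_h65 : chk3 (onCell 0 1073741824 0 429496730 0 67108864 T2_t2b_c1_dd_n) x2_t2b_c1_dd_n_t65 424 894 501 = true := by decide +kernel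

def x2_t2b_c1_dd_n_t66 : T :=
  (.a (.l 15) (.b (.c (.a (.l 15) (.l 2055)) (.a (.l 15) (.l 2055))) (.c (.a (.l 15) (.b (.c (.a
      (.l 15) (.l 2055)) (.a (.l 15) (.l 2055))) (.c (.a (.l 15) (.b (.a (.l 15) (.l 99)) (.a (.l
      15) (.l 99)))) (.a (.l 15) (.b (.a (.l 15) (.l 99)) (.a (.l 15) (.l 99))))))) (.a (.l 15)
      (.b (.c (.a (.l 15) (.l 99)) (.a (.l 15) (.l 99))) (.c (.a (.l 15) (.b (.a (.l 15) (.l 99))
      (.a (.l 15) (.l 99)))) (.a (.l 15) (.b (.a (.l 15) (.l 99)) (.a (.l 15) (.l 99))))))))))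

theorem x2_t2b_c1_dd_n_h66 : chk3 (onCell 0 1073741824 0 429496730 0 67108864 T2_t2b_c1_dd_n) x2_t2b_c1_dd_n_t66 424 895 1002 = true := by decide +kernel

def x2_t2b_c1_dd_n_t67 : T :=
  (.a (.l 15) (.b (.c (.a (.l 15) (.l 2055)) (.a (.l 15) (.l 2055))) (.c (.a (.l 15) (.b (.c (.a
      (.l 15) (.l 99)) (.a (.l 15) (.l 99))) (.c (.a (.l 15) (.b (.a (.l 15) (.l 99)) (.a (.l 15)
      (.l 99)))) (.a (.l 15) (.b (.a (.l 15) (.l 99)) (.a (.l 15) (.l 99))))))) (.a (.l 15) (.b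
      (.c (.a (.l 15) (.l 99)) (.a (.l 15) (.l 99))) (.c (.a (.l 15) (.b (.l 99) (.a (.l 15) (.l
      99)))) (.a (.l 15) (.b (.l 99) (.a (.l 15) (.l 99))))))))))

theorem x2_t2b_c1_dd_n_h67 : chk3 (onCell 0 1073741824 0 429496730 0 67108864 T2_t2b_c1_dd_n) x2_t2b_c1_dd_n_t67 424 895 1003 = true := by decide +kernel

def x2_t2b_c1_dd_n_t68 : T :=
  (.l 99)

theorem x2_t2b_c1_dd_n_h68 : chk3 (onCell 0 1073741824 0 429496730 0 67108864 T2_t2b_c1_dd_n) x2_t2b_c1_dd_n_t68 425 447 501 = true := by decide +kernel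

def x2_t2b_c1_dd_n_t69 : T :=
  (.l 3)

theorem x2_t2b_c1_dd_n_h69 : chk3 (onCell 0 1073741824 0 429496730 0 67108864 T2_t2b_c1_dd_n) x2_t2b_c1_dd_n_t69 213 223 250 = true := by decide +kernel

def x2_t2b_c1_dd_n_t70 : T :=
  (.c (.a (.b (.l 2055) (.c (.a (.l 15) (.l 2055)) (.a (.l 15) (.l 2055)))) (.l 99)) (.a (.b (.l
      2055) (.c (.a (.l 15) (.l 2055)) (.a (.l 15) (.l 2055)))) (.l 99)))

theorem x2_t2b_c1_dd_n_h70 : chk3 (onCell 0 1073741824 0 429496730 0 67108864 T2_t2b_c1_dd_n) x2_t2b_c1_dd_n_t70 212 446 251 = true := by decide +kernel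

def x2_t2b_c1_dd_n_t71 : T :=
  (.c (.a (.l 15) (.b (.l 2055) (.c (.a (.l 15) (.l 2055)) (.a (.l 15) (.l 2055))))) (.a (.l 15)
      (.b (.l 2055) (.c (.a (.l 15) (.l 2055)) (.a (.l 15) (.l 2055))))))

theorem x2_t2b_c1_dd_n_h71 : chk3 (onCell 0 1073741824 0 429496730 0 67108864 T2_t2b_c1_dd_n) x2_t2b_c1_dd_n_t71 424 894 502 = true := by decide +kernel

def x2_t2b_c1_dd_n_t72 : T :=
  (.c (.a (.l 15) (.b (.c (.a (.l 15) (.l 2055)) (.a (.l 15) (.l 2055))) (.c (.a (.l 15) (.b (.c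
      (.a (.l 15) (.l 99)) (.a (.l 15) (.l 99))) (.c (.a (.l 15) (.b (.l 99) (.a (.l 15) (.l
      99)))) (.a (.l 15) (.b (.l 99) (.l 99)))))) (.a (.l 15) (.b (.c (.a (.l 15) (.l 99)) (.a
      (.l 15) (.l 99))) (.c (.a (.l 15) (.b (.l 99) (.l 99))) (.a (.l 15) (.l 99)))))))) (.a (.l
      15) (.b (.c (.a (.l 15) (.l 2055)) (.a (.l 15) (.l 2055))) (.c (.a (.l 15) (.b (.c (.a (.l
      15) (.l 99)) (.a (.l 15) (.l 99))) (.c (.a (.l 15) (.l 99)) (.a (.l 15) (.l 99))))) (.a (.l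
      15) (.b (.c (.a (.l 15) (.l 99)) (.a (.l 15) (.l 99))) (.c (.a (.l 15) (.l 99)) (.a (.l 15)
      (.l 99)))))))))

theorem x2_t2b_c1_dd_n_h72 : chk3 (onCell 0 1073741824 0 429496730 0 67108864 T2_t2b_c1_dd_n) x2_t2b_c1_dd_n_t72 424 895 502 = true := by decide +kernel

def x2_t2b_c1_dd_n_t73 : T :=
  (.l 99)

theorem x2_t2b_c1_dd_n_h73 : chk3 (onCell 0 1073741824 0 429496730 0 67108864 T2_t2b_c1_dd_n) x2_t2b_c1_dd_n_t73 425 447 502 = true := by decide +kernel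

def x2_t2b_c1_dd_n_t74 : T :=
  (.a (.b (.c (.a (.l 15) (.b (.l 2055) (.c (.a (.l 15) (.l 2055)) (.a (.l 15) (.l 2055))))) (.a
      (.l 15) (.b (.l 2055) (.c (.a (.l 15) (.l 2055)) (.a (.l 15) (.l 2055)))))) (.c (.a (.l 15)
      (.b (.c (.a (.l 15) (.l 2055)) (.a (.l 15) (.l 2055))) (.c (.a (.l 15) (.b (.c (.a (.l 15)
      (.l 99)) (.a (.l 15) (.l 99))) (.c (.a (.l 15) (.l 99)) (.a (.l 15) (.l 99))))) (.a (.l 15)
      (.b (.c (.a (.l 15) (.l 99)) (.a (.l 15) (.l 99))) (.c (.a (.l 15) (.l 99)) (.a (.l 15) (.l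
      99)))))))) (.a (.l 15) (.b (.c (.a (.l 15) (.l 2055)) (.a (.l 15) (.l 2055))) (.c (.a (.l
      15) (.b (.c (.a (.l 15) (.l 99)) (.a (.l 15) (.l 99))) (.c (.a (.l 15) (.l 99)) (.a (.l 15)
      (.l 99))))) (.a (.l 15) (.b (.c (.a (.l 15) (.l 99)) (.a (.l 15) (.l 99))) (.c (.a (.l 15)
      (.l 99)) (.a (.l 15) (.l 99)))))))))) (.l 99))

theorem x2_t2b_c1_dd_n_h74 : chk3 (onCell 0 1073741824 0 429496730 0 67108864 T2_t2b_c1_dd_n) x2_t2b_c1_dd_n_t74 212 447 503 = true := by decide +kernel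

def x2_t2b_c1_dd_n_t75 : T :=
  (.l 3)

theorem x2_t2b_c1_dd_n_h75 : chk3 (onCell 0 1073741824 0 429496730 0 67108864 T2_t2b_c1_dd_n) x2_t2b_c1_dd_n_t75 213 223 251 = true := by decide +kernel

def x2_t2b_c1_dd_n_t76 : T :=
  (.l 2051)

theorem x2_t2b_c1_dd_n_h76 : chk3 (onCell 0 1073741824 0 429496730 0 67108864 T2_t2b_c1_dd_n) x2_t2b_c1_dd_n_t76 107 27 125 = true := by decide +kernel

def x2_t2b_c1_dd_n_t77 : T :=
  (.l 15)

theorem x2_t2b_c1_dd_n_h77 : chk3 (onCell 0 1073741824 0 429496730 0 67108864 T2_t2b_c1_dd_n) x2_t2b_c1_dd_n_t77 52 27 63 = true := by decide +kernel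

def x2_t2b_c1_dd_n_t78 : T :=
  (.l 2055)

theorem x2_t2b_c1_dd_n_h78 : chk3 (onCell 0 1073741824 0 429496730 0 67108864 T2_t2b_c1_dd_n) x2_t2b_c1_dd_n_t78 106 54 126 = true := by decide +kernel

def x2_t2b_c1_dd_n_t79 : T :=
  (.a (.l 2055) (.l 3))

theorem x2_t2b_c1_dd_n_h79 : chk3 (onCell 0 1073741824 0 429496730 0 67108864 T2_t2b_c1_dd_n) x2_t2b_c1_dd_n_t79 106 110 126 = true := by decide +kernel

def x2_t2b_c1_dd_n_t80 : T :=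
  (.a (.c (.c (.a (.l 2055) (.l 99)) (.a (.l 2055) (.l 99))) (.a (.l 2055) (.l 99))) (.l 3))

theorem x2_t2b_c1_dd_n_h80 : chk3 (onCell 0 1073741824 0 429496730 0 67108864 T2_t2b_c1_dd_n) x2_t2b_c1_dd_n_t80 106 222 126 = true := by decide +kernel

def x2_t2b_c1_dd_n_t81 : T :=
  (.c (.a (.b (.l 2055) (.c (.a (.l 15) (.l 2055)) (.a (.l 15) (.l 2055)))) (.l 99)) (.a (.b (.l
      2055) (.c (.a (.l 15) (.l 2055)) (.a (.l 15) (.l 2055)))) (.l 99)))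

theorem x2_t2b_c1_dd_n_h81 : chk3 (onCell 0 1073741824 0 429496730 0 67108864 T2_t2b_c1_dd_n) x2_t2b_c1_dd_n_t81 212 446 252 = true := by decide +kernel

def x2_t2b_c1_dd_n_t82 : T :=
  (.a (.b (.c (.a (.l 15) (.b (.l 2055) (.c (.a (.l 15) (.l 2055)) (.a (.l 15) (.l 2055))))) (.a
      (.l 15) (.b (.l 2055) (.c (.a (.l 15) (.l 2055)) (.a (.l 15) (.l 2055)))))) (.c (.a (.l 15)
      (.b (.c (.a (.l 15) (.l 2055)) (.a (.l 15) (.l 2055))) (.c (.a (.l 15) (.b (.c (.a (.l 15)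
      (.l 99)) (.a (.l 15) (.l 99))) (.c (.a (.l 15) (.l 99)) (.a (.l 15) (.l 99))))) (.a (.l 15)
      (.b (.c (.a (.l 15) (.l 99)) (.a (.l 15) (.l 99))) (.c (.a (.l 15) (.l 99)) (.a (.l 15) (.l
      99)))))))) (.a (.l 15) (.b (.c (.a (.l 15) (.l 2055)) (.a (.l 15) (.l 2055))) (.c (.a (.l
      15) (.b (.c (.a (.l 15) (.l 99)) (.a (.l 15) (.l 99))) (.c (.a (.l 15) (.l 99)) (.a (.l 15)
      (.l 99))))) (.a (.l 15) (.b (.c (.a (.l 15) (.l 99)) (.a (.l 15) (.l 99))) (.c (.a (.l 15)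
      (.l 99)) (.a (.l 15) (.l 99)))))))))) (.l 99))

theorem x2_t2b_c1_dd_n_h82 : chk3 (onCell 0 1073741824 0 429496730 0 67108864 T2_t2b_c1_dd_n) x2_t2b_c1_dd_n_t82 212 447 504 = true := by decide +kernel

def x2_t2b_c1_dd_n_t83 : T :=
  (.a (.b (.c (.a (.l 15) (.b (.l 2055) (.c (.a (.l 15) (.l 2055)) (.a (.l 15) (.l 2055))))) (.a
      (.l 15) (.b (.l 2055) (.c (.a (.l 15) (.l 2055)) (.a (.l 15) (.l 2055)))))) (.c (.a (.l 15)
      (.b (.c (.a (.l 15) (.l 2055)) (.a (.l 15) (.l 2055))) (.c (.a (.l 15) (.b (.c (.a (.l 15)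
      (.l 99)) (.a (.l 15) (.l 99))) (.c (.a (.l 15) (.l 99)) (.a (.l 15) (.l 99))))) (.a (.l 15)
      (.b (.c (.a (.l 15) (.l 99)) (.a (.l 15) (.l 99))) (.c (.a (.l 15) (.l 99)) (.a (.l 15) (.l
      99)))))))) (.a (.l 15) (.b (.c (.a (.l 15) (.l 2055)) (.a (.l 15) (.l 2055))) (.c (.a (.l
      15) (.b (.c (.a (.l 15) (.l 99)) (.a (.l 15) (.l 99))) (.c (.a (.l 15) (.l 99)) (.a (.l 15)
      (.l 99))))) (.a (.l 15) (.b (.c (.a (.l 15) (.l 99)) (.a (.l 15) (.l 99))) (.c (.a (.l 15)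
      (.l 99)) (.a (.l 15) (.l 99)))))))))) (.l 99))

theorem x2_t2b_c1_dd_n_h83 : chk3 (onCell 0 1073741824 0 429496730 0 67108864 T2_t2b_c1_dd_n) x2_t2b_c1_dd_n_t83 212 447 505 = true := by decide +kernel

def x2_t2b_c1_dd_n_t84 : T :=
  (.l 3)

theorem x2_t2b_c1_dd_n_h84 : chk3 (onCell 0 1073741824 0 429496730 0 67108864 T2_t2b_c1_dd_n) x2_t2b_c1_dd_n_t84 213 223 252 = true := by decide +kernel

def x2_t2b_c1_dd_n_t85 : T :=
  (.c (.a (.b (.l 2055) (.c (.a (.l 15) (.l 2055)) (.a (.l 15) (.l 2055)))) (.l 99)) (.a (.b (.l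
      2055) (.c (.a (.l 15) (.l 2055)) (.a (.l 15) (.l 2055)))) (.l 99)))

theorem x2_t2b_c1_dd_n_h85 : chk3 (onCell 0 1073741824 0 429496730 0 67108864 T2_t2b_c1_dd_n) x2_t2b_c1_dd_n_t85 212 446 253 = true := by decide +kernel

def x2_t2b_c1_dd_n_t86 : T :=
  (.a (.b (.c (.a (.l 15) (.b (.l 2055) (.c (.a (.l 15) (.l 2055)) (.a (.l 15) (.l 2055))))) (.a
      (.l 15) (.b (.l 2055) (.c (.a (.l 15) (.l 2055)) (.a (.l 15) (.l 2055)))))) (.c (.a (.l 15)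
      (.b (.c (.a (.l 15) (.l 2055)) (.a (.l 15) (.l 2055))) (.c (.a (.l 15) (.b (.c (.a (.l 15)
      (.l 99)) (.a (.l 15) (.l 99))) (.c (.a (.l 15) (.l 99)) (.a (.l 15) (.l 99))))) (.a (.l 15)
      (.b (.c (.a (.l 15) (.l 99)) (.a (.l 15) (.l 99))) (.c (.a (.l 15) (.l 99)) (.a (.l 15) (.l
      99)))))))) (.a (.l 15) (.b (.c (.a (.l 15) (.l 2055)) (.a (.l 15) (.l 2055))) (.c (.a (.l
      15) (.b (.c (.a (.l 15) (.l 99)) (.a (.l 15) (.l 99))) (.c (.a (.l 15) (.l 99)) (.a (.l 15)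
      (.l 99))))) (.a (.l 15) (.b (.c (.a (.l 15) (.l 99)) (.a (.l 15) (.l 99))) (.c (.a (.l 15)
      (.l 99)) (.a (.l 15) (.l 99)))))))))) (.l 99))

theorem x2_t2b_c1_dd_n_h86 : chk3 (onCell 0 1073741824 0 429496730 0 67108864 T2_t2b_c1_dd_n) x2_t2b_c1_dd_n_t86 212 447 506 = true := by decide +kernel

def x2_t2b_c1_dd_n_t87 : T :=
  (.a (.b (.c (.a (.l 15) (.b (.l 2055) (.c (.a (.l 15) (.l 2055)) (.a (.l 15) (.l 2055))))) (.a
      (.l 15) (.b (.l 2055) (.c (.a (.l 15) (.l 2055)) (.a (.l 15) (.l 2055)))))) (.c (.a (.l 15)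
      (.b (.c (.a (.l 15) (.l 2055)) (.a (.l 15) (.l 2055))) (.c (.a (.l 15) (.b (.c (.a (.l 15)
      (.l 99)) (.a (.l 15) (.l 99))) (.c (.a (.l 15) (.l 99)) (.a (.l 15) (.l 99))))) (.a (.l 15)
      (.b (.c (.a (.l 15) (.l 99)) (.a (.l 15) (.l 99))) (.c (.a (.l 15) (.l 99)) (.a (.l 15) (.l
      99)))))))) (.a (.l 15) (.b (.c (.a (.l 15) (.l 2055)) (.a (.l 15) (.l 2055))) (.c (.a (.l
      15) (.b (.c (.a (.l 15) (.l 99)) (.a (.l 15) (.l 99))) (.c (.a (.l 15) (.l 99)) (.a (.l 15)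
      (.l 99))))) (.a (.l 15) (.b (.c (.a (.l 15) (.l 99)) (.a (.l 15) (.l 99))) (.c (.a (.l 15)
      (.l 99)) (.a (.l 15) (.l 99)))))))))) (.l 99))

theorem x2_t2b_c1_dd_n_h87 : chk3 (onCell 0 1073741824 0 429496730 0 67108864 T2_t2b_c1_dd_n) x2_t2b_c1_dd_n_t87 212 447 507 = true := by decide +kernel

def x2_t2b_c1_dd_n_t88 : T :=
  (.l 3)

theorem x2_t2b_c1_dd_n_h88 : chk3 (onCell 0 1073741824 0 429496730 0 67108864 T2_t2b_c1_dd_n) x2_t2b_c1_dd_n_t88 213 223 253 = true := by decide +kernel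

def x2_t2b_c1_dd_n_t89 : T :=
  (.l 2051)

theorem x2_t2b_c1_dd_n_h89 : chk3 (onCell 0 1073741824 0 429496730 0 67108864 T2_t2b_c1_dd_n) x2_t2b_c1_dd_n_t89 107 27 126 = true := by decide +kernel

def x2_t2b_c1_dd_n_t90 : T :=
  (.l 1927)

theorem x2_t2b_c1_dd_n_h90 : chk3 (onCell 0 1073741824 0 429496730 0 67108864 T2_t2b_c1_dd_n) x2_t2b_c1_dd_n_t90 106 54 127 = true := by decide +kernel

def x2_t2b_c1_dd_n_t91 : T :=
  (.l 1927)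

theorem x2_t2b_c1_dd_n_h91 : chk3 (onCell 0 1073741824 0 429496730 0 67108864 T2_t2b_c1_dd_n) x2_t2b_c1_dd_n_t91 212 110 127 = true := by decide +kernel

def x2_t2b_c1_dd_n_t92 : T :=
  (.c (.a (.l 2055) (.l 99)) (.a (.l 1927) (.l 67)))

theorem x2_t2b_c1_dd_n_h92 : chk3 (onCell 0 1073741824 0 429496730 0 67108864 T2_t2b_c1_dd_n) x2_t2b_c1_dd_n_t92 212 222 127 = true := by decide +kernel

def x2_t2b_c1_dd_n_t93 : T :=
  (.a (.c (.b (.l 2055) (.c (.a (.l 15) (.l 2055)) (.a (.l 15) (.l 2055)))) (.b (.l 2055) (.a (.l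
      15) (.l 2055)))) (.l 99))

theorem x2_t2b_c1_dd_n_h93 : chk3 (onCell 0 1073741824 0 429496730 0 67108864 T2_t2b_c1_dd_n) x2_t2b_c1_dd_n_t93 212 446 254 = true := by decide +kernel

def x2_t2b_c1_dd_n_t94 : T :=
  (.a (.b (.c (.a (.l 15) (.b (.l 2055) (.c (.a (.l 15) (.l 2055)) (.a (.l 15) (.l 2055))))) (.a
      (.l 15) (.b (.l 2055) (.c (.a (.l 15) (.l 2055)) (.a (.l 15) (.l 2055)))))) (.c (.a (.l 15)
      (.b (.c (.a (.l 15) (.l 2055)) (.a (.l 15) (.l 2055))) (.c (.a (.l 15) (.c (.b (.a (.l 15)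
      (.l 99)) (.a (.l 15) (.l 99))) (.b (.a (.l 15) (.l 99)) (.a (.l 15) (.l 99))))) (.a (.l 15)
      (.c (.b (.a (.l 15) (.l 99)) (.a (.l 15) (.l 99))) (.b (.a (.l 15) (.l 99)) (.a (.l 15) (.l
      99)))))))) (.a (.l 15) (.b (.c (.a (.l 15) (.l 2055)) (.a (.l 15) (.l 2055))) (.c (.a (.l
      15) (.c (.b (.a (.l 15) (.l 99)) (.a (.l 15) (.l 99))) (.a (.l 15) (.l 99)))) (.a (.l 15)
      (.c (.a (.l 15) (.l 99)) (.a (.l 15) (.l 99))))))))) (.l 99))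

theorem x2_t2b_c1_dd_n_h94 : chk3 (onCell 0 1073741824 0 429496730 0 67108864 T2_t2b_c1_dd_n) x2_t2b_c1_dd_n_t94 212 447 508 = true := by decide +kernel

def x2_t2b_c1_dd_n_t95 : T :=
  (.a (.b (.c (.a (.l 15) (.b (.l 2055) (.a (.l 15) (.l 2055)))) (.a (.l 15) (.b (.l 2055) (.a
      (.l 15) (.l 2055))))) (.c (.a (.l 15) (.b (.c (.a (.l 15) (.l 2055)) (.a (.l 15) (.l
      2055))) (.c (.a (.l 15) (.c (.a (.l 15) (.l 99)) (.a (.l 15) (.l 99)))) (.a (.l 15) (.c (.a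
      (.l 15) (.l 99)) (.a (.l 15) (.l 99))))))) (.a (.l 15) (.b (.c (.a (.l 15) (.l 2055)) (.a
      (.l 15) (.l 2055))) (.c (.a (.l 15) (.c (.a (.l 15) (.l 99)) (.a (.l 15) (.l 99)))) (.a (.l
      15) (.c (.a (.l 15) (.l 99)) (.a (.l 15) (.l 99))))))))) (.l 99))

theorem x2_t2b_c1_dd_n_h95 : chk3 (onCell 0 1073741824 0 429496730 0 67108864 T2_t2b_c1_dd_n) x2_t2b_c1_dd_n_t95 212 447 509 = true := by decide +kernel

def x2_t2b_c1_dd_n_t96 : T :=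
  (.b (.a (.c (.b (.l 2055) (.a (.l 15) (.l 2055))) (.b (.l 1927) (.a (.l 15) (.l 1927)))) (.l
      99)) (.a (.c (.b (.a (.l 15) (.c (.b (.l 2055) (.a (.l 15) (.l 2055))) (.b (.l 2055) (.a
      (.l 15) (.l 2055))))) (.c (.a (.l 15) (.c (.b (.a (.l 15) (.l 2055)) (.a (.l 15) (.c (.a
      (.l 15) (.l 99)) (.a (.l 15) (.l 99))))) (.a (.l 15) (.b (.l 2055) (.c (.a (.l 15) (.l 99))
      (.a (.l 15) (.l 99))))))) (.a (.l 15) (.a (.l 15) (.c (.b (.l 2055) (.a (.l 15) (.l 99)))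
      (.b (.l 2055) (.a (.l 15) (.l 99)))))))) (.b (.a (.l 15) (.c (.b (.l 2055) (.a (.l 15) (.l
      2055))) (.b (.l 1927) (.a (.l 15) (.l 1927))))) (.a (.l 15) (.c (.a (.l 15) (.c (.b (.l
      2055) (.a (.l 15) (.l 99))) (.b (.l 2055) (.a (.l 15) (.l 99))))) (.a (.l 15) (.c (.b (.l
      2055) (.a (.l 15) (.l 99))) (.b (.l 1927) (.a (.l 15) (.l 99))))))))) (.l 99)))

theorem x2_t2b_c1_dd_n_h96 : chk3 (onCell 0 1073741824 0 429496730 0 67108864 T2_t2b_c1_dd_n) x2_t2b_c1_dd_n_t96 212 223 255 = true := by decide +kernel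

def x2_t2b_c1_dd_n_t97 : T :=
  (.l 67)

theorem x2_t2b_c1_dd_n_h97 : chk3 (onCell 0 1073741824 0 429496730 0 67108864 T2_t2b_c1_dd_n) x2_t2b_c1_dd_n_t97 213 55 127 = true := by decide +kernel

def x2_t2b_c1_dd_n_t98 : T :=
  (.l 1923)

theorem x2_t2b_c1_dd_n_h98 : chk3 (onCell 0 1073741824 0 429496730 0 67108864 T2_t2b_c1_dd_n) x2_t2b_c1_dd_n_t98 107 27 127 = true := by decide +kernel

def x2_t2b_c1_dd_n_t99 : T :=
  (.c (.b (.l 2755) (.a (.l 2691) (.l 2691))) (.c (.c (.b (.l 2499) (.c (.c (.a (.l 2563) (.l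
      2563)) (.a (.l 2563) (.l 2563))) (.a (.l 2435) (.l 2435)))) (.b (.l 2371) (.c (.a (.l 2307)
      (.l 2307)) (.a (.l 2307) (.l 2307))))) (.c (.b (.l 2243) (.c (.a (.b (.l 2179) (.l 2179))
      (.l 2179)) (.a (.b (.l 2179) (.l 2179)) (.l 2179)))) (.b (.b (.l 1923) (.l 1923)) (.c (.a
      (.b (.l 2051) (.l 2051)) (.l 2051)) (.a (.c (.a (.l 2051) (.l 2051)) (.a (.l 1923) (.l
      1923))) (.l 1923)))))))

theorem x2_t2b_c1_dd_n_h99 : chk3 (onCell 0 1073741824 0 429496730 0 67108864 T2_t2b_c1_dd_n) x2_t2b_c1_dd_n_t99 27 13 3 = true := by decide +kernel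

def x2_t2b_c1_dd_n_t100 : T :=
  (.b (.b (.a (.c (.l 8135) (.l 4039)) (.l 4035)) (.l 4039)) (.l 3975))

theorem x2_t2b_c1_dd_n_h100 : chk3 (onCell 0 1073741824 0 429496730 0 67108864 T2_t2b_c1_dd_n) x2_t2b_c1_dd_n_t100 13 7 2 = true := by decide +kernel

def x2_t2b_c1_dd_n_t101 : T :=
  (.c (.l 3271) (.l 2759))

theorem x2_t2b_c1_dd_n_h101 : chk3 (onCell 0 1073741824 0 429496730 0 67108864 T2_t2b_c1_dd_n) x2_t2b_c1_dd_n_t101 26 28 6 = true := by decide +kernel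

def x2_t2b_c1_dd_n_t102 : T :=
  (.c (.c (.l 71) (.a (.l 15) (.c (.l 71) (.b (.l 71) (.a (.l 2439) (.l 2435)))))) (.c (.a (.l
      15) (.c (.b (.l 71) (.a (.l 2439) (.l 2435))) (.b (.a (.c (.l 71) (.b (.l 71) (.l 2311)))
      (.l 2307)) (.a (.l 2311) (.l 2307))))) (.a (.l 15) (.b (.c (.a (.c (.b (.l 71) (.l 2311))
      (.b (.l 71) (.l 2311))) (.l 2307)) (.a (.b (.c (.a (.c (.l 71) (.b (.l 71) (.l 2375))) (.l
      67)) (.a (.c (.b (.l 71) (.l 2375)) (.b (.l 71) (.l 2375))) (.l 67))) (.l 2311)) (.l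
      2307))) (.c (.a (.l 2311) (.l 2307)) (.a (.l 2311) (.l 2307)))))))

theorem x2_t2b_c1_dd_n_h102 : chk3 (onCell 0 1073741824 0 429496730 0 67108864 T2_t2b_c1_dd_n) x2_t2b_c1_dd_n_t102 26 28 14 = true := by decide +kernel

def x2_t2b_c1_dd_n_t103 : T :=
  (.l 15)

theorem x2_t2b_c1_dd_n_h103 : chk3 (onCell 0 1073741824 0 429496730 0 67108864 T2_t2b_c1_dd_n) x2_t2b_c1_dd_n_t103 52 56 60 = true := by decide +kernel

def x2_t2b_c1_dd_n_t104 : T :=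
  (.a (.b (.c (.a (.l 15) (.c (.l 71) (.b (.l 71) (.l 71)))) (.a (.l 15) (.c (.b (.l 71) (.a (.l
      2311) (.l 3))) (.b (.l 71) (.a (.l 2311) (.l 3)))))) (.l 2375)) (.l 67))

theorem x2_t2b_c1_dd_n_h104 : chk3 (onCell 0 1073741824 0 429496730 0 67108864 T2_t2b_c1_dd_n) x2_t2b_c1_dd_n_t104 106 112 240 = true := by decide +kernel

def x2_t2b_c1_dd_n_t105 : T :=
  (.a (.l 15) (.c (.b (.a (.c (.a (.b (.l 71) (.l 2311)) (.l 67)) (.a (.b (.l 71) (.l 2311)) (.l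
      67))) (.l 3)) (.a (.l 2311) (.l 3))) (.b (.a (.c (.a (.b (.l 71) (.l 2311)) (.l 67)) (.a
      (.b (.c (.l 71) (.a (.b (.l 71) (.l 2375)) (.l 99))) (.l 2311)) (.l 67))) (.l 3)) (.a (.l
      2311) (.l 3)))))

theorem x2_t2b_c1_dd_n_h105 : chk3 (onCell 0 1073741824 0 429496730 0 67108864 T2_t2b_c1_dd_n) x2_t2b_c1_dd_n_t105 212 224 482 = true := by decide +kernel

def x2_t2b_c1_dd_n_t106 : T :=
  (.l 15)

theorem x2_t2b_c1_dd_n_h106 : chk3 (onCell 0 1073741824 0 429496730 0 67108864 T2_t2b_c1_dd_n) x2_t2b_c1_dd_n_t106 424 224 483 = true := by decide +kernel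

def x2_t2b_c1_dd_n_t107 : T :=
  (.b (.a (.c (.a (.b (.c (.a (.b (.l 71) (.l 2375)) (.l 99)) (.a (.b (.b (.l 71) (.l 71)) (.l
      2375)) (.l 99))) (.l 2311)) (.l 67)) (.a (.b (.c (.a (.b (.b (.l 71) (.l 71)) (.l 2375))
      (.l 99)) (.a (.b (.b (.b (.a (.l 15) (.l 99)) (.a (.l 15) (.l 99))) (.a (.l 15) (.l 99)))
      (.l 2375)) (.l 99))) (.l 2311)) (.l 67))) (.l 3)) (.a (.l 2311) (.l 3)))

theorem x2_t2b_c1_dd_n_h107 : chk3 (onCell 0 1073741824 0 429496730 0 67108864 T2_t2b_c1_dd_n) x2_t2b_c1_dd_n_t107 425 224 966 = true := by decide +kernel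

def x2_t2b_c1_dd_n_t108 : T :=
  (.b (.a (.c (.b (.a (.c (.a (.b (.b (.b (.a (.l 15) (.l 99)) (.a (.l 15) (.l 99))) (.a (.l 15)
      (.l 99))) (.l 2247)) (.l 99)) (.a (.b (.b (.b (.a (.l 15) (.l 99)) (.a (.l 15) (.l 99)))
      (.a (.l 15) (.l 99))) (.l 2247)) (.l 99))) (.l 3)) (.a (.l 2183) (.l 3))) (.b (.a (.c (.a
      (.b (.b (.b (.a (.l 15) (.l 99)) (.a (.l 15) (.l 99))) (.a (.l 15) (.l 99))) (.l 2247)) (.l
      99)) (.a (.b (.b (.b (.a (.l 15) (.l 99)) (.a (.l 15) (.l 99))) (.a (.l 15) (.l 99))) (.l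
      2247)) (.l 99))) (.l 3)) (.a (.l 2183) (.l 3)))) (.l 3)) (.a (.l 2183) (.l 3)))

theorem x2_t2b_c1_dd_n_h108 : chk3 (onCell 0 1073741824 0 429496730 0 67108864 T2_t2b_c1_dd_n) x2_t2b_c1_dd_n_t108 425 224 967 = true := by decide +kernel

def x2_t2b_c1_dd_n_t109 : T :=
  (.l 2247)

theorem x2_t2b_c1_dd_n_h109 : chk3 (onCell 0 1073741824 0 429496730 0 67108864 T2_t2b_c1_dd_n) x2_t2b_c1_dd_n_t109 212 225 241 = true := by decide +kernel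

def x2_t2b_c1_dd_n_t110 : T :=
  (.l 67)

theorem x2_t2b_c1_dd_n_h110 : chk3 (onCell 0 1073741824 0 429496730 0 67108864 T2_t2b_c1_dd_n) x2_t2b_c1_dd_n_t110 213 112 241 = true := by decide +kernel

def x2_t2b_c1_dd_n_t111 : T :=
  (.l 2183)

theorem x2_t2b_c1_dd_n_h111 : chk3 (onCell 0 1073741824 0 429496730 0 67108864 T2_t2b_c1_dd_n) x2_t2b_c1_dd_n_t111 106 113 120 = true := by decide +kernel

def x2_t2b_c1_dd_n_t112 : T :=
  (.l 2179)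

theorem x2_t2b_c1_dd_n_h112 : chk3 (onCell 0 1073741824 0 429496730 0 67108864 T2_t2b_c1_dd_n) x2_t2b_c1_dd_n_t112 107 56 120 = true := by decide +kernel

def x2_t2b_c1_dd_n_t113 : T :=
  (.l 15)

theorem x2_t2b_c1_dd_n_h113 : chk3 (onCell 0 1073741824 0 429496730 0 67108864 T2_t2b_c1_dd_n) x2_t2b_c1_dd_n_t113 424 224 484 = true := by decide +kernel

end Pool.Agent.Strip051.LC.E1.Ch
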