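import Pool.Agent.Strip051.LC.E1.Ch.Te

/-! # Rests near the full period: certificate P_x2_t2b_c1_dd_n_3 -/

set_option maxRecDepth 100000

namespace Pool.Agent.Strip051.LC.E1.Ch

open Pool.Agent.Strip051.PB
open Pool.Agent.Strip051.LC.E0.Ch (onCell Tree)

def x2_t2b_c1_dd_n_t114 : T :=
  (.b (.a (.c (.b (.a (.c (.a (.b (.b (.b (.a (.l 15) (.l 99)) (.a (.l 15) (.l 99))) (.a (.l 15)
      (.l 99))) (.l 2247)) (.l 99)) (.a (.b (.b (.b (.a (.l 15) (.l 99)) (.a (.l 15) (.l 99)))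
      (.a (.l 15) (.l 99))) (.l 2247)) (.l 99))) (.l 3)) (.a (.l 2183) (.l 3))) (.b (.a (.c (.a
      (.b (.b (.b (.l 99) (.a (.l 15) (.l 99))) (.a (.l 15) (.l 99))) (.l 2247)) (.l 99)) (.a (.b
      (.b (.b (.l 99) (.a (.l 15) (.l 99))) (.a (.l 15) (.l 99))) (.l 2247)) (.l 99))) (.l 3))
      (.a (.l 2183) (.l 3)))) (.l 3)) (.a (.l 2183) (.l 3)))

theorem x2_t2b_c1_dd_n_h114 : chk3 (onCell 0 1073741824 0 429496730 0 67108864 T2_t2b_c1_dd_n) x2_t2b_c1_dd_n_t114 425 224 968 = true := by decide +kernel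

def x2_t2b_c1_dd_n_t115 : T :=
  (.b (.a (.c (.b (.a (.c (.a (.b (.b (.b (.l 99) (.a (.l 15) (.l 99))) (.a (.l 15) (.l 99))) (.l
      2247)) (.l 99)) (.a (.b (.b (.b (.l 99) (.a (.l 15) (.l 99))) (.a (.l 15) (.l 99))) (.l
      2247)) (.l 99))) (.l 3)) (.a (.l 2183) (.l 3))) (.b (.a (.c (.a (.b (.b (.b (.l 99) (.l
      99)) (.a (.l 15) (.l 99))) (.l 2247)) (.l 99)) (.a (.b (.b (.l 99) (.a (.l 15) (.l 99)))
      (.l 2247)) (.l 99))) (.l 3)) (.a (.l 2183) (.l 3)))) (.l 3)) (.a (.l 2183) (.l 3)))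

theorem x2_t2b_c1_dd_n_h115 : chk3 (onCell 0 1073741824 0 429496730 0 67108864 T2_t2b_c1_dd_n) x2_t2b_c1_dd_n_t115 425 224 969 = true := by decide +kernel

def x2_t2b_c1_dd_n_t116 : T :=
  (.a (.l 15) (.c (.b (.a (.c (.b (.a (.c (.a (.b (.b (.l 99) (.a (.l 15) (.l 99))) (.l 2247))
      (.l 99)) (.a (.b (.b (.l 99) (.a (.l 15) (.l 99))) (.l 2247)) (.l 99))) (.l 3)) (.a (.l
      2183) (.l 3))) (.b (.a (.c (.a (.b (.b (.l 99) (.a (.l 15) (.l 99))) (.l 2247)) (.l 99))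
      (.a (.b (.b (.l 99) (.a (.l 15) (.l 99))) (.l 2247)) (.l 99))) (.l 3)) (.a (.l 2183) (.l
      3)))) (.l 3)) (.a (.l 2183) (.l 3))) (.b (.a (.c (.b (.a (.c (.a (.b (.b (.l 99) (.a (.l
      15) (.l 99))) (.l 2247)) (.l 99)) (.a (.b (.b (.l 99) (.a (.l 15) (.l 99))) (.l 2247)) (.l
      99))) (.l 3)) (.a (.l 2183) (.l 3))) (.b (.a (.c (.a (.b (.b (.l 99) (.a (.l 15) (.l 99)))
      (.l 2247)) (.l 99)) (.a (.b (.b (.l 99) (.a (.l 15) (.l 99))) (.l 2247)) (.l 99))) (.l 3))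
      (.a (.l 2183) (.l 3)))) (.l 3)) (.a (.l 2183) (.l 3)))))

theorem x2_t2b_c1_dd_n_h116 : chk3 (onCell 0 1073741824 0 429496730 0 67108864 T2_t2b_c1_dd_n) x2_t2b_c1_dd_n_t116 212 224 485 = true := by decide +kernel

def x2_t2b_c1_dd_n_t117 : T :=
  (.l 2247)

theorem x2_t2b_c1_dd_n_h117 : chk3 (onCell 0 1073741824 0 429496730 0 67108864 T2_t2b_c1_dd_n) x2_t2b_c1_dd_n_t117 212 225 242 = true := by decide +kernel

def x2_t2b_c1_dd_n_t118 : T :=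
  (.l 67)

theorem x2_t2b_c1_dd_n_h118 : chk3 (onCell 0 1073741824 0 429496730 0 67108864 T2_t2b_c1_dd_n) x2_t2b_c1_dd_n_t118 213 112 242 = true := by decide +kernel

def x2_t2b_c1_dd_n_t119 : T :=
  (.a (.l 15) (.b (.c (.a (.c (.b (.a (.c (.a (.b (.b (.l 99) (.a (.l 15) (.l 99))) (.l 2247))
      (.l 99)) (.a (.b (.b (.l 99) (.a (.l 15) (.l 99))) (.l 2247)) (.l 67))) (.l 3)) (.a (.l
      2183) (.l 3))) (.b (.a (.c (.a (.b (.b (.l 99) (.a (.l 15) (.l 99))) (.l 2247)) (.l 67))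
      (.a (.b (.b (.l 99) (.a (.l 15) (.l 99))) (.l 2247)) (.l 67))) (.l 3)) (.a (.l 2183) (.l
      3)))) (.l 3)) (.a (.c (.b (.a (.c (.a (.b (.b (.l 99) (.a (.l 15) (.l 99))) (.l 2247)) (.l
      67)) (.a (.b (.b (.l 99) (.a (.l 15) (.l 99))) (.l 2247)) (.l 67))) (.l 3)) (.a (.l 2183)
      (.l 3))) (.b (.a (.c (.a (.b (.b (.l 99) (.a (.l 15) (.l 99))) (.l 2247)) (.l 67)) (.a (.b
      (.b (.l 99) (.a (.l 15) (.l 99))) (.l 2247)) (.l 67))) (.l 3)) (.a (.l 2183) (.l 3)))) (.l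
      3))) (.c (.a (.l 2183) (.l 3)) (.a (.l 2183) (.l 3)))))

theorem x2_t2b_c1_dd_n_h119 : chk3 (onCell 0 1073741824 0 429496730 0 67108864 T2_t2b_c1_dd_n) x2_t2b_c1_dd_n_t119 212 224 486 = true := by decide +kernel

def x2_t2b_c1_dd_n_t120 : T :=
  (.a (.l 15) (.b (.c (.a (.c (.b (.a (.c (.a (.b (.b (.l 99) (.a (.l 15) (.l 99))) (.l 2247))
      (.l 67)) (.a (.b (.b (.l 99) (.a (.l 15) (.l 99))) (.l 2247)) (.l 67))) (.l 3)) (.a (.l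
      2183) (.l 3))) (.b (.a (.c (.a (.b (.b (.l 99) (.a (.l 15) (.l 99))) (.l 2247)) (.l 67))
      (.a (.b (.b (.l 99) (.a (.l 15) (.l 99))) (.l 2247)) (.l 67))) (.l 3)) (.a (.l 2183) (.l
      3)))) (.l 3)) (.a (.c (.b (.a (.c (.a (.b (.b (.l 99) (.l 99)) (.l 2247)) (.l 67)) (.a (.b
      (.b (.l 99) (.l 99)) (.l 2247)) (.l 67))) (.l 3)) (.a (.l 99) (.l 3))) (.b (.a (.c (.a (.b
      (.b (.l 99) (.l 99)) (.l 2247)) (.l 67)) (.a (.b (.b (.l 99) (.l 99)) (.l 99)) (.l 67)))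
      (.l 3)) (.a (.l 99) (.l 3)))) (.l 3))) (.c (.a (.l 2183) (.l 3)) (.a (.l 99) (.l 3)))))

theorem x2_t2b_c1_dd_n_h120 : chk3 (onCell 0 1073741824 0 429496730 0 67108864 T2_t2b_c1_dd_n) x2_t2b_c1_dd_n_t120 212 224 487 = true := by decide +kernel

def x2_t2b_c1_dd_n_t121 : T :=
  (.l 2247)

theorem x2_t2b_c1_dd_n_h121 : chk3 (onCell 0 1073741824 0 429496730 0 67108864 T2_t2b_c1_dd_n) x2_t2b_c1_dd_n_t121 212 225 243 = true := by decide +kernel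

def x2_t2b_c1_dd_n_t122 : T :=
  (.l 67)

theorem x2_t2b_c1_dd_n_h122 : chk3 (onCell 0 1073741824 0 429496730 0 67108864 T2_t2b_c1_dd_n) x2_t2b_c1_dd_n_t122 213 112 243 = true := by decide +kernel

def x2_t2b_c1_dd_n_t123 : T :=
  (.l 2183)

theorem x2_t2b_c1_dd_n_h123 : chk3 (onCell 0 1073741824 0 429496730 0 67108864 T2_t2b_c1_dd_n) x2_t2b_c1_dd_n_t123 106 113 121 = true := by decide +kernel

def x2_t2b_c1_dd_n_t124 : T :=
  (.l 2179)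

theorem x2_t2b_c1_dd_n_h124 : chk3 (onCell 0 1073741824 0 429496730 0 67108864 T2_t2b_c1_dd_n) x2_t2b_c1_dd_n_t124 107 56 121 = true := by decide +kernel

def x2_t2b_c1_dd_n_t125 : T :=
  (.l 15)

theorem x2_t2b_c1_dd_n_h125 : chk3 (onCell 0 1073741824 0 429496730 0 67108864 T2_t2b_c1_dd_n) x2_t2b_c1_dd_n_t125 52 56 61 = true := by decide +kernel

def x2_t2b_c1_dd_n_t126 : T :=
  (.a (.l 15) (.b (.c (.a (.c (.b (.a (.c (.a (.b (.b (.l 99) (.l 99)) (.l 99)) (.l 67)) (.a (.b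
      (.l 99) (.l 99)) (.l 67))) (.l 3)) (.a (.l 99) (.l 3))) (.b (.a (.c (.a (.b (.l 99) (.l
      99)) (.l 67)) (.a (.b (.l 99) (.l 99)) (.l 67))) (.l 3)) (.a (.l 99) (.l 3)))) (.l 3)) (.a
      (.c (.b (.a (.c (.a (.b (.l 99) (.l 99)) (.l 67)) (.a (.b (.l 99) (.l 99)) (.l 67))) (.l
      3)) (.a (.l 99) (.l 3))) (.b (.a (.c (.a (.b (.l 99) (.l 99)) (.l 67)) (.a (.b (.l 99) (.l
      99)) (.l 67))) (.l 3)) (.l 99))) (.l 3))) (.c (.a (.l 99) (.l 3)) (.a (.l 99) (.l 3)))))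

theorem x2_t2b_c1_dd_n_h126 : chk3 (onCell 0 1073741824 0 429496730 0 67108864 T2_t2b_c1_dd_n) x2_t2b_c1_dd_n_t126 212 224 488 = true := by decide +kernel

def x2_t2b_c1_dd_n_t127 : T :=
  (.a (.l 15) (.b (.c (.a (.c (.b (.a (.c (.a (.b (.l 99) (.l 99)) (.l 67)) (.a (.b (.l 99) (.l
      99)) (.l 67))) (.l 3)) (.l 99)) (.b (.a (.c (.a (.b (.l 99) (.l 99)) (.l 67)) (.a (.b (.l
      99) (.l 99)) (.l 67))) (.l 3)) (.l 99))) (.l 3)) (.a (.c (.b (.a (.c (.a (.b (.l 99) (.l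
      99)) (.l 67)) (.a (.b (.l 99) (.l 99)) (.l 67))) (.l 3)) (.l 99)) (.b (.a (.c (.a (.b (.l
      99) (.l 99)) (.l 67)) (.a (.b (.l 99) (.l 99)) (.l 67))) (.l 3)) (.l 99))) (.l 3))) (.c (.a
      (.l 99) (.l 3)) (.l 99))))

theorem x2_t2b_c1_dd_n_h127 : chk3 (onCell 0 1073741824 0 429496730 0 67108864 T2_t2b_c1_dd_n) x2_t2b_c1_dd_n_t127 212 224 489 = true := by decide +kernel

def x2_t2b_c1_dd_n_t128 : T :=
  (.l 2247)

theorem x2_t2b_c1_dd_n_h128 : chk3 (onCell 0 1073741824 0 429496730 0 67108864 T2_t2b_c1_dd_n) x2_t2b_c1_dd_n_t128 212 225 244 = true := by decide +kernel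

def x2_t2b_c1_dd_n_t129 : T :=
  (.l 67)

theorem x2_t2b_c1_dd_n_h129 : chk3 (onCell 0 1073741824 0 429496730 0 67108864 T2_t2b_c1_dd_n) x2_t2b_c1_dd_n_t129 213 112 244 = true := by decide +kernel

def x2_t2b_c1_dd_n_t130 : T :=
  (.a (.b (.c (.a (.l 15) (.b (.c (.a (.c (.b (.a (.c (.a (.b (.l 99) (.l 99)) (.l 67)) (.a (.b
      (.l 99) (.l 99)) (.l 67))) (.l 3)) (.l 99)) (.b (.a (.c (.a (.b (.l 99) (.l 99)) (.l 67))
      (.a (.l 99) (.l 67))) (.l 3)) (.l 99))) (.l 3)) (.a (.c (.b (.a (.c (.a (.l 99) (.l 67))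
      (.a (.l 99) (.l 67))) (.l 3)) (.l 99)) (.b (.a (.l 99) (.l 3)) (.l 99))) (.l 3))) (.l 99)))
      (.a (.l 15) (.b (.c (.a (.c (.b (.a (.l 99) (.l 3)) (.l 99)) (.b (.a (.l 99) (.l 3)) (.l
      99))) (.l 3)) (.a (.b (.c (.a (.l 99) (.l 3)) (.a (.l 99) (.l 3))) (.l 99)) (.l 3))) (.l
      99)))) (.l 2247)) (.l 67))

theorem x2_t2b_c1_dd_n_h130 : chk3 (onCell 0 1073741824 0 429496730 0 67108864 T2_t2b_c1_dd_n) x2_t2b_c1_dd_n_t130 106 112 245 = true := by decide +kernel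

def x2_t2b_c1_dd_n_t131 : T :=
  (.l 2183)

theorem x2_t2b_c1_dd_n_h131 : chk3 (onCell 0 1073741824 0 429496730 0 67108864 T2_t2b_c1_dd_n) x2_t2b_c1_dd_n_t131 106 113 122 = true := by decide +kernel

def x2_t2b_c1_dd_n_t132 : T :=
  (.l 2179)

theorem x2_t2b_c1_dd_n_h132 : chk3 (onCell 0 1073741824 0 429496730 0 67108864 T2_t2b_c1_dd_n) x2_t2b_c1_dd_n_t132 107 56 122 = true := by decide +kernel

def x2_t2b_c1_dd_n_t133 : T :=
  (.a (.b (.c (.a (.b (.c (.a (.l 15) (.b (.c (.a (.b (.c (.a (.l 99) (.l 3)) (.a (.l 99) (.l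
      3))) (.l 99)) (.l 3)) (.a (.b (.c (.a (.l 99) (.l 3)) (.a (.l 99) (.l 3))) (.l 99)) (.l
      3))) (.l 99))) (.a (.l 15) (.b (.c (.a (.b (.l 99) (.l 99)) (.l 3)) (.a (.b (.l 99) (.l
      99)) (.l 3))) (.l 99)))) (.l 2247)) (.l 67)) (.a (.b (.c (.a (.l 15) (.b (.c (.a (.b (.l
      99) (.l 99)) (.l 3)) (.a (.b (.l 99) (.l 99)) (.l 3))) (.l 99))) (.a (.l 15) (.b (.c (.a
      (.b (.l 99) (.l 99)) (.l 3)) (.a (.l 99) (.l 3))) (.l 99)))) (.l 2247)) (.l 67))) (.l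
      2183)) (.l 2179))

theorem x2_t2b_c1_dd_n_h133 : chk3 (onCell 0 1073741824 0 429496730 0 67108864 T2_t2b_c1_dd_n) x2_t2b_c1_dd_n_t133 53 56 123 = true := by decide +kernel

def x2_t2b_c1_dd_n_t134 : T :=
  (.c (.a (.l 15) (.b (.c (.a (.l 2183) (.l 2179)) (.a (.l 2183) (.l 2179))) (.l 2183))) (.a (.l
      15) (.b (.c (.a (.l 2183) (.l 2179)) (.a (.l 2183) (.l 2179))) (.l 2183))))

theorem x2_t2b_c1_dd_n_h134 : chk3 (onCell 0 1073741824 0 429496730 0 67108864 T2_t2b_c1_dd_n) x2_t2b_c1_dd_n_t134 26 57 30 = true := by decide +kernel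

def x2_t2b_c1_dd_n_t135 : T :=
  (.l 15)

theorem x2_t2b_c1_dd_n_h135 : chk3 (onCell 0 1073741824 0 429496730 0 67108864 T2_t2b_c1_dd_n) x2_t2b_c1_dd_n_t135 52 56 62 = true := by decide +kernel

def x2_t2b_c1_dd_n_t136 : T :=
  (.a (.c (.a (.b (.c (.a (.l 15) (.b (.c (.a (.l 99) (.l 3)) (.a (.l 99) (.l 3))) (.l 99))) (.a
      (.l 15) (.b (.c (.a (.l 99) (.l 3)) (.a (.l 99) (.l 3))) (.l 99)))) (.l 2119)) (.l 67)) (.a
      (.b (.c (.a (.l 15) (.b (.c (.a (.l 99) (.l 3)) (.a (.l 99) (.l 3))) (.l 99))) (.a (.l 15)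
      (.b (.c (.a (.l 99) (.l 3)) (.l 99)) (.l 99)))) (.l 2119)) (.l 67))) (.l 2051))

theorem x2_t2b_c1_dd_n_h136 : chk3 (onCell 0 1073741824 0 429496730 0 67108864 T2_t2b_c1_dd_n) x2_t2b_c1_dd_n_t136 53 112 124 = true := by decide +kernel

def x2_t2b_c1_dd_n_t137 : T :=
  (.a (.b (.c (.l 15) (.a (.l 15) (.b (.c (.a (.l 15) (.b (.c (.l 15) (.a (.l 15) (.b (.a (.l 15)
      (.l 99)) (.l 2119)))) (.l 2119))) (.a (.l 15) (.b (.c (.a (.l 15) (.b (.a (.l 15) (.l 99))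
      (.l 2119))) (.a (.l 15) (.b (.a (.l 15) (.l 99)) (.l 2119)))) (.l 2119)))) (.l 2119)))) (.l
      2119)) (.b (.l 99) (.l 99)))

theorem x2_t2b_c1_dd_n_h137 : chk3 (onCell 0 1073741824 0 429496730 0 67108864 T2_t2b_c1_dd_n) x2_t2b_c1_dd_n_t137 212 224 500 = true := by decide +kernel

def x2_t2b_c1_dd_n_t138 : T :=
  (.a (.b (.c (.a (.l 15) (.b (.c (.a (.l 15) (.b (.c (.a (.l 15) (.b (.a (.l 15) (.l 99)) (.l
      2119))) (.a (.l 15) (.b (.a (.l 15) (.l 99)) (.l 2119)))) (.l 2119))) (.a (.l 15) (.b (.c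
      (.a (.l 15) (.b (.a (.l 15) (.l 99)) (.l 2119))) (.a (.l 15) (.b (.a (.l 15) (.l 99)) (.l
      2119)))) (.l 2119)))) (.l 2119))) (.a (.l 15) (.b (.c (.a (.l 15) (.b (.c (.a (.l 15) (.b
      (.a (.l 15) (.l 99)) (.l 2119))) (.a (.l 15) (.b (.a (.l 15) (.l 99)) (.l 2119)))) (.l
      2119))) (.a (.l 15) (.b (.c (.a (.l 15) (.b (.a (.l 15) (.l 99)) (.l 2119))) (.a (.l 15)
      (.b (.a (.l 15) (.l 99)) (.l 2119)))) (.l 2119)))) (.l 2119)))) (.l 2119)) (.b (.l 99) (.l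
      99)))

theorem x2_t2b_c1_dd_n_h138 : chk3 (onCell 0 1073741824 0 429496730 0 67108864 T2_t2b_c1_dd_n) x2_t2b_c1_dd_n_t138 212 224 501 = true := by decide +kernel

def x2_t2b_c1_dd_n_t139 : T :=
  (.l 2119)

theorem x2_t2b_c1_dd_n_h139 : chk3 (onCell 0 1073741824 0 429496730 0 67108864 T2_t2b_c1_dd_n) x2_t2b_c1_dd_n_t139 212 225 250 = true := by decide +kernel

def x2_t2b_c1_dd_n_t140 : T :=
  (.l 67)

theorem x2_t2b_c1_dd_n_h140 : chk3 (onCell 0 1073741824 0 429496730 0 67108864 T2_t2b_c1_dd_n) x2_t2b_c1_dd_n_t140 213 112 250 = true := by decide +kernel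

def x2_t2b_c1_dd_n_t141 : T :=
  (.a (.b (.c (.a (.l 15) (.b (.c (.a (.l 15) (.b (.c (.a (.l 15) (.b (.a (.l 15) (.l 99)) (.l
      2119))) (.a (.l 15) (.b (.a (.l 15) (.l 99)) (.l 2119)))) (.l 2119))) (.a (.l 15) (.b (.c
      (.a (.l 15) (.b (.a (.l 15) (.l 99)) (.l 2119))) (.a (.l 15) (.b (.a (.l 15) (.l 99)) (.l
      2119)))) (.l 2119)))) (.l 2119))) (.a (.l 15) (.b (.c (.a (.l 15) (.b (.c (.a (.l 15) (.b
      (.a (.l 15) (.l 99)) (.l 2119))) (.a (.l 15) (.b (.a (.l 15) (.l 99)) (.l 2119)))) (.l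
      2119))) (.a (.l 15) (.b (.c (.a (.l 15) (.b (.a (.l 15) (.l 99)) (.l 2119))) (.a (.l 15)
      (.b (.a (.l 15) (.l 99)) (.l 2119)))) (.l 2119)))) (.l 2119)))) (.l 2119)) (.b (.l 99) (.l
      99)))

theorem x2_t2b_c1_dd_n_h141 : chk3 (onCell 0 1073741824 0 429496730 0 67108864 T2_t2b_c1_dd_n) x2_t2b_c1_dd_n_t141 212 224 502 = true := by decide +kernel

def x2_t2b_c1_dd_n_t142 : T :=
  (.a (.b (.c (.a (.l 15) (.b (.c (.a (.l 15) (.b (.c (.a (.l 15) (.b (.a (.l 15) (.l 99)) (.l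
      2119))) (.a (.l 15) (.b (.a (.l 15) (.l 99)) (.l 2119)))) (.l 2119))) (.a (.l 15) (.b (.c
      (.a (.l 15) (.b (.a (.l 15) (.l 99)) (.l 2119))) (.a (.l 15) (.b (.a (.l 15) (.l 99)) (.l
      2119)))) (.l 2119)))) (.l 2119))) (.a (.l 15) (.b (.c (.a (.l 15) (.b (.c (.a (.l 15) (.b
      (.a (.l 15) (.l 99)) (.l 2119))) (.a (.l 15) (.b (.a (.l 15) (.l 99)) (.l 2119)))) (.l
      2119))) (.a (.l 15) (.b (.c (.a (.l 15) (.b (.a (.l 15) (.l 99)) (.l 2119))) (.a (.l 15)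
      (.b (.a (.l 15) (.l 99)) (.l 2119)))) (.l 2119)))) (.l 2119)))) (.l 2119)) (.b (.l 99) (.l
      67)))

theorem x2_t2b_c1_dd_n_h142 : chk3 (onCell 0 1073741824 0 429496730 0 67108864 T2_t2b_c1_dd_n) x2_t2b_c1_dd_n_t142 212 224 503 = true := by decide +kernel

def x2_t2b_c1_dd_n_t143 : T :=
  (.l 2119)

theorem x2_t2b_c1_dd_n_h143 : chk3 (onCell 0 1073741824 0 429496730 0 67108864 T2_t2b_c1_dd_n) x2_t2b_c1_dd_n_t143 212 225 251 = true := by decide +kernel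

def x2_t2b_c1_dd_n_t144 : T :=
  (.l 67)

theorem x2_t2b_c1_dd_n_h144 : chk3 (onCell 0 1073741824 0 429496730 0 67108864 T2_t2b_c1_dd_n) x2_t2b_c1_dd_n_t144 213 112 251 = true := by decide +kernel

def x2_t2b_c1_dd_n_t145 : T :=
  (.l 2051)

theorem x2_t2b_c1_dd_n_h145 : chk3 (onCell 0 1073741824 0 429496730 0 67108864 T2_t2b_c1_dd_n) x2_t2b_c1_dd_n_t145 107 112 125 = true := by decide +kernel

def x2_t2b_c1_dd_n_t146 : T :=
  (.c (.a (.l 2055) (.l 2051)) (.a (.l 2055) (.l 2051)))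

theorem x2_t2b_c1_dd_n_h146 : chk3 (onCell 0 1073741824 0 429496730 0 67108864 T2_t2b_c1_dd_n) x2_t2b_c1_dd_n_t146 53 113 62 = true := by decide +kernel

def x2_t2b_c1_dd_n_t147 : T :=
  (.l 15)

theorem x2_t2b_c1_dd_n_h147 : chk3 (onCell 0 1073741824 0 429496730 0 67108864 T2_t2b_c1_dd_n) x2_t2b_c1_dd_n_t147 52 56 63 = true := by decide +kernel

def x2_t2b_c1_dd_n_t148 : T :=
  (.c (.a (.l 15) (.b (.c (.a (.l 15) (.b (.c (.a (.l 15) (.b (.a (.l 15) (.l 99)) (.l 2119)))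
      (.a (.l 15) (.b (.a (.l 15) (.l 99)) (.l 2119)))) (.l 2119))) (.a (.l 15) (.b (.c (.a (.l
      15) (.b (.a (.l 15) (.l 99)) (.l 2119))) (.a (.l 15) (.b (.a (.l 15) (.l 99)) (.l 2119))))
      (.l 2119)))) (.l 2119))) (.a (.l 15) (.b (.c (.a (.l 15) (.b (.c (.a (.l 15) (.b (.a (.l
      15) (.l 99)) (.l 2119))) (.a (.l 15) (.b (.a (.l 15) (.l 99)) (.l 2119)))) (.l 2119))) (.a
      (.l 15) (.b (.c (.a (.l 15) (.b (.a (.l 15) (.l 99)) (.l 2119))) (.a (.l 15) (.b (.a (.l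
      15) (.l 99)) (.l 2119)))) (.l 2119)))) (.l 2119))))

theorem x2_t2b_c1_dd_n_h148 : chk3 (onCell 0 1073741824 0 429496730 0 67108864 T2_t2b_c1_dd_n) x2_t2b_c1_dd_n_t148 424 448 504 = true := by decide +kernel

def x2_t2b_c1_dd_n_t149 : T :=
  (.c (.a (.l 15) (.b (.c (.a (.l 15) (.b (.c (.a (.l 15) (.b (.a (.l 15) (.l 99)) (.l 2119)))
      (.a (.l 15) (.b (.l 99) (.l 2119)))) (.l 2119))) (.a (.l 15) (.b (.c (.a (.l 15) (.b (.l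
      99) (.l 2119))) (.a (.l 15) (.b (.l 99) (.l 2119)))) (.l 2119)))) (.l 2119))) (.a (.l 15)
      (.b (.c (.a (.l 15) (.b (.c (.a (.l 15) (.b (.l 99) (.l 99))) (.a (.l 15) (.b (.l 99) (.l
      99)))) (.l 2119))) (.a (.l 15) (.b (.c (.a (.l 15) (.b (.l 99) (.l 99))) (.a (.l 15) (.b
      (.l 99) (.l 99)))) (.l 2119)))) (.l 2119))))

theorem x2_t2b_c1_dd_n_h149 : chk3 (onCell 0 1073741824 0 429496730 0 67108864 T2_t2b_c1_dd_n) x2_t2b_c1_dd_n_t149 424 448 505 = true := by decide +kernel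

def x2_t2b_c1_dd_n_t150 : T :=
  (.c (.c (.a (.l 15) (.b (.c (.a (.l 15) (.b (.c (.a (.l 15) (.b (.l 99) (.l 99))) (.a (.l 15)
      (.b (.l 99) (.l 99)))) (.l 2119))) (.a (.l 15) (.b (.c (.a (.l 15) (.l 99)) (.a (.l 15) (.l
      99))) (.l 2119)))) (.l 2119))) (.a (.l 15) (.b (.c (.a (.l 15) (.b (.c (.a (.l 15) (.l 99))
      (.a (.l 15) (.l 99))) (.l 2119))) (.a (.l 15) (.b (.c (.a (.l 15) (.l 99)) (.a (.l 15) (.l
      99))) (.l 2119)))) (.l 2119)))) (.c (.a (.l 15) (.b (.c (.a (.l 15) (.b (.c (.a (.l 15) (.l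
      99)) (.a (.l 15) (.l 99))) (.l 2119))) (.a (.l 15) (.b (.c (.a (.l 15) (.l 99)) (.a (.l 15)
      (.l 99))) (.l 2119)))) (.l 2119))) (.a (.l 15) (.b (.c (.a (.l 15) (.b (.c (.a (.l 15) (.l
      99)) (.a (.l 15) (.l 99))) (.l 2119))) (.a (.l 15) (.b (.c (.a (.l 15) (.l 99)) (.a (.l 15)
      (.l 99))) (.l 2119)))) (.l 2119)))))

theorem x2_t2b_c1_dd_n_h150 : chk3 (onCell 0 1073741824 0 429496730 0 67108864 T2_t2b_c1_dd_n) x2_t2b_c1_dd_n_t150 424 448 253 = true := by decide +kernel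

def x2_t2b_c1_dd_n_t151 : T :=
  (.c (.c (.a (.l 15) (.b (.c (.a (.l 15) (.b (.c (.a (.l 15) (.l 99)) (.a (.l 15) (.l 99))) (.l
      2119))) (.a (.l 15) (.b (.c (.a (.l 15) (.l 99)) (.a (.l 15) (.l 99))) (.l 2119)))) (.l
      2119))) (.a (.l 15) (.b (.c (.a (.l 15) (.b (.c (.a (.l 15) (.l 99)) (.a (.l 15) (.l 99)))
      (.l 2119))) (.a (.l 15) (.b (.c (.a (.l 15) (.l 99)) (.a (.l 15) (.l 99))) (.l 2119)))) (.l
      2119)))) (.c (.a (.l 15) (.b (.c (.a (.l 15) (.b (.c (.a (.l 15) (.l 99)) (.a (.l 15) (.l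
      99))) (.l 2119))) (.a (.l 15) (.b (.c (.a (.l 15) (.l 99)) (.a (.l 15) (.l 99))) (.l
      2119)))) (.l 2119))) (.a (.l 15) (.b (.c (.a (.l 15) (.b (.c (.a (.l 15) (.l 99)) (.a (.l
      15) (.l 99))) (.l 2119))) (.a (.l 15) (.b (.c (.a (.l 15) (.l 99)) (.a (.l 15) (.l 99)))
      (.l 2119)))) (.l 2119)))))

theorem x2_t2b_c1_dd_n_h151 : chk3 (onCell 0 1073741824 0 429496730 0 67108864 T2_t2b_c1_dd_n) x2_t2b_c1_dd_n_t151 424 448 254 = true := by decide +kernel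

def x2_t2b_c1_dd_n_t152 : T :=
  (.c (.c (.a (.l 15) (.b (.c (.a (.l 15) (.b (.c (.a (.l 15) (.l 99)) (.a (.l 15) (.l 99))) (.l
      2119))) (.a (.l 15) (.b (.c (.a (.l 15) (.l 99)) (.a (.l 15) (.l 99))) (.l 2119)))) (.l
      2119))) (.a (.l 15) (.b (.c (.a (.l 15) (.b (.c (.a (.l 15) (.l 99)) (.a (.l 15) (.l 99)))
      (.l 2119))) (.a (.l 15) (.b (.c (.a (.l 15) (.l 99)) (.a (.l 15) (.l 99))) (.l 2119)))) (.l
      2119)))) (.c (.a (.l 15) (.b (.c (.a (.l 15) (.b (.c (.a (.l 15) (.l 99)) (.a (.l 15) (.l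
      99))) (.l 2119))) (.a (.l 15) (.b (.c (.a (.l 15) (.l 99)) (.a (.l 15) (.l 99))) (.l
      2119)))) (.l 2119))) (.a (.l 15) (.b (.c (.a (.l 15) (.b (.c (.a (.l 15) (.l 99)) (.a (.l
      15) (.l 99))) (.l 2119))) (.a (.l 15) (.b (.c (.a (.l 15) (.l 99)) (.a (.l 15) (.l 99)))
      (.l 1991)))) (.l 1991)))))

theorem x2_t2b_c1_dd_n_h152 : chk3 (onCell 0 1073741824 0 429496730 0 67108864 T2_t2b_c1_dd_n) x2_t2b_c1_dd_n_t152 424 448 255 = true := by decide +kernel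

def x2_t2b_c1_dd_n_t153 : T :=
  (.l 99)

theorem x2_t2b_c1_dd_n_h153 : chk3 (onCell 0 1073741824 0 429496730 0 67108864 T2_t2b_c1_dd_n) x2_t2b_c1_dd_n_t153 425 448 63 = true := by decide +kernel

def x2_t2b_c1_dd_n_t154 : T :=
  (.a (.l 1991) (.l 67))

theorem x2_t2b_c1_dd_n_h154 : chk3 (onCell 0 1073741824 0 429496730 0 67108864 T2_t2b_c1_dd_n) x2_t2b_c1_dd_n_t154 212 449 63 = true := by decide +kernel

def x2_t2b_c1_dd_n_t155 : T :=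
  (.l 3)

theorem x2_t2b_c1_dd_n_h155 : chk3 (onCell 0 1073741824 0 429496730 0 67108864 T2_t2b_c1_dd_n) x2_t2b_c1_dd_n_t155 213 224 63 = true := by decide +kernel

def x2_t2b_c1_dd_n_t156 : T :=
  (.a (.l 1991) (.l 3))

theorem x2_t2b_c1_dd_n_h156 : chk3 (onCell 0 1073741824 0 429496730 0 67108864 T2_t2b_c1_dd_n) x2_t2b_c1_dd_n_t156 106 225 63 = true := by decide +kernel

def x2_t2b_c1_dd_n_t157 : T :=
  (.l 1923)

theorem x2_t2b_c1_dd_n_h157 : chk3 (onCell 0 1073741824 0 429496730 0 67108864 T2_t2b_c1_dd_n) x2_t2b_c1_dd_n_t157 107 112 63 = true := by decide +kernel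

def x2_t2b_c1_dd_n_t158 : T :=
  (.a (.l 1927) (.l 1923))

theorem x2_t2b_c1_dd_n_h158 : chk3 (onCell 0 1073741824 0 429496730 0 67108864 T2_t2b_c1_dd_n) x2_t2b_c1_dd_n_t158 53 113 63 = true := by decide +kernel

def x2_t2b_c1_dd_n_t159 : T :=
  (.c (.a (.l 15) (.b (.a (.l 2055) (.l 2051)) (.l 2055))) (.a (.l 15) (.b (.c (.a (.l 2055) (.l
      2051)) (.a (.l 1927) (.l 1923))) (.l 1927))))

theorem x2_t2b_c1_dd_n_h159 : chk3 (onCell 0 1073741824 0 429496730 0 67108864 T2_t2b_c1_dd_n) x2_t2b_c1_dd_n_t159 26 57 31 = true := by decide +kernel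

def x2_t2b_c1_dd_n_t160 : T :=
  (.l 1991)

theorem x2_t2b_c1_dd_n_h160 : chk3 (onCell 0 1073741824 0 429496730 0 67108864 T2_t2b_c1_dd_n) x2_t2b_c1_dd_n_t160 26 29 3 = true := by decide +kernel

def x2_t2b_c1_dd_n_t161 : T :=
  (.b (.l 1927) (.c (.l 2695) (.l 1927)))

theorem x2_t2b_c1_dd_n_h161 : chk3 (onCell 0 1073741824 0 429496730 0 67108864 T2_t2b_c1_dd_n) x2_t2b_c1_dd_n_t161 26 15 3 = true := by decide +kernel

def x2_t2b_c1_dd_n_t162 : T :=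
  (.b (.b (.c (.b (.l 2691) (.l 2691)) (.c (.c (.c (.l 2563) (.l 2435)) (.c (.b (.l 2307) (.l
      2307)) (.b (.l 2307) (.l 2307)))) (.c (.b (.l 2179) (.l 2179)) (.b (.l 1923) (.l 1923)))))
      (.c (.l 2755) (.c (.l 2307) (.l 1923)))) (.l 1927))

theorem x2_t2b_c1_dd_n_h162 : chk3 (onCell 0 1073741824 0 429496730 0 67108864 T2_t2b_c1_dd_n) x2_t2b_c1_dd_n_t162 27 7 3 = true := by decide +kernel

def x2_t2b_c1_dd_n_t163 : T :=
  (.b (.a (.b (.c (.l 4039) (.a (.l 1927) (.c (.l 2691) (.b (.l 1923) (.l 1923))))) (.c (.a (.a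
      (.l 4035) (.l 4035)) (.l 4035)) (.a (.b (.l 1923) (.a (.l 1923) (.l 1923))) (.b (.l 1923)
      (.l 1923))))) (.b (.c (.l 4035) (.a (.b (.l 1923) (.l 1923)) (.b (.l 1923) (.l 1923)))) (.c
      (.l 3971) (.a (.b (.l 1923) (.l 1923)) (.c (.l 2691) (.l 1923)))))) (.a (.b (.c (.a (.a (.b
      (.l 3971) (.l 3971)) (.l 4035)) (.l 4035)) (.a (.b (.l 1923) (.a (.b (.l 1923) (.l 1923))
      (.c (.l 2691) (.l 1923)))) (.b (.l 1923) (.a (.c (.l 2691) (.l 1923)) (.l 1923))))) (.c (.a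
      (.a (.l 4035) (.l 4035)) (.l 3971)) (.a (.b (.a (.c (.l 2691) (.b (.l 1923) (.l 1923))) (.c
      (.l 2691) (.l 1923))) (.l 1923)) (.b (.c (.l 2691) (.l 1923)) (.l 1923))))) (.b (.c (.l
      3971) (.a (.b (.l 1923) (.l 1923)) (.b (.l 1923) (.l 1923)))) (.c (.l 3971) (.a (.b (.l
      1923) (.l 1923)) (.b (.l 1923) (.l 1923)))))))

theorem x2_t2b_c1_dd_n_h163 : chk3 (onCell 0 1073741824 0 429496730 0 67108864 T2_t2b_c1_dd_n) x2_t2b_c1_dd_n_t163 7 1 1 = true := by decide +kernel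

end Pool.Agent.Strip051.LC.E1.Ch
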