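import Pool.Agent.Strip051.LC.E1.Ch.Cert.P_x2_t2b_c1_dd_n_1
import Pool.Agent.Strip051.LC.E1.Ch.Cert.P_x2_t2b_c1_dd_n_2
import Pool.Agent.Strip051.LC.E1.Ch.Cert.P_x2_t2b_c1_dd_n_3

/-! # Rests near the full period: certificate P_x2_t2b_c1_dd_n -/

set_option maxRecDepth 100000

namespace Pool.Agent.Strip051.LC.E1.Ch

open Pool.Agent.Strip051.PB
open Pool.Agent.Strip051.LC.E0.Ch (onCell Tree)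

theorem x2_t2b_c1_dd_n : Tree 0 1073741824 0 429496730 0 67108864 T2_t2b_c1_dd_n :=
  ⟨_, (chk3_a x2_t2b_c1_dd_n_h0 (chk3_a (chk3_b x2_t2b_c1_dd_n_h1 (chk3_a x2_t2b_c1_dd_n_h2
      (chk3_b (chk3_c x2_t2b_c1_dd_n_h3 (chk3_b x2_t2b_c1_dd_n_h4 (chk3_a (chk3_c (chk3_b
      x2_t2b_c1_dd_n_h5 x2_t2b_c1_dd_n_h6) (chk3_c x2_t2b_c1_dd_n_h7 (chk3_c (chk3_b (chk3_c
      x2_t2b_c1_dd_n_h8 (chk3_a x2_t2b_c1_dd_n_h9 (chk3_c x2_t2b_c1_dd_n_h10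
      x2_t2b_c1_dd_n_h11))) (chk3_c x2_t2b_c1_dd_n_h12 x2_t2b_c1_dd_n_h13)) (chk3_b (chk3_c
      (chk3_a x2_t2b_c1_dd_n_h14 (chk3_c x2_t2b_c1_dd_n_h15 (chk3_a (chk3_b x2_t2b_c1_dd_n_h16
      (chk3_b (chk3_c (chk3_a (chk3_b (chk3_c x2_t2b_c1_dd_n_h17 (chk3_a (chk3_b (chk3_c
      x2_t2b_c1_dd_n_h18 x2_t2b_c1_dd_n_h19) x2_t2b_c1_dd_n_h20) x2_t2b_c1_dd_n_h21))
      x2_t2b_c1_dd_n_h22) x2_t2b_c1_dd_n_h23) (chk3_a (chk3_b (chk3_c (chk3_a (chk3_b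
      x2_t2b_c1_dd_n_h24 x2_t2b_c1_dd_n_h25) x2_t2b_c1_dd_n_h26) (chk3_a (chk3_b
      x2_t2b_c1_dd_n_h27 x2_t2b_c1_dd_n_h28) x2_t2b_c1_dd_n_h29)) x2_t2b_c1_dd_n_h30)
      x2_t2b_c1_dd_n_h31)) x2_t2b_c1_dd_n_h32)) x2_t2b_c1_dd_n_h33))) (chk3_a x2_t2b_c1_dd_n_h34
      (chk3_a (chk3_c (chk3_b x2_t2b_c1_dd_n_h35 (chk3_b (chk3_a (chk3_c (chk3_b (chk3_a (chk3_c
      (chk3_b x2_t2b_c1_dd_n_h36 x2_t2b_c1_dd_n_h37) x2_t2b_c1_dd_n_h38) x2_t2b_c1_dd_n_h39)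
      x2_t2b_c1_dd_n_h40) (chk3_b (chk3_a (chk3_c x2_t2b_c1_dd_n_h41 x2_t2b_c1_dd_n_h42)
      x2_t2b_c1_dd_n_h43) x2_t2b_c1_dd_n_h44)) x2_t2b_c1_dd_n_h45) x2_t2b_c1_dd_n_h46)) (chk3_b
      x2_t2b_c1_dd_n_h47 (chk3_b (chk3_a (chk3_c (chk3_b (chk3_a (chk3_c x2_t2b_c1_dd_n_h48
      x2_t2b_c1_dd_n_h49) x2_t2b_c1_dd_n_h50) x2_t2b_c1_dd_n_h51) (chk3_b (chk3_a
      x2_t2b_c1_dd_n_h52 x2_t2b_c1_dd_n_h53) x2_t2b_c1_dd_n_h54)) x2_t2b_c1_dd_n_h55)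
      x2_t2b_c1_dd_n_h56))) x2_t2b_c1_dd_n_h57))) (chk3_c (chk3_a x2_t2b_c1_dd_n_h58 (chk3_c
      x2_t2b_c1_dd_n_h59 (chk3_a (chk3_b x2_t2b_c1_dd_n_h60 (chk3_b x2_t2b_c1_dd_n_h61 (chk3_b
      x2_t2b_c1_dd_n_h62 (chk3_c (chk3_a (chk3_b x2_t2b_c1_dd_n_h63 (chk3_c x2_t2b_c1_dd_n_h64
      (chk3_a (chk3_b x2_t2b_c1_dd_n_h65 (chk3_c x2_t2b_c1_dd_n_h66 x2_t2b_c1_dd_n_h67))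
      x2_t2b_c1_dd_n_h68))) x2_t2b_c1_dd_n_h69) (chk3_a (chk3_b x2_t2b_c1_dd_n_h70 (chk3_c
      (chk3_a (chk3_b x2_t2b_c1_dd_n_h71 x2_t2b_c1_dd_n_h72) x2_t2b_c1_dd_n_h73)
      x2_t2b_c1_dd_n_h74)) x2_t2b_c1_dd_n_h75))))) x2_t2b_c1_dd_n_h76))) (chk3_a
      x2_t2b_c1_dd_n_h77 (chk3_c (chk3_a (chk3_b x2_t2b_c1_dd_n_h78 (chk3_b x2_t2b_c1_dd_n_h79
      (chk3_b x2_t2b_c1_dd_n_h80 (chk3_c (chk3_a (chk3_b x2_t2b_c1_dd_n_h81 (chk3_c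
      x2_t2b_c1_dd_n_h82 x2_t2b_c1_dd_n_h83)) x2_t2b_c1_dd_n_h84) (chk3_a (chk3_b
      x2_t2b_c1_dd_n_h85 (chk3_c x2_t2b_c1_dd_n_h86 x2_t2b_c1_dd_n_h87)) x2_t2b_c1_dd_n_h88)))))
      x2_t2b_c1_dd_n_h89) (chk3_a (chk3_b x2_t2b_c1_dd_n_h90 (chk3_a (chk3_b x2_t2b_c1_dd_n_h91
      (chk3_b x2_t2b_c1_dd_n_h92 (chk3_c (chk3_b x2_t2b_c1_dd_n_h93 (chk3_c x2_t2b_c1_dd_n_h94
      x2_t2b_c1_dd_n_h95)) x2_t2b_c1_dd_n_h96))) x2_t2b_c1_dd_n_h97)) x2_t2b_c1_dd_n_h98))))))))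
      x2_t2b_c1_dd_n_h99))) (chk3_c x2_t2b_c1_dd_n_h100 (chk3_a (chk3_b (chk3_b (chk3_c
      x2_t2b_c1_dd_n_h101 (chk3_c x2_t2b_c1_dd_n_h102 (chk3_c (chk3_b (chk3_c (chk3_a
      x2_t2b_c1_dd_n_h103 (chk3_c (chk3_a (chk3_b (chk3_c x2_t2b_c1_dd_n_h104 (chk3_a (chk3_b
      (chk3_c x2_t2b_c1_dd_n_h105 (chk3_a x2_t2b_c1_dd_n_h106 (chk3_c x2_t2b_c1_dd_n_h107
      x2_t2b_c1_dd_n_h108))) x2_t2b_c1_dd_n_h109) x2_t2b_c1_dd_n_h110)) x2_t2b_c1_dd_n_h111)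
      x2_t2b_c1_dd_n_h112) (chk3_a (chk3_b (chk3_c (chk3_a (chk3_b (chk3_c (chk3_a
      x2_t2b_c1_dd_n_h113 (chk3_c x2_t2b_c1_dd_n_h114 x2_t2b_c1_dd_n_h115)) x2_t2b_c1_dd_n_h116)
      x2_t2b_c1_dd_n_h117) x2_t2b_c1_dd_n_h118) (chk3_a (chk3_b (chk3_c x2_t2b_c1_dd_n_h119
      x2_t2b_c1_dd_n_h120) x2_t2b_c1_dd_n_h121) x2_t2b_c1_dd_n_h122)) x2_t2b_c1_dd_n_h123)
      x2_t2b_c1_dd_n_h124))) (chk3_a x2_t2b_c1_dd_n_h125 (chk3_c (chk3_a (chk3_b (chk3_c (chk3_a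
      (chk3_b (chk3_c x2_t2b_c1_dd_n_h126 x2_t2b_c1_dd_n_h127) x2_t2b_c1_dd_n_h128)
      x2_t2b_c1_dd_n_h129) x2_t2b_c1_dd_n_h130) x2_t2b_c1_dd_n_h131) x2_t2b_c1_dd_n_h132)
      x2_t2b_c1_dd_n_h133))) x2_t2b_c1_dd_n_h134) (chk3_b (chk3_c (chk3_a x2_t2b_c1_dd_n_h135
      (chk3_b (chk3_c x2_t2b_c1_dd_n_h136 (chk3_a (chk3_c (chk3_a (chk3_b (chk3_c
      x2_t2b_c1_dd_n_h137 x2_t2b_c1_dd_n_h138) x2_t2b_c1_dd_n_h139) x2_t2b_c1_dd_n_h140) (chk3_a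
      (chk3_b (chk3_c x2_t2b_c1_dd_n_h141 x2_t2b_c1_dd_n_h142) x2_t2b_c1_dd_n_h143)
      x2_t2b_c1_dd_n_h144)) x2_t2b_c1_dd_n_h145)) x2_t2b_c1_dd_n_h146)) (chk3_a
      x2_t2b_c1_dd_n_h147 (chk3_b (chk3_a (chk3_b (chk3_a (chk3_b (chk3_a (chk3_c (chk3_c (chk3_c
      x2_t2b_c1_dd_n_h148 x2_t2b_c1_dd_n_h149) x2_t2b_c1_dd_n_h150) (chk3_c x2_t2b_c1_dd_n_h151
      x2_t2b_c1_dd_n_h152)) x2_t2b_c1_dd_n_h153) x2_t2b_c1_dd_n_h154) x2_t2b_c1_dd_n_h155)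
      x2_t2b_c1_dd_n_h156) x2_t2b_c1_dd_n_h157) x2_t2b_c1_dd_n_h158))) x2_t2b_c1_dd_n_h159))))
      x2_t2b_c1_dd_n_h160) x2_t2b_c1_dd_n_h161) x2_t2b_c1_dd_n_h162))))) x2_t2b_c1_dd_n_h163))⟩

end Pool.Agent.Strip051.LC.E1.Ch
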