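import Pool.Agent.Strip051.LC.E1.Ch.Te

/-! # Rests near the full period: certificate P_x2_t2b_c1_dd_n_1 -/

set_option maxRecDepth 100000

namespace Pool.Agent.Strip051.LC.E1.Ch

open Pool.Agent.Strip051.PB
open Pool.Agent.Strip051.LC.E0.Ch (onCell Tree)

def x2_t2b_c1_dd_n_t0 : T :=
  (.l 15)

theorem x2_t2b_c1_dd_n_h0 : chk3 (onCell 0 1073741824 0 429496730 0 67108864 T2_t2b_c1_dd_n) x2_t2b_c1_dd_n_t0 2 1 1 = true := by decide +kernel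

def x2_t2b_c1_dd_n_t1 : T :=
  (.a (.l 15) (.b (.c (.l 3975) (.l 1927)) (.c (.l 4039) (.c (.l 2759) (.c (.l 2375) (.a (.l
      1927) (.b (.l 1923) (.l 1923))))))))

theorem x2_t2b_c1_dd_n_h1 : chk3 (onCell 0 1073741824 0 429496730 0 67108864 T2_t2b_c1_dd_n) x2_t2b_c1_dd_n_t1 6 2 1 = true := by decide +kernel

def x2_t2b_c1_dd_n_t2 : T :=
  (.l 15)

theorem x2_t2b_c1_dd_n_h2 : chk3 (onCell 0 1073741824 0 429496730 0 67108864 T2_t2b_c1_dd_n) x2_t2b_c1_dd_n_t2 12 3 1 = true := by decide +kernel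

def x2_t2b_c1_dd_n_t3 : T :=
  (.b (.c (.l 8135) (.l 4039)) (.c (.l 8135) (.c (.l 5447) (.c (.l 4679) (.c (.l 4423) (.b (.l
      4039) (.l 71)))))))

theorem x2_t2b_c1_dd_n_h3 : chk3 (onCell 0 1073741824 0 429496730 0 67108864 T2_t2b_c1_dd_n) x2_t2b_c1_dd_n_t3 13 6 2 = true := by decide +kernel

def x2_t2b_c1_dd_n_t4 : T :=
  (.b (.a (.l 1927) (.c (.l 2691) (.l 1923))) (.a (.c (.l 2759) (.c (.l 2375) (.c (.c (.l 71) (.a
      (.l 15) (.l 2183))) (.a (.l 15) (.l 1927))))) (.c (.l 2755) (.l 1987))))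

theorem x2_t2b_c1_dd_n_h4 : chk3 (onCell 0 1073741824 0 429496730 0 67108864 T2_t2b_c1_dd_n) x2_t2b_c1_dd_n_t4 13 12 3 = true := by decide +kernel

def x2_t2b_c1_dd_n_t5 : T :=
  (.l 2759)

theorem x2_t2b_c1_dd_n_h5 : chk3 (onCell 0 1073741824 0 429496730 0 67108864 T2_t2b_c1_dd_n) x2_t2b_c1_dd_n_t5 26 26 6 = true := by decide +kernel

def x2_t2b_c1_dd_n_t6 : T :=
  (.a (.l 15) (.c (.c (.c (.c (.l 4039) (.b (.l 3911) (.l 3911))) (.c (.b (.l 3783) (.l 3783))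
      (.b (.l 71) (.l 3655)))) (.c (.c (.b (.c (.l 3655) (.a (.l 3463) (.l 3459))) (.l 3527)) (.b
      (.c (.a (.l 3463) (.l 3459)) (.a (.l 3335) (.l 3331))) (.l 3399))) (.b (.c (.c (.a (.l
      3335) (.l 3331)) (.a (.l 3335) (.l 3331))) (.c (.a (.l 3207) (.l 3203)) (.a (.l 3207) (.l
      3203)))) (.l 3271)))) (.c (.c (.b (.c (.c (.a (.l 3207) (.l 3203)) (.a (.l 3079) (.l
      3075))) (.c (.a (.l 3079) (.l 3075)) (.a (.l 3079) (.l 3075)))) (.l 3143)) (.c (.c (.b (.a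
      (.l 3079) (.l 3075)) (.l 3143)) (.b (.a (.l 2951) (.l 2947)) (.l 3015))) (.b (.a (.l 2951)
      (.l 2947)) (.l 3015)))) (.c (.c (.b (.a (.l 2823) (.l 2819)) (.l 2887)) (.b (.a (.l 2823)
      (.l 2819)) (.l 2887))) (.c (.b (.c (.a (.l 2823) (.l 2819)) (.a (.l 2695) (.l 2691))) (.l
      2759)) (.b (.c (.a (.l 2695) (.l 2691)) (.a (.l 2695) (.l 2691))) (.l 2759)))))))

theorem x2_t2b_c1_dd_n_h6 : chk3 (onCell 0 1073741824 0 429496730 0 67108864 T2_t2b_c1_dd_n) x2_t2b_c1_dd_n_t6 26 27 6 = true := by decide +kernel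

def x2_t2b_c1_dd_n_t7 : T :=
  (.c (.c (.b (.l 2631) (.c (.a (.l 15) (.b (.c (.a (.l 2695) (.l 2691)) (.a (.l 2567) (.l
      2563))) (.l 2631))) (.a (.l 15) (.b (.c (.a (.l 2567) (.l 2563)) (.a (.l 2567) (.l 2563)))
      (.l 2631))))) (.b (.l 2503) (.a (.l 15) (.c (.b (.a (.l 2567) (.l 2563)) (.l 2631)) (.b (.a
      (.l 2439) (.l 2435)) (.l 71)))))) (.c (.b (.l 71) (.a (.l 15) (.c (.b (.a (.l 2439) (.l
      2435)) (.l 2503)) (.b (.a (.l 2311) (.l 2307)) (.l 71))))) (.b (.a (.l 15) (.c (.l 71) (.a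
      (.b (.l 2375) (.l 71)) (.l 2371)))) (.a (.l 15) (.c (.b (.a (.l 2311) (.l 2307)) (.b (.l
      2311) (.l 71))) (.b (.a (.l 2311) (.l 2307)) (.b (.l 2311) (.a (.c (.l 71) (.b (.l 2311)
      (.l 71))) (.l 2307)))))))))

theorem x2_t2b_c1_dd_n_h7 : chk3 (onCell 0 1073741824 0 429496730 0 67108864 T2_t2b_c1_dd_n) x2_t2b_c1_dd_n_t7 26 13 14 = true := by decide +kernel

def x2_t2b_c1_dd_n_t8 : T :=
  (.a (.l 15) (.c (.a (.b (.l 71) (.l 71)) (.b (.l 2179) (.l 2243))) (.a (.b (.l 71) (.b (.l 71)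
      (.l 71))) (.b (.l 2179) (.l 2243)))))

theorem x2_t2b_c1_dd_n_h8 : chk3 (onCell 0 1073741824 0 429496730 0 67108864 T2_t2b_c1_dd_n) x2_t2b_c1_dd_n_t8 26 26 60 = true := by decide +kernel

def x2_t2b_c1_dd_n_t9 : T :=
  (.l 15)

theorem x2_t2b_c1_dd_n_h9 : chk3 (onCell 0 1073741824 0 429496730 0 67108864 T2_t2b_c1_dd_n) x2_t2b_c1_dd_n_t9 52 26 61 = true := by decide +kernel

def x2_t2b_c1_dd_n_t10 : T :=
  (.a (.b (.c (.l 71) (.b (.l 2183) (.l 71))) (.b (.c (.a (.b (.l 71) (.l 71)) (.l 67)) (.a (.b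
      (.l 71) (.c (.l 71) (.l 71))) (.l 67))) (.c (.a (.l 2183) (.l 3)) (.a (.l 2183) (.l 3)))))
      (.b (.l 2179) (.l 2243)))

theorem x2_t2b_c1_dd_n_h10 : chk3 (onCell 0 1073741824 0 429496730 0 67108864 T2_t2b_c1_dd_n) x2_t2b_c1_dd_n_t10 53 26 122 = true := by decide +kernel

def x2_t2b_c1_dd_n_t11 : T :=
  (.a (.b (.c (.b (.l 2183) (.a (.c (.l 71) (.b (.l 2183) (.l 71))) (.l 3))) (.b (.l 2183) (.a
      (.c (.b (.l 2183) (.a (.l 15) (.l 99))) (.b (.l 2183) (.a (.l 15) (.l 99)))) (.l 3)))) (.b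
      (.c (.a (.b (.c (.a (.l 15) (.c (.l 71) (.b (.l 71) (.l 71)))) (.a (.l 15) (.c (.b (.l 71)
      (.l 71)) (.b (.l 71) (.a (.l 99) (.l 3)))))) (.c (.a (.l 15) (.l 99)) (.a (.l 15) (.l
      99)))) (.l 67)) (.a (.b (.c (.a (.l 15) (.c (.b (.a (.l 99) (.l 3)) (.a (.l 99) (.l 3)))
      (.b (.a (.l 99) (.l 3)) (.a (.l 99) (.l 3))))) (.a (.l 15) (.c (.b (.a (.l 99) (.l 3)) (.a
      (.l 99) (.l 3))) (.b (.a (.l 99) (.l 3)) (.a (.l 99) (.l 3)))))) (.c (.a (.l 15) (.l 99))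
      (.a (.l 15) (.l 99)))) (.l 67))) (.c (.a (.l 2183) (.l 3)) (.a (.l 2183) (.l 3))))) (.b (.l
      2179) (.l 2243)))

theorem x2_t2b_c1_dd_n_h11 : chk3 (onCell 0 1073741824 0 429496730 0 67108864 T2_t2b_c1_dd_n) x2_t2b_c1_dd_n_t11 53 26 123 = true := by decide +kernel

def x2_t2b_c1_dd_n_t12 : T :=
  (.a (.l 15) (.c (.b (.a (.l 2183) (.l 2179)) (.b (.l 7) (.a (.c (.b (.l 2311) (.a (.c (.b (.l
      71) (.l 71)) (.b (.a (.l 15) (.l 2311)) (.l 71))) (.l 3))) (.b (.l 7) (.a (.c (.b (.a (.l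
      15) (.l 2311)) (.a (.l 15) (.l 2311))) (.b (.a (.l 15) (.l 7)) (.a (.l 15) (.l 7)))) (.l
      3)))) (.l 2179)))) (.a (.b (.l 2183) (.b (.l 7) (.c (.b (.l 7) (.a (.c (.b (.a (.l 15) (.l
      7)) (.a (.l 15) (.l 7))) (.b (.a (.l 15) (.l 7)) (.a (.l 15) (.l 7)))) (.l 3))) (.b (.l 7)
      (.a (.c (.b (.a (.l 15) (.l 7)) (.a (.l 15) (.l 7))) (.b (.a (.l 15) (.l 7)) (.a (.l 15)
      (.l 7)))) (.l 3)))))) (.l 2179))))

theorem x2_t2b_c1_dd_n_h12 : chk3 (onCell 0 1073741824 0 429496730 0 67108864 T2_t2b_c1_dd_n) x2_t2b_c1_dd_n_t12 26 27 60 = true := by decide +kernel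

def x2_t2b_c1_dd_n_t13 : T :=
  (.a (.l 15) (.c (.a (.b (.l 2183) (.b (.l 7) (.c (.b (.l 7) (.a (.c (.b (.a (.l 15) (.l 7)) (.a
      (.l 15) (.l 7))) (.b (.a (.l 15) (.l 7)) (.a (.l 15) (.l 7)))) (.l 3))) (.b (.l 7) (.a (.c
      (.b (.a (.l 15) (.l 7)) (.a (.l 15) (.l 7))) (.b (.a (.l 15) (.l 7)) (.a (.l 15) (.l 7))))
      (.l 3)))))) (.l 2179)) (.a (.b (.l 2183) (.b (.c (.a (.l 2183) (.l 3)) (.a (.l 2183) (.l
      3))) (.c (.b (.l 7) (.a (.c (.b (.a (.l 15) (.l 7)) (.a (.l 15) (.l 7))) (.b (.a (.l 15)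
      (.l 7)) (.a (.l 15) (.l 7)))) (.l 3))) (.b (.a (.c (.l 2183) (.a (.l 15) (.l 99))) (.l 3))
      (.a (.c (.b (.a (.l 15) (.l 7)) (.a (.l 15) (.l 7))) (.b (.a (.l 15) (.l 7)) (.a (.l 15)
      (.l 7)))) (.l 3)))))) (.l 2179))))

theorem x2_t2b_c1_dd_n_h13 : chk3 (onCell 0 1073741824 0 429496730 0 67108864 T2_t2b_c1_dd_n) x2_t2b_c1_dd_n_t13 26 27 61 = true := by decide +kernel

def x2_t2b_c1_dd_n_t14 : T :=
  (.l 15)

theorem x2_t2b_c1_dd_n_h14 : chk3 (onCell 0 1073741824 0 429496730 0 67108864 T2_t2b_c1_dd_n) x2_t2b_c1_dd_n_t14 52 26 62 = true := by decide +kernel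

def x2_t2b_c1_dd_n_t15 : T :=
  (.a (.b (.b (.l 2055) (.c (.a (.b (.l 2055) (.c (.a (.l 15) (.l 99)) (.a (.l 15) (.l 99)))) (.l
      3)) (.a (.b (.l 2055) (.c (.a (.l 15) (.l 99)) (.a (.l 15) (.l 99)))) (.l 3)))) (.b (.c (.a
      (.b (.c (.a (.l 15) (.c (.b (.a (.l 99) (.l 3)) (.l 99)) (.b (.l 99) (.l 99)))) (.a (.l 15)
      (.c (.b (.l 99) (.l 99)) (.b (.l 99) (.l 99))))) (.c (.a (.l 15) (.l 99)) (.a (.l 15) (.l
      99)))) (.l 67)) (.a (.b (.c (.a (.l 15) (.c (.b (.l 99) (.l 99)) (.b (.l 99) (.l 99)))) (.a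
      (.l 15) (.c (.b (.l 99) (.l 99)) (.b (.l 99) (.l 99))))) (.c (.a (.l 15) (.l 99)) (.a (.l
      15) (.l 99)))) (.l 67))) (.c (.a (.l 2055) (.l 3)) (.a (.l 2055) (.l 3))))) (.b (.l 2051)
      (.l 2115)))

theorem x2_t2b_c1_dd_n_h15 : chk3 (onCell 0 1073741824 0 429496730 0 67108864 T2_t2b_c1_dd_n) x2_t2b_c1_dd_n_t15 53 26 124 = true := by decide +kernel

def x2_t2b_c1_dd_n_t16 : T :=
  (.b (.l 2055) (.c (.a (.b (.l 2055) (.c (.a (.b (.l 2055) (.c (.l 15) (.a (.l 15) (.l 2055))))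
      (.l 99)) (.a (.b (.l 2055) (.c (.a (.l 15) (.l 2055)) (.a (.l 15) (.l 2055)))) (.l 99))))
      (.l 3)) (.a (.b (.l 2055) (.c (.a (.b (.l 2055) (.c (.a (.l 15) (.l 2055)) (.a (.l 15) (.l
      2055)))) (.l 99)) (.a (.b (.l 2055) (.c (.a (.l 15) (.l 2055)) (.a (.l 15) (.l 2055)))) (.l
      99)))) (.l 3))))

theorem x2_t2b_c1_dd_n_h16 : chk3 (onCell 0 1073741824 0 429496730 0 67108864 T2_t2b_c1_dd_n) x2_t2b_c1_dd_n_t16 106 52 125 = true := by decide +kernel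

def x2_t2b_c1_dd_n_t17 : T :=
  (.a (.c (.l 15) (.b (.a (.l 15) (.b (.c (.a (.l 15) (.l 2055)) (.a (.l 15) (.l 2055))) (.c (.a
      (.l 15) (.b (.c (.l 15) (.a (.l 15) (.l 2055))) (.c (.l 15) (.a (.l 15) (.b (.a (.l 15) (.l
      99)) (.a (.l 15) (.l 99))))))) (.a (.l 15) (.b (.c (.a (.l 15) (.l 2055)) (.a (.l 15) (.l
      2055))) (.c (.a (.l 15) (.b (.a (.l 15) (.l 99)) (.a (.l 15) (.l 99)))) (.a (.l 15) (.b (.a
      (.l 15) (.l 99)) (.a (.l 15) (.l 99)))))))))) (.a (.l 15) (.b (.c (.a (.l 15) (.b (.c (.l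
      15) (.a (.l 15) (.b (.a (.l 15) (.l 99)) (.l 2055)))) (.l 2055))) (.a (.l 15) (.b (.c (.a
      (.l 15) (.b (.a (.l 15) (.l 99)) (.l 2055))) (.a (.l 15) (.b (.a (.l 15) (.l 99)) (.l
      2055)))) (.l 2055)))) (.l 2055))))) (.c (.b (.l 99) (.l 99)) (.b (.l 99) (.l 99))))

theorem x2_t2b_c1_dd_n_h17 : chk3 (onCell 0 1073741824 0 429496730 0 67108864 T2_t2b_c1_dd_n) x2_t2b_c1_dd_n_t17 212 212 500 = true := by decide +kernel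

def x2_t2b_c1_dd_n_t18 : T :=
  (.a (.l 15) (.b (.c (.a (.l 15) (.l 2055)) (.a (.l 15) (.l 2055))) (.c (.a (.l 15) (.b (.c (.a
      (.l 15) (.l 2055)) (.a (.l 15) (.l 2055))) (.c (.a (.l 15) (.b (.a (.l 15) (.l 99)) (.a (.l
      15) (.l 99)))) (.a (.l 15) (.b (.a (.l 15) (.l 99)) (.a (.l 15) (.l 99))))))) (.a (.l 15)
      (.b (.c (.a (.l 15) (.l 2055)) (.a (.l 15) (.l 2055))) (.c (.a (.l 15) (.b (.a (.l 15) (.l
      99)) (.a (.l 15) (.l 99)))) (.a (.l 15) (.b (.a (.l 15) (.l 99)) (.a (.l 15) (.l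
      99))))))))))

theorem x2_t2b_c1_dd_n_h18 : chk3 (onCell 0 1073741824 0 429496730 0 67108864 T2_t2b_c1_dd_n) x2_t2b_c1_dd_n_t18 424 424 1002 = true := by decide +kernel

def x2_t2b_c1_dd_n_t19 : T :=
  (.a (.l 15) (.b (.c (.a (.l 15) (.l 2055)) (.a (.l 15) (.l 2055))) (.c (.a (.l 15) (.b (.c (.a
      (.l 15) (.l 2055)) (.a (.l 15) (.l 2055))) (.c (.a (.l 15) (.b (.a (.l 15) (.l 99)) (.a (.l
      15) (.l 99)))) (.a (.l 15) (.b (.a (.l 15) (.l 99)) (.a (.l 15) (.l 99))))))) (.a (.l 15)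
      (.b (.c (.a (.l 15) (.l 2055)) (.a (.l 15) (.l 2055))) (.c (.a (.l 15) (.b (.a (.l 15) (.l
      99)) (.a (.l 15) (.l 99)))) (.a (.l 15) (.b (.a (.l 15) (.l 99)) (.a (.l 15) (.l
      99))))))))))

theorem x2_t2b_c1_dd_n_h19 : chk3 (onCell 0 1073741824 0 429496730 0 67108864 T2_t2b_c1_dd_n) x2_t2b_c1_dd_n_t19 424 424 1003 = true := by decide +kernel

def x2_t2b_c1_dd_n_t20 : T :=
  (.c (.a (.l 15) (.b (.c (.a (.l 15) (.b (.c (.a (.l 15) (.b (.a (.l 15) (.l 99)) (.l 2055)))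
      (.a (.l 15) (.b (.a (.l 15) (.l 99)) (.l 2055)))) (.l 2055))) (.a (.l 15) (.b (.c (.a (.l
      15) (.b (.a (.l 15) (.l 99)) (.l 2055))) (.a (.l 15) (.b (.a (.l 15) (.l 99)) (.l 2055))))
      (.l 2055)))) (.l 2055))) (.a (.l 15) (.b (.c (.a (.l 15) (.b (.c (.a (.l 15) (.b (.a (.l
      15) (.l 99)) (.l 2055))) (.a (.l 15) (.b (.a (.l 15) (.l 99)) (.l 2055)))) (.l 2055))) (.a
      (.l 15) (.b (.c (.a (.l 15) (.b (.a (.l 15) (.l 99)) (.l 2055))) (.a (.l 15) (.b (.a (.l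
      15) (.l 99)) (.l 2055)))) (.l 2055)))) (.l 2055))))

theorem x2_t2b_c1_dd_n_h20 : chk3 (onCell 0 1073741824 0 429496730 0 67108864 T2_t2b_c1_dd_n) x2_t2b_c1_dd_n_t20 424 425 501 = true := by decide +kernel

def x2_t2b_c1_dd_n_t21 : T :=
  (.c (.b (.l 99) (.l 99)) (.b (.l 99) (.l 99)))

theorem x2_t2b_c1_dd_n_h21 : chk3 (onCell 0 1073741824 0 429496730 0 67108864 T2_t2b_c1_dd_n) x2_t2b_c1_dd_n_t21 425 212 501 = true := by decide +kernel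

def x2_t2b_c1_dd_n_t22 : T :=
  (.c (.a (.l 2055) (.l 99)) (.a (.l 2055) (.l 99)))

theorem x2_t2b_c1_dd_n_h22 : chk3 (onCell 0 1073741824 0 429496730 0 67108864 T2_t2b_c1_dd_n) x2_t2b_c1_dd_n_t22 212 213 250 = true := by decide +kernel

def x2_t2b_c1_dd_n_t23 : T :=
  (.l 67)

theorem x2_t2b_c1_dd_n_h23 : chk3 (onCell 0 1073741824 0 429496730 0 67108864 T2_t2b_c1_dd_n) x2_t2b_c1_dd_n_t23 213 106 250 = true := by decide +kernel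

def x2_t2b_c1_dd_n_t24 : T :=
  (.c (.a (.l 15) (.b (.c (.a (.l 15) (.l 2055)) (.a (.l 15) (.l 2055))) (.c (.a (.l 15) (.b (.c
      (.a (.l 15) (.l 2055)) (.a (.l 15) (.l 2055))) (.c (.a (.l 15) (.b (.a (.l 15) (.l 99)) (.a
      (.l 15) (.l 99)))) (.a (.l 15) (.b (.a (.l 15) (.l 99)) (.a (.l 15) (.l 99))))))) (.a (.l
      15) (.b (.c (.a (.l 15) (.l 2055)) (.a (.l 15) (.l 2055))) (.c (.a (.l 15) (.a (.l 15) (.l
      99))) (.a (.l 15) (.a (.l 15) (.l 99))))))))) (.a (.l 15) (.b (.c (.a (.l 15) (.l 2055))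
      (.a (.l 15) (.l 2055))) (.c (.a (.l 15) (.b (.c (.a (.l 15) (.l 2055)) (.a (.l 15) (.l
      2055))) (.c (.a (.l 15) (.a (.l 15) (.l 99))) (.a (.l 15) (.a (.l 15) (.l 99)))))) (.a (.l
      15) (.b (.c (.a (.l 15) (.l 2055)) (.a (.l 15) (.l 2055))) (.c (.a (.l 15) (.a (.l 15) (.l
      99))) (.a (.l 15) (.a (.l 15) (.l 99))))))))))

theorem x2_t2b_c1_dd_n_h24 : chk3 (onCell 0 1073741824 0 429496730 0 67108864 T2_t2b_c1_dd_n) x2_t2b_c1_dd_n_t24 424 424 502 = true := by decide +kernel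

def x2_t2b_c1_dd_n_t25 : T :=
  (.c (.a (.l 15) (.b (.c (.a (.l 15) (.b (.c (.a (.l 15) (.b (.a (.l 15) (.l 99)) (.l 2055)))
      (.a (.l 15) (.b (.a (.l 15) (.l 99)) (.l 2055)))) (.l 2055))) (.a (.l 15) (.b (.c (.a (.l
      15) (.b (.a (.l 15) (.l 99)) (.l 2055))) (.a (.l 15) (.b (.a (.l 15) (.l 99)) (.l 2055))))
      (.l 2055)))) (.l 2055))) (.a (.l 15) (.b (.c (.a (.l 15) (.b (.c (.a (.l 15) (.b (.a (.l
      15) (.l 99)) (.l 2055))) (.a (.l 15) (.b (.a (.l 15) (.l 99)) (.l 2055)))) (.l 2055))) (.a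
      (.l 15) (.b (.c (.a (.l 15) (.b (.a (.l 15) (.l 99)) (.l 2055))) (.a (.l 15) (.b (.a (.l
      15) (.l 99)) (.l 2055)))) (.l 2055)))) (.l 2055))))

theorem x2_t2b_c1_dd_n_h25 : chk3 (onCell 0 1073741824 0 429496730 0 67108864 T2_t2b_c1_dd_n) x2_t2b_c1_dd_n_t25 424 425 502 = true := by decide +kernel

def x2_t2b_c1_dd_n_t26 : T :=
  (.b (.l 99) (.l 99))

theorem x2_t2b_c1_dd_n_h26 : chk3 (onCell 0 1073741824 0 429496730 0 67108864 T2_t2b_c1_dd_n) x2_t2b_c1_dd_n_t26 425 212 502 = true := by decide +kernel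

def x2_t2b_c1_dd_n_t27 : T :=
  (.c (.a (.l 15) (.b (.c (.a (.l 15) (.l 2055)) (.a (.l 15) (.l 2055))) (.c (.a (.l 15) (.b (.c
      (.a (.l 15) (.l 2055)) (.a (.l 15) (.l 2055))) (.c (.a (.l 15) (.a (.l 15) (.l 99))) (.a
      (.l 15) (.a (.l 15) (.l 99)))))) (.a (.l 15) (.b (.c (.a (.l 15) (.l 2055)) (.a (.l 15) (.l
      2055))) (.c (.a (.l 15) (.a (.l 15) (.l 99))) (.a (.l 15) (.a (.l 15) (.l 99))))))))) (.a
      (.l 15) (.b (.c (.a (.l 15) (.l 2055)) (.a (.l 15) (.l 2055))) (.c (.a (.l 15) (.c (.b (.a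
      (.l 15) (.l 2055)) (.a (.l 15) (.a (.l 15) (.l 99)))) (.b (.a (.l 15) (.l 2055)) (.a (.l
      15) (.a (.l 15) (.l 99)))))) (.a (.l 15) (.c (.b (.a (.l 15) (.l 2055)) (.a (.l 15) (.a (.l
      15) (.l 99)))) (.b (.a (.l 15) (.l 2055)) (.a (.l 15) (.a (.l 15) (.l 99))))))))))

theorem x2_t2b_c1_dd_n_h27 : chk3 (onCell 0 1073741824 0 429496730 0 67108864 T2_t2b_c1_dd_n) x2_t2b_c1_dd_n_t27 424 424 503 = true := by decide +kernel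

def x2_t2b_c1_dd_n_t28 : T :=
  (.a (.l 15) (.c (.b (.c (.a (.l 15) (.b (.c (.a (.l 15) (.b (.a (.l 15) (.l 99)) (.l 99))) (.a
      (.l 15) (.b (.a (.l 15) (.l 99)) (.l 99)))) (.l 2055))) (.a (.l 15) (.b (.c (.a (.l 15) (.b
      (.a (.l 15) (.l 99)) (.l 99))) (.a (.l 15) (.b (.a (.l 15) (.l 99)) (.l 99)))) (.l 2055))))
      (.l 2055)) (.b (.a (.l 15) (.c (.b (.a (.l 15) (.c (.b (.a (.l 15) (.l 99)) (.l 99)) (.b
      (.a (.l 15) (.l 99)) (.l 99)))) (.l 2055)) (.b (.a (.l 15) (.c (.b (.a (.l 15) (.l 99)) (.l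
      99)) (.b (.a (.l 15) (.l 99)) (.l 99)))) (.l 2055)))) (.l 2055))))

theorem x2_t2b_c1_dd_n_h28 : chk3 (onCell 0 1073741824 0 429496730 0 67108864 T2_t2b_c1_dd_n) x2_t2b_c1_dd_n_t28 424 425 503 = true := by decide +kernel

def x2_t2b_c1_dd_n_t29 : T :=
  (.b (.l 99) (.l 99))

theorem x2_t2b_c1_dd_n_h29 : chk3 (onCell 0 1073741824 0 429496730 0 67108864 T2_t2b_c1_dd_n) x2_t2b_c1_dd_n_t29 425 212 503 = true := by decide +kernel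

def x2_t2b_c1_dd_n_t30 : T :=
  (.c (.a (.l 2055) (.l 67)) (.a (.l 2055) (.l 3)))

theorem x2_t2b_c1_dd_n_h30 : chk3 (onCell 0 1073741824 0 429496730 0 67108864 T2_t2b_c1_dd_n) x2_t2b_c1_dd_n_t30 212 213 251 = true := by decide +kernel

def x2_t2b_c1_dd_n_t31 : T :=
  (.l 67)

theorem x2_t2b_c1_dd_n_h31 : chk3 (onCell 0 1073741824 0 429496730 0 67108864 T2_t2b_c1_dd_n) x2_t2b_c1_dd_n_t31 213 106 251 = true := by decide +kernel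

def x2_t2b_c1_dd_n_t32 : T :=
  (.c (.a (.l 2055) (.l 3)) (.a (.l 2055) (.l 3)))

theorem x2_t2b_c1_dd_n_h32 : chk3 (onCell 0 1073741824 0 429496730 0 67108864 T2_t2b_c1_dd_n) x2_t2b_c1_dd_n_t32 106 107 125 = true := by decide +kernel

def x2_t2b_c1_dd_n_t33 : T :=
  (.b (.l 2051) (.l 2115))

theorem x2_t2b_c1_dd_n_h33 : chk3 (onCell 0 1073741824 0 429496730 0 67108864 T2_t2b_c1_dd_n) x2_t2b_c1_dd_n_t33 107 26 125 = true := by decide +kernel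

def x2_t2b_c1_dd_n_t34 : T :=
  (.l 15)

theorem x2_t2b_c1_dd_n_h34 : chk3 (onCell 0 1073741824 0 429496730 0 67108864 T2_t2b_c1_dd_n) x2_t2b_c1_dd_n_t34 52 26 63 = true := by decide +kernel

def x2_t2b_c1_dd_n_t35 : T :=
  (.b (.l 2055) (.a (.c (.b (.l 2055) (.a (.c (.b (.l 2055) (.c (.a (.l 15) (.l 2055)) (.a (.l
      15) (.l 2055)))) (.b (.l 2055) (.a (.l 15) (.l 2055)))) (.l 99))) (.b (.l 2055) (.a (.c (.b
      (.l 2055) (.a (.l 15) (.l 2055))) (.b (.l 2055) (.a (.l 15) (.l 2055)))) (.l 99)))) (.l 3)))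

theorem x2_t2b_c1_dd_n_h35 : chk3 (onCell 0 1073741824 0 429496730 0 67108864 T2_t2b_c1_dd_n) x2_t2b_c1_dd_n_t35 106 52 126 = true := by decide +kernel

def x2_t2b_c1_dd_n_t36 : T :=
  (.c (.a (.l 15) (.b (.c (.a (.l 15) (.l 2055)) (.a (.l 15) (.l 2055))) (.c (.a (.l 15) (.c (.b
      (.a (.l 15) (.l 2055)) (.a (.l 15) (.a (.l 15) (.l 99)))) (.a (.l 15) (.b (.l 2055) (.a (.l
      15) (.l 99)))))) (.a (.l 15) (.c (.a (.l 15) (.b (.l 2055) (.a (.l 15) (.l 99)))) (.a (.l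
      15) (.b (.l 2055) (.a (.l 15) (.l 99))))))))) (.a (.l 15) (.b (.c (.a (.l 15) (.l 2055))
      (.a (.l 15) (.l 2055))) (.a (.l 15) (.c (.c (.a (.l 15) (.b (.l 2055) (.a (.l 15) (.l
      99)))) (.a (.l 15) (.b (.l 99) (.a (.l 15) (.l 99))))) (.a (.l 15) (.c (.b (.l 99) (.a (.l
      15) (.l 99))) (.b (.l 99) (.a (.l 15) (.l 99))))))))))

theorem x2_t2b_c1_dd_n_h36 : chk3 (onCell 0 1073741824 0 429496730 0 67108864 T2_t2b_c1_dd_n) x2_t2b_c1_dd_n_t36 424 424 504 = true := by decide +kernel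

def x2_t2b_c1_dd_n_t37 : T :=
  (.a (.l 15) (.c (.b (.a (.l 15) (.c (.b (.a (.l 15) (.c (.b (.a (.l 15) (.l 99)) (.l 99)) (.b
      (.a (.l 15) (.l 99)) (.l 99)))) (.l 2055)) (.b (.a (.l 15) (.c (.b (.a (.l 15) (.l 99)) (.l
      99)) (.b (.a (.l 15) (.l 99)) (.l 99)))) (.l 2055)))) (.l 2055)) (.b (.a (.l 15) (.c (.b
      (.a (.l 15) (.c (.b (.l 99) (.l 99)) (.l 99))) (.l 2055)) (.b (.a (.l 15) (.l 99)) (.l
      2055)))) (.l 2055))))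

theorem x2_t2b_c1_dd_n_h37 : chk3 (onCell 0 1073741824 0 429496730 0 67108864 T2_t2b_c1_dd_n) x2_t2b_c1_dd_n_t37 424 425 504 = true := by decide +kernel

def x2_t2b_c1_dd_n_t38 : T :=
  (.b (.a (.l 15) (.c (.b (.a (.l 15) (.l 2055)) (.a (.l 15) (.c (.a (.l 15) (.c (.b (.l 99) (.a
      (.l 15) (.l 99))) (.b (.l 99) (.a (.l 15) (.l 99))))) (.a (.l 15) (.c (.b (.l 99) (.a (.l
      15) (.l 99))) (.b (.l 99) (.a (.l 15) (.l 99)))))))) (.b (.a (.l 15) (.l 2055)) (.a (.l 15)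
      (.c (.a (.l 15) (.c (.b (.l 99) (.a (.l 15) (.l 99))) (.b (.l 99) (.a (.l 15) (.l 99)))))
      (.a (.l 15) (.c (.b (.l 99) (.a (.l 15) (.l 99))) (.b (.l 99) (.a (.l 15) (.l 99))))))))))
      (.a (.l 15) (.c (.b (.a (.l 15) (.c (.b (.a (.l 15) (.l 99)) (.l 2055)) (.b (.a (.l 15) (.l
      99)) (.l 2055)))) (.l 2055)) (.b (.a (.l 15) (.c (.b (.a (.l 15) (.l 99)) (.l 2055)) (.b
      (.a (.l 15) (.l 99)) (.l 2055)))) (.l 2055)))))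

theorem x2_t2b_c1_dd_n_h38 : chk3 (onCell 0 1073741824 0 429496730 0 67108864 T2_t2b_c1_dd_n) x2_t2b_c1_dd_n_t38 424 212 505 = true := by decide +kernel

def x2_t2b_c1_dd_n_t39 : T :=
  (.c (.b (.l 99) (.l 99)) (.b (.l 99) (.l 99)))

theorem x2_t2b_c1_dd_n_h39 : chk3 (onCell 0 1073741824 0 429496730 0 67108864 T2_t2b_c1_dd_n) x2_t2b_c1_dd_n_t39 425 212 252 = true := by decide +kernel

def x2_t2b_c1_dd_n_t40 : T :=
  (.a (.l 2055) (.l 3))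

theorem x2_t2b_c1_dd_n_h40 : chk3 (onCell 0 1073741824 0 429496730 0 67108864 T2_t2b_c1_dd_n) x2_t2b_c1_dd_n_t40 212 213 252 = true := by decide +kernel

def x2_t2b_c1_dd_n_t41 : T :=
  (.b (.a (.l 15) (.c (.b (.a (.l 15) (.l 2055)) (.a (.l 15) (.c (.a (.l 15) (.c (.b (.l 99) (.a
      (.l 15) (.l 99))) (.b (.l 99) (.a (.l 15) (.l 99))))) (.a (.l 15) (.c (.b (.l 99) (.a (.l
      15) (.l 99))) (.b (.l 99) (.a (.l 15) (.l 99)))))))) (.b (.a (.l 15) (.l 2055)) (.a (.l 15)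
      (.c (.a (.l 15) (.c (.b (.l 99) (.l 99)) (.b (.l 99) (.l 99)))) (.a (.l 15) (.c (.b (.l 99)
      (.l 99)) (.b (.l 99) (.l 99))))))))) (.a (.l 15) (.c (.b (.a (.l 15) (.c (.b (.a (.l 15)
      (.l 99)) (.l 2055)) (.b (.a (.l 15) (.l 99)) (.l 2055)))) (.l 2055)) (.b (.a (.l 15) (.c
      (.b (.a (.l 15) (.l 99)) (.l 2055)) (.b (.a (.l 15) (.l 99)) (.l 2055)))) (.l 2055)))))

theorem x2_t2b_c1_dd_n_h41 : chk3 (onCell 0 1073741824 0 429496730 0 67108864 T2_t2b_c1_dd_n) x2_t2b_c1_dd_n_t41 424 212 506 = true := by decide +kernel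

def x2_t2b_c1_dd_n_t42 : T :=
  (.b (.a (.l 15) (.c (.b (.a (.l 15) (.l 2055)) (.a (.l 15) (.c (.a (.l 15) (.c (.b (.l 99) (.l
      99)) (.l 99))) (.a (.l 15) (.l 99))))) (.b (.a (.l 15) (.l 2055)) (.a (.l 15) (.c (.a (.l
      15) (.l 99)) (.a (.l 15) (.l 99))))))) (.a (.l 15) (.c (.b (.a (.l 15) (.c (.b (.a (.l 15)
      (.l 99)) (.l 2055)) (.b (.a (.l 15) (.l 99)) (.l 2055)))) (.l 2055)) (.b (.a (.l 15) (.c
      (.b (.a (.l 15) (.l 99)) (.l 2055)) (.b (.a (.l 15) (.l 99)) (.l 2055)))) (.l 2055)))))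

theorem x2_t2b_c1_dd_n_h42 : chk3 (onCell 0 1073741824 0 429496730 0 67108864 T2_t2b_c1_dd_n) x2_t2b_c1_dd_n_t42 424 212 507 = true := by decide +kernel

def x2_t2b_c1_dd_n_t43 : T :=
  (.c (.b (.l 99) (.l 99)) (.b (.l 99) (.l 99)))

theorem x2_t2b_c1_dd_n_h43 : chk3 (onCell 0 1073741824 0 429496730 0 67108864 T2_t2b_c1_dd_n) x2_t2b_c1_dd_n_t43 425 212 253 = true := by decide +kernel

def x2_t2b_c1_dd_n_t44 : T :=
  (.a (.l 2055) (.l 3))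

theorem x2_t2b_c1_dd_n_h44 : chk3 (onCell 0 1073741824 0 429496730 0 67108864 T2_t2b_c1_dd_n) x2_t2b_c1_dd_n_t44 212 213 253 = true := by decide +kernel

def x2_t2b_c1_dd_n_t45 : T :=
  (.l 67)

theorem x2_t2b_c1_dd_n_h45 : chk3 (onCell 0 1073741824 0 429496730 0 67108864 T2_t2b_c1_dd_n) x2_t2b_c1_dd_n_t45 213 106 126 = true := by decide +kernel

def x2_t2b_c1_dd_n_t46 : T :=
  (.a (.l 2055) (.l 3))

theorem x2_t2b_c1_dd_n_h46 : chk3 (onCell 0 1073741824 0 429496730 0 67108864 T2_t2b_c1_dd_n) x2_t2b_c1_dd_n_t46 106 107 126 = true := by decide +kernel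

def x2_t2b_c1_dd_n_t47 : T :=
  (.b (.l 1927) (.a (.c (.b (.l 2055) (.a (.c (.b (.l 2055) (.a (.l 15) (.l 2055))) (.b (.l 2055)
      (.a (.l 15) (.l 2055)))) (.l 99))) (.b (.l 1927) (.a (.c (.b (.l 2055) (.a (.l 15) (.l
      2055))) (.b (.l 1927) (.a (.l 15) (.l 1927)))) (.l 99)))) (.l 3)))

theorem x2_t2b_c1_dd_n_h47 : chk3 (onCell 0 1073741824 0 429496730 0 67108864 T2_t2b_c1_dd_n) x2_t2b_c1_dd_n_t47 106 52 127 = true := by decide +kernel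

def x2_t2b_c1_dd_n_t48 : T :=
  (.b (.a (.l 15) (.c (.b (.a (.l 15) (.l 2055)) (.a (.l 15) (.c (.a (.l 15) (.l 99)) (.a (.l 15)
      (.l 99))))) (.a (.l 15) (.b (.l 2055) (.c (.a (.l 15) (.l 99)) (.a (.l 15) (.l 99)))))))
      (.a (.l 15) (.c (.b (.a (.l 15) (.c (.b (.a (.l 15) (.l 99)) (.l 2055)) (.b (.a (.l 15) (.l
      99)) (.l 2055)))) (.l 2055)) (.b (.a (.l 15) (.c (.b (.a (.l 15) (.l 99)) (.l 2055)) (.b
      (.a (.l 15) (.l 99)) (.l 2055)))) (.l 2055)))))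

theorem x2_t2b_c1_dd_n_h48 : chk3 (onCell 0 1073741824 0 429496730 0 67108864 T2_t2b_c1_dd_n) x2_t2b_c1_dd_n_t48 424 212 508 = true := by decide +kernel

end Pool.Agent.Strip051.LC.E1.Ch
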