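import Pool.Agent.Strip051.LC.E1.Ch.Te

/-! # Rests near the full period: certificate P_x2_t3a_c1_n_2 -/

set_option maxRecDepth 100000

namespace Pool.Agent.Strip051.LC.E1.Ch

open Pool.Agent.Strip051.PB
open Pool.Agent.Strip051.LC.E0.Ch (onCell Tree)

def x2_t3a_c1_n_t55 : T :=
  (.b (.l 2759) (.a (.l 15) (.c (.b (.l 2695) (.a (.l 15) (.c (.b (.l 2695) (.a (.l 15) (.c (.b
      (.l 2695) (.a (.l 15) (.l 99))) (.b (.l 2695) (.a (.l 15) (.l 99)))))) (.b (.l 2695) (.a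
      (.l 15) (.c (.b (.l 2695) (.a (.l 15) (.l 99))) (.b (.l 2695) (.a (.l 15) (.l 99)))))))))
      (.b (.l 2695) (.a (.l 15) (.c (.b (.l 2695) (.a (.l 15) (.c (.b (.l 2695) (.a (.l 15) (.l
      99))) (.b (.l 2695) (.a (.l 15) (.l 99)))))) (.b (.l 2695) (.a (.l 15) (.c (.b (.l 2695)
      (.a (.l 15) (.l 99))) (.b (.l 2695) (.a (.l 15) (.l 99))))))))))))

theorem x2_t3a_c1_n_h55 : chk3 (onCell 0 1073741824 0 429496730 0 67108864 T2_t3a_c1_n) x2_t3a_c1_n_t55 339 106 448 = true := by decide +kernel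

def x2_t3a_c1_n_t56 : T :=
  (.b (.l 2759) (.a (.l 15) (.c (.b (.l 2695) (.a (.l 15) (.c (.b (.l 2695) (.a (.l 15) (.c (.b
      (.l 2695) (.a (.l 15) (.l 99))) (.b (.l 2695) (.a (.l 15) (.l 99)))))) (.b (.l 2695) (.a
      (.l 15) (.c (.b (.l 2695) (.a (.l 15) (.l 99))) (.b (.l 2695) (.a (.l 15) (.l 99)))))))))
      (.b (.l 2695) (.a (.l 15) (.c (.b (.l 2695) (.a (.l 15) (.c (.b (.l 2695) (.a (.l 15) (.l
      99))) (.b (.l 2695) (.a (.l 15) (.l 99)))))) (.b (.l 2695) (.a (.l 15) (.c (.b (.l 2695)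
      (.a (.l 15) (.l 99))) (.b (.l 2695) (.a (.l 15) (.l 99))))))))))))

theorem x2_t3a_c1_n_h56 : chk3 (onCell 0 1073741824 0 429496730 0 67108864 T2_t3a_c1_n) x2_t3a_c1_n_t56 339 106 449 = true := by decide +kernel

def x2_t3a_c1_n_t57 : T :=
  (.l 15)

theorem x2_t3a_c1_n_h57 : chk3 (onCell 0 1073741824 0 429496730 0 67108864 T2_t3a_c1_n) x2_t3a_c1_n_t57 338 106 225 = true := by decide +kernel

def x2_t3a_c1_n_t58 : T :=
  (.b (.l 2695) (.a (.l 15) (.c (.b (.l 2695) (.a (.l 15) (.c (.b (.l 2695) (.a (.l 15) (.c (.b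
      (.l 2695) (.a (.l 15) (.l 99))) (.b (.l 2695) (.a (.l 15) (.l 99)))))) (.b (.l 2695) (.a
      (.l 15) (.c (.b (.l 2695) (.a (.l 15) (.l 99))) (.b (.l 2695) (.a (.l 15) (.l 99)))))))))
      (.b (.l 2695) (.a (.l 15) (.c (.b (.l 2695) (.a (.l 15) (.c (.b (.l 2695) (.a (.l 15) (.l
      99))) (.b (.l 2695) (.a (.l 15) (.l 99)))))) (.b (.l 2695) (.a (.l 15) (.c (.b (.l 2695)
      (.a (.l 15) (.l 99))) (.b (.l 2695) (.a (.l 15) (.l 99))))))))))))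

theorem x2_t3a_c1_n_h58 : chk3 (onCell 0 1073741824 0 429496730 0 67108864 T2_t3a_c1_n) x2_t3a_c1_n_t58 339 106 450 = true := by decide +kernel

def x2_t3a_c1_n_t59 : T :=
  (.b (.l 2567) (.a (.l 15) (.c (.b (.l 2567) (.a (.l 15) (.c (.b (.l 2567) (.a (.l 15) (.c (.b
      (.l 2567) (.a (.l 15) (.l 99))) (.b (.l 2567) (.a (.l 15) (.l 99)))))) (.b (.l 2567) (.a
      (.l 15) (.c (.b (.l 2567) (.a (.l 15) (.l 99))) (.b (.l 2567) (.a (.l 15) (.l 99)))))))))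
      (.b (.l 2567) (.a (.l 15) (.c (.b (.l 2567) (.a (.l 15) (.c (.b (.l 2567) (.a (.l 15) (.l
      99))) (.b (.l 2567) (.a (.l 15) (.l 99)))))) (.b (.l 2567) (.a (.l 15) (.c (.b (.l 2567)
      (.a (.l 15) (.l 99))) (.b (.l 2567) (.a (.l 15) (.l 99))))))))))))

theorem x2_t3a_c1_n_h59 : chk3 (onCell 0 1073741824 0 429496730 0 67108864 T2_t3a_c1_n) x2_t3a_c1_n_t59 339 106 451 = true := by decide +kernel

def x2_t3a_c1_n_t60 : T :=
  (.l 15)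

theorem x2_t3a_c1_n_h60 : chk3 (onCell 0 1073741824 0 429496730 0 67108864 T2_t3a_c1_n) x2_t3a_c1_n_t60 338 107 224 = true := by decide +kernel

def x2_t3a_c1_n_t61 : T :=
  (.c (.a (.l 15) (.b (.c (.a (.l 15) (.b (.c (.a (.l 15) (.b (.c (.a (.l 15) (.l 99)) (.a (.l
      15) (.l 99))) (.l 2695))) (.a (.l 15) (.b (.c (.a (.l 15) (.l 99)) (.a (.l 15) (.l 99)))
      (.l 2695)))) (.l 2695))) (.a (.l 15) (.b (.c (.a (.l 15) (.b (.c (.a (.l 15) (.l 99)) (.a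
      (.l 15) (.l 99))) (.l 2695))) (.a (.l 15) (.b (.c (.a (.l 15) (.l 99)) (.a (.l 15) (.l
      99))) (.l 2695)))) (.l 2695)))) (.l 2695))) (.a (.l 15) (.b (.c (.a (.l 15) (.b (.c (.a (.l
      15) (.b (.c (.a (.l 15) (.l 99)) (.a (.l 15) (.l 99))) (.l 2695))) (.a (.l 15) (.b (.c (.a
      (.l 15) (.l 99)) (.a (.l 15) (.l 99))) (.l 2695)))) (.l 2695))) (.a (.l 15) (.b (.c (.a (.l
      15) (.b (.c (.a (.l 15) (.l 99)) (.a (.l 15) (.l 99))) (.l 2695))) (.a (.l 15) (.b (.c (.a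
      (.l 15) (.l 99)) (.a (.l 15) (.l 99))) (.l 2695)))) (.l 2695)))) (.l 2695))))

theorem x2_t3a_c1_n_h61 : chk3 (onCell 0 1073741824 0 429496730 0 67108864 T2_t3a_c1_n) x2_t3a_c1_n_t61 339 214 224 = true := by decide +kernel

def x2_t3a_c1_n_t62 : T :=
  (.l 2695)

theorem x2_t3a_c1_n_h62 : chk3 (onCell 0 1073741824 0 429496730 0 67108864 T2_t3a_c1_n) x2_t3a_c1_n_t62 339 215 224 = true := by decide +kernel

def x2_t3a_c1_n_t63 : T :=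
  (.l 15)

theorem x2_t3a_c1_n_h63 : chk3 (onCell 0 1073741824 0 429496730 0 67108864 T2_t3a_c1_n) x2_t3a_c1_n_t63 338 107 225 = true := by decide +kernel

def x2_t3a_c1_n_t64 : T :=
  (.c (.a (.l 15) (.b (.c (.a (.l 15) (.b (.c (.a (.l 15) (.b (.c (.a (.l 15) (.l 99)) (.a (.l
      15) (.l 99))) (.l 2695))) (.a (.l 15) (.b (.c (.a (.l 15) (.l 99)) (.a (.l 15) (.l 99)))
      (.l 2695)))) (.l 2695))) (.a (.l 15) (.b (.c (.a (.l 15) (.b (.c (.a (.l 15) (.l 99)) (.a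
      (.l 15) (.l 99))) (.l 2695))) (.a (.l 15) (.b (.c (.a (.l 15) (.l 99)) (.a (.l 15) (.l
      99))) (.l 99)))) (.l 2695)))) (.l 2695))) (.a (.l 15) (.b (.c (.a (.l 15) (.b (.c (.a (.l
      15) (.b (.c (.a (.l 15) (.l 99)) (.a (.l 15) (.l 99))) (.l 99))) (.a (.l 15) (.b (.c (.a
      (.l 15) (.l 99)) (.a (.l 15) (.l 99))) (.l 99)))) (.l 2567))) (.a (.l 15) (.b (.c (.a (.l
      15) (.b (.c (.a (.l 15) (.l 99)) (.a (.l 15) (.l 99))) (.l 99))) (.a (.l 15) (.b (.c (.a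
      (.l 15) (.l 99)) (.a (.l 15) (.l 99))) (.l 99)))) (.l 2567)))) (.l 2567))))

theorem x2_t3a_c1_n_h64 : chk3 (onCell 0 1073741824 0 429496730 0 67108864 T2_t3a_c1_n) x2_t3a_c1_n_t64 339 214 225 = true := by decide +kernel

def x2_t3a_c1_n_t65 : T :=
  (.l 2567)

theorem x2_t3a_c1_n_h65 : chk3 (onCell 0 1073741824 0 429496730 0 67108864 T2_t3a_c1_n) x2_t3a_c1_n_t65 339 215 225 = true := by decide +kernel

def x2_t3a_c1_n_t66 : T :=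
  (.l 2631)

theorem x2_t3a_c1_n_h66 : chk3 (onCell 0 1073741824 0 429496730 0 67108864 T2_t3a_c1_n) x2_t3a_c1_n_t66 84 52 113 = true := by decide +kernel

def x2_t3a_c1_n_t67 : T :=
  (.l 15)

theorem x2_t3a_c1_n_h67 : chk3 (onCell 0 1073741824 0 429496730 0 67108864 T2_t3a_c1_n) x2_t3a_c1_n_t67 168 53 113 = true := by decide +kernel

def x2_t3a_c1_n_t68 : T :=
  (.a (.l 15) (.c (.b (.l 2567) (.a (.l 15) (.c (.b (.l 2567) (.a (.l 15) (.c (.b (.l 2567) (.a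
      (.l 15) (.c (.b (.l 99) (.a (.l 15) (.l 99))) (.b (.l 99) (.a (.l 15) (.l 99)))))) (.b (.l
      2567) (.a (.l 15) (.c (.b (.l 99) (.a (.l 15) (.l 99))) (.b (.l 99) (.a (.l 15) (.l
      99))))))))) (.b (.l 2567) (.a (.l 15) (.c (.b (.l 2567) (.a (.l 15) (.c (.b (.l 99) (.l
      99)) (.l 99)))) (.b (.l 2567) (.a (.l 15) (.l 99))))))))) (.b (.l 2567) (.a (.l 15) (.c (.b
      (.l 2567) (.a (.l 15) (.c (.b (.l 2567) (.a (.l 15) (.l 99))) (.b (.l 2567) (.a (.l 15) (.l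
      99)))))) (.b (.l 2567) (.a (.l 15) (.c (.b (.l 2567) (.a (.l 15) (.l 99))) (.b (.l 2567)
      (.a (.l 15) (.l 99)))))))))))

theorem x2_t3a_c1_n_h68 : chk3 (onCell 0 1073741824 0 429496730 0 67108864 T2_t3a_c1_n) x2_t3a_c1_n_t68 169 106 226 = true := by decide +kernel

def x2_t3a_c1_n_t69 : T :=
  (.a (.l 15) (.c (.b (.l 2567) (.a (.l 15) (.c (.b (.l 2567) (.a (.l 15) (.c (.b (.l 2567) (.a
      (.l 15) (.l 99))) (.b (.l 2567) (.a (.l 15) (.l 99)))))) (.b (.l 2567) (.a (.l 15) (.c (.b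
      (.l 2567) (.a (.l 15) (.l 99))) (.b (.l 2567) (.a (.l 15) (.l 99))))))))) (.b (.l 2567) (.a
      (.l 15) (.c (.b (.l 2567) (.a (.l 15) (.c (.b (.l 2567) (.a (.l 15) (.l 99))) (.b (.l 2567)
      (.a (.l 15) (.l 99)))))) (.b (.l 2567) (.a (.l 15) (.c (.b (.l 2567) (.a (.l 15) (.l 99)))
      (.b (.l 2567) (.a (.l 15) (.l 99)))))))))))

theorem x2_t3a_c1_n_h69 : chk3 (onCell 0 1073741824 0 429496730 0 67108864 T2_t3a_c1_n) x2_t3a_c1_n_t69 169 106 227 = true := by decide +kernel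

def x2_t3a_c1_n_t70 : T :=
  (.a (.l 15) (.b (.c (.a (.l 15) (.b (.c (.a (.l 15) (.b (.c (.a (.l 15) (.b (.c (.a (.l 15) (.l
      99)) (.a (.l 15) (.l 99))) (.l 99))) (.a (.l 15) (.b (.c (.a (.l 15) (.l 99)) (.a (.l 15)
      (.l 99))) (.l 99)))) (.l 2567))) (.a (.l 15) (.b (.c (.a (.l 15) (.b (.c (.a (.l 15) (.l
      99)) (.a (.l 15) (.l 99))) (.l 99))) (.a (.l 15) (.b (.c (.a (.l 15) (.l 99)) (.a (.l 15)
      (.l 99))) (.l 99)))) (.l 2567)))) (.l 2567))) (.a (.l 15) (.b (.c (.a (.l 15) (.b (.c (.a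
      (.l 15) (.b (.c (.a (.l 15) (.l 99)) (.l 99)) (.l 99))) (.a (.l 15) (.l 99))) (.l 2567)))
      (.a (.l 15) (.b (.c (.a (.l 15) (.l 99)) (.a (.l 15) (.l 99))) (.l 2567)))) (.l 2567))))
      (.l 2567)))

theorem x2_t3a_c1_n_h70 : chk3 (onCell 0 1073741824 0 429496730 0 67108864 T2_t3a_c1_n) x2_t3a_c1_n_t70 169 107 226 = true := by decide +kernel

def x2_t3a_c1_n_t71 : T :=
  (.a (.l 15) (.b (.c (.a (.l 15) (.b (.c (.a (.l 15) (.b (.c (.a (.l 15) (.l 99)) (.a (.l 15)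
      (.l 99))) (.l 2567))) (.a (.l 15) (.b (.c (.a (.l 15) (.l 99)) (.a (.l 15) (.l 99))) (.l
      2567)))) (.l 2567))) (.a (.l 15) (.b (.c (.a (.l 15) (.b (.c (.a (.l 15) (.l 99)) (.a (.l
      15) (.l 99))) (.l 2567))) (.a (.l 15) (.b (.c (.a (.l 15) (.l 99)) (.a (.l 15) (.l 99)))
      (.l 2567)))) (.l 2567)))) (.l 2567)))

theorem x2_t3a_c1_n_h71 : chk3 (onCell 0 1073741824 0 429496730 0 67108864 T2_t3a_c1_n) x2_t3a_c1_n_t71 169 107 227 = true := by decide +kernel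

def x2_t3a_c1_n_t72 : T :=
  (.c (.b (.l 67) (.a (.b (.c (.a (.l 99) (.l 67)) (.a (.l 99) (.l 67))) (.c (.a (.b (.l 99) (.l
      99)) (.l 67)) (.a (.b (.l 99) (.l 67)) (.l 67)))) (.l 67))) (.b (.l 67) (.a (.b (.c (.a (.l
      99) (.l 67)) (.a (.l 99) (.l 67))) (.c (.a (.b (.l 99) (.l 67)) (.l 67)) (.a (.b (.l 99)
      (.l 67)) (.l 67)))) (.l 67))))

theorem x2_t3a_c1_n_h72 : chk3 (onCell 0 1073741824 0 429496730 0 67108864 T2_t3a_c1_n) x2_t3a_c1_n_t72 85 26 56 = true := by decide +kernel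

def x2_t3a_c1_n_t73 : T :=
  (.l 2503)

theorem x2_t3a_c1_n_h73 : chk3 (onCell 0 1073741824 0 429496730 0 67108864 T2_t3a_c1_n) x2_t3a_c1_n_t73 84 52 57 = true := by decide +kernel

def x2_t3a_c1_n_t74 : T :=
  (.l 15)

theorem x2_t3a_c1_n_h74 : chk3 (onCell 0 1073741824 0 429496730 0 67108864 T2_t3a_c1_n) x2_t3a_c1_n_t74 168 53 114 = true := by decide +kernel

def x2_t3a_c1_n_t75 : T :=
  (.a (.l 15) (.b (.l 2567) (.c (.a (.l 15) (.c (.b (.l 2567) (.a (.l 15) (.c (.b (.l 2567) (.a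
      (.l 15) (.l 99))) (.b (.l 2567) (.a (.l 15) (.l 99)))))) (.b (.l 2567) (.a (.l 15) (.b (.l
      2567) (.c (.a (.l 15) (.l 99)) (.a (.l 15) (.l 99)))))))) (.a (.l 15) (.b (.l 2567) (.c (.a
      (.l 15) (.b (.l 2567) (.c (.a (.l 15) (.l 99)) (.a (.l 15) (.l 99))))) (.a (.l 15) (.b (.l
      2567) (.c (.a (.l 15) (.l 99)) (.a (.l 15) (.l 99)))))))))))

theorem x2_t3a_c1_n_h75 : chk3 (onCell 0 1073741824 0 429496730 0 67108864 T2_t3a_c1_n) x2_t3a_c1_n_t75 169 106 228 = true := by decide +kernel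

def x2_t3a_c1_n_t76 : T :=
  (.a (.l 15) (.b (.l 2567) (.c (.a (.l 15) (.b (.l 2567) (.c (.a (.l 15) (.b (.l 2567) (.c (.a
      (.l 15) (.l 99)) (.a (.l 15) (.l 99))))) (.a (.l 15) (.b (.l 2567) (.c (.a (.l 15) (.l 99))
      (.a (.l 15) (.l 99)))))))) (.a (.l 15) (.b (.l 2567) (.c (.a (.l 15) (.b (.l 2567) (.c (.a
      (.l 15) (.l 99)) (.a (.l 15) (.l 99))))) (.a (.l 15) (.b (.l 2567) (.c (.a (.l 15) (.l 99))
      (.a (.l 15) (.l 99)))))))))))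

theorem x2_t3a_c1_n_h76 : chk3 (onCell 0 1073741824 0 429496730 0 67108864 T2_t3a_c1_n) x2_t3a_c1_n_t76 169 106 229 = true := by decide +kernel

def x2_t3a_c1_n_t77 : T :=
  (.c (.a (.l 15) (.b (.c (.a (.l 15) (.b (.c (.a (.l 15) (.b (.c (.a (.l 15) (.l 99)) (.a (.l
      15) (.l 99))) (.l 2567))) (.a (.l 15) (.b (.c (.a (.l 15) (.l 99)) (.a (.l 15) (.l 99)))
      (.l 2567)))) (.l 2567))) (.a (.l 15) (.b (.c (.a (.l 15) (.b (.c (.a (.l 15) (.l 99)) (.a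
      (.l 15) (.l 99))) (.l 2567))) (.a (.l 15) (.b (.c (.a (.l 15) (.l 99)) (.a (.l 15) (.l
      99))) (.l 2567)))) (.l 2567)))) (.l 2567))) (.a (.l 15) (.b (.c (.a (.l 15) (.b (.c (.a (.l
      15) (.b (.c (.a (.l 15) (.l 99)) (.a (.l 15) (.l 99))) (.l 2567))) (.a (.l 15) (.b (.c (.a
      (.l 15) (.l 99)) (.a (.l 15) (.l 99))) (.l 2567)))) (.l 2567))) (.a (.l 15) (.b (.c (.a (.l
      15) (.b (.c (.a (.l 15) (.l 99)) (.a (.l 15) (.l 99))) (.l 2567))) (.a (.l 15) (.b (.c (.a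
      (.l 15) (.l 99)) (.a (.l 15) (.l 99))) (.l 2567)))) (.l 2567)))) (.l 2567))))

theorem x2_t3a_c1_n_h77 : chk3 (onCell 0 1073741824 0 429496730 0 67108864 T2_t3a_c1_n) x2_t3a_c1_n_t77 169 107 114 = true := by decide +kernel

def x2_t3a_c1_n_t78 : T :=
  (.l 15)

theorem x2_t3a_c1_n_h78 : chk3 (onCell 0 1073741824 0 429496730 0 67108864 T2_t3a_c1_n) x2_t3a_c1_n_t78 168 53 115 = true := by decide +kernel

def x2_t3a_c1_n_t79 : T :=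
  (.c (.a (.l 15) (.b (.l 2439) (.c (.a (.l 15) (.b (.l 2439) (.c (.a (.l 15) (.b (.l 2567) (.c
      (.a (.l 15) (.l 99)) (.a (.l 15) (.l 99))))) (.a (.l 15) (.b (.l 2439) (.c (.a (.l 15) (.l
      99)) (.a (.l 15) (.l 99)))))))) (.a (.l 15) (.b (.l 2439) (.c (.a (.l 15) (.b (.l 2439) (.c
      (.a (.l 15) (.l 99)) (.a (.l 15) (.l 99))))) (.a (.l 15) (.b (.l 2439) (.c (.a (.l 15) (.l
      99)) (.a (.l 15) (.l 99))))))))))) (.a (.l 15) (.b (.l 2439) (.c (.a (.l 15) (.b (.l 2439)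
      (.c (.a (.l 15) (.b (.l 2439) (.c (.a (.l 15) (.l 99)) (.a (.l 2503) (.l 99))))) (.a (.l
      15) (.b (.l 2439) (.c (.a (.l 2503) (.l 67)) (.a (.l 2503) (.l 67)))))))) (.a (.l 15) (.b
      (.l 2439) (.c (.a (.l 15) (.b (.l 2439) (.c (.a (.l 2503) (.l 67)) (.a (.l 2503) (.l
      67))))) (.a (.l 15) (.b (.l 2439) (.c (.a (.l 2503) (.l 67)) (.a (.l 2503) (.l 3))))))))))))

theorem x2_t3a_c1_n_h79 : chk3 (onCell 0 1073741824 0 429496730 0 67108864 T2_t3a_c1_n) x2_t3a_c1_n_t79 169 106 115 = true := by decide +kernel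

def x2_t3a_c1_n_t80 : T :=
  (.a (.l 15) (.b (.c (.a (.l 15) (.b (.c (.a (.l 15) (.b (.c (.a (.l 15) (.l 99)) (.a (.l 15)
      (.l 99))) (.l 2567))) (.a (.l 15) (.b (.c (.a (.l 15) (.l 99)) (.a (.l 15) (.l 99))) (.l
      2439)))) (.l 2439))) (.a (.l 15) (.b (.c (.a (.l 15) (.b (.c (.a (.l 15) (.l 99)) (.a (.l
      15) (.l 99))) (.l 2439))) (.a (.l 15) (.b (.c (.a (.l 15) (.l 99)) (.a (.l 15) (.l 99)))
      (.l 2439)))) (.l 2439)))) (.l 2439)))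

theorem x2_t3a_c1_n_h80 : chk3 (onCell 0 1073741824 0 429496730 0 67108864 T2_t3a_c1_n) x2_t3a_c1_n_t80 169 107 230 = true := by decide +kernel

def x2_t3a_c1_n_t81 : T :=
  (.l 15)

theorem x2_t3a_c1_n_h81 : chk3 (onCell 0 1073741824 0 429496730 0 67108864 T2_t3a_c1_n) x2_t3a_c1_n_t81 338 107 231 = true := by decide +kernel

def x2_t3a_c1_n_t82 : T :=
  (.a (.l 15) (.b (.c (.a (.l 15) (.b (.c (.a (.l 15) (.l 99)) (.a (.b (.c (.l 15) (.a (.l 15)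
      (.l 99))) (.c (.l 15) (.a (.l 15) (.l 99)))) (.l 99))) (.l 2439))) (.a (.l 15) (.b (.c (.a
      (.b (.c (.a (.l 15) (.l 99)) (.a (.l 15) (.l 99))) (.c (.a (.l 15) (.l 99)) (.a (.l 15) (.l
      99)))) (.l 99)) (.a (.b (.c (.a (.l 15) (.l 99)) (.a (.l 15) (.l 99))) (.c (.a (.l 15) (.l
      99)) (.a (.l 15) (.l 99)))) (.l 99))) (.l 2439)))) (.l 2439)))

theorem x2_t3a_c1_n_h82 : chk3 (onCell 0 1073741824 0 429496730 0 67108864 T2_t3a_c1_n) x2_t3a_c1_n_t82 339 214 462 = true := by decide +kernel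

def x2_t3a_c1_n_t83 : T :=
  (.a (.l 15) (.b (.c (.a (.l 15) (.b (.c (.a (.b (.c (.a (.l 15) (.l 99)) (.a (.l 15) (.l 99)))
      (.c (.a (.l 15) (.l 99)) (.a (.l 15) (.l 99)))) (.l 99)) (.a (.b (.c (.a (.l 15) (.l 99))
      (.a (.l 15) (.l 99))) (.c (.a (.l 15) (.l 99)) (.a (.l 15) (.l 99)))) (.l 99))) (.l 2439)))
      (.a (.l 15) (.b (.c (.a (.b (.c (.a (.l 15) (.l 99)) (.a (.l 15) (.l 99))) (.c (.a (.l 15)
      (.l 99)) (.a (.l 15) (.l 99)))) (.l 99)) (.a (.b (.c (.a (.l 15) (.l 99)) (.a (.l 15) (.l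
      99))) (.c (.a (.l 15) (.l 99)) (.a (.l 15) (.l 99)))) (.l 99))) (.l 2439)))) (.l 2439)))

theorem x2_t3a_c1_n_h83 : chk3 (onCell 0 1073741824 0 429496730 0 67108864 T2_t3a_c1_n) x2_t3a_c1_n_t83 339 214 463 = true := by decide +kernel

def x2_t3a_c1_n_t84 : T :=
  (.l 2439)

theorem x2_t3a_c1_n_h84 : chk3 (onCell 0 1073741824 0 429496730 0 67108864 T2_t3a_c1_n) x2_t3a_c1_n_t84 339 215 231 = true := by decide +kernel

def x2_t3a_c1_n_t85 : T :=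
  (.b (.l 67) (.c (.a (.b (.c (.a (.l 67) (.l 67)) (.l 99)) (.c (.a (.b (.l 99) (.l 67)) (.l 67))
      (.a (.l 99) (.l 67)))) (.l 67)) (.a (.b (.l 99) (.c (.a (.l 99) (.l 67)) (.a (.l 99) (.l
      67)))) (.l 67))))

theorem x2_t3a_c1_n_h85 : chk3 (onCell 0 1073741824 0 429496730 0 67108864 T2_t3a_c1_n) x2_t3a_c1_n_t85 85 26 57 = true := by decide +kernel

def x2_t3a_c1_n_t86 : T :=
  (.c (.a (.b (.c (.a (.l 15) (.l 2567)) (.a (.l 15) (.l 2567))) (.c (.l 71) (.l 71))) (.b (.l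
      2631) (.c (.a (.l 67) (.l 67)) (.a (.l 67) (.l 67))))) (.a (.b (.c (.a (.l 15) (.l 2567))
      (.a (.l 15) (.l 2439))) (.c (.b (.l 2631) (.a (.l 15) (.c (.l 71) (.b (.l 2567) (.a (.l 15)
      (.l 2567)))))) (.b (.a (.l 15) (.l 2439)) (.a (.l 15) (.c (.b (.l 2439) (.a (.l 15) (.l
      2439))) (.b (.l 2439) (.a (.l 15) (.l 2439)))))))) (.b (.l 2503) (.c (.a (.l 67) (.l 67))
      (.a (.l 67) (.l 67))))))

theorem x2_t3a_c1_n_h86 : chk3 (onCell 0 1073741824 0 429496730 0 67108864 T2_t3a_c1_n) x2_t3a_c1_n_t86 42 27 28 = true := by decide +kernel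

def x2_t3a_c1_n_t87 : T :=
  (.b (.c (.a (.l 2627) (.l 2627)) (.a (.l 67) (.l 2499))) (.c (.b (.l 2627) (.a (.l 2627) (.l
      2627))) (.b (.l 67) (.a (.l 2499) (.l 2499)))))

theorem x2_t3a_c1_n_h87 : chk3 (onCell 0 1073741824 0 429496730 0 67108864 T2_t3a_c1_n) x2_t3a_c1_n_t87 43 13 28 = true := by decide +kernel

def x2_t3a_c1_n_t88 : T :=
  (.l 71)

theorem x2_t3a_c1_n_h88 : chk3 (onCell 0 1073741824 0 429496730 0 67108864 T2_t3a_c1_n) x2_t3a_c1_n_t88 84 52 58 = true := by decide +kernel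

def x2_t3a_c1_n_t89 : T :=
  (.l 15)

theorem x2_t3a_c1_n_h89 : chk3 (onCell 0 1073741824 0 429496730 0 67108864 T2_t3a_c1_n) x2_t3a_c1_n_t89 168 53 116 = true := by decide +kernel

def x2_t3a_c1_n_t90 : T :=
  (.c (.a (.l 15) (.b (.l 2439) (.c (.a (.l 15) (.b (.l 2439) (.c (.a (.l 15) (.b (.l 2439) (.c
      (.a (.l 2503) (.l 3)) (.a (.l 2503) (.l 3))))) (.a (.l 15) (.b (.l 2439) (.c (.a (.l 2503)
      (.l 3)) (.a (.l 2503) (.l 3)))))))) (.a (.l 15) (.b (.l 2439) (.c (.a (.l 15) (.b (.l 2439)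
      (.c (.a (.l 2503) (.l 3)) (.a (.l 2503) (.l 3))))) (.a (.l 15) (.b (.l 2439) (.c (.a (.l
      2503) (.l 3)) (.a (.l 2503) (.l 3))))))))))) (.a (.l 15) (.b (.l 2439) (.c (.a (.l 15) (.b
      (.l 2439) (.c (.a (.l 15) (.b (.l 2439) (.c (.a (.l 2503) (.l 3)) (.a (.l 2503) (.l 3)))))
      (.a (.l 15) (.b (.l 2439) (.c (.a (.l 2503) (.l 3)) (.a (.l 2503) (.l 3)))))))) (.a (.l 15)
      (.b (.l 2439) (.c (.a (.l 15) (.b (.l 2439) (.c (.a (.l 2503) (.l 3)) (.a (.l 2503) (.l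
      3))))) (.a (.l 15) (.b (.l 2439) (.c (.a (.l 2503) (.l 3)) (.a (.l 2503) (.l 3))))))))))))

theorem x2_t3a_c1_n_h90 : chk3 (onCell 0 1073741824 0 429496730 0 67108864 T2_t3a_c1_n) x2_t3a_c1_n_t90 169 106 116 = true := by decide +kernel

def x2_t3a_c1_n_t91 : T :=
  (.l 15)

theorem x2_t3a_c1_n_h91 : chk3 (onCell 0 1073741824 0 429496730 0 67108864 T2_t3a_c1_n) x2_t3a_c1_n_t91 338 107 232 = true := by decide +kernel

def x2_t3a_c1_n_t92 : T :=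
  (.a (.l 15) (.b (.c (.a (.l 15) (.b (.c (.a (.b (.c (.a (.l 15) (.l 99)) (.a (.l 15) (.l 99)))
      (.c (.a (.l 15) (.l 99)) (.a (.l 15) (.l 99)))) (.l 99)) (.a (.b (.c (.a (.l 15) (.l 99))
      (.a (.l 15) (.l 99))) (.c (.a (.l 15) (.l 99)) (.a (.l 15) (.l 99)))) (.l 99))) (.l 2439)))
      (.a (.l 15) (.b (.c (.a (.b (.c (.a (.l 15) (.l 99)) (.a (.l 15) (.l 99))) (.c (.a (.l 15)
      (.l 99)) (.a (.l 15) (.l 99)))) (.l 99)) (.a (.b (.c (.a (.l 15) (.l 99)) (.a (.l 15) (.l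
      99))) (.c (.a (.l 15) (.l 99)) (.a (.l 15) (.l 99)))) (.l 99))) (.l 2439)))) (.l 2439)))

theorem x2_t3a_c1_n_h92 : chk3 (onCell 0 1073741824 0 429496730 0 67108864 T2_t3a_c1_n) x2_t3a_c1_n_t92 339 214 464 = true := by decide +kernel

def x2_t3a_c1_n_t93 : T :=
  (.a (.l 15) (.b (.c (.a (.l 15) (.b (.c (.a (.b (.c (.a (.l 15) (.l 99)) (.a (.l 15) (.l 99)))
      (.c (.a (.l 15) (.l 99)) (.a (.l 15) (.l 99)))) (.l 99)) (.a (.b (.c (.a (.l 15) (.l 99))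
      (.a (.l 15) (.l 99))) (.c (.a (.l 15) (.l 99)) (.a (.l 15) (.l 99)))) (.l 99))) (.l 2439)))
      (.a (.l 15) (.b (.c (.a (.b (.c (.a (.l 15) (.l 99)) (.a (.l 15) (.l 99))) (.c (.a (.l 15)
      (.l 99)) (.a (.l 15) (.l 99)))) (.l 99)) (.a (.b (.c (.a (.l 15) (.l 99)) (.a (.l 15) (.l
      99))) (.c (.a (.l 15) (.l 99)) (.a (.l 15) (.l 99)))) (.l 99))) (.l 2439)))) (.l 2439)))

theorem x2_t3a_c1_n_h93 : chk3 (onCell 0 1073741824 0 429496730 0 67108864 T2_t3a_c1_n) x2_t3a_c1_n_t93 339 214 465 = true := by decide +kernel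

def x2_t3a_c1_n_t94 : T :=
  (.l 2439)

theorem x2_t3a_c1_n_h94 : chk3 (onCell 0 1073741824 0 429496730 0 67108864 T2_t3a_c1_n) x2_t3a_c1_n_t94 339 215 232 = true := by decide +kernel

def x2_t3a_c1_n_t95 : T :=
  (.l 15)

theorem x2_t3a_c1_n_h95 : chk3 (onCell 0 1073741824 0 429496730 0 67108864 T2_t3a_c1_n) x2_t3a_c1_n_t95 338 107 233 = true := by decide +kernel

def x2_t3a_c1_n_t96 : T :=
  (.a (.l 15) (.b (.c (.a (.l 15) (.b (.c (.a (.b (.c (.a (.l 15) (.l 99)) (.a (.l 15) (.l 99)))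
      (.c (.a (.l 15) (.l 99)) (.a (.l 15) (.l 99)))) (.l 99)) (.a (.b (.c (.a (.l 15) (.l 99))
      (.a (.l 15) (.l 99))) (.c (.a (.l 15) (.l 99)) (.a (.l 15) (.l 99)))) (.l 99))) (.l 2439)))
      (.a (.l 15) (.b (.c (.a (.b (.c (.a (.l 15) (.l 99)) (.a (.l 15) (.l 99))) (.c (.a (.l 15)
      (.l 99)) (.a (.l 15) (.l 99)))) (.l 67)) (.a (.b (.c (.a (.l 15) (.l 99)) (.a (.l 15) (.l
      99))) (.c (.a (.l 15) (.l 99)) (.l 99))) (.l 67))) (.l 2439)))) (.l 2439)))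

theorem x2_t3a_c1_n_h96 : chk3 (onCell 0 1073741824 0 429496730 0 67108864 T2_t3a_c1_n) x2_t3a_c1_n_t96 339 214 466 = true := by decide +kernel

def x2_t3a_c1_n_t97 : T :=
  (.a (.l 15) (.b (.c (.a (.l 15) (.b (.c (.a (.b (.c (.a (.l 15) (.l 99)) (.a (.l 15) (.l 99)))
      (.l 99)) (.l 67)) (.a (.b (.c (.a (.l 15) (.l 99)) (.a (.l 15) (.l 99))) (.l 99)) (.l 67)))
      (.l 99))) (.a (.l 15) (.b (.c (.a (.b (.c (.a (.l 15) (.l 99)) (.a (.l 15) (.l 99))) (.l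
      99)) (.l 67)) (.a (.b (.c (.a (.l 15) (.l 99)) (.a (.l 15) (.l 99))) (.l 99)) (.l 67))) (.l
      99)))) (.l 2439)))

theorem x2_t3a_c1_n_h97 : chk3 (onCell 0 1073741824 0 429496730 0 67108864 T2_t3a_c1_n) x2_t3a_c1_n_t97 339 214 467 = true := by decide +kernel

def x2_t3a_c1_n_t98 : T :=
  (.l 2439)

theorem x2_t3a_c1_n_h98 : chk3 (onCell 0 1073741824 0 429496730 0 67108864 T2_t3a_c1_n) x2_t3a_c1_n_t98 339 215 233 = true := by decide +kernel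

def x2_t3a_c1_n_t99 : T :=
  (.l 15)

theorem x2_t3a_c1_n_h99 : chk3 (onCell 0 1073741824 0 429496730 0 67108864 T2_t3a_c1_n) x2_t3a_c1_n_t99 168 53 117 = true := by decide +kernel

def x2_t3a_c1_n_t100 : T :=
  (.c (.a (.l 15) (.b (.l 2439) (.c (.a (.l 15) (.b (.l 2439) (.c (.a (.l 15) (.b (.l 2439) (.c
      (.a (.l 2503) (.l 3)) (.a (.l 2503) (.l 3))))) (.a (.l 15) (.l 99))))) (.a (.l 15) (.b (.l
      2439) (.c (.a (.l 15) (.l 99)) (.a (.l 15) (.l 99)))))))) (.a (.l 15) (.b (.l 2311) (.c (.a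
      (.l 15) (.b (.l 2439) (.c (.a (.l 15) (.l 99)) (.a (.l 15) (.l 99))))) (.a (.l 15) (.b (.l
      2311) (.c (.a (.l 15) (.l 99)) (.a (.l 15) (.l 99)))))))))

theorem x2_t3a_c1_n_h100 : chk3 (onCell 0 1073741824 0 429496730 0 67108864 T2_t3a_c1_n) x2_t3a_c1_n_t100 169 106 117 = true := by decide +kernel

def x2_t3a_c1_n_t101 : T :=
  (.l 15)

theorem x2_t3a_c1_n_h101 : chk3 (onCell 0 1073741824 0 429496730 0 67108864 T2_t3a_c1_n) x2_t3a_c1_n_t101 338 107 234 = true := by decide +kernel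

end Pool.Agent.Strip051.LC.E1.Ch
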