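import Pool.Agent.Strip051.LC.E1.Ch.Te

/-! # Rests near the full period: certificate P_x2_t3a_c1_n_3 -/

set_option maxRecDepth 100000

namespace Pool.Agent.Strip051.LC.E1.Ch

open Pool.Agent.Strip051.PB
open Pool.Agent.Strip051.LC.E0.Ch (onCell Tree)

def x2_t3a_c1_n_t102 : T :=
  (.c (.a (.l 15) (.b (.c (.a (.l 15) (.b (.c (.a (.b (.c (.a (.l 15) (.l 99)) (.a (.l 15) (.l
      99))) (.l 99)) (.l 67)) (.a (.b (.c (.a (.l 15) (.l 99)) (.a (.l 15) (.l 99))) (.l 99)) (.l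
      67))) (.l 99))) (.a (.l 15) (.b (.c (.a (.b (.c (.a (.l 15) (.l 99)) (.a (.l 15) (.l 99)))
      (.l 99)) (.l 67)) (.a (.b (.c (.a (.l 15) (.l 99)) (.a (.l 15) (.l 99))) (.l 99)) (.l 67)))
      (.l 99)))) (.l 2439))) (.a (.l 15) (.b (.c (.a (.l 15) (.b (.c (.a (.b (.c (.a (.l 15) (.l
      99)) (.a (.l 15) (.l 99))) (.l 99)) (.l 67)) (.a (.b (.c (.a (.l 15) (.l 99)) (.a (.l 15)
      (.l 99))) (.l 99)) (.l 67))) (.l 99))) (.a (.l 15) (.b (.c (.a (.b (.c (.a (.l 15) (.l 99))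
      (.a (.l 15) (.l 99))) (.l 99)) (.l 67)) (.a (.b (.c (.a (.l 15) (.l 99)) (.a (.l 15) (.l
      99))) (.l 99)) (.l 67))) (.l 99)))) (.l 2439))))

theorem x2_t3a_c1_n_h102 : chk3 (onCell 0 1073741824 0 429496730 0 67108864 T2_t3a_c1_n) x2_t3a_c1_n_t102 339 214 234 = true := by decide +kernel

def x2_t3a_c1_n_t103 : T :=
  (.l 2439)

theorem x2_t3a_c1_n_h103 : chk3 (onCell 0 1073741824 0 429496730 0 67108864 T2_t3a_c1_n) x2_t3a_c1_n_t103 339 215 234 = true := by decide +kernel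

def x2_t3a_c1_n_t104 : T :=
  (.a (.l 15) (.b (.c (.a (.l 15) (.b (.c (.a (.l 15) (.b (.c (.a (.b (.l 99) (.l 99)) (.l 67))
      (.a (.b (.l 99) (.l 99)) (.l 67))) (.l 99))) (.a (.l 15) (.b (.c (.a (.b (.l 99) (.l 99))
      (.l 67)) (.a (.b (.l 99) (.l 99)) (.l 67))) (.l 99)))) (.l 2439))) (.a (.l 15) (.b (.c (.a
      (.l 15) (.b (.c (.a (.b (.l 99) (.l 99)) (.l 67)) (.a (.b (.l 99) (.l 99)) (.l 67))) (.l
      99))) (.a (.l 15) (.b (.c (.a (.l 99) (.l 67)) (.a (.l 99) (.l 67))) (.l 99)))) (.l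
      2311)))) (.l 2311)))

theorem x2_t3a_c1_n_h104 : chk3 (onCell 0 1073741824 0 429496730 0 67108864 T2_t3a_c1_n) x2_t3a_c1_n_t104 169 107 235 = true := by decide +kernel

def x2_t3a_c1_n_t105 : T :=
  (.b (.l 67) (.c (.a (.b (.l 99) (.c (.a (.l 99) (.l 67)) (.a (.l 99) (.l 67)))) (.l 67)) (.a
      (.b (.l 67) (.c (.a (.l 99) (.l 67)) (.a (.l 99) (.l 67)))) (.l 67))))

theorem x2_t3a_c1_n_h105 : chk3 (onCell 0 1073741824 0 429496730 0 67108864 T2_t3a_c1_n) x2_t3a_c1_n_t105 85 26 58 = true := by decide +kernel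

def x2_t3a_c1_n_t106 : T :=
  (.c (.l 71) (.l 71))

theorem x2_t3a_c1_n_h106 : chk3 (onCell 0 1073741824 0 429496730 0 67108864 T2_t3a_c1_n) x2_t3a_c1_n_t106 84 52 59 = true := by decide +kernel

def x2_t3a_c1_n_t107 : T :=
  (.l 15)

theorem x2_t3a_c1_n_h107 : chk3 (onCell 0 1073741824 0 429496730 0 67108864 T2_t3a_c1_n) x2_t3a_c1_n_t107 168 53 118 = true := by decide +kernel

def x2_t3a_c1_n_t108 : T :=
  (.c (.a (.l 15) (.b (.l 2311) (.c (.a (.l 15) (.b (.l 2311) (.c (.a (.l 15) (.l 99)) (.a (.l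
      15) (.l 99))))) (.a (.l 15) (.b (.l 2311) (.c (.a (.l 15) (.l 99)) (.a (.l 15) (.l
      99)))))))) (.a (.l 15) (.b (.l 2311) (.c (.a (.l 15) (.b (.l 2311) (.c (.a (.l 15) (.l 99))
      (.a (.l 15) (.l 99))))) (.a (.l 15) (.b (.l 2311) (.c (.a (.l 15) (.l 99)) (.a (.l 15) (.l
      99)))))))))

theorem x2_t3a_c1_n_h108 : chk3 (onCell 0 1073741824 0 429496730 0 67108864 T2_t3a_c1_n) x2_t3a_c1_n_t108 169 106 118 = true := by decide +kernel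

def x2_t3a_c1_n_t109 : T :=
  (.c (.a (.l 15) (.b (.c (.a (.l 15) (.b (.c (.a (.l 15) (.b (.c (.a (.l 99) (.l 67)) (.a (.l
      99) (.l 67))) (.l 99))) (.a (.l 15) (.b (.l 99) (.l 99)))) (.l 2311))) (.a (.l 15) (.b (.c
      (.a (.l 15) (.b (.l 99) (.l 99))) (.a (.l 15) (.b (.l 99) (.l 99)))) (.l 2311)))) (.l
      2311))) (.a (.l 15) (.b (.c (.a (.l 15) (.b (.c (.a (.l 15) (.b (.l 99) (.l 99))) (.a (.l
      15) (.l 99))) (.l 2311))) (.a (.l 15) (.b (.c (.a (.l 15) (.l 99)) (.a (.l 15) (.l 99)))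
      (.l 2311)))) (.l 2311))))

theorem x2_t3a_c1_n_h109 : chk3 (onCell 0 1073741824 0 429496730 0 67108864 T2_t3a_c1_n) x2_t3a_c1_n_t109 169 107 118 = true := by decide +kernel

def x2_t3a_c1_n_t110 : T :=
  (.l 15)

theorem x2_t3a_c1_n_h110 : chk3 (onCell 0 1073741824 0 429496730 0 67108864 T2_t3a_c1_n) x2_t3a_c1_n_t110 168 53 119 = true := by decide +kernel

def x2_t3a_c1_n_t111 : T :=
  (.c (.a (.l 15) (.b (.l 2311) (.c (.a (.l 15) (.b (.l 2311) (.c (.a (.l 15) (.l 99)) (.a (.l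
      15) (.l 99))))) (.a (.l 15) (.b (.l 2311) (.c (.a (.l 15) (.l 99)) (.a (.l 15) (.l
      99)))))))) (.a (.l 15) (.b (.l 2311) (.c (.a (.l 15) (.b (.l 2311) (.c (.a (.l 15) (.l 99))
      (.a (.l 15) (.l 99))))) (.a (.l 15) (.b (.l 2311) (.c (.a (.l 15) (.l 99)) (.a (.l 71) (.l
      99)))))))))

theorem x2_t3a_c1_n_h111 : chk3 (onCell 0 1073741824 0 429496730 0 67108864 T2_t3a_c1_n) x2_t3a_c1_n_t111 169 106 119 = true := by decide +kernel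

def x2_t3a_c1_n_t112 : T :=
  (.c (.a (.l 15) (.b (.c (.a (.l 15) (.b (.c (.a (.l 15) (.l 99)) (.a (.l 15) (.l 99))) (.l
      2311))) (.a (.l 15) (.b (.c (.a (.l 15) (.l 99)) (.a (.l 15) (.l 99))) (.l 2311)))) (.l
      2311))) (.a (.l 15) (.b (.c (.a (.l 15) (.b (.c (.a (.l 15) (.l 99)) (.a (.l 15) (.l 99)))
      (.l 2311))) (.a (.l 15) (.b (.c (.a (.l 15) (.l 99)) (.a (.b (.c (.l 15) (.a (.l 15) (.b
      (.c (.a (.l 15) (.l 99)) (.a (.l 15) (.l 99))) (.c (.a (.l 15) (.l 99)) (.a (.l 15) (.l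
      99)))))) (.c (.l 15) (.a (.l 15) (.l 2311)))) (.l 99))) (.l 2311)))) (.l 2311))))

theorem x2_t3a_c1_n_h112 : chk3 (onCell 0 1073741824 0 429496730 0 67108864 T2_t3a_c1_n) x2_t3a_c1_n_t112 169 107 119 = true := by decide +kernel

def x2_t3a_c1_n_t113 : T :=
  (.b (.l 67) (.c (.a (.b (.l 67) (.l 99)) (.l 67)) (.a (.b (.l 67) (.l 99)) (.l 67))))

theorem x2_t3a_c1_n_h113 : chk3 (onCell 0 1073741824 0 429496730 0 67108864 T2_t3a_c1_n) x2_t3a_c1_n_t113 85 26 59 = true := by decide +kernel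

def x2_t3a_c1_n_t114 : T :=
  (.c (.a (.b (.c (.a (.l 15) (.l 2439)) (.a (.l 15) (.l 2311))) (.c (.b (.a (.l 15) (.l 2439))
      (.a (.l 15) (.c (.b (.l 2439) (.a (.l 15) (.l 2439))) (.b (.l 2439) (.a (.l 15) (.l
      2439)))))) (.b (.a (.l 15) (.l 2311)) (.a (.l 15) (.c (.b (.l 2439) (.a (.l 15) (.l 2439)))
      (.b (.l 2311) (.a (.l 15) (.l 2311)))))))) (.b (.l 2375) (.c (.l 99) (.l 67)))) (.a (.b (.c
      (.a (.l 15) (.l 2311)) (.a (.l 15) (.l 2311))) (.c (.b (.a (.l 15) (.l 2311)) (.a (.l 15)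
      (.c (.b (.l 2311) (.a (.l 15) (.l 2311))) (.b (.l 2311) (.a (.l 15) (.l 2311)))))) (.b (.a
      (.l 15) (.l 2311)) (.a (.l 15) (.c (.b (.l 2311) (.a (.l 15) (.l 2311))) (.b (.l 2311) (.a
      (.l 15) (.l 2311)))))))) (.b (.l 2375) (.l 67))))

theorem x2_t3a_c1_n_h114 : chk3 (onCell 0 1073741824 0 429496730 0 67108864 T2_t3a_c1_n) x2_t3a_c1_n_t114 42 27 29 = true := by decide +kernel

def x2_t3a_c1_n_t115 : T :=
  (.b (.c (.a (.l 67) (.l 2371)) (.a (.l 67) (.l 2371))) (.b (.l 67) (.c (.a (.l 67) (.l 2371))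
      (.a (.l 67) (.l 2371)))))

theorem x2_t3a_c1_n_h115 : chk3 (onCell 0 1073741824 0 429496730 0 67108864 T2_t3a_c1_n) x2_t3a_c1_n_t115 43 13 29 = true := by decide +kernel

def x2_t3a_c1_n_t116 : T :=
  (.c (.a (.l 15) (.l 2183)) (.a (.l 15) (.l 2183)))

theorem x2_t3a_c1_n_h116 : chk3 (onCell 0 1073741824 0 429496730 0 67108864 T2_t3a_c1_n) x2_t3a_c1_n_t116 84 52 60 = true := by decide +kernel

def x2_t3a_c1_n_t117 : T :=
  (.l 15)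

theorem x2_t3a_c1_n_h117 : chk3 (onCell 0 1073741824 0 429496730 0 67108864 T2_t3a_c1_n) x2_t3a_c1_n_t117 168 53 120 = true := by decide +kernel

def x2_t3a_c1_n_t118 : T :=
  (.c (.a (.l 15) (.b (.l 2311) (.c (.a (.l 15) (.b (.l 2311) (.c (.a (.b (.l 2311) (.c (.l 71)
      (.l 71))) (.l 67)) (.a (.b (.l 2311) (.c (.a (.l 15) (.l 2311)) (.a (.l 15) (.l 2311))))
      (.l 67))))) (.a (.l 15) (.b (.l 2311) (.c (.a (.b (.l 2311) (.c (.a (.l 15) (.l 2311)) (.a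
      (.l 15) (.l 2311)))) (.l 67)) (.a (.b (.l 2311) (.c (.a (.l 15) (.l 2311)) (.a (.l 15) (.l
      2311)))) (.l 67)))))))) (.a (.l 15) (.b (.l 2183) (.c (.a (.l 15) (.b (.l 2311) (.c (.a (.b
      (.l 2311) (.c (.a (.l 15) (.l 2311)) (.a (.l 15) (.l 2311)))) (.l 3)) (.a (.b (.l 2311) (.c
      (.a (.l 15) (.l 2311)) (.a (.l 15) (.l 2311)))) (.l 3))))) (.a (.l 15) (.b (.l 2183) (.c
      (.a (.b (.l 2311) (.c (.a (.l 15) (.l 2311)) (.a (.l 15) (.l 2311)))) (.l 3)) (.a (.b (.l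
      2183) (.c (.a (.l 15) (.l 2183)) (.a (.l 15) (.l 2183)))) (.l 3)))))))))

theorem x2_t3a_c1_n_h118 : chk3 (onCell 0 1073741824 0 429496730 0 67108864 T2_t3a_c1_n) x2_t3a_c1_n_t118 169 106 120 = true := by decide +kernel

def x2_t3a_c1_n_t119 : T :=
  (.l 15)

theorem x2_t3a_c1_n_h119 : chk3 (onCell 0 1073741824 0 429496730 0 67108864 T2_t3a_c1_n) x2_t3a_c1_n_t119 338 107 240 = true := by decide +kernel

def x2_t3a_c1_n_t120 : T :=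
  (.a (.l 15) (.b (.c (.a (.b (.c (.a (.l 15) (.b (.c (.a (.l 15) (.l 99)) (.a (.l 15) (.l 99)))
      (.c (.a (.l 15) (.l 99)) (.a (.l 15) (.l 99))))) (.a (.l 15) (.b (.c (.a (.l 15) (.l 99))
      (.a (.l 15) (.l 99))) (.c (.a (.l 15) (.l 99)) (.a (.l 15) (.l 99)))))) (.c (.a (.l 15) (.l
      2311)) (.a (.l 15) (.l 2311)))) (.l 99)) (.a (.b (.c (.a (.l 15) (.b (.c (.a (.l 15) (.l
      99)) (.a (.l 15) (.l 99))) (.c (.a (.l 15) (.l 99)) (.a (.l 15) (.l 99))))) (.a (.l 15) (.b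
      (.c (.a (.l 15) (.l 99)) (.a (.l 15) (.l 99))) (.c (.a (.l 15) (.l 99)) (.a (.l 15) (.l
      99)))))) (.c (.a (.l 15) (.l 2311)) (.a (.l 15) (.l 2311)))) (.l 99))) (.l 2311)))

theorem x2_t3a_c1_n_h120 : chk3 (onCell 0 1073741824 0 429496730 0 67108864 T2_t3a_c1_n) x2_t3a_c1_n_t120 339 214 480 = true := by decide +kernel

def x2_t3a_c1_n_t121 : T :=
  (.a (.l 15) (.b (.c (.a (.b (.c (.a (.l 15) (.b (.c (.a (.l 15) (.l 99)) (.a (.l 15) (.l 99)))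
      (.c (.a (.l 15) (.l 99)) (.a (.l 15) (.l 99))))) (.a (.l 15) (.b (.c (.a (.l 15) (.l 99))
      (.a (.l 15) (.l 99))) (.c (.a (.l 15) (.l 99)) (.a (.l 15) (.l 99)))))) (.c (.a (.l 15) (.l
      2311)) (.a (.l 15) (.l 2311)))) (.l 99)) (.a (.b (.c (.a (.l 15) (.b (.c (.a (.l 15) (.l
      99)) (.a (.l 15) (.l 99))) (.c (.a (.l 15) (.l 99)) (.a (.l 15) (.l 99))))) (.a (.l 15) (.b
      (.c (.a (.l 15) (.l 99)) (.a (.l 15) (.l 99))) (.c (.a (.l 15) (.l 99)) (.a (.l 15) (.l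
      99)))))) (.c (.a (.l 15) (.l 2311)) (.a (.l 15) (.l 2311)))) (.l 99))) (.l 2311)))

theorem x2_t3a_c1_n_h121 : chk3 (onCell 0 1073741824 0 429496730 0 67108864 T2_t3a_c1_n) x2_t3a_c1_n_t121 339 214 481 = true := by decide +kernel

def x2_t3a_c1_n_t122 : T :=
  (.l 2311)

theorem x2_t3a_c1_n_h122 : chk3 (onCell 0 1073741824 0 429496730 0 67108864 T2_t3a_c1_n) x2_t3a_c1_n_t122 339 215 240 = true := by decide +kernel

def x2_t3a_c1_n_t123 : T :=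
  (.l 15)

theorem x2_t3a_c1_n_h123 : chk3 (onCell 0 1073741824 0 429496730 0 67108864 T2_t3a_c1_n) x2_t3a_c1_n_t123 338 107 241 = true := by decide +kernel

def x2_t3a_c1_n_t124 : T :=
  (.a (.l 15) (.b (.c (.a (.b (.c (.a (.l 15) (.b (.c (.a (.l 15) (.l 99)) (.a (.l 15) (.l 99)))
      (.c (.a (.l 15) (.l 99)) (.a (.l 15) (.l 99))))) (.a (.l 15) (.b (.c (.a (.l 15) (.l 99))
      (.a (.l 15) (.l 99))) (.c (.a (.l 15) (.l 99)) (.a (.l 15) (.l 99)))))) (.c (.a (.l 15) (.l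
      2311)) (.a (.l 15) (.l 2311)))) (.l 99)) (.a (.b (.c (.a (.l 15) (.b (.c (.a (.l 15) (.l
      99)) (.a (.l 15) (.l 99))) (.c (.a (.l 15) (.l 99)) (.a (.l 15) (.l 99))))) (.a (.l 15) (.b
      (.c (.a (.l 15) (.l 99)) (.a (.l 15) (.l 99))) (.c (.a (.l 15) (.l 99)) (.a (.l 15) (.l
      99)))))) (.c (.a (.l 15) (.l 2311)) (.a (.l 15) (.l 2311)))) (.l 99))) (.l 2311)))

theorem x2_t3a_c1_n_h124 : chk3 (onCell 0 1073741824 0 429496730 0 67108864 T2_t3a_c1_n) x2_t3a_c1_n_t124 339 214 482 = true := by decide +kernel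

def x2_t3a_c1_n_t125 : T :=
  (.a (.l 15) (.b (.c (.a (.b (.c (.a (.l 15) (.b (.c (.a (.l 15) (.l 99)) (.a (.l 15) (.l 99)))
      (.c (.a (.l 15) (.l 99)) (.a (.l 15) (.l 99))))) (.a (.l 15) (.b (.c (.a (.l 15) (.l 99))
      (.a (.l 15) (.l 99))) (.c (.a (.l 15) (.l 99)) (.a (.l 15) (.l 99)))))) (.c (.a (.l 15) (.l
      2311)) (.a (.l 15) (.l 99)))) (.l 99)) (.a (.b (.c (.a (.l 15) (.b (.c (.a (.l 15) (.l 99))
      (.a (.l 15) (.l 99))) (.c (.a (.l 15) (.l 99)) (.a (.l 15) (.l 99))))) (.a (.l 15) (.b (.c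
      (.a (.l 15) (.l 99)) (.a (.l 15) (.l 99))) (.c (.a (.l 15) (.l 99)) (.a (.l 15) (.l
      99)))))) (.c (.a (.l 15) (.l 99)) (.a (.l 15) (.l 99)))) (.l 99))) (.l 2183)))

theorem x2_t3a_c1_n_h125 : chk3 (onCell 0 1073741824 0 429496730 0 67108864 T2_t3a_c1_n) x2_t3a_c1_n_t125 339 214 483 = true := by decide +kernel

def x2_t3a_c1_n_t126 : T :=
  (.l 2183)

theorem x2_t3a_c1_n_h126 : chk3 (onCell 0 1073741824 0 429496730 0 67108864 T2_t3a_c1_n) x2_t3a_c1_n_t126 339 215 241 = true := by decide +kernel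

def x2_t3a_c1_n_t127 : T :=
  (.l 15)

theorem x2_t3a_c1_n_h127 : chk3 (onCell 0 1073741824 0 429496730 0 67108864 T2_t3a_c1_n) x2_t3a_c1_n_t127 168 53 121 = true := by decide +kernel

def x2_t3a_c1_n_t128 : T :=
  (.c (.a (.l 15) (.b (.l 2183) (.c (.a (.l 15) (.b (.l 2183) (.c (.a (.b (.l 2183) (.c (.a (.l
      15) (.l 2183)) (.a (.l 15) (.l 2183)))) (.l 3)) (.a (.b (.l 2183) (.c (.a (.l 15) (.l
      2183)) (.a (.l 15) (.l 2183)))) (.l 3))))) (.a (.l 15) (.b (.l 2183) (.c (.a (.b (.l 2183)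
      (.c (.a (.l 15) (.l 99)) (.a (.l 15) (.l 99)))) (.l 3)) (.a (.b (.l 2183) (.c (.a (.l 15)
      (.l 99)) (.a (.l 15) (.l 99)))) (.l 3)))))))) (.a (.l 15) (.b (.l 2183) (.c (.a (.l 15) (.b
      (.l 2183) (.c (.a (.b (.l 2183) (.a (.l 15) (.l 99))) (.l 3)) (.a (.b (.l 2183) (.a (.l 15)
      (.l 99))) (.l 3))))) (.a (.l 15) (.b (.l 2183) (.c (.a (.b (.l 2183) (.a (.l 15) (.l 99)))
      (.l 3)) (.a (.b (.l 2183) (.a (.l 15) (.l 99))) (.l 3)))))))))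

theorem x2_t3a_c1_n_h128 : chk3 (onCell 0 1073741824 0 429496730 0 67108864 T2_t3a_c1_n) x2_t3a_c1_n_t128 169 106 121 = true := by decide +kernel

def x2_t3a_c1_n_t129 : T :=
  (.l 15)

theorem x2_t3a_c1_n_h129 : chk3 (onCell 0 1073741824 0 429496730 0 67108864 T2_t3a_c1_n) x2_t3a_c1_n_t129 338 107 242 = true := by decide +kernel

def x2_t3a_c1_n_t130 : T :=
  (.a (.l 15) (.b (.c (.a (.b (.c (.a (.l 15) (.b (.c (.a (.l 15) (.l 99)) (.a (.l 15) (.l 99)))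
      (.c (.a (.l 15) (.l 99)) (.a (.l 15) (.l 99))))) (.a (.l 15) (.b (.c (.a (.l 15) (.l 99))
      (.a (.l 15) (.l 99))) (.c (.a (.l 15) (.l 99)) (.a (.l 15) (.l 99)))))) (.c (.a (.l 15) (.l
      99)) (.a (.l 15) (.l 99)))) (.l 99)) (.a (.b (.c (.a (.l 15) (.b (.c (.a (.l 15) (.l 99))
      (.a (.l 15) (.l 99))) (.c (.a (.l 15) (.l 99)) (.a (.l 15) (.l 99))))) (.a (.l 15) (.b (.c
      (.a (.l 15) (.l 99)) (.a (.l 15) (.l 99))) (.c (.a (.l 15) (.l 99)) (.a (.l 15) (.l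
      99)))))) (.c (.a (.l 15) (.l 99)) (.a (.l 15) (.l 99)))) (.l 99))) (.l 2183)))

theorem x2_t3a_c1_n_h130 : chk3 (onCell 0 1073741824 0 429496730 0 67108864 T2_t3a_c1_n) x2_t3a_c1_n_t130 339 214 484 = true := by decide +kernel

def x2_t3a_c1_n_t131 : T :=
  (.a (.l 15) (.b (.c (.a (.b (.c (.a (.l 15) (.b (.c (.a (.l 15) (.l 99)) (.a (.l 15) (.l 99)))
      (.c (.a (.l 15) (.l 99)) (.a (.l 15) (.l 99))))) (.a (.l 15) (.b (.c (.a (.l 15) (.l 99))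
      (.a (.l 15) (.l 99))) (.c (.a (.l 15) (.l 99)) (.a (.l 15) (.l 99)))))) (.c (.a (.l 15) (.l
      99)) (.a (.l 15) (.l 99)))) (.l 99)) (.a (.b (.c (.a (.l 15) (.b (.c (.a (.l 15) (.l 99))
      (.l 99)) (.c (.a (.l 15) (.l 99)) (.a (.l 15) (.l 99))))) (.a (.l 15) (.b (.l 99) (.c (.a
      (.l 15) (.l 99)) (.l 99))))) (.c (.a (.l 15) (.l 99)) (.a (.l 15) (.l 99)))) (.l 99))) (.l
      2183)))

theorem x2_t3a_c1_n_h131 : chk3 (onCell 0 1073741824 0 429496730 0 67108864 T2_t3a_c1_n) x2_t3a_c1_n_t131 339 214 485 = true := by decide +kernel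

def x2_t3a_c1_n_t132 : T :=
  (.l 2183)

theorem x2_t3a_c1_n_h132 : chk3 (onCell 0 1073741824 0 429496730 0 67108864 T2_t3a_c1_n) x2_t3a_c1_n_t132 339 215 242 = true := by decide +kernel

def x2_t3a_c1_n_t133 : T :=
  (.a (.l 15) (.b (.c (.a (.l 15) (.b (.c (.a (.b (.c (.a (.l 15) (.b (.l 99) (.l 99))) (.a (.l
      15) (.b (.l 99) (.l 99)))) (.c (.a (.l 15) (.l 99)) (.a (.l 15) (.l 99)))) (.l 99)) (.a (.b
      (.c (.a (.l 15) (.b (.l 99) (.l 99))) (.a (.l 15) (.b (.l 99) (.l 99)))) (.c (.a (.l 15)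
      (.l 99)) (.a (.l 15) (.l 99)))) (.l 99))) (.l 2183))) (.a (.l 15) (.b (.c (.a (.b (.c (.a
      (.l 15) (.b (.l 99) (.l 99))) (.a (.l 15) (.b (.l 99) (.l 99)))) (.c (.a (.l 15) (.l 99))
      (.a (.l 15) (.l 99)))) (.l 99)) (.a (.b (.c (.a (.l 15) (.b (.l 99) (.l 99))) (.a (.l 15)
      (.b (.l 99) (.l 99)))) (.c (.a (.l 15) (.l 99)) (.a (.l 15) (.l 99)))) (.l 99))) (.l
      2183)))) (.l 2183)))

theorem x2_t3a_c1_n_h133 : chk3 (onCell 0 1073741824 0 429496730 0 67108864 T2_t3a_c1_n) x2_t3a_c1_n_t133 169 107 243 = true := by decide +kernel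

def x2_t3a_c1_n_t134 : T :=
  (.b (.l 67) (.c (.a (.b (.l 67) (.l 99)) (.l 67)) (.a (.b (.l 67) (.l 99)) (.l 67))))

theorem x2_t3a_c1_n_h134 : chk3 (onCell 0 1073741824 0 429496730 0 67108864 T2_t3a_c1_n) x2_t3a_c1_n_t134 85 26 60 = true := by decide +kernel

def x2_t3a_c1_n_t135 : T :=
  (.a (.l 15) (.l 2183))

theorem x2_t3a_c1_n_h135 : chk3 (onCell 0 1073741824 0 429496730 0 67108864 T2_t3a_c1_n) x2_t3a_c1_n_t135 84 52 61 = true := by decide +kernel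

def x2_t3a_c1_n_t136 : T :=
  (.l 15)

theorem x2_t3a_c1_n_h136 : chk3 (onCell 0 1073741824 0 429496730 0 67108864 T2_t3a_c1_n) x2_t3a_c1_n_t136 168 53 61 = true := by decide +kernel

def x2_t3a_c1_n_t137 : T :=
  (.a (.l 15) (.c (.b (.l 2183) (.c (.a (.l 15) (.b (.l 2183) (.c (.a (.b (.l 2183) (.a (.l 15)
      (.l 99))) (.l 3)) (.a (.b (.l 2183) (.a (.l 15) (.l 99))) (.l 3))))) (.a (.l 15) (.b (.l
      2183) (.a (.c (.b (.l 2183) (.a (.l 15) (.l 99))) (.b (.l 2183) (.a (.l 15) (.l 99)))) (.l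
      3)))))) (.b (.l 2183) (.a (.l 15) (.c (.b (.l 2183) (.a (.c (.b (.l 2183) (.a (.l 15) (.l
      99))) (.b (.l 2183) (.a (.l 15) (.l 99)))) (.l 3))) (.b (.l 2183) (.a (.b (.l 2183) (.c (.a
      (.l 15) (.l 99)) (.a (.l 15) (.l 99)))) (.l 3))))))))

theorem x2_t3a_c1_n_h137 : chk3 (onCell 0 1073741824 0 429496730 0 67108864 T2_t3a_c1_n) x2_t3a_c1_n_t137 169 106 122 = true := by decide +kernel

def x2_t3a_c1_n_t138 : T :=
  (.l 15)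

theorem x2_t3a_c1_n_h138 : chk3 (onCell 0 1073741824 0 429496730 0 67108864 T2_t3a_c1_n) x2_t3a_c1_n_t138 338 107 122 = true := by decide +kernel

def x2_t3a_c1_n_t139 : T :=
  (.b (.c (.a (.l 15) (.b (.c (.a (.b (.c (.a (.l 15) (.b (.l 99) (.l 99))) (.a (.l 15) (.l 99)))
      (.c (.a (.l 15) (.l 99)) (.a (.l 15) (.l 99)))) (.l 99)) (.a (.b (.c (.a (.l 15) (.l 99))
      (.a (.l 15) (.l 99))) (.c (.a (.l 15) (.l 99)) (.a (.l 15) (.l 99)))) (.l 99))) (.l 2183)))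
      (.a (.l 15) (.b (.c (.a (.b (.c (.a (.l 15) (.l 99)) (.a (.l 15) (.l 99))) (.c (.a (.l 15)
      (.l 99)) (.a (.l 15) (.l 99)))) (.l 67)) (.a (.b (.a (.l 15) (.l 99)) (.c (.a (.l 15) (.l
      99)) (.a (.l 15) (.l 99)))) (.l 67))) (.l 2247)))) (.l 2183))

theorem x2_t3a_c1_n_h139 : chk3 (onCell 0 1073741824 0 429496730 0 67108864 T2_t3a_c1_n) x2_t3a_c1_n_t139 339 107 244 = true := by decide +kernel

def x2_t3a_c1_n_t140 : T :=
  (.b (.a (.l 15) (.c (.b (.a (.c (.b (.a (.l 15) (.l 99)) (.c (.a (.l 15) (.l 99)) (.a (.l 15)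
      (.l 99)))) (.b (.a (.l 15) (.l 99)) (.a (.l 15) (.l 99)))) (.l 67)) (.l 2247)) (.b (.a (.c
      (.b (.a (.l 15) (.l 99)) (.a (.l 15) (.l 99))) (.b (.a (.l 15) (.l 99)) (.a (.l 15) (.l
      99)))) (.l 67)) (.l 2247)))) (.l 2183))

theorem x2_t3a_c1_n_h140 : chk3 (onCell 0 1073741824 0 429496730 0 67108864 T2_t3a_c1_n) x2_t3a_c1_n_t140 339 107 245 = true := by decide +kernel

def x2_t3a_c1_n_t141 : T :=
  (.a (.l 15) (.c (.b (.l 2183) (.a (.l 15) (.c (.b (.l 2183) (.a (.b (.l 2183) (.c (.a (.l 15)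
      (.l 99)) (.l 2183))) (.l 3))) (.b (.l 2183) (.a (.l 2183) (.l 3)))))) (.b (.l 2183) (.a (.l
      15) (.c (.b (.l 2183) (.a (.l 2183) (.l 3))) (.b (.l 2183) (.a (.l 2183) (.l 3))))))))

theorem x2_t3a_c1_n_h141 : chk3 (onCell 0 1073741824 0 429496730 0 67108864 T2_t3a_c1_n) x2_t3a_c1_n_t141 169 106 123 = true := by decide +kernel

def x2_t3a_c1_n_t142 : T :=
  (.a (.l 15) (.c (.b (.a (.l 15) (.c (.b (.a (.c (.b (.a (.l 15) (.l 99)) (.a (.l 15) (.l 99)))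
      (.b (.a (.l 15) (.l 99)) (.a (.l 15) (.l 99)))) (.l 67)) (.l 2247)) (.b (.a (.c (.b (.a (.l
      15) (.l 99)) (.a (.l 15) (.l 99))) (.b (.a (.l 15) (.l 99)) (.a (.l 15) (.l 99)))) (.l 67))
      (.l 2247)))) (.l 2183)) (.b (.a (.l 15) (.c (.b (.a (.c (.b (.a (.l 15) (.l 99)) (.a (.l
      15) (.l 99))) (.b (.a (.l 15) (.l 99)) (.a (.l 15) (.l 99)))) (.l 67)) (.l 2247)) (.b (.a
      (.c (.b (.a (.l 15) (.l 99)) (.a (.l 15) (.l 99))) (.b (.a (.l 15) (.l 99)) (.a (.l 15) (.l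
      99)))) (.l 67)) (.l 2247)))) (.l 2183))))

theorem x2_t3a_c1_n_h142 : chk3 (onCell 0 1073741824 0 429496730 0 67108864 T2_t3a_c1_n) x2_t3a_c1_n_t142 169 107 123 = true := by decide +kernel

def x2_t3a_c1_n_t143 : T :=
  (.b (.l 67) (.a (.c (.b (.l 67) (.l 67)) (.b (.l 67) (.l 67))) (.l 67)))

theorem x2_t3a_c1_n_h143 : chk3 (onCell 0 1073741824 0 429496730 0 67108864 T2_t3a_c1_n) x2_t3a_c1_n_t143 85 26 61 = true := by decide +kernel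

def x2_t3a_c1_n_t144 : T :=
  (.c (.a (.b (.c (.a (.l 15) (.l 2183)) (.a (.l 15) (.l 2183))) (.c (.b (.a (.l 15) (.l 2183))
      (.a (.l 15) (.c (.b (.l 2311) (.a (.l 15) (.l 2311))) (.b (.l 2183) (.a (.l 15) (.l
      2183)))))) (.b (.a (.l 15) (.l 2183)) (.a (.l 15) (.c (.b (.l 2183) (.a (.l 15) (.l 2183)))
      (.b (.l 2183) (.a (.l 15) (.l 2183)))))))) (.b (.l 2247) (.l 67))) (.a (.b (.a (.l 15) (.l
      2183)) (.b (.a (.l 15) (.l 2183)) (.a (.l 15) (.c (.b (.l 2183) (.c (.a (.l 15) (.l 2183))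
      (.a (.l 15) (.l 2183)))) (.b (.l 2183) (.a (.l 15) (.l 2183))))))) (.b (.l 2247) (.l 67))))

theorem x2_t3a_c1_n_h144 : chk3 (onCell 0 1073741824 0 429496730 0 67108864 T2_t3a_c1_n) x2_t3a_c1_n_t144 42 27 30 = true := by decide +kernel

def x2_t3a_c1_n_t145 : T :=
  (.a (.l 15) (.l 2055))

theorem x2_t3a_c1_n_h145 : chk3 (onCell 0 1073741824 0 429496730 0 67108864 T2_t3a_c1_n) x2_t3a_c1_n_t145 84 52 62 = true := by decide +kernel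

def x2_t3a_c1_n_t146 : T :=
  (.l 15)

theorem x2_t3a_c1_n_h146 : chk3 (onCell 0 1073741824 0 429496730 0 67108864 T2_t3a_c1_n) x2_t3a_c1_n_t146 168 53 62 = true := by decide +kernel

def x2_t3a_c1_n_t147 : T :=
  (.a (.l 15) (.c (.b (.l 2055) (.a (.l 15) (.c (.b (.l 2055) (.a (.l 2055) (.l 3))) (.b (.l
      2055) (.a (.l 2055) (.l 3)))))) (.b (.l 2055) (.a (.l 15) (.c (.b (.l 2055) (.a (.l 2055)
      (.l 3))) (.b (.l 2055) (.a (.l 2055) (.l 3))))))))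

theorem x2_t3a_c1_n_h147 : chk3 (onCell 0 1073741824 0 429496730 0 67108864 T2_t3a_c1_n) x2_t3a_c1_n_t147 169 106 124 = true := by decide +kernel

def x2_t3a_c1_n_t148 : T :=
  (.l 15)

theorem x2_t3a_c1_n_h148 : chk3 (onCell 0 1073741824 0 429496730 0 67108864 T2_t3a_c1_n) x2_t3a_c1_n_t148 338 107 124 = true := by decide +kernel

def x2_t3a_c1_n_t149 : T :=
  (.b (.a (.l 15) (.c (.b (.a (.c (.b (.a (.l 15) (.l 99)) (.a (.l 15) (.l 99))) (.b (.a (.l 15)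
      (.l 99)) (.a (.l 15) (.l 99)))) (.l 67)) (.l 2119)) (.b (.a (.c (.b (.a (.c (.b (.a (.l 15)
      (.l 99)) (.a (.l 15) (.l 99))) (.b (.a (.l 15) (.l 99)) (.a (.l 15) (.l 99)))) (.l 99)) (.a
      (.c (.b (.a (.l 15) (.l 99)) (.l 2055)) (.b (.a (.l 15) (.l 99)) (.l 2055))) (.l 99))) (.b
      (.a (.c (.b (.a (.l 15) (.l 99)) (.a (.l 15) (.l 99))) (.b (.a (.l 15) (.l 99)) (.a (.l 15)
      (.l 99)))) (.l 99)) (.a (.c (.b (.a (.l 15) (.l 99)) (.l 2055)) (.b (.a (.l 15) (.l 99))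
      (.l 2055))) (.l 99)))) (.l 67)) (.l 2119)))) (.l 2055))

theorem x2_t3a_c1_n_h149 : chk3 (onCell 0 1073741824 0 429496730 0 67108864 T2_t3a_c1_n) x2_t3a_c1_n_t149 339 107 248 = true := by decide +kernel

def x2_t3a_c1_n_t150 : T :=
  (.l 15)

theorem x2_t3a_c1_n_h150 : chk3 (onCell 0 1073741824 0 429496730 0 67108864 T2_t3a_c1_n) x2_t3a_c1_n_t150 678 214 249 = true := by decide +kernel

def x2_t3a_c1_n_t151 : T :=
  (.b (.a (.c (.b (.a (.c (.b (.a (.l 15) (.l 99)) (.a (.l 15) (.l 99))) (.b (.a (.l 15) (.l 99))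
      (.a (.l 15) (.l 99)))) (.l 99)) (.a (.c (.b (.a (.l 15) (.l 99)) (.l 2055)) (.b (.a (.l 15)
      (.l 99)) (.l 2055))) (.l 99))) (.b (.a (.c (.b (.a (.l 15) (.l 99)) (.a (.l 15) (.l 99)))
      (.b (.a (.l 15) (.l 99)) (.a (.l 15) (.l 99)))) (.l 99)) (.a (.c (.b (.a (.l 15) (.l 99))
      (.l 2055)) (.b (.a (.l 15) (.l 99)) (.l 2055))) (.l 99)))) (.l 67)) (.l 2119))

theorem x2_t3a_c1_n_h151 : chk3 (onCell 0 1073741824 0 429496730 0 67108864 T2_t3a_c1_n) x2_t3a_c1_n_t151 679 214 498 = true := by decide +kernel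

end Pool.Agent.Strip051.LC.E1.Ch
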