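import Pool.Agent.Strip051.LC.E1.Ch.Te

/-! # Rests near the full period: certificate P_x2_t3a_c1_n_4 -/

set_option maxRecDepth 100000

namespace Pool.Agent.Strip051.LC.E1.Ch

open Pool.Agent.Strip051.PB
open Pool.Agent.Strip051.LC.E0.Ch (onCell Tree)

def x2_t3a_c1_n_t152 : T :=
  (.b (.a (.c (.b (.a (.c (.b (.a (.l 15) (.l 99)) (.a (.l 15) (.l 99))) (.b (.a (.l 15) (.l 99))
      (.a (.l 15) (.l 99)))) (.l 99)) (.a (.c (.b (.a (.l 15) (.l 99)) (.l 2055)) (.l 99)) (.l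
      99))) (.b (.a (.c (.b (.a (.l 15) (.l 99)) (.a (.l 15) (.l 99))) (.b (.a (.l 15) (.l 99))
      (.a (.l 15) (.l 99)))) (.l 99)) (.a (.l 99) (.l 99)))) (.l 67)) (.l 2119))

theorem x2_t3a_c1_n_h152 : chk3 (onCell 0 1073741824 0 429496730 0 67108864 T2_t3a_c1_n) x2_t3a_c1_n_t152 679 214 499 = true := by decide +kernel

def x2_t3a_c1_n_t153 : T :=
  (.l 2055)

theorem x2_t3a_c1_n_h153 : chk3 (onCell 0 1073741824 0 429496730 0 67108864 T2_t3a_c1_n) x2_t3a_c1_n_t153 339 215 249 = true := by decide +kernel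

def x2_t3a_c1_n_t154 : T :=
  (.a (.l 15) (.c (.b (.l 2055) (.a (.l 15) (.c (.b (.l 2055) (.a (.l 2055) (.l 3))) (.b (.l
      2055) (.a (.l 2055) (.l 3)))))) (.b (.l 2055) (.a (.l 15) (.l 99)))))

theorem x2_t3a_c1_n_h154 : chk3 (onCell 0 1073741824 0 429496730 0 67108864 T2_t3a_c1_n) x2_t3a_c1_n_t154 169 106 125 = true := by decide +kernel

def x2_t3a_c1_n_t155 : T :=
  (.l 15)

theorem x2_t3a_c1_n_h155 : chk3 (onCell 0 1073741824 0 429496730 0 67108864 T2_t3a_c1_n) x2_t3a_c1_n_t155 338 107 125 = true := by decide +kernel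

def x2_t3a_c1_n_t156 : T :=
  (.b (.a (.l 15) (.c (.b (.a (.c (.b (.a (.c (.b (.a (.l 15) (.l 99)) (.a (.l 15) (.l 99))) (.b
      (.a (.l 15) (.l 99)) (.a (.l 15) (.l 99)))) (.l 99)) (.a (.l 99) (.l 99))) (.b (.a (.c (.b
      (.a (.l 15) (.l 99)) (.a (.l 15) (.l 99))) (.b (.a (.l 15) (.l 99)) (.a (.l 15) (.l 99))))
      (.l 67)) (.a (.l 99) (.l 99)))) (.l 67)) (.l 2119)) (.b (.a (.c (.b (.a (.c (.b (.a (.l 15)
      (.l 99)) (.a (.l 15) (.l 99))) (.b (.a (.l 15) (.l 99)) (.a (.l 15) (.l 99)))) (.l 67)) (.a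
      (.l 99) (.l 67))) (.b (.a (.c (.b (.a (.l 15) (.l 99)) (.a (.l 15) (.l 99))) (.b (.l 99)
      (.a (.l 15) (.l 99)))) (.l 67)) (.a (.l 99) (.l 67)))) (.l 67)) (.l 2119)))) (.l 2055))

theorem x2_t3a_c1_n_h156 : chk3 (onCell 0 1073741824 0 429496730 0 67108864 T2_t3a_c1_n) x2_t3a_c1_n_t156 339 107 250 = true := by decide +kernel

def x2_t3a_c1_n_t157 : T :=
  (.b (.a (.l 15) (.c (.b (.a (.c (.b (.a (.c (.b (.l 99) (.a (.l 15) (.l 99))) (.b (.l 99) (.a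
      (.l 15) (.l 99)))) (.l 67)) (.l 99)) (.b (.a (.c (.b (.l 99) (.a (.l 15) (.l 99))) (.b (.l
      99) (.a (.l 15) (.l 99)))) (.l 67)) (.l 99))) (.l 67)) (.l 2119)) (.b (.a (.c (.b (.a (.c
      (.b (.l 99) (.a (.l 15) (.l 99))) (.b (.l 99) (.l 99))) (.l 67)) (.l 99)) (.b (.a (.c (.b
      (.l 99) (.l 99)) (.b (.l 99) (.l 99))) (.l 67)) (.l 99))) (.l 67)) (.l 2119)))) (.l 2055))

theorem x2_t3a_c1_n_h157 : chk3 (onCell 0 1073741824 0 429496730 0 67108864 T2_t3a_c1_n) x2_t3a_c1_n_t157 339 107 251 = true := by decide +kernel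

def x2_t3a_c1_n_t158 : T :=
  (.a (.l 15) (.l 1927))

theorem x2_t3a_c1_n_h158 : chk3 (onCell 0 1073741824 0 429496730 0 67108864 T2_t3a_c1_n) x2_t3a_c1_n_t158 84 52 63 = true := by decide +kernel

def x2_t3a_c1_n_t159 : T :=
  (.l 15)

theorem x2_t3a_c1_n_h159 : chk3 (onCell 0 1073741824 0 429496730 0 67108864 T2_t3a_c1_n) x2_t3a_c1_n_t159 168 53 63 = true := by decide +kernel

def x2_t3a_c1_n_t160 : T :=
  (.b (.a (.l 15) (.c (.b (.l 2055) (.a (.l 15) (.l 99))) (.b (.l 2055) (.a (.l 15) (.l 99)))))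
      (.a (.l 15) (.c (.b (.a (.l 15) (.c (.b (.a (.c (.b (.a (.l 99) (.l 67)) (.l 99)) (.b (.a
      (.l 99) (.l 67)) (.l 99))) (.l 67)) (.l 99)) (.b (.a (.c (.b (.a (.l 99) (.l 67)) (.l 99))
      (.b (.l 99) (.l 99))) (.l 67)) (.l 99)))) (.l 2055)) (.b (.a (.l 15) (.c (.b (.a (.c (.b
      (.l 99) (.l 99)) (.b (.l 99) (.l 99))) (.l 67)) (.l 99)) (.b (.a (.c (.b (.l 99) (.l 99))
      (.b (.l 99) (.l 99))) (.l 67)) (.l 99)))) (.l 2055)))))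

theorem x2_t3a_c1_n_h160 : chk3 (onCell 0 1073741824 0 429496730 0 67108864 T2_t3a_c1_n) x2_t3a_c1_n_t160 169 53 126 = true := by decide +kernel

def x2_t3a_c1_n_t161 : T :=
  (.b (.a (.l 15) (.c (.b (.l 2055) (.a (.l 15) (.l 99))) (.b (.l 1927) (.a (.l 15) (.l 99)))))
      (.a (.l 15) (.c (.b (.a (.l 15) (.c (.b (.a (.c (.b (.l 99) (.l 99)) (.b (.l 99) (.l 99)))
      (.l 67)) (.l 99)) (.b (.a (.c (.b (.l 99) (.l 99)) (.b (.l 99) (.l 99))) (.l 67)) (.l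
      99)))) (.l 2055)) (.b (.a (.l 15) (.c (.b (.a (.l 99) (.l 67)) (.l 99)) (.b (.a (.l 99) (.l
      67)) (.l 99)))) (.l 1927)))))

theorem x2_t3a_c1_n_h161 : chk3 (onCell 0 1073741824 0 429496730 0 67108864 T2_t3a_c1_n) x2_t3a_c1_n_t161 169 53 127 = true := by decide +kernel

def x2_t3a_c1_n_t162 : T :=
  (.c (.b (.l 67) (.a (.c (.b (.l 67) (.l 67)) (.b (.l 67) (.l 67))) (.l 67))) (.b (.l 67) (.a
      (.c (.b (.l 67) (.l 67)) (.b (.l 67) (.l 67))) (.l 67))))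

theorem x2_t3a_c1_n_h162 : chk3 (onCell 0 1073741824 0 429496730 0 67108864 T2_t3a_c1_n) x2_t3a_c1_n_t162 85 26 31 = true := by decide +kernel

def x2_t3a_c1_n_t163 : T :=
  (.a (.b (.c (.a (.l 15) (.l 2055)) (.a (.l 15) (.l 1927))) (.c (.b (.a (.l 15) (.l 2055)) (.a
      (.l 15) (.c (.b (.l 2055) (.a (.l 15) (.l 2055))) (.l 2055)))) (.b (.a (.l 15) (.l 1927))
      (.a (.l 15) (.l 1927))))) (.b (.l 71) (.l 67)))

theorem x2_t3a_c1_n_h163 : chk3 (onCell 0 1073741824 0 429496730 0 67108864 T2_t3a_c1_n) x2_t3a_c1_n_t163 42 27 31 = true := by decide +kernel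

def x2_t3a_c1_n_t164 : T :=
  (.c (.b (.c (.a (.l 67) (.l 2243)) (.a (.l 67) (.l 2243))) (.b (.l 67) (.c (.a (.l 67) (.l
      2243)) (.a (.l 67) (.l 2243))))) (.b (.a (.c (.l 67) (.b (.l 67) (.l 67))) (.l 1987)) (.b
      (.l 67) (.a (.l 67) (.l 1987)))))

theorem x2_t3a_c1_n_h164 : chk3 (onCell 0 1073741824 0 429496730 0 67108864 T2_t3a_c1_n) x2_t3a_c1_n_t164 43 13 15 = true := by decide +kernel

def x2_t3a_c1_n_t165 : T :=
  (.c (.c (.l 16327) (.a (.l 15) (.b (.l 8135) (.l 8135)))) (.a (.l 15) (.b (.b (.a (.c (.l 5447)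
      (.c (.l 4679) (.c (.l 4423) (.l 71)))) (.c (.l 5443) (.c (.l 4675) (.l 4035)))) (.c (.l
      5447) (.c (.l 4679) (.l 71)))) (.l 4039))))

theorem x2_t3a_c1_n_h165 : chk3 (onCell 0 1073741824 0 429496730 0 67108864 T2_t3a_c1_n) x2_t3a_c1_n_t165 10 7 2 = true := by decide +kernel

def x2_t3a_c1_n_t166 : T :=
  (.l 15)

theorem x2_t3a_c1_n_h166 : chk3 (onCell 0 1073741824 0 429496730 0 67108864 T2_t3a_c1_n) x2_t3a_c1_n_t166 20 7 3 = true := by decide +kernel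

def x2_t3a_c1_n_t167 : T :=
  (.c (.c (.b (.a (.l 15) (.c (.l 71) (.b (.l 4039) (.l 4039)))) (.l 3975)) (.b (.a (.l 15) (.c
      (.b (.l 3911) (.l 3911)) (.b (.l 3911) (.l 3911)))) (.l 3847))) (.c (.b (.a (.l 15) (.c (.b
      (.l 71) (.l 3783)) (.b (.a (.b (.l 3783) (.l 3783)) (.l 67)) (.l 3783)))) (.l 3719)) (.b
      (.a (.l 15) (.b (.c (.a (.b (.l 71) (.l 3655)) (.l 67)) (.a (.b (.c (.a (.l 71) (.l 67))
      (.a (.b (.l 3591) (.c (.l 71) (.a (.l 71) (.l 67)))) (.l 67))) (.l 3655)) (.l 67))) (.l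
      3655))) (.l 3591))))

theorem x2_t3a_c1_n_h167 : chk3 (onCell 0 1073741824 0 429496730 0 67108864 T2_t3a_c1_n) x2_t3a_c1_n_t167 42 14 24 = true := by decide +kernel

def x2_t3a_c1_n_t168 : T :=
  (.l 15)

theorem x2_t3a_c1_n_h168 : chk3 (onCell 0 1073741824 0 429496730 0 67108864 T2_t3a_c1_n) x2_t3a_c1_n_t168 84 28 100 = true := by decide +kernel

def x2_t3a_c1_n_t169 : T :=
  (.a (.b (.l 3591) (.c (.a (.b (.l 71) (.l 71)) (.l 67)) (.a (.b (.l 71) (.c (.a (.l 15) (.b (.l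
      71) (.l 3655))) (.a (.l 15) (.b (.l 71) (.l 3655))))) (.l 67)))) (.l 67))

theorem x2_t3a_c1_n_h169 : chk3 (onCell 0 1073741824 0 429496730 0 67108864 T2_t3a_c1_n) x2_t3a_c1_n_t169 170 112 400 = true := by decide +kernel

def x2_t3a_c1_n_t170 : T :=
  (.l 3591)

theorem x2_t3a_c1_n_h170 : chk3 (onCell 0 1073741824 0 429496730 0 67108864 T2_t3a_c1_n) x2_t3a_c1_n_t170 340 224 401 = true := by decide +kernel

def x2_t3a_c1_n_t171 : T :=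
  (.a (.b (.c (.a (.l 15) (.b (.l 3591) (.l 71))) (.a (.l 15) (.b (.l 99) (.c (.l 71) (.a (.l
      3655) (.l 67)))))) (.c (.a (.l 15) (.b (.c (.a (.l 71) (.l 67)) (.a (.b (.l 71) (.l 3591))
      (.l 67))) (.l 3655))) (.a (.l 15) (.b (.c (.a (.b (.l 71) (.l 3655)) (.l 67)) (.a (.b (.a
      (.b (.l 71) (.a (.l 15) (.l 99))) (.l 99)) (.l 3655)) (.l 67))) (.l 3655))))) (.l 67))

theorem x2_t3a_c1_n_h171 : chk3 (onCell 0 1073741824 0 429496730 0 67108864 T2_t3a_c1_n) x2_t3a_c1_n_t171 340 225 802 = true := by decide +kernel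

def x2_t3a_c1_n_t172 : T :=
  (.a (.b (.c (.a (.l 15) (.b (.l 99) (.c (.a (.l 3655) (.l 67)) (.a (.l 99) (.l 67))))) (.a (.l
      15) (.b (.l 99) (.c (.a (.l 99) (.l 67)) (.a (.l 99) (.l 67)))))) (.c (.a (.l 15) (.b (.c
      (.a (.b (.a (.b (.a (.l 15) (.l 99)) (.a (.l 15) (.l 99))) (.l 99)) (.l 3655)) (.l 67)) (.a
      (.b (.a (.b (.a (.l 15) (.l 99)) (.a (.l 15) (.l 99))) (.l 99)) (.l 3655)) (.l 67))) (.l
      3655))) (.a (.l 15) (.b (.c (.a (.b (.a (.b (.a (.l 15) (.l 99)) (.a (.l 15) (.l 99))) (.l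
      99)) (.l 3655)) (.l 67)) (.a (.b (.a (.b (.a (.l 15) (.l 99)) (.a (.l 15) (.l 99))) (.l
      99)) (.l 3655)) (.l 67))) (.l 3655))))) (.l 67))

theorem x2_t3a_c1_n_h172 : chk3 (onCell 0 1073741824 0 429496730 0 67108864 T2_t3a_c1_n) x2_t3a_c1_n_t172 340 225 803 = true := by decide +kernel

def x2_t3a_c1_n_t173 : T :=
  (.l 67)

theorem x2_t3a_c1_n_h173 : chk3 (onCell 0 1073741824 0 429496730 0 67108864 T2_t3a_c1_n) x2_t3a_c1_n_t173 341 112 401 = true := by decide +kernel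

def x2_t3a_c1_n_t174 : T :=
  (.l 3655)

theorem x2_t3a_c1_n_h174 : chk3 (onCell 0 1073741824 0 429496730 0 67108864 T2_t3a_c1_n) x2_t3a_c1_n_t174 170 113 200 = true := by decide +kernel

def x2_t3a_c1_n_t175 : T :=
  (.l 67)

theorem x2_t3a_c1_n_h175 : chk3 (onCell 0 1073741824 0 429496730 0 67108864 T2_t3a_c1_n) x2_t3a_c1_n_t175 171 56 200 = true := by decide +kernel

def x2_t3a_c1_n_t176 : T :=
  (.l 3463)

theorem x2_t3a_c1_n_h176 : chk3 (onCell 0 1073741824 0 429496730 0 67108864 T2_t3a_c1_n) x2_t3a_c1_n_t176 340 224 402 = true := by decide +kernel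

def x2_t3a_c1_n_t177 : T :=
  (.a (.b (.c (.a (.l 15) (.b (.l 99) (.c (.a (.l 99) (.l 67)) (.a (.l 99) (.l 67))))) (.a (.l
      15) (.b (.l 99) (.c (.a (.l 99) (.l 67)) (.a (.l 99) (.l 67)))))) (.c (.a (.l 15) (.b (.c
      (.a (.b (.a (.b (.a (.l 15) (.l 99)) (.a (.l 15) (.l 99))) (.l 99)) (.l 3655)) (.l 67)) (.a
      (.b (.a (.b (.a (.l 15) (.l 99)) (.a (.l 15) (.l 99))) (.l 99)) (.l 3655)) (.l 67))) (.l
      3655))) (.a (.l 15) (.b (.c (.a (.b (.a (.b (.a (.l 15) (.l 99)) (.a (.l 15) (.l 99))) (.l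
      99)) (.l 3527)) (.l 67)) (.a (.b (.a (.b (.a (.l 15) (.l 99)) (.a (.l 15) (.l 99))) (.l
      99)) (.l 3527)) (.l 67))) (.l 3527))))) (.l 67))

theorem x2_t3a_c1_n_h177 : chk3 (onCell 0 1073741824 0 429496730 0 67108864 T2_t3a_c1_n) x2_t3a_c1_n_t177 340 225 804 = true := by decide +kernel

def x2_t3a_c1_n_t178 : T :=
  (.a (.b (.c (.a (.l 15) (.b (.l 99) (.c (.a (.l 99) (.l 67)) (.l 99)))) (.a (.l 15) (.l 99)))
      (.c (.a (.l 15) (.b (.c (.a (.b (.a (.b (.a (.l 15) (.l 99)) (.a (.l 15) (.l 99))) (.l 99))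
      (.l 99)) (.l 67)) (.a (.b (.a (.b (.l 99) (.l 99)) (.l 99)) (.l 99)) (.l 67))) (.l 3527)))
      (.a (.l 15) (.b (.c (.a (.b (.a (.b (.l 99) (.l 99)) (.l 67)) (.l 99)) (.l 67)) (.a (.b (.a
      (.b (.l 99) (.l 99)) (.l 67)) (.l 99)) (.l 67))) (.l 99))))) (.l 67))

theorem x2_t3a_c1_n_h178 : chk3 (onCell 0 1073741824 0 429496730 0 67108864 T2_t3a_c1_n) x2_t3a_c1_n_t178 340 225 805 = true := by decide +kernel

def x2_t3a_c1_n_t179 : T :=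
  (.l 67)

theorem x2_t3a_c1_n_h179 : chk3 (onCell 0 1073741824 0 429496730 0 67108864 T2_t3a_c1_n) x2_t3a_c1_n_t179 341 112 402 = true := by decide +kernel

def x2_t3a_c1_n_t180 : T :=
  (.a (.b (.l 3463) (.c (.a (.b (.c (.a (.l 15) (.l 99)) (.a (.l 15) (.l 99))) (.c (.a (.l 15)
      (.b (.c (.a (.b (.a (.b (.l 99) (.l 99)) (.l 67)) (.l 99)) (.l 67)) (.a (.b (.a (.b (.l 99)
      (.l 99)) (.l 67)) (.l 99)) (.l 67))) (.l 99))) (.a (.l 15) (.b (.c (.a (.b (.a (.b (.l 99)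
      (.l 99)) (.l 67)) (.l 99)) (.l 67)) (.a (.b (.a (.l 99) (.l 67)) (.l 99)) (.l 67))) (.l
      99))))) (.l 67)) (.a (.b (.c (.a (.l 15) (.l 99)) (.a (.l 15) (.l 99))) (.c (.a (.l 15) (.b
      (.c (.a (.b (.a (.l 99) (.l 67)) (.l 99)) (.l 67)) (.a (.b (.a (.l 99) (.l 67)) (.l 99))
      (.l 67))) (.l 99))) (.a (.l 15) (.b (.c (.a (.b (.l 99) (.l 99)) (.l 67)) (.a (.b (.l 99)
      (.l 99)) (.l 67))) (.l 99))))) (.l 67)))) (.l 67))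

theorem x2_t3a_c1_n_h180 : chk3 (onCell 0 1073741824 0 429496730 0 67108864 T2_t3a_c1_n) x2_t3a_c1_n_t180 170 112 403 = true := by decide +kernel

def x2_t3a_c1_n_t181 : T :=
  (.l 3527)

theorem x2_t3a_c1_n_h181 : chk3 (onCell 0 1073741824 0 429496730 0 67108864 T2_t3a_c1_n) x2_t3a_c1_n_t181 170 113 201 = true := by decide +kernel

def x2_t3a_c1_n_t182 : T :=
  (.l 67)

theorem x2_t3a_c1_n_h182 : chk3 (onCell 0 1073741824 0 429496730 0 67108864 T2_t3a_c1_n) x2_t3a_c1_n_t182 171 56 201 = true := by decide +kernel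

def x2_t3a_c1_n_t183 : T :=
  (.b (.l 71) (.l 3463))

theorem x2_t3a_c1_n_h183 : chk3 (onCell 0 1073741824 0 429496730 0 67108864 T2_t3a_c1_n) x2_t3a_c1_n_t183 85 57 100 = true := by decide +kernel

def x2_t3a_c1_n_t184 : T :=
  (.l 15)

theorem x2_t3a_c1_n_h184 : chk3 (onCell 0 1073741824 0 429496730 0 67108864 T2_t3a_c1_n) x2_t3a_c1_n_t184 84 28 101 = true := by decide +kernel

def x2_t3a_c1_n_t185 : T :=
  (.a (.b (.l 3463) (.c (.a (.b (.c (.a (.l 15) (.l 99)) (.a (.l 15) (.l 99))) (.c (.a (.l 15)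
      (.b (.c (.a (.b (.l 99) (.l 99)) (.l 67)) (.a (.b (.l 99) (.l 99)) (.l 67))) (.l 99))) (.a
      (.l 15) (.b (.c (.a (.b (.l 99) (.l 99)) (.l 67)) (.a (.b (.l 99) (.l 99)) (.l 67))) (.l
      99))))) (.l 67)) (.a (.b (.c (.a (.l 15) (.l 99)) (.a (.l 15) (.l 99))) (.c (.a (.l 15) (.b
      (.c (.a (.b (.l 99) (.l 99)) (.l 67)) (.a (.b (.l 99) (.l 99)) (.l 67))) (.l 99))) (.a (.l
      15) (.b (.c (.a (.l 99) (.l 67)) (.a (.l 99) (.l 67))) (.l 99))))) (.l 67)))) (.l 67))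

theorem x2_t3a_c1_n_h185 : chk3 (onCell 0 1073741824 0 429496730 0 67108864 T2_t3a_c1_n) x2_t3a_c1_n_t185 170 112 404 = true := by decide +kernel

def x2_t3a_c1_n_t186 : T :=
  (.a (.b (.l 3463) (.c (.a (.b (.c (.a (.l 15) (.l 99)) (.a (.l 15) (.l 99))) (.c (.a (.l 15)
      (.b (.c (.a (.l 99) (.l 67)) (.a (.l 99) (.l 67))) (.l 99))) (.a (.l 15) (.b (.c (.a (.l
      99) (.l 67)) (.a (.l 99) (.l 67))) (.l 99))))) (.l 67)) (.a (.b (.c (.a (.l 15) (.l 99))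
      (.a (.l 15) (.l 99))) (.c (.a (.l 15) (.b (.l 99) (.l 99))) (.a (.l 15) (.b (.l 99) (.l
      99))))) (.l 67)))) (.l 67))

theorem x2_t3a_c1_n_h186 : chk3 (onCell 0 1073741824 0 429496730 0 67108864 T2_t3a_c1_n) x2_t3a_c1_n_t186 170 112 405 = true := by decide +kernel

def x2_t3a_c1_n_t187 : T :=
  (.l 3527)

theorem x2_t3a_c1_n_h187 : chk3 (onCell 0 1073741824 0 429496730 0 67108864 T2_t3a_c1_n) x2_t3a_c1_n_t187 170 113 202 = true := by decide +kernel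

def x2_t3a_c1_n_t188 : T :=
  (.l 67)

theorem x2_t3a_c1_n_h188 : chk3 (onCell 0 1073741824 0 429496730 0 67108864 T2_t3a_c1_n) x2_t3a_c1_n_t188 171 56 202 = true := by decide +kernel

def x2_t3a_c1_n_t189 : T :=
  (.a (.b (.c (.a (.b (.l 3463) (.c (.a (.b (.c (.a (.l 15) (.l 99)) (.a (.l 15) (.l 99))) (.c
      (.a (.l 15) (.b (.l 99) (.l 99))) (.a (.l 15) (.b (.l 99) (.l 99))))) (.l 67)) (.a (.b (.c
      (.a (.l 15) (.l 99)) (.a (.l 15) (.l 99))) (.c (.a (.l 15) (.b (.l 99) (.l 99))) (.a (.l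
      15) (.b (.l 99) (.l 99))))) (.l 67)))) (.l 67)) (.a (.b (.l 3335) (.c (.a (.b (.c (.a (.l
      15) (.l 99)) (.a (.l 15) (.l 99))) (.c (.a (.l 15) (.l 99)) (.a (.l 15) (.l 99)))) (.l 67))
      (.a (.b (.c (.a (.l 15) (.l 99)) (.a (.l 15) (.l 99))) (.c (.a (.l 15) (.l 99)) (.a (.l 15)
      (.l 99)))) (.l 67)))) (.l 67))) (.l 71)) (.l 67))

theorem x2_t3a_c1_n_h189 : chk3 (onCell 0 1073741824 0 429496730 0 67108864 T2_t3a_c1_n) x2_t3a_c1_n_t189 85 56 203 = true := by decide +kernel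

def x2_t3a_c1_n_t190 : T :=
  (.b (.c (.l 71) (.a (.l 3335) (.l 67))) (.l 3335))

theorem x2_t3a_c1_n_h190 : chk3 (onCell 0 1073741824 0 429496730 0 67108864 T2_t3a_c1_n) x2_t3a_c1_n_t190 85 57 101 = true := by decide +kernel

def x2_t3a_c1_n_t191 : T :=
  (.l 3335)

theorem x2_t3a_c1_n_h191 : chk3 (onCell 0 1073741824 0 429496730 0 67108864 T2_t3a_c1_n) x2_t3a_c1_n_t191 42 29 50 = true := by decide +kernel

def x2_t3a_c1_n_t192 : T :=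
  (.l 15)

theorem x2_t3a_c1_n_h192 : chk3 (onCell 0 1073741824 0 429496730 0 67108864 T2_t3a_c1_n) x2_t3a_c1_n_t192 84 28 102 = true := by decide +kernel

def x2_t3a_c1_n_t193 : T :=
  (.a (.b (.c (.a (.b (.l 3335) (.c (.a (.b (.c (.a (.l 15) (.l 99)) (.a (.l 15) (.l 99))) (.c
      (.a (.l 15) (.l 99)) (.a (.l 15) (.l 99)))) (.l 67)) (.a (.b (.c (.a (.l 15) (.l 99)) (.a
      (.l 15) (.l 99))) (.c (.a (.l 15) (.l 99)) (.a (.l 15) (.l 99)))) (.l 67)))) (.l 67)) (.a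
      (.b (.l 3335) (.c (.a (.b (.c (.a (.l 15) (.l 99)) (.a (.l 15) (.l 99))) (.c (.a (.l 15)
      (.l 99)) (.a (.l 15) (.l 99)))) (.l 67)) (.a (.b (.c (.a (.l 15) (.l 99)) (.a (.l 15) (.l
      99))) (.c (.a (.l 15) (.l 99)) (.a (.l 15) (.l 99)))) (.l 67)))) (.l 67))) (.l 71)) (.l 67))

theorem x2_t3a_c1_n_h193 : chk3 (onCell 0 1073741824 0 429496730 0 67108864 T2_t3a_c1_n) x2_t3a_c1_n_t193 85 56 204 = true := by decide +kernel

def x2_t3a_c1_n_t194 : T :=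
  (.l 3335)

theorem x2_t3a_c1_n_h194 : chk3 (onCell 0 1073741824 0 429496730 0 67108864 T2_t3a_c1_n) x2_t3a_c1_n_t194 340 224 410 = true := by decide +kernel

def x2_t3a_c1_n_t195 : T :=
  (.a (.b (.c (.a (.l 3399) (.l 99)) (.a (.l 3399) (.l 99))) (.c (.a (.b (.c (.a (.l 15) (.b (.a
      (.l 15) (.b (.l 3399) (.a (.l 15) (.l 99)))) (.a (.l 15) (.l 3335)))) (.a (.l 15) (.b (.a
      (.l 15) (.b (.l 3399) (.a (.l 15) (.l 99)))) (.a (.l 15) (.l 3335))))) (.l 3335)) (.l 99))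
      (.a (.b (.c (.a (.l 15) (.b (.a (.l 15) (.b (.l 99) (.a (.l 15) (.l 99)))) (.a (.l 15) (.l
      3335)))) (.a (.l 15) (.b (.a (.l 15) (.b (.l 99) (.a (.l 15) (.l 99)))) (.a (.l 15) (.l
      3335))))) (.l 3335)) (.l 99)))) (.l 67))

theorem x2_t3a_c1_n_h195 : chk3 (onCell 0 1073741824 0 429496730 0 67108864 T2_t3a_c1_n) x2_t3a_c1_n_t195 340 225 820 = true := by decide +kernel

def x2_t3a_c1_n_t196 : T :=
  (.a (.b (.c (.a (.l 3399) (.l 99)) (.a (.l 3399) (.l 99))) (.c (.a (.b (.c (.a (.l 15) (.b (.a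
      (.l 15) (.b (.l 99) (.a (.l 15) (.l 99)))) (.a (.l 15) (.l 3335)))) (.a (.l 15) (.b (.a (.l
      15) (.b (.l 99) (.a (.l 15) (.l 99)))) (.a (.l 15) (.l 3335))))) (.l 3335)) (.l 99)) (.a
      (.b (.c (.a (.l 15) (.b (.a (.l 15) (.b (.l 99) (.a (.l 15) (.l 99)))) (.a (.l 15) (.l
      99)))) (.a (.l 15) (.b (.a (.l 15) (.b (.l 99) (.a (.l 15) (.l 99)))) (.a (.l 15) (.l
      99))))) (.l 3335)) (.l 99)))) (.l 67))

theorem x2_t3a_c1_n_h196 : chk3 (onCell 0 1073741824 0 429496730 0 67108864 T2_t3a_c1_n) x2_t3a_c1_n_t196 340 225 821 = true := by decide +kernel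

def x2_t3a_c1_n_t197 : T :=
  (.l 67)

theorem x2_t3a_c1_n_h197 : chk3 (onCell 0 1073741824 0 429496730 0 67108864 T2_t3a_c1_n) x2_t3a_c1_n_t197 341 112 410 = true := by decide +kernel

def x2_t3a_c1_n_t198 : T :=
  (.l 3335)

theorem x2_t3a_c1_n_h198 : chk3 (onCell 0 1073741824 0 429496730 0 67108864 T2_t3a_c1_n) x2_t3a_c1_n_t198 340 224 411 = true := by decide +kernel

def x2_t3a_c1_n_t199 : T :=
  (.a (.b (.c (.a (.l 3399) (.l 99)) (.a (.l 3399) (.l 99))) (.c (.a (.b (.c (.a (.l 15) (.b (.a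
      (.l 15) (.b (.l 99) (.a (.l 15) (.l 99)))) (.a (.l 15) (.l 99)))) (.a (.l 15) (.b (.a (.l
      15) (.b (.l 99) (.a (.l 15) (.l 99)))) (.a (.l 15) (.l 99))))) (.l 3335)) (.l 99)) (.a (.b
      (.c (.a (.l 15) (.b (.a (.l 15) (.b (.l 99) (.l 99))) (.a (.l 15) (.l 99)))) (.a (.l 15)
      (.b (.a (.l 15) (.b (.l 99) (.l 99))) (.a (.l 15) (.l 99))))) (.l 3335)) (.l 99)))) (.l 67))

theorem x2_t3a_c1_n_h199 : chk3 (onCell 0 1073741824 0 429496730 0 67108864 T2_t3a_c1_n) x2_t3a_c1_n_t199 340 225 822 = true := by decide +kernel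

def x2_t3a_c1_n_t200 : T :=
  (.a (.b (.c (.a (.l 3399) (.l 67)) (.a (.l 3399) (.l 67))) (.c (.a (.b (.c (.a (.l 15) (.b (.a
      (.l 15) (.l 99)) (.a (.l 15) (.l 99)))) (.a (.l 15) (.b (.a (.l 15) (.l 99)) (.a (.l 15)
      (.l 99))))) (.l 3335)) (.l 99)) (.a (.b (.c (.a (.l 15) (.b (.a (.l 15) (.l 99)) (.a (.l
      15) (.l 99)))) (.a (.l 15) (.b (.a (.l 15) (.l 99)) (.a (.l 15) (.l 99))))) (.l 3335)) (.l
      99)))) (.l 67))

theorem x2_t3a_c1_n_h200 : chk3 (onCell 0 1073741824 0 429496730 0 67108864 T2_t3a_c1_n) x2_t3a_c1_n_t200 340 225 823 = true := by decide +kernel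

def x2_t3a_c1_n_t201 : T :=
  (.l 67)

theorem x2_t3a_c1_n_h201 : chk3 (onCell 0 1073741824 0 429496730 0 67108864 T2_t3a_c1_n) x2_t3a_c1_n_t201 341 112 411 = true := by decide +kernel

def x2_t3a_c1_n_t202 : T :=
  (.b (.l 71) (.c (.l 71) (.a (.l 3335) (.l 67))))

theorem x2_t3a_c1_n_h202 : chk3 (onCell 0 1073741824 0 429496730 0 67108864 T2_t3a_c1_n) x2_t3a_c1_n_t202 170 113 205 = true := by decide +kernel

def x2_t3a_c1_n_t203 : T :=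
  (.l 67)

theorem x2_t3a_c1_n_h203 : chk3 (onCell 0 1073741824 0 429496730 0 67108864 T2_t3a_c1_n) x2_t3a_c1_n_t203 171 56 205 = true := by decide +kernel

def x2_t3a_c1_n_t204 : T :=
  (.b (.c (.a (.l 3335) (.l 67)) (.a (.l 3335) (.l 67))) (.c (.a (.l 3335) (.l 3)) (.a (.l 3335)
      (.l 3))))

theorem x2_t3a_c1_n_h204 : chk3 (onCell 0 1073741824 0 429496730 0 67108864 T2_t3a_c1_n) x2_t3a_c1_n_t204 85 57 102 = true := by decide +kernel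

def x2_t3a_c1_n_t205 : T :=
  (.l 15)

theorem x2_t3a_c1_n_h205 : chk3 (onCell 0 1073741824 0 429496730 0 67108864 T2_t3a_c1_n) x2_t3a_c1_n_t205 84 28 103 = true := by decide +kernel

def x2_t3a_c1_n_t206 : T :=
  (.a (.b (.l 3335) (.c (.a (.b (.c (.a (.l 3399) (.l 67)) (.a (.l 3399) (.l 67))) (.c (.a (.b
      (.c (.a (.l 15) (.b (.a (.l 15) (.l 99)) (.a (.l 15) (.l 99)))) (.a (.l 15) (.b (.a (.l 15)
      (.l 99)) (.a (.l 15) (.l 99))))) (.l 3335)) (.l 99)) (.a (.b (.c (.a (.l 15) (.b (.a (.l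
      15) (.l 99)) (.a (.l 15) (.l 99)))) (.a (.l 15) (.b (.a (.l 15) (.l 99)) (.a (.l 15) (.l
      99))))) (.l 3335)) (.l 99)))) (.l 67)) (.a (.b (.c (.a (.l 3399) (.l 67)) (.a (.l 3399) (.l
      67))) (.c (.a (.b (.c (.a (.l 15) (.b (.a (.l 15) (.l 99)) (.a (.l 15) (.l 99)))) (.a (.l
      15) (.b (.a (.l 15) (.l 99)) (.a (.l 15) (.l 99))))) (.l 3335)) (.l 99)) (.a (.b (.c (.a
      (.l 15) (.b (.a (.l 15) (.l 99)) (.a (.l 15) (.l 99)))) (.a (.l 15) (.b (.a (.l 15) (.l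
      99)) (.a (.l 15) (.l 99))))) (.l 3335)) (.l 99)))) (.l 67)))) (.l 67))

theorem x2_t3a_c1_n_h206 : chk3 (onCell 0 1073741824 0 429496730 0 67108864 T2_t3a_c1_n) x2_t3a_c1_n_t206 170 112 412 = true := by decide +kernel

def x2_t3a_c1_n_t207 : T :=
  (.a (.b (.l 3207) (.c (.a (.b (.c (.a (.l 3399) (.l 67)) (.a (.l 3399) (.l 67))) (.c (.a (.b
      (.c (.a (.l 15) (.b (.a (.l 15) (.l 99)) (.a (.l 15) (.l 99)))) (.a (.l 15) (.b (.a (.l 15)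
      (.l 99)) (.a (.l 15) (.l 99))))) (.l 3335)) (.l 99)) (.a (.b (.c (.a (.l 15) (.b (.a (.l
      15) (.l 99)) (.a (.l 15) (.l 99)))) (.a (.l 15) (.b (.a (.l 15) (.l 99)) (.a (.l 15) (.l
      99))))) (.l 3335)) (.l 99)))) (.l 67)) (.a (.b (.c (.a (.l 3271) (.l 67)) (.a (.l 3271) (.l
      67))) (.c (.a (.b (.c (.a (.l 15) (.b (.a (.l 15) (.l 99)) (.a (.l 15) (.l 99)))) (.a (.l
      15) (.b (.a (.l 15) (.l 99)) (.a (.l 15) (.l 99))))) (.l 3207)) (.l 99)) (.a (.b (.c (.a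
      (.l 15) (.b (.a (.l 15) (.l 99)) (.a (.l 15) (.l 99)))) (.a (.l 15) (.b (.a (.l 15) (.l
      99)) (.a (.l 15) (.l 99))))) (.l 3207)) (.l 99)))) (.l 67)))) (.l 67))

theorem x2_t3a_c1_n_h207 : chk3 (onCell 0 1073741824 0 429496730 0 67108864 T2_t3a_c1_n) x2_t3a_c1_n_t207 170 112 413 = true := by decide +kernel

def x2_t3a_c1_n_t208 : T :=
  (.b (.c (.a (.l 71) (.l 67)) (.a (.b (.l 71) (.c (.a (.l 3335) (.l 3)) (.a (.l 3207) (.l 3))))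
      (.l 67))) (.c (.a (.l 3335) (.l 67)) (.a (.l 3207) (.l 67))))

theorem x2_t3a_c1_n_h208 : chk3 (onCell 0 1073741824 0 429496730 0 67108864 T2_t3a_c1_n) x2_t3a_c1_n_t208 170 113 206 = true := by decide +kernel

def x2_t3a_c1_n_t209 : T :=
  (.l 67)

theorem x2_t3a_c1_n_h209 : chk3 (onCell 0 1073741824 0 429496730 0 67108864 T2_t3a_c1_n) x2_t3a_c1_n_t209 171 56 206 = true := by decide +kernel

def x2_t3a_c1_n_t210 : T :=
  (.a (.b (.l 3207) (.c (.a (.b (.c (.a (.l 3271) (.l 67)) (.a (.l 3271) (.l 67))) (.c (.a (.b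
      (.c (.a (.l 15) (.b (.a (.l 15) (.l 99)) (.a (.l 15) (.l 99)))) (.a (.l 15) (.b (.a (.l 15)
      (.l 99)) (.a (.l 15) (.l 99))))) (.l 3207)) (.l 99)) (.a (.b (.c (.a (.l 15) (.b (.a (.l
      15) (.l 99)) (.a (.l 15) (.l 99)))) (.a (.l 15) (.b (.a (.l 15) (.l 99)) (.a (.l 15) (.l
      99))))) (.l 3207)) (.l 99)))) (.l 67)) (.a (.b (.c (.a (.l 3271) (.l 67)) (.a (.l 3271) (.l
      67))) (.c (.a (.b (.c (.a (.l 15) (.b (.a (.l 15) (.l 99)) (.a (.l 15) (.l 99)))) (.a (.l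
      15) (.b (.a (.l 15) (.l 99)) (.a (.l 15) (.l 99))))) (.l 3207)) (.l 99)) (.a (.b (.c (.a
      (.l 15) (.b (.a (.l 15) (.l 99)) (.a (.l 15) (.l 99)))) (.a (.l 15) (.b (.a (.l 15) (.l
      99)) (.a (.l 15) (.l 99))))) (.l 3207)) (.l 99)))) (.l 67)))) (.l 67))

theorem x2_t3a_c1_n_h210 : chk3 (onCell 0 1073741824 0 429496730 0 67108864 T2_t3a_c1_n) x2_t3a_c1_n_t210 170 112 414 = true := by decide +kernel

def x2_t3a_c1_n_t211 : T :=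
  (.a (.b (.l 3207) (.c (.a (.b (.c (.a (.l 3271) (.l 67)) (.a (.l 3271) (.l 67))) (.c (.a (.b
      (.c (.a (.l 15) (.b (.a (.l 15) (.l 99)) (.a (.l 15) (.l 99)))) (.a (.l 15) (.b (.a (.l 15)
      (.l 99)) (.a (.l 15) (.l 99))))) (.l 3207)) (.l 99)) (.a (.b (.c (.a (.l 15) (.b (.a (.l
      15) (.l 99)) (.a (.l 15) (.l 99)))) (.a (.l 15) (.b (.a (.l 15) (.l 99)) (.a (.l 15) (.l
      99))))) (.l 3207)) (.l 99)))) (.l 67)) (.a (.b (.c (.a (.l 3271) (.l 67)) (.a (.l 3271) (.l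
      67))) (.c (.a (.b (.c (.a (.l 15) (.b (.a (.l 15) (.l 99)) (.a (.l 15) (.l 99)))) (.a (.l
      15) (.b (.a (.l 15) (.l 99)) (.a (.l 15) (.l 99))))) (.l 3207)) (.l 99)) (.a (.b (.c (.a
      (.l 15) (.b (.a (.l 15) (.l 99)) (.a (.l 15) (.l 99)))) (.a (.l 15) (.b (.a (.l 15) (.l
      99)) (.a (.l 15) (.l 99))))) (.l 3207)) (.l 99)))) (.l 67)))) (.l 67))

theorem x2_t3a_c1_n_h211 : chk3 (onCell 0 1073741824 0 429496730 0 67108864 T2_t3a_c1_n) x2_t3a_c1_n_t211 170 112 415 = true := by decide +kernel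

end Pool.Agent.Strip051.LC.E1.Ch
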