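import Pool.Agent.Strip051.LC.E1.Ch.Te

/-! # Rests near the full period: certificate P_x2_t3a_c1_n_5 -/

set_option maxRecDepth 100000

namespace Pool.Agent.Strip051.LC.E1.Ch

open Pool.Agent.Strip051.PB
open Pool.Agent.Strip051.LC.E0.Ch (onCell Tree)

def x2_t3a_c1_n_t212 : T :=
  (.b (.c (.a (.b (.c (.a (.l 3207) (.l 67)) (.a (.l 3207) (.l 67))) (.c (.a (.l 3207) (.l 3))
      (.a (.l 3207) (.l 3)))) (.l 67)) (.a (.b (.c (.a (.l 3207) (.l 67)) (.a (.l 3207) (.l 67)))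
      (.c (.a (.l 3207) (.l 3)) (.a (.l 3207) (.l 3)))) (.l 67))) (.c (.a (.l 3207) (.l 67)) (.a
      (.l 3207) (.l 67))))

theorem x2_t3a_c1_n_h212 : chk3 (onCell 0 1073741824 0 429496730 0 67108864 T2_t3a_c1_n) x2_t3a_c1_n_t212 170 113 207 = true := by decide +kernel

def x2_t3a_c1_n_t213 : T :=
  (.l 67)

theorem x2_t3a_c1_n_h213 : chk3 (onCell 0 1073741824 0 429496730 0 67108864 T2_t3a_c1_n) x2_t3a_c1_n_t213 171 56 207 = true := by decide +kernel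

def x2_t3a_c1_n_t214 : T :=
  (.b (.c (.a (.l 3207) (.l 67)) (.a (.l 3207) (.l 67))) (.c (.a (.l 3207) (.l 3)) (.a (.l 3207)
      (.l 3))))

theorem x2_t3a_c1_n_h214 : chk3 (onCell 0 1073741824 0 429496730 0 67108864 T2_t3a_c1_n) x2_t3a_c1_n_t214 85 57 103 = true := by decide +kernel

def x2_t3a_c1_n_t215 : T :=
  (.l 3207)

theorem x2_t3a_c1_n_h215 : chk3 (onCell 0 1073741824 0 429496730 0 67108864 T2_t3a_c1_n) x2_t3a_c1_n_t215 42 29 51 = true := by decide +kernel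

def x2_t3a_c1_n_t216 : T :=
  (.l 15)

theorem x2_t3a_c1_n_h216 : chk3 (onCell 0 1073741824 0 429496730 0 67108864 T2_t3a_c1_n) x2_t3a_c1_n_t216 84 28 52 = true := by decide +kernel

def x2_t3a_c1_n_t217 : T :=
  (.a (.b (.l 3207) (.c (.a (.b (.c (.a (.l 3271) (.l 67)) (.a (.l 3271) (.l 67))) (.c (.a (.b
      (.c (.a (.l 15) (.b (.a (.l 15) (.l 99)) (.a (.l 15) (.l 99)))) (.a (.l 15) (.b (.a (.l 15)
      (.l 99)) (.a (.l 15) (.l 99))))) (.l 3207)) (.l 67)) (.a (.b (.c (.a (.l 15) (.b (.a (.l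
      15) (.l 99)) (.a (.l 15) (.l 99)))) (.a (.l 15) (.b (.a (.l 15) (.l 99)) (.a (.l 15) (.l
      99))))) (.l 3207)) (.l 67)))) (.l 67)) (.a (.b (.c (.a (.l 3271) (.l 67)) (.a (.l 3271) (.l
      67))) (.c (.a (.b (.c (.a (.l 15) (.b (.a (.l 15) (.l 99)) (.a (.l 15) (.l 99)))) (.a (.l
      15) (.b (.a (.l 15) (.l 99)) (.a (.l 15) (.l 99))))) (.l 3207)) (.l 67)) (.a (.b (.c (.a
      (.l 15) (.b (.a (.l 15) (.l 99)) (.a (.l 15) (.l 99)))) (.a (.l 15) (.b (.a (.l 15) (.l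
      99)) (.a (.l 15) (.l 99))))) (.l 3207)) (.l 67)))) (.l 67)))) (.l 67))

theorem x2_t3a_c1_n_h217 : chk3 (onCell 0 1073741824 0 429496730 0 67108864 T2_t3a_c1_n) x2_t3a_c1_n_t217 170 112 416 = true := by decide +kernel

def x2_t3a_c1_n_t218 : T :=
  (.a (.b (.l 3207) (.c (.a (.b (.c (.a (.l 3271) (.l 67)) (.a (.l 3271) (.l 67))) (.c (.a (.b
      (.c (.a (.l 15) (.b (.a (.l 15) (.l 99)) (.a (.l 15) (.l 99)))) (.a (.l 15) (.b (.a (.l 15)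
      (.l 99)) (.a (.l 15) (.l 99))))) (.l 3207)) (.l 67)) (.a (.b (.c (.a (.l 15) (.b (.a (.l
      15) (.l 99)) (.a (.l 15) (.l 99)))) (.a (.l 15) (.b (.a (.l 15) (.l 99)) (.a (.l 15) (.l
      99))))) (.l 3207)) (.l 67)))) (.l 67)) (.a (.b (.c (.a (.l 3271) (.l 67)) (.a (.l 3271) (.l
      67))) (.c (.a (.b (.c (.a (.l 15) (.b (.a (.l 15) (.l 99)) (.a (.l 15) (.l 99)))) (.a (.l
      15) (.b (.a (.l 15) (.l 99)) (.a (.l 15) (.l 99))))) (.l 3207)) (.l 67)) (.a (.b (.c (.a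
      (.l 15) (.b (.a (.l 15) (.l 99)) (.a (.l 15) (.l 99)))) (.a (.l 15) (.b (.a (.l 15) (.l
      99)) (.a (.l 15) (.l 99))))) (.l 3207)) (.l 67)))) (.l 67)))) (.l 67))

theorem x2_t3a_c1_n_h218 : chk3 (onCell 0 1073741824 0 429496730 0 67108864 T2_t3a_c1_n) x2_t3a_c1_n_t218 170 112 417 = true := by decide +kernel

def x2_t3a_c1_n_t219 : T :=
  (.b (.c (.a (.b (.c (.a (.l 3207) (.l 67)) (.a (.l 3207) (.l 67))) (.c (.a (.l 3207) (.l 67))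
      (.a (.l 3207) (.l 67)))) (.l 67)) (.a (.b (.c (.a (.l 3207) (.l 67)) (.a (.l 3207) (.l
      67))) (.c (.a (.l 3207) (.l 67)) (.a (.l 3207) (.l 67)))) (.l 67))) (.c (.a (.l 3207) (.l
      67)) (.a (.l 3207) (.l 67))))

theorem x2_t3a_c1_n_h219 : chk3 (onCell 0 1073741824 0 429496730 0 67108864 T2_t3a_c1_n) x2_t3a_c1_n_t219 170 113 208 = true := by decide +kernel

def x2_t3a_c1_n_t220 : T :=
  (.l 67)

theorem x2_t3a_c1_n_h220 : chk3 (onCell 0 1073741824 0 429496730 0 67108864 T2_t3a_c1_n) x2_t3a_c1_n_t220 171 56 208 = true := by decide +kernel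

def x2_t3a_c1_n_t221 : T :=
  (.l 3207)

theorem x2_t3a_c1_n_h221 : chk3 (onCell 0 1073741824 0 429496730 0 67108864 T2_t3a_c1_n) x2_t3a_c1_n_t221 340 224 418 = true := by decide +kernel

def x2_t3a_c1_n_t222 : T :=
  (.a (.b (.c (.a (.l 3271) (.l 67)) (.a (.l 3271) (.l 67))) (.c (.a (.b (.c (.a (.l 15) (.b (.a
      (.l 15) (.l 99)) (.a (.l 15) (.l 99)))) (.a (.l 15) (.b (.a (.l 15) (.l 99)) (.a (.l 15)
      (.l 99))))) (.l 3207)) (.l 67)) (.a (.b (.c (.a (.l 15) (.b (.a (.l 15) (.l 99)) (.a (.l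
      15) (.l 99)))) (.a (.l 15) (.b (.a (.l 15) (.l 99)) (.a (.l 15) (.l 99))))) (.l 3207)) (.l
      67)))) (.l 67))

theorem x2_t3a_c1_n_h222 : chk3 (onCell 0 1073741824 0 429496730 0 67108864 T2_t3a_c1_n) x2_t3a_c1_n_t222 340 225 836 = true := by decide +kernel

def x2_t3a_c1_n_t223 : T :=
  (.a (.b (.c (.a (.l 3271) (.l 67)) (.a (.l 3271) (.l 67))) (.c (.a (.b (.c (.a (.l 15) (.b (.a
      (.l 15) (.l 99)) (.a (.l 15) (.l 99)))) (.a (.l 15) (.b (.a (.l 15) (.l 99)) (.a (.l 15)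
      (.l 99))))) (.l 3207)) (.l 67)) (.a (.b (.c (.a (.l 15) (.b (.a (.b (.l 99) (.a (.l 15) (.l
      99))) (.l 99)) (.a (.b (.a (.l 15) (.l 99)) (.l 3207)) (.l 99)))) (.a (.l 15) (.b (.a (.b
      (.l 99) (.a (.l 15) (.l 99))) (.l 99)) (.a (.b (.a (.l 15) (.l 99)) (.l 3207)) (.l 99)))))
      (.l 3207)) (.l 67)))) (.l 67))

theorem x2_t3a_c1_n_h223 : chk3 (onCell 0 1073741824 0 429496730 0 67108864 T2_t3a_c1_n) x2_t3a_c1_n_t223 340 225 837 = true := by decide +kernel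

def x2_t3a_c1_n_t224 : T :=
  (.l 67)

theorem x2_t3a_c1_n_h224 : chk3 (onCell 0 1073741824 0 429496730 0 67108864 T2_t3a_c1_n) x2_t3a_c1_n_t224 341 112 418 = true := by decide +kernel

def x2_t3a_c1_n_t225 : T :=
  (.l 3079)

theorem x2_t3a_c1_n_h225 : chk3 (onCell 0 1073741824 0 429496730 0 67108864 T2_t3a_c1_n) x2_t3a_c1_n_t225 340 224 419 = true := by decide +kernel

def x2_t3a_c1_n_t226 : T :=
  (.c (.a (.b (.c (.a (.l 3271) (.l 67)) (.a (.l 3271) (.l 67))) (.c (.a (.b (.c (.a (.l 15) (.b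
      (.a (.b (.l 99) (.a (.l 15) (.l 99))) (.l 99)) (.a (.b (.a (.l 15) (.l 99)) (.l 3207)) (.l
      99)))) (.a (.l 15) (.b (.a (.l 99) (.l 99)) (.a (.b (.a (.l 15) (.l 99)) (.l 99)) (.l
      99))))) (.l 3207)) (.l 67)) (.a (.b (.c (.a (.l 15) (.b (.a (.l 99) (.l 99)) (.a (.b (.a
      (.l 15) (.l 99)) (.l 99)) (.l 99)))) (.a (.l 15) (.b (.a (.l 99) (.l 99)) (.a (.b (.l 99)
      (.l 99)) (.l 99))))) (.l 3207)) (.l 67)))) (.l 67)) (.a (.b (.a (.l 3143) (.l 67)) (.a (.c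
      (.b (.c (.a (.l 15) (.b (.l 99) (.a (.b (.l 99) (.l 99)) (.l 99)))) (.a (.l 15) (.b (.l 99)
      (.a (.l 99) (.l 99))))) (.l 3207)) (.b (.a (.l 15) (.c (.b (.l 99) (.a (.l 99) (.l 99)))
      (.b (.l 99) (.a (.l 99) (.l 99))))) (.l 3079))) (.l 67))) (.l 67)))

theorem x2_t3a_c1_n_h226 : chk3 (onCell 0 1073741824 0 429496730 0 67108864 T2_t3a_c1_n) x2_t3a_c1_n_t226 340 225 419 = true := by decide +kernel

def x2_t3a_c1_n_t227 : T :=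
  (.l 67)

theorem x2_t3a_c1_n_h227 : chk3 (onCell 0 1073741824 0 429496730 0 67108864 T2_t3a_c1_n) x2_t3a_c1_n_t227 341 112 419 = true := by decide +kernel

def x2_t3a_c1_n_t228 : T :=
  (.b (.a (.c (.b (.a (.l 3207) (.l 67)) (.c (.a (.l 3207) (.l 67)) (.a (.l 3207) (.l 67)))) (.b
      (.a (.c (.l 3207) (.b (.a (.l 3079) (.l 3)) (.l 3079))) (.l 67)) (.a (.l 3079) (.l 67))))
      (.l 67)) (.a (.l 3079) (.l 67)))

theorem x2_t3a_c1_n_h228 : chk3 (onCell 0 1073741824 0 429496730 0 67108864 T2_t3a_c1_n) x2_t3a_c1_n_t228 170 113 209 = true := by decide +kernel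

def x2_t3a_c1_n_t229 : T :=
  (.l 67)

theorem x2_t3a_c1_n_h229 : chk3 (onCell 0 1073741824 0 429496730 0 67108864 T2_t3a_c1_n) x2_t3a_c1_n_t229 171 56 209 = true := by decide +kernel

def x2_t3a_c1_n_t230 : T :=
  (.b (.c (.a (.l 3207) (.l 67)) (.a (.l 3079) (.l 67))) (.c (.a (.l 3207) (.l 3)) (.a (.l 3079)
      (.l 3))))

theorem x2_t3a_c1_n_h230 : chk3 (onCell 0 1073741824 0 429496730 0 67108864 T2_t3a_c1_n) x2_t3a_c1_n_t230 85 57 104 = true := by decide +kernel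

def x2_t3a_c1_n_t231 : T :=
  (.b (.l 3079) (.a (.c (.b (.a (.l 3143) (.l 67)) (.a (.c (.b (.a (.l 15) (.c (.b (.l 99) (.a
      (.l 99) (.l 67))) (.b (.l 99) (.l 99)))) (.l 3079)) (.b (.a (.l 15) (.c (.b (.l 99) (.l
      99)) (.b (.l 99) (.l 99)))) (.l 3079))) (.l 67))) (.b (.a (.l 3143) (.l 67)) (.a (.c (.b
      (.a (.l 15) (.c (.b (.l 99) (.l 99)) (.b (.l 99) (.l 99)))) (.l 3079)) (.b (.a (.l 15) (.c
      (.b (.l 99) (.l 99)) (.b (.l 99) (.l 99)))) (.l 3079))) (.l 67)))) (.l 67)))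

theorem x2_t3a_c1_n_h231 : chk3 (onCell 0 1073741824 0 429496730 0 67108864 T2_t3a_c1_n) x2_t3a_c1_n_t231 340 112 420 = true := by decide +kernel

def x2_t3a_c1_n_t232 : T :=
  (.b (.l 3079) (.a (.c (.b (.a (.l 3143) (.l 67)) (.a (.c (.b (.a (.l 15) (.c (.b (.l 99) (.l
      99)) (.b (.l 99) (.l 99)))) (.l 3079)) (.b (.a (.l 15) (.c (.b (.l 99) (.l 99)) (.b (.l 99)
      (.l 99)))) (.l 3079))) (.l 67))) (.b (.a (.l 3143) (.l 67)) (.a (.c (.b (.a (.l 15) (.c (.b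
      (.l 99) (.l 99)) (.l 99))) (.l 3079)) (.b (.a (.l 15) (.l 99)) (.l 3079))) (.l 67)))) (.l
      67)))

theorem x2_t3a_c1_n_h232 : chk3 (onCell 0 1073741824 0 429496730 0 67108864 T2_t3a_c1_n) x2_t3a_c1_n_t232 340 112 421 = true := by decide +kernel

def x2_t3a_c1_n_t233 : T :=
  (.l 67)

theorem x2_t3a_c1_n_h233 : chk3 (onCell 0 1073741824 0 429496730 0 67108864 T2_t3a_c1_n) x2_t3a_c1_n_t233 341 112 210 = true := by decide +kernel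

def x2_t3a_c1_n_t234 : T :=
  (.b (.a (.c (.b (.a (.c (.b (.a (.l 3079) (.l 67)) (.l 3079)) (.b (.a (.l 3079) (.l 67)) (.l
      3079))) (.l 67)) (.a (.l 3079) (.l 67))) (.b (.a (.c (.b (.a (.l 3079) (.l 67)) (.l 3079))
      (.b (.a (.l 3079) (.l 67)) (.l 3079))) (.l 67)) (.a (.l 3079) (.l 67)))) (.l 67)) (.a (.l
      3079) (.l 67)))

theorem x2_t3a_c1_n_h234 : chk3 (onCell 0 1073741824 0 429496730 0 67108864 T2_t3a_c1_n) x2_t3a_c1_n_t234 170 113 210 = true := by decide +kernel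

def x2_t3a_c1_n_t235 : T :=
  (.a (.c (.b (.l 3079) (.a (.c (.b (.a (.l 3143) (.l 67)) (.a (.c (.b (.a (.l 15) (.l 99)) (.l
      3079)) (.b (.a (.l 15) (.l 99)) (.l 3079))) (.l 67))) (.b (.a (.l 3143) (.l 67)) (.a (.c
      (.b (.a (.l 15) (.l 99)) (.l 3079)) (.b (.a (.l 15) (.l 99)) (.l 3079))) (.l 67)))) (.l
      67))) (.b (.l 3079) (.a (.c (.b (.a (.l 3143) (.l 67)) (.a (.c (.b (.a (.l 15) (.l 99)) (.b
      (.a (.l 15) (.l 99)) (.l 3079))) (.b (.a (.l 15) (.l 99)) (.b (.a (.l 15) (.l 99)) (.l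
      3079)))) (.l 67))) (.b (.a (.l 3143) (.l 67)) (.a (.c (.b (.a (.l 15) (.l 99)) (.b (.a (.l
      15) (.l 99)) (.l 3079))) (.b (.a (.l 15) (.l 99)) (.b (.a (.l 15) (.l 99)) (.l 3079)))) (.l
      67)))) (.l 67)))) (.l 67))

theorem x2_t3a_c1_n_h235 : chk3 (onCell 0 1073741824 0 429496730 0 67108864 T2_t3a_c1_n) x2_t3a_c1_n_t235 170 112 211 = true := by decide +kernel

def x2_t3a_c1_n_t236 : T :=
  (.b (.a (.c (.b (.a (.c (.b (.a (.l 3079) (.l 67)) (.l 3079)) (.b (.a (.l 3079) (.l 67)) (.l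
      3079))) (.l 67)) (.a (.l 3079) (.l 67))) (.b (.a (.c (.b (.a (.l 3079) (.l 67)) (.l 3079))
      (.b (.a (.l 3079) (.l 67)) (.l 3079))) (.l 67)) (.a (.l 3079) (.l 67)))) (.l 67)) (.a (.l
      3079) (.l 67)))

theorem x2_t3a_c1_n_h236 : chk3 (onCell 0 1073741824 0 429496730 0 67108864 T2_t3a_c1_n) x2_t3a_c1_n_t236 170 113 211 = true := by decide +kernel

def x2_t3a_c1_n_t237 : T :=
  (.l 67)

theorem x2_t3a_c1_n_h237 : chk3 (onCell 0 1073741824 0 429496730 0 67108864 T2_t3a_c1_n) x2_t3a_c1_n_t237 171 56 105 = true := by decide +kernel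

def x2_t3a_c1_n_t238 : T :=
  (.b (.a (.l 3079) (.l 67)) (.a (.l 3079) (.l 3)))

theorem x2_t3a_c1_n_h238 : chk3 (onCell 0 1073741824 0 429496730 0 67108864 T2_t3a_c1_n) x2_t3a_c1_n_t238 85 57 105 = true := by decide +kernel

def x2_t3a_c1_n_t239 : T :=
  (.l 3079)

theorem x2_t3a_c1_n_h239 : chk3 (onCell 0 1073741824 0 429496730 0 67108864 T2_t3a_c1_n) x2_t3a_c1_n_t239 42 29 52 = true := by decide +kernel

def x2_t3a_c1_n_t240 : T :=
  (.l 15)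

theorem x2_t3a_c1_n_h240 : chk3 (onCell 0 1073741824 0 429496730 0 67108864 T2_t3a_c1_n) x2_t3a_c1_n_t240 84 28 53 = true := by decide +kernel

def x2_t3a_c1_n_t241 : T :=
  (.a (.c (.b (.l 3079) (.a (.c (.b (.a (.l 3143) (.l 67)) (.a (.c (.b (.a (.l 15) (.l 99)) (.b
      (.a (.l 15) (.l 99)) (.l 3079))) (.b (.a (.l 15) (.l 99)) (.b (.a (.l 15) (.l 99)) (.l
      3079)))) (.l 67))) (.b (.a (.l 3143) (.l 67)) (.a (.c (.b (.a (.l 15) (.l 99)) (.b (.a (.l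
      15) (.l 99)) (.l 3079))) (.b (.a (.l 15) (.l 99)) (.b (.a (.l 15) (.l 99)) (.l 3079)))) (.l
      67)))) (.l 67))) (.b (.l 3079) (.a (.c (.b (.a (.l 3143) (.l 67)) (.a (.c (.b (.a (.l 15)
      (.l 99)) (.b (.a (.l 15) (.l 99)) (.l 3079))) (.b (.a (.l 15) (.l 99)) (.b (.a (.l 15) (.l
      99)) (.l 3079)))) (.l 67))) (.b (.a (.l 3143) (.l 67)) (.a (.c (.b (.a (.l 15) (.l 99)) (.b
      (.a (.l 15) (.l 99)) (.l 3079))) (.b (.a (.l 15) (.l 99)) (.b (.a (.l 15) (.l 99)) (.l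
      3079)))) (.l 67)))) (.l 67)))) (.l 67))

theorem x2_t3a_c1_n_h241 : chk3 (onCell 0 1073741824 0 429496730 0 67108864 T2_t3a_c1_n) x2_t3a_c1_n_t241 170 112 212 = true := by decide +kernel

def x2_t3a_c1_n_t242 : T :=
  (.b (.a (.c (.b (.a (.c (.b (.a (.l 3079) (.l 67)) (.l 3079)) (.b (.a (.l 3079) (.l 67)) (.l
      3079))) (.l 67)) (.a (.l 3079) (.l 67))) (.b (.a (.c (.b (.a (.l 3079) (.l 67)) (.l 3079))
      (.b (.a (.l 3079) (.l 67)) (.l 3079))) (.l 67)) (.a (.l 3079) (.l 67)))) (.l 67)) (.a (.l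
      3079) (.l 67)))

theorem x2_t3a_c1_n_h242 : chk3 (onCell 0 1073741824 0 429496730 0 67108864 T2_t3a_c1_n) x2_t3a_c1_n_t242 170 113 212 = true := by decide +kernel

def x2_t3a_c1_n_t243 : T :=
  (.b (.l 2951) (.a (.c (.b (.a (.l 3143) (.l 67)) (.a (.c (.b (.a (.l 15) (.l 99)) (.b (.a (.l
      15) (.l 99)) (.l 3079))) (.b (.a (.l 15) (.l 99)) (.b (.a (.l 15) (.l 99)) (.l 3079)))) (.l
      67))) (.b (.a (.l 3015) (.l 67)) (.a (.c (.b (.a (.l 15) (.l 99)) (.b (.a (.l 15) (.l 99))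
      (.l 2951))) (.b (.a (.l 15) (.l 99)) (.b (.a (.l 15) (.l 99)) (.l 2951)))) (.l 67)))) (.l
      67)))

theorem x2_t3a_c1_n_h243 : chk3 (onCell 0 1073741824 0 429496730 0 67108864 T2_t3a_c1_n) x2_t3a_c1_n_t243 340 112 426 = true := by decide +kernel

def x2_t3a_c1_n_t244 : T :=
  (.b (.l 2951) (.a (.c (.b (.a (.l 2951) (.l 67)) (.a (.c (.b (.a (.l 15) (.l 99)) (.b (.a (.l
      15) (.l 99)) (.l 2951))) (.b (.a (.l 15) (.l 99)) (.b (.a (.l 15) (.l 99)) (.l 2951)))) (.l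
      67))) (.b (.a (.l 2951) (.l 67)) (.a (.c (.b (.a (.c (.b (.l 3015) (.a (.l 15) (.b (.a (.l
      15) (.l 99)) (.l 99)))) (.b (.l 3015) (.a (.l 15) (.b (.a (.l 15) (.l 99)) (.l 99))))) (.l
      99)) (.b (.a (.l 2951) (.l 99)) (.l 2951))) (.b (.a (.c (.b (.l 3015) (.a (.l 15) (.b (.a
      (.l 15) (.l 99)) (.l 99)))) (.b (.l 3015) (.a (.l 15) (.b (.a (.l 15) (.l 99)) (.l 99)))))
      (.l 99)) (.b (.a (.l 2951) (.l 99)) (.l 2951)))) (.l 67)))) (.l 67)))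

theorem x2_t3a_c1_n_h244 : chk3 (onCell 0 1073741824 0 429496730 0 67108864 T2_t3a_c1_n) x2_t3a_c1_n_t244 340 112 427 = true := by decide +kernel

def x2_t3a_c1_n_t245 : T :=
  (.l 67)

theorem x2_t3a_c1_n_h245 : chk3 (onCell 0 1073741824 0 429496730 0 67108864 T2_t3a_c1_n) x2_t3a_c1_n_t245 341 112 213 = true := by decide +kernel

def x2_t3a_c1_n_t246 : T :=
  (.b (.a (.c (.b (.a (.c (.b (.a (.l 3079) (.l 67)) (.l 3079)) (.b (.a (.l 2951) (.l 67)) (.l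
      2951))) (.l 67)) (.a (.l 2951) (.l 67))) (.b (.a (.c (.b (.a (.l 2951) (.l 67)) (.l 2951))
      (.b (.a (.l 2951) (.l 67)) (.l 2951))) (.l 67)) (.a (.l 2951) (.l 67)))) (.l 67)) (.a (.l
      2951) (.l 67)))

theorem x2_t3a_c1_n_h246 : chk3 (onCell 0 1073741824 0 429496730 0 67108864 T2_t3a_c1_n) x2_t3a_c1_n_t246 170 113 213 = true := by decide +kernel

def x2_t3a_c1_n_t247 : T :=
  (.l 67)

theorem x2_t3a_c1_n_h247 : chk3 (onCell 0 1073741824 0 429496730 0 67108864 T2_t3a_c1_n) x2_t3a_c1_n_t247 171 56 106 = true := by decide +kernel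

def x2_t3a_c1_n_t248 : T :=
  (.b (.a (.l 2951) (.l 67)) (.a (.l 2951) (.l 3)))

theorem x2_t3a_c1_n_h248 : chk3 (onCell 0 1073741824 0 429496730 0 67108864 T2_t3a_c1_n) x2_t3a_c1_n_t248 85 57 106 = true := by decide +kernel

def x2_t3a_c1_n_t249 : T :=
  (.b (.l 2951) (.a (.c (.b (.a (.l 2951) (.l 67)) (.a (.c (.b (.a (.c (.b (.l 3015) (.a (.l 15)
      (.b (.l 99) (.l 99)))) (.b (.l 3015) (.a (.l 15) (.b (.l 99) (.l 99))))) (.l 99)) (.b (.a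
      (.l 2951) (.l 99)) (.l 2951))) (.b (.a (.c (.b (.l 3015) (.a (.l 15) (.b (.l 99) (.l 99))))
      (.b (.l 3015) (.a (.l 15) (.b (.l 99) (.l 99))))) (.l 99)) (.b (.a (.l 2951) (.l 99)) (.l
      2951)))) (.l 67))) (.b (.a (.l 2951) (.l 67)) (.a (.c (.b (.a (.c (.b (.l 3015) (.a (.l 15)
      (.l 99))) (.b (.l 3015) (.a (.l 15) (.l 99)))) (.l 99)) (.b (.a (.l 2951) (.l 67)) (.l
      2951))) (.b (.a (.c (.b (.l 3015) (.a (.l 15) (.l 99))) (.b (.l 3015) (.a (.l 15) (.l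
      99)))) (.l 99)) (.b (.a (.l 2951) (.l 67)) (.l 2951)))) (.l 67)))) (.l 67)))

theorem x2_t3a_c1_n_h249 : chk3 (onCell 0 1073741824 0 429496730 0 67108864 T2_t3a_c1_n) x2_t3a_c1_n_t249 340 112 428 = true := by decide +kernel

def x2_t3a_c1_n_t250 : T :=
  (.b (.l 2951) (.a (.c (.b (.a (.l 2951) (.l 67)) (.a (.c (.b (.a (.c (.b (.l 3015) (.a (.l 15)
      (.l 99))) (.b (.l 3015) (.a (.l 15) (.l 99)))) (.l 99)) (.b (.a (.l 2951) (.l 67)) (.l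
      2951))) (.b (.a (.c (.b (.l 3015) (.a (.l 15) (.l 99))) (.b (.l 3015) (.a (.l 15) (.l
      99)))) (.l 99)) (.b (.a (.l 2951) (.l 67)) (.l 2951)))) (.l 67))) (.b (.a (.l 2951) (.l
      67)) (.a (.c (.b (.a (.c (.b (.l 3015) (.a (.l 15) (.l 99))) (.b (.l 3015) (.a (.l 15) (.l
      99)))) (.l 99)) (.b (.a (.l 2951) (.l 67)) (.l 2951))) (.b (.a (.c (.b (.l 3015) (.a (.l
      15) (.l 99))) (.b (.l 3015) (.a (.l 15) (.l 99)))) (.l 99)) (.b (.a (.l 2951) (.l 67)) (.l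
      2951)))) (.l 67)))) (.l 67)))

theorem x2_t3a_c1_n_h250 : chk3 (onCell 0 1073741824 0 429496730 0 67108864 T2_t3a_c1_n) x2_t3a_c1_n_t250 340 112 429 = true := by decide +kernel

def x2_t3a_c1_n_t251 : T :=
  (.l 67)

theorem x2_t3a_c1_n_h251 : chk3 (onCell 0 1073741824 0 429496730 0 67108864 T2_t3a_c1_n) x2_t3a_c1_n_t251 341 112 214 = true := by decide +kernel

def x2_t3a_c1_n_t252 : T :=
  (.b (.a (.c (.b (.a (.c (.b (.a (.l 2951) (.l 67)) (.l 2951)) (.b (.a (.l 2951) (.l 67)) (.l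
      2951))) (.l 67)) (.a (.l 2951) (.l 67))) (.b (.a (.c (.b (.a (.l 2951) (.l 67)) (.l 2951))
      (.b (.a (.l 2951) (.l 67)) (.l 2951))) (.l 67)) (.a (.l 2951) (.l 67)))) (.l 67)) (.a (.l
      2951) (.l 67)))

theorem x2_t3a_c1_n_h252 : chk3 (onCell 0 1073741824 0 429496730 0 67108864 T2_t3a_c1_n) x2_t3a_c1_n_t252 170 113 214 = true := by decide +kernel

def x2_t3a_c1_n_t253 : T :=
  (.b (.l 2951) (.a (.c (.b (.a (.l 2951) (.l 67)) (.a (.c (.b (.a (.c (.b (.l 3015) (.a (.l 15)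
      (.l 99))) (.b (.l 3015) (.a (.l 15) (.l 99)))) (.l 99)) (.b (.a (.l 2951) (.l 67)) (.l
      2951))) (.b (.a (.c (.b (.l 3015) (.a (.l 15) (.l 99))) (.b (.l 3015) (.a (.l 15) (.l
      99)))) (.l 99)) (.b (.a (.l 2951) (.l 67)) (.l 2951)))) (.l 67))) (.b (.a (.l 2951) (.l
      67)) (.a (.c (.b (.a (.c (.b (.l 3015) (.a (.l 15) (.l 99))) (.b (.l 3015) (.a (.l 15) (.l
      99)))) (.l 99)) (.b (.a (.l 2951) (.l 67)) (.l 2951))) (.b (.a (.c (.b (.l 3015) (.a (.l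
      15) (.l 99))) (.b (.l 3015) (.a (.l 15) (.l 99)))) (.l 99)) (.b (.a (.l 2951) (.l 67)) (.l
      2951)))) (.l 67)))) (.l 67)))

theorem x2_t3a_c1_n_h253 : chk3 (onCell 0 1073741824 0 429496730 0 67108864 T2_t3a_c1_n) x2_t3a_c1_n_t253 340 112 430 = true := by decide +kernel

def x2_t3a_c1_n_t254 : T :=
  (.b (.l 2951) (.a (.c (.b (.a (.l 2951) (.l 67)) (.a (.c (.b (.a (.c (.b (.l 3015) (.a (.l 15)
      (.l 99))) (.b (.l 3015) (.a (.l 15) (.l 99)))) (.l 67)) (.b (.a (.l 2951) (.l 67)) (.l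
      2951))) (.b (.a (.c (.b (.l 3015) (.a (.l 15) (.l 99))) (.b (.l 3015) (.a (.l 15) (.l
      99)))) (.l 67)) (.b (.a (.l 2951) (.l 67)) (.l 2951)))) (.l 67))) (.b (.a (.l 2951) (.l
      67)) (.a (.c (.b (.a (.c (.b (.l 3015) (.a (.l 15) (.l 99))) (.b (.l 3015) (.a (.l 15) (.l
      99)))) (.l 67)) (.b (.a (.l 2951) (.l 67)) (.l 2951))) (.b (.a (.c (.b (.l 3015) (.a (.l
      15) (.l 99))) (.b (.l 3015) (.a (.l 15) (.l 99)))) (.l 67)) (.b (.a (.l 2951) (.l 67)) (.l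
      2951)))) (.l 67)))) (.l 67)))

theorem x2_t3a_c1_n_h254 : chk3 (onCell 0 1073741824 0 429496730 0 67108864 T2_t3a_c1_n) x2_t3a_c1_n_t254 340 112 431 = true := by decide +kernel

def x2_t3a_c1_n_t255 : T :=
  (.l 67)

theorem x2_t3a_c1_n_h255 : chk3 (onCell 0 1073741824 0 429496730 0 67108864 T2_t3a_c1_n) x2_t3a_c1_n_t255 341 112 215 = true := by decide +kernel

def x2_t3a_c1_n_t256 : T :=
  (.b (.a (.c (.b (.a (.c (.b (.a (.l 2951) (.l 67)) (.l 2951)) (.b (.a (.l 2951) (.l 67)) (.l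
      2951))) (.l 67)) (.a (.l 2951) (.l 67))) (.b (.a (.c (.b (.a (.l 2951) (.l 67)) (.l 2951))
      (.b (.a (.l 2951) (.l 67)) (.l 2951))) (.l 67)) (.a (.l 2951) (.l 67)))) (.l 67)) (.a (.l
      2951) (.l 67)))

theorem x2_t3a_c1_n_h256 : chk3 (onCell 0 1073741824 0 429496730 0 67108864 T2_t3a_c1_n) x2_t3a_c1_n_t256 170 113 215 = true := by decide +kernel

def x2_t3a_c1_n_t257 : T :=
  (.l 67)

theorem x2_t3a_c1_n_h257 : chk3 (onCell 0 1073741824 0 429496730 0 67108864 T2_t3a_c1_n) x2_t3a_c1_n_t257 171 56 107 = true := by decide +kernel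

def x2_t3a_c1_n_t258 : T :=
  (.b (.a (.l 2951) (.l 67)) (.a (.l 2951) (.l 67)))

theorem x2_t3a_c1_n_h258 : chk3 (onCell 0 1073741824 0 429496730 0 67108864 T2_t3a_c1_n) x2_t3a_c1_n_t258 85 57 107 = true := by decide +kernel

def x2_t3a_c1_n_t259 : T :=
  (.l 2951)

theorem x2_t3a_c1_n_h259 : chk3 (onCell 0 1073741824 0 429496730 0 67108864 T2_t3a_c1_n) x2_t3a_c1_n_t259 42 29 53 = true := by decide +kernel

def x2_t3a_c1_n_t260 : T :=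
  (.l 15)

theorem x2_t3a_c1_n_h260 : chk3 (onCell 0 1073741824 0 429496730 0 67108864 T2_t3a_c1_n) x2_t3a_c1_n_t260 84 28 54 = true := by decide +kernel

def x2_t3a_c1_n_t261 : T :=
  (.b (.l 2951) (.a (.c (.b (.a (.l 2951) (.l 67)) (.a (.c (.b (.a (.c (.b (.l 3015) (.a (.l 15)
      (.l 99))) (.b (.l 3015) (.a (.l 15) (.l 99)))) (.l 67)) (.b (.a (.l 2951) (.l 67)) (.l
      2951))) (.b (.a (.c (.b (.l 3015) (.a (.l 15) (.l 99))) (.b (.l 3015) (.a (.l 15) (.l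
      99)))) (.l 67)) (.b (.a (.l 2951) (.l 67)) (.l 2951)))) (.l 67))) (.b (.a (.l 2951) (.l
      67)) (.a (.c (.b (.a (.c (.b (.l 3015) (.a (.l 15) (.l 99))) (.b (.l 3015) (.a (.l 15) (.l
      99)))) (.l 67)) (.b (.a (.l 2951) (.l 67)) (.l 2951))) (.b (.a (.c (.b (.l 3015) (.a (.l
      15) (.l 99))) (.b (.l 3015) (.a (.l 15) (.l 99)))) (.l 67)) (.b (.a (.l 2951) (.l 67)) (.l
      2951)))) (.l 67)))) (.l 67)))

theorem x2_t3a_c1_n_h261 : chk3 (onCell 0 1073741824 0 429496730 0 67108864 T2_t3a_c1_n) x2_t3a_c1_n_t261 340 112 432 = true := by decide +kernel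

def x2_t3a_c1_n_t262 : T :=
  (.b (.l 2951) (.a (.c (.b (.a (.l 2951) (.l 67)) (.a (.c (.b (.a (.c (.b (.l 3015) (.a (.l 15)
      (.l 99))) (.b (.l 3015) (.a (.l 15) (.l 99)))) (.l 67)) (.b (.a (.l 2951) (.l 67)) (.a (.l
      2951) (.l 3)))) (.b (.a (.c (.b (.l 3015) (.a (.l 15) (.l 99))) (.b (.l 3015) (.a (.l 15)
      (.l 99)))) (.l 67)) (.b (.a (.l 2951) (.l 67)) (.a (.l 2951) (.l 3))))) (.l 67))) (.b (.a
      (.l 2951) (.l 67)) (.a (.c (.b (.a (.c (.b (.l 3015) (.a (.l 15) (.l 99))) (.b (.l 3015)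
      (.a (.l 15) (.l 99)))) (.l 67)) (.b (.a (.l 2951) (.l 67)) (.a (.l 2951) (.l 67)))) (.b (.a
      (.c (.b (.l 3015) (.a (.l 15) (.l 99))) (.b (.l 3015) (.a (.l 15) (.l 99)))) (.l 67)) (.b
      (.a (.l 2951) (.l 67)) (.a (.l 2951) (.l 67))))) (.l 67)))) (.l 67)))

theorem x2_t3a_c1_n_h262 : chk3 (onCell 0 1073741824 0 429496730 0 67108864 T2_t3a_c1_n) x2_t3a_c1_n_t262 340 112 433 = true := by decide +kernel

def x2_t3a_c1_n_t263 : T :=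
  (.l 67)

theorem x2_t3a_c1_n_h263 : chk3 (onCell 0 1073741824 0 429496730 0 67108864 T2_t3a_c1_n) x2_t3a_c1_n_t263 341 112 216 = true := by decide +kernel

def x2_t3a_c1_n_t264 : T :=
  (.b (.a (.c (.b (.a (.c (.b (.a (.l 2951) (.l 67)) (.l 2951)) (.b (.a (.l 2951) (.l 67)) (.l
      2951))) (.l 67)) (.a (.l 2951) (.l 67))) (.b (.a (.c (.b (.a (.l 2951) (.l 67)) (.l 2951))
      (.b (.a (.l 2951) (.l 67)) (.l 2951))) (.l 67)) (.a (.l 2951) (.l 67)))) (.l 67)) (.a (.l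
      2951) (.l 67)))

theorem x2_t3a_c1_n_h264 : chk3 (onCell 0 1073741824 0 429496730 0 67108864 T2_t3a_c1_n) x2_t3a_c1_n_t264 170 113 216 = true := by decide +kernel

def x2_t3a_c1_n_t265 : T :=
  (.b (.l 2823) (.a (.c (.b (.a (.l 2823) (.l 67)) (.a (.c (.b (.a (.c (.b (.l 2887) (.a (.l 15)
      (.l 99))) (.b (.l 2887) (.a (.l 15) (.l 99)))) (.l 67)) (.b (.a (.l 2823) (.l 67)) (.a (.l
      2823) (.l 67)))) (.b (.a (.c (.b (.l 2887) (.a (.l 15) (.l 99))) (.b (.l 2887) (.a (.l 15)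
      (.l 99)))) (.l 67)) (.b (.a (.l 2823) (.l 67)) (.a (.l 2823) (.l 67))))) (.l 67))) (.b (.a
      (.l 99) (.l 67)) (.a (.c (.b (.a (.c (.b (.l 2887) (.a (.l 15) (.l 99))) (.b (.l 99) (.a
      (.l 15) (.l 99)))) (.l 67)) (.b (.a (.l 2823) (.l 67)) (.a (.l 2823) (.l 67)))) (.b (.a (.c
      (.b (.l 99) (.a (.l 15) (.l 99))) (.b (.l 99) (.a (.l 15) (.l 99)))) (.l 67)) (.b (.a (.c
      (.l 2823) (.b (.a (.l 15) (.l 99)) (.l 2823))) (.l 67)) (.a (.l 2823) (.l 67))))) (.l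
      67)))) (.l 67)))

theorem x2_t3a_c1_n_h265 : chk3 (onCell 0 1073741824 0 429496730 0 67108864 T2_t3a_c1_n) x2_t3a_c1_n_t265 340 112 434 = true := by decide +kernel

def x2_t3a_c1_n_t266 : T :=
  (.l 99)

theorem x2_t3a_c1_n_h266 : chk3 (onCell 0 1073741824 0 429496730 0 67108864 T2_t3a_c1_n) x2_t3a_c1_n_t266 340 224 435 = true := by decide +kernel

end Pool.Agent.Strip051.LC.E1.Ch
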