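import Pool.Agent.Strip051.LC.E1.Ch.Te

/-! # Rests near the full period: certificate P_x2_t3a_c1_n_6 -/

set_option maxRecDepth 100000

namespace Pool.Agent.Strip051.LC.E1.Ch

open Pool.Agent.Strip051.PB
open Pool.Agent.Strip051.LC.E0.Ch (onCell Tree)

def x2_t3a_c1_n_t267 : T :=
  (.b (.a (.l 99) (.l 67)) (.a (.c (.b (.a (.c (.b (.l 99) (.a (.l 15) (.l 99))) (.b (.l 99) (.a
      (.l 15) (.l 99)))) (.l 67)) (.b (.a (.c (.b (.a (.l 15) (.l 99)) (.l 2823)) (.b (.a (.l 15)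
      (.l 99)) (.l 2823))) (.l 67)) (.a (.l 2823) (.l 67)))) (.b (.a (.c (.b (.l 99) (.a (.l 15)
      (.l 99))) (.b (.l 99) (.a (.l 15) (.l 99)))) (.l 67)) (.b (.a (.c (.b (.a (.l 15) (.l 99))
      (.l 2823)) (.b (.a (.l 15) (.l 99)) (.l 2823))) (.l 67)) (.a (.l 2823) (.l 67))))) (.l 67)))

theorem x2_t3a_c1_n_h267 : chk3 (onCell 0 1073741824 0 429496730 0 67108864 T2_t3a_c1_n) x2_t3a_c1_n_t267 680 225 870 = true := by decide +kernel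

def x2_t3a_c1_n_t268 : T :=
  (.b (.a (.l 99) (.l 67)) (.a (.c (.b (.a (.c (.b (.l 99) (.a (.l 15) (.l 99))) (.b (.l 99) (.a
      (.l 15) (.l 99)))) (.l 67)) (.b (.a (.c (.b (.a (.l 15) (.l 99)) (.l 2823)) (.b (.a (.l 15)
      (.l 99)) (.l 2823))) (.l 67)) (.a (.l 2823) (.l 67)))) (.b (.a (.c (.b (.l 99) (.a (.l 15)
      (.l 99))) (.b (.l 99) (.a (.l 15) (.l 99)))) (.l 67)) (.b (.a (.c (.b (.a (.l 15) (.l 99))
      (.l 99)) (.l 99)) (.l 67)) (.a (.l 99) (.l 67))))) (.l 67)))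

theorem x2_t3a_c1_n_h268 : chk3 (onCell 0 1073741824 0 429496730 0 67108864 T2_t3a_c1_n) x2_t3a_c1_n_t268 680 225 871 = true := by decide +kernel

def x2_t3a_c1_n_t269 : T :=
  (.l 67)

theorem x2_t3a_c1_n_h269 : chk3 (onCell 0 1073741824 0 429496730 0 67108864 T2_t3a_c1_n) x2_t3a_c1_n_t269 681 225 435 = true := by decide +kernel

def x2_t3a_c1_n_t270 : T :=
  (.l 67)

theorem x2_t3a_c1_n_h270 : chk3 (onCell 0 1073741824 0 429496730 0 67108864 T2_t3a_c1_n) x2_t3a_c1_n_t270 341 112 217 = true := by decide +kernel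

def x2_t3a_c1_n_t271 : T :=
  (.b (.a (.c (.b (.a (.c (.b (.a (.l 2823) (.l 67)) (.l 2823)) (.b (.a (.l 2823) (.l 67)) (.l
      2823))) (.l 67)) (.a (.l 2823) (.l 67))) (.b (.a (.c (.b (.a (.l 2823) (.l 67)) (.l 2823))
      (.b (.a (.l 2823) (.l 67)) (.l 2823))) (.l 67)) (.a (.l 2823) (.l 67)))) (.l 67)) (.a (.l
      2823) (.l 67)))

theorem x2_t3a_c1_n_h271 : chk3 (onCell 0 1073741824 0 429496730 0 67108864 T2_t3a_c1_n) x2_t3a_c1_n_t271 170 113 217 = true := by decide +kernel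

def x2_t3a_c1_n_t272 : T :=
  (.l 67)

theorem x2_t3a_c1_n_h272 : chk3 (onCell 0 1073741824 0 429496730 0 67108864 T2_t3a_c1_n) x2_t3a_c1_n_t272 171 56 108 = true := by decide +kernel

def x2_t3a_c1_n_t273 : T :=
  (.b (.a (.l 2823) (.l 67)) (.a (.l 2823) (.l 67)))

theorem x2_t3a_c1_n_h273 : chk3 (onCell 0 1073741824 0 429496730 0 67108864 T2_t3a_c1_n) x2_t3a_c1_n_t273 85 57 108 = true := by decide +kernel

def x2_t3a_c1_n_t274 : T :=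
  (.b (.l 99) (.a (.c (.b (.l 99) (.a (.c (.b (.a (.c (.b (.l 99) (.a (.l 15) (.l 99))) (.b (.l
      99) (.a (.l 15) (.l 99)))) (.l 67)) (.b (.a (.l 99) (.l 67)) (.a (.l 99) (.l 67)))) (.b (.a
      (.c (.b (.l 99) (.a (.b (.l 99) (.l 99)) (.l 99))) (.b (.l 99) (.a (.b (.l 99) (.l 99)) (.l
      99)))) (.l 67)) (.b (.a (.l 99) (.l 67)) (.l 99)))) (.l 67))) (.b (.l 99) (.a (.c (.b (.a
      (.c (.b (.l 99) (.a (.b (.l 99) (.l 99)) (.l 99))) (.b (.l 99) (.a (.b (.l 99) (.l 99)) (.l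
      99)))) (.l 67)) (.b (.a (.l 99) (.l 67)) (.l 99))) (.b (.a (.c (.b (.l 99) (.a (.b (.l 99)
      (.l 99)) (.l 99))) (.b (.l 99) (.a (.l 99) (.l 99)))) (.l 67)) (.b (.a (.l 99) (.l 67)) (.l
      99)))) (.l 67)))) (.l 67)))

theorem x2_t3a_c1_n_h274 : chk3 (onCell 0 1073741824 0 429496730 0 67108864 T2_t3a_c1_n) x2_t3a_c1_n_t274 340 112 436 = true := by decide +kernel

def x2_t3a_c1_n_t275 : T :=
  (.b (.l 99) (.a (.c (.b (.l 99) (.a (.c (.b (.a (.c (.b (.l 99) (.a (.l 99) (.l 99))) (.b (.l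
      99) (.l 99))) (.l 67)) (.b (.l 99) (.l 99))) (.b (.a (.c (.b (.l 99) (.l 99)) (.b (.l 99)
      (.l 99))) (.l 67)) (.b (.l 99) (.l 99)))) (.l 67))) (.b (.l 99) (.a (.c (.b (.a (.c (.b (.l
      99) (.l 99)) (.l 99)) (.l 67)) (.l 99)) (.b (.a (.l 99) (.l 67)) (.l 99))) (.l 67)))) (.l
      67)))

theorem x2_t3a_c1_n_h275 : chk3 (onCell 0 1073741824 0 429496730 0 67108864 T2_t3a_c1_n) x2_t3a_c1_n_t275 340 112 437 = true := by decide +kernel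

def x2_t3a_c1_n_t276 : T :=
  (.l 67)

theorem x2_t3a_c1_n_h276 : chk3 (onCell 0 1073741824 0 429496730 0 67108864 T2_t3a_c1_n) x2_t3a_c1_n_t276 341 112 218 = true := by decide +kernel

def x2_t3a_c1_n_t277 : T :=
  (.b (.a (.c (.b (.a (.c (.b (.a (.l 99) (.l 67)) (.l 99)) (.b (.a (.l 99) (.l 67)) (.l 99)))
      (.l 67)) (.a (.l 99) (.l 67))) (.b (.a (.c (.b (.a (.l 99) (.l 67)) (.l 99)) (.b (.a (.l
      99) (.l 67)) (.l 99))) (.l 67)) (.a (.l 99) (.l 67)))) (.l 67)) (.a (.l 99) (.l 67)))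

theorem x2_t3a_c1_n_h277 : chk3 (onCell 0 1073741824 0 429496730 0 67108864 T2_t3a_c1_n) x2_t3a_c1_n_t277 170 113 218 = true := by decide +kernel

def x2_t3a_c1_n_t278 : T :=
  (.b (.a (.c (.b (.l 99) (.a (.c (.b (.l 99) (.a (.c (.b (.a (.l 99) (.l 67)) (.l 99)) (.b (.a
      (.l 99) (.l 67)) (.l 99))) (.l 67))) (.b (.l 99) (.a (.c (.b (.l 99) (.l 99)) (.b (.l 99)
      (.l 99))) (.l 67)))) (.l 67))) (.b (.l 99) (.a (.c (.b (.l 99) (.a (.c (.b (.l 99) (.l 99))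
      (.b (.l 99) (.l 99))) (.l 67))) (.b (.l 99) (.a (.c (.b (.l 99) (.l 99)) (.b (.l 99) (.l
      99))) (.l 67)))) (.l 67)))) (.l 67)) (.b (.a (.c (.b (.a (.c (.b (.l 99) (.l 99)) (.l 99))
      (.l 67)) (.a (.l 99) (.l 67))) (.b (.a (.l 99) (.l 67)) (.l 99))) (.l 67)) (.a (.l 99) (.l
      67))))

theorem x2_t3a_c1_n_h278 : chk3 (onCell 0 1073741824 0 429496730 0 67108864 T2_t3a_c1_n) x2_t3a_c1_n_t278 170 56 219 = true := by decide +kernel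

def x2_t3a_c1_n_t279 : T :=
  (.l 67)

theorem x2_t3a_c1_n_h279 : chk3 (onCell 0 1073741824 0 429496730 0 67108864 T2_t3a_c1_n) x2_t3a_c1_n_t279 171 56 109 = true := by decide +kernel

def x2_t3a_c1_n_t280 : T :=
  (.b (.a (.c (.b (.a (.l 99) (.l 3)) (.l 2823)) (.l 99)) (.l 67)) (.a (.l 2823) (.l 67)))

theorem x2_t3a_c1_n_h280 : chk3 (onCell 0 1073741824 0 429496730 0 67108864 T2_t3a_c1_n) x2_t3a_c1_n_t280 85 57 109 = true := by decide +kernel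

def x2_t3a_c1_n_t281 : T :=
  (.l 2823)

theorem x2_t3a_c1_n_h281 : chk3 (onCell 0 1073741824 0 429496730 0 67108864 T2_t3a_c1_n) x2_t3a_c1_n_t281 42 29 54 = true := by decide +kernel

def x2_t3a_c1_n_t282 : T :=
  (.l 15)

theorem x2_t3a_c1_n_h282 : chk3 (onCell 0 1073741824 0 429496730 0 67108864 T2_t3a_c1_n) x2_t3a_c1_n_t282 84 28 110 = true := by decide +kernel

def x2_t3a_c1_n_t283 : T :=
  (.l 15)

theorem x2_t3a_c1_n_h283 : chk3 (onCell 0 1073741824 0 429496730 0 67108864 T2_t3a_c1_n) x2_t3a_c1_n_t283 168 56 111 = true := by decide +kernel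

def x2_t3a_c1_n_t284 : T :=
  (.l 15)

theorem x2_t3a_c1_n_h284 : chk3 (onCell 0 1073741824 0 429496730 0 67108864 T2_t3a_c1_n) x2_t3a_c1_n_t284 338 112 222 = true := by decide +kernel

def x2_t3a_c1_n_t285 : T :=
  (.l 2759)

theorem x2_t3a_c1_n_h285 : chk3 (onCell 0 1073741824 0 429496730 0 67108864 T2_t3a_c1_n) x2_t3a_c1_n_t285 339 224 222 = true := by decide +kernel

def x2_t3a_c1_n_t286 : T :=
  (.a (.l 15) (.b (.l 2759) (.c (.l 15) (.a (.l 15) (.c (.l 15) (.b (.a (.l 15) (.b (.l 2759) (.c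
      (.l 15) (.a (.l 15) (.l 99))))) (.a (.l 15) (.c (.l 15) (.b (.a (.l 15) (.l 99)) (.l
      2695))))))))))

theorem x2_t3a_c1_n_h286 : chk3 (onCell 0 1073741824 0 429496730 0 67108864 T2_t3a_c1_n) x2_t3a_c1_n_t286 339 225 444 = true := by decide +kernel

def x2_t3a_c1_n_t287 : T :=
  (.a (.l 15) (.b (.l 2759) (.c (.a (.l 15) (.c (.b (.a (.l 15) (.b (.l 2759) (.c (.a (.l 15) (.l
      99)) (.a (.l 15) (.l 99))))) (.a (.l 15) (.c (.b (.a (.l 15) (.l 99)) (.l 2695)) (.b (.a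
      (.l 15) (.l 99)) (.l 2695))))) (.b (.a (.l 15) (.b (.l 2759) (.c (.a (.l 15) (.l 99)) (.a
      (.l 15) (.l 99))))) (.a (.l 15) (.c (.b (.a (.l 15) (.l 99)) (.l 2695)) (.b (.a (.l 15) (.l
      99)) (.l 2695))))))) (.a (.l 15) (.c (.b (.a (.l 15) (.b (.l 2759) (.c (.a (.l 15) (.l 99))
      (.a (.l 15) (.l 99))))) (.a (.l 15) (.c (.b (.a (.l 15) (.l 99)) (.l 2695)) (.b (.a (.l 15)
      (.l 99)) (.l 2695))))) (.b (.a (.l 15) (.b (.l 2759) (.c (.a (.l 15) (.l 99)) (.a (.l 15)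
      (.l 99))))) (.a (.l 15) (.c (.b (.a (.l 15) (.l 99)) (.l 2695)) (.b (.a (.l 15) (.l 99))
      (.l 2695))))))))))

theorem x2_t3a_c1_n_h287 : chk3 (onCell 0 1073741824 0 429496730 0 67108864 T2_t3a_c1_n) x2_t3a_c1_n_t287 339 225 445 = true := by decide +kernel

def x2_t3a_c1_n_t288 : T :=
  (.a (.l 15) (.c (.b (.a (.l 15) (.c (.l 15) (.b (.a (.l 15) (.l 2695)) (.l 2695)))) (.l 2695))
      (.b (.a (.l 15) (.c (.b (.a (.l 15) (.l 2695)) (.l 2695)) (.b (.a (.l 15) (.l 2695)) (.l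
      2695)))) (.l 2695))))

theorem x2_t3a_c1_n_h288 : chk3 (onCell 0 1073741824 0 429496730 0 67108864 T2_t3a_c1_n) x2_t3a_c1_n_t288 169 113 222 = true := by decide +kernel

def x2_t3a_c1_n_t289 : T :=
  (.l 15)

theorem x2_t3a_c1_n_h289 : chk3 (onCell 0 1073741824 0 429496730 0 67108864 T2_t3a_c1_n) x2_t3a_c1_n_t289 338 112 223 = true := by decide +kernel

def x2_t3a_c1_n_t290 : T :=
  (.l 2759)

theorem x2_t3a_c1_n_h290 : chk3 (onCell 0 1073741824 0 429496730 0 67108864 T2_t3a_c1_n) x2_t3a_c1_n_t290 339 224 223 = true := by decide +kernel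

def x2_t3a_c1_n_t291 : T :=
  (.a (.l 15) (.b (.l 2759) (.c (.a (.l 15) (.c (.b (.a (.l 15) (.b (.l 2759) (.c (.a (.l 15) (.l
      99)) (.a (.l 15) (.l 99))))) (.a (.l 15) (.c (.b (.a (.l 15) (.l 99)) (.l 2695)) (.b (.a
      (.l 15) (.l 99)) (.l 2695))))) (.b (.a (.l 15) (.b (.l 2759) (.c (.a (.l 15) (.l 99)) (.a
      (.l 15) (.l 99))))) (.a (.l 15) (.c (.b (.a (.l 15) (.l 99)) (.l 2695)) (.b (.a (.l 15) (.l
      99)) (.l 2695))))))) (.a (.l 15) (.c (.b (.a (.l 15) (.b (.l 2759) (.c (.a (.l 15) (.l 99))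
      (.a (.l 15) (.l 99))))) (.a (.l 15) (.c (.b (.a (.l 15) (.l 99)) (.l 2695)) (.b (.a (.l 15)
      (.l 99)) (.l 2695))))) (.b (.a (.l 15) (.b (.l 2759) (.c (.a (.l 15) (.l 99)) (.a (.l 15)
      (.l 99))))) (.a (.l 15) (.c (.b (.a (.l 15) (.l 99)) (.l 2695)) (.b (.a (.l 15) (.l 99))
      (.l 2695))))))))))

theorem x2_t3a_c1_n_h291 : chk3 (onCell 0 1073741824 0 429496730 0 67108864 T2_t3a_c1_n) x2_t3a_c1_n_t291 339 225 446 = true := by decide +kernel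

def x2_t3a_c1_n_t292 : T :=
  (.a (.l 15) (.b (.l 2759) (.c (.a (.l 15) (.b (.c (.a (.l 15) (.b (.l 2759) (.c (.a (.l 15) (.l
      99)) (.a (.l 15) (.l 99))))) (.a (.l 15) (.b (.l 2759) (.c (.a (.l 15) (.l 99)) (.a (.l 15)
      (.l 99)))))) (.c (.a (.l 15) (.c (.b (.a (.l 15) (.l 99)) (.l 2695)) (.b (.a (.l 15) (.l
      99)) (.l 2695)))) (.a (.l 15) (.c (.b (.a (.l 15) (.l 99)) (.l 2695)) (.b (.a (.l 15) (.l
      99)) (.l 2695))))))) (.a (.l 15) (.b (.c (.a (.l 15) (.b (.l 2759) (.c (.a (.l 15) (.l 99))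
      (.a (.l 15) (.l 99))))) (.a (.l 15) (.b (.l 2759) (.c (.a (.l 15) (.l 99)) (.a (.l 15) (.l
      99)))))) (.c (.a (.l 15) (.c (.b (.a (.l 15) (.l 99)) (.l 2695)) (.b (.a (.l 15) (.l 99))
      (.l 2695)))) (.a (.l 15) (.c (.b (.a (.l 15) (.l 99)) (.l 2695)) (.b (.a (.l 15) (.l 99))
      (.l 2695))))))))))

theorem x2_t3a_c1_n_h292 : chk3 (onCell 0 1073741824 0 429496730 0 67108864 T2_t3a_c1_n) x2_t3a_c1_n_t292 339 225 447 = true := by decide +kernel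

def x2_t3a_c1_n_t293 : T :=
  (.a (.l 15) (.c (.b (.a (.l 15) (.c (.b (.a (.l 15) (.l 2695)) (.l 2695)) (.b (.a (.l 15) (.l
      2695)) (.l 2695)))) (.l 2695)) (.b (.a (.l 15) (.c (.b (.a (.l 15) (.l 2695)) (.l 2695))
      (.b (.a (.l 15) (.l 2695)) (.l 2695)))) (.l 2695))))

theorem x2_t3a_c1_n_h293 : chk3 (onCell 0 1073741824 0 429496730 0 67108864 T2_t3a_c1_n) x2_t3a_c1_n_t293 169 113 223 = true := by decide +kernel

def x2_t3a_c1_n_t294 : T :=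
  (.a (.l 15) (.l 2695))

theorem x2_t3a_c1_n_h294 : chk3 (onCell 0 1073741824 0 429496730 0 67108864 T2_t3a_c1_n) x2_t3a_c1_n_t294 84 57 111 = true := by decide +kernel

def x2_t3a_c1_n_t295 : T :=
  (.b (.a (.b (.l 99) (.c (.a (.c (.b (.l 99) (.a (.c (.b (.l 99) (.l 99)) (.b (.l 99) (.l 99)))
      (.l 67))) (.b (.l 99) (.a (.c (.b (.l 99) (.l 99)) (.b (.l 99) (.l 99))) (.l 67)))) (.l
      67)) (.a (.c (.b (.l 99) (.a (.c (.b (.l 99) (.l 99)) (.b (.l 99) (.l 99))) (.l 67))) (.b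
      (.l 99) (.a (.c (.b (.l 99) (.l 99)) (.b (.l 99) (.l 99))) (.l 67)))) (.l 67)))) (.l 67))
      (.b (.a (.c (.b (.a (.l 99) (.l 67)) (.l 99)) (.b (.a (.l 99) (.l 67)) (.l 99))) (.l 3))
      (.a (.l 99) (.l 67))))

theorem x2_t3a_c1_n_h295 : chk3 (onCell 0 1073741824 0 429496730 0 67108864 T2_t3a_c1_n) x2_t3a_c1_n_t295 170 56 220 = true := by decide +kernel

def x2_t3a_c1_n_t296 : T :=
  (.b (.a (.b (.l 99) (.c (.a (.c (.b (.l 99) (.a (.c (.b (.l 99) (.l 99)) (.b (.l 99) (.l 99)))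
      (.l 67))) (.b (.l 99) (.a (.c (.b (.l 99) (.l 99)) (.l 99)) (.l 67)))) (.l 67)) (.a (.b (.l
      99) (.c (.a (.l 99) (.l 67)) (.a (.l 99) (.l 67)))) (.l 67)))) (.l 67)) (.b (.a (.c (.b (.l
      99) (.l 99)) (.b (.l 99) (.l 99))) (.l 3)) (.a (.l 99) (.l 67))))

theorem x2_t3a_c1_n_h296 : chk3 (onCell 0 1073741824 0 429496730 0 67108864 T2_t3a_c1_n) x2_t3a_c1_n_t296 170 56 221 = true := by decide +kernel

def x2_t3a_c1_n_t297 : T :=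
  (.l 67)

theorem x2_t3a_c1_n_h297 : chk3 (onCell 0 1073741824 0 429496730 0 67108864 T2_t3a_c1_n) x2_t3a_c1_n_t297 171 56 110 = true := by decide +kernel

def x2_t3a_c1_n_t298 : T :=
  (.b (.a (.l 99) (.l 67)) (.a (.l 99) (.l 67)))

theorem x2_t3a_c1_n_h298 : chk3 (onCell 0 1073741824 0 429496730 0 67108864 T2_t3a_c1_n) x2_t3a_c1_n_t298 85 57 110 = true := by decide +kernel

def x2_t3a_c1_n_t299 : T :=
  (.b (.a (.c (.b (.a (.b (.l 99) (.c (.a (.b (.l 99) (.c (.a (.l 99) (.l 67)) (.l 99))) (.l 67))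
      (.a (.b (.l 99) (.l 99)) (.l 67)))) (.l 67)) (.b (.a (.c (.b (.l 99) (.l 99)) (.b (.l 99)
      (.l 99))) (.l 3)) (.a (.l 99) (.l 67)))) (.b (.a (.b (.l 67) (.c (.a (.b (.l 99) (.l 99))
      (.l 67)) (.a (.b (.l 67) (.l 99)) (.l 67)))) (.l 67)) (.b (.a (.l 99) (.l 3)) (.l 99))))
      (.l 67)) (.b (.a (.l 99) (.l 67)) (.a (.l 99) (.l 67))))

theorem x2_t3a_c1_n_h299 : chk3 (onCell 0 1073741824 0 429496730 0 67108864 T2_t3a_c1_n) x2_t3a_c1_n_t299 85 28 111 = true := by decide +kernel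

def x2_t3a_c1_n_t300 : T :=
  (.l 2695)

theorem x2_t3a_c1_n_h300 : chk3 (onCell 0 1073741824 0 429496730 0 67108864 T2_t3a_c1_n) x2_t3a_c1_n_t300 42 29 55 = true := by decide +kernel

def x2_t3a_c1_n_t301 : T :=
  (.b (.c (.c (.c (.l 3907) (.l 3651)) (.c (.l 3395) (.c (.l 3395) (.b (.l 3203) (.l 3267)))))
      (.c (.c (.b (.l 3075) (.l 3139)) (.b (.l 2947) (.l 3011))) (.c (.b (.a (.l 2819) (.l 2819))
      (.l 2883)) (.b (.a (.l 2691) (.l 2691)) (.l 2755))))) (.c (.l 3267) (.c (.l 3011) (.l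
      2755))))

theorem x2_t3a_c1_n_h301 : chk3 (onCell 0 1073741824 0 429496730 0 67108864 T2_t3a_c1_n) x2_t3a_c1_n_t301 43 14 6 = true := by decide +kernel

def x2_t3a_c1_n_t302 : T :=
  (.l 15)

theorem x2_t3a_c1_n_h302 : chk3 (onCell 0 1073741824 0 429496730 0 67108864 T2_t3a_c1_n) x2_t3a_c1_n_t302 168 56 112 = true := by decide +kernel

def x2_t3a_c1_n_t303 : T :=
  (.l 15)

theorem x2_t3a_c1_n_h303 : chk3 (onCell 0 1073741824 0 429496730 0 67108864 T2_t3a_c1_n) x2_t3a_c1_n_t303 338 112 224 = true := by decide +kernel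

def x2_t3a_c1_n_t304 : T :=
  (.l 2759)

theorem x2_t3a_c1_n_h304 : chk3 (onCell 0 1073741824 0 429496730 0 67108864 T2_t3a_c1_n) x2_t3a_c1_n_t304 339 224 224 = true := by decide +kernel

def x2_t3a_c1_n_t305 : T :=
  (.a (.l 15) (.b (.l 2759) (.c (.a (.l 15) (.b (.c (.a (.l 15) (.b (.l 2759) (.c (.a (.l 15) (.l
      99)) (.a (.l 15) (.l 99))))) (.a (.l 15) (.b (.l 2759) (.c (.a (.l 15) (.l 99)) (.a (.l 15)
      (.l 99)))))) (.c (.a (.l 15) (.c (.b (.a (.l 15) (.l 99)) (.l 2695)) (.b (.a (.l 15) (.l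
      99)) (.l 2695)))) (.a (.l 15) (.c (.b (.a (.l 15) (.l 99)) (.l 2695)) (.b (.a (.l 15) (.l
      99)) (.l 2695))))))) (.a (.l 15) (.b (.c (.a (.l 15) (.b (.l 2759) (.c (.a (.l 15) (.l 99))
      (.a (.l 15) (.l 99))))) (.a (.l 15) (.b (.l 2695) (.c (.a (.l 15) (.l 99)) (.a (.l 15) (.l
      99)))))) (.c (.a (.l 15) (.c (.b (.a (.l 15) (.l 99)) (.l 2695)) (.b (.a (.l 15) (.l 99))
      (.l 2695)))) (.a (.l 15) (.c (.b (.a (.l 15) (.l 99)) (.l 2695)) (.b (.a (.l 15) (.l 99))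
      (.l 2695))))))))))

theorem x2_t3a_c1_n_h305 : chk3 (onCell 0 1073741824 0 429496730 0 67108864 T2_t3a_c1_n) x2_t3a_c1_n_t305 339 225 448 = true := by decide +kernel

def x2_t3a_c1_n_t306 : T :=
  (.a (.l 15) (.b (.l 2759) (.c (.a (.l 15) (.b (.c (.a (.l 15) (.b (.l 2695) (.c (.a (.l 15) (.l
      99)) (.a (.l 15) (.l 99))))) (.a (.l 15) (.b (.l 2695) (.c (.a (.l 15) (.l 99)) (.a (.l 15)
      (.l 99)))))) (.c (.a (.l 15) (.c (.b (.a (.l 15) (.l 99)) (.l 2695)) (.b (.a (.l 15) (.l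
      99)) (.l 2695)))) (.a (.l 15) (.c (.b (.a (.l 15) (.l 99)) (.l 2695)) (.b (.a (.l 15) (.l
      99)) (.l 2695))))))) (.a (.l 15) (.b (.c (.a (.l 15) (.b (.l 2695) (.c (.a (.l 15) (.l 99))
      (.a (.l 15) (.l 99))))) (.a (.l 15) (.b (.l 2695) (.c (.a (.l 15) (.l 99)) (.a (.l 15) (.l
      99)))))) (.c (.a (.l 15) (.c (.b (.a (.l 15) (.l 99)) (.l 2695)) (.b (.a (.l 15) (.l 99))
      (.l 2695)))) (.a (.l 15) (.c (.b (.a (.l 15) (.l 99)) (.l 2695)) (.b (.a (.l 15) (.l 99))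
      (.l 2695))))))))))

theorem x2_t3a_c1_n_h306 : chk3 (onCell 0 1073741824 0 429496730 0 67108864 T2_t3a_c1_n) x2_t3a_c1_n_t306 339 225 449 = true := by decide +kernel

def x2_t3a_c1_n_t307 : T :=
  (.l 15)

theorem x2_t3a_c1_n_h307 : chk3 (onCell 0 1073741824 0 429496730 0 67108864 T2_t3a_c1_n) x2_t3a_c1_n_t307 338 112 225 = true := by decide +kernel

def x2_t3a_c1_n_t308 : T :=
  (.l 71)

theorem x2_t3a_c1_n_h308 : chk3 (onCell 0 1073741824 0 429496730 0 67108864 T2_t3a_c1_n) x2_t3a_c1_n_t308 339 224 225 = true := by decide +kernel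

def x2_t3a_c1_n_t309 : T :=
  (.a (.l 15) (.b (.l 2759) (.c (.a (.l 15) (.b (.c (.a (.l 15) (.b (.l 2695) (.c (.a (.l 15) (.l
      99)) (.a (.l 15) (.l 99))))) (.a (.l 15) (.b (.l 2695) (.c (.a (.l 15) (.l 99)) (.a (.l 15)
      (.l 99)))))) (.c (.a (.l 15) (.c (.b (.a (.l 15) (.l 99)) (.l 2695)) (.b (.a (.l 15) (.l
      99)) (.l 2695)))) (.a (.l 15) (.c (.b (.a (.l 15) (.l 99)) (.l 2695)) (.b (.a (.l 15) (.l
      99)) (.l 2695))))))) (.a (.l 15) (.b (.c (.a (.l 15) (.b (.l 99) (.c (.a (.l 15) (.l 99))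
      (.a (.l 15) (.l 99))))) (.a (.l 15) (.b (.l 99) (.c (.a (.l 15) (.l 99)) (.a (.l 15) (.l
      99)))))) (.c (.a (.l 15) (.c (.b (.a (.l 15) (.l 99)) (.l 2695)) (.b (.a (.l 15) (.l 99))
      (.l 2695)))) (.a (.l 15) (.c (.b (.a (.l 15) (.l 99)) (.l 2695)) (.b (.a (.l 15) (.l 99))
      (.l 2695))))))))))

theorem x2_t3a_c1_n_h309 : chk3 (onCell 0 1073741824 0 429496730 0 67108864 T2_t3a_c1_n) x2_t3a_c1_n_t309 339 225 450 = true := by decide +kernel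

def x2_t3a_c1_n_t310 : T :=
  (.a (.l 15) (.b (.l 71) (.c (.a (.l 15) (.b (.c (.a (.l 15) (.b (.l 99) (.c (.a (.l 15) (.l
      99)) (.a (.l 15) (.l 99))))) (.a (.l 15) (.b (.l 99) (.c (.a (.l 15) (.l 99)) (.a (.l 15)
      (.l 99)))))) (.c (.a (.l 15) (.c (.b (.a (.l 15) (.l 99)) (.l 2567)) (.b (.a (.l 15) (.l
      99)) (.l 2567)))) (.a (.l 15) (.c (.b (.a (.l 15) (.l 99)) (.l 2567)) (.b (.a (.l 15) (.l
      99)) (.l 2567))))))) (.a (.l 15) (.b (.c (.a (.l 15) (.b (.l 99) (.c (.a (.l 15) (.l 99))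
      (.a (.l 15) (.l 99))))) (.a (.l 15) (.b (.l 99) (.c (.a (.l 15) (.l 99)) (.a (.l 15) (.l
      99)))))) (.c (.a (.l 15) (.c (.b (.a (.l 15) (.l 99)) (.l 2567)) (.b (.a (.l 15) (.l 99))
      (.l 2567)))) (.a (.l 15) (.c (.b (.a (.l 15) (.l 99)) (.l 2567)) (.b (.a (.l 15) (.l 99))
      (.l 2567))))))))))

theorem x2_t3a_c1_n_h310 : chk3 (onCell 0 1073741824 0 429496730 0 67108864 T2_t3a_c1_n) x2_t3a_c1_n_t310 339 225 451 = true := by decide +kernel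

def x2_t3a_c1_n_t311 : T :=
  (.c (.a (.l 15) (.c (.b (.a (.l 15) (.c (.b (.a (.l 15) (.l 2695)) (.l 2695)) (.b (.a (.l 15)
      (.l 2695)) (.l 2695)))) (.l 2695)) (.b (.a (.l 15) (.c (.b (.a (.l 15) (.l 2695)) (.l
      2695)) (.b (.a (.l 15) (.l 2695)) (.l 2695)))) (.l 2695)))) (.a (.l 15) (.c (.b (.a (.l 15)
      (.c (.b (.a (.l 15) (.l 2695)) (.l 2695)) (.b (.a (.l 15) (.l 2695)) (.l 2695)))) (.l
      2695)) (.b (.a (.l 15) (.c (.b (.a (.l 15) (.l 2567)) (.l 2567)) (.b (.a (.l 15) (.l 2567))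
      (.l 2567)))) (.l 2567)))))

theorem x2_t3a_c1_n_h311 : chk3 (onCell 0 1073741824 0 429496730 0 67108864 T2_t3a_c1_n) x2_t3a_c1_n_t311 169 113 112 = true := by decide +kernel

def x2_t3a_c1_n_t312 : T :=
  (.a (.l 15) (.l 2567))

theorem x2_t3a_c1_n_h312 : chk3 (onCell 0 1073741824 0 429496730 0 67108864 T2_t3a_c1_n) x2_t3a_c1_n_t312 84 57 112 = true := by decide +kernel

def x2_t3a_c1_n_t313 : T :=
  (.l 15)

theorem x2_t3a_c1_n_h313 : chk3 (onCell 0 1073741824 0 429496730 0 67108864 T2_t3a_c1_n) x2_t3a_c1_n_t313 168 56 113 = true := by decide +kernel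

def x2_t3a_c1_n_t314 : T :=
  (.l 15)

theorem x2_t3a_c1_n_h314 : chk3 (onCell 0 1073741824 0 429496730 0 67108864 T2_t3a_c1_n) x2_t3a_c1_n_t314 338 112 226 = true := by decide +kernel

def x2_t3a_c1_n_t315 : T :=
  (.l 71)

theorem x2_t3a_c1_n_h315 : chk3 (onCell 0 1073741824 0 429496730 0 67108864 T2_t3a_c1_n) x2_t3a_c1_n_t315 339 224 226 = true := by decide +kernel

def x2_t3a_c1_n_t316 : T :=
  (.a (.l 15) (.b (.l 71) (.c (.a (.l 15) (.b (.c (.a (.l 15) (.b (.l 99) (.c (.a (.l 15) (.l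
      99)) (.a (.l 15) (.l 99))))) (.a (.l 15) (.b (.l 99) (.c (.a (.l 15) (.l 99)) (.a (.l 15)
      (.l 99)))))) (.c (.a (.l 15) (.c (.b (.a (.l 15) (.l 99)) (.l 2567)) (.b (.a (.l 15) (.l
      99)) (.l 2567)))) (.a (.l 15) (.c (.b (.a (.l 15) (.l 99)) (.l 2567)) (.b (.a (.l 15) (.l
      99)) (.l 99))))))) (.a (.l 15) (.b (.c (.a (.l 15) (.b (.l 99) (.l 99))) (.a (.l 15) (.l
      99))) (.c (.a (.l 15) (.c (.b (.a (.l 15) (.l 99)) (.l 99)) (.b (.a (.l 15) (.l 99)) (.l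
      99)))) (.a (.l 15) (.c (.b (.a (.l 15) (.l 99)) (.l 99)) (.b (.a (.l 15) (.l 99)) (.l
      99))))))))))

theorem x2_t3a_c1_n_h316 : chk3 (onCell 0 1073741824 0 429496730 0 67108864 T2_t3a_c1_n) x2_t3a_c1_n_t316 339 225 452 = true := by decide +kernel

def x2_t3a_c1_n_t317 : T :=
  (.a (.l 15) (.b (.l 71) (.c (.a (.l 15) (.b (.c (.a (.l 15) (.l 99)) (.a (.l 15) (.l 99))) (.c
      (.a (.l 15) (.c (.b (.a (.l 15) (.l 99)) (.l 99)) (.b (.a (.l 15) (.l 99)) (.l 99)))) (.a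
      (.l 15) (.c (.b (.a (.l 15) (.l 99)) (.l 99)) (.b (.a (.l 15) (.l 99)) (.l 99))))))) (.a
      (.l 15) (.b (.c (.a (.l 15) (.l 99)) (.a (.l 15) (.l 99))) (.c (.a (.l 15) (.c (.b (.a (.l
      15) (.l 99)) (.l 99)) (.b (.a (.l 99) (.l 99)) (.l 99)))) (.a (.l 15) (.c (.b (.l 99) (.l
      99)) (.b (.l 99) (.l 99))))))))))

theorem x2_t3a_c1_n_h317 : chk3 (onCell 0 1073741824 0 429496730 0 67108864 T2_t3a_c1_n) x2_t3a_c1_n_t317 339 225 453 = true := by decide +kernel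

def x2_t3a_c1_n_t318 : T :=
  (.a (.l 15) (.b (.l 71) (.c (.a (.l 15) (.b (.l 71) (.c (.a (.l 15) (.b (.c (.a (.l 15) (.l
      99)) (.a (.l 15) (.l 99))) (.c (.a (.l 15) (.c (.b (.l 99) (.l 99)) (.b (.l 99) (.l 99))))
      (.a (.l 15) (.c (.b (.l 99) (.l 99)) (.l 99)))))) (.a (.l 15) (.b (.c (.a (.l 15) (.l 99))
      (.a (.l 15) (.l 99))) (.c (.a (.l 15) (.l 99)) (.a (.l 15) (.l 99)))))))) (.a (.l 15) (.b
      (.l 71) (.c (.a (.l 15) (.b (.c (.a (.l 15) (.l 99)) (.a (.l 15) (.l 99))) (.c (.a (.l 15)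
      (.l 99)) (.a (.l 15) (.l 99))))) (.a (.l 15) (.b (.c (.a (.l 15) (.l 99)) (.a (.l 15) (.l
      99))) (.c (.a (.l 15) (.l 99)) (.a (.l 15) (.l 99)))))))))))

theorem x2_t3a_c1_n_h318 : chk3 (onCell 0 1073741824 0 429496730 0 67108864 T2_t3a_c1_n) x2_t3a_c1_n_t318 169 112 227 = true := by decide +kernel

def x2_t3a_c1_n_t319 : T :=
  (.c (.a (.l 15) (.c (.b (.a (.l 15) (.c (.b (.a (.l 15) (.l 2567)) (.l 2567)) (.b (.a (.l 15)
      (.l 2567)) (.l 2567)))) (.l 2567)) (.b (.a (.l 15) (.c (.b (.a (.l 15) (.l 2567)) (.l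
      2567)) (.b (.a (.l 15) (.l 2567)) (.l 2567)))) (.l 2567)))) (.a (.l 15) (.b (.c (.a (.l 15)
      (.b (.c (.a (.l 15) (.l 2567)) (.a (.l 15) (.l 2567))) (.l 2567))) (.a (.l 15) (.b (.c (.a
      (.l 15) (.l 2567)) (.a (.l 15) (.l 2567))) (.l 2567)))) (.l 2567))))

theorem x2_t3a_c1_n_h319 : chk3 (onCell 0 1073741824 0 429496730 0 67108864 T2_t3a_c1_n) x2_t3a_c1_n_t319 169 113 113 = true := by decide +kernel

def x2_t3a_c1_n_t320 : T :=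
  (.a (.l 15) (.l 2567))

theorem x2_t3a_c1_n_h320 : chk3 (onCell 0 1073741824 0 429496730 0 67108864 T2_t3a_c1_n) x2_t3a_c1_n_t320 84 57 113 = true := by decide +kernel

def x2_t3a_c1_n_t321 : T :=
  (.c (.b (.a (.b (.c (.a (.b (.l 67) (.c (.a (.b (.l 67) (.l 99)) (.l 67)) (.a (.b (.l 67) (.l
      99)) (.l 67)))) (.l 67)) (.a (.b (.l 67) (.c (.a (.l 99) (.l 67)) (.a (.l 99) (.l 67))))
      (.l 67))) (.c (.b (.a (.l 99) (.l 3)) (.l 99)) (.b (.a (.l 99) (.l 3)) (.l 99)))) (.l 67))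
      (.b (.a (.l 99) (.l 67)) (.l 99))) (.b (.a (.b (.c (.a (.b (.l 3) (.c (.a (.l 99) (.l 67))
      (.a (.l 99) (.l 67)))) (.l 67)) (.a (.b (.l 3) (.l 99)) (.l 67))) (.c (.b (.a (.l 99) (.l
      3)) (.l 99)) (.b (.l 99) (.l 99)))) (.l 67)) (.b (.a (.l 67) (.l 67)) (.l 99))))

theorem x2_t3a_c1_n_h321 : chk3 (onCell 0 1073741824 0 429496730 0 67108864 T2_t3a_c1_n) x2_t3a_c1_n_t321 85 28 56 = true := by decide +kernel

def x2_t3a_c1_n_t322 : T :=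
  (.l 15)

theorem x2_t3a_c1_n_h322 : chk3 (onCell 0 1073741824 0 429496730 0 67108864 T2_t3a_c1_n) x2_t3a_c1_n_t322 168 56 114 = true := by decide +kernel

end Pool.Agent.Strip051.LC.E1.Ch
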