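import Pool.Agent.Strip051.LC.E1.Ch.Te

/-! # Rests near the full period: certificate P_x2_t3a_c1_n_8 -/

set_option maxRecDepth 100000

namespace Pool.Agent.Strip051.LC.E1.Ch

open Pool.Agent.Strip051.PB
open Pool.Agent.Strip051.LC.E0.Ch (onCell Tree)

def x2_t3a_c1_n_t373 : T :=
  (.c (.a (.l 15) (.b (.c (.a (.l 15) (.b (.c (.a (.l 15) (.l 99)) (.a (.l 15) (.l 99))) (.l
      2311))) (.a (.l 15) (.b (.c (.a (.l 15) (.l 99)) (.a (.l 15) (.l 99))) (.l 2311)))) (.l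
      2311))) (.a (.l 15) (.b (.c (.a (.l 15) (.b (.c (.a (.l 15) (.l 99)) (.a (.l 15) (.l 99)))
      (.l 2311))) (.a (.l 15) (.b (.c (.a (.l 15) (.l 99)) (.a (.b (.c (.l 15) (.a (.l 15) (.l
      2311))) (.l 2311)) (.l 99))) (.l 2311)))) (.l 2311))))

theorem x2_t3a_c1_n_h373 : chk3 (onCell 0 1073741824 0 429496730 0 67108864 T2_t3a_c1_n) x2_t3a_c1_n_t373 169 113 119 = true := by decide +kernel

def x2_t3a_c1_n_t374 : T :=
  (.c (.a (.l 15) (.l 2311)) (.a (.l 15) (.l 2311)))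

theorem x2_t3a_c1_n_h374 : chk3 (onCell 0 1073741824 0 429496730 0 67108864 T2_t3a_c1_n) x2_t3a_c1_n_t374 84 57 59 = true := by decide +kernel

def x2_t3a_c1_n_t375 : T :=
  (.b (.c (.a (.b (.c (.a (.l 67) (.l 67)) (.a (.l 67) (.l 67))) (.l 99)) (.l 67)) (.a (.b (.c
      (.a (.l 67) (.l 67)) (.a (.l 67) (.l 67))) (.l 99)) (.l 67))) (.b (.c (.a (.l 67) (.l 67))
      (.a (.l 67) (.l 67))) (.l 67)))

theorem x2_t3a_c1_n_h375 : chk3 (onCell 0 1073741824 0 429496730 0 67108864 T2_t3a_c1_n) x2_t3a_c1_n_t375 85 28 59 = true := by decide +kernel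

def x2_t3a_c1_n_t376 : T :=
  (.c (.b (.a (.l 2307) (.l 2307)) (.l 2371)) (.b (.a (.l 3) (.c (.l 3) (.b (.l 2307) (.l
      2307)))) (.l 67)))

theorem x2_t3a_c1_n_h376 : chk3 (onCell 0 1073741824 0 429496730 0 67108864 T2_t3a_c1_n) x2_t3a_c1_n_t376 43 28 29 = true := by decide +kernel

def x2_t3a_c1_n_t377 : T :=
  (.a (.l 2311) (.l 67))

theorem x2_t3a_c1_n_h377 : chk3 (onCell 0 1073741824 0 429496730 0 67108864 T2_t3a_c1_n) x2_t3a_c1_n_t377 21 29 29 = true := by decide +kernel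

def x2_t3a_c1_n_t378 : T :=
  (.l 15)

theorem x2_t3a_c1_n_h378 : chk3 (onCell 0 1073741824 0 429496730 0 67108864 T2_t3a_c1_n) x2_t3a_c1_n_t378 168 56 120 = true := by decide +kernel

def x2_t3a_c1_n_t379 : T :=
  (.l 15)

theorem x2_t3a_c1_n_h379 : chk3 (onCell 0 1073741824 0 429496730 0 67108864 T2_t3a_c1_n) x2_t3a_c1_n_t379 338 112 240 = true := by decide +kernel

def x2_t3a_c1_n_t380 : T :=
  (.c (.b (.l 2311) (.a (.l 15) (.l 2311))) (.b (.l 2311) (.a (.l 15) (.l 2311))))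

theorem x2_t3a_c1_n_h380 : chk3 (onCell 0 1073741824 0 429496730 0 67108864 T2_t3a_c1_n) x2_t3a_c1_n_t380 339 224 240 = true := by decide +kernel

def x2_t3a_c1_n_t381 : T :=
  (.l 15)

theorem x2_t3a_c1_n_h381 : chk3 (onCell 0 1073741824 0 429496730 0 67108864 T2_t3a_c1_n) x2_t3a_c1_n_t381 678 225 480 = true := by decide +kernel

def x2_t3a_c1_n_t382 : T :=
  (.l 2311)

theorem x2_t3a_c1_n_h382 : chk3 (onCell 0 1073741824 0 429496730 0 67108864 T2_t3a_c1_n) x2_t3a_c1_n_t382 679 450 480 = true := by decide +kernel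

def x2_t3a_c1_n_t383 : T :=
  (.a (.b (.c (.b (.a (.l 15) (.l 2311)) (.a (.l 15) (.c (.b (.l 2311) (.a (.l 15) (.l 99))) (.b
      (.l 2311) (.a (.l 15) (.l 99)))))) (.b (.a (.l 15) (.l 2311)) (.a (.l 15) (.c (.b (.l 2311)
      (.a (.l 15) (.l 99))) (.b (.l 2311) (.a (.l 15) (.l 99))))))) (.c (.a (.l 15) (.b (.c (.a
      (.l 15) (.l 99)) (.a (.l 15) (.l 99))) (.c (.a (.l 15) (.l 99)) (.a (.l 15) (.l 99))))) (.a
      (.l 15) (.b (.c (.a (.l 15) (.l 99)) (.a (.l 15) (.l 99))) (.c (.a (.l 15) (.l 99)) (.a (.l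
      15) (.l 99))))))) (.l 99))

theorem x2_t3a_c1_n_h383 : chk3 (onCell 0 1073741824 0 429496730 0 67108864 T2_t3a_c1_n) x2_t3a_c1_n_t383 679 451 960 = true := by decide +kernel

def x2_t3a_c1_n_t384 : T :=
  (.a (.b (.c (.b (.a (.l 15) (.l 2311)) (.a (.l 15) (.c (.b (.l 2311) (.a (.l 15) (.l 99))) (.b
      (.l 2311) (.a (.l 15) (.l 99)))))) (.b (.a (.l 15) (.l 2311)) (.a (.l 15) (.c (.b (.l 2311)
      (.a (.l 15) (.l 99))) (.b (.l 2311) (.a (.l 15) (.l 99))))))) (.c (.a (.l 15) (.b (.c (.a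
      (.l 15) (.l 99)) (.a (.l 15) (.l 99))) (.c (.a (.l 15) (.l 99)) (.a (.l 15) (.l 99))))) (.a
      (.l 15) (.b (.c (.a (.l 15) (.l 99)) (.a (.l 15) (.l 99))) (.c (.a (.l 15) (.l 99)) (.a (.l
      15) (.l 99))))))) (.l 99))

theorem x2_t3a_c1_n_h384 : chk3 (onCell 0 1073741824 0 429496730 0 67108864 T2_t3a_c1_n) x2_t3a_c1_n_t384 679 451 961 = true := by decide +kernel

def x2_t3a_c1_n_t385 : T :=
  (.l 15)

theorem x2_t3a_c1_n_h385 : chk3 (onCell 0 1073741824 0 429496730 0 67108864 T2_t3a_c1_n) x2_t3a_c1_n_t385 678 225 481 = true := by decide +kernel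

def x2_t3a_c1_n_t386 : T :=
  (.l 2311)

theorem x2_t3a_c1_n_h386 : chk3 (onCell 0 1073741824 0 429496730 0 67108864 T2_t3a_c1_n) x2_t3a_c1_n_t386 679 450 481 = true := by decide +kernel

def x2_t3a_c1_n_t387 : T :=
  (.a (.b (.c (.b (.a (.l 15) (.l 2311)) (.a (.l 15) (.c (.b (.l 2311) (.a (.l 15) (.l 99))) (.b
      (.l 2311) (.a (.l 15) (.l 99)))))) (.b (.a (.l 15) (.l 2311)) (.a (.l 15) (.c (.b (.l 2311)
      (.a (.l 15) (.l 99))) (.b (.l 2311) (.a (.l 15) (.l 99))))))) (.c (.a (.l 15) (.b (.c (.a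
      (.l 15) (.l 99)) (.a (.l 15) (.l 99))) (.c (.a (.l 15) (.l 99)) (.a (.l 15) (.l 99))))) (.a
      (.l 15) (.b (.c (.a (.l 15) (.l 99)) (.a (.l 15) (.l 99))) (.c (.a (.l 15) (.l 99)) (.a (.l
      15) (.l 99))))))) (.l 99))

theorem x2_t3a_c1_n_h387 : chk3 (onCell 0 1073741824 0 429496730 0 67108864 T2_t3a_c1_n) x2_t3a_c1_n_t387 679 451 962 = true := by decide +kernel

def x2_t3a_c1_n_t388 : T :=
  (.a (.b (.c (.b (.a (.l 15) (.l 2311)) (.a (.l 15) (.c (.b (.l 2311) (.a (.l 15) (.l 99))) (.b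
      (.l 2311) (.a (.l 15) (.l 99)))))) (.b (.a (.l 15) (.l 2311)) (.a (.l 15) (.c (.b (.l 2311)
      (.a (.l 15) (.l 99))) (.b (.l 2311) (.a (.l 15) (.l 99))))))) (.c (.a (.l 15) (.b (.c (.a
      (.l 15) (.l 99)) (.a (.l 15) (.l 99))) (.c (.a (.l 15) (.l 99)) (.a (.l 15) (.l 99))))) (.a
      (.l 15) (.b (.c (.a (.l 15) (.l 99)) (.a (.l 15) (.l 99))) (.c (.a (.l 15) (.l 99)) (.a (.l
      15) (.l 99))))))) (.l 99))

theorem x2_t3a_c1_n_h388 : chk3 (onCell 0 1073741824 0 429496730 0 67108864 T2_t3a_c1_n) x2_t3a_c1_n_t388 679 451 963 = true := by decide +kernel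

def x2_t3a_c1_n_t389 : T :=
  (.l 15)

theorem x2_t3a_c1_n_h389 : chk3 (onCell 0 1073741824 0 429496730 0 67108864 T2_t3a_c1_n) x2_t3a_c1_n_t389 338 112 241 = true := by decide +kernel

def x2_t3a_c1_n_t390 : T :=
  (.c (.b (.l 2311) (.a (.l 15) (.l 2311))) (.l 2183))

theorem x2_t3a_c1_n_h390 : chk3 (onCell 0 1073741824 0 429496730 0 67108864 T2_t3a_c1_n) x2_t3a_c1_n_t390 339 224 241 = true := by decide +kernel

def x2_t3a_c1_n_t391 : T :=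
  (.l 15)

theorem x2_t3a_c1_n_h391 : chk3 (onCell 0 1073741824 0 429496730 0 67108864 T2_t3a_c1_n) x2_t3a_c1_n_t391 678 225 482 = true := by decide +kernel

def x2_t3a_c1_n_t392 : T :=
  (.b (.l 2311) (.c (.a (.b (.c (.b (.a (.l 15) (.l 2311)) (.a (.l 15) (.c (.b (.l 2311) (.a (.l
      15) (.l 99))) (.b (.l 2311) (.a (.l 15) (.l 99)))))) (.b (.a (.l 15) (.l 2311)) (.a (.l 15)
      (.l 2311)))) (.c (.a (.l 15) (.b (.c (.a (.l 15) (.l 99)) (.a (.l 15) (.l 99))) (.c (.a (.l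
      15) (.l 99)) (.a (.l 15) (.l 99))))) (.a (.l 15) (.b (.c (.a (.l 15) (.l 99)) (.a (.l 15)
      (.l 99))) (.c (.a (.l 15) (.l 99)) (.a (.l 15) (.l 99))))))) (.l 99)) (.a (.b (.c (.b (.a
      (.l 15) (.l 2311)) (.a (.l 15) (.l 2311))) (.b (.a (.l 15) (.l 99)) (.a (.l 15) (.l 99))))
      (.c (.a (.l 15) (.b (.c (.a (.l 15) (.l 99)) (.a (.l 15) (.l 99))) (.c (.a (.l 15) (.l 99))
      (.a (.l 15) (.l 99))))) (.a (.l 15) (.b (.c (.a (.l 15) (.l 99)) (.a (.l 15) (.l 99))) (.c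
      (.a (.l 15) (.l 99)) (.a (.l 15) (.l 99))))))) (.l 99))))

theorem x2_t3a_c1_n_h392 : chk3 (onCell 0 1073741824 0 429496730 0 67108864 T2_t3a_c1_n) x2_t3a_c1_n_t392 679 225 482 = true := by decide +kernel

def x2_t3a_c1_n_t393 : T :=
  (.a (.l 15) (.b (.l 2183) (.c (.a (.b (.c (.b (.a (.l 15) (.l 99)) (.a (.l 15) (.l 99))) (.b
      (.a (.l 15) (.l 99)) (.a (.l 15) (.l 99)))) (.c (.a (.l 15) (.b (.c (.a (.l 15) (.l 99))
      (.a (.l 15) (.l 99))) (.c (.a (.l 15) (.l 99)) (.a (.l 15) (.l 99))))) (.a (.l 15) (.b (.c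
      (.a (.l 15) (.l 99)) (.a (.l 15) (.l 99))) (.c (.a (.l 15) (.l 99)) (.a (.l 15) (.l
      99))))))) (.l 99)) (.a (.b (.c (.b (.a (.l 15) (.l 99)) (.a (.l 15) (.l 99))) (.b (.a (.l
      15) (.l 99)) (.a (.l 15) (.l 99)))) (.c (.a (.l 15) (.b (.c (.a (.l 15) (.l 99)) (.a (.l
      15) (.l 99))) (.c (.a (.l 15) (.l 99)) (.a (.l 15) (.l 99))))) (.a (.l 15) (.b (.c (.a (.l
      15) (.l 99)) (.a (.l 15) (.l 99))) (.c (.a (.l 15) (.l 99)) (.a (.l 15) (.l 99))))))) (.l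
      99)))))

theorem x2_t3a_c1_n_h393 : chk3 (onCell 0 1073741824 0 429496730 0 67108864 T2_t3a_c1_n) x2_t3a_c1_n_t393 339 225 483 = true := by decide +kernel

def x2_t3a_c1_n_t394 : T :=
  (.c (.a (.l 15) (.b (.c (.a (.l 15) (.b (.c (.a (.b (.c (.a (.l 15) (.l 2311)) (.a (.l 15) (.l
      2311))) (.l 2311)) (.l 99)) (.a (.b (.c (.a (.l 15) (.l 2311)) (.a (.l 15) (.l 2311))) (.l
      2311)) (.l 99))) (.l 2311))) (.a (.l 15) (.b (.c (.a (.b (.c (.a (.l 15) (.l 2311)) (.a (.l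
      15) (.l 2311))) (.l 2311)) (.l 99)) (.a (.b (.c (.a (.l 15) (.l 2311)) (.a (.l 15) (.l
      2311))) (.l 2311)) (.l 99))) (.l 2311)))) (.l 2311))) (.a (.l 15) (.b (.c (.a (.l 15) (.b
      (.c (.a (.b (.c (.a (.l 15) (.l 2311)) (.a (.l 15) (.l 2311))) (.l 2311)) (.l 99)) (.a (.b
      (.c (.a (.l 15) (.l 2311)) (.a (.l 15) (.l 2311))) (.l 2311)) (.l 99))) (.l 2311))) (.a (.l
      15) (.b (.c (.a (.b (.c (.a (.l 15) (.l 2311)) (.a (.l 15) (.l 2311))) (.l 2311)) (.l 99))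
      (.a (.b (.c (.a (.l 15) (.l 2183)) (.a (.l 15) (.l 2183))) (.l 2183)) (.l 99))) (.l
      2183)))) (.l 2183))))

theorem x2_t3a_c1_n_h394 : chk3 (onCell 0 1073741824 0 429496730 0 67108864 T2_t3a_c1_n) x2_t3a_c1_n_t394 169 113 120 = true := by decide +kernel

def x2_t3a_c1_n_t395 : T :=
  (.l 15)

theorem x2_t3a_c1_n_h395 : chk3 (onCell 0 1073741824 0 429496730 0 67108864 T2_t3a_c1_n) x2_t3a_c1_n_t395 168 56 121 = true := by decide +kernel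

def x2_t3a_c1_n_t396 : T :=
  (.l 15)

theorem x2_t3a_c1_n_h396 : chk3 (onCell 0 1073741824 0 429496730 0 67108864 T2_t3a_c1_n) x2_t3a_c1_n_t396 338 112 242 = true := by decide +kernel

def x2_t3a_c1_n_t397 : T :=
  (.l 2183)

theorem x2_t3a_c1_n_h397 : chk3 (onCell 0 1073741824 0 429496730 0 67108864 T2_t3a_c1_n) x2_t3a_c1_n_t397 339 224 242 = true := by decide +kernel

def x2_t3a_c1_n_t398 : T :=
  (.a (.l 15) (.b (.l 2183) (.c (.a (.b (.c (.b (.a (.l 15) (.l 99)) (.a (.l 15) (.l 99))) (.b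
      (.l 2183) (.a (.l 15) (.l 99)))) (.c (.a (.l 15) (.b (.c (.a (.l 15) (.l 99)) (.a (.l 15)
      (.l 99))) (.c (.a (.l 15) (.l 99)) (.a (.l 15) (.l 99))))) (.a (.l 15) (.b (.c (.a (.l 15)
      (.l 99)) (.a (.l 15) (.l 99))) (.c (.a (.l 15) (.l 99)) (.a (.l 15) (.l 99))))))) (.l 99))
      (.a (.b (.c (.b (.l 2183) (.a (.l 15) (.l 99))) (.b (.l 2183) (.a (.l 15) (.l 99)))) (.c
      (.a (.l 15) (.b (.c (.a (.l 15) (.l 99)) (.a (.l 15) (.l 99))) (.c (.a (.l 15) (.l 99)) (.a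
      (.l 15) (.l 99))))) (.a (.l 15) (.b (.c (.a (.l 15) (.l 99)) (.a (.l 15) (.l 99))) (.c (.a
      (.l 15) (.l 99)) (.a (.l 15) (.l 99))))))) (.l 99)))))

theorem x2_t3a_c1_n_h398 : chk3 (onCell 0 1073741824 0 429496730 0 67108864 T2_t3a_c1_n) x2_t3a_c1_n_t398 339 225 484 = true := by decide +kernel

def x2_t3a_c1_n_t399 : T :=
  (.a (.l 15) (.b (.l 2183) (.c (.a (.b (.c (.b (.l 2183) (.a (.l 15) (.l 99))) (.b (.l 2183) (.a
      (.l 15) (.l 99)))) (.c (.a (.l 15) (.b (.c (.a (.l 15) (.l 99)) (.a (.l 15) (.l 99))) (.c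
      (.a (.l 15) (.l 99)) (.a (.l 15) (.l 99))))) (.a (.l 15) (.b (.l 99) (.c (.a (.l 15) (.l
      99)) (.a (.l 15) (.l 99))))))) (.l 99)) (.a (.b (.c (.b (.l 2183) (.a (.l 15) (.l 99))) (.b
      (.l 2183) (.a (.l 15) (.l 99)))) (.c (.a (.l 15) (.b (.l 99) (.c (.a (.l 15) (.l 99)) (.a
      (.l 15) (.l 99))))) (.a (.l 15) (.b (.l 99) (.a (.l 15) (.l 99)))))) (.l 99)))))

theorem x2_t3a_c1_n_h399 : chk3 (onCell 0 1073741824 0 429496730 0 67108864 T2_t3a_c1_n) x2_t3a_c1_n_t399 339 225 485 = true := by decide +kernel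

def x2_t3a_c1_n_t400 : T :=
  (.a (.l 15) (.b (.l 2183) (.a (.l 15) (.c (.b (.l 2183) (.a (.c (.b (.c (.b (.l 2183) (.a (.l
      15) (.l 99))) (.b (.l 2183) (.a (.l 15) (.l 99)))) (.c (.a (.l 15) (.b (.l 99) (.a (.l 15)
      (.l 99)))) (.a (.l 15) (.b (.l 99) (.a (.l 15) (.l 99)))))) (.b (.c (.b (.l 2183) (.a (.l
      15) (.l 99))) (.b (.l 2183) (.a (.l 15) (.l 99)))) (.a (.l 15) (.c (.b (.l 99) (.a (.l 15)
      (.l 99))) (.b (.l 99) (.a (.l 15) (.l 99))))))) (.l 99))) (.b (.l 2183) (.a (.c (.b (.c (.b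
      (.l 2183) (.a (.l 15) (.l 99))) (.b (.l 2183) (.a (.l 15) (.l 99)))) (.a (.l 15) (.c (.b
      (.l 99) (.a (.l 15) (.l 99))) (.b (.l 99) (.l 99))))) (.b (.c (.b (.l 2183) (.a (.l 15) (.l
      99))) (.b (.l 2183) (.a (.l 15) (.l 99)))) (.a (.l 15) (.c (.b (.l 99) (.l 99)) (.b (.l 99)
      (.l 99)))))) (.l 99)))))))

theorem x2_t3a_c1_n_h400 : chk3 (onCell 0 1073741824 0 429496730 0 67108864 T2_t3a_c1_n) x2_t3a_c1_n_t400 169 112 243 = true := by decide +kernel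

def x2_t3a_c1_n_t401 : T :=
  (.a (.l 15) (.c (.b (.c (.a (.l 15) (.b (.c (.a (.b (.c (.a (.l 15) (.l 2183)) (.a (.l 15) (.l
      2183))) (.l 2183)) (.l 99)) (.a (.b (.c (.a (.l 15) (.l 2183)) (.a (.l 15) (.l 2183))) (.l
      2183)) (.l 67))) (.l 2183))) (.a (.l 15) (.b (.a (.c (.b (.a (.l 15) (.l 2183)) (.l 2183))
      (.b (.a (.l 15) (.l 2183)) (.l 2183))) (.l 67)) (.l 2183)))) (.l 2183)) (.b (.a (.l 15) (.c
      (.b (.a (.c (.b (.a (.l 15) (.l 99)) (.l 2183)) (.b (.a (.l 15) (.l 99)) (.l 2183))) (.l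
      67)) (.l 2183)) (.b (.a (.c (.b (.a (.l 15) (.l 99)) (.l 2183)) (.b (.a (.l 15) (.l 99))
      (.l 2183))) (.l 67)) (.l 2183)))) (.l 2183))))

theorem x2_t3a_c1_n_h401 : chk3 (onCell 0 1073741824 0 429496730 0 67108864 T2_t3a_c1_n) x2_t3a_c1_n_t401 169 113 121 = true := by decide +kernel

def x2_t3a_c1_n_t402 : T :=
  (.c (.a (.l 15) (.l 2183)) (.a (.l 15) (.l 2183)))

theorem x2_t3a_c1_n_h402 : chk3 (onCell 0 1073741824 0 429496730 0 67108864 T2_t3a_c1_n) x2_t3a_c1_n_t402 84 57 60 = true := by decide +kernel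

def x2_t3a_c1_n_t403 : T :=
  (.l 15)

theorem x2_t3a_c1_n_h403 : chk3 (onCell 0 1073741824 0 429496730 0 67108864 T2_t3a_c1_n) x2_t3a_c1_n_t403 168 56 61 = true := by decide +kernel

def x2_t3a_c1_n_t404 : T :=
  (.l 15)

theorem x2_t3a_c1_n_h404 : chk3 (onCell 0 1073741824 0 429496730 0 67108864 T2_t3a_c1_n) x2_t3a_c1_n_t404 338 112 122 = true := by decide +kernel

def x2_t3a_c1_n_t405 : T :=
  (.b (.l 2183) (.a (.l 15) (.c (.b (.l 2183) (.a (.c (.b (.b (.l 2183) (.c (.a (.l 15) (.l 99))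
      (.a (.l 15) (.l 99)))) (.a (.l 15) (.c (.b (.l 99) (.l 99)) (.b (.l 99) (.l 99))))) (.b (.b
      (.l 2183) (.c (.a (.l 15) (.l 99)) (.a (.l 15) (.l 99)))) (.a (.l 15) (.c (.b (.l 99) (.l
      99)) (.l 99))))) (.l 67))) (.b (.l 2183) (.a (.c (.b (.b (.l 2183) (.c (.a (.l 15) (.l 99))
      (.a (.l 15) (.l 99)))) (.a (.l 15) (.l 99))) (.b (.b (.l 2183) (.c (.a (.l 15) (.l 99)) (.a
      (.l 15) (.l 99)))) (.a (.l 15) (.l 99)))) (.l 67))))))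

theorem x2_t3a_c1_n_h405 : chk3 (onCell 0 1073741824 0 429496730 0 67108864 T2_t3a_c1_n) x2_t3a_c1_n_t405 339 112 244 = true := by decide +kernel

def x2_t3a_c1_n_t406 : T :=
  (.b (.l 2183) (.a (.l 15) (.c (.b (.l 2183) (.a (.c (.b (.b (.l 2183) (.c (.a (.l 15) (.l 99))
      (.a (.l 15) (.l 99)))) (.a (.l 15) (.l 99))) (.b (.b (.l 2183) (.a (.l 15) (.l 99))) (.a
      (.l 15) (.l 99)))) (.l 67))) (.b (.l 2183) (.a (.c (.b (.b (.l 2183) (.a (.l 15) (.l 99)))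
      (.a (.l 15) (.l 99))) (.b (.b (.l 2183) (.a (.l 15) (.l 99))) (.a (.l 15) (.l 99)))) (.l
      67))))))

theorem x2_t3a_c1_n_h406 : chk3 (onCell 0 1073741824 0 429496730 0 67108864 T2_t3a_c1_n) x2_t3a_c1_n_t406 339 112 245 = true := by decide +kernel

def x2_t3a_c1_n_t407 : T :=
  (.a (.l 15) (.c (.b (.a (.l 15) (.c (.b (.a (.c (.b (.a (.l 15) (.l 99)) (.l 2183)) (.b (.a (.l
      15) (.l 99)) (.l 2183))) (.l 67)) (.l 2183)) (.b (.a (.c (.b (.a (.l 15) (.l 99)) (.l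
      2183)) (.b (.a (.l 15) (.l 99)) (.l 2183))) (.l 67)) (.l 2183)))) (.l 2183)) (.b (.a (.l
      15) (.c (.b (.a (.c (.b (.a (.l 15) (.l 99)) (.l 2183)) (.b (.a (.l 15) (.l 99)) (.l
      2183))) (.l 67)) (.l 2183)) (.b (.a (.c (.b (.a (.l 15) (.l 99)) (.l 2183)) (.b (.a (.l 15)
      (.l 99)) (.l 2183))) (.l 67)) (.l 2183)))) (.l 2183))))

theorem x2_t3a_c1_n_h407 : chk3 (onCell 0 1073741824 0 429496730 0 67108864 T2_t3a_c1_n) x2_t3a_c1_n_t407 169 113 122 = true := by decide +kernel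

def x2_t3a_c1_n_t408 : T :=
  (.a (.l 15) (.c (.b (.l 2183) (.a (.l 15) (.c (.b (.l 2183) (.a (.c (.b (.b (.l 2183) (.a (.l
      15) (.l 99))) (.a (.l 15) (.l 99))) (.b (.b (.l 2183) (.a (.l 15) (.l 99))) (.a (.l 15) (.l
      99)))) (.l 67))) (.b (.l 2183) (.a (.c (.b (.b (.l 2183) (.a (.l 15) (.l 99))) (.a (.l 15)
      (.l 99))) (.b (.b (.l 2183) (.a (.l 15) (.l 99))) (.a (.l 15) (.l 99)))) (.l 67)))))) (.b
      (.l 2183) (.a (.l 15) (.c (.b (.l 2183) (.a (.c (.b (.b (.l 2183) (.a (.l 15) (.l 99))) (.a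
      (.l 15) (.l 99))) (.b (.l 2183) (.a (.l 15) (.l 99)))) (.l 67))) (.b (.l 2183) (.a (.c (.b
      (.l 2183) (.a (.l 15) (.l 99))) (.b (.l 2183) (.a (.l 15) (.l 99)))) (.l 67))))))))

theorem x2_t3a_c1_n_h408 : chk3 (onCell 0 1073741824 0 429496730 0 67108864 T2_t3a_c1_n) x2_t3a_c1_n_t408 169 112 123 = true := by decide +kernel

def x2_t3a_c1_n_t409 : T :=
  (.a (.l 15) (.c (.b (.a (.l 15) (.c (.b (.a (.c (.b (.a (.l 15) (.l 99)) (.l 2183)) (.b (.a (.l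
      15) (.l 99)) (.l 2183))) (.l 67)) (.l 2183)) (.b (.a (.c (.b (.a (.l 15) (.l 99)) (.l
      2183)) (.b (.a (.l 15) (.l 99)) (.l 2183))) (.l 67)) (.l 2183)))) (.l 2183)) (.b (.a (.l
      15) (.c (.b (.a (.c (.b (.a (.l 15) (.l 99)) (.l 2183)) (.b (.a (.l 15) (.l 99)) (.l
      2183))) (.l 67)) (.l 2183)) (.b (.a (.c (.b (.a (.l 15) (.l 99)) (.l 2183)) (.b (.a (.l 15)
      (.l 99)) (.l 2183))) (.l 67)) (.l 2183)))) (.l 2183))))

theorem x2_t3a_c1_n_h409 : chk3 (onCell 0 1073741824 0 429496730 0 67108864 T2_t3a_c1_n) x2_t3a_c1_n_t409 169 113 123 = true := by decide +kernel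

def x2_t3a_c1_n_t410 : T :=
  (.a (.l 15) (.l 2183))

theorem x2_t3a_c1_n_h410 : chk3 (onCell 0 1073741824 0 429496730 0 67108864 T2_t3a_c1_n) x2_t3a_c1_n_t410 84 57 61 = true := by decide +kernel

def x2_t3a_c1_n_t411 : T :=
  (.c (.b (.c (.a (.b (.c (.a (.l 67) (.l 67)) (.a (.l 67) (.l 67))) (.l 99)) (.l 67)) (.a (.b
      (.c (.a (.l 67) (.l 67)) (.a (.l 67) (.l 67))) (.l 67)) (.l 67))) (.b (.a (.l 67) (.l 67))
      (.l 67))) (.b (.a (.c (.b (.a (.l 67) (.l 67)) (.l 67)) (.b (.a (.l 67) (.l 67)) (.l 67)))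
      (.c (.l 67) (.l 67))) (.b (.a (.l 67) (.l 67)) (.l 67))))

theorem x2_t3a_c1_n_h411 : chk3 (onCell 0 1073741824 0 429496730 0 67108864 T2_t3a_c1_n) x2_t3a_c1_n_t411 85 28 30 = true := by decide +kernel

def x2_t3a_c1_n_t412 : T :=
  (.l 15)

theorem x2_t3a_c1_n_h412 : chk3 (onCell 0 1073741824 0 429496730 0 67108864 T2_t3a_c1_n) x2_t3a_c1_n_t412 168 56 62 = true := by decide +kernel

def x2_t3a_c1_n_t413 : T :=
  (.l 15)

theorem x2_t3a_c1_n_h413 : chk3 (onCell 0 1073741824 0 429496730 0 67108864 T2_t3a_c1_n) x2_t3a_c1_n_t413 338 112 124 = true := by decide +kernel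

def x2_t3a_c1_n_t414 : T :=
  (.b (.l 2055) (.a (.l 15) (.c (.b (.l 2055) (.a (.c (.b (.l 2183) (.a (.l 15) (.l 99))) (.b (.l
      2055) (.a (.l 15) (.l 99)))) (.l 67))) (.b (.l 2055) (.a (.c (.b (.l 2055) (.a (.c (.b (.b
      (.a (.l 15) (.l 99)) (.a (.l 15) (.l 99))) (.a (.l 15) (.l 99))) (.b (.b (.a (.l 15) (.l
      99)) (.a (.l 15) (.l 99))) (.a (.l 15) (.l 99)))) (.l 99))) (.b (.l 2055) (.a (.c (.b (.b
      (.a (.l 15) (.l 99)) (.a (.l 15) (.l 99))) (.a (.l 15) (.l 99))) (.b (.b (.a (.l 15) (.l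
      99)) (.a (.l 15) (.l 99))) (.a (.l 15) (.l 99)))) (.l 99)))) (.l 67))))))

theorem x2_t3a_c1_n_h414 : chk3 (onCell 0 1073741824 0 429496730 0 67108864 T2_t3a_c1_n) x2_t3a_c1_n_t414 339 112 248 = true := by decide +kernel

def x2_t3a_c1_n_t415 : T :=
  (.b (.l 2055) (.a (.l 15) (.c (.b (.l 2055) (.a (.c (.b (.l 2055) (.a (.c (.b (.b (.a (.l 15)
      (.l 99)) (.a (.l 15) (.l 99))) (.a (.l 15) (.l 99))) (.b (.b (.a (.l 15) (.l 99)) (.a (.l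
      15) (.l 99))) (.a (.l 15) (.l 99)))) (.l 99))) (.b (.l 2055) (.a (.c (.b (.b (.a (.l 15)
      (.l 99)) (.a (.l 15) (.l 99))) (.a (.l 15) (.l 99))) (.b (.b (.a (.l 15) (.l 99)) (.a (.l
      15) (.l 99))) (.a (.l 15) (.l 99)))) (.l 99)))) (.l 67))) (.b (.l 99) (.a (.c (.b (.l 99)
      (.a (.c (.b (.b (.l 99) (.a (.l 15) (.l 99))) (.a (.l 15) (.l 99))) (.b (.b (.l 99) (.a (.l
      15) (.l 99))) (.a (.l 15) (.l 99)))) (.l 99))) (.b (.l 99) (.a (.c (.b (.b (.l 99) (.a (.l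
      15) (.l 99))) (.a (.l 15) (.l 99))) (.b (.b (.l 99) (.a (.l 15) (.l 99))) (.a (.l 15) (.l
      99)))) (.l 99)))) (.l 67))))))

theorem x2_t3a_c1_n_h415 : chk3 (onCell 0 1073741824 0 429496730 0 67108864 T2_t3a_c1_n) x2_t3a_c1_n_t415 339 112 249 = true := by decide +kernel

def x2_t3a_c1_n_t416 : T :=
  (.l 15)

theorem x2_t3a_c1_n_h416 : chk3 (onCell 0 1073741824 0 429496730 0 67108864 T2_t3a_c1_n) x2_t3a_c1_n_t416 338 113 124 = true := by decide +kernel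

def x2_t3a_c1_n_t417 : T :=
  (.b (.a (.l 15) (.c (.b (.a (.c (.b (.a (.l 15) (.l 99)) (.l 2183)) (.b (.a (.l 15) (.l 99))
      (.l 2055))) (.l 67)) (.l 2055)) (.b (.a (.c (.b (.a (.c (.b (.a (.l 15) (.l 99)) (.l 2055))
      (.b (.a (.l 15) (.l 99)) (.l 2055))) (.l 99)) (.l 2055)) (.b (.a (.c (.b (.a (.l 15) (.l
      99)) (.l 2055)) (.b (.a (.l 15) (.l 99)) (.l 2055))) (.l 99)) (.l 2055))) (.l 67)) (.l
      2055)))) (.l 2055))

theorem x2_t3a_c1_n_h417 : chk3 (onCell 0 1073741824 0 429496730 0 67108864 T2_t3a_c1_n) x2_t3a_c1_n_t417 339 113 248 = true := by decide +kernel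

def x2_t3a_c1_n_t418 : T :=
  (.b (.a (.l 15) (.c (.b (.a (.c (.b (.a (.c (.b (.a (.l 15) (.l 99)) (.l 2055)) (.b (.a (.l 15)
      (.l 99)) (.l 2055))) (.l 99)) (.l 2055)) (.b (.a (.c (.b (.a (.l 15) (.l 99)) (.l 2055))
      (.b (.a (.l 15) (.l 99)) (.l 2055))) (.l 99)) (.l 2055))) (.l 67)) (.l 2055)) (.b (.a (.c
      (.b (.a (.c (.b (.a (.l 15) (.l 99)) (.l 2055)) (.b (.a (.l 15) (.l 99)) (.l 2055))) (.l
      99)) (.l 2055)) (.b (.a (.c (.b (.a (.l 15) (.l 99)) (.l 2055)) (.b (.a (.l 15) (.l 99))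
      (.l 2055))) (.l 99)) (.l 2055))) (.l 67)) (.l 2055)))) (.l 2055))

theorem x2_t3a_c1_n_h418 : chk3 (onCell 0 1073741824 0 429496730 0 67108864 T2_t3a_c1_n) x2_t3a_c1_n_t418 339 113 249 = true := by decide +kernel

def x2_t3a_c1_n_t419 : T :=
  (.l 15)

theorem x2_t3a_c1_n_h419 : chk3 (onCell 0 1073741824 0 429496730 0 67108864 T2_t3a_c1_n) x2_t3a_c1_n_t419 338 112 125 = true := by decide +kernel

def x2_t3a_c1_n_t420 : T :=
  (.b (.l 2055) (.a (.l 15) (.c (.b (.l 99) (.a (.c (.b (.l 99) (.a (.c (.b (.b (.l 99) (.a (.l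
      15) (.l 99))) (.a (.l 15) (.l 99))) (.b (.l 99) (.a (.l 15) (.l 99)))) (.l 99))) (.b (.l
      99) (.a (.c (.b (.l 99) (.a (.l 15) (.l 99))) (.b (.l 99) (.a (.l 15) (.l 99)))) (.l 99))))
      (.l 67))) (.b (.l 99) (.a (.c (.b (.l 99) (.a (.c (.b (.l 99) (.a (.l 15) (.l 99))) (.b (.l
      99) (.a (.l 15) (.l 99)))) (.l 99))) (.b (.l 99) (.a (.c (.b (.l 99) (.a (.l 15) (.l 99)))
      (.b (.l 99) (.a (.l 15) (.l 99)))) (.l 67)))) (.l 67))))))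

theorem x2_t3a_c1_n_h420 : chk3 (onCell 0 1073741824 0 429496730 0 67108864 T2_t3a_c1_n) x2_t3a_c1_n_t420 339 112 250 = true := by decide +kernel

def x2_t3a_c1_n_t421 : T :=
  (.b (.l 2055) (.a (.l 15) (.c (.b (.l 99) (.a (.c (.b (.l 99) (.a (.c (.b (.l 99) (.a (.l 15)
      (.l 99))) (.b (.l 99) (.a (.l 15) (.l 99)))) (.l 67))) (.b (.l 99) (.a (.c (.b (.l 99) (.a
      (.l 15) (.l 99))) (.b (.l 99) (.a (.l 15) (.l 99)))) (.l 67)))) (.l 67))) (.b (.l 99) (.a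
      (.c (.b (.l 99) (.a (.c (.b (.l 99) (.a (.l 15) (.l 99))) (.b (.l 99) (.a (.l 15) (.l
      99)))) (.l 67))) (.b (.l 99) (.a (.c (.b (.l 99) (.l 99)) (.b (.l 99) (.l 99))) (.l 67))))
      (.l 67))))))

theorem x2_t3a_c1_n_h421 : chk3 (onCell 0 1073741824 0 429496730 0 67108864 T2_t3a_c1_n) x2_t3a_c1_n_t421 339 112 251 = true := by decide +kernel

def x2_t3a_c1_n_t422 : T :=
  (.l 15)

theorem x2_t3a_c1_n_h422 : chk3 (onCell 0 1073741824 0 429496730 0 67108864 T2_t3a_c1_n) x2_t3a_c1_n_t422 338 113 125 = true := by decide +kernel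

end Pool.Agent.Strip051.LC.E1.Ch
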