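import Pool.Agent.Strip051.LC.E1.Ch.Te

/-! # Rests near the full period: certificate P_x2_t3a_c1_n_9 -/

set_option maxRecDepth 100000

namespace Pool.Agent.Strip051.LC.E1.Ch

open Pool.Agent.Strip051.PB
open Pool.Agent.Strip051.LC.E0.Ch (onCell Tree)

def x2_t3a_c1_n_t423 : T :=
  (.b (.a (.l 15) (.c (.b (.a (.c (.b (.a (.c (.b (.a (.l 15) (.l 99)) (.l 2055)) (.b (.a (.l 15)
      (.l 99)) (.l 2055))) (.l 67)) (.l 2055)) (.b (.a (.c (.b (.a (.l 15) (.l 99)) (.l 2055))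
      (.b (.a (.l 15) (.l 99)) (.l 2055))) (.l 67)) (.l 2055))) (.l 67)) (.l 2055)) (.b (.a (.c
      (.b (.a (.c (.b (.a (.l 15) (.l 99)) (.l 2055)) (.b (.a (.l 15) (.l 99)) (.l 2055))) (.l
      67)) (.l 2055)) (.b (.a (.c (.b (.a (.l 15) (.l 99)) (.l 2055)) (.b (.a (.l 15) (.l 99))
      (.l 2055))) (.l 67)) (.l 2055))) (.l 67)) (.l 2055)))) (.l 2055))

theorem x2_t3a_c1_n_h423 : chk3 (onCell 0 1073741824 0 429496730 0 67108864 T2_t3a_c1_n) x2_t3a_c1_n_t423 339 113 250 = true := by decide +kernel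

def x2_t3a_c1_n_t424 : T :=
  (.b (.a (.l 15) (.c (.b (.a (.c (.b (.a (.c (.b (.a (.l 15) (.l 99)) (.l 2055)) (.b (.a (.l 15)
      (.l 99)) (.l 99))) (.l 67)) (.l 2055)) (.b (.a (.c (.l 99) (.l 99)) (.l 67)) (.l 99))) (.l
      67)) (.l 2055)) (.b (.a (.c (.b (.a (.l 99) (.l 67)) (.l 99)) (.b (.a (.l 99) (.l 67)) (.l
      99))) (.l 67)) (.l 99)))) (.l 2055))

theorem x2_t3a_c1_n_h424 : chk3 (onCell 0 1073741824 0 429496730 0 67108864 T2_t3a_c1_n) x2_t3a_c1_n_t424 339 113 251 = true := by decide +kernel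

def x2_t3a_c1_n_t425 : T :=
  (.a (.l 15) (.l 2055))

theorem x2_t3a_c1_n_h425 : chk3 (onCell 0 1073741824 0 429496730 0 67108864 T2_t3a_c1_n) x2_t3a_c1_n_t425 84 57 62 = true := by decide +kernel

def x2_t3a_c1_n_t426 : T :=
  (.l 15)

theorem x2_t3a_c1_n_h426 : chk3 (onCell 0 1073741824 0 429496730 0 67108864 T2_t3a_c1_n) x2_t3a_c1_n_t426 168 56 63 = true := by decide +kernel

def x2_t3a_c1_n_t427 : T :=
  (.b (.a (.l 15) (.c (.b (.l 2055) (.a (.l 15) (.c (.b (.l 99) (.a (.c (.b (.l 99) (.a (.l 99)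
      (.l 67))) (.b (.l 99) (.a (.l 99) (.l 67)))) (.l 67))) (.b (.l 99) (.a (.c (.b (.l 99) (.l
      99)) (.l 99)) (.l 67)))))) (.b (.l 2055) (.a (.l 15) (.c (.b (.l 99) (.a (.l 99) (.l 67)))
      (.b (.l 99) (.a (.l 99) (.l 67)))))))) (.a (.l 15) (.c (.b (.a (.l 15) (.c (.b (.a (.c (.b
      (.a (.l 99) (.l 67)) (.l 99)) (.b (.a (.l 99) (.l 67)) (.l 99))) (.l 67)) (.l 99)) (.b (.a
      (.c (.b (.l 99) (.l 99)) (.b (.l 99) (.l 99))) (.l 67)) (.l 99)))) (.l 2055)) (.b (.a (.l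
      15) (.c (.b (.a (.l 99) (.l 67)) (.l 99)) (.b (.a (.l 99) (.l 67)) (.l 99)))) (.l 2055)))))

theorem x2_t3a_c1_n_h427 : chk3 (onCell 0 1073741824 0 429496730 0 67108864 T2_t3a_c1_n) x2_t3a_c1_n_t427 169 56 126 = true := by decide +kernel

def x2_t3a_c1_n_t428 : T :=
  (.b (.a (.l 15) (.b (.l 1927) (.c (.a (.l 15) (.b (.l 99) (.c (.a (.l 99) (.l 67)) (.l 99))))
      (.a (.l 15) (.l 99))))) (.a (.l 15) (.c (.b (.a (.l 15) (.c (.b (.a (.l 99) (.l 67)) (.l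
      99)) (.b (.a (.l 99) (.l 67)) (.l 99)))) (.l 2055)) (.b (.a (.l 15) (.c (.b (.l 99) (.l
      99)) (.b (.l 99) (.l 99)))) (.l 1927)))))

theorem x2_t3a_c1_n_h428 : chk3 (onCell 0 1073741824 0 429496730 0 67108864 T2_t3a_c1_n) x2_t3a_c1_n_t428 169 56 127 = true := by decide +kernel

def x2_t3a_c1_n_t429 : T :=
  (.a (.l 15) (.l 1927))

theorem x2_t3a_c1_n_h429 : chk3 (onCell 0 1073741824 0 429496730 0 67108864 T2_t3a_c1_n) x2_t3a_c1_n_t429 84 57 63 = true := by decide +kernel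

def x2_t3a_c1_n_t430 : T :=
  (.c (.b (.a (.c (.b (.a (.l 67) (.l 67)) (.l 67)) (.b (.l 67) (.l 67))) (.c (.b (.l 67) (.l 3))
      (.b (.l 67) (.l 3)))) (.b (.a (.l 67) (.l 67)) (.l 67))) (.b (.a (.c (.b (.l 67) (.l 67))
      (.b (.l 67) (.l 67))) (.c (.b (.l 67) (.l 3)) (.b (.l 67) (.l 3)))) (.b (.l 67) (.l 67))))

theorem x2_t3a_c1_n_h430 : chk3 (onCell 0 1073741824 0 429496730 0 67108864 T2_t3a_c1_n) x2_t3a_c1_n_t430 85 28 31 = true := by decide +kernel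

def x2_t3a_c1_n_t431 : T :=
  (.c (.b (.c (.a (.l 3) (.b (.l 2179) (.l 2179))) (.a (.l 3) (.b (.l 2179) (.l 2179)))) (.l 67))
      (.b (.a (.c (.l 3) (.l 3)) (.c (.b (.l 2051) (.l 2051)) (.b (.l 1923) (.l 1923)))) (.l 67)))

theorem x2_t3a_c1_n_h431 : chk3 (onCell 0 1073741824 0 429496730 0 67108864 T2_t3a_c1_n) x2_t3a_c1_n_t431 43 28 15 = true := by decide +kernel

def x2_t3a_c1_n_t432 : T :=
  (.a (.l 1927) (.c (.l 67) (.l 67)))

theorem x2_t3a_c1_n_h432 : chk3 (onCell 0 1073741824 0 429496730 0 67108864 T2_t3a_c1_n) x2_t3a_c1_n_t432 21 29 15 = true := by decide +kernel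

def x2_t3a_c1_n_t433 : T :=
  (.c (.b (.a (.l 2695) (.c (.l 3203) (.l 3))) (.l 2759)) (.c (.b (.c (.a (.l 2439) (.l 2435))
      (.a (.l 2311) (.l 67))) (.l 2375)) (.b (.a (.l 1927) (.l 67)) (.l 1991))))

theorem x2_t3a_c1_n_h433 : chk3 (onCell 0 1073741824 0 429496730 0 67108864 T2_t3a_c1_n) x2_t3a_c1_n_t433 21 15 3 = true := by decide +kernel

def x2_t3a_c1_n_t434 : T :=
  (.c (.a (.b (.c (.l 8131) (.l 4035)) (.c (.l 8131) (.a (.c (.l 5443) (.l 4035)) (.l 4035))))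
      (.b (.l 4035) (.l 4035))) (.a (.b (.c (.a (.l 2755) (.l 2755)) (.c (.l 2371) (.c (.l 2243)
      (.l 1987)))) (.c (.a (.b (.l 2755) (.l 2755)) (.l 2755)) (.c (.c (.a (.b (.l 2499) (.l
      2499)) (.l 2499)) (.a (.b (.l 2371) (.l 2371)) (.l 2371))) (.a (.c (.b (.l 2243) (.l 2243))
      (.b (.l 1987) (.l 1987))) (.b (.l 1987) (.l 1987)))))) (.b (.a (.c (.l 2755) (.l 1987)) (.l
      1987)) (.b (.l 1987) (.c (.l 2755) (.l 1987))))))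

theorem x2_t3a_c1_n_h434 : chk3 (onCell 0 1073741824 0 429496730 0 67108864 T2_t3a_c1_n) x2_t3a_c1_n_t434 11 6 1 = true := by decide +kernel

def x2_t3a_c1_n_t435 : T :=
  (.c (.a (.c (.c (.l 16323) (.b (.l 8131) (.l 8131))) (.b (.b (.l 3971) (.l 4035)) (.c (.l 5443)
      (.l 4035)))) (.b (.l 3971) (.l 4035))) (.a (.b (.c (.a (.b (.c (.l 3203) (.l 2691)) (.l
      2755)) (.l 2691)) (.c (.c (.b (.a (.l 2435) (.l 2435)) (.l 2499)) (.b (.a (.c (.l 3) (.b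
      (.l 2307) (.l 2307))) (.l 2307)) (.l 2371))) (.b (.a (.c (.b (.l 2179) (.l 2179)) (.b (.a
      (.l 3) (.l 1923)) (.l 1923))) (.l 1923)) (.a (.l 1923) (.l 1923))))) (.c (.a (.b (.l 2755)
      (.l 2755)) (.l 2755)) (.c (.c (.a (.l 2499) (.l 2499)) (.a (.l 2371) (.l 2371))) (.a (.b
      (.l 1987) (.l 1987)) (.b (.l 1923) (.l 1987)))))) (.b (.c (.l 2691) (.a (.b (.l 1923) (.l
      1923)) (.l 1923))) (.c (.l 2755) (.b (.l 1923) (.l 1987))))))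

theorem x2_t3a_c1_n_h435 : chk3 (onCell 0 1073741824 0 429496730 0 67108864 T2_t3a_c1_n) x2_t3a_c1_n_t435 11 7 1 = true := by decide +kernel

def x2_t3a_c1_n_t436 : T :=
  (.a (.b (.c (.l 4035) (.a (.b (.l 1987) (.l 1987)) (.b (.l 1987) (.l 1987)))) (.c (.a (.l 4035)
      (.l 4035)) (.a (.b (.l 1987) (.l 1987)) (.b (.l 1987) (.l 1987))))) (.b (.c (.l 4035) (.a
      (.b (.l 1987) (.l 1987)) (.b (.l 1987) (.l 1987)))) (.c (.l 4035) (.a (.b (.l 1987) (.l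
      1987)) (.b (.c (.l 2755) (.l 1987)) (.a (.l 1987) (.l 1987)))))))

theorem x2_t3a_c1_n_h436 : chk3 (onCell 0 1073741824 0 429496730 0 67108864 T2_t3a_c1_n) x2_t3a_c1_n_t436 6 2 1 = true := by decide +kernel

def x2_t3a_c1_n_t437 : T :=
  (.a (.b (.c (.a (.b (.l 4035) (.l 4035)) (.l 4035)) (.a (.b (.l 1987) (.b (.l 1987) (.c (.l
      2691) (.l 1923)))) (.b (.c (.l 2755) (.l 1987)) (.c (.l 2755) (.l 67))))) (.c (.a (.a (.l
      4035) (.l 4035)) (.l 4035)) (.a (.b (.c (.l 2691) (.a (.l 1923) (.l 1923))) (.c (.l 2691)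
      (.l 1923))) (.c (.l 2691) (.b (.l 3) (.l 67)))))) (.b (.c (.a (.l 4035) (.l 4035)) (.a (.b
      (.c (.l 2691) (.l 1987)) (.c (.l 2755) (.l 1987))) (.b (.c (.l 2691) (.l 1987)) (.c (.l
      2755) (.l 1987))))) (.c (.a (.l 4035) (.l 3971)) (.a (.c (.l 2691) (.b (.l 67) (.l 67)))
      (.c (.l 2691) (.a (.l 67) (.l 67)))))))

theorem x2_t3a_c1_n_h437 : chk3 (onCell 0 1073741824 0 429496730 0 67108864 T2_t3a_c1_n) x2_t3a_c1_n_t437 6 3 1 = true := by decide +kernel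

def x2_t3a_c1_n_t438 : T :=
  (.a (.b (.c (.l 4035) (.a (.b (.l 1987) (.l 1987)) (.b (.l 1987) (.a (.l 1987) (.c (.l 2755)
      (.l 1987)))))) (.c (.l 4035) (.a (.b (.a (.l 1987) (.c (.l 2755) (.l 1987))) (.a (.c (.l
      2755) (.l 1987)) (.c (.l 2755) (.l 1987)))) (.b (.a (.c (.l 2755) (.l 1987)) (.c (.l 2755)
      (.l 1987))) (.a (.c (.l 2755) (.l 1987)) (.c (.l 2755) (.l 1987))))))) (.b (.c (.l 4035)
      (.a (.b (.c (.l 2755) (.l 1987)) (.a (.c (.l 2755) (.l 1987)) (.c (.l 2755) (.l 1987))))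
      (.b (.c (.l 2755) (.l 1987)) (.a (.c (.l 2755) (.l 1987)) (.c (.l 2755) (.l 1987)))))) (.c
      (.l 4035) (.a (.b (.a (.c (.l 2755) (.l 1987)) (.c (.l 2755) (.l 1987))) (.a (.c (.l 2755)
      (.l 1987)) (.c (.l 2755) (.l 1987)))) (.b (.a (.c (.l 2755) (.l 1987)) (.c (.l 2755) (.l
      1987))) (.a (.c (.l 2755) (.l 1987)) (.c (.l 2755) (.l 1987))))))))

theorem x2_t3a_c1_n_h438 : chk3 (onCell 0 1073741824 0 429496730 0 67108864 T2_t3a_c1_n) x2_t3a_c1_n_t438 7 2 1 = true := by decide +kernel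

def x2_t3a_c1_n_t439 : T :=
  (.a (.b (.c (.l 4035) (.a (.b (.c (.l 2755) (.l 1987)) (.c (.l 2755) (.l 1987))) (.b (.c (.l
      2755) (.l 1987)) (.c (.l 2755) (.l 1987))))) (.c (.l 4035) (.a (.c (.l 2755) (.a (.l 1987)
      (.l 1987))) (.c (.l 2755) (.a (.l 1987) (.b (.l 1987) (.l 1987))))))) (.b (.c (.l 4035) (.a
      (.b (.c (.l 2755) (.l 1987)) (.c (.l 2755) (.l 1987))) (.b (.c (.l 2755) (.l 1987)) (.c (.l
      2755) (.l 1987))))) (.c (.l 4035) (.a (.c (.l 2755) (.a (.b (.l 1987) (.l 1987)) (.c (.l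
      2371) (.l 1987)))) (.c (.l 2755) (.c (.l 2371) (.l 1987)))))))

theorem x2_t3a_c1_n_h439 : chk3 (onCell 0 1073741824 0 429496730 0 67108864 T2_t3a_c1_n) x2_t3a_c1_n_t439 7 3 1 = true := by decide +kernel

end Pool.Agent.Strip051.LC.E1.Ch
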