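import Pool.Agent.Strip051.LC.E1.Ch.Cert.P_x2_t3a_c1_n_1
import Pool.Agent.Strip051.LC.E1.Ch.Cert.P_x2_t3a_c1_n_2
import Pool.Agent.Strip051.LC.E1.Ch.Cert.P_x2_t3a_c1_n_3
import Pool.Agent.Strip051.LC.E1.Ch.Cert.P_x2_t3a_c1_n_4
import Pool.Agent.Strip051.LC.E1.Ch.Cert.P_x2_t3a_c1_n_5
import Pool.Agent.Strip051.LC.E1.Ch.Cert.P_x2_t3a_c1_n_6
import Pool.Agent.Strip051.LC.E1.Ch.Cert.P_x2_t3a_c1_n_7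
import Pool.Agent.Strip051.LC.E1.Ch.Cert.P_x2_t3a_c1_n_8
import Pool.Agent.Strip051.LC.E1.Ch.Cert.P_x2_t3a_c1_n_9

/-! # Rests near the full period: certificate P_x2_t3a_c1_n -/

set_option maxRecDepth 100000

namespace Pool.Agent.Strip051.LC.E1.Ch

open Pool.Agent.Strip051.PB
open Pool.Agent.Strip051.LC.E0.Ch (onCell Tree)

theorem x2_t3a_c1_n : Tree 0 1073741824 0 429496730 0 67108864 T2_t3a_c1_n :=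
  ⟨_, (chk3_a (chk3_b x2_t3a_c1_n_h0 (chk3_a x2_t3a_c1_n_h1 (chk3_a (chk3_b (chk3_c (chk3_a
      x2_t3a_c1_n_h2 (chk3_c x2_t3a_c1_n_h3 (chk3_b x2_t3a_c1_n_h4 (chk3_a (chk3_c x2_t3a_c1_n_h5
      x2_t3a_c1_n_h6) x2_t3a_c1_n_h7)))) (chk3_a x2_t3a_c1_n_h8 (chk3_b x2_t3a_c1_n_h9 (chk3_c
      (chk3_a (chk3_b (chk3_c x2_t3a_c1_n_h10 (chk3_c (chk3_c x2_t3a_c1_n_h11 (chk3_a
      x2_t3a_c1_n_h12 (chk3_c x2_t3a_c1_n_h13 (chk3_b x2_t3a_c1_n_h14 (chk3_a (chk3_c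
      x2_t3a_c1_n_h15 (chk3_b x2_t3a_c1_n_h16 x2_t3a_c1_n_h17)) x2_t3a_c1_n_h18))))) (chk3_c
      (chk3_a x2_t3a_c1_n_h19 (chk3_c (chk3_b x2_t3a_c1_n_h20 (chk3_a (chk3_c (chk3_b (chk3_a
      (chk3_c x2_t3a_c1_n_h21 x2_t3a_c1_n_h22) x2_t3a_c1_n_h23) (chk3_a (chk3_c x2_t3a_c1_n_h24
      x2_t3a_c1_n_h25) x2_t3a_c1_n_h26)) (chk3_b (chk3_a (chk3_c x2_t3a_c1_n_h27 x2_t3a_c1_n_h28)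
      x2_t3a_c1_n_h29) x2_t3a_c1_n_h30)) x2_t3a_c1_n_h31)) (chk3_b x2_t3a_c1_n_h32 (chk3_a
      (chk3_c (chk3_b x2_t3a_c1_n_h33 x2_t3a_c1_n_h34) x2_t3a_c1_n_h35) x2_t3a_c1_n_h36))))
      (chk3_a (chk3_c x2_t3a_c1_n_h37 (chk3_b x2_t3a_c1_n_h38 (chk3_a x2_t3a_c1_n_h39 (chk3_c
      (chk3_b x2_t3a_c1_n_h40 x2_t3a_c1_n_h41) (chk3_b (chk3_a x2_t3a_c1_n_h42 (chk3_c
      x2_t3a_c1_n_h43 x2_t3a_c1_n_h44)) (chk3_a x2_t3a_c1_n_h45 (chk3_b x2_t3a_c1_n_h46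
      x2_t3a_c1_n_h47))))))) x2_t3a_c1_n_h48)))) (chk3_c x2_t3a_c1_n_h49 x2_t3a_c1_n_h50))
      x2_t3a_c1_n_h51) (chk3_c (chk3_c (chk3_a (chk3_b (chk3_c (chk3_a (chk3_c (chk3_b
      x2_t3a_c1_n_h52 (chk3_a x2_t3a_c1_n_h53 (chk3_b (chk3_c (chk3_a x2_t3a_c1_n_h54 (chk3_c
      x2_t3a_c1_n_h55 x2_t3a_c1_n_h56)) (chk3_a x2_t3a_c1_n_h57 (chk3_c x2_t3a_c1_n_h58
      x2_t3a_c1_n_h59))) (chk3_c (chk3_a x2_t3a_c1_n_h60 (chk3_b x2_t3a_c1_n_h61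
      x2_t3a_c1_n_h62)) (chk3_a x2_t3a_c1_n_h63 (chk3_b x2_t3a_c1_n_h64 x2_t3a_c1_n_h65))))))
      (chk3_b x2_t3a_c1_n_h66 (chk3_a x2_t3a_c1_n_h67 (chk3_b (chk3_c x2_t3a_c1_n_h68
      x2_t3a_c1_n_h69) (chk3_c x2_t3a_c1_n_h70 x2_t3a_c1_n_h71))))) x2_t3a_c1_n_h72) (chk3_a
      (chk3_b x2_t3a_c1_n_h73 (chk3_c (chk3_a x2_t3a_c1_n_h74 (chk3_b (chk3_c x2_t3a_c1_n_h75
      x2_t3a_c1_n_h76) x2_t3a_c1_n_h77)) (chk3_a x2_t3a_c1_n_h78 (chk3_b x2_t3a_c1_n_h79 (chk3_c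
      x2_t3a_c1_n_h80 (chk3_a x2_t3a_c1_n_h81 (chk3_b (chk3_c x2_t3a_c1_n_h82 x2_t3a_c1_n_h83)
      x2_t3a_c1_n_h84))))))) x2_t3a_c1_n_h85)) x2_t3a_c1_n_h86) x2_t3a_c1_n_h87) (chk3_a (chk3_b
      (chk3_c (chk3_a (chk3_b x2_t3a_c1_n_h88 (chk3_c (chk3_a x2_t3a_c1_n_h89 (chk3_b
      x2_t3a_c1_n_h90 (chk3_c (chk3_a x2_t3a_c1_n_h91 (chk3_b (chk3_c x2_t3a_c1_n_h92
      x2_t3a_c1_n_h93) x2_t3a_c1_n_h94)) (chk3_a x2_t3a_c1_n_h95 (chk3_b (chk3_c x2_t3a_c1_n_h96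
      x2_t3a_c1_n_h97) x2_t3a_c1_n_h98))))) (chk3_a x2_t3a_c1_n_h99 (chk3_b x2_t3a_c1_n_h100
      (chk3_c (chk3_a x2_t3a_c1_n_h101 (chk3_b x2_t3a_c1_n_h102 x2_t3a_c1_n_h103))
      x2_t3a_c1_n_h104))))) x2_t3a_c1_n_h105) (chk3_a (chk3_b x2_t3a_c1_n_h106 (chk3_c (chk3_a
      x2_t3a_c1_n_h107 (chk3_b x2_t3a_c1_n_h108 x2_t3a_c1_n_h109)) (chk3_a x2_t3a_c1_n_h110
      (chk3_b x2_t3a_c1_n_h111 x2_t3a_c1_n_h112)))) x2_t3a_c1_n_h113)) x2_t3a_c1_n_h114)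
      x2_t3a_c1_n_h115)) (chk3_a (chk3_c (chk3_b (chk3_c (chk3_a (chk3_b x2_t3a_c1_n_h116 (chk3_c
      (chk3_a x2_t3a_c1_n_h117 (chk3_b x2_t3a_c1_n_h118 (chk3_c (chk3_a x2_t3a_c1_n_h119 (chk3_b
      (chk3_c x2_t3a_c1_n_h120 x2_t3a_c1_n_h121) x2_t3a_c1_n_h122)) (chk3_a x2_t3a_c1_n_h123
      (chk3_b (chk3_c x2_t3a_c1_n_h124 x2_t3a_c1_n_h125) x2_t3a_c1_n_h126))))) (chk3_a
      x2_t3a_c1_n_h127 (chk3_b x2_t3a_c1_n_h128 (chk3_c (chk3_a x2_t3a_c1_n_h129 (chk3_b (chk3_c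
      x2_t3a_c1_n_h130 x2_t3a_c1_n_h131) x2_t3a_c1_n_h132)) x2_t3a_c1_n_h133)))))
      x2_t3a_c1_n_h134) (chk3_a (chk3_b x2_t3a_c1_n_h135 (chk3_a x2_t3a_c1_n_h136 (chk3_c (chk3_b
      x2_t3a_c1_n_h137 (chk3_a x2_t3a_c1_n_h138 (chk3_c x2_t3a_c1_n_h139 x2_t3a_c1_n_h140)))
      (chk3_b x2_t3a_c1_n_h141 x2_t3a_c1_n_h142)))) x2_t3a_c1_n_h143)) x2_t3a_c1_n_h144) (chk3_b
      (chk3_a (chk3_c (chk3_b x2_t3a_c1_n_h145 (chk3_a x2_t3a_c1_n_h146 (chk3_c (chk3_b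
      x2_t3a_c1_n_h147 (chk3_a x2_t3a_c1_n_h148 (chk3_c x2_t3a_c1_n_h149 (chk3_b (chk3_a
      x2_t3a_c1_n_h150 (chk3_c x2_t3a_c1_n_h151 x2_t3a_c1_n_h152)) x2_t3a_c1_n_h153)))) (chk3_b
      x2_t3a_c1_n_h154 (chk3_a x2_t3a_c1_n_h155 (chk3_c x2_t3a_c1_n_h156 x2_t3a_c1_n_h157))))))
      (chk3_b x2_t3a_c1_n_h158 (chk3_a x2_t3a_c1_n_h159 (chk3_c x2_t3a_c1_n_h160
      x2_t3a_c1_n_h161)))) x2_t3a_c1_n_h162) x2_t3a_c1_n_h163)) x2_t3a_c1_n_h164)))))) (chk3_c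
      x2_t3a_c1_n_h165 (chk3_a x2_t3a_c1_n_h166 (chk3_b (chk3_c (chk3_a (chk3_c (chk3_c
      x2_t3a_c1_n_h167 (chk3_c (chk3_b (chk3_c (chk3_a x2_t3a_c1_n_h168 (chk3_b (chk3_c (chk3_a
      (chk3_b (chk3_c x2_t3a_c1_n_h169 (chk3_a (chk3_b x2_t3a_c1_n_h170 (chk3_c x2_t3a_c1_n_h171
      x2_t3a_c1_n_h172)) x2_t3a_c1_n_h173)) x2_t3a_c1_n_h174) x2_t3a_c1_n_h175) (chk3_a (chk3_b
      (chk3_c (chk3_a (chk3_b x2_t3a_c1_n_h176 (chk3_c x2_t3a_c1_n_h177 x2_t3a_c1_n_h178))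
      x2_t3a_c1_n_h179) x2_t3a_c1_n_h180) x2_t3a_c1_n_h181) x2_t3a_c1_n_h182)) x2_t3a_c1_n_h183))
      (chk3_a x2_t3a_c1_n_h184 (chk3_b (chk3_c (chk3_a (chk3_b (chk3_c x2_t3a_c1_n_h185
      x2_t3a_c1_n_h186) x2_t3a_c1_n_h187) x2_t3a_c1_n_h188) x2_t3a_c1_n_h189) x2_t3a_c1_n_h190)))
      x2_t3a_c1_n_h191) (chk3_b (chk3_c (chk3_a x2_t3a_c1_n_h192 (chk3_b (chk3_c x2_t3a_c1_n_h193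
      (chk3_a (chk3_b (chk3_c (chk3_a (chk3_b x2_t3a_c1_n_h194 (chk3_c x2_t3a_c1_n_h195
      x2_t3a_c1_n_h196)) x2_t3a_c1_n_h197) (chk3_a (chk3_b x2_t3a_c1_n_h198 (chk3_c
      x2_t3a_c1_n_h199 x2_t3a_c1_n_h200)) x2_t3a_c1_n_h201)) x2_t3a_c1_n_h202) x2_t3a_c1_n_h203))
      x2_t3a_c1_n_h204)) (chk3_a x2_t3a_c1_n_h205 (chk3_b (chk3_c (chk3_a (chk3_b (chk3_c
      x2_t3a_c1_n_h206 x2_t3a_c1_n_h207) x2_t3a_c1_n_h208) x2_t3a_c1_n_h209) (chk3_a (chk3_b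
      (chk3_c x2_t3a_c1_n_h210 x2_t3a_c1_n_h211) x2_t3a_c1_n_h212) x2_t3a_c1_n_h213))
      x2_t3a_c1_n_h214))) x2_t3a_c1_n_h215))) (chk3_c (chk3_c (chk3_b (chk3_a x2_t3a_c1_n_h216
      (chk3_c (chk3_b (chk3_c (chk3_a (chk3_b (chk3_c x2_t3a_c1_n_h217 x2_t3a_c1_n_h218)
      x2_t3a_c1_n_h219) x2_t3a_c1_n_h220) (chk3_a (chk3_b (chk3_c (chk3_a (chk3_b
      x2_t3a_c1_n_h221 (chk3_c x2_t3a_c1_n_h222 x2_t3a_c1_n_h223)) x2_t3a_c1_n_h224) (chk3_a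
      (chk3_b x2_t3a_c1_n_h225 x2_t3a_c1_n_h226) x2_t3a_c1_n_h227)) x2_t3a_c1_n_h228)
      x2_t3a_c1_n_h229)) x2_t3a_c1_n_h230) (chk3_b (chk3_a (chk3_c (chk3_b (chk3_a (chk3_c
      x2_t3a_c1_n_h231 x2_t3a_c1_n_h232) x2_t3a_c1_n_h233) x2_t3a_c1_n_h234) (chk3_b
      x2_t3a_c1_n_h235 x2_t3a_c1_n_h236)) x2_t3a_c1_n_h237) x2_t3a_c1_n_h238))) x2_t3a_c1_n_h239)
      (chk3_b (chk3_a x2_t3a_c1_n_h240 (chk3_c (chk3_b (chk3_a (chk3_c (chk3_b x2_t3a_c1_n_h241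
      x2_t3a_c1_n_h242) (chk3_b (chk3_a (chk3_c x2_t3a_c1_n_h243 x2_t3a_c1_n_h244)
      x2_t3a_c1_n_h245) x2_t3a_c1_n_h246)) x2_t3a_c1_n_h247) x2_t3a_c1_n_h248) (chk3_b (chk3_a
      (chk3_c (chk3_b (chk3_a (chk3_c x2_t3a_c1_n_h249 x2_t3a_c1_n_h250) x2_t3a_c1_n_h251)
      x2_t3a_c1_n_h252) (chk3_b (chk3_a (chk3_c x2_t3a_c1_n_h253 x2_t3a_c1_n_h254)
      x2_t3a_c1_n_h255) x2_t3a_c1_n_h256)) x2_t3a_c1_n_h257) x2_t3a_c1_n_h258)))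
      x2_t3a_c1_n_h259)) (chk3_c (chk3_b (chk3_a x2_t3a_c1_n_h260 (chk3_c (chk3_b (chk3_a (chk3_c
      (chk3_b (chk3_a (chk3_c x2_t3a_c1_n_h261 x2_t3a_c1_n_h262) x2_t3a_c1_n_h263)
      x2_t3a_c1_n_h264) (chk3_b (chk3_a (chk3_c x2_t3a_c1_n_h265 (chk3_b x2_t3a_c1_n_h266 (chk3_a
      (chk3_c x2_t3a_c1_n_h267 x2_t3a_c1_n_h268) x2_t3a_c1_n_h269))) x2_t3a_c1_n_h270)
      x2_t3a_c1_n_h271)) x2_t3a_c1_n_h272) x2_t3a_c1_n_h273) (chk3_b (chk3_a (chk3_c (chk3_b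
      (chk3_a (chk3_c x2_t3a_c1_n_h274 x2_t3a_c1_n_h275) x2_t3a_c1_n_h276) x2_t3a_c1_n_h277)
      x2_t3a_c1_n_h278) x2_t3a_c1_n_h279) x2_t3a_c1_n_h280))) x2_t3a_c1_n_h281) (chk3_b (chk3_a
      (chk3_c x2_t3a_c1_n_h282 (chk3_b (chk3_a x2_t3a_c1_n_h283 (chk3_c (chk3_b (chk3_a
      x2_t3a_c1_n_h284 (chk3_b x2_t3a_c1_n_h285 (chk3_c x2_t3a_c1_n_h286 x2_t3a_c1_n_h287)))
      x2_t3a_c1_n_h288) (chk3_b (chk3_a x2_t3a_c1_n_h289 (chk3_b x2_t3a_c1_n_h290 (chk3_c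
      x2_t3a_c1_n_h291 x2_t3a_c1_n_h292))) x2_t3a_c1_n_h293))) x2_t3a_c1_n_h294)) (chk3_c (chk3_b
      (chk3_a (chk3_c x2_t3a_c1_n_h295 x2_t3a_c1_n_h296) x2_t3a_c1_n_h297) x2_t3a_c1_n_h298)
      x2_t3a_c1_n_h299)) x2_t3a_c1_n_h300)))) x2_t3a_c1_n_h301) (chk3_c (chk3_c (chk3_b (chk3_a
      (chk3_c (chk3_a (chk3_c (chk3_b (chk3_a x2_t3a_c1_n_h302 (chk3_b (chk3_c (chk3_a
      x2_t3a_c1_n_h303 (chk3_b x2_t3a_c1_n_h304 (chk3_c x2_t3a_c1_n_h305 x2_t3a_c1_n_h306)))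
      (chk3_a x2_t3a_c1_n_h307 (chk3_b x2_t3a_c1_n_h308 (chk3_c x2_t3a_c1_n_h309
      x2_t3a_c1_n_h310)))) x2_t3a_c1_n_h311)) x2_t3a_c1_n_h312) (chk3_b (chk3_a x2_t3a_c1_n_h313
      (chk3_b (chk3_c (chk3_a x2_t3a_c1_n_h314 (chk3_b x2_t3a_c1_n_h315 (chk3_c x2_t3a_c1_n_h316
      x2_t3a_c1_n_h317))) x2_t3a_c1_n_h318) x2_t3a_c1_n_h319)) x2_t3a_c1_n_h320))
      x2_t3a_c1_n_h321) (chk3_a (chk3_b (chk3_c (chk3_a x2_t3a_c1_n_h322 (chk3_b (chk3_c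
      x2_t3a_c1_n_h323 x2_t3a_c1_n_h324) x2_t3a_c1_n_h325)) (chk3_a x2_t3a_c1_n_h326 (chk3_b
      (chk3_c x2_t3a_c1_n_h327 (chk3_a x2_t3a_c1_n_h328 (chk3_b x2_t3a_c1_n_h329 (chk3_c
      x2_t3a_c1_n_h330 (chk3_a x2_t3a_c1_n_h331 (chk3_b x2_t3a_c1_n_h332 (chk3_c x2_t3a_c1_n_h333
      x2_t3a_c1_n_h334))))))) x2_t3a_c1_n_h335))) x2_t3a_c1_n_h336) x2_t3a_c1_n_h337))
      x2_t3a_c1_n_h338) x2_t3a_c1_n_h339) (chk3_b (chk3_a (chk3_c (chk3_a (chk3_b (chk3_c (chk3_a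
      x2_t3a_c1_n_h340 (chk3_b (chk3_c (chk3_a x2_t3a_c1_n_h341 (chk3_b x2_t3a_c1_n_h342 (chk3_c
      (chk3_a x2_t3a_c1_n_h343 (chk3_b x2_t3a_c1_n_h344 (chk3_c x2_t3a_c1_n_h345
      x2_t3a_c1_n_h346))) (chk3_a x2_t3a_c1_n_h347 (chk3_b x2_t3a_c1_n_h348 (chk3_c
      x2_t3a_c1_n_h349 x2_t3a_c1_n_h350)))))) (chk3_a x2_t3a_c1_n_h351 (chk3_b x2_t3a_c1_n_h352
      (chk3_c (chk3_a x2_t3a_c1_n_h353 (chk3_b x2_t3a_c1_n_h354 x2_t3a_c1_n_h355))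
      x2_t3a_c1_n_h356)))) x2_t3a_c1_n_h357)) (chk3_a x2_t3a_c1_n_h358 (chk3_b (chk3_c (chk3_a
      x2_t3a_c1_n_h359 (chk3_b x2_t3a_c1_n_h360 (chk3_c x2_t3a_c1_n_h361 x2_t3a_c1_n_h362)))
      x2_t3a_c1_n_h363) x2_t3a_c1_n_h364))) x2_t3a_c1_n_h365) x2_t3a_c1_n_h366) (chk3_a (chk3_b
      (chk3_c (chk3_a x2_t3a_c1_n_h367 (chk3_b (chk3_c x2_t3a_c1_n_h368 x2_t3a_c1_n_h369)
      x2_t3a_c1_n_h370)) (chk3_a x2_t3a_c1_n_h371 (chk3_b x2_t3a_c1_n_h372 x2_t3a_c1_n_h373)))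
      x2_t3a_c1_n_h374) x2_t3a_c1_n_h375)) x2_t3a_c1_n_h376) x2_t3a_c1_n_h377)) (chk3_b (chk3_a
      (chk3_c (chk3_a (chk3_c (chk3_b (chk3_c (chk3_a x2_t3a_c1_n_h378 (chk3_b (chk3_c (chk3_a
      x2_t3a_c1_n_h379 (chk3_b x2_t3a_c1_n_h380 (chk3_c (chk3_a x2_t3a_c1_n_h381 (chk3_b
      x2_t3a_c1_n_h382 (chk3_c x2_t3a_c1_n_h383 x2_t3a_c1_n_h384))) (chk3_a x2_t3a_c1_n_h385
      (chk3_b x2_t3a_c1_n_h386 (chk3_c x2_t3a_c1_n_h387 x2_t3a_c1_n_h388)))))) (chk3_a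
      x2_t3a_c1_n_h389 (chk3_b x2_t3a_c1_n_h390 (chk3_c (chk3_a x2_t3a_c1_n_h391
      x2_t3a_c1_n_h392) x2_t3a_c1_n_h393)))) x2_t3a_c1_n_h394)) (chk3_a x2_t3a_c1_n_h395 (chk3_b
      (chk3_c (chk3_a x2_t3a_c1_n_h396 (chk3_b x2_t3a_c1_n_h397 (chk3_c x2_t3a_c1_n_h398
      x2_t3a_c1_n_h399))) x2_t3a_c1_n_h400) x2_t3a_c1_n_h401))) x2_t3a_c1_n_h402) (chk3_b (chk3_a
      x2_t3a_c1_n_h403 (chk3_c (chk3_b (chk3_a x2_t3a_c1_n_h404 (chk3_c x2_t3a_c1_n_h405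
      x2_t3a_c1_n_h406)) x2_t3a_c1_n_h407) (chk3_b x2_t3a_c1_n_h408 x2_t3a_c1_n_h409)))
      x2_t3a_c1_n_h410)) x2_t3a_c1_n_h411) (chk3_a (chk3_c (chk3_b (chk3_a x2_t3a_c1_n_h412
      (chk3_c (chk3_b (chk3_a x2_t3a_c1_n_h413 (chk3_c x2_t3a_c1_n_h414 x2_t3a_c1_n_h415))
      (chk3_a x2_t3a_c1_n_h416 (chk3_c x2_t3a_c1_n_h417 x2_t3a_c1_n_h418))) (chk3_b (chk3_a
      x2_t3a_c1_n_h419 (chk3_c x2_t3a_c1_n_h420 x2_t3a_c1_n_h421)) (chk3_a x2_t3a_c1_n_h422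
      (chk3_c x2_t3a_c1_n_h423 x2_t3a_c1_n_h424))))) x2_t3a_c1_n_h425) (chk3_b (chk3_a
      x2_t3a_c1_n_h426 (chk3_c x2_t3a_c1_n_h427 x2_t3a_c1_n_h428)) x2_t3a_c1_n_h429))
      x2_t3a_c1_n_h430)) x2_t3a_c1_n_h431) x2_t3a_c1_n_h432))) x2_t3a_c1_n_h433)))) (chk3_b
      x2_t3a_c1_n_h434 x2_t3a_c1_n_h435)))) (chk3_a (chk3_b x2_t3a_c1_n_h436 x2_t3a_c1_n_h437)
      (chk3_b x2_t3a_c1_n_h438 x2_t3a_c1_n_h439)))⟩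

end Pool.Agent.Strip051.LC.E1.Ch
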