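import Pool.Agent.Strip051.LC.E1.Ch.Te

/-! # Rests near the full period: certificate P_x2_t3a_c1_n_1 -/

set_option maxRecDepth 100000

namespace Pool.Agent.Strip051.LC.E1.Ch

open Pool.Agent.Strip051.PB
open Pool.Agent.Strip051.LC.E0.Ch (onCell Tree)

def x2_t3a_c1_n_t0 : T :=
  (.a (.l 15) (.b (.a (.c (.l 4039) (.l 1991)) (.c (.l 4039) (.l 1991))) (.a (.c (.b (.l 3975)
      (.a (.l 15) (.l 3975))) (.a (.l 15) (.b (.l 1927) (.c (.l 2695) (.l 1927))))) (.c (.a (.l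
      4039) (.a (.l 4039) (.l 4035))) (.a (.b (.l 1927) (.c (.l 2755) (.l 1927))) (.b (.l 1987)
      (.a (.l 1987) (.l 1987))))))))

theorem x2_t3a_c1_n_h0 : chk3 (onCell 0 1073741824 0 429496730 0 67108864 T2_t3a_c1_n) x2_t3a_c1_n_t0 2 2 1 = true := by decide +kernel

def x2_t3a_c1_n_t1 : T :=
  (.l 15)

theorem x2_t3a_c1_n_h1 : chk3 (onCell 0 1073741824 0 429496730 0 67108864 T2_t3a_c1_n) x2_t3a_c1_n_t1 4 3 1 = true := by decide +kernel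

def x2_t3a_c1_n_t2 : T :=
  (.l 15)

theorem x2_t3a_c1_n_h2 : chk3 (onCell 0 1073741824 0 429496730 0 67108864 T2_t3a_c1_n) x2_t3a_c1_n_t2 20 6 2 = true := by decide +kernel

def x2_t3a_c1_n_t3 : T :=
  (.b (.l 8135) (.c (.l 16327) (.a (.c (.l 10951) (.l 8135)) (.c (.l 10951) (.l 8135)))))

theorem x2_t3a_c1_n_h3 : chk3 (onCell 0 1073741824 0 429496730 0 67108864 T2_t3a_c1_n) x2_t3a_c1_n_t3 21 6 4 = true := by decide +kernel

def x2_t3a_c1_n_t4 : T :=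
  (.a (.l 3975) (.l 4035))

theorem x2_t3a_c1_n_h4 : chk3 (onCell 0 1073741824 0 429496730 0 67108864 T2_t3a_c1_n) x2_t3a_c1_n_t4 21 12 5 = true := by decide +kernel

def x2_t3a_c1_n_t5 : T :=
  (.b (.l 5447) (.c (.a (.l 15) (.l 6599)) (.c (.c (.c (.a (.l 15) (.l 6343)) (.a (.l 15) (.l
      6215))) (.c (.a (.l 15) (.l 6087)) (.a (.l 15) (.l 5959)))) (.c (.c (.a (.l 15) (.l 71))
      (.a (.l 15) (.b (.l 5703) (.l 5703)))) (.c (.a (.l 15) (.b (.l 5575) (.l 5575))) (.a (.l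
      15) (.b (.l 5447) (.l 5447))))))))

theorem x2_t3a_c1_n_h5 : chk3 (onCell 0 1073741824 0 429496730 0 67108864 T2_t3a_c1_n) x2_t3a_c1_n_t5 42 13 10 = true := by decide +kernel

def x2_t3a_c1_n_t6 : T :=
  (.c (.c (.c (.b (.l 5191) (.c (.a (.l 15) (.b (.l 5319) (.l 5319))) (.a (.l 15) (.b (.l 5191)
      (.l 5191))))) (.b (.l 5063) (.c (.a (.l 15) (.b (.l 5191) (.l 5191))) (.a (.l 15) (.b (.l
      5063) (.l 5063)))))) (.c (.b (.l 4807) (.c (.a (.l 15) (.b (.l 4935) (.l 4935))) (.a (.l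
      15) (.b (.l 4807) (.l 4807))))) (.b (.l 4679) (.a (.l 15) (.b (.l 4679) (.l 4679)))))) (.c
      (.c (.b (.l 4551) (.a (.l 15) (.b (.l 4551) (.l 4551)))) (.b (.l 4423) (.a (.l 15) (.b (.l
      4423) (.l 4423))))) (.c (.b (.l 4295) (.a (.l 15) (.b (.l 4295) (.l 4295)))) (.b (.l 4039)
      (.a (.l 15) (.b (.l 4039) (.l 4039)))))))

theorem x2_t3a_c1_n_h6 : chk3 (onCell 0 1073741824 0 429496730 0 67108864 T2_t3a_c1_n) x2_t3a_c1_n_t6 42 13 11 = true := by decide +kernel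

def x2_t3a_c1_n_t7 : T :=
  (.c (.b (.l 5443) (.c (.l 6595) (.c (.l 5955) (.c (.l 5699) (.l 5443))))) (.c (.c (.c (.b (.l
      5187) (.c (.l 5315) (.a (.l 5187) (.l 5187)))) (.b (.l 5059) (.c (.a (.l 5187) (.l 5187))
      (.a (.l 5059) (.l 5059))))) (.c (.b (.l 4803) (.c (.a (.l 4931) (.l 4931)) (.a (.l 4803)
      (.l 4803)))) (.b (.l 4675) (.b (.l 4675) (.l 4675))))) (.c (.c (.b (.l 4547) (.b (.l 4547)
      (.l 4547))) (.b (.l 4419) (.b (.l 4419) (.l 4419)))) (.c (.b (.l 4291) (.b (.l 4291) (.l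
      4291))) (.b (.l 4035) (.b (.l 4035) (.l 4035)))))))

theorem x2_t3a_c1_n_h7 : chk3 (onCell 0 1073741824 0 429496730 0 67108864 T2_t3a_c1_n) x2_t3a_c1_n_t7 43 13 5 = true := by decide +kernel

def x2_t3a_c1_n_t8 : T :=
  (.l 15)

theorem x2_t3a_c1_n_h8 : chk3 (onCell 0 1073741824 0 429496730 0 67108864 T2_t3a_c1_n) x2_t3a_c1_n_t8 20 6 3 = true := by decide +kernel

def x2_t3a_c1_n_t9 : T :=
  (.c (.a (.l 2695) (.b (.l 2695) (.c (.l 3267) (.l 67)))) (.c (.c (.a (.l 2439) (.l 67)) (.a (.l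
      2311) (.l 67))) (.c (.a (.l 2183) (.l 67)) (.a (.l 1927) (.l 67)))))

theorem x2_t3a_c1_n_h9 : chk3 (onCell 0 1073741824 0 429496730 0 67108864 T2_t3a_c1_n) x2_t3a_c1_n_t9 21 12 3 = true := by decide +kernel

def x2_t3a_c1_n_t10 : T :=
  (.c (.l 3655) (.c (.l 3399) (.l 71)))

theorem x2_t3a_c1_n_h10 : chk3 (onCell 0 1073741824 0 429496730 0 67108864 T2_t3a_c1_n) x2_t3a_c1_n_t10 42 26 12 = true := by decide +kernel

def x2_t3a_c1_n_t11 : T :=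
  (.a (.l 15) (.c (.b (.l 3143) (.l 71)) (.b (.l 3143) (.a (.c (.l 71) (.b (.l 3143) (.l 71)))
      (.l 67)))))

theorem x2_t3a_c1_n_h11 : chk3 (onCell 0 1073741824 0 429496730 0 67108864 T2_t3a_c1_n) x2_t3a_c1_n_t11 42 26 52 = true := by decide +kernel

def x2_t3a_c1_n_t12 : T :=
  (.l 15)

theorem x2_t3a_c1_n_h12 : chk3 (onCell 0 1073741824 0 429496730 0 67108864 T2_t3a_c1_n) x2_t3a_c1_n_t12 84 26 53 = true := by decide +kernel

def x2_t3a_c1_n_t13 : T :=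
  (.b (.l 71) (.a (.c (.b (.l 3143) (.a (.c (.l 71) (.b (.l 3143) (.l 3079))) (.l 67))) (.b (.l
      71) (.a (.c (.b (.l 71) (.l 2951)) (.b (.l 71) (.l 2951))) (.l 67)))) (.l 67)))

theorem x2_t3a_c1_n_h13 : chk3 (onCell 0 1073741824 0 429496730 0 67108864 T2_t3a_c1_n) x2_t3a_c1_n_t13 85 26 106 = true := by decide +kernel

def x2_t3a_c1_n_t14 : T :=
  (.a (.l 2951) (.l 3))

theorem x2_t3a_c1_n_h14 : chk3 (onCell 0 1073741824 0 429496730 0 67108864 T2_t3a_c1_n) x2_t3a_c1_n_t14 85 52 107 = true := by decide +kernel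

def x2_t3a_c1_n_t15 : T :=
  (.b (.a (.c (.b (.l 2951) (.l 71)) (.b (.l 2951) (.l 71))) (.l 67)) (.a (.c (.b (.a (.c (.b (.l
      71) (.l 2951)) (.b (.l 71) (.l 2951))) (.l 67)) (.l 2951)) (.b (.a (.c (.b (.l 71) (.l
      2951)) (.b (.a (.c (.l 71) (.b (.l 71) (.l 2951))) (.l 67)) (.l 2951))) (.l 67)) (.l
      2951))) (.l 67)))

theorem x2_t3a_c1_n_h15 : chk3 (onCell 0 1073741824 0 429496730 0 67108864 T2_t3a_c1_n) x2_t3a_c1_n_t15 170 53 214 = true := by decide +kernel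

def x2_t3a_c1_n_t16 : T :=
  (.a (.c (.b (.l 2951) (.a (.c (.b (.l 2951) (.l 71)) (.b (.l 2951) (.a (.c (.l 71) (.b (.l
      2951) (.l 71))) (.l 67)))) (.l 67))) (.b (.l 2951) (.a (.c (.b (.l 2951) (.a (.c (.b (.l
      2951) (.l 71)) (.b (.l 2951) (.a (.c (.b (.l 3015) (.l 71)) (.b (.l 3015) (.a (.l 15) (.l
      99)))) (.l 67)))) (.l 67))) (.b (.l 2951) (.a (.c (.b (.l 2951) (.a (.c (.b (.l 3015) (.a
      (.l 15) (.l 99))) (.b (.l 3015) (.a (.l 15) (.l 99)))) (.l 67))) (.b (.l 2951) (.a (.c (.b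
      (.l 3015) (.a (.l 15) (.l 99))) (.b (.l 3015) (.a (.l 15) (.l 99)))) (.l 67)))) (.l 67))))
      (.l 67)))) (.l 67))

theorem x2_t3a_c1_n_h16 : chk3 (onCell 0 1073741824 0 429496730 0 67108864 T2_t3a_c1_n) x2_t3a_c1_n_t16 170 106 215 = true := by decide +kernel

def x2_t3a_c1_n_t17 : T :=
  (.a (.c (.b (.a (.c (.b (.a (.c (.b (.l 71) (.l 2951)) (.b (.l 71) (.l 2951))) (.l 67)) (.l
      2951)) (.b (.a (.c (.b (.l 71) (.l 2951)) (.b (.a (.c (.b (.l 71) (.l 2951)) (.b (.l 71)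
      (.l 2951))) (.l 67)) (.l 2951))) (.l 67)) (.l 2951))) (.l 67)) (.l 2951)) (.b (.a (.c (.b
      (.a (.c (.b (.a (.c (.b (.l 71) (.l 2951)) (.b (.a (.l 15) (.l 99)) (.l 2951))) (.l 67))
      (.l 2951)) (.b (.a (.c (.b (.a (.l 15) (.l 99)) (.l 2951)) (.b (.a (.l 15) (.l 99)) (.l
      2951))) (.l 67)) (.l 2951))) (.l 67)) (.l 2951)) (.b (.a (.c (.b (.a (.c (.b (.a (.l 15)
      (.l 99)) (.l 2951)) (.b (.a (.l 15) (.l 99)) (.l 2951))) (.l 67)) (.l 2951)) (.b (.a (.c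
      (.b (.a (.l 15) (.l 99)) (.l 2951)) (.b (.a (.l 15) (.l 99)) (.l 2951))) (.l 67)) (.l
      2951))) (.l 67)) (.l 2951))) (.l 67)) (.l 2951))) (.l 67))

theorem x2_t3a_c1_n_h17 : chk3 (onCell 0 1073741824 0 429496730 0 67108864 T2_t3a_c1_n) x2_t3a_c1_n_t17 170 107 215 = true := by decide +kernel

def x2_t3a_c1_n_t18 : T :=
  (.l 67)

theorem x2_t3a_c1_n_h18 : chk3 (onCell 0 1073741824 0 429496730 0 67108864 T2_t3a_c1_n) x2_t3a_c1_n_t18 171 53 107 = true := by decide +kernel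

def x2_t3a_c1_n_t19 : T :=
  (.l 15)

theorem x2_t3a_c1_n_h19 : chk3 (onCell 0 1073741824 0 429496730 0 67108864 T2_t3a_c1_n) x2_t3a_c1_n_t19 84 26 54 = true := by decide +kernel

def x2_t3a_c1_n_t20 : T :=
  (.a (.l 2823) (.l 3))

theorem x2_t3a_c1_n_h20 : chk3 (onCell 0 1073741824 0 429496730 0 67108864 T2_t3a_c1_n) x2_t3a_c1_n_t20 85 52 108 = true := by decide +kernel

def x2_t3a_c1_n_t21 : T :=
  (.b (.l 2951) (.a (.c (.b (.l 2951) (.a (.c (.b (.l 2951) (.a (.c (.b (.l 3015) (.a (.l 15) (.l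
      99))) (.b (.l 3015) (.a (.l 15) (.l 99)))) (.l 67))) (.b (.l 2951) (.a (.c (.b (.l 3015)
      (.a (.l 15) (.l 99))) (.b (.l 3015) (.a (.l 15) (.l 99)))) (.l 67)))) (.l 67))) (.b (.l
      2951) (.a (.c (.b (.l 2951) (.a (.c (.b (.l 3015) (.a (.l 15) (.l 99))) (.b (.l 3015) (.a
      (.l 15) (.l 99)))) (.l 67))) (.b (.l 2951) (.a (.c (.b (.l 3015) (.a (.l 15) (.l 99))) (.b
      (.l 3015) (.a (.l 15) (.l 99)))) (.l 67)))) (.l 67)))) (.l 67)))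

theorem x2_t3a_c1_n_h21 : chk3 (onCell 0 1073741824 0 429496730 0 67108864 T2_t3a_c1_n) x2_t3a_c1_n_t21 340 106 432 = true := by decide +kernel

def x2_t3a_c1_n_t22 : T :=
  (.b (.l 2951) (.a (.c (.b (.l 2951) (.a (.c (.b (.l 2951) (.a (.c (.b (.l 3015) (.a (.l 15) (.l
      99))) (.b (.l 3015) (.a (.l 15) (.l 99)))) (.l 67))) (.b (.l 2951) (.a (.c (.b (.l 3015)
      (.a (.l 15) (.l 99))) (.b (.l 3015) (.a (.l 15) (.l 99)))) (.l 67)))) (.l 67))) (.b (.l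
      2951) (.a (.c (.b (.l 2951) (.a (.c (.b (.l 3015) (.a (.l 15) (.l 99))) (.b (.l 3015) (.a
      (.l 15) (.l 99)))) (.l 67))) (.b (.l 2951) (.a (.c (.b (.l 2951) (.a (.l 15) (.l 99))) (.b
      (.l 2951) (.a (.l 15) (.l 99)))) (.l 67)))) (.l 67)))) (.l 67)))

theorem x2_t3a_c1_n_h22 : chk3 (onCell 0 1073741824 0 429496730 0 67108864 T2_t3a_c1_n) x2_t3a_c1_n_t22 340 106 433 = true := by decide +kernel

def x2_t3a_c1_n_t23 : T :=
  (.l 67)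

theorem x2_t3a_c1_n_h23 : chk3 (onCell 0 1073741824 0 429496730 0 67108864 T2_t3a_c1_n) x2_t3a_c1_n_t23 341 106 216 = true := by decide +kernel

def x2_t3a_c1_n_t24 : T :=
  (.b (.a (.c (.b (.a (.c (.b (.a (.c (.b (.a (.l 15) (.l 99)) (.l 2951)) (.b (.a (.l 15) (.l
      99)) (.l 2951))) (.l 67)) (.l 2951)) (.b (.a (.c (.b (.a (.l 15) (.l 99)) (.l 2951)) (.b
      (.a (.l 15) (.l 99)) (.l 2951))) (.l 67)) (.l 2951))) (.l 67)) (.l 2951)) (.b (.a (.c (.b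
      (.a (.c (.b (.a (.l 15) (.l 99)) (.l 2951)) (.b (.a (.l 15) (.l 99)) (.l 2951))) (.l 67))
      (.l 2951)) (.b (.a (.c (.b (.a (.l 15) (.l 99)) (.l 2951)) (.b (.a (.l 15) (.l 99)) (.l
      2951))) (.l 67)) (.l 2951))) (.l 67)) (.l 2951))) (.l 67)) (.l 2951))

theorem x2_t3a_c1_n_h24 : chk3 (onCell 0 1073741824 0 429496730 0 67108864 T2_t3a_c1_n) x2_t3a_c1_n_t24 340 107 432 = true := by decide +kernel

def x2_t3a_c1_n_t25 : T :=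
  (.b (.a (.c (.b (.a (.c (.b (.a (.c (.b (.a (.l 15) (.l 99)) (.l 2951)) (.b (.a (.l 15) (.l
      99)) (.l 2951))) (.l 67)) (.l 2951)) (.b (.a (.c (.b (.a (.l 15) (.l 99)) (.l 2951)) (.b
      (.a (.l 15) (.l 99)) (.l 2951))) (.l 67)) (.l 2951))) (.l 67)) (.l 2951)) (.b (.a (.c (.b
      (.a (.c (.b (.a (.l 15) (.l 99)) (.l 2951)) (.b (.a (.l 15) (.l 99)) (.l 2951))) (.l 67))
      (.l 2951)) (.b (.a (.c (.b (.a (.l 15) (.l 99)) (.l 2951)) (.b (.a (.l 15) (.l 99)) (.l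
      2951))) (.l 67)) (.l 2951))) (.l 67)) (.l 2951))) (.l 67)) (.l 2951))

theorem x2_t3a_c1_n_h25 : chk3 (onCell 0 1073741824 0 429496730 0 67108864 T2_t3a_c1_n) x2_t3a_c1_n_t25 340 107 433 = true := by decide +kernel

def x2_t3a_c1_n_t26 : T :=
  (.l 67)

theorem x2_t3a_c1_n_h26 : chk3 (onCell 0 1073741824 0 429496730 0 67108864 T2_t3a_c1_n) x2_t3a_c1_n_t26 341 107 216 = true := by decide +kernel

def x2_t3a_c1_n_t27 : T :=
  (.b (.l 2823) (.a (.c (.b (.l 2823) (.a (.c (.b (.l 2823) (.a (.c (.b (.l 2823) (.a (.l 15) (.l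
      99))) (.b (.l 2823) (.a (.l 15) (.l 99)))) (.l 67))) (.b (.l 2823) (.a (.c (.b (.l 2823)
      (.a (.l 15) (.l 99))) (.b (.l 2823) (.a (.l 15) (.l 99)))) (.l 67)))) (.l 67))) (.b (.l
      2823) (.a (.c (.b (.l 2823) (.a (.c (.b (.l 2823) (.a (.l 15) (.l 99))) (.b (.l 2823) (.a
      (.l 15) (.l 99)))) (.l 67))) (.b (.l 2823) (.a (.c (.b (.l 2823) (.a (.l 15) (.l 99))) (.b
      (.l 2823) (.a (.l 15) (.l 99)))) (.l 67)))) (.l 67)))) (.l 67)))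

theorem x2_t3a_c1_n_h27 : chk3 (onCell 0 1073741824 0 429496730 0 67108864 T2_t3a_c1_n) x2_t3a_c1_n_t27 340 106 434 = true := by decide +kernel

def x2_t3a_c1_n_t28 : T :=
  (.b (.l 2823) (.a (.c (.b (.l 2823) (.a (.c (.b (.l 2823) (.a (.c (.b (.l 2823) (.a (.l 15) (.l
      99))) (.b (.l 2823) (.a (.l 15) (.l 99)))) (.l 67))) (.b (.l 2823) (.a (.c (.b (.l 2823)
      (.a (.l 15) (.l 99))) (.b (.l 99) (.a (.l 15) (.l 99)))) (.l 67)))) (.l 67))) (.b (.l 99)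
      (.a (.c (.b (.l 99) (.a (.c (.b (.l 99) (.a (.l 15) (.l 99))) (.b (.l 99) (.a (.l 15) (.l
      99)))) (.l 67))) (.b (.l 99) (.a (.c (.b (.l 99) (.a (.l 15) (.l 99))) (.b (.l 99) (.a (.l
      15) (.l 99)))) (.l 67)))) (.l 67)))) (.l 67)))

theorem x2_t3a_c1_n_h28 : chk3 (onCell 0 1073741824 0 429496730 0 67108864 T2_t3a_c1_n) x2_t3a_c1_n_t28 340 106 435 = true := by decide +kernel

def x2_t3a_c1_n_t29 : T :=
  (.l 67)

theorem x2_t3a_c1_n_h29 : chk3 (onCell 0 1073741824 0 429496730 0 67108864 T2_t3a_c1_n) x2_t3a_c1_n_t29 341 106 217 = true := by decide +kernel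

def x2_t3a_c1_n_t30 : T :=
  (.a (.c (.b (.a (.c (.b (.a (.c (.b (.a (.c (.b (.a (.l 15) (.l 99)) (.l 2823)) (.b (.a (.l 15)
      (.l 99)) (.l 2823))) (.l 67)) (.l 2823)) (.b (.a (.c (.b (.a (.l 15) (.l 99)) (.l 99)) (.b
      (.a (.l 15) (.l 99)) (.l 99))) (.l 67)) (.l 99))) (.l 67)) (.l 2823)) (.b (.a (.c (.b (.a
      (.l 99) (.l 67)) (.l 99)) (.b (.a (.l 99) (.l 67)) (.l 99))) (.l 67)) (.l 99))) (.l 67))
      (.l 2823)) (.b (.a (.c (.b (.a (.c (.b (.a (.l 99) (.l 67)) (.l 99)) (.b (.a (.l 99) (.l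
      67)) (.l 99))) (.l 67)) (.l 99)) (.b (.a (.c (.b (.a (.l 99) (.l 67)) (.l 99)) (.b (.a (.l
      99) (.l 67)) (.l 99))) (.l 67)) (.l 99))) (.l 67)) (.l 99))) (.l 67))

theorem x2_t3a_c1_n_h30 : chk3 (onCell 0 1073741824 0 429496730 0 67108864 T2_t3a_c1_n) x2_t3a_c1_n_t30 170 107 217 = true := by decide +kernel

def x2_t3a_c1_n_t31 : T :=
  (.l 67)

theorem x2_t3a_c1_n_h31 : chk3 (onCell 0 1073741824 0 429496730 0 67108864 T2_t3a_c1_n) x2_t3a_c1_n_t31 171 53 108 = true := by decide +kernel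

def x2_t3a_c1_n_t32 : T :=
  (.a (.l 2823) (.l 3))

theorem x2_t3a_c1_n_h32 : chk3 (onCell 0 1073741824 0 429496730 0 67108864 T2_t3a_c1_n) x2_t3a_c1_n_t32 85 52 109 = true := by decide +kernel

def x2_t3a_c1_n_t33 : T :=
  (.a (.c (.b (.l 99) (.a (.c (.b (.l 99) (.a (.c (.b (.l 99) (.a (.c (.b (.l 99) (.a (.l 15) (.l
      99))) (.b (.l 99) (.a (.l 15) (.l 99)))) (.l 67))) (.b (.l 99) (.a (.c (.b (.l 99) (.a (.b
      (.l 99) (.l 99)) (.l 99))) (.b (.l 99) (.a (.b (.l 99) (.l 99)) (.l 99)))) (.l 67)))) (.l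
      67))) (.b (.l 99) (.a (.c (.b (.l 99) (.a (.c (.b (.l 99) (.a (.l 99) (.l 99))) (.b (.l 99)
      (.a (.l 99) (.l 99)))) (.l 67))) (.b (.l 99) (.a (.c (.b (.l 99) (.l 99)) (.b (.l 99) (.l
      99))) (.l 67)))) (.l 67)))) (.l 67))) (.b (.l 99) (.a (.c (.b (.l 99) (.a (.c (.b (.l 99)
      (.a (.c (.b (.l 99) (.l 99)) (.b (.l 99) (.l 99))) (.l 67))) (.b (.l 99) (.a (.l 99) (.l
      67)))) (.l 67))) (.b (.l 99) (.a (.c (.b (.l 99) (.a (.l 99) (.l 67))) (.b (.l 99) (.a (.l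
      99) (.l 67)))) (.l 67)))) (.l 67)))) (.l 67))

theorem x2_t3a_c1_n_h33 : chk3 (onCell 0 1073741824 0 429496730 0 67108864 T2_t3a_c1_n) x2_t3a_c1_n_t33 170 106 218 = true := by decide +kernel

def x2_t3a_c1_n_t34 : T :=
  (.a (.c (.b (.a (.c (.b (.a (.c (.b (.a (.l 99) (.l 67)) (.l 99)) (.b (.a (.l 99) (.l 67)) (.l
      99))) (.l 67)) (.l 99)) (.b (.a (.c (.b (.l 99) (.l 99)) (.b (.l 99) (.l 99))) (.l 67)) (.l
      99))) (.l 67)) (.l 99)) (.b (.a (.c (.b (.a (.l 99) (.l 67)) (.l 99)) (.b (.a (.l 99) (.l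
      67)) (.l 99))) (.l 67)) (.l 99))) (.l 67))

theorem x2_t3a_c1_n_h34 : chk3 (onCell 0 1073741824 0 429496730 0 67108864 T2_t3a_c1_n) x2_t3a_c1_n_t34 170 107 218 = true := by decide +kernel

def x2_t3a_c1_n_t35 : T :=
  (.b (.a (.c (.b (.l 99) (.a (.c (.b (.l 99) (.a (.c (.b (.l 99) (.l 99)) (.b (.l 99) (.l 99)))
      (.l 67))) (.b (.l 99) (.a (.l 99) (.l 67)))) (.l 67))) (.b (.l 99) (.a (.c (.b (.l 99) (.a
      (.l 99) (.l 67))) (.b (.l 99) (.a (.l 99) (.l 67)))) (.l 67)))) (.l 67)) (.a (.c (.b (.a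
      (.c (.b (.a (.l 99) (.l 67)) (.l 99)) (.b (.a (.l 99) (.l 67)) (.l 99))) (.l 67)) (.l 99))
      (.b (.a (.c (.b (.a (.l 99) (.l 67)) (.l 99)) (.b (.a (.l 99) (.l 67)) (.l 99))) (.l 67))
      (.l 99))) (.l 67)))

theorem x2_t3a_c1_n_h35 : chk3 (onCell 0 1073741824 0 429496730 0 67108864 T2_t3a_c1_n) x2_t3a_c1_n_t35 170 53 219 = true := by decide +kernel

def x2_t3a_c1_n_t36 : T :=
  (.l 67)

theorem x2_t3a_c1_n_h36 : chk3 (onCell 0 1073741824 0 429496730 0 67108864 T2_t3a_c1_n) x2_t3a_c1_n_t36 171 53 109 = true := by decide +kernel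

def x2_t3a_c1_n_t37 : T :=
  (.l 15)

theorem x2_t3a_c1_n_h37 : chk3 (onCell 0 1073741824 0 429496730 0 67108864 T2_t3a_c1_n) x2_t3a_c1_n_t37 84 26 110 = true := by decide +kernel

def x2_t3a_c1_n_t38 : T :=
  (.l 2759)

theorem x2_t3a_c1_n_h38 : chk3 (onCell 0 1073741824 0 429496730 0 67108864 T2_t3a_c1_n) x2_t3a_c1_n_t38 84 52 111 = true := by decide +kernel

def x2_t3a_c1_n_t39 : T :=
  (.l 15)

theorem x2_t3a_c1_n_h39 : chk3 (onCell 0 1073741824 0 429496730 0 67108864 T2_t3a_c1_n) x2_t3a_c1_n_t39 168 53 111 = true := by decide +kernel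

def x2_t3a_c1_n_t40 : T :=
  (.a (.l 15) (.c (.b (.l 2759) (.a (.l 15) (.c (.l 15) (.b (.l 2759) (.a (.l 15) (.c (.l 15) (.b
      (.l 2759) (.a (.l 15) (.c (.l 15) (.b (.l 2759) (.a (.l 15) (.l 99)))))))))))) (.b (.l
      2759) (.a (.l 15) (.c (.b (.l 2759) (.a (.l 15) (.c (.b (.l 2759) (.a (.l 15) (.c (.b (.l
      2759) (.a (.l 15) (.l 99))) (.b (.l 2759) (.a (.l 15) (.l 99)))))) (.b (.l 2759) (.a (.l
      15) (.c (.b (.l 2759) (.a (.l 15) (.l 99))) (.b (.l 2759) (.a (.l 15) (.l 99))))))))) (.b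
      (.l 2759) (.a (.l 15) (.c (.b (.l 2759) (.a (.l 15) (.c (.b (.l 2759) (.a (.l 15) (.l 99)))
      (.b (.l 2695) (.a (.l 15) (.l 99)))))) (.b (.l 2759) (.a (.l 15) (.c (.b (.l 2695) (.a (.l
      15) (.l 99))) (.b (.l 2695) (.a (.l 15) (.l 99))))))))))))))

theorem x2_t3a_c1_n_h40 : chk3 (onCell 0 1073741824 0 429496730 0 67108864 T2_t3a_c1_n) x2_t3a_c1_n_t40 169 106 222 = true := by decide +kernel

def x2_t3a_c1_n_t41 : T :=
  (.a (.l 15) (.b (.c (.a (.l 15) (.b (.c (.l 15) (.a (.l 15) (.b (.c (.l 15) (.a (.l 15) (.b (.c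
      (.l 15) (.a (.l 15) (.l 99))) (.l 2695)))) (.l 2695)))) (.l 2695))) (.a (.l 15) (.b (.c (.a
      (.l 15) (.b (.c (.a (.l 15) (.b (.c (.a (.l 15) (.l 99)) (.a (.l 15) (.l 99))) (.l 2695)))
      (.a (.l 15) (.b (.c (.a (.l 15) (.l 99)) (.a (.l 15) (.l 99))) (.l 2695)))) (.l 2695))) (.a
      (.l 15) (.b (.c (.a (.l 15) (.b (.c (.a (.l 15) (.l 99)) (.a (.l 15) (.l 99))) (.l 2695)))
      (.a (.l 15) (.b (.c (.a (.l 15) (.l 99)) (.a (.l 15) (.l 99))) (.l 2695)))) (.l 2695))))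
      (.l 2695)))) (.l 2695)))

theorem x2_t3a_c1_n_h41 : chk3 (onCell 0 1073741824 0 429496730 0 67108864 T2_t3a_c1_n) x2_t3a_c1_n_t41 169 107 222 = true := by decide +kernel

def x2_t3a_c1_n_t42 : T :=
  (.l 15)

theorem x2_t3a_c1_n_h42 : chk3 (onCell 0 1073741824 0 429496730 0 67108864 T2_t3a_c1_n) x2_t3a_c1_n_t42 338 106 223 = true := by decide +kernel

def x2_t3a_c1_n_t43 : T :=
  (.b (.l 2759) (.a (.l 15) (.c (.b (.l 2759) (.a (.l 15) (.c (.b (.l 2759) (.a (.l 15) (.c (.b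
      (.l 2695) (.a (.l 15) (.l 99))) (.b (.l 2695) (.a (.l 15) (.l 99)))))) (.b (.l 2695) (.a
      (.l 15) (.c (.b (.l 2695) (.a (.l 15) (.l 99))) (.b (.l 2695) (.a (.l 15) (.l 99)))))))))
      (.b (.l 2759) (.a (.l 15) (.c (.b (.l 2695) (.a (.l 15) (.c (.b (.l 2695) (.a (.l 15) (.l
      99))) (.b (.l 2695) (.a (.l 15) (.l 99)))))) (.b (.l 2695) (.a (.l 15) (.c (.b (.l 2695)
      (.a (.l 15) (.l 99))) (.b (.l 2695) (.a (.l 15) (.l 99))))))))))))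

theorem x2_t3a_c1_n_h43 : chk3 (onCell 0 1073741824 0 429496730 0 67108864 T2_t3a_c1_n) x2_t3a_c1_n_t43 339 106 446 = true := by decide +kernel

def x2_t3a_c1_n_t44 : T :=
  (.b (.l 2759) (.a (.l 15) (.c (.b (.l 2759) (.a (.l 15) (.c (.b (.l 2695) (.a (.l 15) (.c (.b
      (.l 2695) (.a (.l 15) (.l 99))) (.b (.l 2695) (.a (.l 15) (.l 99)))))) (.b (.l 2695) (.a
      (.l 15) (.c (.b (.l 2695) (.a (.l 15) (.l 99))) (.b (.l 2695) (.a (.l 15) (.l 99)))))))))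
      (.b (.l 2695) (.a (.l 15) (.c (.b (.l 2695) (.a (.l 15) (.c (.b (.l 2695) (.a (.l 15) (.l
      99))) (.b (.l 2695) (.a (.l 15) (.l 99)))))) (.b (.l 2695) (.a (.l 15) (.c (.b (.l 2695)
      (.a (.l 15) (.l 99))) (.b (.l 2695) (.a (.l 15) (.l 99))))))))))))

theorem x2_t3a_c1_n_h44 : chk3 (onCell 0 1073741824 0 429496730 0 67108864 T2_t3a_c1_n) x2_t3a_c1_n_t44 339 106 447 = true := by decide +kernel

def x2_t3a_c1_n_t45 : T :=
  (.l 15)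

theorem x2_t3a_c1_n_h45 : chk3 (onCell 0 1073741824 0 429496730 0 67108864 T2_t3a_c1_n) x2_t3a_c1_n_t45 338 107 223 = true := by decide +kernel

def x2_t3a_c1_n_t46 : T :=
  (.c (.a (.l 15) (.b (.c (.a (.l 15) (.b (.c (.a (.l 15) (.b (.c (.a (.l 15) (.l 99)) (.a (.l
      15) (.l 99))) (.l 2695))) (.a (.l 15) (.b (.c (.a (.l 15) (.l 99)) (.a (.l 15) (.l 99)))
      (.l 2695)))) (.l 2695))) (.a (.l 15) (.b (.c (.a (.l 15) (.b (.c (.a (.l 15) (.l 99)) (.a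
      (.l 15) (.l 99))) (.l 2695))) (.a (.l 15) (.b (.c (.a (.l 15) (.l 99)) (.a (.l 15) (.l
      99))) (.l 2695)))) (.l 2695)))) (.l 2695))) (.a (.l 15) (.b (.c (.a (.l 15) (.b (.c (.a (.l
      15) (.b (.c (.a (.l 15) (.l 99)) (.a (.l 15) (.l 99))) (.l 2695))) (.a (.l 15) (.b (.c (.a
      (.l 15) (.l 99)) (.a (.l 15) (.l 99))) (.l 2695)))) (.l 2695))) (.a (.l 15) (.b (.c (.a (.l
      15) (.b (.c (.a (.l 15) (.l 99)) (.a (.l 15) (.l 99))) (.l 2695))) (.a (.l 15) (.b (.c (.a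
      (.l 15) (.l 99)) (.a (.l 15) (.l 99))) (.l 2695)))) (.l 2695)))) (.l 2695))))

theorem x2_t3a_c1_n_h46 : chk3 (onCell 0 1073741824 0 429496730 0 67108864 T2_t3a_c1_n) x2_t3a_c1_n_t46 339 214 223 = true := by decide +kernel

def x2_t3a_c1_n_t47 : T :=
  (.l 2695)

theorem x2_t3a_c1_n_h47 : chk3 (onCell 0 1073741824 0 429496730 0 67108864 T2_t3a_c1_n) x2_t3a_c1_n_t47 339 215 223 = true := by decide +kernel

def x2_t3a_c1_n_t48 : T :=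
  (.c (.b (.l 99) (.a (.c (.b (.a (.c (.b (.l 99) (.a (.c (.b (.l 99) (.a (.l 99) (.l 67))) (.b
      (.l 99) (.l 99))) (.l 67))) (.b (.l 99) (.a (.l 99) (.l 67)))) (.l 67)) (.a (.b (.c (.a (.c
      (.b (.l 99) (.l 99)) (.b (.l 99) (.l 99))) (.l 67)) (.a (.b (.l 99) (.l 99)) (.l 67))) (.l
      99)) (.l 67))) (.b (.a (.c (.b (.l 99) (.a (.l 99) (.l 67))) (.b (.l 99) (.a (.l 99) (.l
      67)))) (.l 67)) (.a (.b (.c (.a (.l 99) (.l 67)) (.a (.l 99) (.l 67))) (.l 99)) (.l 67))))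
      (.l 67))) (.b (.l 99) (.a (.c (.b (.a (.c (.b (.l 99) (.l 99)) (.b (.l 99) (.l 99))) (.l
      67)) (.a (.b (.c (.a (.l 99) (.l 67)) (.a (.l 99) (.l 67))) (.l 99)) (.l 67))) (.b (.a (.c
      (.b (.l 67) (.l 99)) (.l 99)) (.l 67)) (.a (.b (.c (.a (.l 99) (.l 67)) (.l 99)) (.l 99))
      (.l 67)))) (.l 67))))

theorem x2_t3a_c1_n_h48 : chk3 (onCell 0 1073741824 0 429496730 0 67108864 T2_t3a_c1_n) x2_t3a_c1_n_t48 85 26 55 = true := by decide +kernel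

def x2_t3a_c1_n_t49 : T :=
  (.c (.c (.c (.a (.l 15) (.b (.l 4039) (.l 4039))) (.a (.l 15) (.b (.l 3911) (.l 3911)))) (.c
      (.a (.l 15) (.b (.l 3783) (.l 3783))) (.a (.l 15) (.b (.l 3655) (.c (.l 71) (.a (.l 3591)
      (.l 67))))))) (.c (.c (.a (.l 15) (.b (.l 3527) (.c (.a (.l 3591) (.l 67)) (.a (.l 3463)
      (.l 67))))) (.a (.l 15) (.b (.l 3399) (.c (.a (.l 3463) (.l 67)) (.a (.l 3335) (.l 67))))))
      (.c (.a (.l 15) (.b (.l 3399) (.c (.a (.l 3335) (.l 67)) (.a (.l 3335) (.l 67))))) (.a (.l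
      15) (.b (.l 3271) (.c (.a (.l 3207) (.l 67)) (.a (.l 3207) (.l 67))))))))

theorem x2_t3a_c1_n_h49 : chk3 (onCell 0 1073741824 0 429496730 0 67108864 T2_t3a_c1_n) x2_t3a_c1_n_t49 42 27 12 = true := by decide +kernel

def x2_t3a_c1_n_t50 : T :=
  (.c (.c (.a (.l 15) (.b (.l 3143) (.c (.c (.a (.l 3207) (.l 67)) (.a (.l 3079) (.l 67))) (.a
      (.l 3079) (.l 67))))) (.a (.l 15) (.b (.l 3015) (.c (.a (.l 2951) (.l 67)) (.a (.l 2951)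
      (.l 67)))))) (.c (.a (.l 15) (.b (.l 2887) (.c (.a (.l 2823) (.l 67)) (.a (.l 2823) (.l
      67))))) (.a (.b (.c (.l 15) (.a (.l 15) (.l 2695))) (.l 2759)) (.b (.l 2759) (.c (.a (.l
      99) (.l 67)) (.a (.l 99) (.l 67)))))))

theorem x2_t3a_c1_n_h50 : chk3 (onCell 0 1073741824 0 429496730 0 67108864 T2_t3a_c1_n) x2_t3a_c1_n_t50 42 27 13 = true := by decide +kernel

def x2_t3a_c1_n_t51 : T :=
  (.b (.c (.c (.l 3651) (.l 3267)) (.c (.c (.l 3139) (.l 3011)) (.c (.a (.l 2883) (.l 2883)) (.a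
      (.l 2755) (.l 2755))))) (.c (.c (.c (.c (.b (.l 4035) (.l 4035)) (.b (.l 3907) (.l 3907)))
      (.c (.b (.l 3779) (.l 3779)) (.b (.l 3651) (.l 3651)))) (.c (.c (.b (.l 3523) (.l 3523))
      (.b (.l 3395) (.l 3395))) (.b (.l 3267) (.c (.l 3395) (.l 3267))))) (.c (.c (.b (.l 3139)
      (.a (.l 3139) (.l 3139))) (.b (.l 3011) (.a (.l 3011) (.l 3011)))) (.c (.b (.l 2883) (.a
      (.l 2883) (.l 2883))) (.b (.l 2755) (.a (.l 2755) (.l 2755)))))))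

theorem x2_t3a_c1_n_h51 : chk3 (onCell 0 1073741824 0 429496730 0 67108864 T2_t3a_c1_n) x2_t3a_c1_n_t51 43 13 6 = true := by decide +kernel

def x2_t3a_c1_n_t52 : T :=
  (.l 2631)

theorem x2_t3a_c1_n_h52 : chk3 (onCell 0 1073741824 0 429496730 0 67108864 T2_t3a_c1_n) x2_t3a_c1_n_t52 84 52 112 = true := by decide +kernel

def x2_t3a_c1_n_t53 : T :=
  (.l 15)

theorem x2_t3a_c1_n_h53 : chk3 (onCell 0 1073741824 0 429496730 0 67108864 T2_t3a_c1_n) x2_t3a_c1_n_t53 168 53 112 = true := by decide +kernel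

def x2_t3a_c1_n_t54 : T :=
  (.l 15)

theorem x2_t3a_c1_n_h54 : chk3 (onCell 0 1073741824 0 429496730 0 67108864 T2_t3a_c1_n) x2_t3a_c1_n_t54 338 106 224 = true := by decide +kernel

end Pool.Agent.Strip051.LC.E1.Ch
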