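import Pool.Agent.Strip051.LC.E1.Ch.Te

/-! # Rests near the full period: certificate P_x2_t3a_c1_n_7 -/

set_option maxRecDepth 100000

namespace Pool.Agent.Strip051.LC.E1.Ch

open Pool.Agent.Strip051.PB
open Pool.Agent.Strip051.LC.E0.Ch (onCell Tree)

def x2_t3a_c1_n_t323 : T :=
  (.a (.l 15) (.b (.c (.l 71) (.b (.l 2567) (.l 71))) (.c (.a (.l 15) (.b (.l 71) (.c (.a (.l 15)
      (.b (.c (.a (.l 15) (.l 99)) (.a (.l 15) (.l 99))) (.c (.a (.l 15) (.l 99)) (.a (.l 15) (.l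
      99))))) (.a (.l 15) (.b (.c (.a (.l 15) (.l 99)) (.a (.l 15) (.l 99))) (.c (.a (.l 15) (.l
      99)) (.a (.l 15) (.l 99)))))))) (.a (.l 15) (.b (.c (.b (.l 2567) (.a (.l 15) (.l 2567)))
      (.b (.l 2567) (.a (.l 15) (.l 2567)))) (.c (.a (.l 15) (.b (.c (.a (.l 15) (.l 99)) (.a (.l
      15) (.l 99))) (.c (.a (.l 15) (.l 99)) (.a (.l 15) (.l 99))))) (.a (.l 15) (.b (.c (.a (.l
      15) (.l 99)) (.a (.l 15) (.l 99))) (.c (.a (.l 15) (.l 99)) (.a (.l 15) (.l 99)))))))))))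

theorem x2_t3a_c1_n_h323 : chk3 (onCell 0 1073741824 0 429496730 0 67108864 T2_t3a_c1_n) x2_t3a_c1_n_t323 169 112 228 = true := by decide +kernel

def x2_t3a_c1_n_t324 : T :=
  (.a (.l 15) (.b (.c (.b (.l 2567) (.a (.l 15) (.l 2567))) (.b (.l 2567) (.a (.l 15) (.l
      2567)))) (.c (.a (.l 15) (.b (.c (.b (.l 2567) (.a (.l 15) (.l 2567))) (.b (.l 2567) (.a
      (.l 15) (.l 2567)))) (.c (.a (.l 15) (.b (.c (.a (.l 15) (.l 99)) (.a (.l 15) (.l 99))) (.c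
      (.a (.l 15) (.l 99)) (.a (.l 15) (.l 99))))) (.a (.l 15) (.b (.c (.a (.l 15) (.l 99)) (.a
      (.l 15) (.l 99))) (.c (.a (.l 15) (.l 99)) (.a (.l 15) (.l 99)))))))) (.a (.l 15) (.b (.c
      (.b (.l 2567) (.a (.l 15) (.l 2567))) (.b (.l 2567) (.a (.l 15) (.l 2567)))) (.c (.a (.l
      15) (.b (.c (.a (.l 15) (.l 99)) (.a (.l 15) (.l 99))) (.c (.a (.l 15) (.l 99)) (.a (.l 15)
      (.l 99))))) (.a (.l 15) (.b (.c (.a (.l 15) (.l 99)) (.a (.l 15) (.l 99))) (.c (.a (.l 15)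
      (.l 99)) (.a (.l 15) (.l 99)))))))))))

theorem x2_t3a_c1_n_h324 : chk3 (onCell 0 1073741824 0 429496730 0 67108864 T2_t3a_c1_n) x2_t3a_c1_n_t324 169 112 229 = true := by decide +kernel

def x2_t3a_c1_n_t325 : T :=
  (.c (.a (.l 15) (.b (.c (.a (.l 15) (.b (.c (.a (.l 15) (.l 2567)) (.a (.l 15) (.l 2567))) (.l
      2567))) (.a (.l 15) (.b (.c (.a (.l 15) (.l 2567)) (.a (.l 15) (.l 2567))) (.l 2567)))) (.l
      2567))) (.a (.l 15) (.b (.c (.a (.l 15) (.b (.c (.a (.l 15) (.l 2567)) (.a (.l 15) (.l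
      2567))) (.l 2567))) (.a (.l 15) (.b (.c (.a (.l 15) (.l 2567)) (.a (.l 15) (.l 2567))) (.l
      2567)))) (.l 2567))))

theorem x2_t3a_c1_n_h325 : chk3 (onCell 0 1073741824 0 429496730 0 67108864 T2_t3a_c1_n) x2_t3a_c1_n_t325 169 113 114 = true := by decide +kernel

def x2_t3a_c1_n_t326 : T :=
  (.l 15)

theorem x2_t3a_c1_n_h326 : chk3 (onCell 0 1073741824 0 429496730 0 67108864 T2_t3a_c1_n) x2_t3a_c1_n_t326 168 56 115 = true := by decide +kernel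

def x2_t3a_c1_n_t327 : T :=
  (.a (.l 15) (.b (.c (.b (.l 2439) (.a (.l 15) (.l 2439))) (.b (.l 2439) (.a (.l 15) (.l
      2439)))) (.c (.a (.l 15) (.b (.c (.b (.l 2567) (.a (.l 15) (.l 2567))) (.b (.l 2439) (.a
      (.l 15) (.l 2439)))) (.c (.a (.l 15) (.b (.c (.a (.l 15) (.l 99)) (.a (.l 15) (.l 99))) (.c
      (.a (.l 15) (.l 99)) (.a (.l 15) (.l 99))))) (.a (.l 15) (.b (.c (.a (.l 15) (.l 99)) (.a
      (.l 15) (.l 99))) (.c (.a (.l 15) (.l 99)) (.a (.l 15) (.l 99)))))))) (.a (.l 15) (.b (.c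
      (.b (.l 2439) (.a (.l 15) (.l 2439))) (.b (.l 2439) (.a (.l 15) (.l 2439)))) (.c (.a (.l
      15) (.b (.c (.a (.l 15) (.l 99)) (.a (.l 15) (.l 99))) (.c (.a (.l 15) (.l 99)) (.a (.l 15)
      (.l 99))))) (.a (.l 15) (.b (.c (.a (.l 15) (.l 99)) (.a (.l 15) (.l 99))) (.c (.a (.l 15)
      (.l 99)) (.a (.l 15) (.l 99)))))))))))

theorem x2_t3a_c1_n_h327 : chk3 (onCell 0 1073741824 0 429496730 0 67108864 T2_t3a_c1_n) x2_t3a_c1_n_t327 169 112 230 = true := by decide +kernel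

def x2_t3a_c1_n_t328 : T :=
  (.l 15)

theorem x2_t3a_c1_n_h328 : chk3 (onCell 0 1073741824 0 429496730 0 67108864 T2_t3a_c1_n) x2_t3a_c1_n_t328 338 112 231 = true := by decide +kernel

def x2_t3a_c1_n_t329 : T :=
  (.c (.b (.l 2439) (.a (.l 15) (.l 2439))) (.b (.l 2439) (.a (.l 15) (.l 2439))))

theorem x2_t3a_c1_n_h329 : chk3 (onCell 0 1073741824 0 429496730 0 67108864 T2_t3a_c1_n) x2_t3a_c1_n_t329 339 224 231 = true := by decide +kernel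

def x2_t3a_c1_n_t330 : T :=
  (.a (.l 15) (.b (.c (.b (.l 2439) (.a (.l 15) (.l 2439))) (.b (.l 2439) (.a (.l 15) (.l
      2439)))) (.c (.a (.l 15) (.b (.c (.a (.l 15) (.l 99)) (.a (.b (.l 2439) (.c (.l 15) (.b (.a
      (.l 15) (.l 99)) (.a (.l 15) (.l 99))))) (.l 99))) (.c (.a (.l 15) (.l 99)) (.a (.b (.c (.l
      15) (.a (.l 15) (.l 99))) (.l 2439)) (.l 99))))) (.a (.l 15) (.b (.c (.a (.b (.l 2439) (.c
      (.b (.a (.l 15) (.l 99)) (.a (.l 15) (.l 99))) (.b (.a (.l 15) (.l 99)) (.a (.l 15) (.l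
      99))))) (.l 99)) (.a (.b (.l 2439) (.c (.b (.a (.l 15) (.l 99)) (.a (.l 15) (.l 99))) (.b
      (.a (.l 15) (.l 99)) (.a (.l 15) (.l 99))))) (.l 99))) (.c (.a (.b (.c (.a (.l 15) (.l 99))
      (.a (.l 15) (.l 99))) (.l 2439)) (.l 99)) (.a (.b (.c (.a (.l 15) (.l 99)) (.a (.l 15) (.l
      99))) (.l 2439)) (.l 99))))))))

theorem x2_t3a_c1_n_h330 : chk3 (onCell 0 1073741824 0 429496730 0 67108864 T2_t3a_c1_n) x2_t3a_c1_n_t330 339 225 462 = true := by decide +kernel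

def x2_t3a_c1_n_t331 : T :=
  (.l 15)

theorem x2_t3a_c1_n_h331 : chk3 (onCell 0 1073741824 0 429496730 0 67108864 T2_t3a_c1_n) x2_t3a_c1_n_t331 678 225 463 = true := by decide +kernel

def x2_t3a_c1_n_t332 : T :=
  (.c (.b (.l 2439) (.a (.l 15) (.l 2439))) (.b (.l 2439) (.a (.l 15) (.l 2439))))

theorem x2_t3a_c1_n_h332 : chk3 (onCell 0 1073741824 0 429496730 0 67108864 T2_t3a_c1_n) x2_t3a_c1_n_t332 679 450 463 = true := by decide +kernel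

def x2_t3a_c1_n_t333 : T :=
  (.a (.l 15) (.b (.c (.a (.b (.l 2439) (.c (.b (.a (.l 15) (.l 99)) (.a (.l 15) (.l 99))) (.b
      (.a (.l 15) (.l 99)) (.a (.l 15) (.l 99))))) (.l 99)) (.a (.b (.l 2439) (.c (.b (.a (.l 15)
      (.l 99)) (.a (.l 15) (.l 99))) (.b (.a (.l 15) (.l 99)) (.a (.l 15) (.l 99))))) (.l 67)))
      (.c (.a (.b (.c (.a (.l 15) (.l 99)) (.a (.l 15) (.l 99))) (.l 2439)) (.l 99)) (.a (.b (.c
      (.a (.l 15) (.l 99)) (.a (.l 15) (.l 99))) (.l 2439)) (.l 99)))))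

theorem x2_t3a_c1_n_h333 : chk3 (onCell 0 1073741824 0 429496730 0 67108864 T2_t3a_c1_n) x2_t3a_c1_n_t333 679 451 926 = true := by decide +kernel

def x2_t3a_c1_n_t334 : T :=
  (.a (.l 15) (.b (.c (.a (.b (.l 2439) (.c (.b (.a (.l 15) (.l 99)) (.a (.l 15) (.l 99))) (.b
      (.a (.l 15) (.l 99)) (.a (.l 15) (.l 99))))) (.l 67)) (.a (.b (.l 2439) (.c (.b (.a (.l 15)
      (.l 99)) (.a (.l 15) (.l 99))) (.b (.a (.l 15) (.l 99)) (.a (.l 15) (.l 99))))) (.l 67)))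
      (.c (.a (.b (.c (.a (.l 15) (.l 99)) (.a (.l 15) (.l 99))) (.l 2439)) (.l 99)) (.a (.b (.c
      (.a (.l 15) (.l 99)) (.a (.l 15) (.l 99))) (.l 2439)) (.l 99)))))

theorem x2_t3a_c1_n_h334 : chk3 (onCell 0 1073741824 0 429496730 0 67108864 T2_t3a_c1_n) x2_t3a_c1_n_t334 679 451 927 = true := by decide +kernel

def x2_t3a_c1_n_t335 : T :=
  (.c (.a (.l 15) (.b (.c (.a (.l 15) (.b (.c (.a (.l 15) (.l 2567)) (.a (.l 15) (.l 2439))) (.l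
      2439))) (.a (.l 15) (.b (.c (.a (.l 15) (.l 2439)) (.a (.l 15) (.l 2439))) (.l 2439)))) (.l
      2439))) (.a (.l 15) (.b (.c (.a (.l 15) (.b (.c (.a (.l 15) (.l 2439)) (.a (.l 15) (.l
      2439))) (.l 2439))) (.a (.l 15) (.b (.c (.a (.l 15) (.l 2439)) (.a (.l 15) (.l 2439))) (.l
      2439)))) (.l 2439))))

theorem x2_t3a_c1_n_h335 : chk3 (onCell 0 1073741824 0 429496730 0 67108864 T2_t3a_c1_n) x2_t3a_c1_n_t335 169 113 115 = true := by decide +kernel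

def x2_t3a_c1_n_t336 : T :=
  (.c (.a (.l 15) (.l 2567)) (.a (.l 15) (.l 2439)))

theorem x2_t3a_c1_n_h336 : chk3 (onCell 0 1073741824 0 429496730 0 67108864 T2_t3a_c1_n) x2_t3a_c1_n_t336 84 57 57 = true := by decide +kernel

def x2_t3a_c1_n_t337 : T :=
  (.b (.c (.a (.b (.c (.a (.b (.l 3) (.l 99)) (.l 67)) (.a (.b (.l 3) (.l 99)) (.l 67))) (.b (.l
      99) (.l 99))) (.l 67)) (.a (.b (.c (.a (.b (.l 3) (.l 99)) (.l 67)) (.a (.l 99) (.l 67)))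
      (.b (.l 99) (.l 67))) (.l 67))) (.b (.c (.a (.l 67) (.l 67)) (.a (.l 67) (.l 67))) (.l 67)))

theorem x2_t3a_c1_n_h337 : chk3 (onCell 0 1073741824 0 429496730 0 67108864 T2_t3a_c1_n) x2_t3a_c1_n_t337 85 28 57 = true := by decide +kernel

def x2_t3a_c1_n_t338 : T :=
  (.c (.b (.a (.l 2563) (.l 2563)) (.l 2627)) (.b (.a (.l 2435) (.l 2435)) (.l 2499)))

theorem x2_t3a_c1_n_h338 : chk3 (onCell 0 1073741824 0 429496730 0 67108864 T2_t3a_c1_n) x2_t3a_c1_n_t338 43 28 28 = true := by decide +kernel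

def x2_t3a_c1_n_t339 : T :=
  (.a (.l 2439) (.l 67))

theorem x2_t3a_c1_n_h339 : chk3 (onCell 0 1073741824 0 429496730 0 67108864 T2_t3a_c1_n) x2_t3a_c1_n_t339 21 29 28 = true := by decide +kernel

def x2_t3a_c1_n_t340 : T :=
  (.l 15)

theorem x2_t3a_c1_n_h340 : chk3 (onCell 0 1073741824 0 429496730 0 67108864 T2_t3a_c1_n) x2_t3a_c1_n_t340 168 56 116 = true := by decide +kernel

def x2_t3a_c1_n_t341 : T :=
  (.l 15)

theorem x2_t3a_c1_n_h341 : chk3 (onCell 0 1073741824 0 429496730 0 67108864 T2_t3a_c1_n) x2_t3a_c1_n_t341 338 112 232 = true := by decide +kernel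

def x2_t3a_c1_n_t342 : T :=
  (.c (.b (.l 2439) (.a (.l 15) (.l 2439))) (.b (.l 2439) (.a (.l 15) (.l 2439))))

theorem x2_t3a_c1_n_h342 : chk3 (onCell 0 1073741824 0 429496730 0 67108864 T2_t3a_c1_n) x2_t3a_c1_n_t342 339 224 232 = true := by decide +kernel

def x2_t3a_c1_n_t343 : T :=
  (.l 15)

theorem x2_t3a_c1_n_h343 : chk3 (onCell 0 1073741824 0 429496730 0 67108864 T2_t3a_c1_n) x2_t3a_c1_n_t343 678 225 464 = true := by decide +kernel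

def x2_t3a_c1_n_t344 : T :=
  (.c (.b (.l 2439) (.a (.l 15) (.l 2439))) (.b (.l 2439) (.a (.l 15) (.l 2439))))

theorem x2_t3a_c1_n_h344 : chk3 (onCell 0 1073741824 0 429496730 0 67108864 T2_t3a_c1_n) x2_t3a_c1_n_t344 679 450 464 = true := by decide +kernel

def x2_t3a_c1_n_t345 : T :=
  (.a (.l 15) (.b (.c (.a (.b (.l 2439) (.c (.b (.a (.l 15) (.l 99)) (.a (.l 15) (.l 99))) (.b
      (.a (.l 15) (.l 99)) (.a (.l 15) (.l 99))))) (.l 67)) (.a (.b (.l 2439) (.c (.b (.a (.l 15)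
      (.l 99)) (.a (.l 15) (.l 99))) (.b (.a (.l 15) (.l 99)) (.a (.l 15) (.l 99))))) (.l 67)))
      (.c (.a (.b (.c (.a (.l 15) (.l 99)) (.a (.l 15) (.l 99))) (.l 2439)) (.l 99)) (.a (.b (.c
      (.a (.l 15) (.l 99)) (.a (.l 15) (.l 99))) (.l 2439)) (.l 99)))))

theorem x2_t3a_c1_n_h345 : chk3 (onCell 0 1073741824 0 429496730 0 67108864 T2_t3a_c1_n) x2_t3a_c1_n_t345 679 451 928 = true := by decide +kernel

def x2_t3a_c1_n_t346 : T :=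
  (.a (.l 15) (.b (.c (.a (.b (.l 2439) (.c (.b (.a (.l 15) (.l 99)) (.a (.l 15) (.l 99))) (.b
      (.a (.l 15) (.l 99)) (.a (.l 15) (.l 99))))) (.l 67)) (.a (.b (.l 2439) (.c (.b (.a (.l 15)
      (.l 99)) (.a (.l 15) (.l 99))) (.b (.a (.l 15) (.l 99)) (.a (.l 15) (.l 99))))) (.l 67)))
      (.c (.a (.b (.c (.a (.l 15) (.l 99)) (.a (.l 15) (.l 99))) (.l 2439)) (.l 99)) (.a (.b (.c
      (.a (.l 15) (.l 99)) (.a (.l 15) (.l 99))) (.l 2439)) (.l 99)))))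

theorem x2_t3a_c1_n_h346 : chk3 (onCell 0 1073741824 0 429496730 0 67108864 T2_t3a_c1_n) x2_t3a_c1_n_t346 679 451 929 = true := by decide +kernel

def x2_t3a_c1_n_t347 : T :=
  (.l 15)

theorem x2_t3a_c1_n_h347 : chk3 (onCell 0 1073741824 0 429496730 0 67108864 T2_t3a_c1_n) x2_t3a_c1_n_t347 678 225 465 = true := by decide +kernel

def x2_t3a_c1_n_t348 : T :=
  (.c (.b (.l 2439) (.a (.l 15) (.l 2439))) (.b (.l 2439) (.a (.l 15) (.l 2439))))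

theorem x2_t3a_c1_n_h348 : chk3 (onCell 0 1073741824 0 429496730 0 67108864 T2_t3a_c1_n) x2_t3a_c1_n_t348 679 450 465 = true := by decide +kernel

def x2_t3a_c1_n_t349 : T :=
  (.a (.l 15) (.b (.c (.a (.b (.l 2439) (.c (.b (.a (.l 15) (.l 99)) (.a (.l 15) (.l 99))) (.b
      (.a (.l 15) (.l 99)) (.a (.l 15) (.l 99))))) (.l 67)) (.a (.b (.l 2439) (.c (.b (.a (.l 15)
      (.l 99)) (.a (.l 15) (.l 99))) (.b (.a (.l 15) (.l 99)) (.a (.l 15) (.l 99))))) (.l 67)))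
      (.c (.a (.b (.c (.a (.l 15) (.l 99)) (.a (.l 15) (.l 99))) (.l 2439)) (.l 99)) (.a (.b (.c
      (.a (.l 15) (.l 99)) (.a (.l 15) (.l 99))) (.l 2439)) (.l 99)))))

theorem x2_t3a_c1_n_h349 : chk3 (onCell 0 1073741824 0 429496730 0 67108864 T2_t3a_c1_n) x2_t3a_c1_n_t349 679 451 930 = true := by decide +kernel

def x2_t3a_c1_n_t350 : T :=
  (.a (.l 15) (.b (.c (.a (.b (.l 2439) (.c (.b (.l 2439) (.a (.l 15) (.l 99))) (.b (.l 2439) (.a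
      (.l 15) (.l 99))))) (.l 67)) (.a (.b (.l 2439) (.c (.b (.l 2439) (.a (.l 15) (.l 99))) (.b
      (.l 2439) (.a (.l 15) (.l 99))))) (.l 67))) (.c (.a (.b (.c (.a (.l 15) (.l 99)) (.a (.l
      15) (.l 99))) (.l 2439)) (.l 99)) (.a (.b (.c (.a (.l 15) (.l 99)) (.a (.l 15) (.l 99)))
      (.l 2439)) (.l 99)))))

theorem x2_t3a_c1_n_h350 : chk3 (onCell 0 1073741824 0 429496730 0 67108864 T2_t3a_c1_n) x2_t3a_c1_n_t350 679 451 931 = true := by decide +kernel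

def x2_t3a_c1_n_t351 : T :=
  (.l 15)

theorem x2_t3a_c1_n_h351 : chk3 (onCell 0 1073741824 0 429496730 0 67108864 T2_t3a_c1_n) x2_t3a_c1_n_t351 338 112 233 = true := by decide +kernel

def x2_t3a_c1_n_t352 : T :=
  (.c (.b (.l 2439) (.a (.l 15) (.l 2439))) (.b (.l 2439) (.a (.l 15) (.l 2439))))

theorem x2_t3a_c1_n_h352 : chk3 (onCell 0 1073741824 0 429496730 0 67108864 T2_t3a_c1_n) x2_t3a_c1_n_t352 339 224 233 = true := by decide +kernel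

def x2_t3a_c1_n_t353 : T :=
  (.l 15)

theorem x2_t3a_c1_n_h353 : chk3 (onCell 0 1073741824 0 429496730 0 67108864 T2_t3a_c1_n) x2_t3a_c1_n_t353 678 225 466 = true := by decide +kernel

def x2_t3a_c1_n_t354 : T :=
  (.c (.b (.l 2439) (.a (.l 15) (.l 2439))) (.b (.l 2439) (.a (.l 15) (.l 2439))))

theorem x2_t3a_c1_n_h354 : chk3 (onCell 0 1073741824 0 429496730 0 67108864 T2_t3a_c1_n) x2_t3a_c1_n_t354 679 450 466 = true := by decide +kernel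

def x2_t3a_c1_n_t355 : T :=
  (.c (.a (.l 15) (.b (.c (.a (.b (.l 2439) (.c (.b (.l 2439) (.a (.l 15) (.l 99))) (.b (.l 2439)
      (.a (.l 15) (.l 99))))) (.l 67)) (.a (.b (.l 2439) (.c (.b (.l 2439) (.a (.l 15) (.l 99)))
      (.b (.l 2439) (.a (.l 15) (.l 99))))) (.l 67))) (.c (.a (.b (.c (.a (.l 15) (.l 99)) (.a
      (.l 15) (.l 99))) (.l 2439)) (.l 99)) (.a (.b (.c (.a (.l 15) (.l 99)) (.a (.l 15) (.l
      99))) (.l 2439)) (.l 99))))) (.a (.l 15) (.b (.c (.a (.b (.l 2439) (.c (.b (.l 2439) (.a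
      (.l 15) (.l 99))) (.b (.l 99) (.a (.l 15) (.l 99))))) (.l 67)) (.a (.b (.l 99) (.c (.b (.l
      99) (.a (.l 15) (.l 99))) (.b (.l 99) (.a (.l 15) (.l 99))))) (.l 67))) (.c (.a (.b (.c (.a
      (.l 15) (.l 99)) (.a (.l 15) (.l 99))) (.l 2439)) (.l 99)) (.a (.b (.c (.a (.l 15) (.l 99))
      (.a (.l 15) (.l 99))) (.l 2439)) (.l 67))))))

theorem x2_t3a_c1_n_h355 : chk3 (onCell 0 1073741824 0 429496730 0 67108864 T2_t3a_c1_n) x2_t3a_c1_n_t355 679 451 466 = true := by decide +kernel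

def x2_t3a_c1_n_t356 : T :=
  (.a (.l 15) (.b (.c (.b (.l 2439) (.a (.l 15) (.l 99))) (.b (.l 2439) (.a (.l 15) (.l 99))))
      (.c (.a (.l 15) (.b (.c (.a (.b (.l 99) (.c (.b (.l 99) (.a (.l 15) (.l 99))) (.b (.l 99)
      (.a (.l 15) (.l 99))))) (.l 67)) (.a (.b (.l 99) (.c (.b (.l 99) (.a (.l 15) (.l 99))) (.l
      99))) (.l 67))) (.c (.a (.b (.c (.a (.l 15) (.l 99)) (.a (.l 15) (.l 99))) (.l 2439)) (.l
      67)) (.a (.b (.c (.a (.l 15) (.l 99)) (.a (.l 15) (.l 99))) (.l 2439)) (.l 67))))) (.a (.l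
      15) (.b (.c (.a (.l 99) (.l 67)) (.a (.l 99) (.l 67))) (.c (.a (.b (.c (.a (.l 15) (.l 99))
      (.a (.l 15) (.l 99))) (.l 2439)) (.l 67)) (.a (.b (.c (.a (.l 15) (.l 99)) (.a (.l 15) (.l
      99))) (.l 2439)) (.l 67))))))))

theorem x2_t3a_c1_n_h356 : chk3 (onCell 0 1073741824 0 429496730 0 67108864 T2_t3a_c1_n) x2_t3a_c1_n_t356 339 225 467 = true := by decide +kernel

def x2_t3a_c1_n_t357 : T :=
  (.c (.a (.l 15) (.b (.c (.a (.l 15) (.b (.c (.a (.l 15) (.l 2439)) (.a (.l 15) (.l 2439))) (.l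
      2439))) (.a (.l 15) (.b (.c (.a (.l 15) (.l 2439)) (.a (.l 15) (.l 2439))) (.l 2439)))) (.l
      2439))) (.a (.l 15) (.b (.c (.a (.l 15) (.b (.c (.a (.l 15) (.b (.b (.c (.l 2439) (.a (.l
      2439) (.l 3))) (.l 2439)) (.l 2439))) (.a (.l 15) (.b (.b (.c (.a (.l 2439) (.l 3)) (.a (.l
      2439) (.l 67))) (.l 2439)) (.l 2439)))) (.l 2439))) (.a (.l 15) (.b (.c (.a (.l 15) (.b (.b
      (.c (.a (.l 2439) (.l 67)) (.a (.l 2439) (.l 67))) (.l 2439)) (.l 2439))) (.a (.l 15) (.b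
      (.b (.c (.a (.l 2439) (.l 67)) (.a (.l 2439) (.l 67))) (.l 2439)) (.l 2439)))) (.l 2439))))
      (.l 2439))))

theorem x2_t3a_c1_n_h357 : chk3 (onCell 0 1073741824 0 429496730 0 67108864 T2_t3a_c1_n) x2_t3a_c1_n_t357 169 113 116 = true := by decide +kernel

def x2_t3a_c1_n_t358 : T :=
  (.l 15)

theorem x2_t3a_c1_n_h358 : chk3 (onCell 0 1073741824 0 429496730 0 67108864 T2_t3a_c1_n) x2_t3a_c1_n_t358 168 56 117 = true := by decide +kernel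

def x2_t3a_c1_n_t359 : T :=
  (.l 15)

theorem x2_t3a_c1_n_h359 : chk3 (onCell 0 1073741824 0 429496730 0 67108864 T2_t3a_c1_n) x2_t3a_c1_n_t359 338 112 234 = true := by decide +kernel

def x2_t3a_c1_n_t360 : T :=
  (.c (.b (.l 2439) (.a (.l 15) (.l 2439))) (.b (.l 2439) (.a (.l 15) (.l 2439))))

theorem x2_t3a_c1_n_h360 : chk3 (onCell 0 1073741824 0 429496730 0 67108864 T2_t3a_c1_n) x2_t3a_c1_n_t360 339 224 234 = true := by decide +kernel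

def x2_t3a_c1_n_t361 : T :=
  (.a (.l 15) (.b (.c (.b (.l 2439) (.a (.l 15) (.l 99))) (.b (.l 2439) (.a (.l 15) (.l 99))))
      (.c (.a (.l 15) (.b (.l 99) (.c (.a (.b (.c (.a (.l 15) (.l 99)) (.a (.l 15) (.l 99))) (.l
      2439)) (.l 67)) (.a (.b (.c (.a (.l 15) (.l 99)) (.a (.l 15) (.l 99))) (.b (.c (.l 2439)
      (.a (.l 15) (.l 99))) (.l 2439))) (.l 67))))) (.a (.l 15) (.b (.l 99) (.c (.a (.b (.c (.a
      (.l 15) (.l 99)) (.a (.l 15) (.l 99))) (.b (.c (.a (.l 15) (.l 99)) (.a (.l 15) (.l 99)))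
      (.l 2439))) (.l 67)) (.a (.b (.c (.a (.l 15) (.l 99)) (.a (.l 15) (.l 99))) (.b (.c (.a (.l
      15) (.l 99)) (.a (.l 15) (.l 99))) (.l 2439))) (.l 67))))))))

theorem x2_t3a_c1_n_h361 : chk3 (onCell 0 1073741824 0 429496730 0 67108864 T2_t3a_c1_n) x2_t3a_c1_n_t361 339 225 468 = true := by decide +kernel

def x2_t3a_c1_n_t362 : T :=
  (.a (.l 15) (.b (.c (.b (.l 2439) (.a (.l 15) (.l 99))) (.b (.l 2439) (.a (.l 15) (.l 99))))
      (.c (.a (.l 15) (.b (.l 99) (.c (.a (.b (.c (.a (.l 15) (.l 99)) (.a (.l 15) (.l 99))) (.b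
      (.c (.a (.l 15) (.l 99)) (.l 99)) (.l 99))) (.l 67)) (.a (.b (.c (.a (.l 15) (.l 99)) (.a
      (.l 15) (.l 99))) (.l 99)) (.l 67))))) (.a (.l 15) (.b (.l 99) (.c (.a (.b (.c (.a (.l 15)
      (.l 99)) (.a (.l 15) (.l 99))) (.l 99)) (.l 67)) (.a (.b (.c (.a (.l 15) (.l 99)) (.a (.l
      15) (.l 99))) (.l 99)) (.l 67))))))))

theorem x2_t3a_c1_n_h362 : chk3 (onCell 0 1073741824 0 429496730 0 67108864 T2_t3a_c1_n) x2_t3a_c1_n_t362 339 225 469 = true := by decide +kernel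

def x2_t3a_c1_n_t363 : T :=
  (.a (.l 15) (.b (.c (.b (.l 2439) (.a (.l 15) (.l 2439))) (.b (.l 2311) (.a (.l 15) (.l
      2311)))) (.c (.a (.l 15) (.b (.c (.b (.l 2439) (.a (.l 15) (.l 99))) (.b (.l 2439) (.a (.l
      15) (.l 99)))) (.c (.a (.l 15) (.b (.l 99) (.c (.a (.b (.c (.a (.l 15) (.l 99)) (.a (.l 15)
      (.l 99))) (.l 99)) (.l 67)) (.a (.b (.c (.a (.l 15) (.l 99)) (.a (.l 15) (.l 99))) (.l 99))
      (.l 67))))) (.a (.l 15) (.b (.l 99) (.c (.a (.b (.l 99) (.l 99)) (.l 67)) (.a (.b (.l 99)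
      (.l 99)) (.l 67)))))))) (.a (.l 15) (.b (.c (.b (.l 2439) (.a (.l 15) (.l 99))) (.b (.l
      2311) (.a (.l 15) (.l 99)))) (.c (.a (.l 15) (.b (.l 99) (.c (.a (.b (.l 99) (.l 99)) (.l
      67)) (.a (.b (.l 99) (.l 99)) (.l 67))))) (.a (.l 15) (.b (.l 99) (.c (.a (.b (.l 99) (.l
      99)) (.l 67)) (.a (.b (.l 99) (.l 99)) (.l 67)))))))))))

theorem x2_t3a_c1_n_h363 : chk3 (onCell 0 1073741824 0 429496730 0 67108864 T2_t3a_c1_n) x2_t3a_c1_n_t363 169 112 235 = true := by decide +kernel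

def x2_t3a_c1_n_t364 : T :=
  (.c (.a (.l 15) (.b (.c (.a (.l 15) (.b (.c (.a (.l 15) (.b (.b (.c (.a (.l 2439) (.l 67)) (.a
      (.l 2439) (.l 67))) (.l 2439)) (.l 2439))) (.a (.l 15) (.b (.b (.c (.a (.l 2439) (.l 67))
      (.a (.l 2439) (.l 67))) (.l 2439)) (.l 2439)))) (.l 2439))) (.a (.l 15) (.b (.c (.a (.l 15)
      (.b (.b (.c (.a (.l 99) (.l 67)) (.a (.l 99) (.l 67))) (.l 99)) (.l 99))) (.a (.l 15) (.b
      (.b (.l 99) (.l 99)) (.l 99)))) (.l 2439)))) (.l 2439))) (.a (.l 15) (.b (.c (.a (.l 15)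
      (.b (.c (.a (.l 15) (.l 99)) (.a (.l 15) (.l 99))) (.l 2439))) (.a (.l 15) (.b (.c (.a (.l
      15) (.l 99)) (.a (.l 15) (.l 99))) (.l 2311)))) (.l 2311))))

theorem x2_t3a_c1_n_h364 : chk3 (onCell 0 1073741824 0 429496730 0 67108864 T2_t3a_c1_n) x2_t3a_c1_n_t364 169 113 117 = true := by decide +kernel

def x2_t3a_c1_n_t365 : T :=
  (.c (.a (.l 15) (.l 2439)) (.a (.l 15) (.l 2311)))

theorem x2_t3a_c1_n_h365 : chk3 (onCell 0 1073741824 0 429496730 0 67108864 T2_t3a_c1_n) x2_t3a_c1_n_t365 84 57 58 = true := by decide +kernel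

def x2_t3a_c1_n_t366 : T :=
  (.b (.c (.a (.b (.c (.a (.l 99) (.l 67)) (.a (.l 99) (.l 67))) (.b (.l 99) (.l 67))) (.l 67))
      (.a (.b (.c (.a (.l 67) (.l 67)) (.a (.l 67) (.l 67))) (.b (.l 67) (.l 67))) (.l 67))) (.b
      (.c (.a (.l 67) (.l 67)) (.a (.l 67) (.l 67))) (.l 67)))

theorem x2_t3a_c1_n_h366 : chk3 (onCell 0 1073741824 0 429496730 0 67108864 T2_t3a_c1_n) x2_t3a_c1_n_t366 85 28 58 = true := by decide +kernel

def x2_t3a_c1_n_t367 : T :=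
  (.l 15)

theorem x2_t3a_c1_n_h367 : chk3 (onCell 0 1073741824 0 429496730 0 67108864 T2_t3a_c1_n) x2_t3a_c1_n_t367 168 56 118 = true := by decide +kernel

def x2_t3a_c1_n_t368 : T :=
  (.a (.l 15) (.b (.c (.b (.l 2311) (.a (.l 15) (.l 2311))) (.b (.l 2311) (.a (.l 15) (.l
      2311)))) (.c (.a (.l 15) (.b (.c (.b (.l 2311) (.a (.l 15) (.l 99))) (.b (.l 2311) (.a (.l
      15) (.l 99)))) (.c (.a (.l 15) (.b (.l 99) (.c (.a (.b (.l 99) (.l 99)) (.l 67)) (.a (.l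
      99) (.l 67))))) (.a (.l 15) (.b (.l 99) (.c (.a (.l 99) (.l 67)) (.a (.l 99) (.l 67))))))))
      (.a (.l 15) (.b (.c (.b (.l 2311) (.a (.l 15) (.l 99))) (.b (.l 2311) (.a (.l 15) (.l
      99)))) (.c (.a (.l 15) (.b (.l 99) (.c (.a (.l 99) (.l 67)) (.a (.l 99) (.l 67))))) (.a (.l
      15) (.b (.l 99) (.l 99)))))))))

theorem x2_t3a_c1_n_h368 : chk3 (onCell 0 1073741824 0 429496730 0 67108864 T2_t3a_c1_n) x2_t3a_c1_n_t368 169 112 236 = true := by decide +kernel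

def x2_t3a_c1_n_t369 : T :=
  (.a (.l 15) (.b (.c (.b (.l 2311) (.a (.l 15) (.l 2311))) (.b (.l 2311) (.a (.l 15) (.l
      2311)))) (.c (.a (.l 15) (.b (.c (.b (.l 2311) (.a (.l 15) (.l 99))) (.l 2311)) (.c (.a (.l
      15) (.b (.l 99) (.l 99))) (.a (.l 15) (.b (.l 99) (.l 99)))))) (.a (.l 15) (.b (.l 2311)
      (.c (.a (.l 15) (.b (.l 99) (.l 99))) (.a (.l 15) (.l 99))))))))

theorem x2_t3a_c1_n_h369 : chk3 (onCell 0 1073741824 0 429496730 0 67108864 T2_t3a_c1_n) x2_t3a_c1_n_t369 169 112 237 = true := by decide +kernel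

def x2_t3a_c1_n_t370 : T :=
  (.c (.a (.l 15) (.b (.c (.a (.l 15) (.b (.c (.a (.l 15) (.l 99)) (.a (.l 15) (.l 99))) (.l
      2311))) (.a (.l 15) (.b (.c (.a (.l 15) (.l 99)) (.a (.l 15) (.l 99))) (.l 2311)))) (.l
      2311))) (.a (.l 15) (.b (.c (.a (.l 15) (.b (.c (.a (.l 15) (.l 99)) (.a (.l 15) (.l 99)))
      (.l 2311))) (.a (.l 15) (.b (.c (.a (.l 15) (.l 99)) (.a (.l 15) (.l 99))) (.l 2311)))) (.l
      2311))))

theorem x2_t3a_c1_n_h370 : chk3 (onCell 0 1073741824 0 429496730 0 67108864 T2_t3a_c1_n) x2_t3a_c1_n_t370 169 113 118 = true := by decide +kernel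

def x2_t3a_c1_n_t371 : T :=
  (.l 15)

theorem x2_t3a_c1_n_h371 : chk3 (onCell 0 1073741824 0 429496730 0 67108864 T2_t3a_c1_n) x2_t3a_c1_n_t371 168 56 119 = true := by decide +kernel

def x2_t3a_c1_n_t372 : T :=
  (.c (.a (.l 15) (.b (.c (.b (.l 2311) (.a (.l 15) (.l 2311))) (.b (.l 2311) (.a (.l 15) (.l
      2311)))) (.c (.a (.l 15) (.b (.l 2311) (.c (.a (.l 15) (.l 99)) (.a (.l 15) (.l 99))))) (.a
      (.l 15) (.b (.l 2311) (.c (.a (.l 15) (.l 99)) (.a (.l 15) (.l 99)))))))) (.a (.l 15) (.b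
      (.c (.b (.l 2311) (.a (.l 15) (.l 2311))) (.b (.l 2311) (.a (.l 15) (.l 2311)))) (.c (.a
      (.l 15) (.b (.l 2311) (.c (.a (.l 15) (.l 99)) (.a (.l 15) (.l 99))))) (.a (.l 15) (.b (.l
      2311) (.c (.a (.l 15) (.l 99)) (.a (.b (.c (.l 15) (.b (.a (.l 15) (.l 2311)) (.a (.l 15)
      (.c (.b (.l 2311) (.a (.l 15) (.l 99))) (.b (.l 2311) (.a (.l 15) (.l 99))))))) (.c (.l 15)
      (.a (.l 15) (.b (.c (.a (.l 15) (.l 99)) (.a (.l 15) (.l 99))) (.c (.a (.l 15) (.l 99)) (.a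
      (.l 15) (.l 99))))))) (.l 99)))))))))

theorem x2_t3a_c1_n_h372 : chk3 (onCell 0 1073741824 0 429496730 0 67108864 T2_t3a_c1_n) x2_t3a_c1_n_t372 169 112 119 = true := by decide +kernel

end Pool.Agent.Strip051.LC.E1.Ch
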