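import Pool.Agent.Strip051.LC.E1.Ch.Te

/-! # Rests near the full period: certificates P11 -/

set_option maxRecDepth 100000

namespace Pool.Agent.Strip051.LC.E1.Ch

open Pool.Agent.Strip051.PB
open Pool.Agent.Strip051.LC.E0.Ch (onCell Tree)

def x2_t3b_c3_n_t0 : T :=
  (.a (.l 15) (.c (.b (.l 4039) (.a (.l 4039) (.l 4039))) (.b (.a (.l 1991) (.l 1991)) (.a (.c
      (.l 2759) (.l 1991)) (.c (.a (.l 2759) (.l 2755)) (.a (.l 1991) (.l 1987)))))))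

theorem x2_t3b_c3_n_h0 : chk3 (onCell 0 1073741824 0 429496730 0 67108864 T2_t3b_c3_n) x2_t3b_c3_n_t0 2 2 1 = true := by decide +kernel

def x2_t3b_c3_n_t1 : T :=
  (.l 15)

theorem x2_t3b_c3_n_h1 : chk3 (onCell 0 1073741824 0 429496730 0 67108864 T2_t3b_c3_n) x2_t3b_c3_n_t1 4 3 1 = true := by decide +kernel

def x2_t3b_c3_n_t2 : T :=
  (.b (.a (.c (.l 8135) (.b (.l 4039) (.l 4039))) (.c (.l 8131) (.l 4039))) (.a (.c (.l 8135) (.a
      (.l 15) (.b (.l 4039) (.l 4039)))) (.c (.l 8131) (.a (.l 4035) (.l 4035)))))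

theorem x2_t3b_c3_n_h2 : chk3 (onCell 0 1073741824 0 429496730 0 67108864 T2_t3b_c3_n) x2_t3b_c3_n_t2 5 3 2 = true := by decide +kernel

def x2_t3b_c3_n_t3 : T :=
  (.a (.l 15) (.b (.l 2759) (.c (.l 3271) (.c (.l 3015) (.b (.l 2759) (.l 71))))))

theorem x2_t3b_c3_n_h3 : chk3 (onCell 0 1073741824 0 429496730 0 67108864 T2_t3b_c3_n) x2_t3b_c3_n_t3 10 6 6 = true := by decide +kernel

def x2_t3b_c3_n_t4 : T :=
  (.c (.c (.c (.l 2631) (.b (.l 2503) (.l 2503))) (.c (.b (.l 2375) (.l 2375)) (.b (.l 2375) (.l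
      2375)))) (.c (.b (.l 2247) (.c (.l 71) (.a (.l 15) (.l 2247)))) (.b (.l 1991) (.c (.a (.l
      15) (.l 2119)) (.a (.l 15) (.l 1991))))))

theorem x2_t3b_c3_n_h4 : chk3 (onCell 0 1073741824 0 429496730 0 67108864 T2_t3b_c3_n) x2_t3b_c3_n_t4 10 12 7 = true := by decide +kernel

def x2_t3b_c3_n_t5 : T :=
  (.c (.c (.a (.l 15) (.c (.b (.l 2631) (.l 71)) (.b (.l 2631) (.a (.l 71) (.l 2627))))) (.a (.l
      15) (.c (.b (.l 2631) (.a (.c (.a (.l 2631) (.l 2631)) (.a (.l 2631) (.l 2631))) (.l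
      2627))) (.b (.l 2503) (.a (.b (.l 2503) (.l 2503)) (.l 2499)))))) (.c (.a (.l 15) (.c (.b
      (.l 2503) (.a (.c (.b (.l 2503) (.l 2503)) (.b (.l 2503) (.l 2503))) (.l 2499))) (.b (.l
      2375) (.a (.c (.b (.l 2503) (.l 2503)) (.b (.l 2375) (.l 2375))) (.l 2371))))) (.a (.l 15)
      (.c (.b (.l 2375) (.a (.b (.l 2375) (.l 2375)) (.l 2371))) (.b (.l 2375) (.a (.b (.l 2375)
      (.l 2375)) (.l 2371)))))))

theorem x2_t3b_c3_n_h5 : chk3 (onCell 0 1073741824 0 429496730 0 67108864 T2_t3b_c3_n) x2_t3b_c3_n_t5 10 13 14 = true := by decide +kernel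

def x2_t3b_c3_n_t6 : T :=
  (.c (.a (.l 15) (.c (.c (.b (.l 2247) (.a (.b (.l 2247) (.l 2247)) (.l 2243))) (.b (.l 2247)
      (.a (.b (.l 2247) (.l 2247)) (.l 2243)))) (.c (.b (.l 2247) (.a (.b (.l 2247) (.l 2247))
      (.l 2243))) (.b (.l 2247) (.a (.b (.l 2247) (.l 2247)) (.l 2243)))))) (.a (.l 15) (.c (.c
      (.b (.l 2119) (.a (.b (.l 2119) (.l 2119)) (.l 2115))) (.b (.l 2119) (.a (.b (.l 2119) (.l
      2119)) (.l 2115)))) (.b (.l 1991) (.c (.a (.b (.l 2119) (.l 2119)) (.l 2115)) (.a (.b (.l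
      1991) (.l 1991)) (.l 1987)))))))

theorem x2_t3b_c3_n_h6 : chk3 (onCell 0 1073741824 0 429496730 0 67108864 T2_t3b_c3_n) x2_t3b_c3_n_t6 10 13 15 = true := by decide +kernel

def x2_t3b_c3_n_t7 : T :=
  (.c (.a (.b (.l 2755) (.l 2755)) (.l 2755)) (.a (.c (.c (.c (.b (.l 2627) (.l 2627)) (.b (.l
      2499) (.l 2499))) (.c (.b (.l 2371) (.l 2371)) (.b (.l 2371) (.l 2371)))) (.c (.c (.b (.l
      2243) (.l 2243)) (.b (.l 2243) (.l 2243))) (.b (.l 1987) (.l 1987)))) (.a (.l 1987) (.l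
      1987))))

theorem x2_t3b_c3_n_h7 : chk3 (onCell 0 1073741824 0 429496730 0 67108864 T2_t3b_c3_n) x2_t3b_c3_n_t7 11 6 3 = true := by decide +kernel

def x2_t3b_c3_n_t8 : T :=
  (.c (.a (.l 15) (.b (.b (.c (.l 3271) (.l 2759)) (.l 2759)) (.l 2759))) (.b (.a (.l 15) (.c (.c
      (.c (.b (.l 71) (.l 2631)) (.b (.c (.b (.l 2631) (.l 2631)) (.b (.l 71) (.l 2503))) (.l
      2503))) (.c (.b (.c (.b (.l 71) (.l 2503)) (.b (.a (.l 2375) (.l 2371)) (.l 2375))) (.l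
      2375)) (.b (.c (.b (.a (.l 2375) (.l 2371)) (.l 2375)) (.b (.a (.l 2375) (.l 2371)) (.l
      2375))) (.l 2375)))) (.c (.c (.b (.c (.b (.a (.l 2247) (.l 2243)) (.l 2247)) (.b (.a (.l
      2247) (.l 2243)) (.l 2247))) (.l 2247)) (.b (.c (.b (.a (.l 2247) (.l 2243)) (.l 2247)) (.b
      (.a (.l 2247) (.l 2243)) (.l 2247))) (.l 2247))) (.c (.b (.c (.b (.a (.l 2119) (.l 2115))
      (.l 2119)) (.b (.a (.l 2119) (.l 2115)) (.l 2119))) (.l 2119)) (.b (.c (.b (.a (.l 2119)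
      (.l 2115)) (.l 2119)) (.b (.a (.l 1991) (.l 1987)) (.l 1991))) (.l 1991)))))) (.c (.l 2375)
      (.c (.l 2247) (.l 71)))))

theorem x2_t3b_c3_n_h8 : chk3 (onCell 0 1073741824 0 429496730 0 67108864 T2_t3b_c3_n) x2_t3b_c3_n_t8 10 7 3 = true := by decide +kernel

def x2_t3b_c3_n_t9 : T :=
  (.c (.a (.b (.l 2755) (.l 2755)) (.l 2755)) (.a (.c (.c (.b (.l 2499) (.l 2499)) (.b (.l 2371)
      (.l 2371))) (.c (.b (.l 2243) (.l 2243)) (.b (.l 1987) (.l 1987)))) (.l 1987)))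

theorem x2_t3b_c3_n_h9 : chk3 (onCell 0 1073741824 0 429496730 0 67108864 T2_t3b_c3_n) x2_t3b_c3_n_t9 11 7 3 = true := by decide +kernel

def x2_t3b_c3_n_t10 : T :=
  (.a (.c (.a (.a (.a (.b (.l 4035) (.l 4035)) (.l 4035)) (.b (.l 4035) (.l 4035))) (.a (.l 4035)
      (.l 4035))) (.a (.b (.l 1991) (.a (.l 1987) (.l 1987))) (.a (.b (.l 1987) (.c (.l 2755) (.l
      1987))) (.b (.l 1987) (.c (.l 2755) (.l 1987)))))) (.c (.a (.l 4035) (.l 4035)) (.a (.a (.b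
      (.c (.l 2755) (.l 1987)) (.c (.l 2755) (.l 1987))) (.b (.a (.c (.l 2755) (.l 1987)) (.c (.l
      2755) (.l 1987))) (.c (.l 2755) (.l 1987)))) (.a (.b (.a (.c (.l 2755) (.l 1987)) (.c (.l
      2755) (.l 1987))) (.a (.c (.l 2755) (.l 1987)) (.c (.l 2755) (.l 1987)))) (.b (.a (.c (.l
      2755) (.l 1987)) (.c (.l 2755) (.l 1987))) (.a (.c (.l 2755) (.l 1987)) (.c (.l 2755) (.l
      1987))))))))

theorem x2_t3b_c3_n_h10 : chk3 (onCell 0 1073741824 0 429496730 0 67108864 T2_t3b_c3_n) x2_t3b_c3_n_t10 3 2 1 = true := by decide +kernel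

def x2_t3b_c3_n_t11 : T :=
  (.a (.c (.a (.a (.a (.b (.l 4035) (.l 4035)) (.b (.l 4035) (.l 4035))) (.b (.l 4035) (.l
      4035))) (.a (.l 4035) (.l 4035))) (.a (.a (.b (.l 1987) (.l 1987)) (.b (.l 1987) (.l
      1987))) (.a (.b (.b (.l 1987) (.l 1987)) (.c (.l 2755) (.l 1987))) (.b (.b (.l 1987) (.l
      1987)) (.c (.l 2755) (.l 1987)))))) (.c (.a (.l 4035) (.l 4035)) (.a (.a (.b (.b (.c (.l
      2755) (.l 1987)) (.c (.l 2755) (.l 1987))) (.c (.l 2755) (.l 1987))) (.b (.b (.c (.l 2755)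
      (.l 1987)) (.c (.l 2755) (.l 1987))) (.c (.l 2755) (.l 1987)))) (.b (.a (.b (.c (.l 2755)
      (.l 1987)) (.c (.l 2755) (.l 1987))) (.b (.c (.l 2755) (.l 1987)) (.c (.l 2755) (.l
      1987)))) (.a (.c (.l 2755) (.l 1987)) (.c (.l 2755) (.l 1987)))))))

theorem x2_t3b_c3_n_h11 : chk3 (onCell 0 1073741824 0 429496730 0 67108864 T2_t3b_c3_n) x2_t3b_c3_n_t11 3 3 1 = true := by decide +kernel

theorem x2_t3b_c3_n : Tree 0 1073741824 0 429496730 0 67108864 T2_t3b_c3_n :=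
  ⟨_, (chk3_a (chk3_b x2_t3b_c3_n_h0 (chk3_a x2_t3b_c3_n_h1 (chk3_c x2_t3b_c3_n_h2 (chk3_b
      (chk3_a (chk3_c x2_t3b_c3_n_h3 (chk3_b x2_t3b_c3_n_h4 (chk3_c x2_t3b_c3_n_h5
      x2_t3b_c3_n_h6))) x2_t3b_c3_n_h7) (chk3_a x2_t3b_c3_n_h8 x2_t3b_c3_n_h9))))) (chk3_b
      x2_t3b_c3_n_h10 x2_t3b_c3_n_h11))⟩

def x1_u1_p_f_t0 : T :=
  (.b (.a (.l 4996) (.a (.l 4996) (.a (.l 5060) (.a (.l 5060) (.l 5028))))) (.a (.l 4996) (.b (.b
      (.a (.l 4996) (.l 5060)) (.a (.l 4996) (.l 5060))) (.a (.l 4996) (.a (.b (.l 5056) (.a (.l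
      4992) (.l 5056))) (.b (.l 5056) (.l 5056)))))))

theorem x1_u1_p_f_h0 : chk3 (onCell 0 2684354560 0 1073741824 0 26843546 T1_u1_p_f) x1_u1_p_f_t0 4 1 1 = true := by decide +kernel

def x1_u1_p_f_t1 : T :=
  (.a (.a (.a (.b (.l 155760) (.b (.l 5028) (.b (.l 5024) (.l 5024)))) (.b (.l 180400) (.b (.l
      5028) (.b (.l 5024) (.l 5024))))) (.b (.b (.l 15) (.l 213200)) (.b (.l 147504) (.b (.b (.l
      5024) (.l 5024)) (.l 12))))) (.a (.b (.b (.l 15) (.b (.l 15) (.l 229680))) (.b (.l 172176)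
      (.b (.b (.l 5024) (.l 5024)) (.b (.b (.l 5024) (.l 12)) (.l 12))))) (.b (.b (.l 15) (.b (.l
      15) (.l 254320))) (.b (.b (.l 5028) (.l 188624)) (.b (.b (.l 5024) (.l 5024)) (.b (.b (.l
      5024) (.l 12)) (.l 12)))))))

theorem x1_u1_p_f_h1 : chk3 (onCell 0 2684354560 0 1073741824 0 26843546 T1_u1_p_f) x1_u1_p_f_t1 10 1 1 = true := by decide +kernel

def x1_u1_p_f_t2 : T :=
  (.a (.b (.l 15) (.b (.l 15) (.a (.b (.l 15) (.c (.l 254256) (.l 15))) (.b (.l 15) (.c (.l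
      10148) (.l 15)))))) (.b (.l 15) (.b (.l 15) (.c (.l 10148) (.a (.l 5028) (.b (.l 15) (.l
      15)))))))

theorem x1_u1_p_f_h2 : chk3 (onCell 0 2684354560 0 1073741824 0 26843546 T1_u1_p_f) x1_u1_p_f_t2 11 2 1 = true := by decide +kernel

def x1_u1_p_f_t3 : T :=
  (.b (.b (.b (.a (.a (.c (.b (.l 254256) (.l 254256)) (.b (.l 237872) (.l 237872))) (.c (.l
      254320) (.l 237904))) (.a (.l 213296) (.l 5028))) (.a (.a (.b (.c (.l 10144) (.l 5024)) (.l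
      5024)) (.b (.l 205104) (.a (.l 5024) (.l 5024)))) (.a (.b (.l 5030) (.l 5030)) (.l 5030))))
      (.a (.a (.b (.b (.l 5024) (.l 5024)) (.l 5024)) (.b (.b (.l 5024) (.l 5024)) (.l 5024)))
      (.a (.b (.b (.l 5024) (.l 5024)) (.l 5026)) (.b (.b (.l 5026) (.l 5026)) (.l 5026))))) (.a
      (.b (.a (.b (.l 5024) (.b (.l 5024) (.l 5024))) (.b (.l 5024) (.a (.l 5024) (.l 5024))))
      (.b (.a (.b (.l 5024) (.l 14)) (.a (.b (.l 5024) (.l 5024)) (.l 5026))) (.c (.l 14) (.l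
      14)))) (.a (.b (.a (.b (.l 5024) (.l 5024)) (.l 5026)) (.a (.b (.l 5026) (.a (.l 5026) (.l
      5026))) (.b (.l 5026) (.l 5026)))) (.a (.b (.l 5026) (.l 5026)) (.b (.l 5026) (.l 5026))))))

theorem x1_u1_p_f_h3 : chk3 (onCell 0 2684354560 0 1073741824 0 26843546 T1_u1_p_f) x1_u1_p_f_t3 11 3 1 = true := by decide +kernel

def x1_u1_p_f_t4 : T :=
  (.c (.a (.b (.l 15) (.b (.l 15) (.l 10150))) (.a (.b (.l 15) (.l 10182)) (.b (.l 15) (.l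
      10150)))) (.b (.l 15) (.a (.b (.l 15) (.a (.l 5030) (.l 5030))) (.a (.c (.b (.l 15) (.l
      6822)) (.b (.l 15) (.l 15))) (.c (.l 6822) (.c (.l 5798) (.b (.l 15) (.l 15))))))))

theorem x1_u1_p_f_h4 : chk3 (onCell 0 2684354560 0 1073741824 0 26843546 T1_u1_p_f) x1_u1_p_f_t4 6 2 1 = true := by decide +kernel

def x1_u1_p_f_t5 : T :=
  (.a (.b (.b (.b (.a (.l 5030) (.l 5030)) (.a (.a (.b (.l 5030) (.l 5026)) (.l 5030)) (.l
      5030))) (.a (.b (.a (.b (.l 5026) (.l 5026)) (.l 5026)) (.a (.l 5026) (.l 5026))) (.b (.a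
      (.l 5026) (.l 5026)) (.a (.l 5026) (.l 5026))))) (.a (.a (.b (.a (.l 5026) (.l 5026)) (.a
      (.l 5026) (.l 5026))) (.b (.b (.l 5026) (.l 5026)) (.l 5026))) (.b (.a (.l 5026) (.l 5026))
      (.a (.l 5026) (.b (.l 5026) (.l 5058)))))) (.b (.b (.b (.c (.l 10150) (.l 5030)) (.a (.l
      5030) (.l 5030))) (.b (.a (.a (.l 5026) (.l 5026)) (.b (.l 5026) (.l 5026))) (.a (.a (.l
      5026) (.l 5026)) (.l 5058)))) (.c (.a (.b (.l 10146) (.l 10146)) (.l 10146)) (.a (.b (.l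
      5026) (.l 5026)) (.b (.l 5026) (.a (.l 5026) (.l 5026)))))))

theorem x1_u1_p_f_h5 : chk3 (onCell 0 2684354560 0 1073741824 0 26843546 T1_u1_p_f) x1_u1_p_f_t5 6 3 1 = true := by decide +kernel

def x1_u1_p_f_t6 : T :=
  (.c (.a (.b (.c (.l 20390) (.b (.l 15) (.l 10150))) (.b (.b (.l 10150) (.b (.l 10146) (.l
      10146))) (.b (.l 10146) (.l 10146)))) (.b (.a (.c (.l 20422) (.l 10182)) (.c (.l 20390) (.b
      (.l 15) (.l 10150)))) (.b (.b (.l 10182) (.l 10178)) (.l 10178)))) (.b (.a (.b (.l 15) (.c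
      (.l 6822) (.c (.b (.l 15) (.l 5798)) (.b (.l 15) (.l 15))))) (.c (.a (.b (.l 15) (.l 6822))
      (.b (.l 15) (.c (.l 8102) (.l 6822)))) (.b (.l 15) (.a (.b (.l 15) (.l 15)) (.c (.l 15) (.l
      15)))))) (.c (.a (.b (.b (.l 6822) (.b (.l 6818) (.l 6818))) (.b (.l 6818) (.l 6818))) (.b
      (.b (.l 6854) (.l 6818)) (.b (.l 6818) (.l 6818)))) (.b (.b (.b (.a (.l 5030) (.l 5030))
      (.a (.l 5030) (.l 5062))) (.a (.b (.l 5026) (.l 5026)) (.b (.l 5026) (.l 5026)))) (.a (.b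
      (.a (.l 5026) (.l 5026)) (.a (.l 5026) (.l 5026))) (.b (.b (.l 5026) (.l 5026)) (.a (.l
      5026) (.l 5026))))))))

theorem x1_u1_p_f_h6 : chk3 (onCell 0 2684354560 0 1073741824 0 26843546 T1_u1_p_f) x1_u1_p_f_t6 7 1 1 = true := by decide +kernel

theorem x1_u1_p_f : Tree 0 2684354560 0 1073741824 0 26843546 T1_u1_p_f :=
  ⟨_, (chk3_a (chk3_a x1_u1_p_f_h0 (chk3_a x1_u1_p_f_h1 (chk3_b x1_u1_p_f_h2 x1_u1_p_f_h3)))
      (chk3_a (chk3_b x1_u1_p_f_h4 x1_u1_p_f_h5) x1_u1_p_f_h6))⟩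

def x2_u1_p_f_t0 : T :=
  (.a (.c (.b (.l 8134) (.b (.l 8134) (.l 8134))) (.b (.l 4038) (.b (.l 4038) (.b (.l 4006) (.l
      4038))))) (.c (.a (.b (.l 8134) (.l 8134)) (.b (.l 8130) (.a (.l 8130) (.l 8130)))) (.a (.b
      (.l 4038) (.c (.l 5446) (.a (.l 4038) (.l 4038)))) (.b (.a (.l 4034) (.l 4034)) (.a (.b (.l
      4034) (.l 4002)) (.l 4034))))))

theorem x2_u1_p_f_h0 : chk3 (onCell 0 1073741824 0 429496730 0 67108864 T2_u1_p_f) x2_u1_p_f_t0 1 1 2 = true := by decide +kernel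

def x2_u1_p_f_t1 : T :=
  (.a (.c (.a (.l 15) (.l 15)) (.a (.l 15) (.l 15))) (.c (.a (.b (.l 2758) (.c (.a (.b (.l 3238)
      (.l 3270)) (.a (.l 3270) (.l 3266))) (.a (.b (.l 2726) (.l 2758)) (.a (.b (.l 2722) (.l
      2722)) (.b (.l 2722) (.l 2722)))))) (.b (.a (.b (.l 2754) (.l 2754)) (.l 2754)) (.a (.b (.l
      2754) (.l 2722)) (.b (.l 2722) (.l 2722))))) (.a (.b (.c (.l 2374) (.a (.l 1990) (.l
      1990))) (.c (.a (.b (.l 2342) (.l 2374)) (.a (.b (.l 2370) (.l 2338)) (.b (.l 2338) (.l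
      2338)))) (.a (.b (.l 1958) (.l 1990)) (.a (.b (.l 1986) (.l 1954)) (.b (.l 1954) (.l
      1954)))))) (.b (.a (.b (.l 1986) (.l 1986)) (.b (.l 1986) (.l 1986))) (.b (.a (.l 1986) (.l
      1954)) (.a (.a (.l 1954) (.l 1954)) (.b (.l 1954) (.l 1954))))))))

theorem x2_u1_p_f_h1 : chk3 (onCell 0 1073741824 0 429496730 0 67108864 T2_u1_p_f) x2_u1_p_f_t1 1 1 3 = true := by decide +kernel

theorem x2_u1_p_f : Tree 0 1073741824 0 429496730 0 67108864 T2_u1_p_f :=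
  ⟨_, (chk3_c x2_u1_p_f_h0 x2_u1_p_f_h1)⟩

end Pool.Agent.Strip051.LC.E1.Ch
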