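import Pool.Agent.Strip051.LC.E1.Ch.Rw6

/-! # Rests near the full period: certificates Q1 -/

set_option maxRecDepth 100000

namespace Pool.Agent.Strip051.LC.E1.Ch

open Pool.Agent.Strip051.PB
open Pool.Agent.Strip051.LC.E0.Ch (onCell Tree)

def x1_u6_n_f_t0 : T :=
  (.c (.c (.l 15) (.b (.l 15) (.l 15))) (.b (.a (.l 15) (.a (.c (.l 15) (.b (.a (.c (.l 15) (.a
      (.l 15) (.b (.l 15) (.l 15)))) (.c (.b (.a (.l 15) (.c (.l 15) (.l 2))) (.l 15)) (.b (.a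
      (.c (.a (.l 15) (.l 2)) (.a (.l 2) (.l 4994))) (.l 4994)) (.a (.l 15) (.c (.l 15) (.l
      2)))))) (.l 15))) (.c (.b (.a (.c (.l 15) (.b (.a (.l 15) (.c (.l 15) (.l 6786))) (.l 15)))
      (.c (.b (.l 15) (.l 15)) (.b (.l 6786) (.a (.l 15) (.l 6850))))) (.l 15)) (.b (.a (.c (.b
      (.a (.l 5762) (.l 5762)) (.a (.l 15) (.l 5762))) (.b (.l 4994) (.a (.l 4994) (.l 4994))))
      (.c (.b (.l 5762) (.l 5826)) (.b (.l 4994) (.l 4994)))) (.a (.c (.l 15) (.b (.a (.l 15) (.b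
      (.l 4994) (.l 15))) (.l 15))) (.c (.b (.a (.l 15) (.l 5762)) (.l 15)) (.b (.l 4994) (.a (.l
      15) (.b (.l 4994) (.l 15)))))))))) (.c (.l 15) (.a (.l 15) (.l 15)))))

theorem x1_u6_n_f_h0 : chk3 (onCell 0 2684354560 0 1073741824 0 26843546 T1_u6_n_f) x1_u6_n_f_t0 1 1 1 = true := by decide +kernel

theorem x1_u6_n_f : Tree 0 2684354560 0 1073741824 0 26843546 T1_u6_n_f :=
  ⟨_, x1_u6_n_f_h0⟩

def x2_u6_n_f_t0 : T :=
  (.c (.l 15) (.a (.c (.a (.c (.l 15) (.b (.l 2754) (.b (.l 2754) (.l 2754)))) (.l 15)) (.a (.b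
      (.b (.l 1986) (.c (.l 2370) (.l 1986))) (.a (.b (.l 1922) (.c (.l 2306) (.l 1922))) (.b (.l
      1922) (.c (.l 2306) (.l 1922))))) (.c (.b (.l 2370) (.a (.l 2370) (.l 15))) (.b (.l 1986)
      (.a (.l 1922) (.b (.l 1922) (.l 1922))))))) (.l 15)))

theorem x2_u6_n_f_h0 : chk3 (onCell 0 1073741824 0 429496730 0 67108864 T2_u6_n_f) x2_u6_n_f_t0 1 1 1 = true := by decide +kernel

theorem x2_u6_n_f : Tree 0 1073741824 0 429496730 0 67108864 T2_u6_n_f :=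
  ⟨_, x2_u6_n_f_h0⟩

def x1_u6_n_n_t0 : T :=
  (.a (.c (.l 15) (.a (.l 15) (.l 15))) (.c (.a (.l 15) (.l 15)) (.b (.a (.c (.l 15) (.b (.a (.c
      (.l 15) (.b (.a (.l 15) (.l 15)) (.l 15))) (.c (.a (.l 15) (.b (.l 5826) (.l 15))) (.b (.a
      (.l 5058) (.l 5058)) (.a (.l 15) (.l 5058))))) (.l 15))) (.c (.b (.c (.c (.l 15) (.a (.l
      15) (.l 8130))) (.b (.a (.l 6850) (.l 6850)) (.a (.l 15) (.l 6850)))) (.l 15)) (.b (.a (.c
      (.b (.l 5826) (.a (.l 15) (.l 5826))) (.b (.l 5058) (.l 5058))) (.c (.b (.l 5826) (.l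
      5826)) (.b (.l 5058) (.l 5058)))) (.c (.b (.a (.l 15) (.l 5826)) (.l 15)) (.a (.b (.a (.l
      15) (.l 5058)) (.l 15)) (.b (.l 5058) (.a (.l 15) (.l 4994)))))))) (.a (.l 15) (.l 15)))))

theorem x1_u6_n_n_h0 : chk3 (onCell 0 2684354560 0 1073741824 0 26843546 T1_u6_n_n) x1_u6_n_n_t0 1 1 1 = true := by decide +kernel

theorem x1_u6_n_n : Tree 0 2684354560 0 1073741824 0 26843546 T1_u6_n_n :=
  ⟨_, x1_u6_n_n_h0⟩

def x2_u6_n_n_t0 : T :=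
  (.c (.l 15) (.a (.c (.a (.b (.b (.l 2754) (.l 2754)) (.c (.l 15) (.b (.l 2754) (.l 2754)))) (.l
      15)) (.a (.b (.b (.l 1986) (.l 1986)) (.c (.b (.l 2370) (.l 2370)) (.b (.l 1986) (.a (.l
      1922) (.l 1986))))) (.b (.c (.l 2370) (.l 1986)) (.c (.b (.l 2370) (.l 2370)) (.b (.l 1986)
      (.a (.l 1986) (.l 1986))))))) (.l 15)))

theorem x2_u6_n_n_h0 : chk3 (onCell 0 1073741824 0 429496730 0 67108864 T2_u6_n_n) x2_u6_n_n_t0 1 1 1 = true := by decide +kernel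

theorem x2_u6_n_n : Tree 0 1073741824 0 429496730 0 67108864 T2_u6_n_n :=
  ⟨_, x2_u6_n_n_h0⟩

end Pool.Agent.Strip051.LC.E1.Ch
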